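import Pool.Agent.Lib.MP_e426f4_ag.DH.Defs

/-!
# ADefs: index sets and determinants for the types A and B (definitions only)
-/

set_option autoImplicit false

namespace Pool.Agent.Lib.MP_e426f4_ag.DH

open Finset
open Pool.Agent.Lib.MP_e426f4_ag.DG

/-- type A: `((q,l),(q',l'))` with `l ≠ l'` -/
def zA (Q P : Finset ℕ) : Finset ((ℕ × ℕ) × (ℕ × ℕ)) :=
  ((Q ×ˢ P) ×ˢ (Q ×ˢ P)).filter fun z => z.1.2 ≠ z.2.2

/-- the reduced left entry: the common prime `q = q'` is cancelled -/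
def eL (t : ℕ) (z : (ℕ × ℕ) × (ℕ × ℕ)) : ℕ :=
  if z.1.1 = z.2.1 then t * z.1.2 else t * (z.1.1 * z.1.2)

/-- the reduced right entry -/
def eR (t' : ℕ) (z : (ℕ × ℕ) × (ℕ × ℕ)) : ℕ :=
  if z.1.1 = z.2.1 then t' * z.2.2 else t' * (z.2.1 * z.2.2)

/-- the determinant for type A -/
def DA (d t1 t1' t t' : ℕ) (z1 z : (ℕ × ℕ) × (ℕ × ℕ)) : ℤ :=
  (eL t1 z1 : ℤ) ^ d * ((t' * (z.2.1 * z.2.2) : ℕ) : ℤ) ^ d -
    (eR t1' z1 : ℤ) ^ d * ((t * (z.1.1 * z.1.2) : ℕ) : ℤ) ^ d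

/-- type B: `(l,(q,q'))` with `q ≠ q'` -/
def zB (Q P : Finset ℕ) : Finset (ℕ × (ℕ × ℕ)) :=
  (P ×ˢ (Q ×ˢ Q)).filter fun z => z.2.1 ≠ z.2.2

/-- the determinant for type B (the common prime `l` of the first pair is cancelled) -/
def DB (d t1 t1' t t' : ℕ) (z1 z : ℕ × (ℕ × ℕ)) : ℤ :=
  ((t1 * z1.2.1 : ℕ) : ℤ) ^ d * ((t' * (z.2.2 * z.1) : ℕ) : ℤ) ^ d -
    ((t1' * z1.2.2 : ℕ) : ℤ) ^ d * ((t * (z.2.1 * z.1) : ℕ) : ℤ) ^ d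

/-- size of `eL`, `eR` -/
def St.uA {d g h s m v E : ℕ} (S : St d g h s m v E) (z : (ℕ × ℕ) × (ℕ × ℕ)) : ℕ :=
  if z.1.1 = z.2.1 then S.BB else S.B

/-- exponent for the losses in the counts -/
def cA (d : ℕ) : ℕ := 60 * d + 200

end Pool.Agent.Lib.MP_e426f4_ag.DH
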