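import Pool.Agent.Lib.MP_e426f4_ag.DH.Defs
import Pool.Agent.Lib.MP_e426f4_ag.DG.Ident
import Pool.Agent.Lib.MP_e426f4_ag.DG.Ker1
import Pool.Agent.Lib.MP_e426f4_ag.DG.Ker2
import Pool.Agent.Lib.MP_e426f4_ag.DG.FFb

/-!
# BadG: the second moment identity split over three classes

From the proof of `DG/Ident.lean` (its private lemma `ident_diff`; copy what is needed):
`N - M = P⁻¹ ∑_b ψ(b) ∏ S_i(a_i b)`.  For a real weight `φ`:
`∑_a ∏ w(a_i) |P⁻¹ ∑_b φ(b) ∏ S_i(a_i b)|² = rhsG P n d X φ` (as in `ident`, by `FF_eq`).  If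
`ψ = φ1 + φ2 + φ3` then `(N-M)² ≤ 3 (|D1|² + |D2|² + |D3|²)`.  Then as in `DG/Bad.lean`: `w(a) ≥ 1/2` for `|a| ≤ H`.
-/

set_option autoImplicit false

namespace Pool.Agent.Lib.MP_e426f4_ag.DH

open Finset
open Pool.Agent.Lib.MP_e426f4_ag.DG

section

variable {P : ℕ} [NeZero P]

private theorem bg_ee_sum {ι : Type*} (t : Finset ι) (f : ι → ZMod P) :
    ee P (∑ i ∈ t, f i) = ∏ i ∈ t, ee P (f i) := by
  classical
  unfold ee
  induction t using Finset.induction_on with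
  | empty => rw [Finset.sum_empty, Finset.prod_empty, AddChar.map_zero_eq_one]
  | insert a t ha ih =>
    rw [Finset.sum_insert ha, Finset.prod_insert ha, AddChar.map_add_eq_mul, ih]

private theorem bg_ee_add (a b : ZMod P) : ee P (a + b) = ee P a * ee P b := by
  unfold ee
  exact AddChar.map_add_eq_mul _ _ _

private theorem bg_NN {s : ℕ} (d : ℕ) (X : Fin s → Finset ℕ) (a : Fin s → ZMod P)
    (v : ZMod P) : (NN P d X a v : ℂ) =
      (1 / (P : ℂ)) * ∑ b : ZMod P, ee P (-(b * v)) * ∏ i, SS P d (X i) (a i * b) := by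
  have hP : (P : ℂ) ≠ 0 := by exact_mod_cast NeZero.ne P
  have h1 : ∀ b : ZMod P, ee P (-(b * v)) * ∏ i, SS P d (X i) (a i * b) =
      ∑ x ∈ Fintype.piFinset X, ee P (b * (∑ i, a i * (x i : ZMod P) ^ d - v)) := by
    intro b
    unfold SS
    rw [Finset.prod_univ_sum, Finset.mul_sum]
    refine Finset.sum_congr rfl fun x _ => ?_
    rw [← bg_ee_sum, ← bg_ee_add]
    congr 1
    rw [mul_sub, Finset.mul_sum]
    have h2 : ∀ i : Fin s, a i * b * (x i : ZMod P) ^ d = b * (a i * (x i : ZMod P) ^ d) :=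
      fun i => by ring
    simp only [h2]
    ring
  simp only [h1]
  rw [Finset.sum_comm]
  simp only [sum_ee]
  unfold NN
  rw [← Finset.sum_filter, Finset.sum_const, nsmul_eq_mul]
  have h3 : ((Fintype.piFinset X).filter fun x : Fin s → ℕ =>
      ∑ i, a i * (x i : ZMod P) ^ d - v = 0) = ((Fintype.piFinset X).filter fun x : Fin s → ℕ =>
      ∑ i, a i * (x i : ZMod P) ^ d = v) := by
    refine Finset.filter_congr fun x _ => ?_
    exact sub_eq_zero
  rw [h3]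
  push_cast
  field_simp

private theorem bg_psi (W J : ℕ) (b : ZMod P) : (psi P W J b : ℂ) =
    1 - (∑ j ∈ Icc (-(J : ℤ)) J, ee P (-(b * (((W : ℤ) * j : ℤ) : ZMod P)))) / (2 * (J : ℂ) + 1) := by
  have hexp : ∀ j : ℤ, ee P (-(b * (((W : ℤ) * j : ℤ) : ZMod P))) =
      Complex.exp (-(((2 * Real.pi * ((W : ℝ) * (j : ℝ) * ((b.val : ℝ) / P)) : ℝ) : ℂ) *
        Complex.I)) := by
    intro j
    have h1 : (-(b * (((W : ℤ) * j : ℤ) : ZMod P)) : ZMod P) =
        ((-((b.val : ℤ) * (W * j)) : ℤ) : ZMod P) := by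
      push_cast
      rw [ZMod.natCast_zmod_val]
    unfold ee
    rw [h1, ZMod.stdAddChar_coe]
    congr 1
    push_cast
    ring
  have hsymm : ∑ j ∈ Icc (-(J : ℤ)) J, ee P (-(b * (((W : ℤ) * j : ℤ) : ZMod P))) =
      ∑ j ∈ Icc (-(J : ℤ)) J,
        Complex.exp (((2 * Real.pi * ((W : ℝ) * (j : ℝ) * ((b.val : ℝ) / P)) : ℝ) : ℂ) *
        Complex.I) := by
    refine Finset.sum_nbij' (fun j => -j) (fun j => -j) ?_ ?_ ?_ ?_ ?_
    · intro j hj
      rw [Finset.mem_Icc] at hj ⊢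
      omega
    · intro j hj
      rw [Finset.mem_Icc] at hj ⊢
      omega
    · intro j _; exact neg_neg j
    · intro j _; exact neg_neg j
    · intro j _
      rw [hexp]
      congr 1
      push_cast
      ring
  have hcos : ∑ j ∈ Icc (-(J : ℤ)) J, ee P (-(b * (((W : ℤ) * j : ℤ) : ZMod P))) =
      ((∑ j ∈ Icc (-(J : ℤ)) J,
        Real.cos (2 * Real.pi * ((W : ℝ) * (j : ℝ) * ((b.val : ℝ) / P))) : ℝ) : ℂ) := by
    have h2 : 2 * ∑ j ∈ Icc (-(J : ℤ)) J, ee P (-(b * (((W : ℤ) * j : ℤ) : ZMod P))) =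
        2 * ((∑ j ∈ Icc (-(J : ℤ)) J,
        Real.cos (2 * Real.pi * ((W : ℝ) * (j : ℝ) * ((b.val : ℝ) / P))) : ℝ) : ℂ) := by
      have h3 : 2 * ∑ j ∈ Icc (-(J : ℤ)) J, ee P (-(b * (((W : ℤ) * j : ℤ) : ZMod P))) =
          ∑ j ∈ Icc (-(J : ℤ)) J, ee P (-(b * (((W : ℤ) * j : ℤ) : ZMod P))) +
          ∑ j ∈ Icc (-(J : ℤ)) J,
            Complex.exp (((2 * Real.pi * ((W : ℝ) * (j : ℝ) * ((b.val : ℝ) / P)) : ℝ) : ℂ) *
            Complex.I) := by
        rw [← hsymm]; ring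
      rw [h3, ← Finset.sum_add_distrib, Complex.ofReal_sum, Finset.mul_sum]
      refine Finset.sum_congr rfl fun j _ => ?_
      rw [hexp, Complex.ofReal_cos, Complex.cos]
      ring_nf
    exact mul_left_cancel₀ two_ne_zero h2
  rw [hcos]
  unfold psi
  push_cast
  ring

private theorem bg_diff {s : ℕ} (d W J : ℕ) (X : Fin s → Finset ℕ) (a : Fin s → ZMod P) :
    ((NN P d X a 0 - Mavg P d W J X a : ℝ) : ℂ) =
      (1 / (P : ℂ)) * ∑ b : ZMod P, (psi P W J b : ℂ) * ∏ i, SS P d (X i) (a i * b) := by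
  have hJ : (2 * (J : ℂ) + 1) ≠ 0 := by
    have : ((2 * J + 1 : ℕ) : ℂ) ≠ 0 := by
      rw [Nat.cast_ne_zero]; omega
    push_cast at this
    exact this
  have h0 : ee P 0 = 1 := by
    unfold ee
    exact AddChar.map_zero_eq_one _
  unfold Mavg
  push_cast
  rw [bg_NN]
  simp only [bg_NN]
  simp only [mul_zero, neg_zero, h0, one_mul]
  rw [← Finset.mul_sum, Finset.sum_comm]
  simp only [← Finset.sum_mul]
  rw [mul_div_assoc, ← mul_sub, Finset.sum_div, ← Finset.sum_sub_distrib]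
  congr 1
  refine Finset.sum_congr rfl fun b _ => ?_
  rw [bg_psi]
  push_cast
  ring

/-- the part of `N - M` which belongs to the weight `φ` -/
private noncomputable def bgD {s : ℕ} (P : ℕ) [NeZero P] (d : ℕ) (X : Fin s → Finset ℕ) (φ : ZMod P → ℝ)
    (a : Fin s → ZMod P) : ℂ :=
  (1 / (P : ℂ)) * ∑ b : ZMod P, (φ b : ℂ) * ∏ i, SS P d (X i) (a i * b)

private theorem bg_ident {s : ℕ} (n d : ℕ) (hn : 0 < n) (X : Fin s → Finset ℕ) (φ : ZMod P → ℝ) :
    ∑ a : Fin s → ZMod P, (∏ i, wt P n (a i)) * ‖bgD P d X φ a‖ ^ 2 = rhsG P n d X φ := by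
  have key : ((∑ a : Fin s → ZMod P, (∏ i, wt P n (a i)) * ‖bgD P d X φ a‖ ^ 2 : ℝ) : ℂ) =
      (rhsG P n d X φ : ℂ) := by
    have hsq : ∀ a : Fin s → ZMod P, (‖bgD P d X φ a‖ : ℂ) ^ 2 =
        (1 / (P : ℂ) ^ 2) * ∑ b : ZMod P, ∑ b' : ZMod P, (φ b : ℂ) * (φ b' : ℂ) *
          ∏ i, (SS P d (X i) (a i * b) * (starRingEnd ℂ) (SS P d (X i) (a i * b'))) := by
      intro a
      rw [← Complex.mul_conj']
      unfold bgD
      rw [map_mul, map_sum, map_div₀, map_one, Complex.conj_natCast]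
      have h2 : (1 / (P : ℂ) * ∑ b : ZMod P, (φ b : ℂ) * ∏ i, SS P d (X i) (a i * b)) *
          (1 / (P : ℂ) * ∑ b : ZMod P,
            (starRingEnd ℂ) ((φ b : ℂ) * ∏ i, SS P d (X i) (a i * b))) =
          1 / (P : ℂ) ^ 2 * ((∑ b : ZMod P, (φ b : ℂ) * ∏ i, SS P d (X i) (a i * b)) *
          ∑ b : ZMod P, (starRingEnd ℂ) ((φ b : ℂ) * ∏ i, SS P d (X i) (a i * b))) := by
        rw [one_div, one_div, ← inv_pow]
        ring
      rw [h2, Finset.sum_mul_sum]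
      congr 1
      refine Finset.sum_congr rfl fun b _ => Finset.sum_congr rfl fun b' _ => ?_
      rw [map_mul, Complex.conj_ofReal, map_prod, Finset.prod_mul_distrib]
      ring
    push_cast
    simp only [hsq]
    have hterm : ∀ a : Fin s → ZMod P, (∏ i, (wt P n (a i) : ℂ)) *
        ((1 / (P : ℂ) ^ 2) * ∑ b : ZMod P, ∑ b' : ZMod P, (φ b : ℂ) * (φ b' : ℂ) *
          ∏ i, (SS P d (X i) (a i * b) * (starRingEnd ℂ) (SS P d (X i) (a i * b')))) =
        (1 / (P : ℂ) ^ 2) * ∑ b : ZMod P, ∑ b' : ZMod P, (φ b : ℂ) * (φ b' : ℂ) *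
          ∏ i, ((wt P n (a i) : ℂ) * SS P d (X i) (a i * b) *
            (starRingEnd ℂ) (SS P d (X i) (a i * b'))) := by
      intro a
      rw [mul_left_comm, Finset.mul_sum]
      congr 1
      refine Finset.sum_congr rfl fun b _ => ?_
      rw [Finset.mul_sum]
      refine Finset.sum_congr rfl fun b' _ => ?_
      rw [mul_left_comm, ← Finset.prod_mul_distrib]
      congr 1
      refine Finset.prod_congr rfl fun i _ => ?_
      ring
    simp only [hterm]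
    rw [← Finset.mul_sum, Finset.sum_comm]
    unfold rhsG
    push_cast
    congr 1
    refine Finset.sum_congr rfl fun b _ => ?_
    rw [Finset.sum_comm]
    refine Finset.sum_congr rfl fun b' _ => ?_
    rw [← Finset.mul_sum]
    congr 1
    have h5 := Finset.prod_univ_sum (fun _ : Fin s => (Finset.univ : Finset (ZMod P)))
      (fun i c => (wt P n c : ℂ) * SS P d (X i) (c * b) * (starRingEnd ℂ) (SS P d (X i) (c * b')))
    rw [Fintype.piFinset_univ] at h5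
    rw [← h5]
    refine Finset.prod_congr rfl fun i _ => ?_
    exact (FF_eq n d hn (X i) b b').symm
  exact_mod_cast key

private theorem bg_split {s : ℕ} (d W J : ℕ) (X : Fin s → Finset ℕ) (φ1 φ2 φ3 : ZMod P → ℝ)
    (hφ : ∀ b, psi P W J b = φ1 b + φ2 b + φ3 b) (a : Fin s → ZMod P) :
    (NN P d X a 0 - Mavg P d W J X a) ^ 2 ≤
      3 * (‖bgD P d X φ1 a‖ ^ 2 + ‖bgD P d X φ2 a‖ ^ 2 + ‖bgD P d X φ3 a‖ ^ 2) := by
  have h1 : ((NN P d X a 0 - Mavg P d W J X a : ℝ) : ℂ) =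
      bgD P d X φ1 a + bgD P d X φ2 a + bgD P d X φ3 a := by
    rw [bg_diff]
    unfold bgD
    rw [← mul_add, ← mul_add, ← Finset.sum_add_distrib, ← Finset.sum_add_distrib]
    congr 1
    refine Finset.sum_congr rfl fun b _ => ?_
    rw [hφ b]
    push_cast
    ring
  have h2 : |NN P d X a 0 - Mavg P d W J X a| ≤
      ‖bgD P d X φ1 a‖ + ‖bgD P d X φ2 a‖ + ‖bgD P d X φ3 a‖ := by
    have h3 : |NN P d X a 0 - Mavg P d W J X a| =
        ‖((NN P d X a 0 - Mavg P d W J X a : ℝ) : ℂ)‖ := by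
      rw [Complex.norm_real, Real.norm_eq_abs]
    rw [h3, h1]
    exact norm_add₃_le
  rw [← sq_abs]
  refine (pow_le_pow_left₀ (abs_nonneg _) h2 2).trans ?_
  nlinarith [sq_nonneg (‖bgD P d X φ1 a‖ - ‖bgD P d X φ2 a‖),
    sq_nonneg (‖bgD P d X φ1 a‖ - ‖bgD P d X φ3 a‖), sq_nonneg (‖bgD P d X φ2 a‖ - ‖bgD P d X φ3 a‖)]

private theorem bg_cast_inj {P H : ℕ} (h2 : 2 * H < P) (x y : ℤ) (hx : |x| ≤ H) (hy : |y| ≤ H)
    (h : (x : ZMod P) = (y : ZMod P)) : x = y := by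
  rw [ZMod.intCast_eq_intCast_iff_dvd_sub] at h
  have h3 : |y - x| < (P : ℤ) := by
    have h4 : |y - x| ≤ |y| + |x| := abs_sub _ _
    have h5 : (2 * H : ℤ) < P := by exact_mod_cast h2
    linarith
  have h6 := Int.eq_zero_of_abs_lt_dvd h h3
  linarith

end

theorem bad_count {s : ℕ} (P : ℕ) [NeZero P] (n d W J H : ℕ) (hn : 0 < n) (hnH : 4 * n * H ≤ P)
    (h2 : 2 * H < P)
    (X : Fin s → Finset ℕ) (A : Finset (Fin s → ℤ)) (hA : ∀ a ∈ A, ∀ i, |a i| ≤ H)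
    (m0 : ℝ) (hm0 : 0 ≤ m0)
    (hN : ∀ a ∈ A, NN P d X (fun i => ((a i : ℤ) : ZMod P)) 0 = 0)
    (hM : ∀ a ∈ A, m0 ≤ Mavg P d W J X (fun i => ((a i : ℤ) : ZMod P)))
    (φ1 φ2 φ3 : ZMod P → ℝ) (hφ : ∀ b, psi P W J b = φ1 b + φ2 b + φ3 b) :
    (A.card : ℝ) * m0 ^ 2 ≤
      2 ^ s * (3 * (rhsG P n d X φ1 + rhsG P n d X φ2 + rhsG P n d X φ3)) := by
  classical
  obtain ⟨T, hT⟩ : ∃ T, T = 3 * (rhsG P n d X φ1 + rhsG P n d X φ2 + rhsG P n d X φ3) := ⟨_, rfl⟩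
  rw [← hT]
  set φ : (Fin s → ℤ) → (Fin s → ZMod P) := fun a i => ((a i : ℤ) : ZMod P) with hφd
  have hinj : Set.InjOn φ (A : Set (Fin s → ℤ)) := by
    intro a ha a' ha' haa
    funext i
    exact bg_cast_inj h2 _ _ (hA a ha i) (hA a' ha' i) (congrFun haa i)
  set f : (Fin s → ZMod P) → ℝ := fun a =>
    (∏ i, wt P n (a i)) * (NN P d X a 0 - Mavg P d W J X a) ^ 2 with hf
  have hw0 : ∀ a : Fin s → ZMod P, 0 ≤ ∏ i, wt P n (a i) :=
    fun a => Finset.prod_nonneg fun i _ => wt_nonneg n (a i)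
  have hf0 : ∀ a, 0 ≤ f a := fun a => mul_nonneg (hw0 a) (sq_nonneg _)
  have h3 : ∑ a ∈ A, f (φ a) ≤ T := by
    have h31 : ∑ a : Fin s → ZMod P, f a ≤ T := by
      rw [hT, ← bg_ident n d hn X φ1, ← bg_ident n d hn X φ2, ← bg_ident n d hn X φ3,
        ← Finset.sum_add_distrib, ← Finset.sum_add_distrib, Finset.mul_sum]
      refine Finset.sum_le_sum fun a _ => ?_
      have h32 := mul_le_mul_of_nonneg_left (bg_split d W J X φ1 φ2 φ3 hφ a) (hw0 a)
      refine h32.trans (le_of_eq ?_)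
      ring
    refine le_trans ?_ h31
    rw [← Finset.sum_image hinj]
    exact Finset.sum_le_sum_of_subset_of_nonneg (Finset.subset_univ _) fun a _ _ => hf0 a
  have h4 : ∀ a ∈ A, (1 / 2 : ℝ) ^ s * m0 ^ 2 ≤ f (φ a) := by
    intro a ha
    have h5 : (1 / 2 : ℝ) ^ s ≤ ∏ i, wt P n (φ a i) := by
      have h6 : ∏ i : Fin s, (1 / 2 : ℝ) ≤ ∏ i, wt P n (φ a i) := by
        apply Finset.prod_le_prod
        · intro i _
          norm_num
        · intro i _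
          apply wt_ge n hn (a i)
          have h7 := hA a ha i
          calc (4 * n * |a i| : ℤ) ≤ 4 * n * H := by gcongr
            _ ≤ P := by exact_mod_cast hnH
      simpa using h6
    have h8 : m0 ^ 2 ≤ (NN P d X (φ a) 0 - Mavg P d W J X (φ a)) ^ 2 := by
      rw [hN a ha, zero_sub, neg_sq]
      exact pow_le_pow_left₀ hm0 (hM a ha) 2
    exact mul_le_mul h5 h8 (sq_nonneg _) (Finset.prod_nonneg fun i _ => wt_nonneg n _)
  have h9 : (A.card : ℝ) * ((1 / 2 : ℝ) ^ s * m0 ^ 2) ≤ T := by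
    refine le_trans ?_ h3
    rw [← nsmul_eq_mul]
    exact Finset.card_nsmul_le_sum _ _ _ h4
  have h10 : (2 : ℝ) ^ s * (1 / 2 : ℝ) ^ s = 1 := by
    rw [← mul_pow]
    norm_num
  calc (A.card : ℝ) * m0 ^ 2 = (2 : ℝ) ^ s * (1 / 2 : ℝ) ^ s * ((A.card : ℝ) * m0 ^ 2) := by
        rw [h10, one_mul]
    _ = 2 ^ s * ((A.card : ℝ) * ((1 / 2 : ℝ) ^ s * m0 ^ 2)) := by ring
    _ ≤ 2 ^ s * T := mul_le_mul_of_nonneg_left h9 (by positivity)

end Pool.Agent.Lib.MP_e426f4_ag.DH
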