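import Mathlib

/-!
# Chain: one linear congruence in a box

`g_0 = |D|`, `g_j = gcd (g_{j-1}, D_j)`, `n_j = g_{j-1}/g_j`.  If `D ∣ ∑ a_j D_j` then, given the later
coordinates `a_{j+1}, …`, the number `a_j` lies in one class modulo `n_j`
(`g_{j-1} ∣ a_j D_j + ∑_{i>j} a_i D_i`), so there are at most `2H/n_j + 1` choices.
`∏ n_j = |D|/g_K`.  If all `n_j ≤ 2H` the product is `≤ ∏ 4H/n_j = (4H)^K g_K/|D|` and `q = g_K` is one of the
divisors in the sum; otherwise one factor is `≤ 2` and the other `K-1` are `≤ 2H+1 ≤ 4H`.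
(Induction on `K`: for `Fin (K+1)` split off the last coordinate: `a_K` must satisfy `g_{K-1} ∣ a_K D_K`; it is
convenient to prove by induction the inhomogeneous statement number of `a` with `D ∣ c + ∑ a_j D_j` is
`≤ (4H)^K q/|D| + 2(4H)^(K-1)` with `q = gcd(D, D_j)`, splitting off the FIRST coordinate.)
-/

set_option autoImplicit false

namespace Pool.Agent.Lib.MP_e426f4_ag.DH

open Finset

private theorem Chain_class (H n : ℕ) (hn : 0 < n) (T : Finset ℤ)
    (hT : ∀ t ∈ T, -(H : ℤ) < t ∧ t < H) (hd : ∀ t ∈ T, ∀ t' ∈ T, (n : ℤ) ∣ t - t') :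
    T.card ≤ 2 * H / n + 1 := by
  rcases T.eq_empty_or_nonempty with rfl | hne
  · simp
  · have hn' : (0 : ℤ) < n := by exact_mod_cast hn
    obtain ⟨t0, ht0, hmin⟩ := T.exists_min_image id hne
    have h1 : T.card ≤ (Finset.range (2 * H / n + 1)).card := by
      refine Finset.card_le_card_of_injOn (fun t => ((t - t0) / (n : ℤ)).toNat) ?_ ?_
      · intro t ht
        have h2 := hT t ht
        have h3 := hT t0 ht0
        have h4 : t0 ≤ t := hmin t ht
        rw [Finset.mem_coe, Finset.mem_range, Nat.lt_succ_iff]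
        have h5 : (t - t0) / (n : ℤ) ≤ ((2 * H / n : ℕ) : ℤ) := by
          push_cast
          exact Int.ediv_le_ediv hn' (by linarith)
        exact Int.toNat_le.2 h5
      · intro t ht t' ht' he
        have h4 : t0 ≤ t := hmin t ht
        have h4' : t0 ≤ t' := hmin t' ht'
        have h5 : 0 ≤ (t - t0) / (n : ℤ) := Int.ediv_nonneg (by linarith) hn'.le
        have h5' : 0 ≤ (t' - t0) / (n : ℤ) := Int.ediv_nonneg (by linarith) hn'.le
        simp only at he
        have h6 : (t - t0) / (n : ℤ) = (t' - t0) / (n : ℤ) := by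
          rw [← Int.toNat_of_nonneg h5, ← Int.toNat_of_nonneg h5', he]
        have h7 := Int.ediv_mul_cancel (hd t ht t0 ht0)
        have h8 := Int.ediv_mul_cancel (hd t' ht' t0 ht0)
        rw [h6, h8] at h7
        linarith
    rwa [Finset.card_range] at h1

private theorem Chain_triv {K : ℕ} (H : ℕ) (hH : 1 ≤ H) (P : (Fin K → ℤ) → Prop) [DecidablePred P] :
    (((Fintype.piFinset fun _ : Fin K => Ioo (-(H : ℤ)) H).filter P).card : ℝ) ≤ (4 * (H : ℝ)) ^ K := by
  have h1 : ((Fintype.piFinset fun _ : Fin K => Ioo (-(H : ℤ)) H).filter P).card ≤ (2 * H - 1) ^ K := by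
    refine (Finset.card_filter_le _ _).trans ?_
    rw [Fintype.card_piFinset_const, Int.card_Ioo]
    refine Nat.pow_le_pow_left ?_ _
    omega
  calc (((Fintype.piFinset fun _ : Fin K => Ioo (-(H : ℤ)) H).filter P).card : ℝ)
      ≤ (((2 * H - 1) ^ K : ℕ) : ℝ) := by exact_mod_cast h1
    _ = ((2 * H - 1 : ℕ) : ℝ) ^ K := by push_cast; rfl
    _ ≤ (4 * (H : ℝ)) ^ K := by
      refine pow_le_pow_left₀ (Nat.cast_nonneg _) ?_ _
      have : ((2 * H - 1 : ℕ) : ℝ) ≤ ((4 * H : ℕ) : ℝ) := Nat.cast_le.2 (by omega)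
      push_cast at this
      exact this

private theorem Chain_ind (H : ℕ) (hH : 1 ≤ H) : ∀ (K : ℕ) (D : ℤ) (_ : D ≠ 0) (c : ℤ) (Dj : Fin K → ℤ),
    ∃ q ∈ D.natAbs.divisors, (∀ j, (q : ℤ) ∣ Dj j) ∧
      (((Fintype.piFinset fun _ : Fin K => Ioo (-(H : ℤ)) H).filter
        fun a : Fin K → ℤ => D ∣ c + ∑ j, a j * Dj j).card : ℝ) ≤
        (4 * (H : ℝ)) ^ K * ((q : ℝ) / |(D : ℝ)|) + (if K = 0 then 0 else 2 * (4 * (H : ℝ)) ^ (K - 1)) := by
  intro K
  induction K with
  | zero =>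
    intro D hD c Dj
    refine ⟨D.natAbs, Nat.mem_divisors.2 ⟨dvd_rfl, Int.natAbs_ne_zero.2 hD⟩, fun j => j.elim0, ?_⟩
    have h1 := Chain_triv (K := 0) H hH (fun a : Fin 0 → ℤ => D ∣ c + ∑ j, a j * Dj j)
    have hD' : (0 : ℝ) < |(D : ℝ)| := abs_pos.2 (by exact_mod_cast hD)
    have h2 : ((D.natAbs : ℕ) : ℝ) = |(D : ℝ)| := by
      rw [Nat.cast_natAbs, Int.cast_abs]
    rw [h2, div_self hD'.ne']
    simpa using h1
  | succ K ih =>
    intro D hD c Dj
    have hg0 : (Int.gcd D (Dj 0) : ℤ) ≠ 0 := by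
      intro h
      rw [Nat.cast_eq_zero, Int.gcd_eq_zero_iff] at h
      exact hD h.1
    obtain ⟨q, hq, hqj, hN⟩ := ih (Int.gcd D (Dj 0) : ℤ) hg0 c (fun j => Dj j.succ)
    have hqg : (q : ℤ) ∣ (Int.gcd D (Dj 0) : ℤ) := by
      rw [Int.natAbs_natCast] at hq
      exact_mod_cast Nat.dvd_of_mem_divisors hq
    have hgD : (Int.gcd D (Dj 0) : ℤ) ∣ D := Int.gcd_dvd_left _ _
    have hg0' : (Int.gcd D (Dj 0) : ℤ) ∣ Dj 0 := Int.gcd_dvd_right _ _
    refine ⟨q, Nat.mem_divisors.2 ⟨?_, Int.natAbs_ne_zero.2 hD⟩, ?_, ?_⟩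
    · exact Int.natCast_dvd.1 (hqg.trans hgD)
    · intro j
      refine Fin.cases ?_ (fun j => ?_) j
      · exact hqg.trans hg0'
      · exact hqj j
    · obtain ⟨n, hn⟩ : ∃ n : ℕ, D.natAbs = n * Int.gcd D (Dj 0) := by
        obtain ⟨n, hn⟩ := Int.natCast_dvd.1 hgD
        exact ⟨n, by rw [hn]; ring⟩
      have hn0 : 0 < n := by
        rw [Nat.pos_iff_ne_zero]
        rintro rfl
        rw [zero_mul] at hn
        exact hD (Int.natAbs_eq_zero.1 hn)
      -- one coordinate
      have hkey : ∀ t t' : ℤ, D ∣ (t - t') * Dj 0 → (n : ℤ) ∣ t - t' := by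
        intro t t' h
        have hgpos : 0 < Int.gcd D (Dj 0) := by
          rw [Nat.pos_iff_ne_zero]; exact_mod_cast hg0
        have h1 : (n * Int.gcd D (Dj 0)) ∣ (t - t').natAbs * (Dj 0).natAbs := by
          rw [← hn, ← Int.natAbs_mul]
          exact Int.natAbs_dvd_natAbs.2 h
        obtain ⟨u, hu⟩ : Int.gcd D (Dj 0) ∣ (Dj 0).natAbs := Int.natCast_dvd.1 hg0'
        have hcop : Nat.Coprime n u := by
          have h2 : Int.gcd D (Dj 0) = Nat.gcd (n * Int.gcd D (Dj 0)) (Int.gcd D (Dj 0) * u) := by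
            rw [← hn, ← hu]
            rfl
          rw [mul_comm n, Nat.gcd_mul_left] at h2
          have h3 : Int.gcd D (Dj 0) * Nat.gcd n u = Int.gcd D (Dj 0) * 1 := by rw [mul_one]; exact h2.symm
          exact Nat.eq_of_mul_eq_mul_left hgpos h3
        have h4 : n ∣ (t - t').natAbs * u := by
          rw [hu] at h1
          have h5 : Int.gcd D (Dj 0) * n ∣ Int.gcd D (Dj 0) * ((t - t').natAbs * u) := by
            rw [show Int.gcd D (Dj 0) * n = n * Int.gcd D (Dj 0) by ring,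
              show Int.gcd D (Dj 0) * ((t - t').natAbs * u) = (t - t').natAbs * (Int.gcd D (Dj 0) * u) by ring]
            exact h1
          exact Nat.dvd_of_mul_dvd_mul_left hgpos h5
        exact Int.natCast_dvd.2 (hcop.dvd_of_dvd_mul_right h4)
      set s := (Fintype.piFinset fun _ : Fin (K + 1) => Ioo (-(H : ℤ)) H).filter
        fun a : Fin (K + 1) → ℤ => D ∣ c + ∑ j, a j * Dj j with hs
      set s' := (Fintype.piFinset fun _ : Fin K => Ioo (-(H : ℤ)) H).filter
        fun a : Fin K → ℤ => (Int.gcd D (Dj 0) : ℤ) ∣ c + ∑ j, a j * Dj j.succ with hs'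
      have hmem : ∀ a ∈ s, (∀ j, -(H : ℤ) < a j ∧ a j < H) ∧ D ∣ c + (a 0 * Dj 0 + ∑ j : Fin K, a j.succ * Dj j.succ) := by
        intro a ha
        rw [hs, Finset.mem_filter, Fintype.mem_piFinset] at ha
        refine ⟨fun j => Finset.mem_Ioo.1 (ha.1 j), ?_⟩
        have := ha.2
        rwa [Fin.sum_univ_succ] at this
      have hcard : s.card ≤ (2 * H / n + 1) * (s.image Fin.tail).card := by
        refine Finset.card_le_mul_card_image s _ fun b hb => ?_
        have h1 : ((s.filter fun x => Fin.tail x = b).card) ≤ ((s.filter fun x => Fin.tail x = b).image fun x => x 0).card := by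
          rw [Finset.card_image_of_injOn]
          intro x hx x' hx' he
          rw [Finset.coe_filter] at hx hx'
          rw [← Fin.cons_self_tail x, ← Fin.cons_self_tail x', hx.2, hx'.2]
          simp only at he
          rw [he]
        refine h1.trans (Chain_class H n hn0 _ ?_ ?_)
        · intro t ht
          obtain ⟨x, hx, rfl⟩ := Finset.mem_image.1 ht
          exact (hmem x (Finset.mem_filter.1 hx).1).1 0
        · intro t ht t' ht'
          obtain ⟨x, hx, rfl⟩ := Finset.mem_image.1 ht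
          obtain ⟨x', hx', rfl⟩ := Finset.mem_image.1 ht'
          obtain ⟨hx1, hx2⟩ := Finset.mem_filter.1 hx
          obtain ⟨hx1', hx2'⟩ := Finset.mem_filter.1 hx'
          apply hkey
          have h2 := dvd_sub (hmem x hx1).2 (hmem x' hx1').2
          have h3 : ∀ j : Fin K, x j.succ = x' j.succ := fun j => by
            have := congrFun (hx2.trans hx2'.symm) j
            exact this
          have h4 : ∑ j : Fin K, x j.succ * Dj j.succ = ∑ j : Fin K, x' j.succ * Dj j.succ :=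
            Finset.sum_congr rfl fun j _ => by rw [h3 j]
          rw [h4] at h2
          have h5 : c + (x 0 * Dj 0 + ∑ j : Fin K, x' j.succ * Dj j.succ) -
              (c + (x' 0 * Dj 0 + ∑ j : Fin K, x' j.succ * Dj j.succ)) = (x 0 - x' 0) * Dj 0 := by ring
          rwa [h5] at h2
      have himg : (s.image Fin.tail).card ≤ s'.card := by
        refine Finset.card_le_card ?_
        intro b hb
        obtain ⟨x, hx, rfl⟩ := Finset.mem_image.1 hb
        rw [hs', Finset.mem_filter, Fintype.mem_piFinset]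
        refine ⟨fun j => Finset.mem_Ioo.2 ((hmem x hx).1 j.succ), ?_⟩
        have h1 : (Int.gcd D (Dj 0) : ℤ) ∣ c + (x 0 * Dj 0 + ∑ j : Fin K, x j.succ * Dj j.succ) :=
          hgD.trans (hmem x hx).2
        have h2 : (Int.gcd D (Dj 0) : ℤ) ∣ x 0 * Dj 0 := hg0'.mul_left _
        have h3 := dvd_sub h1 h2
        have h4 : c + (x 0 * Dj 0 + ∑ j : Fin K, x j.succ * Dj j.succ) - x 0 * Dj 0 =
            c + ∑ j : Fin K, x j.succ * Dj j.succ := by ring
        rw [h4] at h3
        exact h3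
      have hcard' : (s.card : ℝ) ≤ ((2 * H / n + 1 : ℕ) : ℝ) * (s'.card : ℝ) := by
        exact_mod_cast hcard.trans (Nat.mul_le_mul_left _ himg)
      have hHr : (1 : ℝ) ≤ H := by exact_mod_cast hH
      have hnr : (1 : ℝ) ≤ n := by exact_mod_cast hn0
      have hDabs : |(D : ℝ)| = (n : ℝ) * (Int.gcd D (Dj 0) : ℝ) := by
        have h2 : ((D.natAbs : ℕ) : ℝ) = |(D : ℝ)| := by
          rw [Nat.cast_natAbs, Int.cast_abs]
        rw [← h2, hn]
        push_cast
        rfl
      have hgr : (0 : ℝ) < (Int.gcd D (Dj 0) : ℝ) := by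
        have : 0 < Int.gcd D (Dj 0) := by
          rw [Nat.pos_iff_ne_zero]; exact_mod_cast hg0
        exact_mod_cast this
      have habs : |(((Int.gcd D (Dj 0) : ℕ) : ℤ) : ℝ)| = (Int.gcd D (Dj 0) : ℝ) := by
        rw [Int.cast_natCast, abs_of_pos hgr]
      rw [if_neg (Nat.succ_ne_zero K), Nat.add_sub_cancel]
      have hq0 : (0 : ℝ) ≤ (q : ℝ) / |(D : ℝ)| := by positivity
      by_cases hc : n ≤ 2 * H
      · -- few classes
        have h1 : ((2 * H / n + 1 : ℕ) : ℝ) ≤ 4 * H / n := by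
          push_cast
          have h2 : ((2 * H / n : ℕ) : ℝ) ≤ ((2 * H : ℕ) : ℝ) / (n : ℝ) := Nat.cast_div_le
          push_cast at h2
          have h3 : (1 : ℝ) ≤ 2 * H / n := by
            rw [le_div_iff₀ (by linarith), one_mul]
            exact_mod_cast hc
          have h4 : 4 * (H : ℝ) / n = 2 * H / n + 2 * H / n := by ring
          rw [h4]
          linarith
        refine hcard'.trans ((mul_le_mul h1 hN (Nat.cast_nonneg _) (by positivity)).trans ?_)
        rw [habs, hDabs]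
        have h5 : 4 * (H : ℝ) / n * ((4 * (H : ℝ)) ^ K * ((q : ℝ) / (Int.gcd D (Dj 0) : ℝ)) +
            (if K = 0 then 0 else 2 * (4 * (H : ℝ)) ^ (K - 1))) =
            (4 * (H : ℝ)) ^ (K + 1) * ((q : ℝ) / ((n : ℝ) * (Int.gcd D (Dj 0) : ℝ))) +
            4 * (H : ℝ) / n * (if K = 0 then 0 else 2 * (4 * (H : ℝ)) ^ (K - 1)) := by
          rw [mul_add, pow_succ]
          congr 1
          field_simp
        rw [h5]
        refine add_le_add le_rfl ?_
        rcases Nat.eq_zero_or_pos K with hK | hK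
        · rw [if_pos hK, mul_zero]
          positivity
        · rw [if_neg hK.ne']
          obtain ⟨k, rfl⟩ : ∃ k, K = k + 1 := ⟨K - 1, by omega⟩
          rw [Nat.add_sub_cancel, pow_succ]
          have h6 : 4 * (H : ℝ) / n ≤ 4 * H := div_le_self (by positivity) hnr
          have h7 : (0 : ℝ) ≤ 2 * (4 * (H : ℝ)) ^ k := by positivity
          calc 4 * (H : ℝ) / n * (2 * (4 * (H : ℝ)) ^ k) ≤ 4 * H * (2 * (4 * (H : ℝ)) ^ k) :=
                mul_le_mul_of_nonneg_right h6 h7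
            _ = 2 * ((4 * (H : ℝ)) ^ k * (4 * H)) := by ring
      · have h1 : 2 * H / n = 0 := Nat.div_eq_of_lt (by omega)
        rw [h1] at hcard'
        have h2 := Chain_triv (K := K) H hH (fun a : Fin K → ℤ => (Int.gcd D (Dj 0) : ℤ) ∣ c + ∑ j, a j * Dj j.succ)
        have h3 : (0 : ℝ) ≤ (4 * (H : ℝ)) ^ K := by positivity
        have h4 : (0 : ℝ) ≤ (4 * (H : ℝ)) ^ (K + 1) * ((q : ℝ) / |(D : ℝ)|) := by positivity
        have h5 : ((0 + 1 : ℕ) : ℝ) * (s'.card : ℝ) = s'.card := by simp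
        rw [h5] at hcard'
        linarith

theorem chain {K : ℕ} (H : ℕ) (hH : 1 ≤ H) (D : ℤ) (hD : D ≠ 0) (Dj : Fin K → ℤ) :
    (((Fintype.piFinset fun _ : Fin K => Ioo (-(H : ℤ)) H).filter
      fun a : Fin K → ℤ => D ∣ ∑ j, a j * Dj j).card : ℝ) ≤
      (4 * (H : ℝ)) ^ K * ∑ q ∈ D.natAbs.divisors.filter (fun q : ℕ => ∀ j, (q : ℤ) ∣ Dj j),
        (q : ℝ) / |(D : ℝ)| + 2 * (4 * (H : ℝ)) ^ (K - 1) := by
  obtain ⟨q, hq, hqj, hN⟩ := Chain_ind H hH K D hD 0 Dj
  simp only [zero_add] at hN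
  refine hN.trans (add_le_add ?_ ?_)
  · refine mul_le_mul_of_nonneg_left ?_ (by positivity)
    exact Finset.single_le_sum (f := fun q : ℕ => (q : ℝ) / |(D : ℝ)|) (fun i _ => by positivity)
      (Finset.mem_filter.2 ⟨hq, hqj⟩)
  · split_ifs
    · positivity
    · exact le_rfl

end Pool.Agent.Lib.MP_e426f4_ag.DH
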