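import Pool.Agent.Lib.MP_e426f4_ag.DH.Facts
import Pool.Agent.Lib.MP_e426f4_ag.DG.FFb

/-!
# FactsX: the sets `I, LM, X, Y, ZA, ZB, ZC`
-/

set_option autoImplicit false

namespace Pool.Agent.Lib.MP_e426f4_ag.DH

open Finset
open Pool.Agent.Lib.MP_e426f4_ag.DG

namespace St

variable {d g h s m v E : ℕ} (S : St d g h s m v E)

include S in
private theorem FactsX_nums : 1 ≤ d ∧ 1 ≤ v ∧ m < h * v := by
  have h1 := S.hdg
  have h2 := S.hh1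
  have h3 := S.hmv
  have hd : 1 ≤ d := by omega
  have h4 : 1 * m ≤ 100 * d * m := Nat.mul_le_mul_right _ (by omega)
  have h5 : 1 * v ≤ h * v := Nat.mul_le_mul_right _ (by omega)
  refine ⟨hd, ?_, ?_⟩ <;> omega

/-- the sizes of the three ranges -/
private theorem FactsX_sizes : 1 ≤ S.T ∧ S.T < S.M ∧ 1 ≤ S.M ∧ 4 * S.M < S.L := by
  obtain ⟨hd, -, -⟩ := S.FactsX_nums
  have hT := S.T_pos
  have hM := S.M_pos
  have hR := S.R_pos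
  have h1 := S.M_big
  have h2 := S.L_big
  have hR8 : 1 ≤ S.R ^ (8 * d) := Nat.one_le_pow _ _ hR
  have hT8 : 1 ≤ S.T ^ (8 * d) := Nat.one_le_pow _ _ hT
  have hTT : S.T ≤ S.T ^ (8 * d) := Nat.le_self_pow (by omega) _
  refine ⟨hT, ?_, hM, ?_⟩
  · have h3 : 16 * S.T ≤ 16 * S.T ^ (8 * d) * S.R ^ (8 * d) := by
      calc 16 * S.T ≤ 16 * S.T ^ (8 * d) := Nat.mul_le_mul_left _ hTT
        _ ≤ 16 * S.T ^ (8 * d) * S.R ^ (8 * d) := Nat.le_mul_of_pos_right _ hR8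
    omega
  · have h3 : 16 * S.M ≤ 16 * S.M ^ 2 * (S.T ^ (8 * d) * S.R ^ (8 * d)) := by
      calc 16 * S.M ≤ 16 * S.M ^ 2 := Nat.mul_le_mul_left _ (Nat.le_self_pow (by omega) _)
        _ ≤ 16 * S.M ^ 2 * (S.T ^ (8 * d) * S.R ^ (8 * d)) :=
          Nat.le_mul_of_pos_right _ (Nat.mul_pos hT8 hR8)
    omega

private theorem FactsX_PS {i : Fin s} {l : ℕ} (hl : l ∈ S.PS i) :
    l.Prime ∧ S.L < l ∧ l ≤ 4 * S.L := S.hPS i l hl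

private theorem FactsX_QS {i : Fin s} {q : ℕ} (hq : q ∈ S.QS i) :
    q.Prime ∧ S.M < q ∧ q ≤ 4 * S.M := S.hQS i q hq

theorem I_mem (t : ℕ) : t ∈ S.I ↔ 1 ≤ t ∧ t ≤ S.T ∧ S.T < E * t := by
  unfold St.I St.T
  simp only [mem_filter, mem_Icc]
  tauto

theorem I_card_le : S.I.card ≤ S.T := by
  unfold St.I St.T
  calc _ ≤ (Icc 1 (S.R ^ m)).card := card_filter_le _ _
    _ = _ := by simp

theorem I_card_ge : S.T ≤ 2 * S.I.card := by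
  have hE := S.hE
  have hT : 1 ≤ S.T := S.T_pos
  have hsub : Ioc (S.T / 2) S.T ⊆ S.I := by
    intro t ht
    rw [mem_Ioc] at ht
    rw [S.I_mem]
    refine ⟨by omega, ht.2, ?_⟩
    have h1 : S.T < 2 * t := by omega
    have h2 : 2 * t ≤ E * t := Nat.mul_le_mul_right _ hE
    omega
  have := card_le_card hsub
  rw [Nat.card_Ioc] at this
  omega

theorem PS_card_le (i : Fin s) : (S.PS i).card ≤ S.L := by
  rw [S.hPc i]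
  unfold St.L
  exact Nat.pow_le_pow_right S.R_pos (Nat.sub_le _ _)

theorem QS_card_le (i : Fin s) : (S.QS i).card ≤ S.M := by
  rw [S.hQc i]
  unfold St.M
  exact Nat.pow_le_pow_right S.R_pos (Nat.sub_le _ _)

theorem PS_idx {i j : Fin s} {l : ℕ} (hi : l ∈ S.PS i) (hj : l ∈ S.PS j) : i = j := by
  by_contra hne
  exact Finset.disjoint_left.1 (S.hPd i j hne) hi hj

theorem QS_idx {i j : Fin s} {l : ℕ} (hi : l ∈ S.QS i) (hj : l ∈ S.QS j) : i = j := by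
  by_contra hne
  exact Finset.disjoint_left.1 (S.hQd i j hne) hi hj

/-- a large prime `l` dividing `t' q' l'` equals `l'` -/
theorem l_dvd {i j : Fin s} {l t' q' l' : ℕ} (hl : l ∈ S.PS i) (ht' : 1 ≤ t' ∧ t' ≤ S.T)
    (hq' : q' ∈ S.QS j) (hl' : l' ∈ S.PS j) (hd : l ∣ t' * (q' * l')) : l = l' := by
  obtain ⟨hT, hTM, hM, hML⟩ := S.FactsX_sizes
  obtain ⟨hp, hl1, -⟩ := S.FactsX_PS hl
  obtain ⟨hp', -, -⟩ := S.FactsX_PS hl'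
  obtain ⟨hq, hq1, hq2⟩ := S.FactsX_QS hq'
  rcases (Nat.Prime.dvd_mul hp).1 hd with h1 | h1
  · exfalso
    have := Nat.le_of_dvd (by omega) h1
    omega
  · rcases (Nat.Prime.dvd_mul hp).1 h1 with h2 | h2
    · exfalso
      have := Nat.le_of_dvd hq.pos h2
      omega
    · exact (Nat.prime_dvd_prime_iff_eq hp hp').1 h2

/-- a prime `q` of the middle range dividing `t' q' l'` equals `q'` -/
theorem q_dvd {i j : Fin s} {q t' q' l' : ℕ} (hq : q ∈ S.QS i) (ht' : 1 ≤ t' ∧ t' ≤ S.T)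
    (hq' : q' ∈ S.QS j) (hl' : l' ∈ S.PS j) (hd : q ∣ t' * (q' * l')) : q = q' := by
  obtain ⟨hT, hTM, hM, hML⟩ := S.FactsX_sizes
  obtain ⟨hp, hq1, hq2⟩ := S.FactsX_QS hq
  obtain ⟨hp', hl1, -⟩ := S.FactsX_PS hl'
  obtain ⟨hpq, -, -⟩ := S.FactsX_QS hq'
  rcases (Nat.Prime.dvd_mul hp).1 hd with h1 | h1
  · exfalso
    have := Nat.le_of_dvd (by omega) h1
    omega
  · rcases (Nat.Prime.dvd_mul hp).1 h1 with h2 | h2
    · exact (Nat.prime_dvd_prime_iff_eq hp hpq).1 h2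
    · exfalso
      have := (Nat.prime_dvd_prime_iff_eq hp hp').1 h2
      omega

theorem uniq {i : Fin s} {t q l t' q' l' : ℕ} (_ht : t ∈ S.I) (hq : q ∈ S.QS i) (hl : l ∈ S.PS i)
    (ht' : t' ∈ S.I) (hq' : q' ∈ S.QS i) (hl' : l' ∈ S.PS i) (he : t * (q * l) = t' * (q' * l')) :
    t = t' ∧ q = q' ∧ l = l' := by
  obtain ⟨a1, a2, -⟩ := (S.I_mem t').1 ht'
  have e1 : l = l' := S.l_dvd hl ⟨a1, a2⟩ hq' hl' (by
    rw [← he]; exact Dvd.dvd.mul_left (Dvd.intro_left q rfl) t)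
  have e2 : q = q' := S.q_dvd hq ⟨a1, a2⟩ hq' hl' (by
    rw [← he]; exact Dvd.dvd.mul_left (Dvd.intro l rfl) t)
  subst e1
  subst e2
  refine ⟨?_, rfl, rfl⟩
  have hpos : 0 < q * l := Nat.mul_pos (S.FactsX_QS hq).1.pos (S.FactsX_PS hl).1.pos
  exact Nat.eq_of_mul_eq_mul_right hpos he

theorem LM_mem (i : Fin s) (x : ℕ) : x ∈ S.LM i ↔ ∃ q ∈ S.QS i, ∃ l ∈ S.PS i, x = q * l := by
  unfold St.LM
  simp only [mem_image, mem_product, Prod.exists]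
  constructor
  · rintro ⟨q, l, ⟨hq, hl⟩, rfl⟩
    exact ⟨q, hq, l, hl, rfl⟩
  · rintro ⟨q, hq, l, hl, rfl⟩
    exact ⟨q, l, ⟨hq, hl⟩, rfl⟩

/-- a product `q l` lies in `(M L, 16 M L]` -/
theorem LM_bounds (i : Fin s) (x : ℕ) (hx : x ∈ S.LM i) : S.M * S.L < x ∧ x ≤ 16 * (S.M * S.L) := by
  obtain ⟨q, hq, l, hl, rfl⟩ := (S.LM_mem i x).1 hx
  obtain ⟨-, hq1, hq2⟩ := S.FactsX_QS hq
  obtain ⟨-, hl1, hl2⟩ := S.FactsX_PS hl
  constructor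
  · exact Nat.mul_lt_mul_of_lt_of_lt hq1 hl1
  · calc q * l ≤ (4 * S.M) * (4 * S.L) := Nat.mul_le_mul hq2 hl2
      _ = 16 * (S.M * S.L) := by ring

theorem X_mem (i : Fin s) (x : ℕ) : x ∈ S.X i ↔
    ∃ t q l, t ∈ S.I ∧ q ∈ S.QS i ∧ l ∈ S.PS i ∧ x = t * (q * l) := by
  unfold St.X
  simp only [mem_image, mem_product, Prod.exists]
  constructor
  · rintro ⟨t, y, ⟨ht, hy⟩, rfl⟩
    obtain ⟨q, hq, l, hl, rfl⟩ := (S.LM_mem i y).1 hy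
    exact ⟨t, q, l, ht, hq, hl, rfl⟩
  · rintro ⟨t, q, l, ht, hq, hl, rfl⟩
    exact ⟨t, q * l, ⟨ht, (S.LM_mem i _).2 ⟨q, hq, l, hl, rfl⟩⟩, rfl⟩

theorem Y_mem (i : Fin s) (x : ℕ) : x ∈ S.Y i ↔ ∃ t l, t ∈ S.I ∧ l ∈ S.PS i ∧ x = t * l := by
  unfold St.Y
  simp only [mem_image, mem_product, Prod.exists]
  constructor
  · rintro ⟨t, l, ⟨ht, hl⟩, rfl⟩
    exact ⟨t, l, ht, hl, rfl⟩
  · rintro ⟨t, l, ht, hl, rfl⟩
    exact ⟨t, l, ⟨ht, hl⟩, rfl⟩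

theorem X_bounds (i : Fin s) (x : ℕ) (hx : x ∈ S.X i) : 1 ≤ x ∧ x ≤ S.B ∧ S.B < 16 * E * x := by
  obtain ⟨t, q, l, ht, hq, hl, rfl⟩ := (S.X_mem i x).1 hx
  obtain ⟨h1, h2, h3⟩ := (S.I_mem t).1 ht
  obtain ⟨b1, b2⟩ := S.LM_bounds i (q * l) ((S.LM_mem i _).2 ⟨q, hq, l, hl, rfl⟩)
  have hpos : 0 < q * l := Nat.mul_pos (S.FactsX_QS hq).1.pos (S.FactsX_PS hl).1.pos
  refine ⟨Nat.mul_pos (by omega) hpos, ?_, ?_⟩
  · rw [S.B_eq]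
    calc t * (q * l) ≤ S.T * (16 * (S.M * S.L)) := Nat.mul_le_mul h2 b2
      _ = 16 * (S.M * S.L * S.T) := by ring
  · rw [S.B_eq]
    have hEt : 0 < E * t := by omega
    calc 16 * (S.M * S.L * S.T) ≤ 16 * (S.M * S.L * (E * t)) :=
          Nat.mul_le_mul_left _ (Nat.mul_le_mul_left _ h3.le)
      _ < 16 * (q * l * (E * t)) := by
          apply Nat.mul_lt_mul_of_pos_left _ (by norm_num)
          exact Nat.mul_lt_mul_of_pos_right b1 hEt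
      _ = 16 * E * (t * (q * l)) := by ring

theorem Y_bounds (i : Fin s) (x : ℕ) (hx : x ∈ S.Y i) : 1 ≤ x ∧ x ≤ S.BB ∧ S.BB < 4 * E * x := by
  obtain ⟨t, l, ht, hl, rfl⟩ := (S.Y_mem i x).1 hx
  obtain ⟨h1, h2, h3⟩ := (S.I_mem t).1 ht
  obtain ⟨hp, hl1, hl2⟩ := S.FactsX_PS hl
  refine ⟨Nat.mul_pos (by omega) hp.pos, ?_, ?_⟩
  · rw [S.BB_eq]
    calc t * l ≤ S.T * (4 * S.L) := Nat.mul_le_mul h2 hl2
      _ = 4 * (S.L * S.T) := by ring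
  · rw [S.BB_eq]
    have hEt : 0 < E * t := by omega
    calc 4 * (S.L * S.T) ≤ 4 * (S.L * (E * t)) :=
          Nat.mul_le_mul_left _ (Nat.mul_le_mul_left _ h3.le)
      _ < 4 * (l * (E * t)) := by
          apply Nat.mul_lt_mul_of_pos_left _ (by norm_num)
          exact Nat.mul_lt_mul_of_pos_right hl1 hEt
      _ = 4 * E * (t * l) := by ring

private theorem FactsX_LM_card (i : Fin s) :
    (S.LM i).card = S.R ^ ((g + 1) * v - 1) * S.R ^ (h * v - m - 1) := by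
  unfold St.LM
  rw [card_image_of_injOn, card_product, S.hPc i, S.hQc i]
  rintro ⟨q, l⟩ h1 ⟨q', l'⟩ h2 h3
  simp only [coe_product, Set.mem_prod, mem_coe] at h1 h2
  simp only at h3
  obtain ⟨hT, -, -, -⟩ := S.FactsX_sizes
  have e1 : l = l' := S.l_dvd (t' := 1) h1.2 ⟨le_refl 1, hT⟩ h2.1 h2.2 (by
    rw [one_mul, ← h3]; exact Dvd.intro_left q rfl)
  have e2 : q = q' := S.q_dvd (t' := 1) h1.1 ⟨le_refl 1, hT⟩ h2.1 h2.2 (by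
    rw [one_mul, ← h3]; exact Dvd.intro l rfl)
  rw [e1, e2]

theorem X_card (i : Fin s) : ((S.X i).card : ℝ) = S.XX := by
  unfold St.XX
  have hc : (S.X i).card = S.I.card * (S.R ^ ((g + 1) * v - 1) * S.R ^ (h * v - m - 1)) := by
    rw [← S.FactsX_LM_card i]
    unfold St.X
    rw [card_image_of_injOn, card_product]
    rintro ⟨t, y⟩ h1 ⟨t', y'⟩ h2 h3
    simp only [coe_product, Set.mem_prod, mem_coe] at h1 h2
    simp only at h3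
    obtain ⟨q, hq, l, hl, rfl⟩ := (S.LM_mem i y).1 h1.2
    obtain ⟨q', hq', l', hl', rfl⟩ := (S.LM_mem i y').1 h2.2
    obtain ⟨e1, e2, e3⟩ := S.uniq h1.1 hq hl h2.1 hq' hl' h3
    rw [e1, e2, e3]
  rw [hc]
  push_cast
  ring

theorem XX_bounds : (S.B : ℝ) / (32 * (S.R : ℝ) ^ 2) ≤ S.XX ∧ S.XX ≤ S.B := by
  obtain ⟨hd, hv, hmv⟩ := S.FactsX_nums
  have hR1n : 1 ≤ S.R := S.R_pos
  have hR1 : (1 : ℝ) ≤ S.R := by exact_mod_cast hR1n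
  have hR0 : (0 : ℝ) < S.R := by linarith
  have h1 : (S.T : ℝ) ≤ 2 * S.I.card := by exact_mod_cast S.I_card_ge
  have h2 : (S.I.card : ℝ) ≤ S.T := by exact_mod_cast S.I_card_le
  have hL : (S.L : ℝ) = S.R * (S.R : ℝ) ^ (h * v - m - 1) := by
    unfold St.L
    obtain ⟨k, hk⟩ : ∃ k, h * v - m = k + 1 := ⟨h * v - m - 1, by omega⟩
    rw [hk, Nat.add_sub_cancel]
    push_cast
    ring
  have hM : (S.M : ℝ) = S.R * (S.R : ℝ) ^ ((g + 1) * v - 1) := by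
    unfold St.M
    have hgv : 1 ≤ (g + 1) * v := Nat.mul_pos (by omega) (by omega)
    obtain ⟨k, hk⟩ : ∃ k, (g + 1) * v = k + 1 := ⟨(g + 1) * v - 1, by omega⟩
    rw [hk, Nat.add_sub_cancel]
    push_cast
    ring
  have hB : (S.B : ℝ) = 16 * (S.M * S.L * S.T) := by
    rw [S.B_eq]; push_cast; ring
  have hW : (0 : ℝ) < (S.R : ℝ) ^ ((g + 1) * v - 1) * (S.R : ℝ) ^ (h * v - m - 1) := by positivity
  have hI0 : (0 : ℝ) ≤ S.I.card := by positivity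
  have hT0 : (0 : ℝ) ≤ S.T := by positivity
  unfold St.XX
  generalize (S.R : ℝ) ^ ((g + 1) * v - 1) = w1 at hM hW ⊢
  generalize (S.R : ℝ) ^ (h * v - m - 1) = w2 at hL hW ⊢
  rw [hB, hM, hL]
  constructor
  · rw [div_le_iff₀ (by positivity)]
    calc 16 * ((S.R : ℝ) * w1 * (S.R * w2) * S.T)
        = 16 * (S.R : ℝ) ^ 2 * (w1 * w2) * S.T := by ring
      _ ≤ 16 * (S.R : ℝ) ^ 2 * (w1 * w2) * (2 * S.I.card) := by
          apply mul_le_mul_of_nonneg_left h1 (by positivity)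
      _ = (S.I.card : ℝ) * (w1 * w2) * (32 * (S.R : ℝ) ^ 2) := by ring
  · have hR2 : (1 : ℝ) ≤ 16 * (S.R : ℝ) ^ 2 := by nlinarith
    calc (S.I.card : ℝ) * (w1 * w2) ≤ S.T * (w1 * w2) :=
          mul_le_mul_of_nonneg_right h2 hW.le
      _ = 1 * (S.T * (w1 * w2)) := by ring
      _ ≤ (16 * (S.R : ℝ) ^ 2) * (S.T * (w1 * w2)) :=
          mul_le_mul_of_nonneg_right hR2 (mul_nonneg hT0 hW.le)
      _ = _ := by ring

private theorem FactsX_ldvd (t q l : ℕ) : l ∣ t * (q * l) := Dvd.dvd.mul_left (Dvd.intro_left q rfl) t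

private theorem FactsX_qdvd (t q l : ℕ) : q ∣ t * (q * l) := Dvd.dvd.mul_left (Dvd.intro l rfl) t

theorem ZA_mem (i : Fin s) (z : ℕ × ℕ) : z ∈ S.ZA i ↔
    ∃ t q l t' q' l', t ∈ S.I ∧ q ∈ S.QS i ∧ l ∈ S.PS i ∧ t' ∈ S.I ∧ q' ∈ S.QS i ∧ l' ∈ S.PS i ∧
      l ≠ l' ∧ z = (t * (q * l), t' * (q' * l')) := by
  obtain ⟨x, y⟩ := z
  unfold St.ZA
  simp only [mem_filter, mem_product, Prod.mk.injEq]
  constructor
  · rintro ⟨⟨hx, hy⟩, hn⟩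
    obtain ⟨t, q, l, ht, hq, hl, rfl⟩ := (S.X_mem i x).1 hx
    obtain ⟨t', q', l', ht', hq', hl', rfl⟩ := (S.X_mem i y).1 hy
    refine ⟨t, q, l, t', q', l', ht, hq, hl, ht', hq', hl', ?_, rfl, rfl⟩
    rintro rfl
    exact hn ⟨l, hl, FactsX_ldvd _ _ _, FactsX_ldvd _ _ _⟩
  · rintro ⟨t, q, l, t', q', l', ht, hq, hl, ht', hq', hl', hne, rfl, rfl⟩
    refine ⟨⟨(S.X_mem i _).2 ⟨t, q, l, ht, hq, hl, rfl⟩,
      (S.X_mem i _).2 ⟨t', q', l', ht', hq', hl', rfl⟩⟩, ?_⟩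
    rintro ⟨l0, hl0, h1, h2⟩
    obtain ⟨a1, a2, -⟩ := (S.I_mem t).1 ht
    obtain ⟨b1, b2, -⟩ := (S.I_mem t').1 ht'
    have e1 : l0 = l := S.l_dvd hl0 ⟨a1, a2⟩ hq hl h1
    have e2 : l0 = l' := S.l_dvd hl0 ⟨b1, b2⟩ hq' hl' h2
    exact hne (e1.symm.trans e2)

theorem ZB_mem (i : Fin s) (z : ℕ × ℕ) : z ∈ S.ZB i ↔
    ∃ t q l t' q', t ∈ S.I ∧ q ∈ S.QS i ∧ l ∈ S.PS i ∧ t' ∈ S.I ∧ q' ∈ S.QS i ∧
      q ≠ q' ∧ z = (t * (q * l), t' * (q' * l)) := by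
  obtain ⟨x, y⟩ := z
  unfold St.ZB
  simp only [mem_filter, mem_product, Prod.mk.injEq]
  constructor
  · rintro ⟨⟨hx, hy⟩, ⟨l0, hl0, h1, h2⟩, hn⟩
    obtain ⟨t, q, l, ht, hq, hl, rfl⟩ := (S.X_mem i x).1 hx
    obtain ⟨t', q', l', ht', hq', hl', rfl⟩ := (S.X_mem i y).1 hy
    obtain ⟨a1, a2, -⟩ := (S.I_mem t).1 ht
    obtain ⟨b1, b2, -⟩ := (S.I_mem t').1 ht'
    have e1 : l0 = l := S.l_dvd hl0 ⟨a1, a2⟩ hq hl h1
    have e2 : l0 = l' := S.l_dvd hl0 ⟨b1, b2⟩ hq' hl' h2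
    subst e1
    subst e2
    refine ⟨t, q, l0, t', q', ht, hq, hl, ht', hq', ?_, rfl, rfl⟩
    rintro rfl
    exact hn ⟨q, hq, FactsX_qdvd _ _ _, FactsX_qdvd _ _ _⟩
  · rintro ⟨t, q, l, t', q', ht, hq, hl, ht', hq', hne, rfl, rfl⟩
    refine ⟨⟨(S.X_mem i _).2 ⟨t, q, l, ht, hq, hl, rfl⟩,
      (S.X_mem i _).2 ⟨t', q', l, ht', hq', hl, rfl⟩⟩,
      ⟨l, hl, FactsX_ldvd _ _ _, FactsX_ldvd _ _ _⟩, ?_⟩
    rintro ⟨q0, hq0, h1, h2⟩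
    obtain ⟨a1, a2, -⟩ := (S.I_mem t).1 ht
    obtain ⟨b1, b2, -⟩ := (S.I_mem t').1 ht'
    have e1 : q0 = q := S.q_dvd hq0 ⟨a1, a2⟩ hq hl h1
    have e2 : q0 = q' := S.q_dvd hq0 ⟨b1, b2⟩ hq' hl h2
    exact hne (e1.symm.trans e2)

theorem ZC_mem (i : Fin s) (z : ℕ × ℕ) : z ∈ S.ZC i ↔
    ∃ t q l t', t ∈ S.I ∧ q ∈ S.QS i ∧ l ∈ S.PS i ∧ t' ∈ S.I ∧
      z = (t * (q * l), t' * (q * l)) := by
  obtain ⟨x, y⟩ := z
  unfold St.ZC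
  simp only [mem_filter, mem_product, Prod.mk.injEq]
  constructor
  · rintro ⟨⟨hx, hy⟩, ⟨l0, hl0, h1, h2⟩, ⟨q0, hq0, h3, h4⟩⟩
    obtain ⟨t, q, l, ht, hq, hl, rfl⟩ := (S.X_mem i x).1 hx
    obtain ⟨t', q', l', ht', hq', hl', rfl⟩ := (S.X_mem i y).1 hy
    obtain ⟨a1, a2, -⟩ := (S.I_mem t).1 ht
    obtain ⟨b1, b2, -⟩ := (S.I_mem t').1 ht'
    have e1 : l0 = l := S.l_dvd hl0 ⟨a1, a2⟩ hq hl h1
    have e2 : l0 = l' := S.l_dvd hl0 ⟨b1, b2⟩ hq' hl' h2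
    have e3 : q0 = q := S.q_dvd hq0 ⟨a1, a2⟩ hq hl h3
    have e4 : q0 = q' := S.q_dvd hq0 ⟨b1, b2⟩ hq' hl' h4
    subst e1
    subst e2
    subst e3
    subst e4
    exact ⟨t, q0, l0, t', ht, hq, hl, ht', rfl, rfl⟩
  · rintro ⟨t, q, l, t', ht, hq, hl, ht', rfl, rfl⟩
    exact ⟨⟨(S.X_mem i _).2 ⟨t, q, l, ht, hq, hl, rfl⟩,
      (S.X_mem i _).2 ⟨t', q, l, ht', hq, hl, rfl⟩⟩,
      ⟨l, hl, FactsX_ldvd _ _ _, FactsX_ldvd _ _ _⟩,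
      ⟨q, hq, FactsX_qdvd _ _ _, FactsX_qdvd _ _ _⟩⟩

theorem FF_split (i : Fin s) (b b' : ZMod S.P) :
    FF S.P S.n d (S.X i) b b' = FZ S.P S.n d (S.ZA i) b b' + FZ S.P S.n d (S.ZB i) b b' +
      FZ S.P S.n d (S.ZC i) b b' := by
  have h1 : FF S.P S.n d (S.X i) b b' =
      FZ S.P S.n d ((S.X i ×ˢ S.X i).filter fun z => ∃ l ∈ S.PS i, l ∣ z.1 ∧ l ∣ z.2) b b' +
        FZ S.P S.n d (S.ZA i) b b' := by
    unfold FF FZ St.ZA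
    exact (sum_filter_add_sum_filter_not _ _ _).symm
  have h2 : FZ S.P S.n d ((S.X i ×ˢ S.X i).filter fun z => ∃ l ∈ S.PS i, l ∣ z.1 ∧ l ∣ z.2) b b' =
      FZ S.P S.n d (S.ZC i) b b' + FZ S.P S.n d (S.ZB i) b b' := by
    have eC : S.ZC i = ((S.X i ×ˢ S.X i).filter fun z => ∃ l ∈ S.PS i, l ∣ z.1 ∧ l ∣ z.2).filter
        fun z => ∃ l ∈ S.QS i, l ∣ z.1 ∧ l ∣ z.2 := by
      unfold St.ZC
      rw [filter_filter]
    have eB : S.ZB i = ((S.X i ×ˢ S.X i).filter fun z => ∃ l ∈ S.PS i, l ∣ z.1 ∧ l ∣ z.2).filter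
        fun z => ¬ ∃ l ∈ S.QS i, l ∣ z.1 ∧ l ∣ z.2 := by
      unfold St.ZB
      rw [filter_filter]
    rw [eC, eB]
    unfold FZ
    exact (sum_filter_add_sum_filter_not _ _ _).symm
  rw [h1, h2]
  ring

/-- the trivial bound -/
theorem FF_le (i : Fin s) (b b' : ZMod S.P) :
    FF S.P S.n d (S.X i) b b' ≤ 8 * (S.H : ℝ) * S.XX ^ 2 := by
  obtain ⟨hn0, hnP, -, hPn, -, -, -⟩ := S.n_facts
  unfold FF
  have h1 := FZ_le_card (P := S.P) S.n d hn0 hnP (S.X i ×ˢ S.X i) b b'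
  have h2 : (((S.X i ×ˢ S.X i).card : ℕ) : ℝ) = S.XX ^ 2 := by
    rw [card_product, ← S.X_card i]
    push_cast
    ring
  rw [h2] at h1
  exact h1.trans (mul_le_mul_of_nonneg_right hPn (by positivity))

end St

end Pool.Agent.Lib.MP_e426f4_ag.DH
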