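import Mathlib

/-!
# InvSum: sums of reciprocals of differences

Done (copied from `DG/InvDet.lean`).
-/

set_option autoImplicit false

namespace Pool.Agent.Lib.MP_e426f4_ag.DH

open Finset

private theorem harm_le (n N : ℕ) (h : n ≤ N) :
    ∑ k ∈ range n, 1 / ((k : ℝ) + 1) ≤ 1 + Real.log N := by
  have h1 : ∑ k ∈ range n, 1 / ((k : ℝ) + 1) ≤ ∑ k ∈ range N, 1 / ((k : ℝ) + 1) := by
    refine Finset.sum_le_sum_of_subset_of_nonneg (Finset.range_mono h) fun k _ _ => ?_
    positivity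
  refine h1.trans ?_
  have h2 := harmonic_le_one_add_log N
  have h3 : ((harmonic N : ℚ) : ℝ) = ∑ k ∈ range N, 1 / ((k : ℝ) + 1) := by
    unfold harmonic
    push_cast
    refine Finset.sum_congr rfl fun k _ => ?_
    rw [one_div]
  rw [← h3]
  exact h2

private theorem rec_sum (N a : ℕ) (ha : a ≤ N) :
    ∑ x ∈ (range (N + 1)).erase a, 1 / |(x : ℝ) - a| ≤ 2 * (1 + Real.log N) := by
  have h1 : (range (N + 1)).erase a ⊆ range a ∪ (range (N - a)).image (fun k => a + 1 + k) := by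
    intro x hx
    rw [Finset.mem_erase, Finset.mem_range] at hx
    rw [Finset.mem_union, Finset.mem_range, Finset.mem_image]
    rcases lt_or_gt_of_ne hx.1 with h | h
    · exact Or.inl h
    · refine Or.inr ⟨x - (a + 1), ?_, by omega⟩
      rw [Finset.mem_range]; omega
  have hnn : ∀ x : ℕ, 0 ≤ 1 / |(x : ℝ) - a| := fun x => by positivity
  calc ∑ x ∈ (range (N + 1)).erase a, 1 / |(x : ℝ) - a|
      ≤ ∑ x ∈ range a ∪ (range (N - a)).image (fun k => a + 1 + k), 1 / |(x : ℝ) - a| :=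
        Finset.sum_le_sum_of_subset_of_nonneg h1 fun x _ _ => hnn x
    _ ≤ ∑ x ∈ range a, 1 / |(x : ℝ) - a| +
        ∑ x ∈ (range (N - a)).image (fun k => a + 1 + k), 1 / |(x : ℝ) - a| := by
        rw [← Finset.sum_union_inter]
        exact le_add_of_nonneg_right (Finset.sum_nonneg fun x _ => hnn x)
    _ ≤ (1 + Real.log N) + (1 + Real.log N) := by
        refine add_le_add ?_ ?_
        · refine le_trans (le_of_eq ?_) (harm_le a N ha)
          rw [← Finset.sum_range_reflect]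
          refine Finset.sum_congr rfl fun k hk => ?_
          rw [Finset.mem_range] at hk
          have h2 : ((a - 1 - k : ℕ) : ℝ) = (a : ℝ) - 1 - k := by
            rw [Nat.cast_sub (by omega), Nat.cast_sub (by omega)]; simp
          rw [h2, abs_of_nonpos]
          · congr 1; ring
          · have : (0 : ℝ) ≤ k := Nat.cast_nonneg k
            linarith
        · rw [Finset.sum_image (by intro x _ y _ h; simpa using h)]
          refine le_trans (le_of_eq ?_) (harm_le (N - a) N (Nat.sub_le _ _))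
          refine Finset.sum_congr rfl fun k _ => ?_
          have h2 : ((a + 1 + k : ℕ) : ℝ) - a = (k : ℝ) + 1 := by push_cast; ring
          rw [h2, abs_of_nonneg (by positivity)]
    _ = 2 * (1 + Real.log N) := by ring

theorem inv_sum {ι : Type} (S : Finset ι) (A : ι → ℕ) (N a : ℕ) (ha : a ≤ N)
    (hinj : ∀ x ∈ S, ∀ y ∈ S, A x = A y → x = y) (hA : ∀ x ∈ S, A x ≤ N) (hne : ∀ x ∈ S, A x ≠ a) :
    ∑ x ∈ S, 1 / |(A x : ℝ) - a| ≤ 2 * (1 + Real.log N) := by
  classical
  refine le_trans ?_ (rec_sum N a ha)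
  have h1 : ∑ x ∈ S, 1 / |(A x : ℝ) - a| = ∑ y ∈ S.image A, 1 / |(y : ℝ) - a| := by
    rw [Finset.sum_image (fun x hx y hy h => hinj x hx y hy h)]
  rw [h1]
  refine Finset.sum_le_sum_of_subset_of_nonneg ?_ fun x _ _ => by positivity
  intro y hy
  obtain ⟨x, hx, rfl⟩ := Finset.mem_image.1 hy
  rw [Finset.mem_erase, Finset.mem_range]
  exact ⟨hne x hx, Nat.lt_succ_of_le (hA x hx)⟩

theorem pow_sub_lower (d : ℕ) (hd : 1 ≤ d) (x y M : ℝ) (hM : 0 ≤ M) (hx : M ≤ x)
    (hy : M ≤ y) : |x - y| * M ^ (d - 1) ≤ |x ^ d - y ^ d| := by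
  have hx0 : 0 ≤ x := hM.trans hx
  have hy0 : 0 ≤ y := hM.trans hy
  have h1 : x ^ d - y ^ d = (∑ i ∈ range d, x ^ i * y ^ (d - 1 - i)) * (x - y) :=
    ((Commute.all x y).geom_sum₂_mul d).symm
  have h2 : M ^ (d - 1) ≤ ∑ i ∈ range d, x ^ i * y ^ (d - 1 - i) := by
    calc M ^ (d - 1) ≤ x ^ (d - 1) * y ^ (d - 1 - (d - 1)) := by
          rw [Nat.sub_self, pow_zero, mul_one]
          exact pow_le_pow_left₀ hM hx _
      _ ≤ _ := Finset.single_le_sum (f := fun i => x ^ i * y ^ (d - 1 - i))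
          (fun i _ => by positivity) (Finset.mem_range.2 (by omega))
  rw [h1, abs_mul, mul_comm |x - y|]
  refine mul_le_mul_of_nonneg_right ?_ (abs_nonneg _)
  exact h2.trans (le_abs_self _)

end Pool.Agent.Lib.MP_e426f4_ag.DH
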