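import Pool.Agent.Lib.MP_e426f4_ag.DH.Nq
import Pool.Agent.Lib.MP_e426f4_ag.DH.Chain
import Pool.Agent.Lib.MP_e426f4_ag.DH.InvSum
import Pool.Agent.Lib.MP_e426f4_ag.DH.FactsX

/-!
# CntE: the count for the class E

`k = g+5`.  `z_j = (x_j, x_j')`, `h_j = x_j^d - x_j'^d ≠ 0`.  `∑ a_j h_j = 0`: `h_0 ∣ ∑_{j≥1} a_j h_j` and `a_0` is determined, so by
`chain` (`K = g+4`) the number of `a` is `≤ (4H)^(g+4) ∑_{q ∣ h_0, q ∣ h_j ∀ j ≥ 1} q/|h_0| + 2 (4H)^(g+3)`.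
Sum over `z`: `(4H)^(g+4) ∑_{z_0} ∑_{q ∣ h_0} (q/|h_0|) N_q^(g+4) + 2(4H)^(g+3) B^(2g+10)`, `N_q` as in `nq_bound` (`X i ⊆ [1,B]`).
First: `≤ (4H)^(g+4) (2R²)^(g+4) B^(d+1) R ∑_{z_0} 1/|h_0|` and `|h_0| ≥ |x-x'| (B/(16E))^(d-1)` (`pow_sub_lower`),
`∑_{x'} 1/|x-x'| ≤ 2(1+log B) ≤ 2R` (`inv_sum`): in total `≤ C R^(..) H^(g+4) B^3`.
Second: `B^(2g+10) ≤ B^4 B^h ≤ B^4 H` since `2g+10 - h ≤ 4`.
-/

set_option autoImplicit false

namespace Pool.Agent.Lib.MP_e426f4_ag.DH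

open Finset
open Pool.Agent.Lib.MP_e426f4_ag.DG

private theorem CntE_sum_cons {α : Type} [DecidableEq α] {n : ℕ} (Z : Finset α)
    (F : (Fin (n + 1) → α) → ℝ) :
    ∑ z ∈ Fintype.piFinset (fun _ : Fin (n + 1) => Z), F z =
      ∑ z0 ∈ Z, ∑ z' ∈ Fintype.piFinset (fun _ : Fin n => Z), F (Fin.cons z0 z') := by
  rw [← Finset.sum_product']
  refine Finset.sum_nbij' (fun z => (z 0, fun j => z (Fin.succ j)))
    (fun p => Fin.cons p.1 p.2) ?_ ?_ ?_ ?_ ?_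
  · intro z hz
    rw [Fintype.mem_piFinset] at hz
    rw [Finset.mem_product, Fintype.mem_piFinset]
    exact ⟨hz 0, fun j => hz _⟩
  · intro p hp
    rw [Finset.mem_product, Fintype.mem_piFinset] at hp
    rw [Fintype.mem_piFinset]
    intro j
    refine Fin.cases ?_ (fun j => ?_) j
    · simpa using hp.1
    · simpa using hp.2 j
  · intro z _
    funext j
    refine Fin.cases ?_ (fun j => ?_) j <;> simp
  · intro p _
    ext <;> simp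
  · intro z _
    congr 1
    funext j
    refine Fin.cases ?_ (fun j => ?_) j <;> simp

private theorem CntE_step {n : ℕ} (H : ℕ) (D : ℤ) (hD : D ≠ 0) (Dj : Fin n → ℤ)
    (G : Fin (n + 1) → ℤ) (h0 : G 0 = D) (hs : ∀ j, G (Fin.succ j) = Dj j) :
    (((Fintype.piFinset fun _ : Fin (n + 1) => Ioo (-(H : ℤ)) H).filter
      fun a : Fin (n + 1) → ℤ => ∑ j, a j * G j = 0).card : ℝ) ≤
    (((Fintype.piFinset fun _ : Fin n => Ioo (-(H : ℤ)) H).filter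
      fun a : Fin n → ℤ => D ∣ ∑ j, a j * Dj j).card : ℝ) := by
  have key : ∀ a : Fin (n + 1) → ℤ, ∑ j, a j * G j = 0 →
      a 0 * D = - ∑ j : Fin n, a (Fin.succ j) * Dj j := by
    intro a ha
    rw [Fin.sum_univ_succ, h0] at ha
    simp only [hs] at ha
    linarith
  refine Nat.cast_le.2 (Finset.card_le_card_of_injOn (fun a => fun j => a (Fin.succ j)) ?_ ?_)
  · intro a ha
    have ha' := Finset.mem_filter.1 (Finset.mem_coe.1 ha)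
    have h1 := Fintype.mem_piFinset.1 ha'.1
    refine Finset.mem_coe.2 (Finset.mem_filter.2 ⟨Fintype.mem_piFinset.2 fun j => h1 _, ?_⟩)
    have h2 := key a ha'.2
    have h3 : ∑ j : Fin n, a (Fin.succ j) * Dj j = D * (- a 0) := by linarith
    exact ⟨_, h3⟩
  · intro a ha b hb hab
    have ha' := Finset.mem_filter.1 (Finset.mem_coe.1 ha)
    have hb' := Finset.mem_filter.1 (Finset.mem_coe.1 hb)
    have hab' : ∀ j : Fin n, a (Fin.succ j) = b (Fin.succ j) := fun j => congrFun hab j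
    have h1 := key a ha'.2
    have h2 := key b hb'.2
    have h3 : ∑ j : Fin n, a (Fin.succ j) * Dj j = ∑ j : Fin n, b (Fin.succ j) * Dj j :=
      Finset.sum_congr rfl fun j _ => by rw [hab' j]
    have h4 : a 0 * D = b 0 * D := by rw [h1, h2, h3]
    have h5 : a 0 = b 0 := mul_right_cancel₀ hD h4
    funext j
    refine Fin.cases h5 (fun j => hab' j) j

theorem cnt_E (d g h s m v E : ℕ) : ∃ C : ℝ, 0 < C ∧ ∀ (S : St d g h s m v E) (i : Fin s),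
    cnt1 S.H d (fun _ : Fin (g + 5) => (S.X i ×ˢ S.X i).filter fun z => z.1 ≠ z.2) ≤
      C * (S.R : ℝ) ^ (4 * d + 20) * (S.H : ℝ) ^ (g + 4) * (S.B : ℝ) ^ 4 := by
  classical
  refine ⟨4 ^ (g + 4) * 2 ^ (g + 4) * 2 * (16 * (E : ℝ)) ^ (d - 1) + 2 * 4 ^ (g + 3),
    by positivity, ?_⟩
  intro S i
  obtain ⟨hd1, hd7, -, -, -, -, -, -, -⟩ := St.nums S
  have hR1 : (1 : ℝ) ≤ S.R := by exact_mod_cast S.R_pos
  have hB1n : 1 ≤ S.B := S.B_pos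
  have hB1 : (1 : ℝ) ≤ S.B := by exact_mod_cast hB1n
  have hBpos : (0 : ℝ) < S.B := by linarith
  have hH1n : 1 ≤ S.H := le_trans (Nat.one_le_pow _ _ hB1n) S.BH
  have hH1 : (1 : ℝ) ≤ S.H := by exact_mod_cast hH1n
  have hEE : 2 ≤ E := S.hE
  have hE0 : (0 : ℝ) < 16 * (E : ℝ) := by
    have : (2 : ℝ) ≤ E := by exact_mod_cast hEE
    linarith
  set X := S.X i with hX
  set Z := (X ×ˢ X).filter (fun z : ℕ × ℕ => z.1 ≠ z.2) with hZ
  have hXB : ∀ x ∈ X, 1 ≤ x ∧ x ≤ S.B ∧ S.B < 16 * E * x := fun x hx => S.X_bounds i x hx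
  have hXcard : (X.card : ℝ) ≤ S.B := by
    have h1 : X ⊆ Icc 1 S.B := fun x hx => Finset.mem_Icc.2 ⟨(hXB x hx).1, (hXB x hx).2.1⟩
    have h2 := Finset.card_le_card h1
    rw [Nat.card_Icc] at h2
    exact_mod_cast (by omega : X.card ≤ S.B)
  have hZcard : (Z.card : ℝ) ≤ (S.B : ℝ) ^ 2 := by
    have h1 : Z.card ≤ X.card * X.card := by
      rw [hZ, ← Finset.card_product]
      exact Finset.card_filter_le _ _
    have h2 : (Z.card : ℝ) ≤ X.card * X.card := by exact_mod_cast h1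
    calc (Z.card : ℝ) ≤ X.card * X.card := h2
      _ ≤ S.B * S.B := by gcongr
      _ = _ := by ring
  -- the differences
  let hh : ℕ × ℕ → ℤ := fun z => (z.1 : ℤ) ^ d - (z.2 : ℤ) ^ d
  have hhne : ∀ z ∈ Z, hh z ≠ 0 := by
    intro z hz
    have h1 := (Finset.mem_filter.1 hz).2
    intro h0
    have h2 : (z.1 : ℤ) ^ d = (z.2 : ℤ) ^ d := by
      have : (z.1 : ℤ) ^ d - (z.2 : ℤ) ^ d = 0 := h0
      linarith
    have h3 : z.1 ^ d = z.2 ^ d := by exact_mod_cast h2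
    exact h1 (Nat.pow_left_injective (by omega : d ≠ 0) h3)
  have hhle : ∀ z ∈ Z, (hh z).natAbs ≤ S.B ^ (8 * d) := by
    intro z hz
    have h1 := (Finset.mem_filter.1 hz).1
    have h2 := Finset.mem_product.1 h1
    have ha := (hXB _ h2.1).2.1
    have hb := (hXB _ h2.2).2.1
    have h3 : (hh z).natAbs ≤ S.B ^ d := by
      have e1 : (0 : ℤ) ≤ (z.1 : ℤ) ^ d := by positivity
      have e2 : (0 : ℤ) ≤ (z.2 : ℤ) ^ d := by positivity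
      have e3 : (z.1 : ℤ) ^ d ≤ (S.B : ℤ) ^ d := by
        have : (z.1 : ℤ) ≤ S.B := by exact_mod_cast ha
        gcongr
      have e4 : (z.2 : ℤ) ^ d ≤ (S.B : ℤ) ^ d := by
        have : (z.2 : ℤ) ≤ S.B := by exact_mod_cast hb
        gcongr
      have e5 : |hh z| ≤ (S.B : ℤ) ^ d := by
        rw [abs_le]
        constructor
        · show -(S.B : ℤ) ^ d ≤ (z.1 : ℤ) ^ d - (z.2 : ℤ) ^ d
          linarith
        · show (z.1 : ℤ) ^ d - (z.2 : ℤ) ^ d ≤ (S.B : ℤ) ^ d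
          linarith
      have e6 : (((hh z).natAbs : ℕ) : ℤ) ≤ ((S.B ^ d : ℕ) : ℤ) := by
        rw [Int.natCast_natAbs]
        push_cast
        exact e5
      exact_mod_cast e6
    exact h3.trans (Nat.pow_le_pow_right hB1n (by omega))
  -- N_q
  have hNq : ∀ z ∈ Z, ∀ q ∈ (hh z).natAbs.divisors,
      ((Z.filter fun w => (q : ℤ) ∣ hh w).card : ℝ) ^ (g + 4) * q ≤
        (2 * (S.R : ℝ) ^ 2) ^ (g + 4) * (S.B : ℝ) ^ (d + 1) := by
    intro z hz q hq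
    have hq1 : q ∣ (hh z).natAbs := Nat.dvd_of_mem_divisors hq
    have hzne : 0 < (hh z).natAbs := Int.natAbs_pos.2 (hhne z hz)
    have hq0 : 1 ≤ q := Nat.pos_of_dvd_of_pos hq1 hzne
    have hqle : q ≤ S.B ^ (8 * d) := (Nat.le_of_dvd hzne hq1).trans (hhle z hz)
    have hmain := nq_bound d g S.B q S.R (by have := S.hdg; have := S.hh1; omega) hB1n hq0
      (S.tau_le q hq0 hqle) (fun k hk => S.rho_le k (Nat.pos_of_dvd_of_pos hk hq0)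
        ((Nat.le_of_dvd hq0 hk).trans hqle))
    refine le_trans ?_ hmain
    refine mul_le_mul_of_nonneg_right ?_ (by positivity)
    refine pow_le_pow_left₀ (by positivity) ?_ _
    refine Nat.cast_le.2 (Finset.card_le_card ?_)
    intro w hw
    have hw1 := Finset.mem_filter.1 hw
    have hw2 := Finset.mem_filter.1 hw1.1
    have hw3 := Finset.mem_product.1 hw2.1
    refine Finset.mem_filter.2 ⟨Finset.mem_product.2 ⟨?_, ?_⟩, hw2.2, hw1.2⟩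
    · exact Finset.mem_Icc.2 ⟨(hXB _ hw3.1).1, (hXB _ hw3.1).2.1⟩
    · exact Finset.mem_Icc.2 ⟨(hXB _ hw3.2).1, (hXB _ hw3.2).2.1⟩
  -- the sum of 1/|h|
  have hinv : ∑ z ∈ Z, 1 / |((hh z : ℤ) : ℝ)| ≤
      2 * (S.R : ℝ) * (S.B : ℝ) * ((16 * (E : ℝ)) ^ (d - 1) / (S.B : ℝ) ^ (d - 1)) := by
    have hlog : 2 * (1 + Real.log (S.B : ℝ)) ≤ 2 * (S.R : ℝ) := by
      have h1 := S.log_le
      have h2 : Real.log (S.B : ℝ) ≤ Real.log ((S.B : ℝ) ^ 4) :=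
        Real.log_le_log hBpos (le_self_pow₀ hB1 (by norm_num))
      linarith
    have hMpos : (0 : ℝ) < (S.B : ℝ) / (16 * E) := by positivity
    have hterm : ∀ z ∈ Z, 1 / |((hh z : ℤ) : ℝ)| ≤
        (1 / |(z.1 : ℝ) - (z.2 : ℝ)|) * ((16 * (E : ℝ)) ^ (d - 1) / (S.B : ℝ) ^ (d - 1)) := by
      intro z hz
      have h1 := Finset.mem_filter.1 hz
      have h2 := Finset.mem_product.1 h1.1
      have ha : (S.B : ℝ) / (16 * E) ≤ z.1 := by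
        rw [div_le_iff₀ hE0]
        have := (hXB _ h2.1).2.2
        have h3 : ((S.B : ℕ) : ℝ) ≤ ((16 * E * z.1 : ℕ) : ℝ) := by exact_mod_cast this.le
        push_cast at h3
        linarith
      have hb : (S.B : ℝ) / (16 * E) ≤ z.2 := by
        rw [div_le_iff₀ hE0]
        have := (hXB _ h2.2).2.2
        have h3 : ((S.B : ℕ) : ℝ) ≤ ((16 * E * z.2 : ℕ) : ℝ) := by exact_mod_cast this.le
        push_cast at h3
        linarith
      have h4 := pow_sub_lower d hd1 (z.1 : ℝ) (z.2 : ℝ) ((S.B : ℝ) / (16 * E)) hMpos.le ha hb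
      have h5 : ((hh z : ℤ) : ℝ) = (z.1 : ℝ) ^ d - (z.2 : ℝ) ^ d := by
        show (((z.1 : ℤ) ^ d - (z.2 : ℤ) ^ d : ℤ) : ℝ) = _
        push_cast
        ring
      rw [h5]
      have h6 : 0 < |(z.1 : ℝ) - (z.2 : ℝ)| := by
        rw [abs_pos, sub_ne_zero]
        exact_mod_cast h1.2
      have h7 : (0 : ℝ) < |(z.1 : ℝ) - (z.2 : ℝ)| * ((S.B : ℝ) / (16 * E)) ^ (d - 1) := by
        positivity
      calc 1 / |(z.1 : ℝ) ^ d - (z.2 : ℝ) ^ d|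
          ≤ 1 / (|(z.1 : ℝ) - (z.2 : ℝ)| * ((S.B : ℝ) / (16 * E)) ^ (d - 1)) :=
            one_div_le_one_div_of_le h7 h4
        _ = _ := by
          rw [div_pow]
          field_simp
    have hsum : ∑ z ∈ Z, 1 / |(z.1 : ℝ) - (z.2 : ℝ)| ≤ (S.B : ℝ) * (2 * S.R) := by
      have h1 : ∑ z ∈ Z, 1 / |(z.1 : ℝ) - (z.2 : ℝ)| =
          ∑ y ∈ X, ∑ x ∈ X.filter (fun x => x ≠ y), 1 / |(x : ℝ) - (y : ℝ)| := by
        rw [hZ, Finset.sum_filter, Finset.sum_product_right]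
        refine Finset.sum_congr rfl fun y _ => ?_
        rw [Finset.sum_filter]
      rw [h1]
      have h2 : ∀ y ∈ X, ∑ x ∈ X.filter (fun x => x ≠ y), 1 / |(x : ℝ) - (y : ℝ)| ≤
          2 * (S.R : ℝ) := by
        intro y hy
        refine le_trans (inv_sum (X.filter (fun x => x ≠ y)) (fun x => x) S.B y (hXB y hy).2.1
          (fun a _ b _ hab => hab) (fun a ha => (hXB a (Finset.mem_filter.1 ha).1).2.1)
          (fun a ha => (Finset.mem_filter.1 ha).2)) hlog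
      calc ∑ y ∈ X, ∑ x ∈ X.filter (fun x => x ≠ y), 1 / |(x : ℝ) - (y : ℝ)|
          ≤ ∑ y ∈ X, 2 * (S.R : ℝ) := Finset.sum_le_sum h2
        _ = X.card * (2 * (S.R : ℝ)) := by rw [Finset.sum_const, nsmul_eq_mul]
        _ ≤ _ := by gcongr
    calc ∑ z ∈ Z, 1 / |((hh z : ℤ) : ℝ)|
        ≤ ∑ z ∈ Z, (1 / |(z.1 : ℝ) - (z.2 : ℝ)|) *
            ((16 * (E : ℝ)) ^ (d - 1) / (S.B : ℝ) ^ (d - 1)) := Finset.sum_le_sum hterm
      _ = (∑ z ∈ Z, 1 / |(z.1 : ℝ) - (z.2 : ℝ)|) *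
            ((16 * (E : ℝ)) ^ (d - 1) / (S.B : ℝ) ^ (d - 1)) := by rw [Finset.sum_mul]
      _ ≤ ((S.B : ℝ) * (2 * S.R)) * ((16 * (E : ℝ)) ^ (d - 1) / (S.B : ℝ) ^ (d - 1)) := by
          gcongr
      _ = _ := by ring
  -- the main sum
  set W := Fintype.piFinset (fun _ : Fin (g + 4) => Z) with hW
  have hstep : cnt1 S.H d (fun _ : Fin (g + 5) => Z) ≤
      ∑ z0 ∈ Z, ∑ z' ∈ W, ((4 * (S.H : ℝ)) ^ (g + 4) *
        ∑ q ∈ (hh z0).natAbs.divisors.filter (fun q : ℕ => ∀ j, (q : ℤ) ∣ hh (z' j)),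
          (q : ℝ) / |((hh z0 : ℤ) : ℝ)| + 2 * (4 * (S.H : ℝ)) ^ (g + 4 - 1)) := by
    unfold cnt1
    rw [CntE_sum_cons]
    refine Finset.sum_le_sum fun z0 hz0 => Finset.sum_le_sum fun z' hz' => ?_
    refine le_trans ?_ (chain S.H hH1n (hh z0) (hhne z0 hz0) (fun j => hh (z' j)))
    refine CntE_step S.H (hh z0) (hhne z0 hz0) (fun j => hh (z' j)) _ ?_ ?_
    · simp [hh]
    · intro j
      simp [hh]
  have hsplit : ∑ z0 ∈ Z, ∑ z' ∈ W, ((4 * (S.H : ℝ)) ^ (g + 4) *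
        ∑ q ∈ (hh z0).natAbs.divisors.filter (fun q : ℕ => ∀ j, (q : ℤ) ∣ hh (z' j)),
          (q : ℝ) / |((hh z0 : ℤ) : ℝ)| + 2 * (4 * (S.H : ℝ)) ^ (g + 4 - 1)) =
      (4 * (S.H : ℝ)) ^ (g + 4) * (∑ z0 ∈ Z, ∑ q ∈ (hh z0).natAbs.divisors,
        ((q : ℝ) / |((hh z0 : ℤ) : ℝ)|) * ((Z.filter fun w => (q : ℤ) ∣ hh w).card : ℝ) ^ (g + 4)) +
      (Z.card : ℝ) ^ (g + 5) * (2 * (4 * (S.H : ℝ)) ^ (g + 3)) := by
    have hcW : (W.card : ℝ) = (Z.card : ℝ) ^ (g + 4) := by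
      rw [hW, Fintype.card_piFinset]
      simp
    simp only [Finset.sum_add_distrib, Finset.sum_const, nsmul_eq_mul]
    rw [hcW, show g + 4 - 1 = g + 3 from rfl, Finset.mul_sum]
    congr 1
    · refine Finset.sum_congr rfl fun z0 _ => ?_
      rw [← Finset.mul_sum]
      congr 1
      simp only [Finset.sum_filter]
      rw [Finset.sum_comm]
      refine Finset.sum_congr rfl fun q _ => ?_
      rw [← Finset.sum_filter, Finset.sum_const, nsmul_eq_mul, mul_comm]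
      congr 1
      have h1 : W.filter (fun z' => ∀ j, (q : ℤ) ∣ hh (z' j)) =
          Fintype.piFinset (fun _ : Fin (g + 4) => Z.filter fun w => (q : ℤ) ∣ hh w) := by
        ext z'
        simp only [hW, Finset.mem_filter, Fintype.mem_piFinset]
        exact ⟨fun h j => ⟨h.1 j, h.2 j⟩, fun h => ⟨fun j => (h j).1, fun j => (h j).2⟩⟩
      rw [h1, Fintype.card_piFinset]
      simp
    · rw [pow_succ]
      ring
  refine hstep.trans ?_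
  rw [hsplit]
  -- first term
  have hfirst : ∑ z0 ∈ Z, ∑ q ∈ (hh z0).natAbs.divisors,
        ((q : ℝ) / |((hh z0 : ℤ) : ℝ)|) * ((Z.filter fun w => (q : ℤ) ∣ hh w).card : ℝ) ^ (g + 4) ≤
      (2 * (S.R : ℝ) ^ 2) ^ (g + 4) * (S.B : ℝ) ^ (d + 1) * S.R *
        (2 * (S.R : ℝ) * (S.B : ℝ) * ((16 * (E : ℝ)) ^ (d - 1) / (S.B : ℝ) ^ (d - 1))) := by
    have h1 : ∀ z0 ∈ Z, ∑ q ∈ (hh z0).natAbs.divisors,
        ((q : ℝ) / |((hh z0 : ℤ) : ℝ)|) * ((Z.filter fun w => (q : ℤ) ∣ hh w).card : ℝ) ^ (g + 4) ≤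
        (2 * (S.R : ℝ) ^ 2) ^ (g + 4) * (S.B : ℝ) ^ (d + 1) * S.R *
          (1 / |((hh z0 : ℤ) : ℝ)|) := by
      intro z0 hz0
      have hpos : 0 < |((hh z0 : ℤ) : ℝ)| := by
        rw [abs_pos]
        exact_mod_cast hhne z0 hz0
      have hzne : 1 ≤ (hh z0).natAbs := Int.natAbs_pos.2 (hhne z0 hz0)
      have h2 : ∀ q ∈ (hh z0).natAbs.divisors,
          ((q : ℝ) / |((hh z0 : ℤ) : ℝ)|) *
            ((Z.filter fun w => (q : ℤ) ∣ hh w).card : ℝ) ^ (g + 4) ≤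
          (2 * (S.R : ℝ) ^ 2) ^ (g + 4) * (S.B : ℝ) ^ (d + 1) * (1 / |((hh z0 : ℤ) : ℝ)|) := by
        intro q hq
        have h3 := hNq z0 hz0 q hq
        calc ((q : ℝ) / |((hh z0 : ℤ) : ℝ)|) *
            ((Z.filter fun w => (q : ℤ) ∣ hh w).card : ℝ) ^ (g + 4)
            = (((Z.filter fun w => (q : ℤ) ∣ hh w).card : ℝ) ^ (g + 4) * q) *
              (1 / |((hh z0 : ℤ) : ℝ)|) := by ring
          _ ≤ _ := mul_le_mul_of_nonneg_right h3 (by positivity)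
      have hcard : (((hh z0).natAbs.divisors.card : ℕ) : ℝ) ≤ S.R := by
        exact_mod_cast S.tau_le _ hzne (hhle z0 hz0)
      calc _ ≤ ∑ q ∈ (hh z0).natAbs.divisors,
          (2 * (S.R : ℝ) ^ 2) ^ (g + 4) * (S.B : ℝ) ^ (d + 1) * (1 / |((hh z0 : ℤ) : ℝ)|) :=
            Finset.sum_le_sum h2
        _ = ((hh z0).natAbs.divisors.card : ℝ) *
            ((2 * (S.R : ℝ) ^ 2) ^ (g + 4) * (S.B : ℝ) ^ (d + 1) *
              (1 / |((hh z0 : ℤ) : ℝ)|)) := by rw [Finset.sum_const, nsmul_eq_mul]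
        _ ≤ (S.R : ℝ) * ((2 * (S.R : ℝ) ^ 2) ^ (g + 4) * (S.B : ℝ) ^ (d + 1) *
              (1 / |((hh z0 : ℤ) : ℝ)|)) :=
            mul_le_mul_of_nonneg_right hcard (by positivity)
        _ = _ := by ring
    calc _ ≤ ∑ z0 ∈ Z, (2 * (S.R : ℝ) ^ 2) ^ (g + 4) * (S.B : ℝ) ^ (d + 1) * S.R *
          (1 / |((hh z0 : ℤ) : ℝ)|) := Finset.sum_le_sum h1
      _ = (2 * (S.R : ℝ) ^ 2) ^ (g + 4) * (S.B : ℝ) ^ (d + 1) * S.R *
          ∑ z0 ∈ Z, (1 / |((hh z0 : ℤ) : ℝ)|) := by rw [Finset.mul_sum]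
      _ ≤ _ := mul_le_mul_of_nonneg_left hinv (by positivity)
  have hBd : (S.B : ℝ) ^ (d + 1) * ((S.B : ℝ) * (1 / (S.B : ℝ) ^ (d - 1))) = (S.B : ℝ) ^ 3 := by
    have h1 : (S.B : ℝ) ^ (d + 1) * S.B = (S.B : ℝ) ^ 3 * (S.B : ℝ) ^ (d - 1) := by
      rw [← pow_succ, ← pow_add]
      congr 1
      omega
    rw [← mul_assoc, h1, mul_assoc, mul_one_div_cancel (by positivity), mul_one]
  have hA : (4 * (S.H : ℝ)) ^ (g + 4) * ((2 * (S.R : ℝ) ^ 2) ^ (g + 4) * (S.B : ℝ) ^ (d + 1) * S.R *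
        (2 * (S.R : ℝ) * (S.B : ℝ) * ((16 * (E : ℝ)) ^ (d - 1) / (S.B : ℝ) ^ (d - 1)))) ≤
      (4 ^ (g + 4) * 2 ^ (g + 4) * 2 * (16 * (E : ℝ)) ^ (d - 1)) * (S.R : ℝ) ^ (4 * d + 20) *
        (S.H : ℝ) ^ (g + 4) * (S.B : ℝ) ^ 4 := by
    have hg : 2 * (g + 4) + 2 ≤ 4 * d + 20 := by
      have := S.hdg
      omega
    calc _ = (4 ^ (g + 4) * 2 ^ (g + 4) * 2 * (16 * (E : ℝ)) ^ (d - 1)) *
          (S.R : ℝ) ^ (2 * (g + 4) + 2) * (S.H : ℝ) ^ (g + 4) *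
          ((S.B : ℝ) ^ (d + 1) * ((S.B : ℝ) * (1 / (S.B : ℝ) ^ (d - 1)))) := by
          rw [mul_pow 4, mul_pow 2, ← pow_mul, pow_add (S.R : ℝ) (2 * (g + 4)) 2]
          ring
      _ = (4 ^ (g + 4) * 2 ^ (g + 4) * 2 * (16 * (E : ℝ)) ^ (d - 1)) *
          (S.R : ℝ) ^ (2 * (g + 4) + 2) * (S.H : ℝ) ^ (g + 4) * (S.B : ℝ) ^ 3 := by rw [hBd]
      _ ≤ _ := by
          have h1 : (S.R : ℝ) ^ (2 * (g + 4) + 2) ≤ (S.R : ℝ) ^ (4 * d + 20) :=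
            pow_le_pow_right₀ hR1 hg
          have h2 : (S.B : ℝ) ^ 3 ≤ (S.B : ℝ) ^ 4 := pow_le_pow_right₀ hB1 (by norm_num)
          gcongr
  have hB2 : (Z.card : ℝ) ^ (g + 5) * (2 * (4 * (S.H : ℝ)) ^ (g + 3)) ≤
      (2 * 4 ^ (g + 3)) * (S.R : ℝ) ^ (4 * d + 20) * (S.H : ℝ) ^ (g + 4) * (S.B : ℝ) ^ 4 := by
    have h1 : (Z.card : ℝ) ^ (g + 5) ≤ (S.B : ℝ) ^ 4 * (S.H : ℝ) := by
      calc (Z.card : ℝ) ^ (g + 5) ≤ ((S.B : ℝ) ^ 2) ^ (g + 5) :=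
            pow_le_pow_left₀ (by positivity) hZcard _
        _ = (S.B : ℝ) ^ (2 * (g + 5)) := by rw [← pow_mul]
        _ ≤ (S.B : ℝ) ^ (4 + h) := pow_le_pow_right₀ hB1 (by have := S.hh1; omega)
        _ = (S.B : ℝ) ^ 4 * (S.B : ℝ) ^ h := by rw [pow_add]
        _ ≤ (S.B : ℝ) ^ 4 * S.H := by
            have : (S.B : ℝ) ^ h ≤ S.H := by exact_mod_cast S.BH
            gcongr
    have h2 : (1 : ℝ) ≤ (S.R : ℝ) ^ (4 * d + 20) := one_le_pow₀ hR1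
    calc (Z.card : ℝ) ^ (g + 5) * (2 * (4 * (S.H : ℝ)) ^ (g + 3))
        ≤ ((S.B : ℝ) ^ 4 * (S.H : ℝ)) * (2 * (4 * (S.H : ℝ)) ^ (g + 3)) := by gcongr
      _ = (2 * 4 ^ (g + 3)) * 1 * (S.H : ℝ) ^ (g + 4) * (S.B : ℝ) ^ 4 := by
          rw [mul_pow 4, pow_succ (S.H : ℝ) (g + 3)]
          ring
      _ ≤ _ := by gcongr
  calc _ ≤ (4 * (S.H : ℝ)) ^ (g + 4) * ((2 * (S.R : ℝ) ^ 2) ^ (g + 4) * (S.B : ℝ) ^ (d + 1) * S.R *
        (2 * (S.R : ℝ) * (S.B : ℝ) * ((16 * (E : ℝ)) ^ (d - 1) / (S.B : ℝ) ^ (d - 1)))) +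
      (Z.card : ℝ) ^ (g + 5) * (2 * (4 * (S.H : ℝ)) ^ (g + 3)) := by
        gcongr
    _ ≤ _ := add_le_add hA hB2
    _ = _ := by ring

end Pool.Agent.Lib.MP_e426f4_ag.DH
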