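import Mathlib

/-!
# Comb3: pigeonhole for three types

For every `i` let the type of `i` be the largest of `A i, B i, C i`: `A i + B i + C i ≤ 3 · (the largest)`.  Either at least `k` indices
have type A, or at least `k` have type B, or at least `N - 2(k-1) ≥ c` have type C.  Keep `k` (respectively `c`) of them and bound the other
factors by `U` (each `A i, B i, C i ≤ U`).
-/

set_option autoImplicit false

namespace Pool.Agent.Lib.MP_e426f4_ag.DH

open Finset

open Classical in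
private theorem comb_one (N m : ℕ) (G T : Fin N → ℝ) (hG : ∀ i, 0 ≤ G i) (hT : ∀ i, 0 ≤ T i) (U : ℝ)
    (hU : ∀ i, G i ≤ U) (S : Finset (Fin N)) (hS : m ≤ S.card) (h3 : ∀ i ∈ S, G i ≤ 3 * T i) :
    ∏ i, G i ≤ 3 ^ N * (U ^ (N - m) *
      ∑ f ∈ (univ : Finset (Fin m → Fin N)).filter Function.Injective, ∏ j, T (f j)) := by
  obtain ⟨S', hS', hc⟩ := Finset.exists_subset_card_eq hS
  have hmN : m ≤ N := by
    have h1 := Finset.card_le_univ S'
    rw [hc, Fintype.card_fin] at h1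
    exact h1
  have h1 : ∏ i, G i = (∏ i ∈ S', G i) * ∏ i ∈ S'ᶜ, G i := (Finset.prod_mul_prod_compl S' G).symm
  have h2 : ∏ i ∈ S', G i ≤ 3 ^ m * ∏ i ∈ S', T i := by
    have h3' : ∏ i ∈ S', G i ≤ ∏ i ∈ S', (3 * T i) :=
      Finset.prod_le_prod (fun i _ => hG i) (fun i hi => h3 i (hS' hi))
    rw [Finset.prod_mul_distrib, Finset.prod_const, hc] at h3'
    exact h3'
  have h4 : ∏ i ∈ S'ᶜ, G i ≤ U ^ (N - m) := by
    have h5 : ∏ i ∈ S'ᶜ, G i ≤ ∏ _i ∈ S'ᶜ, U :=
      Finset.prod_le_prod (fun i _ => hG i) (fun i _ => hU i)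
    rw [Finset.prod_const, Finset.card_compl, Fintype.card_fin, hc] at h5
    exact h5
  have hf : ∏ i ∈ S', T i = ∏ j, T (S'.orderEmbOfFin hc j) := by
    have h6 : S' = univ.image (S'.orderEmbOfFin hc) := by
      ext x
      simp only [mem_image, mem_univ, true_and]
      constructor
      · intro hx
        have h7 : x ∈ Set.range (S'.orderEmbOfFin hc) := by
          rw [Finset.range_orderEmbOfFin]
          exact hx
        exact h7
      · rintro ⟨j, rfl⟩
        exact Finset.orderEmbOfFin_mem S' hc j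
    conv_lhs => rw [h6]
    rw [Finset.prod_image]
    intro a _ b _ hab
    exact (S'.orderEmbOfFin hc).injective hab
  have hsum : ∏ i ∈ S', T i ≤
      ∑ f ∈ (univ : Finset (Fin m → Fin N)).filter Function.Injective, ∏ j, T (f j) := by
    rw [hf]
    exact Finset.single_le_sum
      (f := fun f : Fin m → Fin N => ∏ j, T (f j))
      (fun f _ => Finset.prod_nonneg fun j _ => hT _)
      (Finset.mem_filter.2 ⟨mem_univ _, (S'.orderEmbOfFin hc).injective⟩)
  have hP : 0 ≤ ∏ i ∈ S', T i := Finset.prod_nonneg fun i _ => hT i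
  have hPc : 0 ≤ ∏ i ∈ S'ᶜ, G i := Finset.prod_nonneg fun i _ => hG i
  have hUp : 0 ≤ U ^ (N - m) := le_trans hPc h4
  have h33 : (3 : ℝ) ^ m ≤ 3 ^ N := pow_le_pow_right₀ (by norm_num) hmN
  rw [h1]
  calc (∏ i ∈ S', G i) * ∏ i ∈ S'ᶜ, G i
      ≤ (3 ^ m * ∏ i ∈ S', T i) * U ^ (N - m) :=
        mul_le_mul h2 h4 hPc (mul_nonneg (by positivity) hP)
    _ ≤ (3 ^ N * ∑ f ∈ (univ : Finset (Fin m → Fin N)).filter Function.Injective, ∏ j, T (f j)) *
          U ^ (N - m) :=
        mul_le_mul_of_nonneg_right (mul_le_mul h33 hsum hP (by positivity)) hUp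
    _ = _ := by ring

open Classical in
theorem comb_three (N k c : ℕ) (hk : 1 ≤ k) (hN : 2 * (k - 1) + c ≤ N) (A B C : Fin N → ℝ)
    (hA : ∀ i, 0 ≤ A i) (hB : ∀ i, 0 ≤ B i) (hC : ∀ i, 0 ≤ C i) (U : ℝ)
    (hU : ∀ i, A i + B i + C i ≤ U) :
    ∏ i, (A i + B i + C i) ≤ 3 ^ N * (U ^ (N - k) *
      ∑ f ∈ (univ : Finset (Fin k → Fin N)).filter Function.Injective, (∏ j, A (f j) + ∏ j, B (f j)) +
      U ^ (N - c) *
      ∑ f ∈ (univ : Finset (Fin c → Fin N)).filter Function.Injective, ∏ j, C (f j)) := by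
  have hG : ∀ i, 0 ≤ A i + B i + C i := fun i => add_nonneg (add_nonneg (hA i) (hB i)) (hC i)
  have hsA : 0 ≤ ∑ f ∈ (univ : Finset (Fin k → Fin N)).filter Function.Injective, ∏ j, A (f j) :=
    Finset.sum_nonneg fun f _ => Finset.prod_nonneg fun j _ => hA _
  have hsB : 0 ≤ ∑ f ∈ (univ : Finset (Fin k → Fin N)).filter Function.Injective, ∏ j, B (f j) :=
    Finset.sum_nonneg fun f _ => Finset.prod_nonneg fun j _ => hB _
  have hsC : 0 ≤ ∑ f ∈ (univ : Finset (Fin c → Fin N)).filter Function.Injective, ∏ j, C (f j) :=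
    Finset.sum_nonneg fun f _ => Finset.prod_nonneg fun j _ => hC _
  rw [Finset.sum_add_distrib]
  rcases Nat.eq_zero_or_pos N with hN0 | hN0
  · -- no index: then `k = 1`, `c = 0`
    subst hN0
    have hc0 : c = 0 := by omega
    subst hc0
    have e1 : (univ : Finset (Fin 0 → Fin 0)).filter Function.Injective = univ := by
      ext f
      simp [Function.injective_of_subsingleton f]
    have hk0 : 0 - k = 0 := by omega
    rw [e1, hk0]
    simp only [Finset.univ_eq_empty, Finset.prod_empty, pow_zero, one_mul, Finset.sum_const,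
      Finset.card_univ, Nat.sub_self]
    simp
    linarith
  have hU0 : 0 ≤ U := le_trans (hG ⟨0, hN0⟩) (hU ⟨0, hN0⟩)
  obtain ⟨SA, hSA⟩ : ∃ SA : Finset (Fin N), SA = univ.filter fun i => B i ≤ A i ∧ C i ≤ A i := ⟨_, rfl⟩
  obtain ⟨SB, hSB⟩ : ∃ SB : Finset (Fin N), SB = univ.filter fun i => A i ≤ B i ∧ C i ≤ B i := ⟨_, rfl⟩
  obtain ⟨SC, hSC⟩ : ∃ SC : Finset (Fin N), SC = univ.filter fun i => A i ≤ C i ∧ B i ≤ C i := ⟨_, rfl⟩
  have hcov : (univ : Finset (Fin N)) ⊆ SA ∪ SB ∪ SC := by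
    intro i _
    rw [hSA, hSB, hSC]
    simp only [mem_union, mem_filter, mem_univ, true_and]
    rcases le_total (A i) (B i) with h1 | h1
    · rcases le_total (B i) (C i) with h2 | h2
      · exact Or.inr ⟨h1.trans h2, h2⟩
      · exact Or.inl (Or.inr ⟨h1, h2⟩)
    · rcases le_total (A i) (C i) with h2 | h2
      · exact Or.inr ⟨h2, h1.trans h2⟩
      · exact Or.inl (Or.inl ⟨h1, h2⟩)
  have hcard : N ≤ SA.card + SB.card + SC.card := by
    have h1 := Finset.card_le_card hcov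
    rw [Finset.card_univ, Fintype.card_fin] at h1
    have h2 := Finset.card_union_le (SA ∪ SB) SC
    have h3 := Finset.card_union_le SA SB
    omega
  have hx : k ≤ SA.card ∨ k ≤ SB.card ∨ c ≤ SC.card := by omega
  have hp1 : 0 ≤ U ^ (N - k) := pow_nonneg hU0 _
  have hp2 : 0 ≤ U ^ (N - c) := pow_nonneg hU0 _
  rcases hx with h | h | h
  · refine le_trans (comb_one N k _ A hG hA U hU SA h (fun i hi => ?_)) ?_
    · rw [hSA, mem_filter] at hi
      linarith [hi.2.1, hi.2.2]
    · apply mul_le_mul_of_nonneg_left _ (by positivity)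
      nlinarith [mul_nonneg hp1 hsB, mul_nonneg hp2 hsC]
  · refine le_trans (comb_one N k _ B hG hB U hU SB h (fun i hi => ?_)) ?_
    · rw [hSB, mem_filter] at hi
      linarith [hi.2.1, hi.2.2]
    · apply mul_le_mul_of_nonneg_left _ (by positivity)
      nlinarith [mul_nonneg hp1 hsA, mul_nonneg hp2 hsC]
  · refine le_trans (comb_one N c _ C hG hC U hU SC h (fun i hi => ?_)) ?_
    · rw [hSC, mem_filter] at hi
      linarith [hi.2.1, hi.2.2]
    · apply mul_le_mul_of_nonneg_left _ (by positivity)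
      nlinarith [mul_nonneg hp1 (add_nonneg hsA hsB)]

end Pool.Agent.Lib.MP_e426f4_ag.DH
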