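import Pool.Agent.Lib.MP_e426f4_ag.DH.Defs
import Pool.Agent.Lib.MP_e426f4_ag.DG.Fej
import Pool.Agent.Lib.MP_e426f4_ag.DG.FFb
import Pool.Agent.Lib.MP_e426f4_ag.DG.Ker1
import Pool.Agent.Lib.MP_e426f4_ag.DG.Ker2

/-!
# Mom: moments of `F` and counting, any number of factors

`mom_two`: adapt `DG/L4a.lean` from `Fin 4` to `Fin k`.  `mom_one`: the same with `b' = b` and one sum:
`P⁻¹ ∑_b ∏_j |D_H(b h_j)|²/H ≤ #{a : ∑ a_j h_j = 0}`, `h_j = x_j^d - y_j^d`, `|∑ a_j h_j| ≤ k H B^d < P`.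
`cnt1_le` (converse): `∏_j wh(b h_j) = ∏_j ∑_{a_j} w(a_j) e(a_j b h_j)` (`sum_wt_ee`), so
`∑_b ∏_j FZ(Z_j;b,b) = P ∑_z ∑_{a : ∑ a_j h_j = 0 mod P} ∏ w(a_j) ≥ P 2^{-k} cnt1` by `wt_ge`, `wt_nonneg`
(integers `|a| < H` are distinct mod `P` as `2H < P`).
-/

set_option autoImplicit false

namespace Pool.Agent.Lib.MP_e426f4_ag.DH

open Finset
open Pool.Agent.Lib.MP_e426f4_ag.DG

private theorem Mom_ee_sum (P : ℕ) [NeZero P] {ι : Type*} (s : Finset ι) (f : ι → ZMod P) :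
    ee P (∑ i ∈ s, f i) = ∏ i ∈ s, ee P (f i) := by
  classical
  unfold ee
  induction s using Finset.induction_on with
  | empty => simp
  | insert a s ha ih => rw [Finset.sum_insert ha, Finset.prod_insert ha, AddChar.map_add_eq_mul, ih]

private theorem Mom_ee_add (P : ℕ) [NeZero P] (x y : ZMod P) : ee P (x + y) = ee P x * ee P y := by
  unfold ee
  exact AddChar.map_add_eq_mul _ _ _

private theorem Mom_zero {k : ℕ} (P d H B : ℕ) (hH : 0 < H) (hPB : k * H * B ^ d < P)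
    (a : Fin k → ℤ) (ha : ∀ j, |a j| < H) (x : Fin k → ℤ) (hx : ∀ j, |x j| ≤ (B : ℤ) ^ d)
    (h : ∑ j, (a j : ZMod P) * (x j : ZMod P) = 0) : ∑ j, a j * x j = 0 := by
  have h1 : ((∑ j, a j * x j : ℤ) : ZMod P) = 0 := by
    push_cast
    exact h
  rw [ZMod.intCast_zmod_eq_zero_iff_dvd] at h1
  apply Int.eq_zero_of_abs_lt_dvd h1
  calc |∑ j, a j * x j| ≤ ∑ j, |a j * x j| := Finset.abs_sum_le_sum_abs _ _
    _ ≤ ∑ _j : Fin k, (H : ℤ) * (B : ℤ) ^ d := by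
        apply Finset.sum_le_sum
        intro j _
        rw [abs_mul]
        exact mul_le_mul (ha j).le (hx j) (abs_nonneg _) (by positivity)
    _ = k * H * (B : ℤ) ^ d := by
        rw [Finset.sum_const, Finset.card_univ, Fintype.card_fin]
        simp
        ring
    _ < P := by exact_mod_cast hPB

private theorem Mom_expand {k : ℕ} (P : ℕ) [NeZero P] (d H : ℕ) (hH : 0 < H) (z : Fin k → ℕ × ℕ)
    (b b' : ZMod P) :
    ((∏ j, (‖Dn P H (b * ((z j).1 : ZMod P) ^ d - b' * ((z j).2 : ZMod P) ^ d)‖ ^ 2 / H) : ℝ) : ℂ) =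
      ∑ a ∈ Fintype.piFinset fun _ : Fin k => Ioo (-(H : ℤ)) H,
        ((∏ j, (1 - |(a j : ℝ)| / H) : ℝ) : ℂ) *
          (ee P (b * ∑ j, (a j : ZMod P) * ((z j).1 : ZMod P) ^ d) *
            ee P (b' * -∑ j, (a j : ZMod P) * ((z j).2 : ZMod P) ^ d)) := by
  rw [Complex.ofReal_prod]
  simp_rw [Dn_sq H hH]
  rw [Finset.prod_univ_sum]
  apply Finset.sum_congr rfl
  intro a _
  rw [Finset.prod_mul_distrib, Complex.ofReal_prod, ← Mom_ee_sum, ← Mom_ee_add]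
  congr 2
  rw [mul_neg, Finset.mul_sum, Finset.mul_sum, ← sub_eq_add_neg, ← Finset.sum_sub_distrib]
  apply Finset.sum_congr rfl
  intro j _
  ring

private theorem Mom_weight {k : ℕ} (H : ℕ) (hH : 0 < H) (a : Fin k → ℤ)
    (ha : a ∈ Fintype.piFinset fun _ : Fin k => Ioo (-(H : ℤ)) H) :
    (∀ j, |a j| < H) ∧ ∀ j, 0 ≤ 1 - |(a j : ℝ)| / H ∧ 1 - |(a j : ℝ)| / H ≤ 1 := by
  have ha' : ∀ j, |a j| < H := by
    intro j
    have := Fintype.mem_piFinset.1 ha j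
    rw [Finset.mem_Ioo] at this
    exact abs_lt.2 this
  have hHr : (0 : ℝ) < H := by exact_mod_cast hH
  refine ⟨ha', fun j => ?_⟩
  have h2 : |(a j : ℝ)| ≤ H := by exact_mod_cast (ha' j).le
  have h3 : |(a j : ℝ)| / H ≤ 1 := (div_le_one hHr).2 h2
  have h4 : 0 ≤ |(a j : ℝ)| / H := by positivity
  constructor <;> linarith

private theorem Mom_pow_le (d B x : ℕ) (hx : x ≤ B) : |((x : ℤ)) ^ d| ≤ (B : ℤ) ^ d := by
  rw [abs_of_nonneg (by positivity)]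
  exact_mod_cast Nat.pow_le_pow_left hx d

private theorem Mom_diff_le (d B x y : ℕ) (hx : x ≤ B) (hy : y ≤ B) :
    |((x : ℤ)) ^ d - (y : ℤ) ^ d| ≤ (B : ℤ) ^ d := by
  have h1 : ((x : ℤ)) ^ d ≤ (B : ℤ) ^ d := by exact_mod_cast Nat.pow_le_pow_left hx d
  have h2 : ((y : ℤ)) ^ d ≤ (B : ℤ) ^ d := by exact_mod_cast Nat.pow_le_pow_left hy d
  have h3 : (0 : ℤ) ≤ (x : ℤ) ^ d := by positivity
  have h4 : (0 : ℤ) ≤ (y : ℤ) ^ d := by positivity
  rw [abs_le]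
  constructor <;> linarith

private theorem Mom_term_two {k : ℕ} (P : ℕ) [NeZero P] (d H B : ℕ) (hH : 0 < H)
    (hPB : k * H * B ^ d < P) (z : Fin k → ℕ × ℕ) (hz : ∀ j, (z j).1 ≤ B ∧ (z j).2 ≤ B) :
    (1 / (P : ℝ) ^ 2) * ∑ b : ZMod P, ∑ b' : ZMod P,
      ∏ j, (‖Dn P H (b * ((z j).1 : ZMod P) ^ d - b' * ((z j).2 : ZMod P) ^ d)‖ ^ 2 / H) ≤
    ((((Fintype.piFinset fun _ : Fin k => Ioo (-(H : ℤ)) H)).filter
      fun a : Fin k → ℤ => ∑ j, a j * ((z j).1 : ℤ) ^ d = 0 ∧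
        ∑ j, a j * ((z j).2 : ℤ) ^ d = 0).card : ℝ) := by
  classical
  have hP0 : (P : ℂ) ≠ 0 := by exact_mod_cast NeZero.ne P
  have hC : (((1 / (P : ℝ) ^ 2) * ∑ b : ZMod P, ∑ b' : ZMod P,
      ∏ j, (‖Dn P H (b * ((z j).1 : ZMod P) ^ d - b' * ((z j).2 : ZMod P) ^ d)‖ ^ 2 / H) : ℝ) : ℂ) =
      ((∑ a ∈ Fintype.piFinset fun _ : Fin k => Ioo (-(H : ℤ)) H,
        if (∑ j, (a j : ZMod P) * ((z j).1 : ZMod P) ^ d = 0 ∧
          ∑ j, (a j : ZMod P) * ((z j).2 : ZMod P) ^ d = 0) then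
            (∏ j, (1 - |(a j : ℝ)| / H)) else 0 : ℝ) : ℂ) := by
    rw [Complex.ofReal_mul, Complex.ofReal_sum]
    simp_rw [Complex.ofReal_sum (univ : Finset (ZMod P)), Mom_expand P d H hH z]
    have h1 : ∀ b : ZMod P, (∑ b' : ZMod P, ∑ a ∈ Fintype.piFinset fun _ : Fin k => Ioo (-(H : ℤ)) H,
        ((∏ j, (1 - |(a j : ℝ)| / H) : ℝ) : ℂ) *
          (ee P (b * ∑ j, (a j : ZMod P) * ((z j).1 : ZMod P) ^ d) *
            ee P (b' * -∑ j, (a j : ZMod P) * ((z j).2 : ZMod P) ^ d))) =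
        ∑ a ∈ Fintype.piFinset fun _ : Fin k => Ioo (-(H : ℤ)) H,
        ((∏ j, (1 - |(a j : ℝ)| / H) : ℝ) : ℂ) *
          (ee P (b * ∑ j, (a j : ZMod P) * ((z j).1 : ZMod P) ^ d) *
            if (-∑ j, (a j : ZMod P) * ((z j).2 : ZMod P) ^ d) = 0 then (P : ℂ) else 0) := by
      intro b
      rw [Finset.sum_comm]
      apply Finset.sum_congr rfl
      intro a _
      rw [← Finset.mul_sum, ← Finset.mul_sum, sum_ee]
    simp_rw [h1]
    rw [Finset.sum_comm, Finset.mul_sum, Complex.ofReal_sum]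
    apply Finset.sum_congr rfl
    intro a _
    rw [← Finset.mul_sum, ← Finset.sum_mul, sum_ee]
    simp only [neg_eq_zero]
    by_cases hS1 : ∑ j, (a j : ZMod P) * ((z j).1 : ZMod P) ^ d = 0
    · by_cases hS2 : ∑ j, (a j : ZMod P) * ((z j).2 : ZMod P) ^ d = 0
      · rw [if_pos hS1, if_pos hS2, if_pos ⟨hS1, hS2⟩]
        push_cast
        field_simp
      · simp only [hS2, and_false, if_false, mul_zero, Complex.ofReal_zero]
    · simp only [hS1, false_and, if_false, mul_zero, zero_mul, Complex.ofReal_zero]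
  rw [Complex.ofReal_injective hC, Finset.card_filter]
  push_cast
  apply Finset.sum_le_sum
  intro a ha
  obtain ⟨ha', hw⟩ := Mom_weight H hH a ha
  split_ifs with h1 h2 h3
  · exact Finset.prod_le_one (fun j _ => (hw j).1) (fun j _ => (hw j).2)
  · exfalso
    refine h2 ⟨Mom_zero P d H B hH hPB a ha' (fun j => ((z j).1 : ℤ) ^ d)
      (fun j => Mom_pow_le d B _ (hz j).1) ?_,
      Mom_zero P d H B hH hPB a ha' (fun j => ((z j).2 : ℤ) ^ d)
      (fun j => Mom_pow_le d B _ (hz j).2) ?_⟩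
    · push_cast
      exact h1.1
    · push_cast
      exact h1.2
  · exact zero_le_one
  · exact le_rfl

private theorem Mom_term_one {k : ℕ} (P : ℕ) [NeZero P] (d H B : ℕ) (hH : 0 < H)
    (hPB : k * H * B ^ d < P) (z : Fin k → ℕ × ℕ) (hz : ∀ j, (z j).1 ≤ B ∧ (z j).2 ≤ B) :
    (1 / (P : ℝ)) * ∑ b : ZMod P,
      ∏ j, (‖Dn P H (b * ((z j).1 : ZMod P) ^ d - b * ((z j).2 : ZMod P) ^ d)‖ ^ 2 / H) ≤
    ((((Fintype.piFinset fun _ : Fin k => Ioo (-(H : ℤ)) H)).filter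
      fun a : Fin k → ℤ => ∑ j, a j * (((z j).1 : ℤ) ^ d - ((z j).2 : ℤ) ^ d) = 0).card : ℝ) := by
  classical
  have hP0 : (P : ℂ) ≠ 0 := by exact_mod_cast NeZero.ne P
  have hC : (((1 / (P : ℝ)) * ∑ b : ZMod P,
      ∏ j, (‖Dn P H (b * ((z j).1 : ZMod P) ^ d - b * ((z j).2 : ZMod P) ^ d)‖ ^ 2 / H) : ℝ) : ℂ) =
      ((∑ a ∈ Fintype.piFinset fun _ : Fin k => Ioo (-(H : ℤ)) H,
        if (∑ j, (a j : ZMod P) * (((z j).1 : ZMod P) ^ d - ((z j).2 : ZMod P) ^ d) = 0) then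
            (∏ j, (1 - |(a j : ℝ)| / H)) else 0 : ℝ) : ℂ) := by
    rw [Complex.ofReal_mul, Complex.ofReal_sum]
    simp_rw [Mom_expand P d H hH z]
    rw [Finset.sum_comm, Finset.mul_sum, Complex.ofReal_sum]
    apply Finset.sum_congr rfl
    intro a _
    have h1 : ∀ b : ZMod P, ((∏ j, (1 - |(a j : ℝ)| / H) : ℝ) : ℂ) *
          (ee P (b * ∑ j, (a j : ZMod P) * ((z j).1 : ZMod P) ^ d) *
            ee P (b * -∑ j, (a j : ZMod P) * ((z j).2 : ZMod P) ^ d)) =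
        ((∏ j, (1 - |(a j : ℝ)| / H) : ℝ) : ℂ) *
          ee P (b * ∑ j, (a j : ZMod P) * (((z j).1 : ZMod P) ^ d - ((z j).2 : ZMod P) ^ d)) := by
      intro b
      rw [← Mom_ee_add]
      congr 2
      rw [← mul_add, ← sub_eq_add_neg, ← Finset.sum_sub_distrib]
      congr 1
      apply Finset.sum_congr rfl
      intro j _
      ring
    simp_rw [h1]
    rw [← Finset.mul_sum, sum_ee]
    by_cases hS1 : ∑ j, (a j : ZMod P) * (((z j).1 : ZMod P) ^ d - ((z j).2 : ZMod P) ^ d) = 0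
    · rw [if_pos hS1, if_pos hS1]
      push_cast
      field_simp
    · rw [if_neg hS1, if_neg hS1]
      simp
  rw [Complex.ofReal_injective hC, Finset.card_filter]
  push_cast
  apply Finset.sum_le_sum
  intro a ha
  obtain ⟨ha', hw⟩ := Mom_weight H hH a ha
  split_ifs with h1 h2 h3
  · exact Finset.prod_le_one (fun j _ => (hw j).1) (fun j _ => (hw j).2)
  · exfalso
    refine h2 (Mom_zero P d H B hH hPB a ha' (fun j => ((z j).1 : ℤ) ^ d - ((z j).2 : ℤ) ^ d)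
      (fun j => Mom_diff_le d B _ _ (hz j).1 (hz j).2) ?_)
    push_cast
    exact h1
  · exact zero_le_one
  · exact le_rfl

private theorem Mom_prod_le {k : ℕ} (P : ℕ) [NeZero P] (n d H : ℕ) (hH : 0 < H) (hn : 0 < n)
    (hnP : n ≤ P) (hnH : 4 * n * H ≤ P) (hP : (P : ℝ) / n ≤ 8 * H)
    (Z : Fin k → Finset (ℕ × ℕ)) (b b' : ZMod P) :
    ∏ j, FZ P n d (Z j) b b' ≤ 16 ^ k * ∏ j, Ft P H d (Z j) b b' := by
  calc ∏ j, FZ P n d (Z j) b b' ≤ ∏ j, (16 * Ft P H d (Z j) b b') :=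
        Finset.prod_le_prod (fun j _ => FZ_nonneg n d (Z j) b b')
          (fun j _ => FZ_le_Ft n d H hH hn hnP hnH hP (Z j) b b')
    _ = 16 ^ k * ∏ j, Ft P H d (Z j) b b' := by
        rw [Finset.prod_mul_distrib, Finset.prod_const, Finset.card_univ, Fintype.card_fin]

theorem mom_two {k : ℕ} (P : ℕ) [NeZero P] (n d H B : ℕ) (hH : 0 < H) (hn : 0 < n) (hnP : n ≤ P)
    (hnH : 4 * n * H ≤ P) (hP : (P : ℝ) / n ≤ 8 * H) (hPB : k * H * B ^ d < P)
    (Z : Fin k → Finset (ℕ × ℕ)) (hZ : ∀ j, ∀ z ∈ Z j, z.1 ≤ B ∧ z.2 ≤ B) :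
    (1 / (P : ℝ) ^ 2) * ∑ b : ZMod P, ∑ b' : ZMod P, ∏ j, FZ P n d (Z j) b b' ≤
      16 ^ k * cnt2 H d Z := by
  calc (1 / (P : ℝ) ^ 2) * ∑ b : ZMod P, ∑ b' : ZMod P, ∏ j, FZ P n d (Z j) b b'
      ≤ (1 / (P : ℝ) ^ 2) * ∑ b : ZMod P, ∑ b' : ZMod P,
          (16 ^ k * ∏ j, Ft P H d (Z j) b b') := by
        gcongr with b _ b' _
        exact Mom_prod_le P n d H hH hn hnP hnH hP Z b b'
    _ = 16 ^ k * ∑ z ∈ Fintype.piFinset Z, ((1 / (P : ℝ) ^ 2) * ∑ b : ZMod P, ∑ b' : ZMod P,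
          ∏ j, (‖Dn P H (b * ((z j).1 : ZMod P) ^ d - b' * ((z j).2 : ZMod P) ^ d)‖ ^ 2 / H)) := by
        simp_rw [← Finset.mul_sum, Ft]
        simp_rw [Finset.prod_univ_sum]
        rw [← mul_assoc, mul_comm (1 / (P : ℝ) ^ 2), mul_assoc]
        congr 2
        calc ∑ b : ZMod P, ∑ b' : ZMod P, ∑ z ∈ Fintype.piFinset Z,
              ∏ j, ‖Dn P H (b * ((z j).1 : ZMod P) ^ d - b' * ((z j).2 : ZMod P) ^ d)‖ ^ 2 / H
            = ∑ b : ZMod P, ∑ z ∈ Fintype.piFinset Z, ∑ b' : ZMod P,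
              ∏ j, ‖Dn P H (b * ((z j).1 : ZMod P) ^ d - b' * ((z j).2 : ZMod P) ^ d)‖ ^ 2 / H :=
              Finset.sum_congr rfl (fun b _ => Finset.sum_comm)
          _ = _ := Finset.sum_comm
    _ ≤ 16 ^ k * cnt2 H d Z := by
        unfold cnt2
        gcongr with z hz
        apply Mom_term_two P d H B hH hPB z
        intro j
        exact hZ j _ (Fintype.mem_piFinset.1 hz j)

theorem mom_one {k : ℕ} (P : ℕ) [NeZero P] (n d H B : ℕ) (hH : 0 < H) (hn : 0 < n) (hnP : n ≤ P)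
    (hnH : 4 * n * H ≤ P) (hP : (P : ℝ) / n ≤ 8 * H) (hPB : k * H * B ^ d < P)
    (Z : Fin k → Finset (ℕ × ℕ)) (hZ : ∀ j, ∀ z ∈ Z j, z.1 ≤ B ∧ z.2 ≤ B) :
    (1 / (P : ℝ)) * ∑ b : ZMod P, ∏ j, FZ P n d (Z j) b b ≤ 16 ^ k * cnt1 H d Z := by
  calc (1 / (P : ℝ)) * ∑ b : ZMod P, ∏ j, FZ P n d (Z j) b b
      ≤ (1 / (P : ℝ)) * ∑ b : ZMod P, (16 ^ k * ∏ j, Ft P H d (Z j) b b) := by
        gcongr with b _
        exact Mom_prod_le P n d H hH hn hnP hnH hP Z b b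
    _ = 16 ^ k * ∑ z ∈ Fintype.piFinset Z, ((1 / (P : ℝ)) * ∑ b : ZMod P,
          ∏ j, (‖Dn P H (b * ((z j).1 : ZMod P) ^ d - b * ((z j).2 : ZMod P) ^ d)‖ ^ 2 / H)) := by
        simp_rw [← Finset.mul_sum, Ft]
        simp_rw [Finset.prod_univ_sum]
        rw [← mul_assoc, mul_comm (1 / (P : ℝ)), mul_assoc]
        congr 2
        exact Finset.sum_comm
    _ ≤ 16 ^ k * cnt1 H d Z := by
        unfold cnt1
        gcongr with z hz
        apply Mom_term_one P d H B hH hPB z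
        intro j
        exact hZ j _ (Fintype.mem_piFinset.1 hz j)

private theorem Mom_wh_sum {k : ℕ} (P : ℕ) [NeZero P] (n d : ℕ) (hn : 0 < n)
    (z : Fin k → ℕ × ℕ) :
    ∑ b : ZMod P, ∏ j, wh P n (b * ((z j).1 : ZMod P) ^ d - b * ((z j).2 : ZMod P) ^ d) =
      (P : ℝ) * ∑ a : Fin k → ZMod P,
        (if ∑ j, a j * (((z j).1 : ZMod P) ^ d - ((z j).2 : ZMod P) ^ d) = 0 then
          ∏ j, wt P n (a j) else 0) := by
  classical
  apply Complex.ofReal_injective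
  rw [Complex.ofReal_sum, Complex.ofReal_mul, Complex.ofReal_sum]
  simp_rw [Complex.ofReal_prod, ← sum_wt_ee n hn]
  simp_rw [Finset.prod_univ_sum, Fintype.piFinset_univ]
  rw [Finset.sum_comm, Finset.mul_sum]
  apply Finset.sum_congr rfl
  intro a _
  have h1 : ∀ b : ZMod P, ∏ j, ((wt P n (a j) : ℂ) *
      ee P (a j * (b * ((z j).1 : ZMod P) ^ d - b * ((z j).2 : ZMod P) ^ d))) =
      (∏ j, (wt P n (a j) : ℂ)) *
        ee P (b * ∑ j, a j * (((z j).1 : ZMod P) ^ d - ((z j).2 : ZMod P) ^ d)) := by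
    intro b
    rw [Finset.prod_mul_distrib, ← Mom_ee_sum]
    congr 2
    rw [Finset.mul_sum]
    apply Finset.sum_congr rfl
    intro j _
    ring
  simp_rw [h1]
  rw [← Finset.mul_sum, sum_ee]
  split_ifs with h
  · rw [Complex.ofReal_prod, Complex.ofReal_natCast]
    ring
  · simp

theorem cnt1_le {k : ℕ} (P : ℕ) [NeZero P] (n d H : ℕ) (hH : 0 < H) (hn : 0 < n)
    (hnH : 4 * n * H ≤ P) (h2 : 2 * H < P) (Z : Fin k → Finset (ℕ × ℕ)) :
    cnt1 H d Z ≤ 2 ^ k * ((1 / (P : ℝ)) * ∑ b : ZMod P, ∏ j, FZ P n d (Z j) b b) := by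
  classical
  have hPr : (0 : ℝ) < P := by exact_mod_cast Nat.pos_of_ne_zero (NeZero.ne P)
  have hexp : (1 / (P : ℝ)) * ∑ b : ZMod P, ∏ j, FZ P n d (Z j) b b =
      ∑ z ∈ Fintype.piFinset Z, ∑ a : Fin k → ZMod P,
        (if ∑ j, a j * (((z j).1 : ZMod P) ^ d - ((z j).2 : ZMod P) ^ d) = 0 then
          ∏ j, wt P n (a j) else 0) := by
    unfold FZ
    simp_rw [Finset.prod_univ_sum]
    rw [Finset.sum_comm, Finset.mul_sum]
    apply Finset.sum_congr rfl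
    intro z _
    rw [Mom_wh_sum P n d hn z, ← mul_assoc, one_div_mul_cancel hPr.ne', one_mul]
  rw [hexp]
  unfold cnt1
  rw [Finset.mul_sum]
  apply Finset.sum_le_sum
  intro z _
  set A : Finset (Fin k → ℤ) := (((Fintype.piFinset fun _ : Fin k => Ioo (-(H : ℤ)) H)).filter
      fun a : Fin k → ℤ => ∑ j, a j * (((z j).1 : ℤ) ^ d - ((z j).2 : ℤ) ^ d) = 0) with hA
  have hAmem : ∀ a ∈ A, ∀ j, |a j| < H := by
    intro a ha j
    rw [hA, Finset.mem_filter] at ha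
    have := Fintype.mem_piFinset.1 ha.1 j
    rw [Finset.mem_Ioo] at this
    exact abs_lt.2 this
  let φ : (Fin k → ℤ) → (Fin k → ZMod P) := fun a j => (a j : ZMod P)
  have hinj : Set.InjOn φ (A : Set (Fin k → ℤ)) := by
    intro a ha a' ha' h
    funext j
    have h1 : ((a j : ℤ) : ZMod P) = ((a' j : ℤ) : ZMod P) := congrFun h j
    have h3 : ((a j - a' j : ℤ) : ZMod P) = 0 := by
      push_cast
      rw [h1, sub_self]
    rw [ZMod.intCast_zmod_eq_zero_iff_dvd] at h3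
    have h4 := hAmem a ha j
    have h5 := hAmem a' ha' j
    have h6 : |a j - a' j| < P := by
      calc |a j - a' j| ≤ |a j| + |a' j| := abs_sub _ _
        _ < P := by
          have : (2 * H : ℤ) < P := by exact_mod_cast h2
          linarith
    have := Int.eq_zero_of_abs_lt_dvd h3 h6
    linarith
  have hterm0 : ∀ a : Fin k → ZMod P, 0 ≤
      (if ∑ j, a j * (((z j).1 : ZMod P) ^ d - ((z j).2 : ZMod P) ^ d) = 0 then
          ∏ j, wt P n (a j) else 0) := by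
    intro a
    split_ifs
    · exact Finset.prod_nonneg fun j _ => wt_nonneg n _
    · exact le_rfl
  have hsub : ∑ a ∈ A.image φ,
      (if ∑ j, a j * (((z j).1 : ZMod P) ^ d - ((z j).2 : ZMod P) ^ d) = 0 then
          ∏ j, wt P n (a j) else 0) ≤
      ∑ a : Fin k → ZMod P,
      (if ∑ j, a j * (((z j).1 : ZMod P) ^ d - ((z j).2 : ZMod P) ^ d) = 0 then
          ∏ j, wt P n (a j) else 0) :=
    Finset.sum_le_sum_of_subset_of_nonneg (Finset.subset_univ _) fun a _ _ => hterm0 a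
  rw [Finset.sum_image hinj] at hsub
  have hlow : ∀ a ∈ A, (1 / 2 : ℝ) ^ k ≤
      (if ∑ j, φ a j * (((z j).1 : ZMod P) ^ d - ((z j).2 : ZMod P) ^ d) = 0 then
          ∏ j, wt P n (φ a j) else 0) := by
    intro a ha
    have h0 : ∑ j, φ a j * (((z j).1 : ZMod P) ^ d - ((z j).2 : ZMod P) ^ d) = 0 := by
      have h1 : ∑ j, a j * (((z j).1 : ℤ) ^ d - ((z j).2 : ℤ) ^ d) = 0 := by
        rw [hA, Finset.mem_filter] at ha
        exact ha.2
      have h3 := congrArg (Int.cast : ℤ → ZMod P) h1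
      push_cast at h3
      exact h3
    rw [if_pos h0]
    calc (1 / 2 : ℝ) ^ k = ∏ _j : Fin k, (1 / 2 : ℝ) := by
          rw [Finset.prod_const, Finset.card_univ, Fintype.card_fin]
      _ ≤ ∏ j, wt P n (φ a j) := by
          apply Finset.prod_le_prod (fun _ _ => by norm_num)
          intro j _
          apply wt_ge n hn
          have h4 := (hAmem a ha j).le
          calc 4 * (n : ℤ) * |a j| ≤ 4 * (n : ℤ) * H := by gcongr
            _ ≤ P := by exact_mod_cast hnH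
  have hfin : (A.card : ℝ) * (1 / 2 : ℝ) ^ k ≤ ∑ a : Fin k → ZMod P,
      (if ∑ j, a j * (((z j).1 : ZMod P) ^ d - ((z j).2 : ZMod P) ^ d) = 0 then
          ∏ j, wt P n (a j) else 0) := by
    refine le_trans ?_ hsub
    rw [← nsmul_eq_mul]
    exact Finset.card_nsmul_le_sum _ _ _ hlow
  calc (A.card : ℝ) = 2 ^ k * ((A.card : ℝ) * (1 / 2 : ℝ) ^ k) := by
        rw [mul_left_comm, ← mul_pow]
        norm_num
    _ ≤ _ := mul_le_mul_of_nonneg_left hfin (by positivity)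

end Pool.Agent.Lib.MP_e426f4_ag.DH
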