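import Pool.Agent.Lib.MP_e426f4_ag.DH.SupN
import Pool.Agent.Lib.MP_e426f4_ag.DH.Lossy
import Pool.Agent.Lib.MP_e426f4_ag.DH.CntE
import Pool.Agent.Lib.MP_e426f4_ag.DH.Mom
import Pool.Agent.Lib.MP_e426f4_ag.DH.FactsX
import Pool.Agent.Lib.MP_e426f4_ag.DG.FFb
import Pool.Agent.Lib.MP_e426f4_ag.DG.Psi

/-!
# CombE: the class E (Section 5 of the proof)

`s0 = d+h+1 ≤ s`, `k = g+5`, `s0 - 2k = 2h - g - 8`.  `U = max(2 C_lossy, 16)`.
If `b ∈ E` then `b` is HIGH (`S.H < A.q b`): otherwise `¬ Maj` gives `B pk ≤ 1` and `lossy` gives `F_i(b,b) ≤ 2 C H R² B` for all `i`.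
Let `Fm = max_i F_i(b,b)` (attained at `i`), `U R² H B < Fm ≤ UN = C_N R² H M B` (`sup_high`).
The diagonal `x = x'` contributes `≤ (P/n)|X_i| ≤ 8 H B ≤ Fm/2` (`FZ_le_card`), so `Fm ≤ 2 F_i^{≠}(b,b)`,
`F_i^{≠} = FZ` over the off-diagonal pairs.  Hence
`∏_{i<s0} F_i(b,b)^{1/2} ≤ (√UN)^{s0-2k} ∑_i (2 F_i^{≠}(b,b))^k`.
By `FF_cs` for `i < s0`, `FF_le` for `i ≥ s0`, `psi ≤ 2`:
`rhsG ≤ 4 (8HX²)^{s-s0} (P⁻¹ ∑_E ∏_{i<s0} F_i(b,b)^{1/2})²`, and `mom_one` (all `k` sets equal, `k H B^d < P`), `cnt_E`: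
`P⁻¹ ∑_b (F_i^{≠})^k ≤ 16^k C R^(4d+20) H^(g+4) B^4`.
Total `≤ C R^(8d+40) (8HX²)^{s-s0} (R² H M B)^{2h-g-8} H^(2g+8) B^8`.  Compare with
`main = (8HX²)^{s-s0} (8HX²)^{s0}/(HB^d)²`, `8 H X² ≥ H B²/(128 R⁴)` (`XX_bounds`), `s0 = g+2+2h`: it remains
`M^(2h-g-8) B^(2h-g) · V ≤ C B^(2h+2)`: `B = 16 V^d`, `M = V^(g+1)`, exponent of `V`:
`(g+1)(2h-g-8) + 1 ≤ d (g+2)` (the difference `d(g+2) - (g+1)(2h-g-8)` is `(g+1)(2g+10) - h g ≥ 4g+10`).
The powers of `R` are at most `R^(8d+40 + 4h + 4 s0) ≤ R^(cL d s * m)`.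
-/

set_option autoImplicit false

namespace Pool.Agent.Lib.MP_e426f4_ag.DH

open Finset
open Pool.Agent.Lib.MP_e426f4_ag.DG

/-- the off-diagonal pairs -/
private def ceZ (X : Finset ℕ) : Finset (ℕ × ℕ) := (X ×ˢ X).filter fun z => z.1 ≠ z.2

private theorem ce_FF_nonneg {d g h s m v E : ℕ} (S : St d g h s m v E) (i : Fin s)
    (b b' : ZMod S.P) : 0 ≤ FF S.P S.n d (S.X i) b b' := FZ_nonneg _ _ _ _ _

/-- the diagonal contributes at most `8 H B` -/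
private theorem ce_diag {d g h s m v E : ℕ} (S : St d g h s m v E) (i : Fin s) (b : ZMod S.P) :
    FF S.P S.n d (S.X i) b b ≤ FZ S.P S.n d (ceZ (S.X i)) b b + 8 * S.H * S.B := by
  obtain ⟨hn0, hnP, -, hPn, -, -, -⟩ := S.n_facts
  have h1 : FF S.P S.n d (S.X i) b b = FZ S.P S.n d (ceZ (S.X i)) b b +
      FZ S.P S.n d ((S.X i ×ˢ S.X i).filter fun z => ¬ z.1 ≠ z.2) b b := by
    unfold FF FZ ceZ
    exact (sum_filter_add_sum_filter_not _ _ _).symm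
  have h2 := FZ_le_card (P := S.P) S.n d hn0 hnP
    ((S.X i ×ˢ S.X i).filter fun z => ¬ z.1 ≠ z.2) b b
  have h3 : (((S.X i ×ˢ S.X i).filter fun z => ¬ z.1 ≠ z.2).card : ℝ) ≤ S.XX := by
    rw [← S.X_card i]
    have : ((S.X i ×ˢ S.X i).filter fun z => ¬ z.1 ≠ z.2).card ≤ (S.X i).card := by
      apply Finset.card_le_card_of_injOn (fun z => z.1)
      · intro z hz
        have hz' := (Finset.mem_filter.1 hz).1
        exact (Finset.mem_product.1 hz').1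
      · intro z hz z' hz' he
        have e1 : z.1 = z.2 := not_not.1 (Finset.mem_filter.1 hz).2
        have e2 : z'.1 = z'.2 := not_not.1 (Finset.mem_filter.1 hz').2
        have e3 : z.1 = z'.1 := he
        exact Prod.ext e3 (e1.symm.trans (e3.trans e2))
    exact_mod_cast this
  have h4 : (S.P : ℝ) / S.n * (((S.X i ×ˢ S.X i).filter fun z => ¬ z.1 ≠ z.2).card : ℝ) ≤
      8 * S.H * S.B :=
    mul_le_mul hPn (h3.trans S.XX_bounds.2) (Nat.cast_nonneg _) (by positivity)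
  rw [h1]
  linarith

/-- Cauchy-Schwarz for the indices of `T`, trivial bound for the others -/
private theorem ce_cs {d g h s m v E : ℕ} (S : St d g h s m v E) (T : Finset (Fin s))
    (b b' : ZMod S.P) :
    ∏ i, FF S.P S.n d (S.X i) b b' ≤ (8 * (S.H : ℝ) * S.XX ^ 2) ^ (s - T.card) *
      ((∏ i ∈ T, Real.sqrt (FF S.P S.n d (S.X i) b b)) *
        ∏ i ∈ T, Real.sqrt (FF S.P S.n d (S.X i) b' b')) := by
  rw [← Finset.prod_mul_prod_compl T, mul_comm, ← Finset.prod_mul_distrib]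
  have hc : Tᶜ.card = s - T.card := by
    rw [Finset.card_compl, Fintype.card_fin]
  apply mul_le_mul
  · calc ∏ i ∈ Tᶜ, FF S.P S.n d (S.X i) b b' ≤ ∏ _i ∈ Tᶜ, (8 * (S.H : ℝ) * S.XX ^ 2) :=
        Finset.prod_le_prod (fun i _ => ce_FF_nonneg S i b b') (fun i _ => S.FF_le i b b')
      _ = _ := by rw [Finset.prod_const, hc]
  · apply Finset.prod_le_prod (fun i _ => ce_FF_nonneg S i b b')
    intro i _
    rw [← Real.sqrt_mul (ce_FF_nonneg S i b b)]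
    exact Real.le_sqrt_of_sq_le (FF_cs S.n d S.n_facts.1 (S.X i) b b')
  · exact Finset.prod_nonneg fun i _ => ce_FF_nonneg S i b b'
  · positivity

/-- the product of the square roots at a frequency with a large value -/
private theorem ce_pt {d g h s m v E : ℕ} (S : St d g h s m v E) (T : Finset (Fin s)) (k c : ℕ)
    (hT : T.card = c + 2 * k) (UN : ℝ) (b : ZMod S.P)
    (hUN : ∀ i, FF S.P S.n d (S.X i) b b ≤ UN)
    (h16 : ∃ i, 16 * (S.H : ℝ) * S.B ≤ FF S.P S.n d (S.X i) b b) :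
    ∏ i ∈ T, Real.sqrt (FF S.P S.n d (S.X i) b b) ≤
      Real.sqrt UN ^ c * ∑ i, (2 * FZ S.P S.n d (ceZ (S.X i)) b b) ^ k := by
  obtain ⟨j, hj⟩ := h16
  obtain ⟨i0, -, hmax⟩ := Finset.exists_max_image (univ : Finset (Fin s))
    (fun i => FF S.P S.n d (S.X i) b b) ⟨j, mem_univ _⟩
  set Fm : ℝ := FF S.P S.n d (S.X i0) b b with hFm
  have hFm0 : 0 ≤ Fm := ce_FF_nonneg S i0 b b
  have hFm2 : Fm ≤ 2 * FZ S.P S.n d (ceZ (S.X i0)) b b := by
    have h1 := ce_diag S i0 b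
    have h2 := hmax j (mem_univ _)
    linarith
  have h1 : ∏ i ∈ T, Real.sqrt (FF S.P S.n d (S.X i) b b) ≤ Real.sqrt Fm ^ (c + 2 * k) := by
    calc _ ≤ ∏ _i ∈ T, Real.sqrt Fm :=
        Finset.prod_le_prod (fun i _ => Real.sqrt_nonneg _)
          (fun i _ => Real.sqrt_le_sqrt (hmax i (mem_univ _)))
      _ = _ := by rw [Finset.prod_const, hT]
  refine h1.trans ?_
  rw [pow_add, pow_mul, Real.sq_sqrt hFm0]
  apply mul_le_mul
  · exact pow_le_pow_left₀ (Real.sqrt_nonneg _) (Real.sqrt_le_sqrt (hUN i0)) c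
  · refine (pow_le_pow_left₀ hFm0 hFm2 k).trans ?_
    exact Finset.single_le_sum (f := fun i => (2 * FZ S.P S.n d (ceZ (S.X i)) b b) ^ k)
      (fun i _ => pow_nonneg (mul_nonneg (by norm_num) (FZ_nonneg _ _ _ _ _)) k) (mem_univ i0)
  · positivity
  · positivity

/-- from a pointwise bound to the double sum -/
private theorem ce_rhs {d g h s m v E : ℕ} (S : St d g h s m v E) (T : Finset (Fin s))
    (φ K : ZMod S.P → ℝ) (hφ : ∀ b, 0 ≤ φ b)
    (hK : ∀ b, φ b * ∏ i ∈ T, Real.sqrt (FF S.P S.n d (S.X i) b b) ≤ K b) :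
    rhsG S.P S.n d S.X φ ≤ (8 * (S.H : ℝ) * S.XX ^ 2) ^ (s - T.card) *
      ((1 / (S.P : ℝ)) * ∑ b : ZMod S.P, K b) ^ 2 := by
  set G : ZMod S.P → ℝ := fun b => ∏ i ∈ T, Real.sqrt (FF S.P S.n d (S.X i) b b) with hG
  have hG0 : ∀ b, 0 ≤ G b := fun b => Finset.prod_nonneg fun i _ => Real.sqrt_nonneg _
  set Q : ℝ := (8 * (S.H : ℝ) * S.XX ^ 2) ^ (s - T.card) with hQ
  have hQ0 : 0 ≤ Q := by positivity
  have hK0 : ∀ b, 0 ≤ K b := fun b => (mul_nonneg (hφ b) (hG0 b)).trans (hK b)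
  have hpt : ∀ b b' : ZMod S.P, φ b * φ b' * ∏ i, FF S.P S.n d (S.X i) b b' ≤ Q * (K b * K b') := by
    intro b b'
    calc φ b * φ b' * ∏ i, FF S.P S.n d (S.X i) b b' ≤ φ b * φ b' * (Q * (G b * G b')) :=
          mul_le_mul_of_nonneg_left (ce_cs S T b b') (mul_nonneg (hφ b) (hφ b'))
      _ = Q * ((φ b * G b) * (φ b' * G b')) := by ring
      _ ≤ Q * (K b * K b') :=
          mul_le_mul_of_nonneg_left (mul_le_mul (hK b) (hK b') (mul_nonneg (hφ b') (hG0 b'))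
            (hK0 b)) hQ0
  unfold rhsG
  calc (1 / (S.P : ℝ) ^ 2) * ∑ b : ZMod S.P, ∑ b' : ZMod S.P,
        φ b * φ b' * ∏ i, FF S.P S.n d (S.X i) b b'
      ≤ (1 / (S.P : ℝ) ^ 2) * ∑ b : ZMod S.P, ∑ b' : ZMod S.P, Q * (K b * K b') :=
        mul_le_mul_of_nonneg_left
          (Finset.sum_le_sum fun b _ => Finset.sum_le_sum fun b' _ => hpt b b') (by positivity)
    _ = Q * ((1 / (S.P : ℝ)) * ∑ b : ZMod S.P, K b) ^ 2 := by
        have h1 : ∑ b : ZMod S.P, ∑ b' : ZMod S.P, Q * (K b * K b') =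
            Q * ((∑ b : ZMod S.P, K b) * ∑ b : ZMod S.P, K b) := by
          rw [Finset.sum_mul_sum, Finset.mul_sum]
          refine Finset.sum_congr rfl fun b _ => ?_
          rw [Finset.mul_sum]
        rw [h1]
        ring

/-- the moment of order `k = g+5` of the off-diagonal part -/
private theorem ce_mom {d g h s m v E : ℕ} (S : St d g h s m v E) (Cc : ℝ) (i : Fin s)
    (hc : cnt1 S.H d (fun _ : Fin (g + 5) => (S.X i ×ˢ S.X i).filter fun z => z.1 ≠ z.2) ≤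
      Cc * (S.R : ℝ) ^ (4 * d + 20) * (S.H : ℝ) ^ (g + 4) * (S.B : ℝ) ^ 4) :
    (1 / (S.P : ℝ)) * ∑ b : ZMod S.P, (2 * FZ S.P S.n d (ceZ (S.X i)) b b) ^ (g + 5) ≤
      32 ^ (g + 5) * (Cc * (S.R : ℝ) ^ (4 * d + 20) * (S.H : ℝ) ^ (g + 4) * (S.B : ℝ) ^ 4) := by
  obtain ⟨hn0, hnP, hnH, hPn, hPB, -, hH⟩ := S.n_facts
  have hdg := S.hdg
  have hs := S.hs
  have hh1 := S.hh1
  have hPB' : (g + 5) * S.H * S.B ^ d < S.P := by
    refine lt_of_le_of_lt ?_ hPB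
    apply Nat.mul_le_mul_right
    apply Nat.mul_le_mul_right
    omega
  have h1 := mom_one S.P S.n d S.H S.B hH hn0 hnP hnH hPn hPB'
    (fun _ : Fin (g + 5) => ceZ (S.X i)) (by
      intro _ z hz
      have h1 := (Finset.mem_filter.1 hz).1
      rw [Finset.mem_product] at h1
      exact ⟨(S.X_bounds i _ h1.1).2.1, (S.X_bounds i _ h1.2).2.1⟩)
  have h2 : ∀ b : ZMod S.P, (2 * FZ S.P S.n d (ceZ (S.X i)) b b) ^ (g + 5) =
      2 ^ (g + 5) * ∏ _j : Fin (g + 5), FZ S.P S.n d (ceZ (S.X i)) b b := by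
    intro b
    rw [Finset.prod_const, Finset.card_univ, Fintype.card_fin, mul_pow]
  simp_rw [h2]
  rw [← Finset.mul_sum]
  calc (1 / (S.P : ℝ)) * (2 ^ (g + 5) * ∑ b : ZMod S.P, ∏ _j : Fin (g + 5),
        FZ S.P S.n d (ceZ (S.X i)) b b)
      = 2 ^ (g + 5) * ((1 / (S.P : ℝ)) * ∑ b : ZMod S.P, ∏ _j : Fin (g + 5),
        FZ S.P S.n d (ceZ (S.X i)) b b) := by ring
    _ ≤ 2 ^ (g + 5) * (16 ^ (g + 5) *
        (Cc * (S.R : ℝ) ^ (4 * d + 20) * (S.H : ℝ) ^ (g + 4) * (S.B : ℝ) ^ 4)) := by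
        apply mul_le_mul_of_nonneg_left _ (by positivity)
        exact h1.trans (mul_le_mul_of_nonneg_left hc (by positivity))
    _ = _ := by
        rw [← mul_assoc, ← mul_pow]
        norm_num

/-- the exponent arithmetic: `2 h = c + g + 8`, `s = d + h + 1 + t` -/
private theorem ce_arith (d g h s m c t : ℕ) (hdg : d = g + 1 + h) (hc : 2 * h = c + g + 8)
    (hh2 : h ≤ 2 * g + 8) (hst : s = d + h + 1 + t) (hm : 1 ≤ m)
    (CN K R H V M B XX : ℝ) (hCN : 1 ≤ CN) (hK : 0 ≤ K) (hR : 1 ≤ R) (hH : 0 < H) (hV : 1 ≤ V)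
    (hM : M = V ^ (g + 1)) (hB : B = 16 * V ^ d) (hX : B / (32 * R ^ 2) ≤ XX) :
    (8 * H * XX ^ 2) ^ t * ((CN * R ^ 2 * H * M * B) ^ c *
      (K * (R ^ (4 * d + 20) * H ^ (g + 4) * B ^ 4)) ^ 2) ≤
    (CN ^ c * K ^ 2 * 128 ^ (d + h + 1)) * R ^ (cL d s * m) / V *
      ((8 * H * XX ^ 2) ^ s / (H * B ^ d) ^ 2) := by
  have hR0 : 0 < R := by linarith
  have hV0 : 0 < V := by linarith
  have hVd : 1 ≤ V ^ d := one_le_pow₀ hV
  have hB0 : 0 < B := by rw [hB]; positivity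
  have hX0 : 0 < XX := lt_of_lt_of_le (by positivity) hX
  have hM0 : 0 < M := by rw [hM]; positivity
  set G : ℝ := 8 * H * XX ^ 2 with hG
  have hG0 : 0 < G := by positivity
  have hGlow : H * B ^ 2 / (128 * R ^ 4) ≤ G := by
    have h1 : (B / (32 * R ^ 2)) ^ 2 ≤ XX ^ 2 := pow_le_pow_left₀ (by positivity) hX 2
    calc H * B ^ 2 / (128 * R ^ 4) = 8 * H * (B / (32 * R ^ 2)) ^ 2 := by
          field_simp
          norm_num
      _ ≤ G := by
          rw [hG]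
          exact mul_le_mul_of_nonneg_left h1 (by positivity)
  have hGp : (H * B ^ 2 / (128 * R ^ 4)) ^ (d + h + 1) ≤ G ^ (d + h + 1) :=
    pow_le_pow_left₀ (by positivity) hGlow _
  have hGs : G ^ s = G ^ (d + h + 1) * G ^ t := by
    rw [hst, pow_add]
  -- the powers of `V`
  have hkey : M ^ c * V ≤ B ^ (g + 2) := by
    have h1 : (g + 1) * c + 1 ≤ d * (g + 2) := by
      have h2 : h * g ≤ (2 * g + 8) * g := Nat.mul_le_mul_right _ hh2
      have h3 : (g + 1) * (2 * h) = (g + 1) * (c + g + 8) := by rw [hc]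
      rw [hdg]
      nlinarith [h2, h3]
    calc M ^ c * V = V ^ ((g + 1) * c + 1) := by rw [hM, ← pow_mul, pow_succ]
      _ ≤ V ^ (d * (g + 2)) := pow_le_pow_right₀ hV h1
      _ = (V ^ d) ^ (g + 2) := by rw [pow_mul]
      _ ≤ B ^ (g + 2) := by
          apply pow_le_pow_left₀ (by positivity)
          rw [hB]
          linarith
  -- the powers of `R`
  have hRp : R ^ (2 * c + (2 * (4 * d + 20) + 4 * (d + h + 1))) ≤ R ^ (cL d s * m) := by
    apply pow_le_pow_right₀ hR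
    have h1 : cL d s * 1 ≤ cL d s * m := Nat.mul_le_mul_left _ hm
    unfold cL at h1 ⊢
    omega
  have hmain : (CN * R ^ 2 * H * M * B) ^ c * (K * (R ^ (4 * d + 20) * H ^ (g + 4) * B ^ 4)) ^ 2 ≤
      (CN ^ c * K ^ 2 * 128 ^ (d + h + 1)) * R ^ (cL d s * m) / V *
        (G ^ (d + h + 1) / (H * B ^ d) ^ 2) := by
    have hHB : 0 < (H * B ^ d) ^ 2 := by positivity
    have e1 : (CN * R ^ 2 * H * M * B) ^ c *
        (K * (R ^ (4 * d + 20) * H ^ (g + 4) * B ^ 4)) ^ 2 =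
        (CN ^ c * K ^ 2) * (R ^ (2 * c + 2 * (4 * d + 20)) * H ^ (c + 2 * (g + 4)) *
          (M ^ c * B ^ (c + 8))) := by
      rw [mul_pow, mul_pow, mul_pow, mul_pow, mul_pow, mul_pow, mul_pow, ← pow_mul, ← pow_mul,
        ← pow_mul, ← pow_mul]
      rw [pow_add R, pow_add H, pow_add B]
      rw [Nat.mul_comm (4 * d + 20) 2, Nat.mul_comm (g + 4) 2]
      ring
    have e2 : (CN ^ c * K ^ 2) * (R ^ (2 * c + 2 * (4 * d + 20)) * H ^ (c + 2 * (g + 4)) *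
          (M ^ c * B ^ (c + 8))) =
        (CN ^ c * K ^ 2 * 128 ^ (d + h + 1)) *
          R ^ (2 * c + (2 * (4 * d + 20) + 4 * (d + h + 1))) / V *
          ((H * B ^ 2 / (128 * R ^ 4)) ^ (d + h + 1) / (H * B ^ d) ^ 2) *
          (M ^ c * V / B ^ (g + 2)) := by
      have hexpH : d + h + 1 = c + 2 * (g + 4) + 2 := by omega
      have hexpB : 2 * (d + h + 1) = (c + 8) + (g + 2) + 2 * d := by omega
      rw [div_pow, mul_pow, mul_pow, mul_pow, ← pow_mul, ← pow_mul, ← pow_mul]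
      rw [hexpB, pow_add B, pow_add B]
      have hR4 : R ^ (2 * c + (2 * (4 * d + 20) + 4 * (d + h + 1))) =
          R ^ (2 * c + 2 * (4 * d + 20)) * R ^ (4 * (d + h + 1)) := by
        rw [← pow_add]
        congr 1
        ring
      rw [hR4]
      have hHp : H ^ (d + h + 1) = H ^ (c + 2 * (g + 4)) * H ^ 2 := by
        rw [← pow_add, ← hexpH]
      rw [hHp]
      rw [Nat.mul_comm d 2]
      field_simp
      ring
    rw [e1, e2]
    have h5 : M ^ c * V / B ^ (g + 2) ≤ 1 := by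
      rw [div_le_one (by positivity)]
      exact hkey
    calc (CN ^ c * K ^ 2 * 128 ^ (d + h + 1)) *
          R ^ (2 * c + (2 * (4 * d + 20) + 4 * (d + h + 1))) / V *
          ((H * B ^ 2 / (128 * R ^ 4)) ^ (d + h + 1) / (H * B ^ d) ^ 2) *
          (M ^ c * V / B ^ (g + 2))
        ≤ (CN ^ c * K ^ 2 * 128 ^ (d + h + 1)) *
          R ^ (2 * c + (2 * (4 * d + 20) + 4 * (d + h + 1))) / V *
          ((H * B ^ 2 / (128 * R ^ 4)) ^ (d + h + 1) / (H * B ^ d) ^ 2) * 1 :=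
          mul_le_mul_of_nonneg_left h5 (by positivity)
      _ = (CN ^ c * K ^ 2 * 128 ^ (d + h + 1)) *
          R ^ (2 * c + (2 * (4 * d + 20) + 4 * (d + h + 1))) / V *
          ((H * B ^ 2 / (128 * R ^ 4)) ^ (d + h + 1) / (H * B ^ d) ^ 2) := mul_one _
      _ ≤ (CN ^ c * K ^ 2 * 128 ^ (d + h + 1)) * R ^ (cL d s * m) / V *
          (G ^ (d + h + 1) / (H * B ^ d) ^ 2) := by
          apply mul_le_mul
          · apply div_le_div_of_nonneg_right _ hV0.le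
            exact mul_le_mul_of_nonneg_left hRp (by positivity)
          · exact div_le_div_of_nonneg_right hGp hHB.le
          · positivity
          · positivity
  rw [hGs]
  calc G ^ t * ((CN * R ^ 2 * H * M * B) ^ c *
        (K * (R ^ (4 * d + 20) * H ^ (g + 4) * B ^ 4)) ^ 2)
      ≤ G ^ t * ((CN ^ c * K ^ 2 * 128 ^ (d + h + 1)) * R ^ (cL d s * m) / V *
        (G ^ (d + h + 1) / (H * B ^ d) ^ 2)) := mul_le_mul_of_nonneg_left hmain (by positivity)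
    _ = _ := by ring

open Classical in
theorem comb_E (d g h s m v E : ℕ) : ∃ C U : ℝ, 0 < C ∧ 1 ≤ U ∧ ∀ (S : St d g h s m v E)
    (A : Arc S.P (4 * S.B ^ d)) (W J : ℕ),
    rhsG S.P S.n d S.X (fun b => if (¬ S.Maj A b ∧
      ∃ i, U * (S.R : ℝ) ^ 2 * S.H * S.B < FF S.P S.n d (S.X i) b b) then psi S.P W J b else 0) ≤
      C * (S.R : ℝ) ^ (cL d s * m) / S.V * S.main := by
  rcases isEmpty_or_nonempty (St d g h s m v E) with hem | ⟨⟨S0⟩⟩
  · exact ⟨1, 1, one_pos, le_refl 1, fun S => (hem.false S).elim⟩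
  have hdg := S0.hdg
  have hh1 := S0.hh1
  have hh2 := S0.hh2
  have hs := S0.hs
  have hm := S0.hm
  have hE := S0.hE
  have hd : 4 ≤ d := by omega
  obtain ⟨c, hc⟩ : ∃ c, 2 * h = c + g + 8 := ⟨2 * h - g - 8, by omega⟩
  obtain ⟨t, ht⟩ : ∃ t, s = d + h + 1 + t := ⟨s - (d + h + 1), by omega⟩
  obtain ⟨CL, hCL, hlossy⟩ := lossy d g h s E hd hE
  obtain ⟨CN, hCN, hsup⟩ := sup_high d g h s E hd hE
  obtain ⟨Cc, hCc, hcnt⟩ := cnt_E d g h s m v E
  clear S0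
  set K : ℝ := 2 * (s * (32 ^ (g + 5) * Cc)) with hK
  have hs0 : (0 : ℝ) < s := by
    have : 0 < s := by omega
    exact_mod_cast this
  have hK0 : 0 < K := by positivity
  refine ⟨CN ^ c * K ^ 2 * 128 ^ (d + h + 1), max (2 * CL) 16, by positivity,
    le_trans (by norm_num) (le_max_right _ _), fun S A W J => ?_⟩
  have hR1 : (1 : ℝ) ≤ S.R := by exact_mod_cast S.R_pos
  have hV1 : (1 : ℝ) ≤ S.V := by exact_mod_cast S.V_pos
  have hH0 : (0 : ℝ) < S.H := by exact_mod_cast S.n_facts.2.2.2.2.2.2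
  have hB1 : (1 : ℝ) ≤ S.B := by exact_mod_cast S.B_pos
  have hM0 : (0 : ℝ) ≤ S.M := Nat.cast_nonneg _
  set UN : ℝ := CN * (S.R : ℝ) ^ 2 * S.H * S.M * S.B with hUN
  have hUN0 : 0 ≤ UN := by positivity
  -- the set of the first `d+h+1` indices
  obtain ⟨T, hT⟩ : ∃ T : Finset (Fin s), T.card = c + 2 * (g + 5) := by
    obtain ⟨T, -, hT⟩ := Finset.exists_subset_card_eq
      (s := (univ : Finset (Fin s))) (n := c + 2 * (g + 5)) (by
        rw [Finset.card_univ, Fintype.card_fin]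
        omega)
    exact ⟨T, hT⟩
  have hTs : s - T.card = t := by omega
  set Kb : ZMod S.P → ℝ := fun b => 2 * (Real.sqrt UN ^ c *
    ∑ i, (2 * FZ S.P S.n d (ceZ (S.X i)) b b) ^ (g + 5)) with hKb
  have hKb0 : ∀ b, 0 ≤ Kb b := by
    intro b
    have : ∀ i, 0 ≤ (2 * FZ S.P S.n d (ceZ (S.X i)) b b) ^ (g + 5) := fun i =>
      pow_nonneg (mul_nonneg (by norm_num) (FZ_nonneg _ _ _ _ _)) _
    have h2 := Finset.sum_nonneg fun i (_ : i ∈ (univ : Finset (Fin s))) => this i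
    rw [hKb]
    positivity
  -- frequencies of the class
  have hcl : ∀ b : ZMod S.P, (¬ S.Maj A b ∧
      ∃ i, max (2 * CL) 16 * (S.R : ℝ) ^ 2 * S.H * S.B < FF S.P S.n d (S.X i) b b) →
      (∀ i, FF S.P S.n d (S.X i) b b ≤ UN) ∧
        ∃ i, 16 * (S.H : ℝ) * S.B ≤ FF S.P S.n d (S.X i) b b := by
    rintro b ⟨hnm, i, hi⟩
    have hhigh : S.H < A.q b := by
      by_contra hq
      push Not at hq
      have hpk : (S.B : ℝ) * S.pk A b ≤ 1 := by
        by_contra h1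
        push Not at h1
        exact hnm ⟨hq, h1⟩
      have h1 := hlossy m v S A b i hq
      have h2 : (S.B : ℝ) ^ 2 * S.pk A b ≤ S.B := by
        calc (S.B : ℝ) ^ 2 * S.pk A b = (S.B : ℝ) * ((S.B : ℝ) * S.pk A b) := by ring
          _ ≤ S.B * 1 := mul_le_mul_of_nonneg_left hpk (by positivity)
          _ = S.B := mul_one _
      have h3 : FF S.P S.n d (S.X i) b b ≤ 2 * CL * (S.R : ℝ) ^ 2 * S.H * S.B := by
        refine h1.trans ?_
        calc CL * S.H * (S.R : ℝ) ^ 2 * (S.B + (S.B : ℝ) ^ 2 * S.pk A b)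
            ≤ CL * S.H * (S.R : ℝ) ^ 2 * (S.B + S.B) :=
              mul_le_mul_of_nonneg_left (by linarith) (by positivity)
          _ = _ := by ring
      have h4 : 2 * CL * (S.R : ℝ) ^ 2 * S.H * S.B ≤
          max (2 * CL) 16 * (S.R : ℝ) ^ 2 * S.H * S.B := by
        gcongr
        exact le_max_left _ _
      linarith
    refine ⟨fun j => hsup m v S A b j hhigh, i, ?_⟩
    have h5 : 16 * (S.H : ℝ) * S.B ≤ max (2 * CL) 16 * (S.R : ℝ) ^ 2 * S.H * S.B := by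
      have h6 : (16 : ℝ) ≤ max (2 * CL) 16 * (S.R : ℝ) ^ 2 := by
        calc (16 : ℝ) = 16 * 1 := by norm_num
          _ ≤ max (2 * CL) 16 * (S.R : ℝ) ^ 2 :=
            mul_le_mul (le_max_right _ _) (one_le_pow₀ hR1) (by norm_num) (by positivity)
      gcongr
    linarith
  have hφ0 : ∀ b : ZMod S.P, 0 ≤ (if (¬ S.Maj A b ∧
      ∃ i, max (2 * CL) 16 * (S.R : ℝ) ^ 2 * S.H * S.B < FF S.P S.n d (S.X i) b b)
      then psi S.P W J b else 0) := by
    intro b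
    split_ifs
    · exact psi_nonneg W J b
    · exact le_refl 0
  have hφK : ∀ b : ZMod S.P, (if (¬ S.Maj A b ∧
      ∃ i, max (2 * CL) 16 * (S.R : ℝ) ^ 2 * S.H * S.B < FF S.P S.n d (S.X i) b b)
      then psi S.P W J b else 0) *
        ∏ i ∈ T, Real.sqrt (FF S.P S.n d (S.X i) b b) ≤ Kb b := by
    intro b
    split_ifs with hb
    · obtain ⟨h1, h2⟩ := hcl b hb
      have h3 := ce_pt S T (g + 5) c hT UN b h1 h2
      exact mul_le_mul (psi_le_two W J b) h3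
        (Finset.prod_nonneg fun i _ => Real.sqrt_nonneg _) (by norm_num)
    · rw [zero_mul]
      exact hKb0 b
  have h1 := ce_rhs S T _ Kb hφ0 hφK
  rw [hTs] at h1
  refine h1.trans ?_
  -- the mean of `Kb`
  have hmean : (1 / (S.P : ℝ)) * ∑ b : ZMod S.P, Kb b ≤ Real.sqrt UN ^ c *
      (K * ((S.R : ℝ) ^ (4 * d + 20) * (S.H : ℝ) ^ (g + 4) * (S.B : ℝ) ^ 4)) := by
    have e1 : (1 / (S.P : ℝ)) * ∑ b : ZMod S.P, Kb b = 2 * (Real.sqrt UN ^ c *
        ∑ i, ((1 / (S.P : ℝ)) * ∑ b : ZMod S.P,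
          (2 * FZ S.P S.n d (ceZ (S.X i)) b b) ^ (g + 5))) := by
      rw [hKb]
      rw [← Finset.mul_sum, ← Finset.mul_sum, ← Finset.mul_sum, Finset.sum_comm]
      ring
    rw [e1]
    have e2 : ∑ i : Fin s, ((1 / (S.P : ℝ)) * ∑ b : ZMod S.P,
          (2 * FZ S.P S.n d (ceZ (S.X i)) b b) ^ (g + 5)) ≤
        s * (32 ^ (g + 5) *
          (Cc * (S.R : ℝ) ^ (4 * d + 20) * (S.H : ℝ) ^ (g + 4) * (S.B : ℝ) ^ 4)) := by
      have h3 := Finset.sum_le_card_nsmul (univ : Finset (Fin s)) (fun i =>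
        ((1 / (S.P : ℝ)) * ∑ b : ZMod S.P,
          (2 * FZ S.P S.n d (ceZ (S.X i)) b b) ^ (g + 5))) _
        (fun i _ => ce_mom S Cc i (hcnt S i))
      rw [nsmul_eq_mul, Finset.card_univ, Fintype.card_fin] at h3
      exact h3
    calc 2 * (Real.sqrt UN ^ c * ∑ i, ((1 / (S.P : ℝ)) * ∑ b : ZMod S.P,
          (2 * FZ S.P S.n d (ceZ (S.X i)) b b) ^ (g + 5)))
        ≤ 2 * (Real.sqrt UN ^ c * (s * (32 ^ (g + 5) *
          (Cc * (S.R : ℝ) ^ (4 * d + 20) * (S.H : ℝ) ^ (g + 4) * (S.B : ℝ) ^ 4)))) := by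
          apply mul_le_mul_of_nonneg_left _ (by norm_num)
          exact mul_le_mul_of_nonneg_left e2 (by positivity)
      _ = _ := by rw [hK]; ring
  have hmean0 : 0 ≤ (1 / (S.P : ℝ)) * ∑ b : ZMod S.P, Kb b :=
    mul_nonneg (by positivity) (Finset.sum_nonneg fun b _ => hKb0 b)
  have h2 : ((1 / (S.P : ℝ)) * ∑ b : ZMod S.P, Kb b) ^ 2 ≤ UN ^ c *
      (K * ((S.R : ℝ) ^ (4 * d + 20) * (S.H : ℝ) ^ (g + 4) * (S.B : ℝ) ^ 4)) ^ 2 := by
    refine (pow_le_pow_left₀ hmean0 hmean 2).trans (le_of_eq ?_)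
    rw [mul_pow, ← pow_mul, Nat.mul_comm c 2, pow_mul, Real.sq_sqrt hUN0]
  have h3 := ce_arith d g h s m c t hdg hc hh2 ht hm CN K S.R S.H S.V S.M S.B S.XX hCN hK0.le
    hR1 hH0 hV1 (by rw [S.M_eq]; push_cast; rfl) (by rw [S.B_eqV]; push_cast; rfl) S.XX_bounds.1
  unfold St.main
  exact (mul_le_mul_of_nonneg_left h2 (by positivity)).trans h3

end Pool.Agent.Lib.MP_e426f4_ag.DH
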