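import Pool.Agent.Lib.MP_e426f4_ag.DH.Defs

/-!
# Facts: sizes of the parameters
-/

set_option autoImplicit false

namespace Pool.Agent.Lib.MP_e426f4_ag.DH

open Finset
open Pool.Agent.Lib.MP_e426f4_ag.DG

namespace St

variable {d g h s m v E : ℕ} (S : St d g h s m v E)

theorem nums (S : St d g h s m v E) :
    1 ≤ d ∧ 7 ≤ d ∧ 1 ≤ v ∧ m < v ∧ m < h * v ∧ 1 ≤ s ∧ 2 * h ≥ d + 2 ∧ h < d ∧ 2 * d ≤ 3 * h := by
  have h1 := S.hdg
  have h2 := S.hh1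
  have h4 := S.hs
  have h6 := S.hmv
  have hd : 7 ≤ d := by omega
  have hmv : m < v := by
    have : 1 * m ≤ 100 * d * m := Nat.mul_le_mul_right m (by omega)
    omega
  have hhv : v ≤ h * v := by
    have : 1 * v ≤ h * v := Nat.mul_le_mul_right v (by omega)
    omega
  exact ⟨by omega, hd, by omega, hmv, by omega, by omega, by omega, by omega, by omega⟩

theorem R_pos : 1 ≤ S.R := le_trans Nat.one_le_two_pow S.hR

theorem V_pos : 1 ≤ S.V := Nat.one_le_pow _ _ S.R_pos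

theorem T_pos : 1 ≤ S.T := Nat.one_le_pow _ _ S.R_pos

theorem L_pos : 1 ≤ S.L := Nat.one_le_pow _ _ S.R_pos

theorem M_pos : 1 ≤ S.M := Nat.one_le_pow _ _ S.R_pos

theorem B_pos : 1 ≤ S.B := by
  unfold St.B
  have : 1 ≤ S.R ^ (v * d) := Nat.one_le_pow _ _ S.R_pos
  omega

theorem BB_pos : 1 ≤ S.BB := by
  unfold St.BB
  have : 1 ≤ S.R ^ (v * h) := Nat.one_le_pow _ _ S.R_pos
  omega

theorem LT_eq : S.L * S.T = S.V ^ h := by
  obtain ⟨-, -, -, -, h5, -⟩ := S.nums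
  unfold St.L St.T St.V
  rw [← pow_add, ← pow_mul]
  congr 1
  have : v * h = h * v := Nat.mul_comm v h
  omega

theorem M_eq : S.M = S.V ^ (g + 1) := by
  unfold St.M St.V
  rw [← pow_mul, Nat.mul_comm]

theorem B_eqV : S.B = 16 * S.V ^ d := by
  unfold St.B St.V
  rw [← pow_mul]

theorem BB_eqV : S.BB = 4 * S.V ^ h := by
  unfold St.BB St.V
  rw [← pow_mul]

theorem MLT_eq : S.M * S.L * S.T = S.V ^ d := by
  rw [mul_assoc, S.LT_eq, S.M_eq, ← pow_add, ← S.hdg]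

theorem B_eq : S.B = 16 * (S.M * S.L * S.T) := by
  rw [S.MLT_eq, S.B_eqV]

theorem BB_eq : S.BB = 4 * (S.L * S.T) := by
  rw [S.LT_eq, S.BB_eqV]

theorem B_eq_BB : S.B = 4 * S.M * S.BB := by
  rw [S.B_eq, S.BB_eq]
  ring

theorem BH : S.B ^ h ≤ S.H := S.hH1

theorem HB : S.H ≤ 2 ^ (v * d * h) * S.B ^ h := S.hH2

private theorem Facts_Bh : S.B ^ h = 16 ^ h * S.V ^ (d * h) := by
  rw [S.B_eqV, mul_pow, ← pow_mul]

private theorem Facts_H_le : S.H ≤ 2 ^ (v * d * h) * (16 ^ h * S.V ^ (d * h)) := by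
  rw [← S.Facts_Bh]
  exact S.HB

private theorem Facts_H_ge : 16 ^ h * S.V ^ (d * h) ≤ S.H := by
  rw [← S.Facts_Bh]
  exact S.BH

/-- `H` in terms of `V` -/
theorem H_ge : (S.V : ℝ) ^ (d * h) ≤ S.H := by
  have h1 := S.Facts_H_ge
  have h2 : 1 * S.V ^ (d * h) ≤ 16 ^ h * S.V ^ (d * h) :=
    Nat.mul_le_mul_right _ (Nat.one_le_pow _ _ (by norm_num))
  have h3 : S.V ^ (d * h) ≤ S.H := by omega
  exact_mod_cast h3

theorem H_le : (S.H : ℝ) ≤ 2 ^ (v * d * h) * 16 ^ h * (S.V : ℝ) ^ (d * h) := by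
  have h1 := S.Facts_H_le
  rw [← mul_assoc] at h1
  exact_mod_cast h1

/-- rigidity at the small scale -/
theorem BBH : 16 * S.BB ^ d ≤ S.H := by
  obtain ⟨-, -, -, -, -, -, h7, -, -⟩ := S.nums
  refine le_trans ?_ S.Facts_H_ge
  rw [S.BB_eqV, mul_pow, ← pow_mul, ← mul_assoc, Nat.mul_comm h d]
  apply Nat.mul_le_mul_right
  calc 16 * 4 ^ d = 4 ^ (d + 2) := by rw [pow_add]; ring
    _ ≤ 4 ^ (2 * h) := Nat.pow_le_pow_right (by norm_num) h7
    _ = 16 ^ h := by rw [pow_mul]; norm_num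

theorem V_big : S.T ^ (100 * d) * S.R ^ (100 * d) ≤ S.V := by
  unfold St.T St.V
  rw [← pow_mul, ← pow_add]
  apply Nat.pow_le_pow_right S.R_pos
  have h6 := S.hmv
  have : m * (100 * d) = 100 * d * m := by ring
  omega

private theorem Facts_R16 : 16 ≤ S.R := by
  have h1 := S.hR
  have h2 : 2 ^ 4 ≤ 2 ^ (2 * d + 10) := Nat.pow_le_pow_right (by norm_num) (by omega)
  omega

theorem M_big : 16 * S.T ^ (8 * d) * S.R ^ (8 * d) ≤ S.M := by
  have h1 := S.Facts_R16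
  have h6 := S.hmv
  have hm := S.hm
  obtain ⟨hd, -, -, -, -, -, -, -, -⟩ := S.nums
  have hdm : m * (8 * d) = 8 * (d * m) := by ring
  have hdm2 : 100 * d * m = 100 * (d * m) := by ring
  have hgv : v ≤ (g + 1) * v := by
    have : 1 * v ≤ (g + 1) * v := Nat.mul_le_mul_right v (by omega)
    omega
  unfold St.T St.M
  calc 16 * (S.R ^ m) ^ (8 * d) * S.R ^ (8 * d)
      ≤ S.R * (S.R ^ m) ^ (8 * d) * S.R ^ (8 * d) := by gcongr
    _ = S.R ^ (1 + m * (8 * d) + 8 * d) := by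
        rw [← pow_mul, pow_add, pow_add, pow_one]
    _ ≤ S.R ^ ((g + 1) * v) := by
        apply Nat.pow_le_pow_right S.R_pos
        omega

theorem L_big : 16 * S.M ^ 2 * (S.T ^ (8 * d) * S.R ^ (8 * d)) ≤ S.L := by
  have h1 := S.Facts_R16
  have h2 := S.hh1
  have h6 := S.hmv
  have hm := S.hm
  obtain ⟨hd, -, -, -, -, -, -, -, -⟩ := S.nums
  have hdm : m * (8 * d) = 8 * (d * m) := by ring
  have hdm2 : 100 * d * m = 100 * (d * m) := by ring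
  have hmd : m ≤ d * m := by
    have : 1 * m ≤ d * m := Nat.mul_le_mul_right m hd
    omega
  have hgv : (2 * g + 6) * v ≤ h * v := Nat.mul_le_mul_right v h2
  have hgv2 : (2 * g + 6) * v = (g + 1) * v * 2 + 4 * v := by ring
  unfold St.T St.M St.L
  calc 16 * (S.R ^ ((g + 1) * v)) ^ 2 * ((S.R ^ m) ^ (8 * d) * S.R ^ (8 * d))
      ≤ S.R * (S.R ^ ((g + 1) * v)) ^ 2 * ((S.R ^ m) ^ (8 * d) * S.R ^ (8 * d)) := by gcongr
    _ = S.R ^ (1 + (g + 1) * v * 2 + (m * (8 * d) + 8 * d)) := by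
        rw [← pow_mul, ← pow_mul, pow_add, pow_add, pow_add, pow_one]
    _ ≤ S.R ^ (h * v - m) := by
        apply Nat.pow_le_pow_right S.R_pos
        omega

/-- the fixed power `2^(v d h)` is negligible against `V` (a power of `R ≥ 2^(2d+10)`) -/
theorem two_small : 2 ^ (v * d * h) * (16 ^ (4 * d) * (S.T ^ (8 * d) * S.R ^ (8 * d))) ≤ S.V ^ (d * (g + 1)) := by
  have h1 := S.Facts_R16
  have h6 := S.hmv
  have hR := S.hR
  obtain ⟨hd, -, -, -, -, -, -, h8, -⟩ := S.nums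
  have hdm : m * (8 * d) = 8 * (d * m) := by ring
  have hdm2 : 100 * d * m = 100 * (d * m) := by ring
  -- squares
  have ha : (2 ^ (v * d * h)) ^ 2 ≤ S.R ^ (v * d) := by
    calc (2 ^ (v * d * h)) ^ 2 = (2 ^ (2 * h)) ^ (v * d) := by
          rw [← pow_mul, ← pow_mul]
          congr 1
          ring
      _ ≤ S.R ^ (v * d) := by
          apply Nat.pow_le_pow_left
          exact le_trans (Nat.pow_le_pow_right (by norm_num) (by omega)) hR
  have hb : (16 ^ (4 * d) * (S.T ^ (8 * d) * S.R ^ (8 * d))) ^ 2 ≤ S.R ^ (v * d) := by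
    unfold St.T
    calc (16 ^ (4 * d) * ((S.R ^ m) ^ (8 * d) * S.R ^ (8 * d))) ^ 2
        ≤ (S.R ^ (4 * d) * ((S.R ^ m) ^ (8 * d) * S.R ^ (8 * d))) ^ 2 := by gcongr
      _ = S.R ^ ((4 * d + (m * (8 * d) + 8 * d)) * 2) := by
          rw [← pow_mul, ← pow_add, ← pow_add, ← pow_mul]
      _ ≤ S.R ^ (v * d) := by
          apply Nat.pow_le_pow_right S.R_pos
          have h9 : (100 * d * m + 100 * d) * 1 ≤ v * d := Nat.mul_le_mul h6 hd
          omega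
  have hc : (2 ^ (v * d * h) * (16 ^ (4 * d) * (S.T ^ (8 * d) * S.R ^ (8 * d)))) ^ 2 ≤
      (S.R ^ (v * d)) ^ 2 := by
    rw [mul_pow, pow_two (S.R ^ (v * d))]
    exact Nat.mul_le_mul ha hb
  have hd' := (Nat.pow_le_pow_iff_left (by norm_num : (2 : ℕ) ≠ 0)).1 hc
  refine le_trans hd' ?_
  unfold St.V
  rw [← pow_mul]
  apply Nat.pow_le_pow_right S.R_pos
  apply Nat.mul_le_mul_left
  exact Nat.le_mul_of_pos_right d (by omega)

private theorem Facts_Vdd : S.V ^ (d * d) = S.V ^ (d * (g + 1)) * S.V ^ (d * h) := by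
  rw [← pow_add, ← Nat.mul_add, ← S.hdg]

theorem H_small : 2 * S.H * S.T ^ (6 * d) < (S.M * S.L) ^ d := by
  obtain ⟨hd, -, -, -, -, -, -, h8, -⟩ := S.nums
  have hT := S.T_pos
  have hTd : 0 < S.T ^ d := Nat.pow_pos hT
  have hV := S.V_pos
  apply lt_of_mul_lt_mul_right _ (Nat.zero_le (S.T ^ d))
  have e1 : (S.M * S.L) ^ d * S.T ^ d = S.V ^ (d * d) := by
    rw [← mul_pow, S.MLT_eq, ← pow_mul]
  rw [e1, S.Facts_Vdd]
  have h16 : 2 * 16 ^ h < 16 ^ (4 * d) := by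
    calc 2 * 16 ^ h < 16 * 16 ^ h := by
          have : 0 < 16 ^ h := Nat.pow_pos (by norm_num)
          omega
      _ = 16 ^ (h + 1) := by rw [pow_succ]; ring
      _ ≤ 16 ^ (4 * d) := Nat.pow_le_pow_right (by norm_num) (by omega)
  have hTT : S.T ^ (7 * d) ≤ S.T ^ (8 * d) * S.R ^ (8 * d) := by
    calc S.T ^ (7 * d) ≤ S.T ^ (8 * d) := Nat.pow_le_pow_right hT (by omega)
      _ = S.T ^ (8 * d) * 1 := by ring
      _ ≤ S.T ^ (8 * d) * S.R ^ (8 * d) :=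
          Nat.mul_le_mul_left _ (Nat.one_le_pow _ _ S.R_pos)
  have hTT0 : 0 < S.T ^ (8 * d) * S.R ^ (8 * d) :=
    Nat.mul_pos (Nat.pow_pos hT) (Nat.pow_pos S.R_pos)
  calc 2 * S.H * S.T ^ (6 * d) * S.T ^ d = 2 * S.H * S.T ^ (7 * d) := by
        rw [mul_assoc, ← pow_add]
        congr 2
        ring
    _ ≤ 2 * (2 ^ (v * d * h) * (16 ^ h * S.V ^ (d * h))) * (S.T ^ (8 * d) * S.R ^ (8 * d)) := by
        apply Nat.mul_le_mul _ hTT
        exact Nat.mul_le_mul_left 2 S.Facts_H_le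
    _ = (2 * 16 ^ h) * (2 ^ (v * d * h) * (S.T ^ (8 * d) * S.R ^ (8 * d)) * S.V ^ (d * h)) := by ring
    _ < 16 ^ (4 * d) * (2 ^ (v * d * h) * (S.T ^ (8 * d) * S.R ^ (8 * d)) * S.V ^ (d * h)) := by
        apply Nat.mul_lt_mul_of_pos_right h16
        exact Nat.mul_pos (Nat.mul_pos (Nat.pow_pos (by norm_num)) hTT0) (Nat.pow_pos hV)
    _ = 2 ^ (v * d * h) * (16 ^ (4 * d) * (S.T ^ (8 * d) * S.R ^ (8 * d))) * S.V ^ (d * h) := by ring
    _ ≤ S.V ^ (d * (g + 1)) * S.V ^ (d * h) := Nat.mul_le_mul_right _ S.two_small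

theorem H_lt_Bd : 8 * S.H ≤ S.B ^ d := by
  have h1 := S.H_small
  have hT : 1 ≤ S.T ^ (6 * d) := Nat.one_le_pow _ _ S.T_pos
  have hTd : 1 ≤ S.T ^ d := Nat.one_le_pow _ _ S.T_pos
  obtain ⟨hd, -, -, -, -, -, -, -, -⟩ := S.nums
  have h2 : 2 * S.H ≤ (S.M * S.L) ^ d := by
    have : 2 * S.H * 1 ≤ 2 * S.H * S.T ^ (6 * d) := Nat.mul_le_mul_left _ hT
    omega
  have h3 : (S.M * S.L) ^ d ≤ (S.M * S.L * S.T) ^ d := by
    rw [mul_pow (S.M * S.L)]
    exact Nat.le_mul_of_pos_right _ hTd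
  have h16 : 16 ≤ 16 ^ d := by
    calc 16 = 16 ^ 1 := by norm_num
      _ ≤ 16 ^ d := Nat.pow_le_pow_right (by norm_num) hd
  rw [S.B_eq, mul_pow]
  calc 8 * S.H ≤ 16 * (2 * S.H) := by omega
    _ ≤ 16 ^ d * (S.M * S.L * S.T) ^ d := Nat.mul_le_mul h16 (h2.trans h3)

theorem n_facts : 0 < S.n ∧ S.n ≤ S.P ∧ 4 * S.n * S.H ≤ S.P ∧
    (S.P : ℝ) / S.n ≤ 8 * S.H ∧ 8 * (s + 2) * S.H * S.B ^ d < S.P ∧ 2 * S.H < S.P ∧ 0 < S.H := by
  have hB := S.B_pos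
  have hBd : 1 ≤ S.B ^ d := Nat.one_le_pow _ _ hB
  have hH0 : 0 < S.H := lt_of_lt_of_le (Nat.pow_pos hB) S.BH
  have hP : 8 * (s + 2) * S.H * S.B ^ d < S.P := S.hP
  have h16 : 16 * S.H * S.B ^ d ≤ 8 * (s + 2) * S.H * S.B ^ d := by
    have : 16 ≤ 8 * (s + 2) := by omega
    gcongr
  have hHB : S.H ≤ S.H * S.B ^ d := Nat.le_mul_of_pos_right _ hBd
  have h3 : 16 * S.H ≤ 16 * S.H * S.B ^ d := by
    rw [mul_assoc]; exact Nat.mul_le_mul_left _ hHB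
  have hn0 : 0 < S.n := by
    unfold St.n
    apply Nat.div_pos _ (by omega)
    omega
  have hn4 : 4 * S.n * S.H ≤ S.P := by
    unfold St.n
    have := Nat.div_mul_le_self S.P (4 * S.H)
    calc _ = S.P / (4 * S.H) * (4 * S.H) := by ring
      _ ≤ _ := this
  have hlt : S.P < 4 * (S.n + 1) * S.H := by
    unfold St.n
    have := Nat.lt_div_mul_add (a := S.P) (b := 4 * S.H) (by omega)
    calc S.P < S.P / (4 * S.H) * (4 * S.H) + 4 * S.H := this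
      _ = _ := by ring
  refine ⟨hn0, ?_, hn4, ?_, hP, ?_, hH0⟩
  · unfold St.n
    exact Nat.div_le_self _ _
  · have hnr : (0 : ℝ) < S.n := by exact_mod_cast hn0
    rw [div_le_iff₀ hnr]
    have h5 : S.P ≤ 8 * S.H * S.n := by
      have : 4 * (S.n + 1) * S.H ≤ 8 * S.H * S.n := by
        have : S.n + 1 ≤ 2 * S.n := by omega
        calc 4 * (S.n + 1) * S.H ≤ 4 * (2 * S.n) * S.H := by gcongr
          _ = _ := by ring
      omega
    exact_mod_cast h5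
  · omega

theorem main_nonneg : 0 ≤ S.main := by
  unfold St.main
  positivity

theorem lam_nonneg (A : Arc S.P (4 * S.B ^ d)) (b : ZMod S.P) : 0 ≤ S.lam A b := by
  unfold St.lam
  positivity

theorem lam_le_one (A : Arc S.P (4 * S.B ^ d)) (b : ZMod S.P) : S.lam A b ≤ 1 := by
  unfold St.lam
  rw [div_le_one (by positivity)]
  exact le_max_left _ _

theorem log_le : 1 + Real.log (((S.B : ℕ) : ℝ) ^ 4) ≤ S.R := by
  have h1 := S.hlog
  unfold St.B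
  push_cast
  exact h1

theorem tau_le (k : ℕ) (h1 : 1 ≤ k) (h2 : k ≤ S.B ^ (8 * d)) : k.divisors.card ≤ S.R :=
  S.htau k h1 h2

theorem rho_le (k : ℕ) (h1 : 1 ≤ k) (h2 : k ≤ S.B ^ (8 * d)) : rho d k ≤ S.R :=
  S.hrho k h1 h2

end St

end Pool.Agent.Lib.MP_e426f4_ag.DH
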