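import Pool.Agent.Lib.MP_e426f4_ag.DH.Chain

/-!
# Elim: two linear equations in a box

`c^d (e^d ∑ a_j y_j^d - e'^d ∑ a_j x_j^d)`: with `D_j = e^d y_j^d - e'^d x_j^d` one has `D_0 = 0` (as `x_0 = c e`, `y_0 = c e'`), so
`∑_{j≥1} a_j D_j = 0`, `D_1 ≠ 0` divides `∑_{j≥2} a_j D_j`; `(a_j)_{j≥2}` determines `a_1` (`D_1 ≠ 0`) and then `a_0` (`x_0^d ≠ 0`):
the map `a ↦ (a_{j+2})_j` is injective on the solution set and its image lies in the set of `chain`.
-/

set_option autoImplicit false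

namespace Pool.Agent.Lib.MP_e426f4_ag.DH

open Finset

theorem elim {K : ℕ} (H d : ℕ) (hH : 1 ≤ H) (x y : Fin (K + 2) → ℤ) (e e' c : ℤ)
    (h0 : x 0 = c * e) (h0' : y 0 = c * e') (hx0 : x 0 ^ d ≠ 0)
    (hD : e ^ d * y 1 ^ d - e' ^ d * x 1 ^ d ≠ 0) :
    ((((Fintype.piFinset fun _ : Fin (K + 2) => Ioo (-(H : ℤ)) H)).filter
      fun a : Fin (K + 2) → ℤ => ∑ j, a j * x j ^ d = 0 ∧ ∑ j, a j * y j ^ d = 0).card : ℝ) ≤
      (4 * (H : ℝ)) ^ K * ∑ q ∈ (e ^ d * y 1 ^ d - e' ^ d * x 1 ^ d).natAbs.divisors.filter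
        (fun q : ℕ => ∀ j : Fin K, (q : ℤ) ∣ e ^ d * y j.succ.succ ^ d - e' ^ d * x j.succ.succ ^ d),
        (q : ℝ) / |((e ^ d * y 1 ^ d - e' ^ d * x 1 ^ d : ℤ) : ℝ)| + 2 * (4 * (H : ℝ)) ^ (K - 1) := by
  have key : ∀ a : Fin (K + 2) → ℤ, ∑ j, a j * x j ^ d = 0 → ∑ j, a j * y j ^ d = 0 →
      a 1 * (e ^ d * y 1 ^ d - e' ^ d * x 1 ^ d) +
        ∑ j : Fin K, a j.succ.succ * (e ^ d * y j.succ.succ ^ d - e' ^ d * x j.succ.succ ^ d) = 0 := by
    intro a h1 h2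
    have h3 : ∑ j, a j * (e ^ d * y j ^ d - e' ^ d * x j ^ d) = 0 := by
      have : ∑ j, a j * (e ^ d * y j ^ d - e' ^ d * x j ^ d) =
          e ^ d * ∑ j, a j * y j ^ d - e' ^ d * ∑ j, a j * x j ^ d := by
        rw [Finset.mul_sum, Finset.mul_sum, ← Finset.sum_sub_distrib]
        exact Finset.sum_congr rfl fun j _ => by ring
      rw [this, h1, h2]; ring
    rw [Fin.sum_univ_succ, Fin.sum_univ_succ, h0, h0'] at h3
    have h4 : a 0 * (e ^ d * (c * e') ^ d - e' ^ d * (c * e) ^ d) = 0 := by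
      rw [mul_pow, mul_pow]; ring
    rw [h4, zero_add] at h3
    exact h3
  have hcard : (((Fintype.piFinset fun _ : Fin (K + 2) => Ioo (-(H : ℤ)) H)).filter
      fun a : Fin (K + 2) → ℤ => ∑ j, a j * x j ^ d = 0 ∧ ∑ j, a j * y j ^ d = 0).card ≤
      ((Fintype.piFinset fun _ : Fin K => Ioo (-(H : ℤ)) H).filter
        fun a : Fin K → ℤ => (e ^ d * y 1 ^ d - e' ^ d * x 1 ^ d) ∣
          ∑ j, a j * (e ^ d * y j.succ.succ ^ d - e' ^ d * x j.succ.succ ^ d)).card := by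
    refine Finset.card_le_card_of_injOn (fun a j => a j.succ.succ) ?_ ?_
    · intro a ha
      have ha' := Finset.mem_filter.1 (Finset.mem_coe.1 ha)
      refine Finset.mem_coe.2 (Finset.mem_filter.2 ⟨?_, ?_⟩)
      · exact Fintype.mem_piFinset.2 fun j => Fintype.mem_piFinset.1 ha'.1 _
      · refine ⟨-a 1, ?_⟩
        have := key a ha'.2.1 ha'.2.2
        linarith
    · intro a ha b hb hab
      have ha' := Finset.mem_filter.1 (Finset.mem_coe.1 ha)
      have hb' := Finset.mem_filter.1 (Finset.mem_coe.1 hb)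
      have hab' : ∀ j : Fin K, a j.succ.succ = b j.succ.succ := fun j => congrFun hab j
      have k1 := key a ha'.2.1 ha'.2.2
      have k2 := key b hb'.2.1 hb'.2.2
      simp only [hab'] at k1
      have e1 : a 1 = b 1 := by
        have : a 1 * (e ^ d * y 1 ^ d - e' ^ d * x 1 ^ d) = b 1 * (e ^ d * y 1 ^ d - e' ^ d * x 1 ^ d) := by
          linarith
        exact mul_right_cancel₀ hD this
      have h1 := ha'.2.1
      have h2 := hb'.2.1
      rw [Fin.sum_univ_succ, Fin.sum_univ_succ] at h1 h2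
      simp only [hab'] at h1
      have e1' : a (Fin.succ 0) = b (Fin.succ 0) := e1
      rw [e1'] at h1
      have e0 : a 0 = b 0 := by
        have : a 0 * x 0 ^ d = b 0 * x 0 ^ d := by linarith
        exact mul_right_cancel₀ hx0 this
      funext j
      refine Fin.cases e0 (fun j => ?_) j
      exact Fin.cases e1' (fun j => hab' j) j
  have h := chain H hH (e ^ d * y 1 ^ d - e' ^ d * x 1 ^ d) hD
    (fun j : Fin K => e ^ d * y j.succ.succ ^ d - e' ^ d * x j.succ.succ ^ d)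
  exact (Nat.cast_le.2 hcard).trans h

end Pool.Agent.Lib.MP_e426f4_ag.DH
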