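import Mathlib

/-!
# Group: regrouping a sum over a product set by the common divisor

`∑_{z} ∑_{q ∣ D(z0,z1), q ∣ Dj(z0,z_{j+2}) ∀ j} = ∑_{z0} ∑_{z1} ∑_{q ∣ D} (q/|D|) ∏_j #{z : q ∣ Dj j z0 z}` (swap the sums; product over `j` of indicator
functions; `Finset.prod_univ_sum`).
-/

set_option autoImplicit false

namespace Pool.Agent.Lib.MP_e426f4_ag.DH

open Finset

private theorem group_cons {β : Type} [DecidableEq β] {K : ℕ} (Z : Fin (K + 1) → Finset β)
    (F : (Fin (K + 1) → β) → ℝ) :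
    ∑ z ∈ Fintype.piFinset Z, F z =
      ∑ a ∈ Z 0, ∑ y ∈ Fintype.piFinset (fun j : Fin K => Z j.succ), F (Fin.cons a y) := by
  rw [← Finset.sum_product']
  refine Finset.sum_nbij' (fun z => (z 0, fun j => z j.succ)) (fun x => Fin.cons x.1 x.2)
    ?_ ?_ ?_ ?_ ?_
  · intro z hz
    rw [Fintype.mem_piFinset] at hz
    rw [Finset.mem_product, Fintype.mem_piFinset]
    exact ⟨hz 0, fun j => hz j.succ⟩
  · intro x hx
    rw [Finset.mem_product, Fintype.mem_piFinset] at hx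
    rw [Fintype.mem_piFinset]
    intro j
    refine Fin.cases ?_ (fun j => ?_) j
    · exact hx.1
    · exact hx.2 j
  · intro z _
    exact Fin.cons_self_tail z
  · intro x _
    rfl
  · intro z _
    congr 1
    exact (Fin.cons_self_tail z).symm

theorem group_sum {β : Type} [DecidableEq β] {K : ℕ} (Z : Fin (K + 2) → Finset β) (D : β → β → ℤ)
    (Dj : Fin K → β → β → ℤ) :
    ∑ z ∈ Fintype.piFinset Z,
      ∑ q ∈ (D (z 0) (z 1)).natAbs.divisors.filter
        (fun q : ℕ => ∀ j : Fin K, (q : ℤ) ∣ Dj j (z 0) (z j.succ.succ)),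
        (q : ℝ) / |(D (z 0) (z 1) : ℝ)| =
    ∑ z0 ∈ Z 0, ∑ z1 ∈ Z 1, ∑ q ∈ (D z0 z1).natAbs.divisors, (q : ℝ) / |(D z0 z1 : ℝ)| *
      ∏ j : Fin K, (((Z j.succ.succ).filter fun z => (q : ℤ) ∣ Dj j z0 z).card : ℝ) := by
  rw [group_cons]
  refine Finset.sum_congr rfl fun a _ => ?_
  rw [group_cons]
  refine Finset.sum_congr rfl fun b _ => ?_
  show ∑ y ∈ Fintype.piFinset (fun j : Fin K => Z j.succ.succ),
      ∑ q ∈ (D a b).natAbs.divisors.filter
        (fun q : ℕ => ∀ j : Fin K, (q : ℤ) ∣ Dj j a (y j)), (q : ℝ) / |(D a b : ℝ)| = _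
  simp only [Finset.sum_filter]
  rw [Finset.sum_comm]
  refine Finset.sum_congr rfl fun q _ => ?_
  rw [← Finset.sum_filter, Finset.sum_const, nsmul_eq_mul, mul_comm, ← Nat.cast_prod,
    ← Fintype.card_piFinset]
  congr 3
  ext y
  rw [Finset.mem_filter, Fintype.mem_piFinset, Fintype.mem_piFinset]
  constructor
  · rintro ⟨h1, h2⟩ j
    exact Finset.mem_filter.2 ⟨h1 j, h2 j⟩
  · intro h
    exact ⟨fun j => (Finset.mem_filter.1 (h j)).1, fun j => (Finset.mem_filter.1 (h j)).2⟩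

end Pool.Agent.Lib.MP_e426f4_ag.DH
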