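import Pool.Agent.Lib.MP_e426f4_ag.DH.SumB
import Pool.Agent.Lib.MP_e426f4_ag.DH.Elim
import Pool.Agent.Lib.MP_e426f4_ag.DH.Group

/-!
# CountB: the count for type B

`ZB (f j)` is covered by `(t, t', z) ∈ I × I × zB`, `z = (l,(a,a'))`, `(x,x') = (t a l, t' a' l)` (`ZB_mem`): `cnt2 ≤ ∑_{t,t'} ∑_{z ∈ ∏ zB} #{a}`, at most `T^(2(g+5))` choices of
`(t,t')`.  `elim` with `K = g+3`, `c = l_0`, `e = t_0 a_0`, `e' = t_0' a_0'` (`x_0 = t_0 (a_0 l_0) = l_0 (t_0 a_0)`), `D = DB ≠ 0` by `inv_B`; `group_sum`, `sum_B`.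
Rest: `2 (4H)^(g+2) ∏ |zB| ≤ 2 (4H)^(g+2) (L M²)^(g+5) ≤ C H^(g+2) B^(2g+10) ≤ C H^(g+3) B^4` as `2g+10-h ≤ 4`, `B^h ≤ H`.
-/

set_option autoImplicit false

namespace Pool.Agent.Lib.MP_e426f4_ag.DH

open Finset
open Pool.Agent.Lib.MP_e426f4_ag.DG

private theorem CountB_cover {ι κ : Type} (A : Finset ι) (B : Finset κ) (φ : κ → ι)
    (F : ι → ℝ) (hF : ∀ z, 0 ≤ F z) (hA : ∀ z ∈ A, ∃ u ∈ B, φ u = z) :
    ∑ z ∈ A, F z ≤ ∑ u ∈ B, F (φ u) := by
  classical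
  rcases isEmpty_or_nonempty κ with he | he
  · have hA0 : A = ∅ := by
      rw [Finset.eq_empty_iff_forall_notMem]
      intro z hz
      obtain ⟨u, -, -⟩ := hA z hz
      exact he.elim u
    rw [hA0, Finset.sum_empty]
    exact Finset.sum_nonneg fun u _ => hF _
  choose! u hu hφ using hA
  calc ∑ z ∈ A, F z = ∑ z ∈ A, F (φ (u z)) :=
        Finset.sum_congr rfl fun z hz => by rw [hφ z hz]
    _ = ∑ w ∈ A.image u, F (φ w) := by
        rw [Finset.sum_image]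
        intro a ha b hb hab
        rw [← hφ a ha, ← hφ b hb, hab]
    _ ≤ ∑ w ∈ B, F (φ w) := by
        apply Finset.sum_le_sum_of_subset_of_nonneg
        · intro w hw
          obtain ⟨z, hz, rfl⟩ := Finset.mem_image.1 hw
          exact hu z hz
        · intro i _ _
          exact hF _

/-- the number of solutions for given `z` -/
private noncomputable def CountB_N {k : ℕ} (H d : ℕ) (z : Fin k → ℕ × ℕ) : ℝ :=
  ((((Fintype.piFinset fun _ : Fin k => Ioo (-(H : ℤ)) H)).filter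
      fun a : Fin k → ℤ => ∑ j, a j * ((z j).1 : ℤ) ^ d = 0 ∧
        ∑ j, a j * ((z j).2 : ℤ) ^ d = 0).card : ℝ)

/-- the pair with given coordinates -/
private def CountB_phi {k : ℕ} (t t' : Fin k → ℕ) (w : Fin k → ℕ × (ℕ × ℕ)) : Fin k → ℕ × ℕ :=
  fun j => (t j * ((w j).2.1 * (w j).1), t' j * ((w j).2.2 * (w j).1))

private theorem CountB_card {d g h s m v E : ℕ} (S : St d g h s m v E) (i : Fin s) :
    (((zB (S.QS i) (S.PS i)).card : ℕ) : ℝ) ≤ (S.B : ℝ) ^ 2 := by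
  have h1 : (zB (S.QS i) (S.PS i)).card ≤ S.L * (S.M * S.M) := by
    unfold zB
    refine le_trans (card_filter_le _ _) ?_
    rw [card_product, card_product]
    exact Nat.mul_le_mul (S.PS_card_le i) (Nat.mul_le_mul (S.QS_card_le i) (S.QS_card_le i))
  have h2 : S.L * (S.M * S.M) ≤ S.B ^ 2 := by
    have hT := S.T_pos
    have hL := S.L_pos
    rw [S.B_eq]
    calc S.L * (S.M * S.M) = 1 * S.L * (S.M * S.M) := by ring
      _ ≤ (16 ^ 2 * S.T ^ 2 * S.L) * S.L * (S.M * S.M) := by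
          apply Nat.mul_le_mul_right
          apply Nat.mul_le_mul_right
          exact Nat.mul_pos (Nat.mul_pos (by norm_num) (Nat.pow_pos hT)) hL
      _ = _ := by ring
  exact_mod_cast h1.trans h2

private theorem CountB_fix {d g h s m v E : ℕ} {C1 : ℝ} (S : St d g h s m v E)
    (f : Fin (g + 3 + 2) → Fin s) (hf : Function.Injective f) (t t' : Fin (g + 3 + 2) → ℕ)
    (ht : ∀ j, t j ∈ S.I ∧ t' j ∈ S.I)
    (hne : ∀ z1 ∈ zB (S.QS (f 0)) (S.PS (f 0)), ∀ z2 ∈ zB (S.QS (f 1)) (S.PS (f 1)),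
      DB d (t 0) (t' 0) (t 1) (t' 1) z1 z2 ≠ 0)
    (hS : ∑ z1 ∈ zB (S.QS (f 0)) (S.PS (f 0)), ∑ z2 ∈ zB (S.QS (f 1)) (S.PS (f 1)),
      ∑ q ∈ (DB d (t 0) (t' 0) (t 1) (t' 1) z1 z2).natAbs.divisors,
        (q : ℝ) / |((DB d (t 0) (t' 0) (t 1) (t' 1) z1 z2 : ℤ) : ℝ)| *
        ∏ j : Fin (g + 3), (((zB (S.QS (f j.succ.succ)) (S.PS (f j.succ.succ))).filter
          fun z => (q : ℤ) ∣ DB d (t 0) (t' 0) (t j.succ.succ) (t' j.succ.succ) z1 z).card : ℝ) ≤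
      C1 * (S.R : ℝ) ^ (cA d * m) * (S.B : ℝ) ^ 4) :
    ∑ w ∈ Fintype.piFinset (fun j => zB (S.QS (f j)) (S.PS (f j))),
      CountB_N S.H d (CountB_phi t t' w) ≤
      (4 * (S.H : ℝ)) ^ (g + 3) * (C1 * (S.R : ℝ) ^ (cA d * m) * (S.B : ℝ) ^ 4) +
        2 * (4 * (S.H : ℝ)) ^ (g + 2) * ((S.B : ℝ) ^ 2) ^ (g + 5) := by
  obtain ⟨-, -, -, -, -, -, hH0⟩ := S.n_facts
  have key : ∀ w ∈ Fintype.piFinset (fun j => zB (S.QS (f j)) (S.PS (f j))),
      CountB_N S.H d (CountB_phi t t' w) ≤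
      (4 * (S.H : ℝ)) ^ (g + 3) *
        (∑ q ∈ (DB d (t 0) (t' 0) (t 1) (t' 1) (w 0) (w 1)).natAbs.divisors.filter
          (fun q : ℕ => ∀ j : Fin (g + 3),
            (q : ℤ) ∣ DB d (t 0) (t' 0) (t j.succ.succ) (t' j.succ.succ) (w 0) (w j.succ.succ)),
          (q : ℝ) / |((DB d (t 0) (t' 0) (t 1) (t' 1) (w 0) (w 1) : ℤ) : ℝ)|) +
        2 * (4 * (S.H : ℝ)) ^ (g + 2) := by
    intro w hw
    rw [Fintype.mem_piFinset] at hw
    have hw0 := hw 0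
    have hw0' := hw0
    unfold zB at hw0'
    rw [mem_filter, mem_product, mem_product] at hw0'
    obtain ⟨⟨hl, ha, ha'⟩, -⟩ := hw0'
    have hlp := (S.hPS _ _ hl).1.pos
    have hap := (S.hQS _ _ ha).1.pos
    have htp : 1 ≤ t 0 := ((S.I_mem _).1 (ht 0).1).1
    exact elim (K := g + 3) S.H d hH0
      (fun j => ((t j * ((w j).2.1 * (w j).1) : ℕ) : ℤ))
      (fun j => ((t' j * ((w j).2.2 * (w j).1) : ℕ) : ℤ))
      ((t 0 * (w 0).2.1 : ℕ) : ℤ) ((t' 0 * (w 0).2.2 : ℕ) : ℤ) ((w 0).1 : ℤ)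
      (by push_cast; ring) (by push_cast; ring)
      (by
        apply pow_ne_zero
        have : 0 < t 0 * ((w 0).2.1 * (w 0).1) := Nat.mul_pos htp (Nat.mul_pos hap hlp)
        exact_mod_cast this.ne')
      (hne _ hw0 _ (hw 1))
  refine le_trans (Finset.sum_le_sum key) ?_
  rw [Finset.sum_add_distrib, ← Finset.mul_sum]
  have hg := group_sum (K := g + 3) (fun j => zB (S.QS (f j)) (S.PS (f j)))
    (fun z1 z2 => DB d (t 0) (t' 0) (t 1) (t' 1) z1 z2)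
    (fun j z1 z => DB d (t 0) (t' 0) (t j.succ.succ) (t' j.succ.succ) z1 z)
  rw [hg]
  apply add_le_add
  · exact mul_le_mul_of_nonneg_left hS (by positivity)
  · rw [Finset.sum_const, nsmul_eq_mul, mul_comm]
    apply mul_le_mul_of_nonneg_left _ (by positivity)
    rw [Fintype.card_piFinset]
    push_cast
    calc ∏ j : Fin (g + 3 + 2), (((zB (S.QS (f j)) (S.PS (f j))).card : ℕ) : ℝ)
        ≤ ∏ _j : Fin (g + 3 + 2), (S.B : ℝ) ^ 2 :=
          Finset.prod_le_prod (fun _ _ => by positivity) fun j _ => CountB_card S (f j)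
      _ = ((S.B : ℝ) ^ 2) ^ (g + 5) := by
          rw [Finset.prod_const, Finset.card_univ, Fintype.card_fin]

theorem count_B (d g h s m v E : ℕ) : ∃ C : ℝ, 0 < C ∧ ∀ (S : St d g h s m v E)
    (f : Fin (g + 3 + 2) → Fin s), Function.Injective f →
    cnt2 S.H d (fun j => S.ZB (f j)) ≤
      C * (S.R : ℝ) ^ (2 * cA d * m) * (S.H : ℝ) ^ (g + 3) * (S.B : ℝ) ^ 4 := by
  obtain ⟨C0, hC0, hI⟩ := inv_B d g h s m v E
  obtain ⟨C1, hC1, hS⟩ := sum_B d g h s m v E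
  refine ⟨4 ^ (g + 3) * (C1 + 2), by positivity, fun S f hf => ?_⟩
  obtain ⟨-, -, -, -, -, -, hH0⟩ := S.n_facts
  have hR1 : (1 : ℝ) ≤ S.R := by exact_mod_cast S.R_pos
  have hB1 : (1 : ℝ) ≤ S.B := by exact_mod_cast S.B_pos
  have hH1 : (0 : ℝ) < S.H := by exact_mod_cast hH0
  -- the covering
  have hcov : cnt2 S.H d (fun j => S.ZB (f j)) ≤
      ∑ u ∈ (Fintype.piFinset fun _ : Fin (g + 3 + 2) => S.I ×ˢ S.I) ×ˢ
        Fintype.piFinset (fun j => zB (S.QS (f j)) (S.PS (f j))),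
      CountB_N S.H d (CountB_phi (fun j => (u.1 j).1) (fun j => (u.1 j).2) u.2) := by
    refine CountB_cover (Fintype.piFinset fun j => S.ZB (f j))
      ((Fintype.piFinset fun _ : Fin (g + 3 + 2) => S.I ×ˢ S.I) ×ˢ
        Fintype.piFinset (fun j => zB (S.QS (f j)) (S.PS (f j))))
      (fun u => CountB_phi (fun j => (u.1 j).1) (fun j => (u.1 j).2) u.2)
      (CountB_N S.H d)
      (fun z => by unfold CountB_N; positivity) ?_
    intro z hz
    rw [Fintype.mem_piFinset] at hz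
    have hz' := fun j => (S.ZB_mem (f j) (z j)).1 (hz j)
    choose t q l t' q' ht hq hl ht' hq' hne he using hz'
    refine ⟨(fun j => (t j, t' j), fun j => (l j, (q j, q' j))), ?_, ?_⟩
    · rw [mem_product, Fintype.mem_piFinset, Fintype.mem_piFinset]
      refine ⟨fun j => mem_product.2 ⟨ht j, ht' j⟩, fun j => ?_⟩
      unfold zB
      rw [mem_filter, mem_product, mem_product]
      exact ⟨⟨hl j, hq j, hq' j⟩, hne j⟩
    · funext j
      exact (he j).symm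
  refine le_trans hcov ?_
  rw [Finset.sum_product]
  -- every choice of `t, t'`
  have hfix : ∀ u ∈ Fintype.piFinset (fun _ : Fin (g + 3 + 2) => S.I ×ˢ S.I),
      ∑ w ∈ Fintype.piFinset (fun j => zB (S.QS (f j)) (S.PS (f j))),
      CountB_N S.H d (CountB_phi (fun j => (u j).1) (fun j => (u j).2) w) ≤
      (4 * (S.H : ℝ)) ^ (g + 3) * (C1 * (S.R : ℝ) ^ (cA d * m) * (S.B : ℝ) ^ 4) +
        2 * (4 * (S.H : ℝ)) ^ (g + 2) * ((S.B : ℝ) ^ 2) ^ (g + 5) := by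
    intro u hu
    rw [Fintype.mem_piFinset] at hu
    have hu' : ∀ j, (u j).1 ∈ S.I ∧ (u j).2 ∈ S.I := fun j => mem_product.1 (hu j)
    have h01 : f 0 ≠ f 1 := by
      intro h
      have := hf h
      exact absurd this (by simp [Fin.ext_iff])
    exact CountB_fix S f hf (fun j => (u j).1) (fun j => (u j).2) hu'
      (hI S (f 0) (f 1) h01 _ (hu' 0).1 _ (hu' 0).2 _ (hu' 1).1 _ (hu' 1).2).1
      (hS S f hf (fun j => (u j).1) (fun j => (u j).2) hu')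
  refine le_trans (Finset.sum_le_sum hfix) ?_
  rw [Finset.sum_const, nsmul_eq_mul]
  have hcard : (((Fintype.piFinset fun _ : Fin (g + 3 + 2) => S.I ×ˢ S.I).card : ℕ) : ℝ) ≤
      (S.R : ℝ) ^ (cA d * m) := by
    rw [Fintype.card_piFinset, Finset.prod_const, Finset.card_univ, Fintype.card_fin,
      card_product]
    have h1 : (S.I.card * S.I.card) ^ (g + 3 + 2) ≤ S.R ^ (cA d * m) := by
      calc (S.I.card * S.I.card) ^ (g + 3 + 2) ≤ (S.T * S.T) ^ (g + 3 + 2) :=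
            Nat.pow_le_pow_left (Nat.mul_le_mul S.I_card_le S.I_card_le) _
        _ = S.R ^ (2 * (g + 5) * m) := by
            unfold St.T
            rw [← pow_add, ← pow_mul]
            congr 1
            ring
        _ ≤ S.R ^ (cA d * m) := by
            apply Nat.pow_le_pow_right S.R_pos
            apply Nat.mul_le_mul_right
            have e1 := S.hdg
            have e2 := S.hh1
            unfold cA
            omega
    exact_mod_cast h1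
  have hBB : ((S.B : ℝ) ^ 2) ^ (g + 5) ≤ (S.H : ℝ) * (S.B : ℝ) ^ 4 := by
    have h1 : (S.B ^ 2) ^ (g + 5) ≤ S.H * S.B ^ 4 := by
      calc (S.B ^ 2) ^ (g + 5) = S.B ^ (2 * (g + 5)) := by rw [← pow_mul]
        _ ≤ S.B ^ (h + 4) := by
            apply Nat.pow_le_pow_right S.B_pos
            have e2 := S.hh1
            omega
        _ = S.B ^ h * S.B ^ 4 := pow_add _ _ _
        _ ≤ S.H * S.B ^ 4 := Nat.mul_le_mul_right _ S.BH
    exact_mod_cast h1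
  have hRc : (1 : ℝ) ≤ (S.R : ℝ) ^ (cA d * m) := one_le_pow₀ hR1
  have e1 : (4 * (S.H : ℝ)) ^ (g + 3) = 4 ^ (g + 3) * (S.H : ℝ) ^ (g + 3) := mul_pow _ _ _
  have e2 : 2 * (4 * (S.H : ℝ)) ^ (g + 2) * ((S.B : ℝ) ^ 2) ^ (g + 5) ≤
      4 ^ (g + 3) * 2 * ((S.R : ℝ) ^ (cA d * m) * ((S.H : ℝ) ^ (g + 3) * (S.B : ℝ) ^ 4)) := by
    calc 2 * (4 * (S.H : ℝ)) ^ (g + 2) * ((S.B : ℝ) ^ 2) ^ (g + 5)
        ≤ 2 * (4 * (S.H : ℝ)) ^ (g + 2) * ((S.H : ℝ) * (S.B : ℝ) ^ 4) :=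
          mul_le_mul_of_nonneg_left hBB (by positivity)
      _ = 4 ^ (g + 2) * 2 * (1 * ((S.H : ℝ) ^ (g + 3) * (S.B : ℝ) ^ 4)) := by
          rw [mul_pow, pow_succ (S.H : ℝ) (g + 2)]
          ring
      _ ≤ 4 ^ (g + 3) * 2 * ((S.R : ℝ) ^ (cA d * m) * ((S.H : ℝ) ^ (g + 3) * (S.B : ℝ) ^ 4)) := by
          gcongr
          · norm_num
          · omega
  have e3 : (S.R : ℝ) ^ (2 * cA d * m) = (S.R : ℝ) ^ (cA d * m) * (S.R : ℝ) ^ (cA d * m) := by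
    rw [← pow_add]
    congr 1
    ring
  rw [e3, e1]
  calc (((Fintype.piFinset fun _ : Fin (g + 3 + 2) => S.I ×ˢ S.I).card : ℕ) : ℝ) *
        (4 ^ (g + 3) * (S.H : ℝ) ^ (g + 3) * (C1 * (S.R : ℝ) ^ (cA d * m) * (S.B : ℝ) ^ 4) +
          2 * (4 * (S.H : ℝ)) ^ (g + 2) * ((S.B : ℝ) ^ 2) ^ (g + 5))
      ≤ (S.R : ℝ) ^ (cA d * m) *
        (4 ^ (g + 3) * (S.H : ℝ) ^ (g + 3) * (C1 * (S.R : ℝ) ^ (cA d * m) * (S.B : ℝ) ^ 4) +
          4 ^ (g + 3) * 2 * ((S.R : ℝ) ^ (cA d * m) * ((S.H : ℝ) ^ (g + 3) * (S.B : ℝ) ^ 4))) := by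
        apply mul_le_mul hcard (add_le_add le_rfl e2) (by positivity) (by positivity)
    _ = _ := by ring

end Pool.Agent.Lib.MP_e426f4_ag.DH
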