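import Pool.Agent.Lib.MP_e426f4_ag.DG.Defs
import Pool.Agent.Lib.MP_e426f4_ag.DG.FFb
import Pool.Agent.Lib.MP_e426f4_ag.DG.Ker1

/-!
# Gcs: the linear sum against `F`

`FZ (X × {0}) (b,b) = ∑_x wh(b x^d) = ∑_a w(a) S(ab)` (`sum_wt_ee`, `0^d = 0`); Cauchy-Schwarz with `∑_a w(a) = wh(0) = P/n` and `FF_diag`.
-/

set_option autoImplicit false

namespace Pool.Agent.Lib.MP_e426f4_ag.DH

open Finset
open Pool.Agent.Lib.MP_e426f4_ag.DG

theorem g_cs (P : ℕ) [NeZero P] (n d : ℕ) (hd : 1 ≤ d) (hn : 0 < n) (hnP : n ≤ P) (X : Finset ℕ)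
    (b : ZMod P) :
    FZ P n d (X ×ˢ {0}) b b ^ 2 ≤ (P : ℝ) / n * FF P n d X b b := by
  have h0 : ((0 : ℕ) : ZMod P) ^ d = 0 := by
    rw [Nat.cast_zero, zero_pow (by omega)]
  have h1 : (FZ P n d (X ×ˢ {0}) b b : ℂ) = ∑ a : ZMod P, (wt P n a : ℂ) * SS P d X (a * b) := by
    unfold FZ
    rw [Complex.ofReal_sum, Finset.sum_product]
    have h2 : ∀ x ∈ X, ∑ y ∈ ({0} : Finset ℕ),
        ((wh P n (b * (((x, y) : ℕ × ℕ).1 : ZMod P) ^ d - b * (((x, y) : ℕ × ℕ).2 : ZMod P) ^ d) : ℝ) : ℂ) =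
        ∑ a : ZMod P, (wt P n a : ℂ) * ee P (a * b * (x : ZMod P) ^ d) := by
      intro x _
      rw [Finset.sum_singleton]
      simp only
      rw [h0, mul_zero, sub_zero, ← sum_wt_ee n hn]
      refine Finset.sum_congr rfl fun a _ => ?_
      rw [mul_assoc]
    rw [Finset.sum_congr rfl h2, Finset.sum_comm]
    refine Finset.sum_congr rfl fun a _ => ?_
    unfold SS
    rw [Finset.mul_sum]
  have h3 : |FZ P n d (X ×ˢ {0}) b b| ≤ ∑ a : ZMod P, wt P n a * ‖SS P d X (a * b)‖ := by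
    have h4 : |FZ P n d (X ×ˢ {0}) b b| = ‖(FZ P n d (X ×ˢ {0}) b b : ℂ)‖ := by
      rw [Complex.norm_real, Real.norm_eq_abs]
    rw [h4, h1]
    refine (norm_sum_le _ _).trans (Finset.sum_le_sum fun a _ => ?_)
    rw [norm_mul, Complex.norm_real, Real.norm_of_nonneg (wt_nonneg n a)]
  have hsum : ∑ a : ZMod P, wt P n a ≤ (P : ℝ) / n := by
    have h5 : ((∑ a : ZMod P, wt P n a : ℝ) : ℂ) = (wh P n 0 : ℂ) := by
      rw [← sum_wt_ee n hn 0, Complex.ofReal_sum]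
      refine Finset.sum_congr rfl fun a _ => ?_
      unfold ee
      rw [mul_zero, AddChar.map_zero_eq_one, mul_one]
    have h6 : ∑ a : ZMod P, wt P n a = wh P n 0 := Complex.ofReal_injective h5
    rw [h6]
    exact wh_le n hn hnP 0
  rw [← sq_abs]
  refine (pow_le_pow_left₀ (abs_nonneg _) h3 2).trans ?_
  have hcs : (∑ a : ZMod P, wt P n a * ‖SS P d X (a * b)‖) ^ 2 ≤
      (∑ a : ZMod P, wt P n a) * ∑ a : ZMod P, wt P n a * ‖SS P d X (a * b)‖ ^ 2 := by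
    refine Finset.sum_sq_le_sum_mul_sum_of_sq_le_mul _ ?_ ?_ ?_
    · intro a _
      exact wt_nonneg n a
    · intro a _
      exact mul_nonneg (wt_nonneg n a) (by positivity)
    · intro a _
      refine le_of_eq ?_
      ring
  refine hcs.trans ?_
  rw [FF_diag n d hn]
  exact mul_le_mul_of_nonneg_right hsum
    (Finset.sum_nonneg fun a _ => mul_nonneg (wt_nonneg n a) (by positivity))

end Pool.Agent.Lib.MP_e426f4_ag.DH
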