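import Pool.Agent.Lib.MP_e426f4_ag.DH.SupN
import Pool.Agent.Lib.MP_e426f4_ag.DH.Gcs
import Pool.Agent.Lib.MP_e426f4_ag.DH.Mom

/-!
# HighGam: HIGH frequencies in the linear count

`j ≥ 2`: `FZ (X × {0}) b b ≤ √((P/n) FF) ≤ √(8H · C R² H M B) = R H √(8C M B)` (`g_cs`, `sup_high`).  `j = 0,1`: extend the sum to all `b` (non-negative) and use `mom_one` with `k = 2`:
`≤ 16² cnt1` of two indices, and `a_0 x_0^d + a_1 x_1^d = 0`, `|a| < H`, forces `a = 0`: `x_1 = t_1 y_1`, `y_1 = a l` coprime to `x_0` (disjoint primes, `> T`), so `y_1^d ∣ a_0`, `y_1^d > (ML)^d > H`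
(`H_small`), `a_0 = 0`, `a_1 = 0`.  So `cnt1 ≤ |X|² ≤ B²`.
-/

set_option autoImplicit false

namespace Pool.Agent.Lib.MP_e426f4_ag.DH

open Finset
open Pool.Agent.Lib.MP_e426f4_ag.DG

private theorem hg_zero {d g h s m v E : ℕ} (S : St d g h s m v E) (i0 i1 : Fin s) (hi : i0 ≠ i1)
    (x0 x1 : ℕ) (h0 : x0 ∈ S.X i0) (h1 : x1 ∈ S.X i1) (a0 a1 : ℤ) (ha0 : |a0| < S.H)
    (he : a0 * (x0 : ℤ) ^ d + a1 * (x1 : ℤ) ^ d = 0) : a0 = 0 ∧ a1 = 0 := by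
  obtain ⟨t0, q0, l0, ht0, hq0, hl0, rfl⟩ := (S.X_mem i0 x0).mp h0
  obtain ⟨t1, q1, l1, ht1, hq1, hl1, hx1⟩ := (S.X_mem i1 x1).mp h1
  have hT0 := (S.I_mem t0).mp ht0
  obtain ⟨hq1p, hq1M, _⟩ := S.hQS i1 q1 hq1
  obtain ⟨hl1p, hl1L, _⟩ := S.hPS i1 l1 hl1
  have hc1 : Nat.Coprime q1 (t0 * (q0 * l0)) := by
    rw [hq1p.coprime_iff_not_dvd]
    intro hdv
    have := S.q_dvd hq1 ⟨hT0.1, hT0.2.1⟩ hq0 hl0 hdv
    subst this
    exact hi (S.QS_idx hq0 hq1)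
  have hc2 : Nat.Coprime l1 (t0 * (q0 * l0)) := by
    rw [hl1p.coprime_iff_not_dvd]
    intro hdv
    have := S.l_dvd hl1 ⟨hT0.1, hT0.2.1⟩ hq0 hl0 hdv
    subst this
    exact hi (S.PS_idx hl0 hl1)
  have hc : IsCoprime (((q1 * l1 : ℕ) : ℤ) ^ d) (((t0 * (q0 * l0) : ℕ) : ℤ) ^ d) :=
    (Nat.isCoprime_iff_coprime.mpr (Nat.Coprime.mul_left hc1 hc2)).pow
  have hdv : ((q1 * l1 : ℕ) : ℤ) ^ d ∣ a0 * ((t0 * (q0 * l0) : ℕ) : ℤ) ^ d := by
    have h2 : a0 * ((t0 * (q0 * l0) : ℕ) : ℤ) ^ d = -(a1 * (x1 : ℤ) ^ d) := by linarith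
    rw [h2]
    refine (Dvd.dvd.mul_left (pow_dvd_pow_of_dvd ?_ d) a1).neg_right
    rw [hx1]
    exact_mod_cast Dvd.intro_left t1 rfl
  have hdv2 : ((q1 * l1 : ℕ) : ℤ) ^ d ∣ a0 := hc.dvd_of_dvd_mul_right hdv
  have hbig : (S.H : ℤ) < ((q1 * l1 : ℕ) : ℤ) ^ d := by
    have h3 := S.H_small
    have h4 : (S.M * S.L) ^ d ≤ (q1 * l1) ^ d :=
      Nat.pow_le_pow_left (Nat.mul_le_mul hq1M.le hl1L.le) d
    have h5 : 1 ≤ S.T ^ (6 * d) := Nat.one_le_pow _ _ S.T_pos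
    have h6 : S.H ≤ 2 * S.H * S.T ^ (6 * d) := by nlinarith
    have : S.H < (q1 * l1) ^ d := by omega
    exact_mod_cast this
  have ha : a0 = 0 := Int.eq_zero_of_abs_lt_dvd hdv2 (by linarith)
  refine ⟨ha, ?_⟩
  rw [ha] at he
  have hx : 1 ≤ x1 := (S.X_bounds i1 x1 h1).1
  have hx0 : ((x1 : ℤ)) ^ d ≠ 0 := pow_ne_zero _ (by positivity)
  have : a1 * (x1 : ℤ) ^ d = 0 := by linarith
  exact (mul_eq_zero.mp this).resolve_right hx0

private theorem hg_two {d g h s m v E : ℕ} (S : St d g h s m v E) (i0 i1 : Fin s) (hi : i0 ≠ i1) :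
    (1 / (S.P : ℝ)) * ∑ b : ZMod S.P, (FZ S.P S.n d (S.X i0 ×ˢ {0}) b b *
      FZ S.P S.n d (S.X i1 ×ˢ {0}) b b) ≤ 256 * (S.B : ℝ) ^ 2 := by
  obtain ⟨hn, hnP, hnH, hP8, hPB, h2H, hH⟩ := S.n_facts
  have hd1 : 1 ≤ d := S.nums.1
  have hk : 2 * S.H * S.B ^ d < S.P := by
    refine lt_of_le_of_lt ?_ hPB
    have : 2 * S.H ≤ 8 * (s + 2) * S.H := by nlinarith
    exact Nat.mul_le_mul_right _ this
  have h1 := mom_one (k := 2) S.P S.n d S.H S.B hH hn hnP hnH hP8 hk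
    (fun j : Fin 2 => S.X (if j = 0 then i0 else i1) ×ˢ ({0} : Finset ℕ))
    (fun j z hz => by
      rw [Finset.mem_product, Finset.mem_singleton] at hz
      exact ⟨(S.X_bounds _ _ hz.1).2.1, by rw [hz.2]; exact Nat.zero_le _⟩)
  have h2 : cnt1 S.H d (fun j : Fin 2 => S.X (if j = 0 then i0 else i1) ×ˢ ({0} : Finset ℕ)) ≤
      (S.B : ℝ) ^ 2 := by
    unfold cnt1
    have hone : ∀ z ∈ Fintype.piFinset
        (fun j : Fin 2 => S.X (if j = 0 then i0 else i1) ×ˢ ({0} : Finset ℕ)),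
        ((((Fintype.piFinset fun _ : Fin 2 => Ioo (-(S.H : ℤ)) S.H)).filter
          fun a : Fin 2 → ℤ => ∑ j, a j * (((z j).1 : ℤ) ^ d - ((z j).2 : ℤ) ^ d) = 0).card : ℝ)
          ≤ 1 := by
      intro z hz
      rw [Fintype.mem_piFinset] at hz
      have hz0 := hz 0
      have hz1 := hz 1
      simp only [Finset.mem_product, Finset.mem_singleton, if_true] at hz0
      rw [if_neg (by decide : (1 : Fin 2) ≠ 0)] at hz1
      simp only [Finset.mem_product, Finset.mem_singleton] at hz1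
      have : ((((Fintype.piFinset fun _ : Fin 2 => Ioo (-(S.H : ℤ)) S.H)).filter
          fun a : Fin 2 → ℤ => ∑ j, a j * (((z j).1 : ℤ) ^ d - ((z j).2 : ℤ) ^ d) = 0)) ⊆
          {0} := by
        intro a ha
        rw [Finset.mem_filter, Fintype.mem_piFinset] at ha
        obtain ⟨ha1, ha2⟩ := ha
        rw [Fin.sum_univ_two, hz0.2, hz1.2] at ha2
        have hzp : ((0 : ℕ) : ℤ) ^ d = 0 := by
          rw [Nat.cast_zero]; exact zero_pow (by omega)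
        rw [hzp, sub_zero, sub_zero] at ha2
        have hb := ha1 0
        rw [Finset.mem_Ioo] at hb
        obtain ⟨e0, e1⟩ := hg_zero S i0 i1 hi _ _ hz0.1 hz1.1 (a 0) (a 1)
          (abs_lt.mpr ⟨hb.1, hb.2⟩) ha2
        rw [Finset.mem_singleton]
        funext j
        fin_cases j
        · exact e0
        · exact e1
      have h3 := Finset.card_le_card this
      rw [Finset.card_singleton] at h3
      exact_mod_cast h3
    refine (Finset.sum_le_sum hone).trans ?_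
    rw [Finset.sum_const, nsmul_eq_mul, mul_one, Fintype.card_piFinset]
    rw [Fin.prod_univ_two]
    have c0 : (((S.X i0) ×ˢ ({0} : Finset ℕ)).card : ℝ) ≤ S.B := by
      rw [Finset.card_product, Finset.card_singleton, mul_one, S.X_card]
      exact S.XX_bounds.2
    have c1 : (((S.X i1) ×ˢ ({0} : Finset ℕ)).card : ℝ) ≤ S.B := by
      rw [Finset.card_product, Finset.card_singleton, mul_one, S.X_card]
      exact S.XX_bounds.2
    have hB0 : (0 : ℝ) ≤ S.B := Nat.cast_nonneg _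
    rw [if_pos rfl, if_neg (by decide : (1 : Fin 2) ≠ 0)]
    push_cast
    calc _ ≤ (S.B : ℝ) * S.B := mul_le_mul c0 c1 (Nat.cast_nonneg _) hB0
      _ = (S.B : ℝ) ^ 2 := by ring
  have h4 : ∀ b : ZMod S.P, ∏ j : Fin 2, FZ S.P S.n d
      (S.X (if j = 0 then i0 else i1) ×ˢ ({0} : Finset ℕ)) b b =
      FZ S.P S.n d (S.X i0 ×ˢ {0}) b b * FZ S.P S.n d (S.X i1 ×ˢ {0}) b b := by
    intro b
    rw [Fin.prod_univ_two, if_pos rfl, if_neg (by decide : (1 : Fin 2) ≠ 0)]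
  simp only [h4] at h1
  refine h1.trans ?_
  nlinarith

theorem high_gam (d g h s m v E : ℕ) (c : ℕ) : ∃ C : ℝ, 0 < C ∧
    ∀ (S : St d g h s m v E) (A : Arc S.P (4 * S.B ^ d)) (f : Fin (c + 2) → Fin s),
    Function.Injective f →
    (1 / (S.P : ℝ)) * ∑ b ∈ (univ : Finset (ZMod S.P)).filter (fun b => S.H < A.q b),
      ∏ j, FZ S.P S.n d (S.X (f j) ×ˢ {0}) b b ≤
      C * (S.B : ℝ) ^ 2 * ((S.R : ℝ) * S.H * Real.sqrt ((S.M : ℝ) * S.B)) ^ c := by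
  by_cases hdE : 4 ≤ d ∧ 2 ≤ E
  swap
  · refine ⟨1, one_pos, fun S => ?_⟩
    exact absurd ⟨by have := S.nums; omega, S.hE⟩ hdE
  obtain ⟨C0, hC0, hsup⟩ := sup_high d g h s E hdE.1 hdE.2
  refine ⟨256 * (Real.sqrt (8 * C0)) ^ c, by positivity, fun S A f hf => ?_⟩
  obtain ⟨hn, hnP, hnH, hP8, hPB, h2H, hH⟩ := S.n_facts
  have hd1 : 1 ≤ d := S.nums.1
  have hP0 : (0 : ℝ) < S.P := by exact_mod_cast S.prime.pos
  have hM0 : (0 : ℝ) ≤ S.M := Nat.cast_nonneg _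
  have hB0 : (0 : ℝ) ≤ S.B := Nat.cast_nonneg _
  have hH0 : (0 : ℝ) ≤ S.H := Nat.cast_nonneg _
  have hR0 : (0 : ℝ) ≤ S.R := Nat.cast_nonneg _
  set K : ℝ := Real.sqrt (8 * C0) * ((S.R : ℝ) * S.H * Real.sqrt ((S.M : ℝ) * S.B)) with hK
  have hK0 : 0 ≤ K := by positivity
  have hF : ∀ b : ZMod S.P, S.H < A.q b → ∀ i, FZ S.P S.n d (S.X i ×ˢ {0}) b b ≤ K := by
    intro b hb i
    have h1 := g_cs S.P S.n d hd1 hn hnP (S.X i) b
    have h2 := hsup m v S A b i hb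
    have h3 : (S.P : ℝ) / S.n * FF S.P S.n d (S.X i) b b ≤
        8 * S.H * (C0 * (S.R : ℝ) ^ 2 * S.H * S.M * S.B) :=
      mul_le_mul hP8 h2 (FZ_nonneg _ _ _ _ _) (by positivity)
    have h4 : K ^ 2 = 8 * S.H * (C0 * (S.R : ℝ) ^ 2 * S.H * S.M * S.B) := by
      rw [hK, mul_pow, mul_pow, Real.sq_sqrt (by positivity), Real.sq_sqrt (by positivity)]
      ring
    exact abs_le_of_sq_le_sq' (by rw [h4]; exact h1.trans h3) hK0 |>.2
  have hsum : ∑ b ∈ (univ : Finset (ZMod S.P)).filter (fun b => S.H < A.q b),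
      ∏ j, FZ S.P S.n d (S.X (f j) ×ˢ {0}) b b ≤
      ∑ b : ZMod S.P, (FZ S.P S.n d (S.X (f 0) ×ˢ {0}) b b *
        FZ S.P S.n d (S.X (f 1) ×ˢ {0}) b b) * K ^ c := by
    have hstep : ∀ b ∈ (univ : Finset (ZMod S.P)).filter (fun b => S.H < A.q b),
        ∏ j, FZ S.P S.n d (S.X (f j) ×ˢ {0}) b b ≤
        (FZ S.P S.n d (S.X (f 0) ×ˢ {0}) b b *
          FZ S.P S.n d (S.X (f 1) ×ˢ {0}) b b) * K ^ c := by
      intro b hb
      rw [Finset.mem_filter] at hb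
      rw [Fin.prod_univ_succ, Fin.prod_univ_succ, ← mul_assoc]
      refine mul_le_mul_of_nonneg_left ?_
        (mul_nonneg (FZ_nonneg _ _ _ _ _) (FZ_nonneg _ _ _ _ _))
      calc _ ≤ ∏ _j : Fin c, K :=
            Finset.prod_le_prod (fun j _ => FZ_nonneg _ _ _ _ _) fun j _ => hF b hb.2 _
        _ = K ^ c := by rw [Finset.prod_const, Finset.card_univ, Fintype.card_fin]
    refine (Finset.sum_le_sum hstep).trans
      (Finset.sum_le_sum_of_subset_of_nonneg (Finset.subset_univ _) fun b _ _ => ?_)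
    exact mul_nonneg (mul_nonneg (FZ_nonneg _ _ _ _ _) (FZ_nonneg _ _ _ _ _)) (by positivity)
  rw [← Finset.sum_mul] at hsum
  have h01 : f 0 ≠ f 1 := fun he => absurd (hf he) (by simp)
  have h5 := hg_two S (f 0) (f 1) h01
  calc (1 / (S.P : ℝ)) * ∑ b ∈ (univ : Finset (ZMod S.P)).filter (fun b => S.H < A.q b),
        ∏ j, FZ S.P S.n d (S.X (f j) ×ˢ {0}) b b
      ≤ (1 / (S.P : ℝ)) * ((∑ b : ZMod S.P, (FZ S.P S.n d (S.X (f 0) ×ˢ {0}) b b *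
        FZ S.P S.n d (S.X (f 1) ×ˢ {0}) b b)) * K ^ c) :=
        mul_le_mul_of_nonneg_left hsum (by positivity)
    _ = ((1 / (S.P : ℝ)) * ∑ b : ZMod S.P, (FZ S.P S.n d (S.X (f 0) ×ˢ {0}) b b *
        FZ S.P S.n d (S.X (f 1) ×ˢ {0}) b b)) * K ^ c := by ring
    _ ≤ (256 * (S.B : ℝ) ^ 2) * K ^ c := mul_le_mul_of_nonneg_right h5 (by positivity)
    _ = _ := by rw [hK, mul_pow]; ring

end Pool.Agent.Lib.MP_e426f4_ag.DH
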