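import Pool.Agent.Lib.MP_e426f4_ag.DH.Defs
import Pool.Agent.Lib.MP_e426f4_ag.DG.Ker1

/-!
# RigidG: rigidity for `q ≤ H`

Adapt `DG/Rigid.lean` (same proof; the hypothesis `16 B^d ≤ H` is replaced by `q ≤ H`):
`|c h/q - k| ≤ 1/(4H) + B^d/(q (4B^d+1)) < 1/(4q) + 1/(4q) < 1/q`, so `c h/q = k`, `q ∣ h` and
`|δ h| < 1/(4H)`.
-/

set_option autoImplicit false

namespace Pool.Agent.Lib.MP_e426f4_ag.DH

open Finset
open Pool.Agent.Lib.MP_e426f4_ag.DG

theorem rigid_gen {P : ℕ} [NeZero P] (n d H B q c x y : ℕ) (b : ZMod P) (hB : 1 ≤ B) (hq : 1 ≤ q)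
    (hqH : q ≤ H) (hcop : Nat.Coprime c q)
    (happ : |(b.val : ℝ) / P - (c : ℝ) / q| ≤ 1 / ((q : ℝ) * ((4 * B ^ d : ℕ) + 1)))
    (hnH : 4 * n * H ≤ P) (hx : x ≤ B) (hy : y ≤ B)
    (h : wh P n (b * (x : ZMod P) ^ d - b * (y : ZMod P) ^ d) ≠ 0) :
    (q : ℤ) ∣ (x : ℤ) ^ d - (y : ℤ) ^ d ∧
      |(b.val : ℝ) / P - (c : ℝ) / q| * |(x : ℝ) ^ d - (y : ℝ) ^ d| ≤ 1 / (4 * H) := by
  obtain ⟨k0, hk0, hk0c⟩ := wh_supp n _ h
  have hP0 : (0 : ℝ) < P := by exact_mod_cast Nat.pos_of_ne_zero (NeZero.ne P)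
  have hBd : 1 ≤ B ^ d := Nat.one_le_pow _ _ hB
  have hBdR : (1 : ℝ) ≤ (B : ℝ) ^ d := by exact_mod_cast hBd
  have hq0 : (0 : ℝ) < q := by exact_mod_cast hq
  have hH0 : (0 : ℝ) < H := by
    have : 0 < H := by omega
    exact_mod_cast this
  set hh : ℤ := (x : ℤ) ^ d - (y : ℤ) ^ d with hhdef
  set θ : ℝ := (b.val : ℝ) / P with hθ
  have hhR : (hh : ℝ) = (x : ℝ) ^ d - (y : ℝ) ^ d := by
    rw [hhdef]
    push_cast
    ring
  -- the integer `k`
  have h1 : ((((b.val : ℤ) * hh - k0 : ℤ)) : ZMod P) = 0 := by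
    rw [hhdef]
    push_cast
    rw [hk0c, ZMod.natCast_zmod_val]
    ring
  rw [ZMod.intCast_zmod_eq_zero_iff_dvd] at h1
  obtain ⟨k, hk⟩ := h1
  have h2 : θ * hh - k = k0 / P := by
    have hkR : (b.val : ℝ) * hh - k0 = P * k := by exact_mod_cast hk
    rw [hθ]
    field_simp
    linarith
  have hk0R : |(k0 : ℝ)| < n := by exact_mod_cast hk0
  have h3 : |θ * hh - k| ≤ 1 / (4 * H) := by
    rw [h2, abs_div, abs_of_pos hP0, div_le_div_iff₀ hP0 (by positivity)]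
    have h4 : (4 * n * H : ℝ) ≤ P := by exact_mod_cast hnH
    nlinarith
  -- the size of `hh`
  have hxd : (x : ℝ) ^ d ≤ (B : ℝ) ^ d := by
    have : (x : ℝ) ≤ B := by exact_mod_cast hx
    gcongr
  have hyd : (y : ℝ) ^ d ≤ (B : ℝ) ^ d := by
    have : (y : ℝ) ≤ B := by exact_mod_cast hy
    gcongr
  have hx0 : (0 : ℝ) ≤ (x : ℝ) ^ d := by positivity
  have hy0 : (0 : ℝ) ≤ (y : ℝ) ^ d := by positivity
  have h5 : |(hh : ℝ)| ≤ (B : ℝ) ^ d := by
    rw [hhR, abs_le]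
    constructor <;> linarith
  have h6 : |θ - (c : ℝ) / q| * |(hh : ℝ)| < 1 / (4 * q) := by
    have h7 : |θ - (c : ℝ) / q| * |(hh : ℝ)| ≤
        1 / ((q : ℝ) * ((4 * B ^ d : ℕ) + 1)) * (B : ℝ) ^ d :=
      mul_le_mul happ h5 (abs_nonneg _) (by positivity)
    refine lt_of_le_of_lt h7 ?_
    push_cast
    rw [one_div_mul_eq_div, div_lt_div_iff₀ (by positivity) (by positivity)]
    nlinarith
  have hHq : (q : ℝ) ≤ H := by
    have : q ≤ H := by omega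
    exact_mod_cast this
  have h8 : 1 / (4 * (H : ℝ)) ≤ 1 / (4 * q) := by
    apply one_div_le_one_div_of_le (by positivity)
    linarith
  have h9 : |(c : ℝ) * hh / q - k| < 1 / q := by
    have h10 : (c : ℝ) * hh / q - k = (θ * hh - k) - (θ - (c : ℝ) / q) * hh := by ring
    have h11 : |(θ * hh - k) - (θ - (c : ℝ) / q) * hh| ≤
        |θ * hh - k| + |(θ - (c : ℝ) / q) * hh| := abs_sub _ _
    rw [h10]
    rw [abs_mul] at h11
    have h12 : 1 / (4 * (q : ℝ)) + 1 / (4 * q) < 1 / q := by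
      have : 1 / (4 * (q : ℝ)) + 1 / (4 * q) = (1 / 2) * (1 / q) := by field_simp; norm_num
      rw [this]
      have : 0 < 1 / (q : ℝ) := by positivity
      linarith
    linarith
  have h13 : |(c : ℝ) * hh - k * q| < 1 := by
    have h14 : (c : ℝ) * hh - k * q = ((c : ℝ) * hh / q - k) * q := by
      field_simp
    rw [h14, abs_mul, abs_of_pos hq0]
    calc |(c : ℝ) * hh / q - k| * q < 1 / q * q := by gcongr
      _ = 1 := by field_simp
  have h15 : (c : ℤ) * hh - k * q = 0 := by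
    have : |((c : ℤ) * hh - k * q)| < 1 := by exact_mod_cast h13
    exact Int.abs_lt_one_iff.1 this
  have h16 : (c : ℤ) * hh = k * q := by linarith
  have hdvd : (q : ℤ) ∣ hh := by
    have h17 : (q : ℤ) ∣ (c : ℤ) * hh := ⟨k, by rw [h16]; ring⟩
    have h18 : IsCoprime (q : ℤ) (c : ℤ) := by
      rw [Int.isCoprime_iff_gcd_eq_one]
      exact_mod_cast hcop.symm
    exact h18.dvd_of_dvd_mul_left h17
  refine ⟨hdvd, ?_⟩
  rw [← hhR, ← abs_mul]
  have h19 : (θ - (c : ℝ) / q) * hh = θ * hh - k := by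
    have h20 : (c : ℝ) * hh = k * q := by exact_mod_cast h16
    have h21 : (c : ℝ) / q * hh = k := by
      field_simp
      linarith
    rw [sub_mul, h21]
  rw [h19]
  exact h3

end Pool.Agent.Lib.MP_e426f4_ag.DH
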