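import Pool.Agent.Lib.MP_e426f4_ag.DH.FactsX
import Pool.Agent.Lib.MP_e426f4_ag.DH.RigidG
import Pool.Agent.Lib.MP_e426f4_ag.DG.FFb

/-!
# LowGam: LOW frequencies in the linear count

Let `A.q γ ≤ H` and `∏_j FZ (X (f j) × {0}) γ γ ≠ 0`: for every `j` there is `x_j ∈ X (f j)` with `wh(γ x_j^d - γ 0^d) ≠ 0`; `rigid_gen` with `y = 0`: `q ∣ x_j^d` and
`|δ| x_j^d ≤ 1/(4H)`.  `x_0 = t (a l)`; a prime dividing `q` divides `x_0` and `x_1`, so it is neither `a` nor `l` (`q_dvd`, `l_dvd`, `f 0 ≠ f 1`, `QS_idx`, `PS_idx`): `q ∣ t^d`, `q ≤ T^d`;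
`x_0 > B/(16E)` gives `|δ| ≤ D := (16E)^d/(4 H B^d)`.  The number of `γ` with `A.q γ = q, A.c γ = c`, `|γ/P - c/q| ≤ D` is `≤ 2PD+1 ≤ C P/(HB^d)`; at most `T^d (T^d+1)` pairs `(q,c)`.
Each factor is `≤ (P/n)|X| ≤ 8 H XX` (`FZ_le_card`).
-/

set_option autoImplicit false

namespace Pool.Agent.Lib.MP_e426f4_ag.DH

open Finset
open Pool.Agent.Lib.MP_e426f4_ag.DG

private theorem LowGam_count (P : ℕ) [NeZero P] (θ D : ℝ) (hD : 0 ≤ D) :
    (((univ : Finset (ZMod P)).filter fun b => |(b.val : ℝ) / P - θ| ≤ D).card : ℝ) ≤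
      2 * P * D + 1 := by
  have hP0 : (0 : ℝ) < P := by exact_mod_cast Nat.pos_of_ne_zero (NeZero.ne P)
  have h1 : ((univ : Finset (ZMod P)).filter fun b => |(b.val : ℝ) / P - θ| ≤ D).card ≤
      (Finset.Icc ⌈(P : ℝ) * (θ - D)⌉ ⌊(P : ℝ) * (θ + D)⌋).card := by
    refine card_le_card_of_injOn (fun b => (b.val : ℤ)) ?_ ?_
    · intro b hb
      rw [mem_coe, mem_filter] at hb
      have h2 := abs_le.1 hb.2
      rw [mem_coe, mem_Icc]
      constructor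
      · rw [Int.ceil_le]
        push_cast
        have h3 : θ - D ≤ (b.val : ℝ) / P := by linarith [h2.1]
        rw [le_div_iff₀ hP0] at h3
        linarith
      · rw [Int.le_floor]
        push_cast
        have h3 : (b.val : ℝ) / P ≤ θ + D := by linarith [h2.2]
        rw [div_le_iff₀ hP0] at h3
        linarith
    · intro b _ b' _ h
      have h' : (b.val : ℤ) = (b'.val : ℤ) := h
      exact ZMod.val_injective P (by exact_mod_cast h')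
  have h2 : ((Finset.Icc ⌈(P : ℝ) * (θ - D)⌉ ⌊(P : ℝ) * (θ + D)⌋).card : ℝ) ≤ 2 * P * D + 1 := by
    rw [Int.card_Icc]
    have h3 := Int.le_ceil ((P : ℝ) * (θ - D))
    have h4 := Int.floor_le ((P : ℝ) * (θ + D))
    have h5 : (((⌊(P : ℝ) * (θ + D)⌋ + 1 - ⌈(P : ℝ) * (θ - D)⌉).toNat : ℤ) : ℝ) ≤
        2 * P * D + 1 := by
      rcases le_total 0 (⌊(P : ℝ) * (θ + D)⌋ + 1 - ⌈(P : ℝ) * (θ - D)⌉) with h6 | h6
      · rw [Int.toNat_of_nonneg h6]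
        push_cast
        nlinarith
      · rw [Int.toNat_of_nonpos h6]
        push_cast
        positivity
    exact_mod_cast h5
  exact le_trans (by exact_mod_cast h1) h2

private theorem LowGam_one {d g h s m v E : ℕ} (S : St d g h s m v E) (A : Arc S.P (4 * S.B ^ d))
    (i i' : Fin s) (hi : i ≠ i') (b : ZMod S.P) (hq : A.q b ≤ S.H)
    (h1 : FZ S.P S.n d (S.X i ×ˢ {0}) b b ≠ 0) (h2 : FZ S.P S.n d (S.X i' ×ˢ {0}) b b ≠ 0) :
    A.q b ≤ S.T ^ d ∧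
      |(b.val : ℝ) / S.P - (A.c b : ℝ) / A.q b| ≤ (16 * (E : ℝ)) ^ d / (4 * S.H * (S.B : ℝ) ^ d) := by
  obtain ⟨hd, -⟩ := S.nums
  obtain ⟨hn0, hnP, hnH, -, -, -, hH0⟩ := S.n_facts
  have key : ∀ k : Fin s, FZ S.P S.n d (S.X k ×ˢ {0}) b b ≠ 0 → ∃ x ∈ S.X k,
      A.q b ∣ x ^ d ∧
        |(b.val : ℝ) / S.P - (A.c b : ℝ) / A.q b| * (x : ℝ) ^ d ≤ 1 / (4 * S.H) := by
    intro k hk
    obtain ⟨z, hz, hz0⟩ := Finset.exists_ne_zero_of_sum_ne_zero hk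
    rw [mem_product, mem_singleton] at hz
    obtain ⟨hx, hy⟩ := hz
    rw [hy] at hz0
    obtain ⟨-, hxB, -⟩ := S.X_bounds k z.1 hx
    obtain ⟨r1, r2⟩ := rigid_gen S.n d S.H S.B (A.q b) (A.c b) z.1 0 b S.B_pos (A.qpos b) hq
      (A.cop b) (A.approx b) hnH hxB (Nat.zero_le _) hz0
    refine ⟨z.1, hx, ?_, ?_⟩
    · rw [Nat.cast_zero, zero_pow (by omega), sub_zero] at r1
      exact_mod_cast r1
    · have hx0 : (0 : ℝ) ≤ (z.1 : ℝ) ^ d := by positivity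
      rw [Nat.cast_zero, zero_pow (by omega), sub_zero, abs_of_nonneg hx0] at r2
      exact r2
  obtain ⟨x, hx, hqx, hdx⟩ := key i h1
  obtain ⟨x', hx', hqx', -⟩ := key i' h2
  obtain ⟨t, a, l, ht, ha, hl, rfl⟩ := (S.X_mem i x).1 hx
  obtain ⟨t', a', l', ht', ha', hl', rfl⟩ := (S.X_mem i' x').1 hx'
  obtain ⟨t1, t2, -⟩ := (S.I_mem t).1 ht
  obtain ⟨u1, u2, -⟩ := (S.I_mem t').1 ht'
  have pa : a.Prime := (S.hQS i a ha).1
  have pl : l.Prime := (S.hPS i l hl).1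
  have ca : Nat.Coprime a (A.q b) := by
    rw [Nat.Prime.coprime_iff_not_dvd pa]
    intro hdv
    have h3 : a ∣ t' * (a' * l') := pa.dvd_of_dvd_pow (hdv.trans hqx')
    have h4 : a = a' := S.q_dvd ha ⟨u1, u2⟩ ha' hl' h3
    exact hi (S.QS_idx ha (h4 ▸ ha'))
  have cl : Nat.Coprime l (A.q b) := by
    rw [Nat.Prime.coprime_iff_not_dvd pl]
    intro hdv
    have h3 : l ∣ t' * (a' * l') := pl.dvd_of_dvd_pow (hdv.trans hqx')
    have h4 : l = l' := S.l_dvd hl ⟨u1, u2⟩ ha' hl' h3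
    exact hi (S.PS_idx hl (h4 ▸ hl'))
  have cal : Nat.Coprime (A.q b) ((a * l) ^ d) :=
    Nat.Coprime.pow_right _ (Nat.Coprime.mul_right ca.symm cl.symm)
  have hqt : A.q b ∣ t ^ d := by
    rw [mul_pow] at hqx
    exact cal.dvd_of_dvd_mul_right hqx
  refine ⟨?_, ?_⟩
  · exact (Nat.le_of_dvd (Nat.pow_pos (by omega)) hqt).trans (Nat.pow_le_pow_left t2 d)
  · obtain ⟨x1, -, x3⟩ := S.X_bounds i _ hx
    have hx0 : (0 : ℝ) < ((t * (a * l) : ℕ) : ℝ) := by exact_mod_cast x1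
    have hB0 : (0 : ℝ) < (S.B : ℝ) := by exact_mod_cast S.B_pos
    have hHR : (0 : ℝ) < (S.H : ℝ) := by exact_mod_cast hH0
    have x3R : (S.B : ℝ) ≤ 16 * E * ((t * (a * l) : ℕ) : ℝ) := by exact_mod_cast x3.le
    have h5 : (S.B : ℝ) ^ d ≤ (16 * (E : ℝ)) ^ d * ((t * (a * l) : ℕ) : ℝ) ^ d := by
      rw [← mul_pow]
      gcongr
    set δ := |(b.val : ℝ) / S.P - (A.c b : ℝ) / A.q b|
    have hδ : 0 ≤ δ := abs_nonneg _
    rw [le_div_iff₀ (by positivity)] at hdx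
    rw [le_div_iff₀ (by positivity)]
    calc δ * (4 * S.H * (S.B : ℝ) ^ d) ≤
        δ * (4 * S.H * ((16 * (E : ℝ)) ^ d * ((t * (a * l) : ℕ) : ℝ) ^ d)) := by gcongr
      _ = (δ * ((t * (a * l) : ℕ) : ℝ) ^ d * (4 * S.H)) * (16 * (E : ℝ)) ^ d := by ring
      _ ≤ 1 * (16 * (E : ℝ)) ^ d := by gcongr
      _ = _ := one_mul _

theorem low_gam (d g h s m v E : ℕ) (c : ℕ) (hc : 2 ≤ c) : ∃ C : ℝ, 0 < C ∧
    ∀ (S : St d g h s m v E) (A : Arc S.P (4 * S.B ^ d)) (f : Fin c → Fin s),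
    Function.Injective f →
    (1 / (S.P : ℝ)) * ∑ b ∈ (univ : Finset (ZMod S.P)).filter (fun b => A.q b ≤ S.H),
      ∏ j, FZ S.P S.n d (S.X (f j) ×ˢ {0}) b b ≤
      C * (S.T : ℝ) ^ (2 * d) * (8 * (S.H : ℝ) * S.XX) ^ c / ((S.H : ℝ) * (S.B : ℝ) ^ d) := by
  refine ⟨(16 * (E : ℝ)) ^ d + 2, by positivity, ?_⟩
  intro S A f hf
  obtain ⟨hn0, hnP, hnH, hPn, hPB, -, hH0⟩ := S.n_facts
  have hP0 : (0 : ℝ) < (S.P : ℝ) := by exact_mod_cast S.prime.pos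
  have hB0 : (0 : ℝ) < (S.B : ℝ) := by exact_mod_cast S.B_pos
  have hHR : (0 : ℝ) < (S.H : ℝ) := by exact_mod_cast hH0
  have hT1 : (1 : ℝ) ≤ (S.T : ℝ) := by exact_mod_cast S.T_pos
  have hXX : 0 ≤ S.XX := by
    unfold St.XX
    positivity
  set D : ℝ := (16 * (E : ℝ)) ^ d / (4 * S.H * (S.B : ℝ) ^ d) with hDdef
  have hD0 : 0 ≤ D := by
    rw [hDdef]
    positivity
  have hfac : ∀ (j : Fin c) (b : ZMod S.P), FZ S.P S.n d (S.X (f j) ×ˢ {0}) b b ≤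
      8 * (S.H : ℝ) * S.XX := by
    intro j b
    refine (FZ_le_card S.n d hn0 hnP _ b b).trans ?_
    rw [card_product, card_singleton, mul_one, S.X_card]
    exact mul_le_mul_of_nonneg_right hPn hXX
  have hnn : ∀ (j : Fin c) (b : ZMod S.P), 0 ≤ FZ S.P S.n d (S.X (f j) ×ˢ {0}) b b :=
    fun j b => FZ_nonneg S.n d _ b b
  have hprod : ∀ b : ZMod S.P, ∏ j, FZ S.P S.n d (S.X (f j) ×ˢ {0}) b b ≤
      (8 * (S.H : ℝ) * S.XX) ^ c := by
    intro b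
    calc _ ≤ ∏ _j : Fin c, 8 * (S.H : ℝ) * S.XX :=
          prod_le_prod (fun j _ => hnn j b) (fun j _ => hfac j b)
      _ = _ := by rw [prod_const, card_univ, Fintype.card_fin]
  -- the good set
  let G : Finset (ZMod S.P) := (Icc 1 (S.T ^ d) ×ˢ range (S.T ^ d + 1)).biUnion
    fun z => (univ : Finset (ZMod S.P)).filter fun b => |(b.val : ℝ) / S.P - (z.2 : ℝ) / z.1| ≤ D
  have hsub : ∀ b : ZMod S.P, A.q b ≤ S.H → ∏ j, FZ S.P S.n d (S.X (f j) ×ˢ {0}) b b ≠ 0 → b ∈ G := by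
    intro b hq hb
    rw [prod_ne_zero_iff] at hb
    have hne : f ⟨0, by omega⟩ ≠ f ⟨1, by omega⟩ := by
      intro he
      have := hf he
      simp [Fin.ext_iff] at this
    obtain ⟨r1, r2⟩ := LowGam_one S A _ _ hne b hq (hb _ (mem_univ _)) (hb _ (mem_univ _))
    rw [mem_biUnion]
    refine ⟨(A.q b, A.c b), ?_, ?_⟩
    · rw [mem_product, mem_Icc, mem_range]
      refine ⟨⟨A.qpos b, r1⟩, ?_⟩
      have := A.cle b
      show A.c b < S.T ^ d + 1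
      omega
    · rw [mem_filter]
      exact ⟨mem_univ _, r2⟩
  have hG : (G.card : ℝ) ≤ (S.T : ℝ) ^ d * ((S.T : ℝ) ^ d + 1) * (2 * S.P * D + 1) := by
    have h1 : (G.card : ℝ) ≤ ∑ z ∈ Icc 1 (S.T ^ d) ×ˢ range (S.T ^ d + 1),
        (((univ : Finset (ZMod S.P)).filter
          fun b => |(b.val : ℝ) / S.P - (z.2 : ℝ) / z.1| ≤ D).card : ℝ) := by
      exact_mod_cast card_biUnion_le
    refine h1.trans ?_
    calc _ ≤ ∑ _z ∈ Icc 1 (S.T ^ d) ×ˢ range (S.T ^ d + 1), (2 * (S.P : ℝ) * D + 1) :=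
          sum_le_sum fun z _ => LowGam_count S.P _ D hD0
      _ = _ := by
        rw [sum_const, nsmul_eq_mul, card_product, Nat.card_Icc, card_range]
        push_cast
        ring
  have hsum : ∑ b ∈ (univ : Finset (ZMod S.P)).filter (fun b => A.q b ≤ S.H),
      ∏ j, FZ S.P S.n d (S.X (f j) ×ˢ {0}) b b ≤ G.card * (8 * (S.H : ℝ) * S.XX) ^ c := by
    calc _ ≤ ∑ b ∈ (univ : Finset (ZMod S.P)).filter (fun b => A.q b ≤ S.H),
          (if b ∈ G then (8 * (S.H : ℝ) * S.XX) ^ c else 0) := by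
          refine sum_le_sum fun b hb => ?_
          rw [mem_filter] at hb
          by_cases hbG : b ∈ G
          · rw [if_pos hbG]
            exact hprod b
          · rw [if_neg hbG]
            by_contra hcon
            exact hbG (hsub b hb.2 (fun h0 => hcon (by rw [h0])))
      _ ≤ ∑ b : ZMod S.P, (if b ∈ G then (8 * (S.H : ℝ) * S.XX) ^ c else 0) :=
          sum_le_sum_of_subset_of_nonneg (filter_subset _ _) fun b _ _ => by
            split_ifs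
            · positivity
            · exact le_rfl
      _ = _ := by
        rw [sum_ite_mem, univ_inter, sum_const, nsmul_eq_mul]
  have hPB' : (S.H : ℝ) * (S.B : ℝ) ^ d ≤ S.P := by
    have h1 : S.H * S.B ^ d ≤ S.P := by
      have h2 : 1 * (S.H * S.B ^ d) ≤ 8 * (s + 2) * (S.H * S.B ^ d) :=
        Nat.mul_le_mul_right _ (by omega)
      have h3 : 8 * (s + 2) * (S.H * S.B ^ d) = 8 * (s + 2) * S.H * S.B ^ d := by ring
      omega
    exact_mod_cast h1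
  have hnum : (S.T : ℝ) ^ d * ((S.T : ℝ) ^ d + 1) * (2 * S.P * D + 1) ≤
      ((16 * (E : ℝ)) ^ d + 2) * (S.T : ℝ) ^ (2 * d) * (S.P / ((S.H : ℝ) * (S.B : ℝ) ^ d)) := by
    have hTd : (1 : ℝ) ≤ (S.T : ℝ) ^ d := one_le_pow₀ hT1
    have h1 : (S.T : ℝ) ^ d * ((S.T : ℝ) ^ d + 1) ≤ 2 * (S.T : ℝ) ^ (2 * d) := by
      have : (S.T : ℝ) ^ (2 * d) = (S.T : ℝ) ^ d * (S.T : ℝ) ^ d := by rw [two_mul, pow_add]
      rw [this]
      nlinarith
    have h2 : 2 * S.P * D + 1 ≤ ((16 * (E : ℝ)) ^ d / 2 + 1) * (S.P / ((S.H : ℝ) * (S.B : ℝ) ^ d)) := by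
      have h3 : 1 ≤ S.P / ((S.H : ℝ) * (S.B : ℝ) ^ d) := by
        rw [le_div_iff₀ (by positivity), one_mul]
        exact hPB'
      have h4 : 2 * S.P * D = (16 * (E : ℝ)) ^ d / 2 * (S.P / ((S.H : ℝ) * (S.B : ℝ) ^ d)) := by
        rw [hDdef]
        field_simp
        ring
      rw [h4, add_mul, one_mul]
      linarith
    calc _ ≤ (2 * (S.T : ℝ) ^ (2 * d)) *
          (((16 * (E : ℝ)) ^ d / 2 + 1) * (S.P / ((S.H : ℝ) * (S.B : ℝ) ^ d))) := by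
          refine mul_le_mul h1 h2 ?_ (by positivity)
          positivity
      _ = _ := by ring
  calc _ ≤ (1 / (S.P : ℝ)) * (G.card * (8 * (S.H : ℝ) * S.XX) ^ c) := by gcongr
    _ ≤ (1 / (S.P : ℝ)) * ((((16 * (E : ℝ)) ^ d + 2) * (S.T : ℝ) ^ (2 * d) *
        (S.P / ((S.H : ℝ) * (S.B : ℝ) ^ d))) * (8 * (S.H : ℝ) * S.XX) ^ c) := by
        gcongr
        exact hG.trans hnum
    _ = _ := by
      field_simp

end Pool.Agent.Lib.MP_e426f4_ag.DH
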