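import Pool.Agent.Lib.MP_e426f4_ag.DH.NPCount

/-!
# PAred: type C, all directions parallel

If all `z_j` are proportional then `(z_j).2 = (z_j).1 (z_0).2/(z_0).1`, so `z` is determined by `(x_j) = ((z_j).1)` and by `(z_0).2`; given `(z_0).1 = t y` the number `(z_0).2 = t' y` takes at
most `T` values.  Drop the second equation.  `cnt1` with `Z_j = X (f j) ×ˢ {0}`: `0^d = 0`.
-/

set_option autoImplicit false

namespace Pool.Agent.Lib.MP_e426f4_ag.DH

open Finset
open Pool.Agent.Lib.MP_e426f4_ag.DG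

open Classical in
private theorem PAred_fib {d g h s m v E : ℕ} (S : St d g h s m v E) (c : ℕ) (hc : 1 ≤ c)
    (f : Fin c → Fin s) (w : Fin c → ℕ × ℕ) :
    (((Fintype.piFinset fun j => S.ZC (f j)).filter (fun z => Par z)).filter
      (fun z => (fun j => ((z j).1, 0)) = w)).card ≤ S.T := by
  rcases Finset.eq_empty_or_nonempty (((Fintype.piFinset fun j => S.ZC (f j)).filter
    (fun z => Par z)).filter (fun z => (fun j => ((z j).1, 0)) = w)) with he | ⟨z0, hz0⟩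
  · rw [he]
    exact Nat.zero_le _
  · obtain ⟨o⟩ : Nonempty (Fin c) := ⟨⟨0, hc⟩⟩
    simp only [mem_filter, Fintype.mem_piFinset] at hz0
    obtain ⟨⟨hz1, -⟩, hz3⟩ := hz0
    obtain ⟨t0, q0, l0, t0', ht0, hq0, hl0, -, he0⟩ := (S.ZC_mem (f o) (z0 o)).1 (hz1 o)
    refine le_trans (Finset.card_le_card_of_injOn (fun z => (z o).2)
      (t := S.I.image (fun t' => t' * (q0 * l0))) ?_ ?_) (card_image_le.trans S.I_card_le)
    · intro z hz
      simp only [coe_filter, mem_filter, Fintype.mem_piFinset, Set.mem_ofPred_eq] at hz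
      obtain ⟨⟨hz4, -⟩, hz5⟩ := hz
      obtain ⟨t, q, l, t', ht, hq, hl, ht', hze⟩ := (S.ZC_mem (f o) (z o)).1 (hz4 o)
      have e1 : (z o).1 = (z0 o).1 := by
        have e2 := congrFun (hz5.trans hz3.symm) o
        exact (Prod.mk.injEq _ _ _ _ ▸ e2 : _ ∧ _).1
      rw [hze, he0] at e1
      obtain ⟨-, rfl, rfl⟩ := S.uniq ht hq hl ht0 hq0 hl0 e1
      simp only [coe_image, Set.mem_image, mem_coe]
      exact ⟨t', ht', by rw [hze]⟩
    · intro z hz z' hz' hzz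
      simp only [coe_filter, mem_filter, Fintype.mem_piFinset, Set.mem_ofPred_eq] at hz hz'
      obtain ⟨⟨hz4, hp⟩, hz5⟩ := hz
      obtain ⟨⟨-, hp'⟩, hz5'⟩ := hz'
      have e1 : ∀ j, (z j).1 = (z' j).1 := fun j => by
        have e2 := congrFun (hz5.trans hz5'.symm) j
        exact (Prod.mk.injEq _ _ _ _ ▸ e2 : _ ∧ _).1
      have e0 : (z o).2 = (z' o).2 := hzz
      have hpos : 0 < (z o).1 := by
        obtain ⟨t, q, l, t', ht, hq, hl, ht', hze⟩ := (S.ZC_mem (f o) (z o)).1 (hz4 o)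
        have := (S.X_bounds (f o) (t * (q * l)) ((S.X_mem (f o) _).2 ⟨t, q, l, ht, hq, hl, rfl⟩)).1
        rw [hze]
        exact this
      funext j
      refine Prod.ext (e1 j) ?_
      refine Nat.eq_of_mul_eq_mul_left hpos ?_
      rw [hp o j, e0, e1 j, e1 o, hp' o j]

open Classical in
theorem pa_count {d g h s m v E : ℕ} (S : St d g h s m v E) (c : ℕ) (hc : 1 ≤ c)
    (f : Fin c → Fin s) :
    ∑ z ∈ (Fintype.piFinset fun j => S.ZC (f j)).filter (fun z => Par z),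
      ((((Fintype.piFinset fun _ : Fin c => Ioo (-(S.H : ℤ)) S.H)).filter
      fun a : Fin c → ℤ => ∑ j, a j * ((z j).1 : ℤ) ^ d = 0 ∧
        ∑ j, a j * ((z j).2 : ℤ) ^ d = 0).card : ℝ) ≤
      (S.T : ℝ) * cnt1 S.H d (fun j => S.X (f j) ×ˢ {0}) := by
  have hd : d ≠ 0 := by
    have := S.nums.1
    omega
  have hstep : ∀ z : Fin c → ℕ × ℕ,
      ((((Fintype.piFinset fun _ : Fin c => Ioo (-(S.H : ℤ)) S.H)).filter
      fun a : Fin c → ℤ => ∑ j, a j * ((z j).1 : ℤ) ^ d = 0 ∧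
        ∑ j, a j * ((z j).2 : ℤ) ^ d = 0).card : ℝ) ≤
      ((((Fintype.piFinset fun _ : Fin c => Ioo (-(S.H : ℤ)) S.H)).filter
      fun a : Fin c → ℤ => ∑ j, a j * ((((fun j => ((z j).1, 0)) : Fin c → ℕ × ℕ) j).1 ^ d -
        ((((fun j => ((z j).1, 0)) : Fin c → ℕ × ℕ) j).2 : ℤ) ^ d) = 0).card : ℝ) := by
    intro z
    refine Nat.cast_le.2 (card_le_card fun a ha => ?_)
    rw [mem_filter] at ha ⊢
    refine ⟨ha.1, ?_⟩
    rw [← ha.2.1]
    refine sum_congr rfl fun j _ => ?_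
    simp [zero_pow hd]
  refine (sum_le_sum fun z _ => hstep z).trans ?_
  rw [cnt1, mul_sum]
  rw [← sum_fiberwise_of_maps_to (s := (Fintype.piFinset fun j => S.ZC (f j)).filter
    (fun z => Par z)) (t := Fintype.piFinset fun j => S.X (f j) ×ˢ {0})
    (g := fun z : Fin c → ℕ × ℕ => fun j => ((z j).1, 0))]
  · refine sum_le_sum fun w _ => ?_
    refine (sum_le_card_nsmul _ _ (((((Fintype.piFinset fun _ : Fin c =>
      Ioo (-(S.H : ℤ)) S.H)).filter fun a : Fin c → ℤ =>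
        ∑ j, a j * (((w j).1 : ℤ) ^ d - ((w j).2 : ℤ) ^ d) = 0).card : ℝ)) ?_).trans ?_
    · intro z hz
      rw [mem_filter] at hz
      rw [← hz.2]
    · rw [nsmul_eq_mul]
      exact mul_le_mul_of_nonneg_right (Nat.cast_le.2 (PAred_fib S c hc f w)) (Nat.cast_nonneg _)
  · intro z hz
    rw [mem_filter, Fintype.mem_piFinset] at hz
    rw [Fintype.mem_piFinset]
    intro j
    obtain ⟨t, q, l, t', ht, hq, hl, ht', hze⟩ := (S.ZC_mem (f j) (z j)).1 (hz.1 j)
    rw [mem_product]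
    refine ⟨?_, mem_singleton_self _⟩
    show (z j).1 ∈ S.X (f j)
    rw [hze]
    exact (S.X_mem (f j) _).2 ⟨t, q, l, ht, hq, hl, rfl⟩

end Pool.Agent.Lib.MP_e426f4_ag.DH
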