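import Pool.Agent.Lib.MP_e426f4_ag.DH.NPCount
import Pool.Agent.Lib.MP_e426f4_ag.DH.PAred
import Pool.Agent.Lib.MP_e426f4_ag.DH.LowGam
import Pool.Agent.Lib.MP_e426f4_ag.DH.HighGam
import Pool.Agent.Lib.MP_e426f4_ag.DH.Mom
import Pool.Agent.Lib.MP_e426f4_ag.DG.ArcEx

/-!
# CountC: the count for type C

`c = c'+2`, `c' = 2h-g-8 ≥ 3g+4`.  `cnt2 = np + pa` (split by `Par`), `np_count` (`3 ≤ c`), `pa_count`, `cnt1_le`, and the sum over `b` split into LOW (`low_gam`) and HIGH (`high_gam`)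
for an arc system `A` (`exists_arc`).  Target `C R^(..m) H^(c') B^(c'+2-g)/V`, `c'+2-g = 2h-2g-6`:
 * NP: `T^(2c) B^c (2H)^(c-3)`: need `B^(c'+2) V ≤ C H B^(2h-2g-6)`, i.e. `B^g V ≤ C B^h ≤ C H`: `g+1 ≤ h`.
 * LOW: `C T^(2d) (8 H XX)^c/(H B^d)`, `XX ≤ B`: `H^(c'+1) B^(c'+2-d)`; `H ≤ 2^(vdh) B^h` (`HB`; the constant may depend on `v`): `H^(c') B^(c'+2-d+h)` and `h - d = -g-1`: `B^(-1)` against `1/V`.
 * HIGH: `C B² (R H √(MB))^(c')`: need `B² (MB)^(c'/2) V ≤ C B^(c'+2-g)`, i.e. `(MB)^(c') V² B^(2g) ≤ C B^(2c')`: exponent of `V`: `c'(g+1+d) + 2 + 2gd ≤ 2dc'` iff `2gd + 2 ≤ c' h`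
   (true: `c' h - 2 g d ≥ 2` for `2g+6 ≤ h ≤ 2g+8`, `d = g+1+h`, `c' = 2h-g-8`).
-/

set_option autoImplicit false

namespace Pool.Agent.Lib.MP_e426f4_ag.DH

open Finset
open Pool.Agent.Lib.MP_e426f4_ag.DG

private lemma cC_VB {d g h s m v E : ℕ} (S : St d g h s m v E) : (S.V : ℝ) ≤ S.B := by
  have h1 := S.V_pos
  have h2 := S.nums.1
  have h3 : S.V ≤ S.B := by
    rw [S.B_eqV]
    calc S.V = S.V ^ 1 := (pow_one _).symm
      _ ≤ S.V ^ d := Nat.pow_le_pow_right h1 h2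
      _ ≤ 16 * S.V ^ d := by omega
  exact_mod_cast h3

private lemma cC_np {d g h s m v E : ℕ} (S : St d g h s m v E) (c' : ℕ) (hc : c' = 2 * h - g - 8) :
    ((S.T : ℝ) ^ 2 * S.B) ^ (c' + 2) * (2 * (S.H : ℝ)) ^ (c' + 2 - 3) ≤
      2 ^ c' * ((S.R : ℝ) ^ (2 * cL d s * m) * (S.H : ℝ) ^ c' *
        (S.B : ℝ) ^ (2 * h - 2 * g - 6) / S.V) := by
  have hh1 := S.hh1
  have hdg := S.hdg
  have hVB := cC_VB S
  have hB : (1 : ℝ) ≤ S.B := by exact_mod_cast S.B_pos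
  have hV : (1 : ℝ) ≤ S.V := by exact_mod_cast S.V_pos
  have hR : (1 : ℝ) ≤ S.R := by exact_mod_cast S.R_pos
  have hBH : (S.B : ℝ) ^ h ≤ S.H := by exact_mod_cast S.BH
  have hH : (0 : ℝ) ≤ S.H := by positivity
  have hV0 : (0 : ℝ) < S.V := by linarith
  obtain ⟨k, hk⟩ : ∃ k, c' = k + 1 := ⟨c' - 1, by omega⟩
  have hT : ((S.T : ℝ) ^ 2) ^ (c' + 2) ≤ (S.R : ℝ) ^ (2 * cL d s * m) := by
    have e1 : (S.T : ℝ) = (S.R : ℝ) ^ m := by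
      unfold St.T
      push_cast
      rfl
    rw [e1, ← pow_mul, ← pow_mul]
    apply pow_le_pow_right₀ hR
    have h1 : 2 * (c' + 2) ≤ 2 * cL d s := by
      unfold cL
      omega
    calc m * (2 * (c' + 2)) = 2 * (c' + 2) * m := by ring
      _ ≤ 2 * cL d s * m := Nat.mul_le_mul_right _ h1
  have hkey : (S.B : ℝ) ^ (c' + 2) * S.V ≤ (S.B : ℝ) ^ (2 * h - 2 * g - 6) * S.H := by
    have e1 : c' + 2 = (2 * h - 2 * g - 6) + g := by omega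
    rw [e1, pow_add, mul_assoc]
    apply mul_le_mul_of_nonneg_left _ (by positivity)
    calc (S.B : ℝ) ^ g * S.V ≤ (S.B : ℝ) ^ g * S.B := mul_le_mul_of_nonneg_left hVB (by positivity)
      _ = (S.B : ℝ) ^ (g + 1) := by rw [pow_succ]
      _ ≤ (S.B : ℝ) ^ h := pow_le_pow_right₀ hB (by omega)
      _ ≤ S.H := hBH
  have e2 : c' + 2 - 3 = k := by omega
  rw [e2, ← mul_div_assoc, le_div_iff₀ hV0, mul_pow, mul_pow, hk, pow_succ (S.H : ℝ) k,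
    pow_succ (2 : ℝ) k]
  rw [hk] at hkey hT
  have h5 : (0 : ℝ) ≤ (S.H : ℝ) ^ k := by positivity
  have h6 : (0 : ℝ) ≤ (S.R : ℝ) ^ (2 * cL d s * m) := by positivity
  have h7 : (0 : ℝ) ≤ (S.B : ℝ) ^ (2 * h - 2 * g - 6) * S.H := by positivity
  calc ((S.T : ℝ) ^ 2) ^ (k + 1 + 2) * (S.B : ℝ) ^ (k + 1 + 2) * (2 ^ k * (S.H : ℝ) ^ k) * S.V
      = (2 ^ k * (S.H : ℝ) ^ k) * (((S.T : ℝ) ^ 2) ^ (k + 1 + 2) *
          ((S.B : ℝ) ^ (k + 1 + 2) * S.V)) := by ring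
    _ ≤ (2 ^ k * (S.H : ℝ) ^ k) * ((S.R : ℝ) ^ (2 * cL d s * m) *
          ((S.B : ℝ) ^ (2 * h - 2 * g - 6) * S.H)) :=
        mul_le_mul_of_nonneg_left (mul_le_mul hT hkey (by positivity) h6) (by positivity)
    _ ≤ (2 ^ k * 2 * (S.H : ℝ) ^ k) * ((S.R : ℝ) ^ (2 * cL d s * m) *
          ((S.B : ℝ) ^ (2 * h - 2 * g - 6) * S.H)) := by
        apply mul_le_mul_of_nonneg_right _ (mul_nonneg h6 h7)
        have h8 : (0 : ℝ) ≤ 2 ^ k * (S.H : ℝ) ^ k := by positivity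
        nlinarith
    _ = 2 ^ k * 2 * ((S.R : ℝ) ^ (2 * cL d s * m) * ((S.H : ℝ) ^ k * S.H) *
          (S.B : ℝ) ^ (2 * h - 2 * g - 6)) := by ring

private lemma cC_low {d g h s m v E : ℕ} (S : St d g h s m v E) (c' : ℕ)
    (hc : c' = 2 * h - g - 8) :
    (S.T : ℝ) * ((S.T : ℝ) ^ (2 * d) * (8 * (S.H : ℝ) * S.XX) ^ (c' + 2) /
      ((S.H : ℝ) * (S.B : ℝ) ^ d)) ≤
      (8 ^ (c' + 2) * 2 ^ (v * d * h)) * ((S.R : ℝ) ^ (2 * cL d s * m) * (S.H : ℝ) ^ c' *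
        (S.B : ℝ) ^ (2 * h - 2 * g - 6) / S.V) := by
  have hh1 := S.hh1
  have hdg := S.hdg
  have hVB := cC_VB S
  have hB : (1 : ℝ) ≤ S.B := by exact_mod_cast S.B_pos
  have hV : (1 : ℝ) ≤ S.V := by exact_mod_cast S.V_pos
  have hR : (1 : ℝ) ≤ S.R := by exact_mod_cast S.R_pos
  have hHB : (S.H : ℝ) ≤ 2 ^ (v * d * h) * (S.B : ℝ) ^ h := by exact_mod_cast S.HB
  have hH : (0 : ℝ) < S.H := by exact_mod_cast S.n_facts.2.2.2.2.2.2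
  have hV0 : (0 : ℝ) < S.V := by linarith
  have hB0 : (0 : ℝ) < S.B := by linarith
  have hXX := S.XX_bounds.2 
  have hXX0 : 0 ≤ S.XX := by
    unfold St.XX
    positivity
  have hT : (S.T : ℝ) * (S.T : ℝ) ^ (2 * d) ≤ (S.R : ℝ) ^ (2 * cL d s * m) := by
    have e1 : (S.T : ℝ) = (S.R : ℝ) ^ m := by
      unfold St.T
      push_cast
      rfl
    rw [← pow_succ', e1, ← pow_mul]
    apply pow_le_pow_right₀ hR
    have h1 : 2 * d + 1 ≤ 2 * cL d s := by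
      unfold cL
      omega
    calc m * (2 * d + 1) = (2 * d + 1) * m := by ring
      _ ≤ 2 * cL d s * m := Nat.mul_le_mul_right _ h1
  have h1 : (8 * (S.H : ℝ) * S.XX) ^ (c' + 2) ≤
      8 ^ (c' + 2) * ((S.H : ℝ) ^ c' * S.H * S.H) * (S.B : ℝ) ^ (c' + 2) := by
    calc (8 * (S.H : ℝ) * S.XX) ^ (c' + 2) ≤ (8 * (S.H : ℝ) * S.B) ^ (c' + 2) :=
          pow_le_pow_left₀ (by positivity) (mul_le_mul_of_nonneg_left hXX (by positivity)) _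
      _ = _ := by rw [mul_pow, mul_pow]; ring
  have h2 : (8 * (S.H : ℝ) * S.XX) ^ (c' + 2) / ((S.H : ℝ) * (S.B : ℝ) ^ d) ≤
      8 ^ (c' + 2) * 2 ^ (v * d * h) * ((S.H : ℝ) ^ c' * (S.B : ℝ) ^ (2 * h - 2 * g - 6) / S.V) := by
    rw [div_le_iff₀ (by positivity)]
    have h3 : (S.B : ℝ) ^ (c' + 2) * (S.B : ℝ) ^ h * S.V ≤
        (S.B : ℝ) ^ (2 * h - 2 * g - 6) * (S.B : ℝ) ^ d := by
      calc (S.B : ℝ) ^ (c' + 2) * (S.B : ℝ) ^ h * S.V ≤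
            (S.B : ℝ) ^ (c' + 2) * (S.B : ℝ) ^ h * S.B :=
            mul_le_mul_of_nonneg_left hVB (by positivity)
        _ = (S.B : ℝ) ^ (c' + 2 + h + 1) := by rw [pow_succ _ (c' + 2 + h), pow_add _ (c' + 2) h]
        _ = (S.B : ℝ) ^ ((2 * h - 2 * g - 6) + d) := by
            congr 1
            omega
        _ = _ := by rw [pow_add]
    calc (8 * (S.H : ℝ) * S.XX) ^ (c' + 2) ≤
          8 ^ (c' + 2) * ((S.H : ℝ) ^ c' * S.H * S.H) * (S.B : ℝ) ^ (c' + 2) := h1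
      _ = 8 ^ (c' + 2) * ((S.H : ℝ) ^ c' * S.H) * (S.B : ℝ) ^ (c' + 2) * S.H := by ring
      _ ≤ 8 ^ (c' + 2) * ((S.H : ℝ) ^ c' * S.H) * (S.B : ℝ) ^ (c' + 2) *
            (2 ^ (v * d * h) * (S.B : ℝ) ^ h) := mul_le_mul_of_nonneg_left hHB (by positivity)
      _ = 8 ^ (c' + 2) * 2 ^ (v * d * h) * ((S.H : ℝ) ^ c' *
            ((S.B : ℝ) ^ (c' + 2) * (S.B : ℝ) ^ h * S.V) / S.V) * S.H := by
            field_simp
      _ ≤ 8 ^ (c' + 2) * 2 ^ (v * d * h) * ((S.H : ℝ) ^ c' *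
            ((S.B : ℝ) ^ (2 * h - 2 * g - 6) * (S.B : ℝ) ^ d) / S.V) * S.H := by
            gcongr
      _ = _ := by ring
  calc (S.T : ℝ) * ((S.T : ℝ) ^ (2 * d) * (8 * (S.H : ℝ) * S.XX) ^ (c' + 2) /
      ((S.H : ℝ) * (S.B : ℝ) ^ d)) = ((S.T : ℝ) * (S.T : ℝ) ^ (2 * d)) *
        ((8 * (S.H : ℝ) * S.XX) ^ (c' + 2) / ((S.H : ℝ) * (S.B : ℝ) ^ d)) := by ring
    _ ≤ (S.R : ℝ) ^ (2 * cL d s * m) * (8 ^ (c' + 2) * 2 ^ (v * d * h) *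
        ((S.H : ℝ) ^ c' * (S.B : ℝ) ^ (2 * h - 2 * g - 6) / S.V)) :=
        mul_le_mul hT h2 (by positivity) (by positivity)
    _ = _ := by ring

private lemma cC_exp (d g h c' : ℕ) (h1 : d = g + 1 + h) (h2 : 2 * g + 6 ≤ h) (h3 : h ≤ 2 * g + 8)
    (hc : c' = 2 * h - g - 8) : (g + 1) * c' + 2 ≤ d * (c' - 2 * g) := by
  obtain ⟨i, hi⟩ : ∃ i, h = 2 * g + 6 + i := ⟨h - (2 * g + 6), by omega⟩
  have hi2 : i ≤ 2 := by omega
  have hc' : c' = 3 * g + 4 + 2 * i := by omega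
  have hc2 : c' - 2 * g = g + 4 + 2 * i := by omega
  rw [hc2, hc', h1, hi]
  interval_cases i <;> nlinarith

private lemma cC_high {d g h s m v E : ℕ} (S : St d g h s m v E) (c' : ℕ)
    (hc : c' = 2 * h - g - 8) :
    (S.T : ℝ) * ((S.B : ℝ) ^ 2 * ((S.R : ℝ) * S.H * Real.sqrt ((S.M : ℝ) * S.B)) ^ c') ≤
      (S.R : ℝ) ^ (2 * cL d s * m) * (S.H : ℝ) ^ c' *
        (S.B : ℝ) ^ (2 * h - 2 * g - 6) / S.V := by
  have hh1 := S.hh1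
  have hdg := S.hdg
  have hVB := cC_VB S
  have hB : (1 : ℝ) ≤ S.B := by exact_mod_cast S.B_pos
  have hV : (1 : ℝ) ≤ S.V := by exact_mod_cast S.V_pos
  have hR : (1 : ℝ) ≤ S.R := by exact_mod_cast S.R_pos
  have hH : (0 : ℝ) < S.H := by exact_mod_cast S.n_facts.2.2.2.2.2.2
  have hV0 : (0 : ℝ) < S.V := by linarith
  have hB0 : (0 : ℝ) < S.B := by linarith
  have hT : (S.T : ℝ) * (S.R : ℝ) ^ c' ≤ (S.R : ℝ) ^ (2 * cL d s * m) := by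
    have e1 : (S.T : ℝ) = (S.R : ℝ) ^ m := by
      unfold St.T
      push_cast
      rfl
    rw [e1, ← pow_add]
    apply pow_le_pow_right₀ hR
    have h1 : 1 + c' ≤ 2 * cL d s := by
      unfold cL
      omega
    have hm := S.hm
    calc m + c' ≤ m + c' * m := by nlinarith
      _ = (1 + c') * m := by ring
      _ ≤ 2 * cL d s * m := Nat.mul_le_mul_right _ h1
  have hM0 : (0 : ℝ) ≤ (S.M : ℝ) := by positivity
  set x := Real.sqrt ((S.M : ℝ) * S.B) ^ c' with hx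
  have hx0 : 0 ≤ x := pow_nonneg (Real.sqrt_nonneg _) _
  have hx2 : x ^ 2 = ((S.M : ℝ) * S.B) ^ c' := by
    rw [hx, ← pow_mul, mul_comm c' 2, pow_mul, Real.sq_sqrt (by positivity)]
  have hBV : (S.V : ℝ) ^ d ≤ S.B := by
    have h3 : S.V ^ d ≤ S.B := by
      rw [S.B_eqV]
      omega
    exact_mod_cast h3
  have hM : (S.M : ℝ) = (S.V : ℝ) ^ (g + 1) := by
    rw [S.M_eq]
    push_cast
    rfl
  have hVe : (S.V : ℝ) ^ ((g + 1) * c' + 2) ≤ (S.B : ℝ) ^ (c' - 2 * g) := by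
    calc (S.V : ℝ) ^ ((g + 1) * c' + 2) ≤ (S.V : ℝ) ^ (d * (c' - 2 * g)) :=
          pow_le_pow_right₀ hV (cC_exp d g h c' hdg hh1 S.hh2 hc)
      _ = ((S.V : ℝ) ^ d) ^ (c' - 2 * g) := by rw [pow_mul]
      _ ≤ (S.B : ℝ) ^ (c' - 2 * g) := pow_le_pow_left₀ (by positivity) hBV _
  have hsq : ((S.B : ℝ) ^ 2 * x * S.V) ^ 2 ≤ ((S.B : ℝ) ^ (2 * h - 2 * g - 6)) ^ 2 := by
    calc ((S.B : ℝ) ^ 2 * x * S.V) ^ 2 = (S.B : ℝ) ^ 4 * x ^ 2 * (S.V : ℝ) ^ 2 := by ring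
      _ = (S.B : ℝ) ^ 4 * (S.B : ℝ) ^ c' * (S.V : ℝ) ^ ((g + 1) * c' + 2) := by
          rw [hx2, mul_pow, hM, pow_add (S.V : ℝ) ((g + 1) * c') 2, pow_mul]
          ring
      _ ≤ (S.B : ℝ) ^ 4 * (S.B : ℝ) ^ c' * (S.B : ℝ) ^ (c' - 2 * g) :=
          mul_le_mul_of_nonneg_left hVe (by positivity)
      _ = (S.B : ℝ) ^ (4 + c' + (c' - 2 * g)) := by rw [pow_add, pow_add]
      _ = (S.B : ℝ) ^ ((2 * h - 2 * g - 6) * 2) := by
          congr 1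
          omega
      _ = _ := by rw [pow_mul]
  have hkey : (S.B : ℝ) ^ 2 * x * S.V ≤ (S.B : ℝ) ^ (2 * h - 2 * g - 6) :=
    le_of_sq_le_sq hsq (by positivity)
  rw [le_div_iff₀ hV0, mul_pow, mul_pow]
  calc (S.T : ℝ) * ((S.B : ℝ) ^ 2 * ((S.R : ℝ) ^ c' * (S.H : ℝ) ^ c' * x)) * S.V =
        ((S.T : ℝ) * (S.R : ℝ) ^ c') * (S.H : ℝ) ^ c' * ((S.B : ℝ) ^ 2 * x * S.V) := by ring
    _ ≤ (S.R : ℝ) ^ (2 * cL d s * m) * (S.H : ℝ) ^ c' * (S.B : ℝ) ^ (2 * h - 2 * g - 6) := by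
        gcongr

theorem count_C (d g h s m v E : ℕ) : ∃ C : ℝ, 0 < C ∧ ∀ (S : St d g h s m v E)
    (f : Fin (2 * h - g - 8 + 2) → Fin s), Function.Injective f →
    cnt2 S.H d (fun j => S.ZC (f j)) ≤
      C * (S.R : ℝ) ^ (2 * cL d s * m) * (S.H : ℝ) ^ (2 * h - g - 8) *
        (S.B : ℝ) ^ (2 * h - 2 * g - 6) / S.V := by
  classical
  obtain ⟨C1, hC1, hlow⟩ := low_gam d g h s m v E (2 * h - g - 8 + 2) (by omega)
  obtain ⟨C2, hC2, hhigh⟩ := high_gam d g h s m v E (2 * h - g - 8)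
  refine ⟨2 ^ (2 * h - g - 8) + 2 ^ (2 * h - g - 8 + 2) *
    (C1 * (8 ^ (2 * h - g - 8 + 2) * 2 ^ (v * d * h)) + C2), by positivity, ?_⟩
  intro S f hf
  have hh1 := S.hh1
  obtain ⟨n1, n2, n3, n4, n5, n6, n7⟩ := S.n_facts
  have hPpos : 0 < S.P := S.prime.pos
  have hQ1 : 1 ≤ 4 * S.B ^ d := by
    have : 0 < S.B ^ d := pow_pos S.B_pos d
    omega
  obtain ⟨A⟩ := exists_arc S.P (4 * S.B ^ d) hPpos hQ1
  have hlow' := hlow S A f hf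
  have hhigh' := hhigh S A f hf
  have hnp := np_count S (2 * h - g - 8 + 2) (by omega) f hf
  have hpa := pa_count S (2 * h - g - 8 + 2) (by omega) f
  have hc1 := cnt1_le (k := 2 * h - g - 8 + 2) S.P S.n d S.H n7 n1 n3 n6
    (fun j => S.X (f j) ×ˢ {0})
  have hT0 : (0 : ℝ) ≤ (S.T : ℝ) := by positivity
  set tgt : ℝ := (S.R : ℝ) ^ (2 * cL d s * m) * (S.H : ℝ) ^ (2 * h - g - 8) *
        (S.B : ℝ) ^ (2 * h - 2 * g - 6) / S.V with htgt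
  have hsplit : (1 / (S.P : ℝ)) * ∑ b : ZMod S.P, ∏ j, FZ S.P S.n d (S.X (f j) ×ˢ {0}) b b =
      (1 / (S.P : ℝ)) * ∑ b ∈ (univ : Finset (ZMod S.P)).filter (fun b => A.q b ≤ S.H),
        ∏ j, FZ S.P S.n d (S.X (f j) ×ˢ {0}) b b +
      (1 / (S.P : ℝ)) * ∑ b ∈ (univ : Finset (ZMod S.P)).filter (fun b => S.H < A.q b),
        ∏ j, FZ S.P S.n d (S.X (f j) ×ˢ {0}) b b := by
    rw [← mul_add]
    congr 1
    rw [← Finset.sum_filter_add_sum_filter_not univ (fun b => A.q b ≤ S.H)]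
    congr 1
    refine Finset.sum_congr (Finset.filter_congr fun b _ => not_le) fun _ _ => rfl
  have hLOW : (S.T : ℝ) * ((1 / (S.P : ℝ)) * ∑ b ∈ (univ : Finset (ZMod S.P)).filter
      (fun b => A.q b ≤ S.H), ∏ j, FZ S.P S.n d (S.X (f j) ×ˢ {0}) b b) ≤
      C1 * (8 ^ (2 * h - g - 8 + 2) * 2 ^ (v * d * h)) * tgt := by
    refine (mul_le_mul_of_nonneg_left hlow' hT0).trans ?_
    have h1 := mul_le_mul_of_nonneg_left (cC_low S (2 * h - g - 8) rfl) hC1.le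
    calc _ = C1 * ((S.T : ℝ) * ((S.T : ℝ) ^ (2 * d) * (8 * (S.H : ℝ) * S.XX) ^ (2 * h - g - 8 + 2) /
          ((S.H : ℝ) * (S.B : ℝ) ^ d))) := by ring
      _ ≤ _ := h1
      _ = _ := by rw [htgt]; ring
  have hHIGH : (S.T : ℝ) * ((1 / (S.P : ℝ)) * ∑ b ∈ (univ : Finset (ZMod S.P)).filter
      (fun b => S.H < A.q b), ∏ j, FZ S.P S.n d (S.X (f j) ×ˢ {0}) b b) ≤ C2 * tgt := by
    refine (mul_le_mul_of_nonneg_left hhigh' hT0).trans ?_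
    have h1 := mul_le_mul_of_nonneg_left (cC_high S (2 * h - g - 8) rfl) hC2.le
    calc _ = C2 * ((S.T : ℝ) * ((S.B : ℝ) ^ 2 *
          ((S.R : ℝ) * S.H * Real.sqrt ((S.M : ℝ) * S.B)) ^ (2 * h - g - 8))) := by ring
      _ ≤ _ := h1
  have hPA : ∑ z ∈ (Fintype.piFinset fun j => S.ZC (f j)).filter (fun z => Par z),
      ((((Fintype.piFinset fun _ : Fin (2 * h - g - 8 + 2) => Ioo (-(S.H : ℤ)) S.H)).filter
      fun a : Fin (2 * h - g - 8 + 2) → ℤ => ∑ j, a j * ((z j).1 : ℤ) ^ d = 0 ∧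
        ∑ j, a j * ((z j).2 : ℤ) ^ d = 0).card : ℝ) ≤
      2 ^ (2 * h - g - 8 + 2) *
        (C1 * (8 ^ (2 * h - g - 8 + 2) * 2 ^ (v * d * h)) + C2) * tgt := by
    refine hpa.trans ((mul_le_mul_of_nonneg_left hc1 hT0).trans ?_)
    rw [hsplit]
    have h2 : (0 : ℝ) ≤ 2 ^ (2 * h - g - 8 + 2) := by positivity
    have h3 := mul_le_mul_of_nonneg_left (add_le_add hLOW hHIGH) h2
    calc _ = _ := by ring
      _ ≤ _ := h3
      _ = _ := by ring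
  have hNP := hnp.trans (cC_np S (2 * h - g - 8) rfl)
  unfold cnt2
  rw [← Finset.sum_filter_add_sum_filter_not (Fintype.piFinset fun j => S.ZC (f j))
    (fun z => Par z)]
  have hfin := add_le_add hPA hNP
  refine hfin.trans (le_of_eq ?_)
  rw [htgt]
  ring

end Pool.Agent.Lib.MP_e426f4_ag.DH
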