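import Pool.Agent.Lib.MP_e426f4_ag.DH.CountA
import Pool.Agent.Lib.MP_e426f4_ag.DH.CountB
import Pool.Agent.Lib.MP_e426f4_ag.DH.CountC
import Pool.Agent.Lib.MP_e426f4_ag.DH.Comb3
import Pool.Agent.Lib.MP_e426f4_ag.DH.Mom
import Pool.Agent.Lib.MP_e426f4_ag.DH.FactsX
import Pool.Agent.Lib.MP_e426f4_ag.DG.FFb
import Pool.Agent.Lib.MP_e426f4_ag.DG.Psi

/-!
# CombO: the class O (Section 6 of the proof)

`s0 = d+h+1 = g+2+2h ≤ s`, `k = g+3+2`, `c = 2h-g-8+2`, `2(k-1)+c = s0`.  `U1 = U R² H B`.  For `b, b'` in the class: `F_i(b,b') ≤ U1` (`FF_cs`),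
`F_i = A_i + B_i + C_i` (`FF_split`).  `∏_{i<s} F_i ≤ (8HX²)^(s-s0) ∏_{i<s0} F_i` (`FF_le`; use the embedding `Fin.castLE` of `Fin s0`), `comb_three` with `N = s0`, extend the sums over `b, b'`
to all frequencies (everything is non-negative), `mom_two` (`k H B^d < P`, `c H B^d < P` as `k, c ≤ s`), `count_A, count_B, count_C`, `psi ≤ 2`.  Result
`≤ C (8HX²)^(s-s0) [ U1^(s0-k) R^(2 cA m) H^(g+3) B^4 + U1^(s0-c) R^(2 cL m) H^(2h-g-8) B^(2h-2g-6)/V ]`; `s0-k = 2h-3`, `s0-c = 2g+8`.  Powers of `H`: `2h+g` both; powers of `B`: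
`2h+1` and `2h+2`; compare with `(8HX²)^{s0}/(HB^d)² ≥ c R^(-4 s0) H^(s0-2) B^(2s0-2d)`, `s0-2 = 2h+g`, `2s0-2d = 2h+2` (`XX_bounds`), `V ≤ B`.
-/

set_option autoImplicit false

namespace Pool.Agent.Lib.MP_e426f4_ag.DH

open Finset
open Pool.Agent.Lib.MP_e426f4_ag.DG

private theorem CombO_prod {N s : ℕ} (hN : N ≤ s) (f : Fin s → ℝ) (K : ℝ) (h0 : ∀ i, 0 ≤ f i)
    (h1 : ∀ i, f i ≤ K) : ∏ i, f i ≤ K ^ (s - N) * ∏ i : Fin N, f (Fin.castLE hN i) := by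
  obtain ⟨r, rfl⟩ : ∃ r, s = N + r := ⟨s - N, by omega⟩
  rw [Fin.prod_univ_add, Nat.add_sub_cancel_left, mul_comm]
  refine mul_le_mul_of_nonneg_right ?_ (Finset.prod_nonneg fun i _ => h0 _)
  calc ∏ i : Fin r, f (Fin.natAdd N i) ≤ ∏ _i : Fin r, K :=
        Finset.prod_le_prod (fun i _ => h0 _) (fun i _ => h1 _)
    _ = K ^ r := by rw [Finset.prod_const, Finset.card_univ, Fintype.card_fin]

/-- the mean over all pairs of frequencies -/
private noncomputable def CombO_mn (P : ℕ) [NeZero P] (F : ZMod P → ZMod P → ℝ) : ℝ :=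
  (1 / (P : ℝ) ^ 2) * ∑ b : ZMod P, ∑ b' : ZMod P, F b b'

private theorem CombO_mn_add (P : ℕ) [NeZero P] (F G : ZMod P → ZMod P → ℝ) :
    CombO_mn P (fun b b' => F b b' + G b b') = CombO_mn P F + CombO_mn P G := by
  unfold CombO_mn
  simp only [Finset.sum_add_distrib]
  ring

private theorem CombO_mn_mul (P : ℕ) [NeZero P] (c : ℝ) (F : ZMod P → ZMod P → ℝ) :
    CombO_mn P (fun b b' => c * F b b') = c * CombO_mn P F := by
  unfold CombO_mn
  simp only [← Finset.mul_sum]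
  ring

private theorem CombO_mn_sum (P : ℕ) [NeZero P] {ι : Type*} (T : Finset ι)
    (F : ι → ZMod P → ZMod P → ℝ) :
    CombO_mn P (fun b b' => ∑ f ∈ T, F f b b') = ∑ f ∈ T, CombO_mn P (F f) := by
  unfold CombO_mn
  rw [← Finset.mul_sum]
  congr 1
  rw [Finset.sum_comm' (t' := univ) (s' := fun _ => T) (by simp)]
  refine Finset.sum_congr rfl fun b _ => ?_
  exact Finset.sum_comm

private theorem CombO_mn_le (P : ℕ) [NeZero P] (F G : ZMod P → ZMod P → ℝ)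
    (h : ∀ b b', F b b' ≤ G b b') : CombO_mn P F ≤ CombO_mn P G := by
  unfold CombO_mn
  exact mul_le_mul_of_nonneg_left
    (Finset.sum_le_sum fun b _ => Finset.sum_le_sum fun b' _ => h b b') (by positivity)

private theorem CombO_mom {d g h s m v E : ℕ} (S : St d g h s m v E) {k : ℕ} (hk : k ≤ s)
    (Z : Fin k → Finset (ℕ × ℕ)) (i : Fin k → Fin s)
    (hZ : ∀ j, Z j ⊆ S.X (i j) ×ˢ S.X (i j)) :
    CombO_mn S.P (fun b b' => ∏ j, FZ S.P S.n d (Z j) b b') ≤ 16 ^ k * cnt2 S.H d Z := by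
  obtain ⟨h1, h2, h3, h4, h5, h6, h7⟩ := S.n_facts
  refine mom_two S.P S.n d S.H S.B h7 h1 h2 h3 h4 ?_ Z ?_
  · refine lt_of_le_of_lt ?_ h5
    have h8 : k ≤ 8 * (s + 2) := by omega
    exact Nat.mul_le_mul_right _ (Nat.mul_le_mul_right _ h8)
  · intro j z hz
    have h8 := hZ j hz
    rw [Finset.mem_product] at h8
    exact ⟨(S.X_bounds _ _ h8.1).2.1, (S.X_bounds _ _ h8.2).2.1⟩

open Classical in
/-- the pointwise bound -/
private theorem CombO_pt {d g h s m v E : ℕ} (S : St d g h s m v E)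
    (A : Arc S.P (4 * S.B ^ d)) (W J : ℕ) (U1 : ℝ) (N k c : ℕ) (hN : N ≤ s)
    (hk : 1 ≤ k) (hc : 2 * (k - 1) + c ≤ N) (b b' : ZMod S.P) (hU1 : 0 ≤ U1) :
    (if (¬ S.Maj A b ∧ ∀ i, FF S.P S.n d (S.X i) b b ≤ U1) then psi S.P W J b else 0) *
      (if (¬ S.Maj A b' ∧ ∀ i, FF S.P S.n d (S.X i) b' b' ≤ U1) then psi S.P W J b' else 0) *
      ∏ i, FF S.P S.n d (S.X i) b b' ≤
    4 * ((8 * (S.H : ℝ) * S.XX ^ 2) ^ (s - N) * (3 ^ N * (U1 ^ (N - k) *
      ∑ f ∈ (univ : Finset (Fin k → Fin N)).filter Function.Injective,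
        (∏ j, FZ S.P S.n d (S.ZA (Fin.castLE hN (f j))) b b' +
          ∏ j, FZ S.P S.n d (S.ZB (Fin.castLE hN (f j))) b b') +
      U1 ^ (N - c) *
      ∑ f ∈ (univ : Finset (Fin c → Fin N)).filter Function.Injective,
        ∏ j, FZ S.P S.n d (S.ZC (Fin.castLE hN (f j))) b b'))) := by
  obtain ⟨hn, -, -, -, -, -, -⟩ := S.n_facts
  have hX0 : (0 : ℝ) ≤ 8 * (S.H : ℝ) * S.XX ^ 2 := by positivity
  have hF0 : ∀ i, 0 ≤ FF S.P S.n d (S.X i) b b' := fun i => FZ_nonneg _ _ _ _ _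
  have hR : 0 ≤ 4 * ((8 * (S.H : ℝ) * S.XX ^ 2) ^ (s - N) * (3 ^ N * (U1 ^ (N - k) *
      ∑ f ∈ (univ : Finset (Fin k → Fin N)).filter Function.Injective,
        (∏ j, FZ S.P S.n d (S.ZA (Fin.castLE hN (f j))) b b' +
          ∏ j, FZ S.P S.n d (S.ZB (Fin.castLE hN (f j))) b b') +
      U1 ^ (N - c) *
      ∑ f ∈ (univ : Finset (Fin c → Fin N)).filter Function.Injective,
        ∏ j, FZ S.P S.n d (S.ZC (Fin.castLE hN (f j))) b b'))) := by
    have a1 : 0 ≤ ∑ f ∈ (univ : Finset (Fin k → Fin N)).filter Function.Injective,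
        (∏ j, FZ S.P S.n d (S.ZA (Fin.castLE hN (f j))) b b' +
          ∏ j, FZ S.P S.n d (S.ZB (Fin.castLE hN (f j))) b b') :=
      Finset.sum_nonneg fun f _ => add_nonneg
        (Finset.prod_nonneg fun j _ => FZ_nonneg _ _ _ _ _)
        (Finset.prod_nonneg fun j _ => FZ_nonneg _ _ _ _ _)
    have a2 : 0 ≤ ∑ f ∈ (univ : Finset (Fin c → Fin N)).filter Function.Injective,
        ∏ j, FZ S.P S.n d (S.ZC (Fin.castLE hN (f j))) b b' :=
      Finset.sum_nonneg fun f _ => Finset.prod_nonneg fun j _ => FZ_nonneg _ _ _ _ _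
    positivity
  split_ifs with hb hb'
  · have hle : ∀ i, FF S.P S.n d (S.X i) b b' ≤ U1 := by
      intro i
      have h1 := FF_cs (P := S.P) S.n d hn (S.X i) b b'
      have h2 : FF S.P S.n d (S.X i) b b' ^ 2 ≤ U1 ^ 2 := by
        refine h1.trans ?_
        rw [sq U1]
        exact mul_le_mul (hb.2 i) (hb'.2 i) (FZ_nonneg _ _ _ _ _) hU1
      exact le_of_sq_le_sq h2 hU1
    have h3 := CombO_prod hN (fun i => FF S.P S.n d (S.X i) b b') _ hF0
      (fun i => S.FF_le i b b')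
    have h4 := comb_three N k c hk hc
      (fun i => FZ S.P S.n d (S.ZA (Fin.castLE hN i)) b b')
      (fun i => FZ S.P S.n d (S.ZB (Fin.castLE hN i)) b b')
      (fun i => FZ S.P S.n d (S.ZC (Fin.castLE hN i)) b b')
      (fun i => FZ_nonneg _ _ _ _ _) (fun i => FZ_nonneg _ _ _ _ _)
      (fun i => FZ_nonneg _ _ _ _ _) U1
      (fun i => by rw [← S.FF_split]; exact hle _)
    have h5 : ∏ i : Fin N, FF S.P S.n d (S.X (Fin.castLE hN i)) b b' =
        ∏ i : Fin N, (FZ S.P S.n d (S.ZA (Fin.castLE hN i)) b b' +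
          FZ S.P S.n d (S.ZB (Fin.castLE hN i)) b b' +
          FZ S.P S.n d (S.ZC (Fin.castLE hN i)) b b') :=
      Finset.prod_congr rfl fun i _ => S.FF_split _ b b'
    rw [← h5] at h4
    have h6 : psi S.P W J b * psi S.P W J b' ≤ 4 := by
      calc psi S.P W J b * psi S.P W J b' ≤ 2 * 2 :=
            mul_le_mul (psi_le_two W J b) (psi_le_two W J b') (psi_nonneg W J b') (by norm_num)
        _ = 4 := by norm_num
    refine mul_le_mul h6 (h3.trans (mul_le_mul_of_nonneg_left h4 (by positivity)))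
      (Finset.prod_nonneg fun i _ => hF0 i) (by norm_num)
  · rw [mul_zero, zero_mul]
    exact hR
  · rw [zero_mul, zero_mul]
    exact hR
  · rw [zero_mul, zero_mul]
    exact hR

private theorem CombO_ZA {d g h s m v E : ℕ} (S : St d g h s m v E) (i : Fin s) :
    S.ZA i ⊆ S.X i ×ˢ S.X i := Finset.filter_subset _ _

private theorem CombO_ZB {d g h s m v E : ℕ} (S : St d g h s m v E) (i : Fin s) :
    S.ZB i ⊆ S.X i ×ˢ S.X i := Finset.filter_subset _ _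

private theorem CombO_ZC {d g h s m v E : ℕ} (S : St d g h s m v E) (i : Fin s) :
    S.ZC i ⊆ S.X i ×ˢ S.X i := Finset.filter_subset _ _

/-- the number of the injective maps is at most `N ^ k` -/
private theorem CombO_card (k N : ℕ) (t : ℝ) (ht : 0 ≤ t) (F : (Fin k → Fin N) → ℝ)
    [DecidablePred (Function.Injective : (Fin k → Fin N) → Prop)]
    (hF : ∀ f : Fin k → Fin N, Function.Injective f → F f ≤ t) :
    ∑ f ∈ (univ : Finset (Fin k → Fin N)).filter Function.Injective, F f ≤ (N : ℝ) ^ k * t := by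
  calc ∑ f ∈ (univ : Finset (Fin k → Fin N)).filter Function.Injective, F f
      ≤ ∑ _f ∈ (univ : Finset (Fin k → Fin N)).filter Function.Injective, t :=
        Finset.sum_le_sum fun f hf => hF f (Finset.mem_filter.1 hf).2
    _ = (((univ : Finset (Fin k → Fin N)).filter Function.Injective).card : ℝ) * t := by
        rw [Finset.sum_const, nsmul_eq_mul]
    _ ≤ (N : ℝ) ^ k * t := by
        refine mul_le_mul_of_nonneg_right ?_ ht
        have h1 := Finset.card_le_univ ((univ : Finset (Fin k → Fin N)).filter Function.Injective)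
        rw [Fintype.card_fun, Fintype.card_fin, Fintype.card_fin] at h1
        exact_mod_cast h1

/-- the exponent arithmetic -/
private theorem CombO_num (d g h s m N k c cA' cL' : ℕ) (R H B V X U CA CB CC : ℝ)
    (hR : 1 ≤ R) (hH : 0 < H) (hB : 1 ≤ B) (hV : 1 ≤ V) (hVB : V ≤ B)
    (hX : B / (32 * R ^ 2) ≤ X) (hU : 1 ≤ U) (hCA : 0 < CA) (hCB : 0 < CB) (hCC : 0 < CC)
    (hd : d = g + 1 + h) (hh : 2 * g + 6 ≤ h) (hs : N ≤ s) (hN : N = d + h + 1)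
    (hk : k = g + 3 + 2) (hc : c = 2 * h - g - 8 + 2)
    (hA' : 2 * cA' * m + 2 * (2 * h) + 4 * N ≤ 4 * cL' * m)
    (hL' : 2 * cL' * m + 2 * (2 * g + 8) + 4 * N ≤ 4 * cL' * m) :
    4 * ((8 * H * X ^ 2) ^ (s - N) * (3 ^ N * ((U * R ^ 2 * H * B) ^ (N - k) *
      ((N : ℝ) ^ k * (16 ^ k * (CA * R ^ (2 * cA' * m) * H ^ (g + 3) * B ^ 4) +
        16 ^ k * (CB * R ^ (2 * cA' * m) * H ^ (g + 3) * B ^ 4))) +
      (U * R ^ 2 * H * B) ^ (N - c) *
      ((N : ℝ) ^ c * (16 ^ c * (CC * R ^ (2 * cL' * m) * H ^ (2 * h - g - 8) *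
        B ^ (2 * h - 2 * g - 6) / V)))))) ≤
    (4 * 3 ^ N * 128 ^ N * (U ^ (N - k) * ((N : ℝ) ^ k * (16 ^ k * (CA + CB))) +
      U ^ (N - c) * ((N : ℝ) ^ c * (16 ^ c * CC)))) * R ^ (4 * cL' * m) / V *
      ((8 * H * X ^ 2) ^ s / (H * B ^ d) ^ 2) := by
  have hR0 : 0 < R := by linarith
  have hB0 : 0 < B := by linarith
  have hV0 : 0 < V := by linarith
  have hU0 : 0 < U := by linarith
  have hX0 : 0 < X := lt_of_lt_of_le (by positivity) hX
  obtain ⟨K, hK⟩ : ∃ K : ℝ, K = 8 * H * X ^ 2 := ⟨_, rfl⟩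
  have hK0 : 0 < K := by rw [hK]; positivity
  -- the lower bound of the main term
  have hlow : H ^ (N - 2) * B ^ (2 * h + 2) ≤ 128 ^ N * R ^ (4 * N) * (K ^ N / (H * B ^ d) ^ 2) := by
    rw [mul_div_assoc', le_div_iff₀ (by positivity)]
    have e1 : H ^ (N - 2) * B ^ (2 * h + 2) * (H * B ^ d) ^ 2 = (H * B ^ 2) ^ N := by
      have e2 : N = (N - 2) + 2 := by omega
      have e3 : 2 * N = (2 * h + 2) + d * 2 := by omega
      rw [mul_pow, mul_pow, ← pow_mul, ← pow_mul, e3, pow_add]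
      nth_rewrite 2 [e2]
      rw [pow_add H (N - 2) 2]
      ring
    rw [e1]
    have e4 : 128 ^ N * R ^ (4 * N) * K ^ N = (128 * R ^ 4 * K) ^ N := by
      rw [mul_pow, mul_pow, ← pow_mul]
    rw [e4]
    refine pow_le_pow_left₀ (by positivity) ?_ N
    have e5 : B ≤ X * (32 * R ^ 2) := by
      rw [div_le_iff₀ (by positivity)] at hX
      exact hX
    have e6 : B ^ 2 ≤ (X * (32 * R ^ 2)) ^ 2 := pow_le_pow_left₀ hB0.le e5 2
    calc H * B ^ 2 ≤ H * (X * (32 * R ^ 2)) ^ 2 := mul_le_mul_of_nonneg_left e6 hH.le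
      _ = 128 * R ^ 4 * K := by rw [hK]; ring
  obtain ⟨Mn, hMn⟩ : ∃ Mn : ℝ, Mn = H ^ (N - 2) * B ^ (2 * h + 2) := ⟨_, rfl⟩
  have hMn0 : 0 < Mn := by rw [hMn]; positivity
  rw [← hMn] at hlow
  obtain ⟨e, he⟩ : ∃ e : ℕ, 4 * cL' * m = e + 4 * N := ⟨4 * cL' * m - 4 * N, by omega⟩
  -- the first term
  have t1 : ∀ c1 : ℝ, 0 ≤ c1 → (U * R ^ 2 * H * B) ^ (N - k) *
      (c1 * R ^ (2 * cA' * m) * H ^ (g + 3) * B ^ 4) ≤ U ^ (N - k) * c1 * R ^ e * (Mn / V) := by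
    intro c1 hc1
    have a1 : N - k = 2 * h - 3 := by omega
    have a2 : N - 2 = (2 * h - 3) + (g + 3) := by omega
    have a3 : 2 * h + 2 = (2 * h - 3) + 4 + 1 := by omega
    have a4 : R ^ (2 * (2 * h - 3) + 2 * cA' * m) ≤ R ^ e := pow_le_pow_right₀ hR (by omega)
    have a5 : B ^ ((2 * h - 3) + 4) ≤ B ^ ((2 * h - 3) + 4 + 1) / V := by
      rw [le_div_iff₀ hV0, pow_succ B ((2 * h - 3) + 4)]
      exact mul_le_mul_of_nonneg_left hVB (by positivity)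
    rw [a1, hMn, a2, a3]
    calc (U * R ^ 2 * H * B) ^ (2 * h - 3) * (c1 * R ^ (2 * cA' * m) * H ^ (g + 3) * B ^ 4)
        = U ^ (2 * h - 3) * c1 * R ^ (2 * (2 * h - 3) + 2 * cA' * m) *
          (H ^ ((2 * h - 3) + (g + 3)) * B ^ ((2 * h - 3) + 4)) := by
          rw [mul_pow, mul_pow, mul_pow, ← pow_mul, pow_add R, pow_add H, pow_add B]
          ring
      _ ≤ U ^ (2 * h - 3) * c1 * R ^ e *
          (H ^ ((2 * h - 3) + (g + 3)) * (B ^ ((2 * h - 3) + 4 + 1) / V)) := by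
          gcongr
      _ = _ := by ring
  have t2 : (U * R ^ 2 * H * B) ^ (N - c) *
      ((N : ℝ) ^ c * (16 ^ c * (CC * R ^ (2 * cL' * m) * H ^ (2 * h - g - 8) *
        B ^ (2 * h - 2 * g - 6) / V))) ≤
      U ^ (N - c) * ((N : ℝ) ^ c * (16 ^ c * CC)) * R ^ e * (Mn / V) := by
    have a1 : N - c = 2 * g + 8 := by omega
    have a2 : N - 2 = (2 * g + 8) + (2 * h - g - 8) := by omega
    have a3 : 2 * h + 2 = (2 * g + 8) + (2 * h - 2 * g - 6) := by omega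
    have a4 : R ^ (2 * (2 * g + 8) + 2 * cL' * m) ≤ R ^ e := pow_le_pow_right₀ hR (by omega)
    rw [a1, hMn, a2, a3]
    calc (U * R ^ 2 * H * B) ^ (2 * g + 8) *
        ((N : ℝ) ^ c * (16 ^ c * (CC * R ^ (2 * cL' * m) * H ^ (2 * h - g - 8) *
          B ^ (2 * h - 2 * g - 6) / V)))
        = U ^ (2 * g + 8) * ((N : ℝ) ^ c * (16 ^ c * CC)) * R ^ (2 * (2 * g + 8) + 2 * cL' * m) *
          (H ^ ((2 * g + 8) + (2 * h - g - 8)) * B ^ ((2 * g + 8) + (2 * h - 2 * g - 6)) / V) := by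
          rw [mul_pow, mul_pow, mul_pow, ← pow_mul, pow_add R, pow_add H, pow_add B]
          ring
      _ ≤ _ := by
          gcongr
  have t3 := t1 ((N : ℝ) ^ k * (16 ^ k * (CA + CB))) (by positivity)
  obtain ⟨q1, hq1⟩ : ∃ q1 : ℝ, q1 = U ^ (N - k) * ((N : ℝ) ^ k * (16 ^ k * (CA + CB))) := ⟨_, rfl⟩
  obtain ⟨q2, hq2⟩ : ∃ q2 : ℝ, q2 = U ^ (N - c) * ((N : ℝ) ^ c * (16 ^ c * CC)) := ⟨_, rfl⟩
  have hq10 : 0 ≤ q1 := by rw [hq1]; positivity
  have hq20 : 0 ≤ q2 := by rw [hq2]; positivity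
  rw [← hq1] at t3 ⊢
  rw [← hq2] at t2 ⊢
  rw [← hK, he]
  have hsK : K ^ s = K ^ (s - N) * K ^ N := by
    rw [← pow_add]
    congr 1
    omega
  rw [hsK]
  have hKs : 0 < K ^ (s - N) := by positivity
  calc _ = 4 * (K ^ (s - N) * (3 ^ N * ((U * R ^ 2 * H * B) ^ (N - k) *
        ((N : ℝ) ^ k * (16 ^ k * (CA + CB)) * R ^ (2 * cA' * m) * H ^ (g + 3) * B ^ 4) +
      (U * R ^ 2 * H * B) ^ (N - c) *
      ((N : ℝ) ^ c * (16 ^ c * (CC * R ^ (2 * cL' * m) * H ^ (2 * h - g - 8) *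
        B ^ (2 * h - 2 * g - 6) / V)))))) := by ring
    _ ≤ 4 * (K ^ (s - N) * (3 ^ N * (q1 * R ^ e * (Mn / V) + q2 * R ^ e * (Mn / V)))) := by
        gcongr
    _ = 4 * (K ^ (s - N) * (3 ^ N * ((q1 + q2) * R ^ e / V))) * Mn := by ring
    _ ≤ 4 * (K ^ (s - N) * (3 ^ N * ((q1 + q2) * R ^ e / V))) *
        (128 ^ N * R ^ (4 * N) * (K ^ N / (H * B ^ d) ^ 2)) :=
        mul_le_mul_of_nonneg_left hlow (by positivity)
    _ = _ := by
        rw [pow_add R e (4 * N)]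
        ring

open Classical in
theorem comb_O (d g h s m v E : ℕ) (U : ℝ) (hU : 1 ≤ U) : ∃ C : ℝ, 0 < C ∧
    ∀ (S : St d g h s m v E) (A : Arc S.P (4 * S.B ^ d)) (W J : ℕ),
    rhsG S.P S.n d S.X (fun b => if (¬ S.Maj A b ∧
      ∀ i, FF S.P S.n d (S.X i) b b ≤ U * (S.R : ℝ) ^ 2 * S.H * S.B) then psi S.P W J b else 0) ≤
      C * (S.R : ℝ) ^ (4 * cL d s * m) / S.V * S.main := by
  obtain ⟨CA, hCA, hA⟩ := count_A d g h s m v E
  obtain ⟨CB, hCB, hB⟩ := count_B d g h s m v E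
  obtain ⟨CC, hCC, hC⟩ := count_C d g h s m v E
  obtain ⟨N, hN⟩ : ∃ N, N = d + h + 1 := ⟨_, rfl⟩
  obtain ⟨k, hk⟩ : ∃ k, k = g + 3 + 2 := ⟨_, rfl⟩
  obtain ⟨c, hc⟩ : ∃ c, c = 2 * h - g - 8 + 2 := ⟨_, rfl⟩
  refine ⟨4 * 3 ^ N * 128 ^ N * (U ^ (N - k) * ((N : ℝ) ^ k * (16 ^ k * (CA + CB))) +
      U ^ (N - c) * ((N : ℝ) ^ c * (16 ^ c * CC))), ?_, ?_⟩
  · have hN0 : (0 : ℝ) < N := by
      have : 0 < N := by omega
      exact_mod_cast this
    have hU0 : 0 < U := by linarith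
    positivity
  intro S A W J
  have hdg := S.hdg
  have hh1 := S.hh1
  have hNs : N ≤ s := by rw [hN]; exact S.hs
  have hR1 : (1 : ℝ) ≤ S.R := by exact_mod_cast S.R_pos
  have hB1 : (1 : ℝ) ≤ S.B := by exact_mod_cast S.B_pos
  have hV1 : (1 : ℝ) ≤ S.V := by exact_mod_cast S.V_pos
  obtain ⟨-, -, -, -, -, -, hH0⟩ := S.n_facts
  have hH0' : (0 : ℝ) < S.H := by exact_mod_cast hH0
  have hm := S.hm
  have hVB : (S.V : ℝ) ≤ S.B := by
    have h1 : S.V ≤ S.B := by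
      rw [S.B_eqV]
      have h2 : S.V ^ 1 ≤ S.V ^ d := Nat.pow_le_pow_right S.V_pos (by omega)
      rw [pow_one] at h2
      omega
    exact_mod_cast h1
  obtain ⟨U1, hU1⟩ : ∃ U1 : ℝ, U1 = U * (S.R : ℝ) ^ 2 * S.H * S.B := ⟨_, rfl⟩
  have hU10 : 0 ≤ U1 := by
    rw [hU1]
    positivity
  rw [← hU1]
  have hX0 : (0 : ℝ) ≤ 8 * (S.H : ℝ) * S.XX ^ 2 := by positivity
  have hstep : rhsG S.P S.n d S.X (fun b => if (¬ S.Maj A b ∧
      ∀ i, FF S.P S.n d (S.X i) b b ≤ U1) then psi S.P W J b else 0) ≤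
      4 * ((8 * (S.H : ℝ) * S.XX ^ 2) ^ (s - N) * (3 ^ N * (U1 ^ (N - k) *
      ∑ f ∈ (univ : Finset (Fin k → Fin N)).filter Function.Injective,
        (CombO_mn S.P (fun b b' => ∏ j, FZ S.P S.n d (S.ZA (Fin.castLE hNs (f j))) b b') +
          CombO_mn S.P (fun b b' => ∏ j, FZ S.P S.n d (S.ZB (Fin.castLE hNs (f j))) b b')) +
      U1 ^ (N - c) *
      ∑ f ∈ (univ : Finset (Fin c → Fin N)).filter Function.Injective,
        CombO_mn S.P (fun b b' => ∏ j, FZ S.P S.n d (S.ZC (Fin.castLE hNs (f j))) b b')))) := by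
    have h1 := CombO_mn_le S.P _ _ (fun b b' =>
      CombO_pt S A W J U1 N k c hNs (by omega) (by omega) b b' hU10)
    rw [CombO_mn_mul, CombO_mn_mul, CombO_mn_mul, CombO_mn_add, CombO_mn_mul, CombO_mn_mul,
      CombO_mn_sum, CombO_mn_sum] at h1
    simp only [CombO_mn_add] at h1
    exact h1
  refine hstep.trans ?_
  have hsum1 : ∑ f ∈ (univ : Finset (Fin k → Fin N)).filter Function.Injective,
        (CombO_mn S.P (fun b b' => ∏ j, FZ S.P S.n d (S.ZA (Fin.castLE hNs (f j))) b b') +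
          CombO_mn S.P (fun b b' => ∏ j, FZ S.P S.n d (S.ZB (Fin.castLE hNs (f j))) b b')) ≤
      (N : ℝ) ^ k * (16 ^ k * (CA * (S.R : ℝ) ^ (2 * cA d * m) * (S.H : ℝ) ^ (g + 3) *
        (S.B : ℝ) ^ 4) + 16 ^ k * (CB * (S.R : ℝ) ^ (2 * cA d * m) * (S.H : ℝ) ^ (g + 3) *
        (S.B : ℝ) ^ 4)) := by
    refine CombO_card k N _ (by positivity) _ fun f hf => ?_
    have hfi : Function.Injective (fun j => Fin.castLE hNs (f j)) :=
      (Fin.castLE_injective hNs).comp hf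
    subst hk
    refine add_le_add ?_ ?_
    · refine (CombO_mom S (by omega) _ (fun j => Fin.castLE hNs (f j))
        (fun j => CombO_ZA S _)).trans ?_
      exact mul_le_mul_of_nonneg_left (hA S _ hfi) (by positivity)
    · refine (CombO_mom S (by omega) _ (fun j => Fin.castLE hNs (f j))
        (fun j => CombO_ZB S _)).trans ?_
      exact mul_le_mul_of_nonneg_left (hB S _ hfi) (by positivity)
  have hsum2 : ∑ f ∈ (univ : Finset (Fin c → Fin N)).filter Function.Injective,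
        CombO_mn S.P (fun b b' => ∏ j, FZ S.P S.n d (S.ZC (Fin.castLE hNs (f j))) b b') ≤
      (N : ℝ) ^ c * (16 ^ c * (CC * (S.R : ℝ) ^ (2 * cL d s * m) * (S.H : ℝ) ^ (2 * h - g - 8) *
        (S.B : ℝ) ^ (2 * h - 2 * g - 6) / S.V)) := by
    refine CombO_card c N _ (by positivity) _ fun f hf => ?_
    have hfi : Function.Injective (fun j => Fin.castLE hNs (f j)) :=
      (Fin.castLE_injective hNs).comp hf
    subst hc
    refine (CombO_mom S (by omega) _ (fun j => Fin.castLE hNs (f j))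
      (fun j => CombO_ZC S _)).trans ?_
    exact mul_le_mul_of_nonneg_left (hC S _ hfi) (by positivity)
  have hnum := CombO_num d g h s m N k c (cA d) (cL d s) S.R S.H S.B S.V S.XX U CA CB CC hR1 hH0'
    hB1 hV1 hVB S.XX_bounds.1 hU hCA hCB hCC hdg hh1 hNs hN hk hc ?_ ?_
  · unfold St.main
    rw [← hU1] at hnum
    refine le_trans ?_ hnum
    gcongr
  · unfold cA cL
    nlinarith
  · unfold cL
    nlinarith

end Pool.Agent.Lib.MP_e426f4_ag.DH
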