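import Pool.Agent.Lib.MP_e426f4_ag.DH.SumA
import Pool.Agent.Lib.MP_e426f4_ag.DH.Elim
import Pool.Agent.Lib.MP_e426f4_ag.DH.Group

/-!
# CountA: the count for type A

`ZA (f j)` is covered by `(t, t', z) ∈ I × I × zA`, `(x,x') = (t a l, t' a' l')` (`ZA_mem`).  So `cnt2 ≤ ∑_{t,t'} ∑_{z ∈ ∏ zA} #{a}`, at most `T^(2(g+5))` choices of `(t,t')`.
`elim` with `K = g+3`, `x_j = t_j a_j l_j`, `y_j = t_j' a_j' l_j'`, `e = eL (t 0) (z 0)`, `e' = eR (t' 0) (z 0)`, `c = a_0` if `a_0 = a_0'`, otherwise `1`; `D = DA ≠ 0` by `inv_A`.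
`group_sum` and `sum_A` for the main part; the rest is `2 (4H)^(g+2) ∏ |zA| ≤ 2 (4H)^(g+2) (ML)^(2(g+5)) ≤ C H^(g+2) B^(2g+10) ≤ C H^(g+3) B^4` as `2g+10-h ≤ 4`, `B^h ≤ H`.
-/

set_option autoImplicit false

namespace Pool.Agent.Lib.MP_e426f4_ag.DH

open Finset
open Pool.Agent.Lib.MP_e426f4_ag.DG

private lemma cA_sum_cover {α β : Type} [DecidableEq α] (s : Finset β) (D : Finset α) (φ : α → β)
    (F : β → ℝ) (hF : ∀ b, 0 ≤ F b) (h : ∀ b ∈ s, ∃ a ∈ D, φ a = b) :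
    ∑ b ∈ s, F b ≤ ∑ a ∈ D, F (φ a) := by
  classical
  rcases s.eq_empty_or_nonempty with rfl | ⟨b0, hb0⟩
  · rw [Finset.sum_empty]
    exact Finset.sum_nonneg fun a _ => hF _
  obtain ⟨a0, _, _⟩ := h b0 hb0
  haveI : Nonempty α := ⟨a0⟩
  choose! w hw using h
  calc ∑ b ∈ s, F b = ∑ b ∈ s, F (φ (w b)) :=
        Finset.sum_congr rfl fun b hb => by rw [(hw b hb).2]
    _ = ∑ a ∈ s.image w, F (φ a) := by
        rw [Finset.sum_image]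
        intro b hb c hc hbc
        rw [← (hw b hb).2, ← (hw c hc).2, hbc]
    _ ≤ ∑ a ∈ D, F (φ a) := by
        apply Finset.sum_le_sum_of_subset_of_nonneg
        · intro a ha
          obtain ⟨b, hb, rfl⟩ := Finset.mem_image.mp ha
          exact (hw b hb).1
        · intro a _ _
          exact hF _

/-- the point attached to `(t, t', z)` -/
private def cA_pt {k : ℕ} (t t' : Fin k → ℕ) (z : Fin k → (ℕ × ℕ) × (ℕ × ℕ)) : Fin k → ℕ × ℕ :=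
  fun j => (t j * ((z j).1.1 * (z j).1.2), t' j * ((z j).2.1 * (z j).2.2))

private lemma cA_cover {d g h s m v E : ℕ} (S : St d g h s m v E) {k : ℕ} (f : Fin k → Fin s)
    (w : Fin k → ℕ × ℕ) (hw : w ∈ Fintype.piFinset fun j => S.ZA (f j)) :
    ∃ a ∈ (Fintype.piFinset fun _ : Fin k => S.I) ×ˢ ((Fintype.piFinset fun _ : Fin k => S.I) ×ˢ
      (Fintype.piFinset fun j => zA (S.QS (f j)) (S.PS (f j)))), cA_pt a.1 a.2.1 a.2.2 = w := by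
  rw [Fintype.mem_piFinset] at hw
  have hw' : ∀ j, ∃ a : ℕ × (ℕ × ((ℕ × ℕ) × (ℕ × ℕ))), a.1 ∈ S.I ∧ a.2.1 ∈ S.I ∧
      a.2.2 ∈ zA (S.QS (f j)) (S.PS (f j)) ∧
      w j = (a.1 * (a.2.2.1.1 * a.2.2.1.2), a.2.1 * (a.2.2.2.1 * a.2.2.2.2)) := by
    intro j
    obtain ⟨t, q, l, t', q', l', ht, hq, hl, ht', hq', hl', hne, he⟩ := (S.ZA_mem (f j) (w j)).mp (hw j)
    refine ⟨(t, (t', ((q, l), (q', l')))), ht, ht', ?_, he⟩
    unfold zA
    rw [Finset.mem_filter, Finset.mem_product, Finset.mem_product, Finset.mem_product]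
    exact ⟨⟨⟨hq, hl⟩, ⟨hq', hl'⟩⟩, hne⟩
  choose a ha using hw'
  refine ⟨(fun j => (a j).1, (fun j => (a j).2.1, fun j => (a j).2.2)), ?_, ?_⟩
  · rw [Finset.mem_product, Finset.mem_product, Fintype.mem_piFinset, Fintype.mem_piFinset,
      Fintype.mem_piFinset]
    exact ⟨fun j => (ha j).1, fun j => (ha j).2.1, fun j => (ha j).2.2.1⟩
  · funext j
    exact (ha j).2.2.2.symm

private lemma cA_zA_card {d g h s m v E : ℕ} (S : St d g h s m v E) (i : Fin s) :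
    ((zA (S.QS i) (S.PS i)).card : ℝ) ≤ (S.B : ℝ) ^ 2 := by
  have h1 : (zA (S.QS i) (S.PS i)).card ≤ (S.M * S.L) * (S.M * S.L) := by
    unfold zA
    refine (Finset.card_filter_le _ _).trans ?_
    rw [Finset.card_product, Finset.card_product]
    exact Nat.mul_le_mul (Nat.mul_le_mul (S.QS_card_le i) (S.PS_card_le i))
      (Nat.mul_le_mul (S.QS_card_le i) (S.PS_card_le i))
  have h2 : S.M * S.L ≤ S.B := by
    rw [S.B_eq]
    have := S.T_pos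
    calc S.M * S.L = S.M * S.L * 1 := by ring
      _ ≤ S.M * S.L * S.T := Nat.mul_le_mul_left _ this
      _ ≤ 16 * (S.M * S.L * S.T) := by omega
  have h3 : (zA (S.QS i) (S.PS i)).card ≤ S.B ^ 2 := by
    calc _ ≤ (S.M * S.L) * (S.M * S.L) := h1
      _ ≤ S.B * S.B := Nat.mul_le_mul h2 h2
      _ = S.B ^ 2 := by ring
  exact_mod_cast h3

private lemma cA_fixed (d g h s m v E : ℕ) : ∃ C : ℝ, 0 < C ∧ ∀ (S : St d g h s m v E)
    (f : Fin (g + 3 + 2) → Fin s), Function.Injective f → ∀ (t t' : Fin (g + 3 + 2) → ℕ),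
    (∀ j, t j ∈ S.I ∧ t' j ∈ S.I) →
    ∑ z ∈ Fintype.piFinset fun j => zA (S.QS (f j)) (S.PS (f j)),
      ((((Fintype.piFinset fun _ : Fin (g + 3 + 2) => Ioo (-(S.H : ℤ)) S.H)).filter
        fun a : Fin (g + 3 + 2) → ℤ => ∑ j, a j * ((cA_pt t t' z j).1 : ℤ) ^ d = 0 ∧
          ∑ j, a j * ((cA_pt t t' z j).2 : ℤ) ^ d = 0).card : ℝ) ≤
      C * (S.R : ℝ) ^ (cA d * m) * (S.H : ℝ) ^ (g + 3) * (S.B : ℝ) ^ 4 := by
  obtain ⟨C1, hC1, h1⟩ := sum_A d g h s m v E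
  obtain ⟨C2, hC2, h2⟩ := inv_A d g h s m v E
  refine ⟨4 ^ (g + 3) * C1 + 2 * 4 ^ (g + 2), by positivity, ?_⟩
  intro S f hf t t' ht
  have hH : 1 ≤ S.H := S.n_facts.2.2.2.2.2.2
  have hHr : (1 : ℝ) ≤ S.H := by exact_mod_cast hH
  have hB : (1 : ℝ) ≤ S.B := by exact_mod_cast S.B_pos
  have hR : (1 : ℝ) ≤ S.R := by exact_mod_cast S.R_pos
  have h01 : f 0 ≠ f 1 := fun he => by
    have := hf he
    exact absurd this (by simp)
  set Z : Fin (g + 3 + 2) → Finset ((ℕ × ℕ) × (ℕ × ℕ)) := fun j => zA (S.QS (f j)) (S.PS (f j))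
    with hZ
  have hmem : ∀ z ∈ Fintype.piFinset Z, ∀ j, z j ∈ Z j := fun z hz => Fintype.mem_piFinset.mp hz
  have hprime : ∀ j, ∀ z ∈ Z j, z.1.1 ∈ S.QS (f j) ∧ z.1.2 ∈ S.PS (f j) ∧ z.2.1 ∈ S.QS (f j) ∧
      z.2.2 ∈ S.PS (f j) ∧ z.1.2 ≠ z.2.2 := by
    intro j z hz
    simp only [hZ, zA, Finset.mem_filter, Finset.mem_product] at hz
    exact ⟨hz.1.1.1, hz.1.1.2, hz.1.2.1, hz.1.2.2, hz.2⟩
  have hel : ∀ z ∈ Fintype.piFinset Z,
      ((((Fintype.piFinset fun _ : Fin (g + 3 + 2) => Ioo (-(S.H : ℤ)) S.H)).filter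
        fun a : Fin (g + 3 + 2) → ℤ => ∑ j, a j * ((cA_pt t t' z j).1 : ℤ) ^ d = 0 ∧
          ∑ j, a j * ((cA_pt t t' z j).2 : ℤ) ^ d = 0).card : ℝ) ≤
      (4 * (S.H : ℝ)) ^ (g + 3) *
        ∑ q ∈ (DA d (t 0) (t' 0) (t 1) (t' 1) (z 0) (z 1)).natAbs.divisors.filter
        (fun q : ℕ => ∀ j : Fin (g + 3), (q : ℤ) ∣
          DA d (t 0) (t' 0) (t j.succ.succ) (t' j.succ.succ) (z 0) (z j.succ.succ)),
        (q : ℝ) / |((DA d (t 0) (t' 0) (t 1) (t' 1) (z 0) (z 1) : ℤ) : ℝ)| +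
        2 * (4 * (S.H : ℝ)) ^ (g + 3 - 1) := by
    intro z hz
    have hz0 := hprime 0 (z 0) (hmem z hz 0)
    have hcast : ∀ j, ((cA_pt t t' z j).1 : ℤ) = ((t j * ((z j).1.1 * (z j).1.2) : ℕ) : ℤ) :=
      fun j => rfl
    have hcast' : ∀ j, ((cA_pt t t' z j).2 : ℤ) = ((t' j * ((z j).2.1 * (z j).2.2) : ℕ) : ℤ) :=
      fun j => rfl
    have hx0 : ((cA_pt t t' z 0).1 : ℤ) =
        ((if (z 0).1.1 = (z 0).2.1 then (z 0).1.1 else 1 : ℕ) : ℤ) * (eL (t 0) (z 0) : ℤ) := by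
      rw [hcast 0]
      unfold eL
      split_ifs with hq
      · push_cast; ring
      · push_cast; ring
    have hy0 : ((cA_pt t t' z 0).2 : ℤ) =
        ((if (z 0).1.1 = (z 0).2.1 then (z 0).1.1 else 1 : ℕ) : ℤ) * (eR (t' 0) (z 0) : ℤ) := by
      rw [hcast' 0]
      unfold eR
      split_ifs with hq
      · rw [← hq]; push_cast; ring
      · push_cast; ring
    have hne : ((cA_pt t t' z 0).1 : ℤ) ^ d ≠ 0 := by
      apply pow_ne_zero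
      rw [hcast 0]
      have ha := (S.hQS (f 0) _ hz0.1).1.pos
      have hl := (S.hPS (f 0) _ hz0.2.1).1.pos
      have ht0 := ((S.I_mem (t 0)).mp (ht 0).1).1
      have : 0 < t 0 * ((z 0).1.1 * (z 0).1.2) := by positivity
      exact_mod_cast this.ne'
    have hDA : (eL (t 0) (z 0) : ℤ) ^ d * ((cA_pt t t' z 1).2 : ℤ) ^ d -
        (eR (t' 0) (z 0) : ℤ) ^ d * ((cA_pt t t' z 1).1 : ℤ) ^ d ≠ 0 := by
      have := (h2 S (f 0) (f 1) h01 (t 0) (ht 0).1 (t' 0) (ht 0).2 (t 1) (ht 1).1 (t' 1) (ht 1).2).1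
        (z 0) (hmem z hz 0) (z 1) (hmem z hz 1)
      exact this
    have he := elim (K := g + 3) S.H d hH (fun j => ((cA_pt t t' z j).1 : ℤ))
      (fun j => ((cA_pt t t' z j).2 : ℤ)) (eL (t 0) (z 0) : ℤ) (eR (t' 0) (z 0) : ℤ)
      ((if (z 0).1.1 = (z 0).2.1 then (z 0).1.1 else 1 : ℕ) : ℤ) hx0 hy0 hne hDA
    exact he
  have hsum := Finset.sum_le_sum hel
  refine hsum.trans ?_
  rw [Finset.sum_add_distrib, ← Finset.mul_sum]
  have hg := group_sum (K := g + 3) Z (fun z0 z1 => DA d (t 0) (t' 0) (t 1) (t' 1) z0 z1)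
    (fun j z0 z => DA d (t 0) (t' 0) (t j.succ.succ) (t' j.succ.succ) z0 z)
  have hA := h1 S f hf t t' ht
  have hmain : ∑ z ∈ Fintype.piFinset Z,
      ∑ q ∈ (DA d (t 0) (t' 0) (t 1) (t' 1) (z 0) (z 1)).natAbs.divisors.filter
        (fun q : ℕ => ∀ j : Fin (g + 3), (q : ℤ) ∣
          DA d (t 0) (t' 0) (t j.succ.succ) (t' j.succ.succ) (z 0) (z j.succ.succ)),
        (q : ℝ) / |((DA d (t 0) (t' 0) (t 1) (t' 1) (z 0) (z 1) : ℤ) : ℝ)| ≤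
      C1 * (S.R : ℝ) ^ (cA d * m) * (S.B : ℝ) ^ 4 := by
    refine le_trans (le_of_eq ?_) hA
    exact hg
  have hrest : ∑ _z ∈ Fintype.piFinset Z, 2 * (4 * (S.H : ℝ)) ^ (g + 3 - 1) ≤
      2 * 4 ^ (g + 2) * ((S.H : ℝ) ^ (g + 3) * (S.B : ℝ) ^ 4) := by
    rw [Finset.sum_const, nsmul_eq_mul]
    have hc : ((Fintype.piFinset Z).card : ℝ) ≤ (S.B : ℝ) ^ (2 * (g + 5)) := by
      rw [Fintype.card_piFinset]
      push_cast
      calc ∏ j : Fin (g + 3 + 2), ((Z j).card : ℝ) ≤ ∏ _j : Fin (g + 3 + 2), (S.B : ℝ) ^ 2 :=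
            Finset.prod_le_prod (fun _ _ => by positivity) fun j _ => cA_zA_card S (f j)
        _ = (S.B : ℝ) ^ (2 * (g + 5)) := by
            rw [Finset.prod_const, Finset.card_univ, Fintype.card_fin, ← pow_mul]
    have hBH : (S.B : ℝ) ^ (2 * (g + 5)) ≤ (S.H : ℝ) * (S.B : ℝ) ^ 4 := by
      have h3 : 2 * (g + 5) ≤ h + 4 := by have := S.hh1; omega
      calc (S.B : ℝ) ^ (2 * (g + 5)) ≤ (S.B : ℝ) ^ (h + 4) := pow_le_pow_right₀ hB h3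
        _ = (S.B : ℝ) ^ h * (S.B : ℝ) ^ 4 := by rw [pow_add]
        _ ≤ (S.H : ℝ) * (S.B : ℝ) ^ 4 := by
            have h4 : (S.B : ℝ) ^ h ≤ (S.H : ℝ) := by exact_mod_cast S.BH
            exact mul_le_mul_of_nonneg_right h4 (by positivity)
    calc ((Fintype.piFinset Z).card : ℝ) * (2 * (4 * (S.H : ℝ)) ^ (g + 3 - 1))
        ≤ ((S.H : ℝ) * (S.B : ℝ) ^ 4) * (2 * (4 * (S.H : ℝ)) ^ (g + 3 - 1)) :=
          mul_le_mul_of_nonneg_right (hc.trans hBH) (by positivity)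
      _ = 2 * 4 ^ (g + 2) * ((S.H : ℝ) ^ (g + 3) * (S.B : ℝ) ^ 4) := by
          have : g + 3 - 1 = g + 2 := by omega
          rw [this, mul_pow, pow_succ (S.H : ℝ) (g + 2)]
          ring
  have hRp : (1 : ℝ) ≤ (S.R : ℝ) ^ (cA d * m) := one_le_pow₀ hR
  calc (4 * (S.H : ℝ)) ^ (g + 3) * _ + _
      ≤ (4 * (S.H : ℝ)) ^ (g + 3) * (C1 * (S.R : ℝ) ^ (cA d * m) * (S.B : ℝ) ^ 4) +
        2 * 4 ^ (g + 2) * ((S.H : ℝ) ^ (g + 3) * (S.B : ℝ) ^ 4) :=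
        add_le_add (mul_le_mul_of_nonneg_left hmain (by positivity)) hrest
    _ ≤ (4 * (S.H : ℝ)) ^ (g + 3) * (C1 * (S.R : ℝ) ^ (cA d * m) * (S.B : ℝ) ^ 4) +
        2 * 4 ^ (g + 2) * ((S.H : ℝ) ^ (g + 3) * (S.B : ℝ) ^ 4) * (S.R : ℝ) ^ (cA d * m) := by
        have h5 : 2 * 4 ^ (g + 2) * ((S.H : ℝ) ^ (g + 3) * (S.B : ℝ) ^ 4) * 1 ≤
          2 * 4 ^ (g + 2) * ((S.H : ℝ) ^ (g + 3) * (S.B : ℝ) ^ 4) * (S.R : ℝ) ^ (cA d * m) :=
          mul_le_mul_of_nonneg_left hRp (by positivity)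
        linarith
    _ = (4 ^ (g + 3) * C1 + 2 * 4 ^ (g + 2)) * (S.R : ℝ) ^ (cA d * m) * (S.H : ℝ) ^ (g + 3) *
        (S.B : ℝ) ^ 4 := by
        rw [mul_pow]; ring

theorem count_A (d g h s m v E : ℕ) : ∃ C : ℝ, 0 < C ∧ ∀ (S : St d g h s m v E)
    (f : Fin (g + 3 + 2) → Fin s), Function.Injective f →
    cnt2 S.H d (fun j => S.ZA (f j)) ≤
      C * (S.R : ℝ) ^ (2 * cA d * m) * (S.H : ℝ) ^ (g + 3) * (S.B : ℝ) ^ 4 := by
  obtain ⟨C, hC, hfix⟩ := cA_fixed d g h s m v E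
  refine ⟨C, hC, ?_⟩
  intro S f hf
  have hHr : (0 : ℝ) ≤ S.H := by positivity
  have hR : (1 : ℝ) ≤ S.R := by exact_mod_cast S.R_pos
  have hcov := cA_sum_cover (Fintype.piFinset fun j => S.ZA (f j))
    ((Fintype.piFinset fun _ : Fin (g + 3 + 2) => S.I) ×ˢ
      ((Fintype.piFinset fun _ : Fin (g + 3 + 2) => S.I) ×ˢ
      (Fintype.piFinset fun j => zA (S.QS (f j)) (S.PS (f j)))))
    (fun a => cA_pt a.1 a.2.1 a.2.2)
    (fun z => ((((Fintype.piFinset fun _ : Fin (g + 3 + 2) => Ioo (-(S.H : ℤ)) S.H)).filter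
      fun a : Fin (g + 3 + 2) → ℤ => ∑ j, a j * ((z j).1 : ℤ) ^ d = 0 ∧
        ∑ j, a j * ((z j).2 : ℤ) ^ d = 0).card : ℝ)) (fun _ => Nat.cast_nonneg _)
    (fun w hw => cA_cover S f w hw)
  unfold cnt2
  refine hcov.trans ?_
  rw [Finset.sum_product]
  have hin : ∀ t ∈ Fintype.piFinset fun _ : Fin (g + 3 + 2) => S.I,
      ∑ a ∈ (Fintype.piFinset fun _ : Fin (g + 3 + 2) => S.I) ×ˢ
        (Fintype.piFinset fun j => zA (S.QS (f j)) (S.PS (f j))),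
        ((((Fintype.piFinset fun _ : Fin (g + 3 + 2) => Ioo (-(S.H : ℤ)) S.H)).filter
          fun b : Fin (g + 3 + 2) → ℤ => ∑ j, b j * ((cA_pt t a.1 a.2 j).1 : ℤ) ^ d = 0 ∧
            ∑ j, b j * ((cA_pt t a.1 a.2 j).2 : ℤ) ^ d = 0).card : ℝ) ≤
      ((Fintype.piFinset fun _ : Fin (g + 3 + 2) => S.I).card : ℝ) *
        (C * (S.R : ℝ) ^ (cA d * m) * (S.H : ℝ) ^ (g + 3) * (S.B : ℝ) ^ 4) := by
    intro t ht
    rw [Finset.sum_product]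
    refine (Finset.sum_le_card_nsmul _ _ (C * (S.R : ℝ) ^ (cA d * m) * (S.H : ℝ) ^ (g + 3) *
      (S.B : ℝ) ^ 4) ?_).trans (le_of_eq (nsmul_eq_mul _ _))
    intro t' ht'
    rw [Fintype.mem_piFinset] at ht ht'
    exact hfix S f hf t t' fun j => ⟨ht j, ht' j⟩
  refine (Finset.sum_le_card_nsmul _ _ _ hin).trans ?_
  rw [nsmul_eq_mul]
  have hc : ((Fintype.piFinset fun _ : Fin (g + 3 + 2) => S.I).card : ℝ) ≤
      (S.R : ℝ) ^ (m * (g + 5)) := by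
    rw [Fintype.card_piFinset]
    push_cast
    rw [Finset.prod_const, Finset.card_univ, Fintype.card_fin, pow_mul]
    have h1 : (S.I.card : ℝ) ≤ (S.R : ℝ) ^ m := by
      have := S.I_card_le
      unfold St.T at this
      exact_mod_cast this
    exact pow_le_pow_left₀ (by positivity) h1 _
  have hexp : m * (g + 5) + m * (g + 5) + cA d * m ≤ 2 * cA d * m := by
    have h1 := S.hdg
    have h2 : m * (g + 5) + m * (g + 5) = (2 * g + 10) * m := by ring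
    have h3 : 2 * cA d * m = cA d * m + cA d * m := by ring
    have h4 : (2 * g + 10) * m ≤ cA d * m := by
      apply Nat.mul_le_mul_right
      unfold cA
      omega
    omega
  have hX : (0 : ℝ) ≤ C * (S.R : ℝ) ^ (cA d * m) * (S.H : ℝ) ^ (g + 3) * (S.B : ℝ) ^ 4 := by
    positivity
  calc _ ≤ (S.R : ℝ) ^ (m * (g + 5)) * ((S.R : ℝ) ^ (m * (g + 5)) *
        (C * (S.R : ℝ) ^ (cA d * m) * (S.H : ℝ) ^ (g + 3) * (S.B : ℝ) ^ 4)) :=
        mul_le_mul hc (mul_le_mul_of_nonneg_right hc hX) (by positivity) (by positivity)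
    _ = C * (S.R : ℝ) ^ (m * (g + 5) + m * (g + 5) + cA d * m) * (S.H : ℝ) ^ (g + 3) *
        (S.B : ℝ) ^ 4 := by
        rw [pow_add, pow_add]; ring
    _ ≤ C * (S.R : ℝ) ^ (2 * cA d * m) * (S.H : ℝ) ^ (g + 3) * (S.B : ℝ) ^ 4 := by
        have := pow_le_pow_right₀ hR hexp
        gcongr

end Pool.Agent.Lib.MP_e426f4_ag.DH
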