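import Pool.Agent.Lib.MP_e426f4_ag.DH.FactsX
import Pool.Agent.Lib.MP_e426f4_ag.DG.FFb

/-!
# CsM: Cauchy-Schwarz over the middle prime

`SS (X i) (a b) = ∑_{q ∈ QS i} SS (Y i) (a b q^d)` (unique representation `x = q y`, `uniq`), so
`|SS (X i) (ab)|² ≤ |QS i| ∑_q |SS (Y i) (a (b q^d))|²`; multiply by `wt` and sum over `a` (`FF_diag`).
-/

set_option autoImplicit false

namespace Pool.Agent.Lib.MP_e426f4_ag.DH

open Finset
open Pool.Agent.Lib.MP_e426f4_ag.DG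

/-- the sum over `X i` is the sum over the middle primes `q` of the sums over `Y i` -/
private theorem CsM_split {d g h s m v E : ℕ} (S : St d g h s m v E) (i : Fin s)
    (c : ZMod S.P) :
    SS S.P d (S.X i) c = ∑ q ∈ S.QS i, SS S.P d (S.Y i) (c * (q : ZMod S.P) ^ d) := by
  unfold SS
  rw [← sum_product']
  symm
  refine sum_bij (fun z _ => z.1 * z.2) ?_ ?_ ?_ ?_
  · rintro ⟨q, y⟩ hz
    obtain ⟨hq, hy⟩ := mem_product.1 hz
    obtain ⟨t, l, ht, hl, rfl⟩ := (S.Y_mem i y).1 hy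
    exact (S.X_mem i _).2 ⟨t, q, l, ht, hq, hl, by ring⟩
  · rintro ⟨q, y⟩ hz ⟨q', y'⟩ hz' he
    obtain ⟨hq, hy⟩ := mem_product.1 hz
    obtain ⟨hq', hy'⟩ := mem_product.1 hz'
    obtain ⟨t, l, ht, hl, rfl⟩ := (S.Y_mem i y).1 hy
    obtain ⟨t', l', ht', hl', rfl⟩ := (S.Y_mem i y').1 hy'
    have he' : q * (t * l) = q' * (t' * l') := he
    obtain ⟨e1, e2, e3⟩ := S.uniq ht hq hl ht' hq' hl' (by
      calc t * (q * l) = q * (t * l) := by ring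
        _ = q' * (t' * l') := he'
        _ = t' * (q' * l') := by ring)
    have e2' : q = q' := e2
    rw [e1, e2', e3]
  · intro x hx
    obtain ⟨t, q, l, ht, hq, hl, rfl⟩ := (S.X_mem i x).1 hx
    exact ⟨(q, t * l), mem_product.2 ⟨hq, (S.Y_mem i _).2 ⟨t, l, ht, hl, rfl⟩⟩, by
      show q * (t * l) = t * (q * l)
      ring⟩
  · rintro ⟨q, y⟩ _
    congr 1
    push_cast
    ring

theorem cs_m {d g h s m v E : ℕ} (S : St d g h s m v E) (i : Fin s) (b : ZMod S.P) :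
    FF S.P S.n d (S.X i) b b ≤ ((S.QS i).card : ℝ) * ∑ q ∈ S.QS i,
      FF S.P S.n d (S.Y i) (b * (q : ZMod S.P) ^ d) (b * (q : ZMod S.P) ^ d) := by
  obtain ⟨hn0, -⟩ := S.n_facts
  have hR : ∑ q ∈ S.QS i, FF S.P S.n d (S.Y i) (b * (q : ZMod S.P) ^ d) (b * (q : ZMod S.P) ^ d) =
      ∑ a : ZMod S.P, wt S.P S.n a *
        ∑ q ∈ S.QS i, ‖SS S.P d (S.Y i) (a * (b * (q : ZMod S.P) ^ d))‖ ^ 2 := by
    calc _ = ∑ q ∈ S.QS i, ∑ a : ZMod S.P, wt S.P S.n a *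
          ‖SS S.P d (S.Y i) (a * (b * (q : ZMod S.P) ^ d))‖ ^ 2 :=
          sum_congr rfl fun q _ => FF_diag S.n d hn0 (S.Y i) _
      _ = _ := by
          rw [sum_comm]
          exact sum_congr rfl fun a _ => (mul_sum _ _ _).symm
  rw [hR, FF_diag S.n d hn0, mul_sum]
  refine sum_le_sum fun a _ => ?_
  have h1 : ‖SS S.P d (S.X i) (a * b)‖ ≤
      ∑ q ∈ S.QS i, ‖SS S.P d (S.Y i) (a * (b * (q : ZMod S.P) ^ d))‖ := by
    rw [CsM_split S i (a * b)]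
    refine (norm_sum_le _ _).trans (le_of_eq (sum_congr rfl fun q _ => ?_))
    rw [mul_assoc]
  have h2 : ‖SS S.P d (S.X i) (a * b)‖ ^ 2 ≤ ((S.QS i).card : ℝ) *
      ∑ q ∈ S.QS i, ‖SS S.P d (S.Y i) (a * (b * (q : ZMod S.P) ^ d))‖ ^ 2 :=
    (pow_le_pow_left₀ (norm_nonneg _) h1 2).trans sq_sum_le_card_mul_sum_sq
  calc wt S.P S.n a * ‖SS S.P d (S.X i) (a * b)‖ ^ 2
      ≤ wt S.P S.n a * (((S.QS i).card : ℝ) *
        ∑ q ∈ S.QS i, ‖SS S.P d (S.Y i) (a * (b * (q : ZMod S.P) ^ d))‖ ^ 2) :=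
        mul_le_mul_of_nonneg_left h2 (wt_nonneg _ _)
    _ = _ := by ring

end Pool.Agent.Lib.MP_e426f4_ag.DH
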