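import Mathlib
import Pool.Agent.Lib.MP_e426f4_ag.DG.Defs

/-!
# Random diagonal hypersurfaces below the square-root barrier: definitions

Notation of the proof in `DH_proof.md`.  General notation (`FZ`, `FF`, `wt`, `wh`, `psi`, `NN`, `Mavg`,
`kap`, `ed`, `rho`, `nu`, `box`, `ELS`, `HasZero`, `Mixed`, `Arc`) is that of `DG.Defs`.
-/

set_option autoImplicit false

namespace Pool.Agent.Lib.MP_e426f4_ag.DH

open Finset
open Pool.Agent.Lib.MP_e426f4_ag.DG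

/-- There is a non-trivial integral zero with `|x_i|^e ≤ H`. -/
def SmallZ {s : ℕ} (d e H : ℕ) (a : Fin s → ℤ) : Prop :=
  ∃ x : Fin s → ℤ, x ≠ 0 ∧ ∑ i, a i * x i ^ d = 0 ∧ ∀ i, |x i| ^ e ≤ H

/-- The parameters of the proof: `V = R^v`, `T = R^m`, `L = R^(h v - m)`, `M = R^((g+1) v)`,
`B = 16 T M L = 16 V^d`, `BB = 4 T L = 4 V^h`. -/
structure St (d g h s m v E : ℕ) where
  R : ℕ
  H : ℕ
  P : ℕ
  PS : Fin s → Finset ℕ
  QS : Fin s → Finset ℕ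
  hdg : d = g + 1 + h
  hh1 : 2 * g + 6 ≤ h
  hh2 : h ≤ 2 * g + 8
  hs : d + h + 1 ≤ s
  hm : 1 ≤ m
  hmv : 100 * d * m + 100 * d ≤ v
  hE : 2 ≤ E
  hR : 2 ^ (2 * d + 10) ≤ R
  prime : P.Prime
  hH1 : (16 * R ^ (v * d)) ^ h ≤ H
  hH2 : H ≤ 2 ^ (v * d * h) * (16 * R ^ (v * d)) ^ h
  hP : 8 * (s + 2) * H * (16 * R ^ (v * d)) ^ d < P
  hPS : ∀ i, ∀ l ∈ PS i, l.Prime ∧ R ^ (h * v - m) < l ∧ l ≤ 4 * R ^ (h * v - m)
  hQS : ∀ i, ∀ l ∈ QS i, l.Prime ∧ R ^ ((g + 1) * v) < l ∧ l ≤ 4 * R ^ ((g + 1) * v)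
  hPd : ∀ i j, i ≠ j → Disjoint (PS i) (PS j)
  hQd : ∀ i j, i ≠ j → Disjoint (QS i) (QS j)
  hPc : ∀ i, (PS i).card = R ^ (h * v - m - 1)
  hQc : ∀ i, (QS i).card = R ^ ((g + 1) * v - 1)
  htau : ∀ k, 1 ≤ k → k ≤ (16 * R ^ (v * d)) ^ (8 * d) → k.divisors.card ≤ R
  hrho : ∀ k, 1 ≤ k → k ≤ (16 * R ^ (v * d)) ^ (8 * d) → rho d k ≤ R
  hlog : 1 + Real.log ((16 * (R : ℝ) ^ (v * d)) ^ 4) ≤ R

namespace St

variable {d g h s m v E : ℕ} (S : St d g h s m v E)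

def V : ℕ := S.R ^ v

def T : ℕ := S.R ^ m

def L : ℕ := S.R ^ (h * v - m)

def M : ℕ := S.R ^ ((g + 1) * v)

def B : ℕ := 16 * S.R ^ (v * d)

def BB : ℕ := 4 * S.R ^ (v * h)

/-- the length of the dual window -/
def n : ℕ := S.P / (4 * S.H)

def I : Finset ℕ := (Icc 1 (S.R ^ m)).filter fun t => S.R ^ m < E * t

/-- the products `m l` -/
def LM (i : Fin s) : Finset ℕ := (S.QS i ×ˢ S.PS i).image fun z => z.1 * z.2

/-- the numbers `t (m l)` -/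
def X (i : Fin s) : Finset ℕ := (S.I ×ˢ S.LM i).image fun z => z.1 * z.2

/-- the numbers `t l` -/
def Y (i : Fin s) : Finset ℕ := (S.I ×ˢ S.PS i).image fun z => z.1 * z.2

/-- the common cardinality of the sets `X i` -/
noncomputable def XX : ℝ :=
  (S.I.card : ℝ) * ((S.R : ℝ) ^ ((g + 1) * v - 1) * (S.R : ℝ) ^ (h * v - m - 1))

/-- pairs with different large primes `l` -/
def ZA (i : Fin s) : Finset (ℕ × ℕ) :=
  (S.X i ×ˢ S.X i).filter fun z => ¬ ∃ l ∈ S.PS i, l ∣ z.1 ∧ l ∣ z.2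

/-- pairs with the same `l` and different `m` -/
def ZB (i : Fin s) : Finset (ℕ × ℕ) :=
  (S.X i ×ˢ S.X i).filter fun z => (∃ l ∈ S.PS i, l ∣ z.1 ∧ l ∣ z.2) ∧
    ¬ ∃ l ∈ S.QS i, l ∣ z.1 ∧ l ∣ z.2

/-- pairs with the same `l` and the same `m` -/
def ZC (i : Fin s) : Finset (ℕ × ℕ) :=
  (S.X i ×ˢ S.X i).filter fun z => (∃ l ∈ S.PS i, l ∣ z.1 ∧ l ∣ z.2) ∧
    ∃ l ∈ S.QS i, l ∣ z.1 ∧ l ∣ z.2

instance : NeZero S.P := ⟨S.prime.ne_zero⟩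

/-- `min (1, 1/(H B^d |δ|))` -/
noncomputable def lam (A : Arc S.P (4 * S.B ^ d)) (b : ZMod S.P) : ℝ :=
  1 / max 1 ((S.H : ℝ) * (S.B : ℝ) ^ d * |A.dl b|)

/-- size of the major arc peak at `b` -/
noncomputable def pk (A : Arc S.P (4 * S.B ^ d)) (b : ZMod S.P) : ℝ := S.lam A b * kap d (A.q b)

/-- the main quantity `(8 H X²)^s / (H B^d)²` -/
noncomputable def main : ℝ :=
  (8 * (S.H : ℝ) * S.XX ^ 2) ^ s / ((S.H : ℝ) * (S.B : ℝ) ^ d) ^ 2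

/-- major frequencies -/
def Maj (A : Arc S.P (4 * S.B ^ d)) (b : ZMod S.P) : Prop :=
  A.q b ≤ S.H ∧ 1 < (S.B : ℝ) * S.pk A b

end St

/-- right-hand side of the second moment identity for a general weight -/
noncomputable def rhsG (P : ℕ) [NeZero P] {s : ℕ} (n d : ℕ) (X : Fin s → Finset ℕ)
    (φ : ZMod P → ℝ) : ℝ :=
  (1 / (P : ℝ) ^ 2) * ∑ b : ZMod P, ∑ b' : ZMod P, φ b * φ b' * ∏ i, FF P n d (X i) b b'

/-- solutions of two equations, `|a_j| < H` -/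
noncomputable def cnt2 {k : ℕ} (H d : ℕ) (Z : Fin k → Finset (ℕ × ℕ)) : ℝ :=
  ∑ z ∈ Fintype.piFinset Z,
    ((((Fintype.piFinset fun _ : Fin k => Ioo (-(H : ℤ)) H)).filter
      fun a : Fin k → ℤ => ∑ j, a j * ((z j).1 : ℤ) ^ d = 0 ∧
        ∑ j, a j * ((z j).2 : ℤ) ^ d = 0).card : ℝ)

/-- solutions of one equation, `|a_j| < H` -/
noncomputable def cnt1 {k : ℕ} (H d : ℕ) (Z : Fin k → Finset (ℕ × ℕ)) : ℝ :=
  ∑ z ∈ Fintype.piFinset Z,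
    ((((Fintype.piFinset fun _ : Fin k => Ioo (-(H : ℤ)) H)).filter
      fun a : Fin k → ℤ => ∑ j, a j * (((z j).1 : ℤ) ^ d - ((z j).2 : ℤ) ^ d) = 0).card : ℝ)

/-- exponent of `e₀ = h + 1`-type losses -/
def cL (d s : ℕ) : ℕ := 100 * (d + s) + 1000

/-- the values of `m4`, `m = 4 m4` and `v` used -/
def m4v (d : ℕ) : ℕ := 32 * d * (8 * d + 8)
def vv (d s : ℕ) : ℕ := 100 * cL d s * (4 * m4v d)

end Pool.Agent.Lib.MP_e426f4_ag.DH
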