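import Pool.Agent.Lib.MP_e426f4_ag.DH.NuLarge
import Pool.Agent.Lib.MP_e426f4_ag.DG.NuSmall
import Pool.Agent.Lib.MP_e426f4_ag.DG.NuMul
import Pool.Agent.Lib.MP_e426f4_ag.DG.BoxRes

/-!
# LocExc: the local exceptional set, `s ≥ 9`

Copy `DG/LocExc.lean` (with `nu_large` of this folder).
-/

set_option autoImplicit false

namespace Pool.Agent.Lib.MP_e426f4_ag.DH

open Finset
open Pool.Agent.Lib.MP_e426f4_ag.DG

private theorem le_nu_prod (d s : ℕ) (a : Fin s → ℤ) (e : ℕ → ℕ) (T : Finset ℕ)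
    (hT : ∀ p ∈ T, p.Prime) :
    ∏ p ∈ T, nu d (p ^ e p) a ≤ nu d (∏ p ∈ T, p ^ e p) a := by
  induction T using Finset.induction_on with
  | empty =>
    simp only [Finset.prod_empty, nu]
    have : (((Fintype.piFinset fun _ : Fin s => range 1).filter fun x : Fin s → ℕ =>
        (((1 : ℕ) : ℤ)) ∣ ∑ i, a i * (x i : ℤ) ^ d).card) = 1 := by
      rw [Finset.filter_true_of_mem]
      · simp
      · intro x _
        simp
    rw [this]
    simp
  | insert q T hq ih =>
    rw [Finset.prod_insert hq, Finset.prod_insert hq]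
    have hqp : q.Prime := hT q (Finset.mem_insert_self _ _)
    have hTp : ∀ p ∈ T, p.Prime := fun p hp => hT p (Finset.mem_insert_of_mem hp)
    have hcop : Nat.Coprime (q ^ e q) (∏ p ∈ T, p ^ e p) := by
      apply Nat.Coprime.prod_right
      intro p hp
      apply Nat.Coprime.pow
      exact (Nat.coprime_primes hqp (hTp p hp)).2 (fun h => hq (h ▸ hp))
    refine le_trans ?_ (nu_mul d s _ _ hcop (Nat.one_le_iff_ne_zero.2 (pow_ne_zero _ hqp.ne_zero))
      (Nat.one_le_iff_ne_zero.2 (Finset.prod_ne_zero_iff.2 fun p hp =>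
        pow_ne_zero _ (hTp p hp).ne_zero)) a)
    exact mul_le_mul_of_nonneg_left (ih hTp) (by unfold nu; positivity)

private theorem one_sub_le_prod (T : Finset ℕ) (x : ℕ → ℝ) (h0 : ∀ i ∈ T, 0 ≤ x i)
    (h1 : ∀ i ∈ T, x i ≤ 1) : 1 - ∑ i ∈ T, x i ≤ ∏ i ∈ T, (1 - x i) := by
  induction T using Finset.induction_on with
  | empty => simp
  | insert q T hq ih =>
    rw [Finset.sum_insert hq, Finset.prod_insert hq]
    have ih' := ih (fun i hi => h0 i (Finset.mem_insert_of_mem hi))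
      (fun i hi => h1 i (Finset.mem_insert_of_mem hi))
    have hq0 := h0 q (Finset.mem_insert_self _ _)
    have hq1 := h1 q (Finset.mem_insert_self _ _)
    have hs0 : 0 ≤ ∑ i ∈ T, x i :=
      Finset.sum_nonneg fun i hi => h0 i (Finset.mem_insert_of_mem hi)
    have h2 : (1 - x q) * (1 - ∑ i ∈ T, x i) ≤ (1 - x q) * ∏ i ∈ T, (1 - x i) :=
      mul_le_mul_of_nonneg_left ih' (by linarith)
    nlinarith [mul_nonneg hq0 hs0]

private theorem sum_sq_le (T : Finset ℕ) (p0 N : ℕ) (hp0 : 1 ≤ p0) (hT : ∀ p ∈ T, p0 < p ∧ p ≤ N) :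
    ∑ p ∈ T, ((p : ℝ) ^ 2)⁻¹ ≤ (p0 : ℝ)⁻¹ := by
  rcases le_or_gt p0 N with h | h
  · calc ∑ p ∈ T, ((p : ℝ) ^ 2)⁻¹ ≤ ∑ p ∈ Ioc p0 N, ((p : ℝ) ^ 2)⁻¹ := by
          apply Finset.sum_le_sum_of_subset_of_nonneg
          · intro p hp
            exact Finset.mem_Ioc.2 (hT p hp)
          · intro p _ _
            positivity
      _ ≤ (p0 : ℝ)⁻¹ - (N : ℝ)⁻¹ := sum_Ioc_inv_sq_le_sub (by omega) h
      _ ≤ (p0 : ℝ)⁻¹ := by
          have : (0 : ℝ) ≤ (N : ℝ)⁻¹ := by positivity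
          linarith
  · have : T = ∅ := by
      apply Finset.eq_empty_of_forall_notMem
      intro p hp
      have := hT p hp
      omega
    rw [this]
    simp

open Classical in
private theorem dvd_count (s H m : ℕ) (hs : 1 ≤ s) (hm : 1 ≤ m) (hmH : m ≤ H) :
    (((box s H).filter fun a : Fin s → ℤ => ∃ i, (m : ℤ) ∣ a i).card : ℝ) ≤
      s * 4 ^ s * (H : ℝ) ^ s / m := by
  set Bd : Finset (Fin s → ℕ) :=
    (Fintype.piFinset fun _ : Fin s => range m).filter fun r => ∃ i, r i = 0 with hBd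
  have hcard : Bd.card ≤ s * m ^ (s - 1) := by
    have hsub : Bd ⊆ (Finset.univ : Finset (Fin s)).biUnion fun i =>
        Fintype.piFinset fun j : Fin s => if j = i then ({0} : Finset ℕ) else range m := by
      intro r hr
      rw [hBd, Finset.mem_filter, Fintype.mem_piFinset] at hr
      obtain ⟨h1, i, hi⟩ := hr
      rw [Finset.mem_biUnion]
      refine ⟨i, Finset.mem_univ _, Fintype.mem_piFinset.2 fun j => ?_⟩
      by_cases hj : j = i
      · rw [if_pos hj, Finset.mem_singleton, hj, hi]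
      · rw [if_neg hj]
        exact h1 j
    refine (Finset.card_le_card hsub).trans (Finset.card_biUnion_le.trans ?_)
    have : ∀ i ∈ (Finset.univ : Finset (Fin s)),
        (Fintype.piFinset fun j : Fin s => if j = i then ({0} : Finset ℕ) else range m).card
          = m ^ (s - 1) := by
      intro i _
      rw [Fintype.card_piFinset]
      have h1 : ∀ j : Fin s, (if j = i then ({0} : Finset ℕ) else range m).card =
          if j = i then 1 else m := by
        intro j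
        split_ifs
        · rfl
        · exact Finset.card_range m
      simp_rw [h1]
      rw [← Finset.mul_prod_erase Finset.univ _ (Finset.mem_univ i), if_pos rfl, one_mul]
      rw [Finset.prod_congr rfl (g := fun _ => m)
        (fun j hj => if_neg (Finset.ne_of_mem_erase hj))]
      rw [Finset.prod_const, Finset.card_erase_of_mem (Finset.mem_univ i), Finset.card_univ,
        Fintype.card_fin]
    rw [Finset.sum_congr rfl this, Finset.sum_const, Finset.card_univ, Fintype.card_fin,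
      smul_eq_mul]
  have hsub : ((box s H).filter fun a : Fin s → ℤ => ∃ i, (m : ℤ) ∣ a i) ⊆
      (box s H).filter fun a : Fin s → ℤ => ∃ r ∈ Bd, ∀ i, a i ≡ r i [ZMOD m] := by
    intro a ha
    rw [Finset.mem_filter] at ha ⊢
    obtain ⟨h1, i, hi⟩ := ha
    have hm0 : (0 : ℤ) < m := by exact_mod_cast hm
    refine ⟨h1, fun j => (a j % m).toNat, ?_, fun j => ?_⟩
    · rw [hBd, Finset.mem_filter, Fintype.mem_piFinset]
      refine ⟨fun j => ?_, i, ?_⟩
      · rw [Finset.mem_range]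
        have h2 := Int.emod_nonneg (a j) hm0.ne'
        have h3 := Int.emod_lt_of_pos (a j) hm0
        omega
      · show (a i % (m : ℤ)).toNat = 0
        rw [Int.emod_eq_zero_of_dvd hi]
        rfl
    · have h2 := Int.emod_nonneg (a j) hm0.ne'
      rw [Int.toNat_of_nonneg h2]
      exact (Int.mod_modEq (a j) m).symm
  have h1 := box_residue s H m hm hmH Bd
  have h2 : (((box s H).filter fun a : Fin s → ℤ => ∃ i, (m : ℤ) ∣ a i).card : ℝ) ≤
      (((box s H).filter fun a : Fin s → ℤ => ∃ r ∈ Bd, ∀ i, a i ≡ r i [ZMOD m]).card : ℝ) := by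
    exact_mod_cast Finset.card_le_card hsub
  refine h2.trans (h1.trans ?_)
  have hm1 : (0 : ℝ) < m := by exact_mod_cast hm
  have h3 : (Bd.card : ℝ) ≤ s * (m : ℝ) ^ (s - 1) := by exact_mod_cast hcard
  calc (Bd.card : ℝ) * (4 * (H : ℝ) / m) ^ s
      ≤ (s * (m : ℝ) ^ (s - 1)) * (4 * (H : ℝ) / m) ^ s :=
        mul_le_mul_of_nonneg_right h3 (by positivity)
    _ = s * 4 ^ s * (H : ℝ) ^ s / m := by
        have h4 : (m : ℝ) ^ s = (m : ℝ) ^ (s - 1) * m := by
          rw [← pow_succ]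
          congr 1
          omega
        rw [div_pow, mul_pow, h4]
        field_simp

open Classical in
theorem loc_exc (d s : ℕ) (hd : 4 ≤ d) (hs : 9 ≤ s) (eps : ℝ) (heps : 0 < eps) :
    ∃ c0 : ℝ, 0 < c0 ∧ ∀ om : ℕ, 1 ≤ om → ∃ H0 : ℕ, ∀ H : ℕ, H0 ≤ H →
    (((box s H).filter fun a : Fin s → ℤ => (∀ (p : ℕ) [Fact p.Prime], HasZero ℚ_[p] d a) ∧
      nu d om.factorial a < c0 * ((om.factorial : ℕ) : ℝ) ^ (s - 1)).card : ℝ) ≤
      eps * (H : ℝ) ^ s := by
  obtain ⟨C, hC, hlarge⟩ := DH.nu_large d s hd hs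
  obtain ⟨p0, hp0⟩ : ∃ p0 : ℕ, d ≤ p0 ∧ 5 ≤ p0 ∧ 2 * C / eps ≤ p0 := by
    obtain ⟨k, hk⟩ := exists_nat_ge (2 * C / eps)
    refine ⟨max (max d 5) k, by omega, by omega, hk.trans ?_⟩
    exact_mod_cast le_max_right _ _
  obtain ⟨hp0d, hp05, hp0C⟩ := hp0
  obtain ⟨E0, hE0⟩ : ∃ E0 : ℕ, ((p0 : ℝ) + 1) * (s * 4 ^ s) * 2 / eps ≤ 2 ^ (E0 + 1) := by
    obtain ⟨k, hk⟩ := exists_nat_ge (((p0 : ℝ) + 1) * (s * 4 ^ s) * 2 / eps)
    refine ⟨k, hk.trans ?_⟩
    have h1 : k < 2 ^ k := Nat.lt_two_pow_self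
    have h2 : k ≤ 2 ^ (k + 1) := by
      rw [pow_succ]
      omega
    exact_mod_cast h2
  set kk : ℕ := (2 * (E0 + d) + 1) * (s - 1) with hkk
  set A : ℝ := ∏ p ∈ (range (p0 + 1)).filter Nat.Prime, (p : ℝ) ^ kk with hA
  have hA0 : 0 < A := Finset.prod_pos fun p hp => by
    have := (Finset.mem_filter.1 hp).2.pos
    positivity
  refine ⟨1 / 2 * A⁻¹, by positivity, fun om hom => ⟨max om (p0 ^ (E0 + 1)), fun H hH => ?_⟩⟩
  have hHom : om ≤ H := (le_max_left _ _).trans hH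
  have hHp : p0 ^ (E0 + 1) ≤ H := (le_max_right _ _).trans hH
  -- the exceptional sets
  set S1 : ℕ → Finset (Fin s → ℤ) := fun p =>
    (box s H).filter fun a : Fin s → ℤ => ∃ i, ((p ^ (E0 + 1) : ℕ) : ℤ) ∣ a i with hS1
  set S2 : ℕ → Finset (Fin s → ℤ) := fun p =>
    (box s H).filter fun a : Fin s → ℤ => ∃ e : ℕ, 1 ≤ e ∧
      nu d (p ^ e) a < (1 - 2 / (p : ℝ) ^ 2) * (p : ℝ) ^ (e * (s - 1)) with hS2
  set U1 := ((range (p0 + 1)).filter Nat.Prime).biUnion S1 with hU1
  set U2 := ((Ioc p0 om).filter Nat.Prime).biUnion S2 with hU2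
  have hU1c : (U1.card : ℝ) ≤ eps / 2 * (H : ℝ) ^ s := by
    have h1 : (U1.card : ℝ) ≤ ∑ p ∈ (range (p0 + 1)).filter Nat.Prime, ((S1 p).card : ℝ) := by
      exact_mod_cast Finset.card_biUnion_le
    have h2 : ∀ p ∈ (range (p0 + 1)).filter Nat.Prime,
        ((S1 p).card : ℝ) ≤ s * 4 ^ s * (H : ℝ) ^ s / 2 ^ (E0 + 1) := by
      intro p hp
      rw [Finset.mem_filter, Finset.mem_range] at hp
      obtain ⟨hp1, hp2⟩ := hp
      have h3 : p ^ (E0 + 1) ≤ H := (Nat.pow_le_pow_left (by omega) _).trans hHp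
      have h4 : 1 ≤ p ^ (E0 + 1) := Nat.one_le_pow _ _ hp2.pos
      refine (dvd_count s H (p ^ (E0 + 1)) (by omega) h4 h3).trans ?_
      have h5 : (2 : ℝ) ^ (E0 + 1) ≤ ((p ^ (E0 + 1) : ℕ) : ℝ) := by
        exact_mod_cast Nat.pow_le_pow_left hp2.two_le _
      exact div_le_div_of_nonneg_left (by positivity) (by positivity) h5
    have h3 : (((range (p0 + 1)).filter Nat.Prime).card : ℝ) ≤ p0 + 1 := by
      have := Finset.card_filter_le (range (p0 + 1)) Nat.Prime
      rw [Finset.card_range] at this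
      exact_mod_cast this
    have h4 := h1.trans (Finset.sum_le_card_nsmul _ _ _ h2)
    rw [nsmul_eq_mul] at h4
    have h5 : (0 : ℝ) ≤ s * 4 ^ s * (H : ℝ) ^ s / 2 ^ (E0 + 1) := by positivity
    have h6 := h4.trans (mul_le_mul_of_nonneg_right h3 h5)
    refine h6.trans ?_
    have h7 : ((p0 : ℝ) + 1) * (s * 4 ^ s) * 2 ≤ 2 ^ (E0 + 1) * eps := (div_le_iff₀ heps).1 hE0
    have h8 : (0 : ℝ) < 2 ^ (E0 + 1) := by positivity
    have h9 : ((p0 : ℝ) + 1) * (s * 4 ^ s) / 2 ^ (E0 + 1) ≤ eps / 2 := by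
      rw [div_le_div_iff₀ h8 two_pos]
      linarith
    calc ((p0 : ℝ) + 1) * (s * 4 ^ s * (H : ℝ) ^ s / 2 ^ (E0 + 1))
        = ((p0 : ℝ) + 1) * (s * 4 ^ s) / 2 ^ (E0 + 1) * (H : ℝ) ^ s := by ring
      _ ≤ eps / 2 * (H : ℝ) ^ s := mul_le_mul_of_nonneg_right h9 (by positivity)
  have hU2c : (U2.card : ℝ) ≤ eps / 2 * (H : ℝ) ^ s := by
    have h1 : (U2.card : ℝ) ≤ ∑ p ∈ (Ioc p0 om).filter Nat.Prime, ((S2 p).card : ℝ) := by
      exact_mod_cast Finset.card_biUnion_le
    have h2 : ∀ p ∈ (Ioc p0 om).filter Nat.Prime,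
        ((S2 p).card : ℝ) ≤ C * (H : ℝ) ^ s * ((p : ℝ) ^ 2)⁻¹ := by
      intro p hp
      rw [Finset.mem_filter, Finset.mem_Ioc] at hp
      obtain ⟨⟨hp1, hp2⟩, hp3⟩ := hp
      refine (hlarge p H hp3 (by omega) (hp2.trans hHom)).trans (le_of_eq ?_)
      ring
    have h3 := h1.trans (Finset.sum_le_sum h2)
    rw [← Finset.mul_sum] at h3
    have h4 : ∑ p ∈ (Ioc p0 om).filter Nat.Prime, ((p : ℝ) ^ 2)⁻¹ ≤ (p0 : ℝ)⁻¹ :=
      sum_sq_le _ p0 om (by omega) fun p hp => Finset.mem_Ioc.1 (Finset.mem_filter.1 hp).1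
    have h5 : (0 : ℝ) ≤ C * (H : ℝ) ^ s := by positivity
    refine h3.trans ((mul_le_mul_of_nonneg_left h4 h5).trans ?_)
    have hp0R : (0 : ℝ) < p0 := by exact_mod_cast (by omega : 0 < p0)
    have h6 : 2 * C ≤ p0 * eps := (div_le_iff₀ heps).1 hp0C
    have h7 : C * (p0 : ℝ)⁻¹ ≤ eps / 2 := by
      rw [← div_eq_mul_inv, div_le_div_iff₀ hp0R two_pos]
      linarith
    calc C * (H : ℝ) ^ s * (p0 : ℝ)⁻¹ = C * (p0 : ℝ)⁻¹ * (H : ℝ) ^ s := by ring
      _ ≤ eps / 2 * (H : ℝ) ^ s := mul_le_mul_of_nonneg_right h7 (by positivity)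
  -- the inclusion
  have hsub : ((box s H).filter fun a : Fin s → ℤ =>
      (∀ (p : ℕ) [Fact p.Prime], HasZero ℚ_[p] d a) ∧
      nu d om.factorial a < 1 / 2 * A⁻¹ * ((om.factorial : ℕ) : ℝ) ^ (s - 1)) ⊆ U1 ∪ U2 := by
    intro a ha
    rw [Finset.mem_filter] at ha
    obtain ⟨habox, hzero, hnu⟩ := ha
    by_contra hcon
    rw [Finset.mem_union, not_or] at hcon
    obtain ⟨hn1, hn2⟩ := hcon
    have hsmall : ∀ p : ℕ, p.Prime → p ≤ p0 → ∀ e : ℕ,
        ((p : ℝ) ^ kk)⁻¹ * (p : ℝ) ^ (e * (s - 1)) ≤ nu d (p ^ e) a := by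
      intro p hp hpp e
      have : Fact p.Prime := ⟨hp⟩
      apply nu_small d s p e E0 (by omega) (by omega) a (hzero p)
      intro i hi
      apply hn1
      rw [hU1, Finset.mem_biUnion]
      refine ⟨p, Finset.mem_filter.2 ⟨Finset.mem_range.2 (by omega), hp⟩, ?_⟩
      rw [hS1, Finset.mem_filter]
      exact ⟨habox, i, by exact_mod_cast hi⟩
    have hbig : ∀ p : ℕ, p.Prime → p0 < p → p ≤ om → ∀ e : ℕ, 1 ≤ e →
        (1 - 2 * ((p : ℝ) ^ 2)⁻¹) * (p : ℝ) ^ (e * (s - 1)) ≤ nu d (p ^ e) a := by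
      intro p hp hpp hpo e he
      by_contra hlt
      rw [not_le] at hlt
      apply hn2
      rw [hU2, Finset.mem_biUnion]
      refine ⟨p, Finset.mem_filter.2 ⟨Finset.mem_Ioc.2 ⟨hpp, hpo⟩, hp⟩, ?_⟩
      rw [hS2, Finset.mem_filter]
      refine ⟨habox, e, he, ?_⟩
      rw [div_eq_mul_inv]
      exact hlt
    set PF := om.factorial.primeFactors with hPF
    have hPFp : ∀ p ∈ PF, p.Prime := fun p hp => Nat.prime_of_mem_primeFactors hp
    have hPFle : ∀ p ∈ PF, p ≤ om := fun p hp =>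
      (hPFp p hp).dvd_factorial.1 (Nat.dvd_of_mem_primeFactors hp)
    have hfac : ∏ p ∈ PF, p ^ (om.factorial.factorization p) = om.factorial := by
      have := Nat.prod_factorization_pow_eq_self (Nat.factorial_ne_zero om)
      rwa [Finsupp.prod, Nat.support_factorization] at this
    have hprod := le_nu_prod d s a (fun p => om.factorial.factorization p) PF hPFp
    rw [hfac] at hprod
    set c : ℕ → ℝ := fun p => if p ≤ p0 then ((p : ℝ) ^ kk)⁻¹ else 1 - 2 * ((p : ℝ) ^ 2)⁻¹ with hc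
    have hc0 : ∀ p ∈ PF, 0 ≤ c p := by
      intro p hp
      simp only [hc]
      split_ifs with h
      · positivity
      · have h1 : (6 : ℝ) ≤ p := by exact_mod_cast (by omega : 6 ≤ p)
        have h2 : ((p : ℝ) ^ 2)⁻¹ ≤ 1 / 2 := by
          rw [inv_le_comm₀ (by positivity) (by norm_num)]
          nlinarith
        linarith
    have hterm : ∀ p ∈ PF, c p * (p : ℝ) ^ (om.factorial.factorization p * (s - 1)) ≤
        nu d (p ^ (om.factorial.factorization p)) a := by
      intro p hp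
      simp only [hc]
      split_ifs with h
      · exact hsmall p (hPFp p hp) h _
      · apply hbig p (hPFp p hp) (by omega) (hPFle p hp)
        exact (hPFp p hp).factorization_pos_of_dvd (Nat.factorial_ne_zero om)
          (Nat.dvd_of_mem_primeFactors hp)
    have h1 : ∏ p ∈ PF, (c p * (p : ℝ) ^ (om.factorial.factorization p * (s - 1))) ≤
        ∏ p ∈ PF, nu d (p ^ (om.factorial.factorization p)) a :=
      Finset.prod_le_prod (fun p hp => mul_nonneg (hc0 p hp) (by positivity)) hterm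
    rw [Finset.prod_mul_distrib] at h1
    have h2 : ∏ p ∈ PF, (p : ℝ) ^ (om.factorial.factorization p * (s - 1)) =
        ((om.factorial : ℕ) : ℝ) ^ (s - 1) := by
      conv_rhs => rw [← hfac]
      push_cast
      rw [← Finset.prod_pow]
      refine Finset.prod_congr rfl fun p _ => ?_
      rw [pow_mul]
    rw [h2] at h1
    have h3 : 1 / 2 * A⁻¹ ≤ ∏ p ∈ PF, c p := by
      rw [← Finset.prod_filter_mul_prod_filter_not PF (fun p => p ≤ p0)]
      have h4 : A⁻¹ ≤ ∏ p ∈ PF.filter (fun p => p ≤ p0), c p := by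
        have h5 : ∏ p ∈ PF.filter (fun p => p ≤ p0), c p =
            (∏ p ∈ PF.filter (fun p => p ≤ p0), (p : ℝ) ^ kk)⁻¹ := by
          rw [← Finset.prod_inv_distrib]
          refine Finset.prod_congr rfl fun p hp => ?_
          simp only [hc]
          rw [if_pos (Finset.mem_filter.1 hp).2]
        rw [h5]
        have hpos : 0 < ∏ p ∈ PF.filter (fun p => p ≤ p0), (p : ℝ) ^ kk :=
          Finset.prod_pos fun p hp => by
            have := (hPFp p (Finset.mem_filter.1 hp).1).pos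
            positivity
        apply inv_anti₀ hpos
        have hss : PF.filter (fun p => p ≤ p0) ⊆ (range (p0 + 1)).filter Nat.Prime := by
          intro p hp
          rw [Finset.mem_filter] at hp
          exact Finset.mem_filter.2 ⟨Finset.mem_range.2 (by omega), hPFp p hp.1⟩
        rw [hA, ← Finset.prod_sdiff hss]
        have hone : (1 : ℝ) ≤ ∏ p ∈ ((range (p0 + 1)).filter Nat.Prime) \
            PF.filter (fun p => p ≤ p0), (p : ℝ) ^ kk := by
          have : ∏ p ∈ ((range (p0 + 1)).filter Nat.Prime) \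
              PF.filter (fun p => p ≤ p0), (1 : ℝ) ≤ ∏ p ∈ ((range (p0 + 1)).filter Nat.Prime) \
              PF.filter (fun p => p ≤ p0), (p : ℝ) ^ kk := by
            apply Finset.prod_le_prod
            · intro p _
              exact zero_le_one
            · intro p hp
              have h6 := (Finset.mem_filter.1 (Finset.mem_sdiff.1 hp).1).2.one_le
              exact one_le_pow₀ (by exact_mod_cast h6)
          simpa using this
        exact le_mul_of_one_le_left hpos.le hone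
      have h5 : (1 : ℝ) / 2 ≤ ∏ p ∈ PF.filter (fun p => ¬ p ≤ p0), c p := by
        have h6 : ∏ p ∈ PF.filter (fun p => ¬ p ≤ p0), c p =
            ∏ p ∈ PF.filter (fun p => ¬ p ≤ p0), (1 - 2 * ((p : ℝ) ^ 2)⁻¹) := by
          refine Finset.prod_congr rfl fun p hp => ?_
          simp only [hc]
          rw [if_neg (Finset.mem_filter.1 hp).2]
        rw [h6]
        refine le_trans ?_ (one_sub_le_prod _ _ (fun p _ => by positivity) fun p hp => ?_)
        · have h7 : ∑ p ∈ PF.filter (fun p => ¬ p ≤ p0), ((p : ℝ) ^ 2)⁻¹ ≤ (p0 : ℝ)⁻¹ :=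
            sum_sq_le _ p0 om (by omega) fun p hp => by
              rw [Finset.mem_filter] at hp
              exact ⟨by omega, hPFle p hp.1⟩
          rw [← Finset.mul_sum]
          have h8 : (p0 : ℝ)⁻¹ ≤ 1 / 4 := by
            have h9 : (5 : ℝ) ≤ p0 := by exact_mod_cast hp05
            rw [inv_le_comm₀ (by positivity) (by norm_num)]
            linarith
          linarith
        · rw [Finset.mem_filter] at hp
          have h7 : (6 : ℝ) ≤ p := by exact_mod_cast (by omega : 6 ≤ p)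
          have h8 : ((p : ℝ) ^ 2)⁻¹ ≤ 1 / 2 := by
            rw [inv_le_comm₀ (by positivity) (by norm_num)]
            nlinarith
          linarith
      calc 1 / 2 * A⁻¹ = A⁻¹ * (1 / 2) := by ring
        _ ≤ _ := mul_le_mul h4 h5 (by norm_num) (le_trans (by positivity) h4)
    have h4 : 1 / 2 * A⁻¹ * ((om.factorial : ℕ) : ℝ) ^ (s - 1) ≤ nu d om.factorial a :=
      (mul_le_mul_of_nonneg_right h3 (by positivity)).trans (h1.trans hprod)
    exact absurd hnu (not_lt.2 h4)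
  have hfin : (((box s H).filter fun a : Fin s → ℤ =>
      (∀ (p : ℕ) [Fact p.Prime], HasZero ℚ_[p] d a) ∧
      nu d om.factorial a < 1 / 2 * A⁻¹ * ((om.factorial : ℕ) : ℝ) ^ (s - 1)).card : ℝ) ≤
      (U1.card : ℝ) + U2.card := by
    exact_mod_cast (Finset.card_le_card hsub).trans (Finset.card_union_le _ _)
  linarith [hfin, hU1c, hU2c]

end Pool.Agent.Lib.MP_e426f4_ag.DH
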