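import Pool.Agent.Lib.MP_e426f4_ag.DH.CombMaj
import Pool.Agent.Lib.MP_e426f4_ag.DH.CombE
import Pool.Agent.Lib.MP_e426f4_ag.DH.CombO
import Pool.Agent.Lib.MP_e426f4_ag.DG.ArcEx

/-!
# RhsSmall: the three classes together
-/

set_option autoImplicit false

namespace Pool.Agent.Lib.MP_e426f4_ag.DH

open Finset
open Pool.Agent.Lib.MP_e426f4_ag.DG

open Classical in
theorem rhs_small (d g h s E : ℕ) (hdg : d = g + 1 + h) (hh1 : 2 * g + 6 ≤ h) (hh2 : h ≤ 2 * g + 8)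
    (hs : d + h + 1 ≤ s) (hE : 2 ≤ E) (eta : ℝ)
    (heta : 0 < eta) : ∃ (om : ℕ) (e0 : ℝ) (R0 : ℕ), 1 ≤ om ∧ 0 < e0 ∧ ∀ (J : ℕ)
      (S : St d g h s (4 * m4v d) (vv d s) E), R0 ≤ S.R →
    ((om.factorial : ℝ) * J ≤ e0 * S.H * (S.B : ℝ) ^ d) →
    ∃ φ1 φ2 φ3 : ZMod S.P → ℝ, (∀ b, psi S.P om.factorial J b = φ1 b + φ2 b + φ3 b) ∧
      rhsG S.P S.n d S.X φ1 + rhsG S.P S.n d S.X φ2 + rhsG S.P S.n d S.X φ3 ≤ eta * S.main := by
  obtain ⟨C1, hC1, h1⟩ := comb_maj d g h s (m4v d) (vv d s) E le_rfl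
  obtain ⟨C2, U, hC2, hU, h2⟩ := comb_E d g h s (4 * m4v d) (vv d s) E
  obtain ⟨C3, hC3, h3⟩ := comb_O d g h s (4 * m4v d) (vv d s) E U hU
  obtain ⟨om, e0, hom, he0, h1⟩ := h1 (eta / 2) (by positivity)
  refine ⟨om, e0, ⌈(C1 + C2 + C3) / (eta / 2)⌉₊ + 1, hom, he0, fun J S hR hJ => ?_⟩
  obtain ⟨A⟩ := exists_arc S.P (4 * S.B ^ d) S.prime.pos
    (by have := Nat.one_le_pow d S.B S.B_pos; omega)
  have hRN : 1 ≤ S.R := S.R_pos
  have hRpos : (0 : ℝ) < S.R := by exact_mod_cast hRN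
  have hR1 : (1 : ℝ) ≤ S.R := by exact_mod_cast hRN
  have hmn : 0 ≤ S.main := by
    unfold St.main
    positivity
  have hm1 : 1 ≤ 4 * m4v d := by
    have : 1 * 1 ≤ 32 * d * (8 * d + 8) := Nat.mul_le_mul (by omega) (by omega)
    unfold m4v
    omega
  have hcL : 1 ≤ cL d s := by unfold cL; omega
  have hcm : 1 ≤ cL d s * (4 * m4v d) := Nat.mul_pos hcL hm1
  have hvv : vv d s = 100 * (cL d s * (4 * m4v d)) := by
    unfold vv
    ring
  have hV : (S.V : ℝ) = (S.R : ℝ) ^ (vv d s) := by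
    unfold St.V
    push_cast
    ring
  have hVp : (0 : ℝ) < S.V := by rw [hV]; positivity
  have hpow : ∀ k, k + 1 ≤ vv d s → ∀ C : ℝ, 0 < C →
      C * (S.R : ℝ) ^ k / S.V ≤ C / S.R := by
    intro k hk C hC
    rw [div_le_div_iff₀ hVp hRpos, mul_assoc, ← pow_succ, hV]
    exact mul_le_mul_of_nonneg_left (pow_le_pow_right₀ hR1 hk) hC.le
  have e1 := h1 J S A hJ
  have e2 := (h2 S A om.factorial J).trans
    (mul_le_mul_of_nonneg_right (hpow (cL d s * (4 * m4v d)) (by omega) C2 hC2) hmn)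
  have e3 := (h3 S A om.factorial J).trans
    (mul_le_mul_of_nonneg_right (hpow (4 * cL d s * (4 * m4v d))
      (by rw [mul_assoc]; omega) C3 hC3) hmn)
  have k3 : (C1 + C2 + C3) / S.R ≤ eta / 2 := by
    rw [div_le_iff₀ hRpos]
    have h4 : (C1 + C2 + C3) / (eta / 2) ≤ S.R := by
      have h5 : (⌈(C1 + C2 + C3) / (eta / 2)⌉₊ : ℝ) ≤ S.R := by
        exact_mod_cast (by omega : ⌈(C1 + C2 + C3) / (eta / 2)⌉₊ ≤ S.R)
      exact (Nat.le_ceil _).trans h5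
    rw [div_le_iff₀ (by positivity)] at h4
    linarith
  have k4 := mul_le_mul_of_nonneg_right k3 hmn
  have k5 : (C1 + C2 + C3) / S.R * S.main = C1 / S.R * S.main + C2 / S.R * S.main +
    C3 / S.R * S.main := by ring
  rw [k5] at k4
  have k6 : (eta / 2 + C1 / S.R) * S.main = eta / 2 * S.main + C1 / S.R * S.main := by ring
  rw [k6] at e1
  refine ⟨_, _, _, fun b => ?_, (add_le_add (add_le_add e1 e2) e3).trans (by linarith)⟩
  by_cases hb : S.Maj A b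
  · rw [if_pos hb, if_neg (fun h => h.1 hb), if_neg (fun h => h.1 hb)]
    ring
  · rw [if_neg hb]
    by_cases hE2 : ∃ i, U * (S.R : ℝ) ^ 2 * S.H * S.B < FF S.P S.n d (S.X i) b b
    · have hnall : ¬ (¬ S.Maj A b ∧
          ∀ i, FF S.P S.n d (S.X i) b b ≤ U * (S.R : ℝ) ^ 2 * S.H * S.B) := by
        rintro ⟨-, h⟩
        obtain ⟨i, hi⟩ := hE2
        exact absurd (h i) (not_le.2 hi)
      rw [if_pos ⟨hb, hE2⟩, if_neg hnall]
      ring
    · have hall : ∀ i, FF S.P S.n d (S.X i) b b ≤ U * (S.R : ℝ) ^ 2 * S.H * S.B := fun i => by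
        by_contra hcon
        exact hE2 ⟨i, not_le.1 hcon⟩
      rw [if_neg (fun h => hE2 h.2), if_pos ⟨hb, hall⟩]
      ring

end Pool.Agent.Lib.MP_e426f4_ag.DH
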