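import Pool.Agent.Lib.MP_e426f4_ag.DH.Defs
import Pool.Agent.Lib.MP_e426f4_ag.DG.Primes
import Pool.Agent.Lib.MP_e426f4_ag.DG.Rho
import Pool.Agent.Lib.MP_dd84fd_nt.DivBound

/-!
# StEx: existence of the parameters

Adapt `DG/SetupEx.lean` (copy its private lemmas).  `R` is maximal with `(16 R^(v d))^h ≤ H`, so
`H < (16 (R+1)^(v d))^h ≤ 2^(v d h) (16 R^(v d))^h`.  `PS`: `many_primes s` with `Mx = h v - m`; `QS`:
`many_primes s` with `Mx = (g+1) v` (both exponents are `≥ 2` by `hmv`).  `P`: any prime above the bound.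
`tau`, `rho`: `div_bound`, `rho_bound` with a large power, as in `DG/SetupEx` (`pow_bound`);
`hlog`: `log_big`.
-/

set_option autoImplicit false

namespace Pool.Agent.Lib.MP_e426f4_ag.DH

open Finset
open Pool.Agent.Lib.MP_e426f4_ag.DG

private theorem exists_R (f : ℕ → ℕ) (hf : Monotone f) (hf1 : ∀ R, R ≤ f R) (R1 H : ℕ)
    (hH : f R1 ≤ H) : ∃ R, R1 ≤ R ∧ f R ≤ H ∧ H < f (R + 1) := by
  classical
  have h1 : R1 ≤ H := (hf1 R1).trans hH
  refine ⟨Nat.findGreatest (fun R => f R ≤ H) H, ?_, ?_, ?_⟩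
  · exact Nat.le_findGreatest h1 hH
  · exact Nat.findGreatest_spec (P := fun R => f R ≤ H) h1 hH
  · by_contra hcon
    push Not at hcon
    have h2 : Nat.findGreatest (fun R => f R ≤ H) H + 1 ≤ H := (hf1 _).trans hcon
    have := Nat.le_findGreatest (P := fun R => f R ≤ H) h2 hcon
    omega

private theorem split_parts (A : Finset ℕ) (s n : ℕ) (h : s * n ≤ A.card) :
    ∃ PS : Fin s → Finset ℕ, (∀ i, PS i ⊆ A) ∧ (∀ i j, i ≠ j → Disjoint (PS i) (PS j)) ∧
      ∀ i, (PS i).card = n := by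
  classical
  let e := A.orderEmbOfCardLe h
  refine ⟨fun i => (univ : Finset (Fin n)).image fun j => e (finProdFinEquiv (i, j)), ?_, ?_, ?_⟩
  · intro i x hx
    obtain ⟨j, -, rfl⟩ := mem_image.1 hx
    exact Finset.orderEmbOfCardLe_mem A h _
  · intro i j hij
    rw [Finset.disjoint_left]
    intro x hx hx'
    obtain ⟨a, -, rfl⟩ := mem_image.1 hx
    obtain ⟨b, -, hb⟩ := mem_image.1 hx'
    have := e.injective hb
    have h2 := finProdFinEquiv.injective this
    exact hij (congrArg Prod.fst h2).symm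
  · intro i
    rw [card_image_of_injective]
    · simp
    · intro a b hab
      have h2 := finProdFinEquiv.injective (e.injective hab)
      exact congrArg Prod.snd h2

private theorem log_big (c : ℝ) (a : ℝ) : ∃ R0 : ℕ, ∀ R : ℕ, R0 ≤ R →
    a + c * Real.log R ≤ R := by
  have h := Real.isLittleO_log_id_atTop.bound (c := 1 / (2 * (|c| + 1))) (by positivity)
  have h1 : ∀ᶠ x : ℝ in Filter.atTop, a + c * Real.log x ≤ x := by
    filter_upwards [h, Filter.eventually_ge_atTop (2 * |a| + 1)] with x hx hx2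
    simp only [id, Real.norm_eq_abs] at hx
    have hx0 : 0 < x := by linarith [abs_nonneg a]
    rw [abs_of_pos hx0] at hx
    have h3 : c * Real.log x ≤ |c| * |Real.log x| := by
      rw [← abs_mul]; exact le_abs_self _
    have h4 : |c| * |Real.log x| ≤ x / 2 := by
      have : |c| * |Real.log x| ≤ |c| * (1 / (2 * (|c| + 1)) * x) :=
        mul_le_mul_of_nonneg_left hx (abs_nonneg _)
      refine this.trans ?_
      have h5 : |c| * (1 / (2 * (|c| + 1)) * x) = (|c| / (|c| + 1)) * (x / 2) := by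
        field_simp
      rw [h5]
      have h6 : |c| / (|c| + 1) ≤ 1 := by
        rw [div_le_one (by positivity)]; linarith
      calc |c| / (|c| + 1) * (x / 2) ≤ 1 * (x / 2) :=
            mul_le_mul_of_nonneg_right h6 (by positivity)
        _ = x / 2 := one_mul _
    have := le_abs_self a
    linarith
  have h2 := tendsto_natCast_atTop_atTop (R := ℝ) |>.eventually h1
  obtain ⟨R0, hR0⟩ := Filter.eventually_atTop.1 h2
  exact ⟨R0, hR0⟩

private theorem pow_bound (R d e C t k : ℕ) (hC : C * 16 ^ (8 * d) ≤ R)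
    (ht : t ^ (8 * d * e + 1) ≤ C * k) (hk : k ≤ (16 * R ^ e) ^ (8 * d)) : t ≤ R := by
  have h1 : t ^ (8 * d * e + 1) ≤ R ^ (8 * d * e + 1) := by
    calc t ^ (8 * d * e + 1) ≤ C * k := ht
      _ ≤ C * (16 * R ^ e) ^ (8 * d) := Nat.mul_le_mul_left _ hk
      _ = (C * 16 ^ (8 * d)) * R ^ (8 * d * e) := by
          rw [mul_pow, ← pow_mul, mul_comm e (8 * d)]; ring
      _ ≤ R * R ^ (8 * d * e) := Nat.mul_le_mul_right _ hC
      _ = R ^ (8 * d * e + 1) := by rw [pow_succ]; ring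
  exact (Nat.pow_le_pow_iff_left (by omega)).1 h1

theorem exists_st (d g h s m v E R0 : ℕ) (hdg : d = g + 1 + h) (hh1 : 2 * g + 6 ≤ h)
    (hh2 : h ≤ 2 * g + 8) (hs : d + h + 1 ≤ s) (hm : 1 ≤ m) (hmv : 100 * d * m + 100 * d ≤ v)
    (hE : 2 ≤ E) :
    ∃ H0 : ℕ, ∀ H : ℕ, H0 ≤ H → ∃ S : St d g h s m v E, S.H = H ∧ R0 ≤ S.R := by
  have hd1 : 1 ≤ d := by omega
  have hh0 : 1 ≤ h := by omega
  have hvm : m + 2 ≤ v := by
    have h1 : 1 * m ≤ 100 * d * m := Nat.mul_le_mul_right _ (by omega)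
    omega
  have hvh : v ≤ h * v := Nat.le_mul_of_pos_left v hh0
  have hvg : v ≤ (g + 1) * v := Nat.le_mul_of_pos_left v (by omega)
  have hvd : 1 ≤ v * d := Nat.mul_pos (by omega) hd1
  obtain ⟨Ra, hRa⟩ := many_primes s
  obtain ⟨Ct, -, hCt⟩ := Pool.Agent.Lib.MP_dd84fd_nt.DivBound.div_bound (8 * d * (v * d) + 1)
  obtain ⟨Cr, -, hCr⟩ := rho_bound d (by omega) (8 * d * (v * d) + 1)
  obtain ⟨Rl, hRl⟩ := log_big (4 * (v * d)) (1 + 4 * Real.log 16)
  set f : ℕ → ℕ := fun R => (16 * R ^ (v * d)) ^ h with hf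
  have hmono : Monotone f := by
    intro a b hab
    simp only [hf]
    gcongr
  have hge : ∀ R, R ≤ f R := by
    intro R
    simp only [hf]
    have h1 : R ≤ R ^ (v * d) := Nat.le_self_pow (by omega) R
    have h2 : 16 * R ^ (v * d) ≤ (16 * R ^ (v * d)) ^ h := Nat.le_self_pow (by omega) _
    omega
  obtain ⟨p0, hp0⟩ : ∃ p0, p0 = 2 ^ (2 * d + 10) := ⟨_, rfl⟩
  set R1 := 2 + p0 + R0 + Ra + Ct * 16 ^ (8 * d) + Cr * 16 ^ (8 * d) + Rl +
    (h * v) ^ 2 + ((g + 1) * v) ^ 2 with hR1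
  refine ⟨f R1, fun H hH => ?_⟩
  obtain ⟨R, hR, hR2, hR3⟩ := exists_R f hmono hge R1 H hH
  obtain ⟨P, hP1, hP2⟩ := Nat.exists_infinite_primes (8 * (s + 2) * H * (16 * R ^ (v * d)) ^ d + 1)
  have hMR : ((h * v - m : ℕ) : ℝ) ^ 2 ≤ R := by
    have h1 : (h * v - m) ^ 2 ≤ (h * v) ^ 2 := Nat.pow_le_pow_left (Nat.sub_le _ _) 2
    have : (h * v - m) ^ 2 ≤ R := by omega
    exact_mod_cast this
  have hMQ : (((g + 1) * v : ℕ) : ℝ) ^ 2 ≤ R := by
    have : ((g + 1) * v) ^ 2 ≤ R := by omega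
    exact_mod_cast this
  obtain ⟨PS, hPS1, hPS2, hPS3⟩ := split_parts _ s (R ^ (h * v - m - 1))
    (hRa R (h * v - m) (by omega) (by omega) hMR)
  obtain ⟨QS, hQS1, hQS2, hQS3⟩ := split_parts _ s (R ^ ((g + 1) * v - 1))
    (hRa R ((g + 1) * v) (by omega) (by omega) hMQ)
  have hRpos : 0 < R := by omega
  refine ⟨{ R := R, H := H, P := P, PS := PS, QS := QS, hdg := hdg, hh1 := hh1, hh2 := hh2,
            hs := hs, hm := hm, hmv := hmv, hE := hE, hR := by rw [← hp0]; omega, prime := hP2,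
            hH1 := hR2, hH2 := ?_, hP := by omega, hPS := ?_, hQS := ?_, hPd := hPS2,
            hQd := hQS2, hPc := hPS3, hQc := hQS3,
            htau := ?_, hrho := ?_, hlog := ?_ }, rfl, ?_⟩
  · refine hR3.le.trans ?_
    simp only [hf]
    calc (16 * (R + 1) ^ (v * d)) ^ h
        ≤ (16 * (2 * R) ^ (v * d)) ^ h := by
          have : R + 1 ≤ 2 * R := by omega
          gcongr
      _ = 2 ^ (v * d * h) * (16 * R ^ (v * d)) ^ h := by
          rw [mul_pow 2 R (v * d), show 16 * (2 ^ (v * d) * R ^ (v * d)) =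
            2 ^ (v * d) * (16 * R ^ (v * d)) by ring, mul_pow (2 ^ (v * d)), ← pow_mul]
  · intro i l hl
    have := hPS1 i hl
    rw [mem_filter, mem_Ioc] at this
    exact ⟨this.2, this.1.1, this.1.2⟩
  · intro i l hl
    have := hQS1 i hl
    rw [mem_filter, mem_Ioc] at this
    exact ⟨this.2, this.1.1, this.1.2⟩
  · intro k hk1 hk2
    exact pow_bound R d (v * d) Ct _ k (by omega) (hCt k (by omega)) hk2
  · intro k hk1 hk2
    exact pow_bound R d (v * d) Cr _ k (by omega) (hCr k hk1) hk2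
  · have h1 := hRl R (by omega)
    have hR0' : (0 : ℝ) < (R : ℝ) := by exact_mod_cast hRpos
    have h2 : Real.log ((16 * (R : ℝ) ^ (v * d)) ^ 4) =
        4 * Real.log 16 + 4 * (v * d) * Real.log R := by
      rw [Real.log_pow, Real.log_mul (by positivity) (by positivity), Real.log_pow]
      push_cast
      ring
    rw [h2]
    linarith
  · show R0 ≤ R
    omega

end Pool.Agent.Lib.MP_e426f4_ag.DH
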