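import Pool.Agent.Lib.MP_e426f4_ag.DH.NZero
import Pool.Agent.Lib.MP_e426f4_ag.DH.MavgLow
import Pool.Agent.Lib.MP_e426f4_ag.DH.LocExc
import Pool.Agent.Lib.MP_e426f4_ag.DH.StEx
import Pool.Agent.Lib.MP_e426f4_ag.DH.RhsSmall
import Pool.Agent.Lib.MP_e426f4_ag.DH.BadG
import Pool.Agent.Lib.MP_e426f4_ag.DG.BoxRes

/-!
# FinalMixed

Adapt `DG/FinalMixed.lean` (`bad_count` of this folder with the three weights of `rhs_small`).
-/

set_option autoImplicit false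

namespace Pool.Agent.Lib.MP_e426f4_ag.DH

open Finset
open Pool.Agent.Lib.MP_e426f4_ag.DG

open Classical in
theorem final_mixed (d g h s : ℕ) (hdg : d = g + 1 + h) (hh1 : 2 * g + 6 ≤ h) (hh2 : h ≤ 2 * g + 8)
    (hs : d + h + 1 ≤ s) (eps : ℝ) (heps : 0 < eps) :
    ∃ H0 : ℕ, ∀ H : ℕ, H0 ≤ H →
    (((box s H).filter fun a : Fin s → ℤ => ELS d a ∧ Mixed a ∧ ¬ SmallZ d h H a).card : ℝ) ≤
      eps * (H : ℝ) ^ s := by
  have hd4 : 4 ≤ d := by omega
  have hd1 : 1 ≤ d := by omega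
  obtain ⟨c1, hc1, hc1', H1, hH1⟩ := small_coeff s (eps / 3) (by positivity)
  obtain ⟨E, c3, e1, hE, hc3, he1, hMl⟩ := Mavg_lower d g h s hd4 (by omega) c1 hc1 hc1'
  obtain ⟨c0, hc0, hloc⟩ := DH.loc_exc d s hd4 (by omega) (eps / 3) (by positivity)
  obtain ⟨om, e0, R0, hom, he0, hrhs⟩ := DH.rhs_small d g h s E hdg hh1 hh2 hs hE
    (eps / 3 * (c0 * c3) ^ 2 / (3 * 16 ^ s)) (by positivity)
  have hm1 : 1 ≤ 4 * m4v d := by
    unfold m4v
    have : 1 ≤ 32 * d * (8 * d + 8) := Nat.mul_pos (by omega) (by omega)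
    omega
  have hmv : 100 * d * (4 * m4v d) + 100 * d ≤ vv d s := by
    unfold vv cL
    obtain ⟨k, hk⟩ : ∃ k, k = 4 * m4v d := ⟨_, rfl⟩
    rw [← hk] at hm1 ⊢
    have h1 : 100 * d ≤ 100 * d * k := Nat.le_mul_of_pos_right _ hm1
    have h2 : 100 * (100 * (d + s) + 1000) * k = 100 * d * k * 100 + 100 * (100 * s + 1000) * k := by
      ring
    rw [h2]
    omega
  obtain ⟨R1, hR1⟩ := hMl om (4 * m4v d) (vv d s) (min e0 e1) hm1 hom (lt_min he0 he1)
    (min_le_right _ _)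
  obtain ⟨H2, hH2⟩ := hloc om hom
  obtain ⟨H3, hH3⟩ := exists_st d g h s (4 * m4v d) (vv d s) E (max R0 R1) hdg hh1 hh2 hs hm1 hmv hE
  refine ⟨max H1 (max H2 H3), fun H hH => ?_⟩
  have h1 := hH1 H (le_trans (le_max_left _ _) hH)
  have h2 := hH2 H (le_trans (le_trans (le_max_left _ _) (le_max_right _ _)) hH)
  obtain ⟨S, hSH, hSR⟩ := hH3 H (le_trans (le_trans (le_max_right _ _) (le_max_right _ _)) hH)
  have hR0 : R0 ≤ S.R := le_trans (le_max_left _ _) hSR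
  have hR1' : R1 ≤ S.R := le_trans (le_max_right _ _) hSR
  set J : ℕ := ⌊min e0 e1 * S.H * (S.B : ℝ) ^ d / om.factorial⌋₊ with hJ
  have hfac : (0 : ℝ) < om.factorial := by exact_mod_cast Nat.factorial_pos om
  obtain ⟨hn0, hnP, hnH, hP8, hPB, h2H, hHpos⟩ := S.n_facts
  have hJle : (om.factorial : ℝ) * J ≤ e0 * S.H * (S.B : ℝ) ^ d := by
    have : (J : ℝ) ≤ min e0 e1 * S.H * (S.B : ℝ) ^ d / om.factorial :=
      Nat.floor_le (by positivity)
    calc (om.factorial : ℝ) * J ≤ om.factorial * (min e0 e1 * S.H * (S.B : ℝ) ^ d / om.factorial) := by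
          gcongr
      _ = min e0 e1 * S.H * (S.B : ℝ) ^ d := by field_simp
      _ ≤ e0 * S.H * (S.B : ℝ) ^ d := by
          gcongr
          exact min_le_left _ _
  obtain ⟨φ1, φ2, φ3, hφ, hr⟩ := hrhs J S hR0 hJle
  have hHpos' : (0 : ℝ) < S.H := by exact_mod_cast hHpos
  have hB1 := S.B_pos
  have hBpos : (0 : ℝ) < S.B := by exact_mod_cast hB1
  obtain ⟨hXl, hXu⟩ := S.XX_bounds
  have hRpos : (0 : ℝ) < S.R := by exact_mod_cast S.R_pos
  have hXpos : 0 < S.XX := lt_of_lt_of_le (by positivity) hXl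
  -- the bad set
  set A := (box s H).filter (fun a : Fin s → ℤ => ELS d a ∧ Mixed a ∧ ¬ SmallZ d h H a ∧
    (∀ i, c1 * H ≤ |(a i : ℝ)|) ∧ c0 * ((om.factorial : ℕ) : ℝ) ^ (s - 1) ≤ nu d om.factorial a)
    with hA
  have hbox : ∀ a ∈ box s H, ∀ i, |a i| ≤ (H : ℤ) := by
    intro a ha i
    have := Fintype.mem_piFinset.mp ha i
    rw [Finset.mem_Icc] at this
    exact abs_le.mpr this
  have hcount : (A.card : ℝ) * (c0 * c3 * S.XX ^ s / ((S.H : ℝ) * (S.B : ℝ) ^ d)) ^ 2 ≤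
      2 ^ s * (3 * (rhsG S.P S.n d S.X φ1 + rhsG S.P S.n d S.X φ2 + rhsG S.P S.n d S.X φ3)) := by
    refine DH.bad_count S.P S.n d om.factorial J S.H hn0 hnH h2H S.X A ?_ _ (by positivity) ?_ ?_
      φ1 φ2 φ3 hφ
    · intro a ha i
      rw [hA, Finset.mem_filter] at ha
      rw [hSH]
      exact hbox a ha.1 i
    · intro a ha
      rw [hA, Finset.mem_filter] at ha
      refine DH.NN_eq_zero S a ?_ ?_
      · intro i
        rw [hSH]
        exact hbox a ha.1 i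
      · rw [hSH]
        exact ha.2.2.2.1
    · intro a ha
      rw [hA, Finset.mem_filter] at ha
      refine hR1 S J hR1' hJ a c0 hc0 ha.2.2.1 ?_ ha.2.2.2.2.2
      intro i
      rw [hSH]
      refine ⟨ha.2.2.2.2.1 i, ?_⟩
      have := hbox a ha.1 i
      exact_mod_cast this
  have hAc : (A.card : ℝ) ≤ eps / 3 * (H : ℝ) ^ s := by
    have h3 : (A.card : ℝ) * (c0 * c3 * S.XX ^ s / ((S.H : ℝ) * (S.B : ℝ) ^ d)) ^ 2 ≤
        2 ^ s * (3 * ((eps / 3 * (c0 * c3) ^ 2 / (3 * 16 ^ s)) * S.main)) := by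
      refine hcount.trans ?_
      gcongr
    have h4 : 2 ^ s * (3 * ((eps / 3 * (c0 * c3) ^ 2 / (3 * 16 ^ s)) * S.main)) =
        (eps / 3 * (S.H : ℝ) ^ s) * (c0 * c3 * S.XX ^ s / ((S.H : ℝ) * (S.B : ℝ) ^ d)) ^ 2 := by
      unfold St.main
      have h16 : (16 : ℝ) ^ s = 2 ^ s * 8 ^ s := by rw [← mul_pow]; norm_num
      rw [h16, mul_pow, mul_pow]
      field_simp
      ring
    rw [h4] at h3
    have h5 := le_of_mul_le_mul_right h3 (by positivity)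
    rw [hSH] at h5
    exact h5
  have hsub : (box s H).filter (fun a : Fin s → ℤ => ELS d a ∧ Mixed a ∧ ¬ SmallZ d h H a) ⊆
      ((box s H).filter fun a : Fin s → ℤ => ∃ i, |(a i : ℝ)| < c1 * H) ∪
      ((box s H).filter fun a : Fin s → ℤ => (∀ (p : ℕ) [Fact p.Prime], HasZero ℚ_[p] d a) ∧
      nu d om.factorial a < c0 * ((om.factorial : ℕ) : ℝ) ^ (s - 1)) ∪ A := by
    intro a ha
    rw [Finset.mem_filter] at ha
    simp only [Finset.mem_union, Finset.mem_filter, hA]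
    by_cases hx : ∃ i, |(a i : ℝ)| < c1 * H
    · exact Or.inl (Or.inl ⟨ha.1, hx⟩)
    by_cases hy : nu d om.factorial a < c0 * ((om.factorial : ℕ) : ℝ) ^ (s - 1)
    · exact Or.inl (Or.inr ⟨ha.1, ha.2.1.2.2, hy⟩)
    · push Not at hx hy
      exact Or.inr ⟨ha.1, ha.2.1, ha.2.2.1, ha.2.2.2, hx, hy⟩
  have hc := (Finset.card_le_card hsub).trans (Finset.card_union_le _ _)
  have hc' := Finset.card_union_le ((box s H).filter fun a : Fin s → ℤ => ∃ i, |(a i : ℝ)| < c1 * H)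
    ((box s H).filter fun a : Fin s → ℤ => (∀ (p : ℕ) [Fact p.Prime], HasZero ℚ_[p] d a) ∧
      nu d om.factorial a < c0 * ((om.factorial : ℕ) : ℝ) ^ (s - 1))
  have hc2 : (((box s H).filter fun a : Fin s → ℤ => ELS d a ∧ Mixed a ∧ ¬ SmallZ d h H a).card : ℝ) ≤
      (((box s H).filter fun a : Fin s → ℤ => ∃ i, |(a i : ℝ)| < c1 * H).card : ℝ) +
      (((box s H).filter fun a : Fin s → ℤ => (∀ (p : ℕ) [Fact p.Prime], HasZero ℚ_[p] d a) ∧
      nu d om.factorial a < c0 * ((om.factorial : ℕ) : ℝ) ^ (s - 1)).card : ℝ) + A.card := by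
    exact_mod_cast hc.trans (Nat.add_le_add_right hc' _)
  linarith

end Pool.Agent.Lib.MP_e426f4_ag.DH
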