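import Pool.Agent.Lib.MP_e426f4_ag.DH.FinalMixed

/-!
# FinalTwo

Adapt `DG/FinalTwo.lean`.
-/

set_option autoImplicit false

namespace Pool.Agent.Lib.MP_e426f4_ag.DH

open Finset
open Pool.Agent.Lib.MP_e426f4_ag.DG

private def flp {s : ℕ} {M : Type} [Neg M] (i0 : Fin s) (a : Fin s → M) : Fin s → M :=
  fun i => if i = i0 then -a i else a i

private theorem flp_flp {s : ℕ} {M : Type} [InvolutiveNeg M] (i0 : Fin s) (a : Fin s → M) :
    flp i0 (flp i0 a) = a := by
  funext i
  unfold flp
  by_cases h : i = i0 <;> simp [h]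

private theorem flp_ne {s : ℕ} {M : Type} [AddGroup M] (i0 : Fin s) {a : Fin s → M}
    (h : a ≠ 0) : flp i0 a ≠ 0 := by
  intro h0
  apply h
  funext i
  have := congrFun h0 i
  unfold flp at this
  by_cases hi : i = i0
  · rw [if_pos hi] at this
    simpa using this
  · rw [if_neg hi] at this
    exact this

private theorem sum_flp {s d : ℕ} {K : Type} [CommRing K] (hd : Odd d) (i0 : Fin s)
    (a : Fin s → ℤ) (x : Fin s → K) :
    ∑ i, ((flp i0 a i : ℤ) : K) * flp i0 x i ^ d = ∑ i, (a i : K) * x i ^ d := by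
  refine Finset.sum_congr rfl fun i _ => ?_
  unfold flp
  by_cases hi : i = i0
  · rw [if_pos hi, if_pos hi, hd.neg_pow]
    push_cast
    ring
  · rw [if_neg hi, if_neg hi]

private theorem hasZero_flp {s d : ℕ} {K : Type} [Field K] (hd : Odd d) (i0 : Fin s)
    {a : Fin s → ℤ} (h : HasZero K d a) : HasZero K d (flp i0 a) := by
  obtain ⟨x, hx, hx'⟩ := h
  exact ⟨flp i0 x, flp_ne i0 hx, by rw [sum_flp hd i0 a x, hx']⟩

private theorem els_flp {s d : ℕ} (hd : Odd d) (i0 : Fin s)
    {a : Fin s → ℤ} (h : ELS d a) : ELS d (flp i0 a) := by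
  refine ⟨fun i => ?_, hasZero_flp hd i0 h.2.1, fun p _ => hasZero_flp hd i0 (h.2.2 p)⟩
  unfold flp
  by_cases hi : i = i0
  · rw [if_pos hi]; exact neg_ne_zero.mpr (h.1 i)
  · rw [if_neg hi]; exact h.1 i

private theorem small_flp {s d e H : ℕ} (hd : Odd d) (i0 : Fin s)
    {a : Fin s → ℤ} (h : SmallZ d e H (flp i0 a)) : SmallZ d e H a := by
  obtain ⟨x, hx, hx', hx''⟩ := h
  refine ⟨flp i0 x, flp_ne i0 hx, ?_, fun i => ?_⟩
  · have h1 := sum_flp (K := ℤ) hd i0 (flp i0 a) x
    rw [flp_flp] at h1
    simp only [Int.cast_id] at h1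
    rw [h1]; exact hx'
  · unfold flp
    by_cases hi : i = i0
    · rw [if_pos hi, abs_neg]; exact hx'' i
    · rw [if_neg hi]; exact hx'' i

open Classical in
theorem final_two (d g h s : ℕ) (hdg : d = g + 1 + h) (hh1 : 2 * g + 6 ≤ h) (hh2 : h ≤ 2 * g + 8)
    (hs : d + h + 1 ≤ s) (eps : ℝ) (heps : 0 < eps) :
    ∃ H0 : ℕ, ∀ H : ℕ, H0 ≤ H →
    (((box s H).filter fun a : Fin s → ℤ => ELS d a ∧ ¬ SmallZ d h H a).card : ℝ) ≤
      eps * (H : ℝ) ^ s := by
  obtain ⟨H0, hH0⟩ := final_mixed d g h s hdg hh1 hh2 hs (eps / 2) (by positivity)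
  refine ⟨H0, fun H hH => ?_⟩
  have hm := hH0 H hH
  set BM := (box s H).filter (fun a : Fin s → ℤ => ELS d a ∧ Mixed a ∧ ¬ SmallZ d h H a) with hBM
  set B := (box s H).filter (fun a : Fin s → ℤ => ELS d a ∧ ¬ SmallZ d h H a) with hB
  have hs0 : 0 < s := by omega
  have hs1 : 1 < s := by omega
  let i0 : Fin s := ⟨0, hs0⟩
  let i1 : Fin s := ⟨1, hs1⟩
  have hi : i1 ≠ i0 := by
    intro h
    have := congrArg Fin.val h
    simp [i0, i1] at this
  -- signs of the elements which are not mixed
  have hsign : ∀ a ∈ B \ BM, (∀ i, 0 < a i) ∨ (∀ i, a i < 0) := by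
    intro a ha
    rw [Finset.mem_sdiff, hB, hBM, Finset.mem_filter, Finset.mem_filter] at ha
    have hnm : ¬ Mixed a := fun h => ha.2 ⟨ha.1.1, ha.1.2.1, h, ha.1.2.2⟩
    have hne := ha.1.2.1.1
    by_cases h : 0 < a i0
    · left
      intro i
      rcases lt_trichotomy (a i) 0 with h' | h' | h'
      · exact absurd ⟨i0, i, h, h'⟩ hnm
      · exact absurd h' (hne i)
      · exact h'
    · right
      intro i
      have h0 : a i0 < 0 := lt_of_le_of_ne (not_lt.mp h) (hne i0)
      rcases lt_trichotomy (a i) 0 with h' | h' | h'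
      · exact h'
      · exact absurd h' (hne i)
      · exact absurd ⟨i, i0, h', h0⟩ hnm
  have hcard : (B \ BM).card ≤ BM.card := by
    rcases Nat.even_or_odd d with hev | hod
    · -- the set is empty
      have hempty : B \ BM = ∅ := by
        rw [Finset.eq_empty_iff_forall_notMem]
        intro a ha
        have hsg := hsign a ha
        rw [Finset.mem_sdiff, hB, Finset.mem_filter] at ha
        obtain ⟨x, hx, hx'⟩ := ha.1.2.1.2.1
        apply hx
        have hnn : ∀ i, 0 ≤ x i ^ d := fun i => hev.pow_nonneg _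
        have hz : ∀ i, x i ^ d = 0 := by
          rcases hsg with hp | hp
          · have h1 := (Finset.sum_eq_zero_iff_of_nonneg
              (fun i _ => mul_nonneg (by exact_mod_cast (hp i).le) (hnn i))).mp hx'
            intro i
            have h2 := h1 i (Finset.mem_univ i)
            exact (mul_eq_zero.mp h2).resolve_left (by exact_mod_cast (hp i).ne')
          · have h1 := (Finset.sum_eq_zero_iff_of_nonpos
              (fun i _ => mul_nonpos_of_nonpos_of_nonneg (by exact_mod_cast (hp i).le)
                (hnn i))).mp hx'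
            intro i
            have h2 := h1 i (Finset.mem_univ i)
            exact (mul_eq_zero.mp h2).resolve_left (by exact_mod_cast (hp i).ne)
        funext i
        exact (pow_eq_zero_iff (by omega)).mp (hz i)
      rw [hempty]; simp
    · refine Finset.card_le_card_of_injOn (flp i0) ?_ ?_
      · intro a ha
        have hsg := hsign a ha
        rw [Finset.mem_coe, Finset.mem_sdiff, hB, Finset.mem_filter] at ha
        rw [Finset.mem_coe, hBM, Finset.mem_filter]
        refine ⟨?_, els_flp hod i0 ha.1.2.1, ?_, fun h => ha.1.2.2 (small_flp hod i0 h)⟩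
        · have h1 := ha.1.1
          unfold DG.box at h1 ⊢
          rw [Fintype.mem_piFinset] at h1 ⊢
          intro i
          have h2 := h1 i
          rw [Finset.mem_Icc] at h2 ⊢
          unfold flp
          by_cases hi : i = i0
          · rw [if_pos hi]; omega
          · rw [if_neg hi]; exact h2
        · rcases hsg with hp | hp
          · refine ⟨i1, i0, ?_, ?_⟩
            · unfold flp; rw [if_neg hi]; exact hp i1
            · unfold flp; rw [if_pos rfl]; have := hp i0; omega
          · refine ⟨i0, i1, ?_, ?_⟩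
            · unfold flp; rw [if_pos rfl]; have := hp i0; omega
            · unfold flp; rw [if_neg hi]; exact hp i1
      · intro a _ b _ hab
        rw [← flp_flp i0 a, ← flp_flp i0 b]
        exact congrArg (flp i0) hab
  have hle : B.card ≤ BM.card + BM.card := by
    calc B.card ≤ (BM ∪ (B \ BM)).card := Finset.card_le_card (by
          intro a ha
          rw [Finset.mem_union, Finset.mem_sdiff]
          by_cases h : a ∈ BM
          · exact Or.inl h
          · exact Or.inr ⟨ha, h⟩)
      _ ≤ BM.card + (B \ BM).card := Finset.card_union_le _ _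
      _ ≤ BM.card + BM.card := Nat.add_le_add_left hcard _
  have hle' : (B.card : ℝ) ≤ BM.card + BM.card := by exact_mod_cast hle
  linarith

end Pool.Agent.Lib.MP_e426f4_ag.DH
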