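import Pool.Agent.Lib.MP_e426f4_ag.DH.ADefs
import Pool.Agent.Lib.MP_e426f4_ag.DH.FactsX
import Pool.Agent.Lib.MP_e426f4_ag.DH.InvSum

/-!
# InvA: sums of `1/|D|` for type A

`DA = A^d - A'^d`, `A = eL t1 z1 · t' a2' l2'`, `A' = eR t1' z1 · t a2 l2`.  `A ≠ A'`: `l1 ∣ A`, `l1 ∤ A'` (`l1 ≠ l1'`, `l1 ∉ PS j`, `l1 > T`).
`T < E t`, `a > M`, `l > L` give: if `a1 ≠ a1'`: `A, A' ≥ (TML)²/E²`; if `a1 = a1'`: `A, A' ≥ (TL)(TML)/E²`.  `|A^d-A'^d| ≥ |A-A'| min^(d-1)` (`pow_sub_lower`).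
Case `a1 ≠ a1'`: for fixed `(a1', l1', a2, l2)` (at most `(ML)²`), the map `(a1,l1,a2',l2') ↦ A` is injective (unique factorisation, disjoint prime sets) with values
`≤ B²`, so `∑ 1/|A-A'| ≤ 2(1+log B²) ≤ 2R` (`inv_sum`).  Case `a1 = a1'`: for fixed `(a1, l1', a2, l2)` (at most `M L · ML`), the map `(l1,a2',l2') ↦ A` is injective.
First sum: `≤ 2R(ML)² E^(2d-2) (TML)^(-2(d-1)) (1 + M^(d-1))`.
Second sum: `a1 ≠ a1'`: `B^d BB^d = 16^d 4^d (TML)^(2d)/M^d`; `a1 = a1'`: `BB^(2d) = 4^(2d) (TML)^(2d)/M^(2d)` against `M^(d-1)`.  `TML = V^d` (`MLT_eq`).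
-/

set_option autoImplicit false

namespace Pool.Agent.Lib.MP_e426f4_ag.DH

open Finset
open Pool.Agent.Lib.MP_e426f4_ag.DG

private theorem InvA_fib {ι κ : Type} [DecidableEq κ] (Z : Finset ι) (f : ι → κ) (K : Finset κ)
    (A A' : ι → ℕ) (N : ℕ) (hf : ∀ x ∈ Z, f x ∈ K)
    (hA' : ∀ x ∈ Z, ∀ y ∈ Z, f x = f y → A' x = A' y)
    (hinj : ∀ x ∈ Z, ∀ y ∈ Z, f x = f y → A x = A y → x = y)
    (hN : ∀ x ∈ Z, A x ≤ N) (hN' : ∀ x ∈ Z, A' x ≤ N) (hne : ∀ x ∈ Z, A x ≠ A' x) :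
    ∑ x ∈ Z, 1 / |(A x : ℝ) - A' x| ≤ K.card * (2 * (1 + Real.log N)) := by
  classical
  rw [← Finset.sum_fiberwise_of_maps_to hf, ← nsmul_eq_mul]
  refine Finset.sum_le_card_nsmul _ _ _ ?_
  intro k _
  rcases (Z.filter fun x => f x = k).eq_empty_or_nonempty with h | ⟨x0, hx0⟩
  · rw [h, sum_empty]
    have : 0 ≤ Real.log N := Real.log_natCast_nonneg N
    linarith
  · rw [mem_filter] at hx0
    have e : ∑ x ∈ Z.filter (fun x => f x = k), 1 / |(A x : ℝ) - A' x| =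
        ∑ x ∈ Z.filter (fun x => f x = k), 1 / |(A x : ℝ) - A' x0| := by
      refine sum_congr rfl fun x hx => ?_
      rw [mem_filter] at hx
      rw [hA' x hx.1 x0 hx0.1 (hx.2.trans hx0.2.symm)]
    rw [e]
    refine inv_sum _ A N (A' x0) (hN' x0 hx0.1) ?_ ?_ ?_
    · intro x hx y hy hxy
      rw [mem_filter] at hx hy
      exact hinj x hx.1 y hy.1 (hx.2.trans hy.2.symm) hxy
    · intro x hx
      exact hN x (mem_filter.1 hx).1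
    · intro x hx
      rw [mem_filter] at hx
      rw [← hA' x hx.1 x0 hx0.1 (hx.2.trans hx0.2.symm)]
      exact hne x hx.1

/-- the two numbers -/
private def InvA_A (t1 t' : ℕ) (x : ((ℕ × ℕ) × (ℕ × ℕ)) × ((ℕ × ℕ) × (ℕ × ℕ))) : ℕ :=
  eL t1 x.1 * (t' * (x.2.2.1 * x.2.2.2))

private def InvA_B (t1' t : ℕ) (x : ((ℕ × ℕ) × (ℕ × ℕ)) × ((ℕ × ℕ) × (ℕ × ℕ))) : ℕ :=
  eR t1' x.1 * (t * (x.2.1.1 * x.2.1.2))

private theorem InvA_DA (d t1 t1' t t' : ℕ) (x : ((ℕ × ℕ) × (ℕ × ℕ)) × ((ℕ × ℕ) × (ℕ × ℕ))) :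
    DA d t1 t1' t t' x.1 x.2 = (InvA_A t1 t' x : ℤ) ^ d - (InvA_B t1' t x : ℤ) ^ d := by
  unfold DA InvA_A InvA_B
  push_cast
  simp only [mul_pow]

private theorem InvA_eL_dvd (t : ℕ) (z : (ℕ × ℕ) × (ℕ × ℕ)) : eL t z ∣ t * (z.1.1 * z.1.2) := by
  unfold eL
  split_ifs
  · exact Nat.mul_dvd_mul_left _ (Dvd.intro_left _ rfl)
  · exact dvd_rfl

private theorem InvA_eR_dvd (t : ℕ) (z : (ℕ × ℕ) × (ℕ × ℕ)) : eR t z ∣ t * (z.2.1 * z.2.2) := by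
  unfold eR
  split_ifs
  · exact Nat.mul_dvd_mul_left _ (Dvd.intro_left _ rfl)
  · exact dvd_rfl

private theorem InvA_l_dvd (t : ℕ) (z : (ℕ × ℕ) × (ℕ × ℕ)) : z.1.2 ∣ eL t z := by
  unfold eL
  split_ifs
  · exact Dvd.intro_left _ rfl
  · exact Dvd.dvd.mul_left (Dvd.intro_left _ rfl) _

/-- membership -/
private theorem InvA_mem {Q P : Finset ℕ} {z : (ℕ × ℕ) × (ℕ × ℕ)} (hz : z ∈ zA Q P) :
    z.1.1 ∈ Q ∧ z.1.2 ∈ P ∧ z.2.1 ∈ Q ∧ z.2.2 ∈ P ∧ z.1.2 ≠ z.2.2 := by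
  unfold zA at hz
  rw [mem_filter, mem_product, mem_product, mem_product] at hz
  exact ⟨hz.1.1.1, hz.1.1.2, hz.1.2.1, hz.1.2.2, hz.2⟩

section

variable {d g h s m v E : ℕ} (S : St d g h s m v E)

include S in
private theorem InvA_d : 1 ≤ d := by
  have := S.hdg
  omega

private theorem InvA_primeL {i : Fin s} {l : ℕ} (hl : l ∈ S.PS i) : l.Prime := (S.hPS i l hl).1

private theorem InvA_primeQ {i : Fin s} {q : ℕ} (hq : q ∈ S.QS i) : q.Prime := (S.hQS i q hq).1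

private theorem InvA_I {t : ℕ} (ht : t ∈ S.I) : 1 ≤ t ∧ t ≤ S.T := by
  obtain ⟨h1, h2, -⟩ := (S.I_mem t).1 ht
  exact ⟨h1, h2⟩

/-- the four factors -/
private theorem InvA_ne {i j : Fin s} (hij : i ≠ j) {t1 t1' t t' : ℕ} (ht1' : t1' ∈ S.I)
    (ht : t ∈ S.I) {x : ((ℕ × ℕ) × (ℕ × ℕ)) × ((ℕ × ℕ) × (ℕ × ℕ))}
    (h1 : x.1 ∈ zA (S.QS i) (S.PS i)) (h2 : x.2 ∈ zA (S.QS j) (S.PS j)) :
    InvA_A t1 t' x ≠ InvA_B t1' t x := by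
  intro he
  obtain ⟨a1, a2, a3, a4, a5⟩ := InvA_mem h1
  obtain ⟨b1, b2, b3, b4, b5⟩ := InvA_mem h2
  have hp := InvA_primeL S a2
  have hd : x.1.1.2 ∣ InvA_B t1' t x := by
    rw [← he]
    unfold InvA_A
    exact Dvd.dvd.mul_right (InvA_l_dvd _ _) _
  unfold InvA_B at hd
  rcases (Nat.Prime.dvd_mul hp).1 hd with h3 | h3
  · have h4 := h3.trans (InvA_eR_dvd _ _)
    exact a5 (S.l_dvd a2 (InvA_I S ht1') a3 a4 h4)
  · have h4 := S.l_dvd a2 (InvA_I S ht) b1 b2 h3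
    rw [h4] at a2
    exact hij (S.PS_idx a2 b2)

private theorem InvA_inj {i j : Fin s} (hij : i ≠ j) {t1 t' : ℕ} (ht1 : t1 ∈ S.I)
    (ht' : t' ∈ S.I) {x y : ((ℕ × ℕ) × (ℕ × ℕ)) × ((ℕ × ℕ) × (ℕ × ℕ))}
    (h1 : x.1 ∈ zA (S.QS i) (S.PS i)) (h2 : x.2 ∈ zA (S.QS j) (S.PS j))
    (h3 : y.1 ∈ zA (S.QS i) (S.PS i)) (h4 : y.2 ∈ zA (S.QS j) (S.PS j))
    (he : InvA_A t1 t' x = InvA_A t1 t' y) :
    x.1.1.2 = y.1.1.2 ∧ x.2.2 = y.2.2 ∧ (x.1.1.1 ≠ x.1.2.1 → x.1.1.1 = y.1.1.1) := by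
  obtain ⟨a1, a2, -, -, -⟩ := InvA_mem h1
  obtain ⟨-, -, a3, a4, -⟩ := InvA_mem h2
  obtain ⟨b1, b2, -, -, -⟩ := InvA_mem h3
  obtain ⟨-, -, b3, b4, -⟩ := InvA_mem h4
  have i1 := InvA_I S ht1
  have i2 := InvA_I S ht'
  have key : ∀ p : ℕ, p.Prime → p ∣ InvA_A t1 t' x →
      p ∣ t1 * (y.1.1.1 * y.1.1.2) ∨ p ∣ t' * (y.2.2.1 * y.2.2.2) := by
    intro p hp hd
    rw [he] at hd
    unfold InvA_A at hd
    rcases (Nat.Prime.dvd_mul hp).1 hd with h5 | h5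
    · exact Or.inl (h5.trans (InvA_eL_dvd _ _))
    · exact Or.inr h5
  refine ⟨?_, ?_, ?_⟩
  · rcases key _ (InvA_primeL S a2)
      (by unfold InvA_A; exact Dvd.dvd.mul_right (InvA_l_dvd _ _) _) with h5 | h5
    · exact S.l_dvd a2 i1 b1 b2 h5
    · exfalso
      have h6 := S.l_dvd a2 i2 b3 b4 h5
      rw [h6] at a2
      exact hij (S.PS_idx a2 b4)
  · have e1 : x.2.2.1 = y.2.2.1 := by
      rcases key _ (InvA_primeQ S a3) (by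
        unfold InvA_A
        exact Dvd.dvd.mul_left (Dvd.dvd.mul_left (Dvd.intro _ rfl) _) _) with h5 | h5
      · exfalso
        have h6 := S.q_dvd a3 i1 b1 b2 h5
        rw [h6] at a3
        exact hij (S.QS_idx b1 a3)
      · exact S.q_dvd a3 i2 b3 b4 h5
    have e2 : x.2.2.2 = y.2.2.2 := by
      rcases key _ (InvA_primeL S a4) (by
        unfold InvA_A
        exact Dvd.dvd.mul_left (Dvd.dvd.mul_left (Dvd.intro_left _ rfl) _) _) with h5 | h5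
      · exfalso
        have h6 := S.l_dvd a4 i1 b1 b2 h5
        rw [h6] at a4
        exact hij (S.PS_idx b2 a4)
      · exact S.l_dvd a4 i2 b3 b4 h5
    exact Prod.ext e1 e2
  · intro hne
    rcases key _ (InvA_primeQ S a1) (by
        unfold InvA_A eL
        rw [if_neg hne]
        exact Dvd.dvd.mul_right (Dvd.dvd.mul_left (Dvd.intro _ rfl) _) _) with h5 | h5
    · exact S.q_dvd a1 i1 b1 b2 h5
    · exfalso
      have h6 := S.q_dvd a1 i2 b3 b4 h5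
      rw [h6] at a1
      exact hij (S.QS_idx a1 b3)

private theorem InvA_logB : 1 + Real.log ((S.B * S.B : ℕ) : ℝ) ≤ S.R := by
  have h1 := S.log_le
  have h2 : (1 : ℝ) ≤ S.B := by exact_mod_cast S.B_pos
  have h3 : Real.log ((S.B * S.B : ℕ) : ℝ) ≤ Real.log (((S.B : ℕ) : ℝ) ^ 4) := by
    apply Real.log_le_log
    · push_cast; nlinarith
    · push_cast
      calc (S.B : ℝ) * S.B = (S.B : ℝ) ^ 2 := by ring
        _ ≤ (S.B : ℝ) ^ 4 := pow_le_pow_right₀ h2 (by norm_num)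
  linarith

private theorem InvA_prod_le {t q l : ℕ} {i : Fin s} (ht : t ∈ S.I) (hq : q ∈ S.QS i)
    (hl : l ∈ S.PS i) : t * (q * l) ≤ S.B ∧ S.M * S.L * S.T ≤ E * (t * (q * l)) ∧ t * l ≤ S.BB ∧
      S.L * S.T ≤ E * (t * l) := by
  obtain ⟨h1, h2, h3⟩ := (S.I_mem t).1 ht
  have hq1 : S.M < q := (S.hQS i q hq).2.1
  have hl1 : S.L < l := (S.hPS i l hl).2.1
  refine ⟨(S.X_bounds i _ ((S.X_mem i _).2 ⟨t, q, l, ht, hq, hl, rfl⟩)).2.1, ?_,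
    (S.Y_bounds i _ ((S.Y_mem i _).2 ⟨t, l, ht, hl, rfl⟩)).2.1, ?_⟩
  · calc S.M * S.L * S.T ≤ q * l * (E * t) :=
          Nat.mul_le_mul (Nat.mul_le_mul hq1.le hl1.le) h3.le
      _ = E * (t * (q * l)) := by ring
  · calc S.L * S.T ≤ l * (E * t) := Nat.mul_le_mul hl1.le h3.le
      _ = E * (t * l) := by ring

private theorem InvA_BB_le : S.BB ≤ S.B := by
  have h1 := S.B_eq_BB
  have h2 := S.M_pos
  rw [h1]
  calc S.BB = 1 * S.BB := (Nat.one_mul _).symm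
    _ ≤ 4 * S.M * S.BB := Nat.mul_le_mul_right _ (by omega)

private theorem InvA_le_BB {i j : Fin s} {t1 t1' t t' : ℕ} (ht1 : t1 ∈ S.I) (ht1' : t1' ∈ S.I)
    (ht : t ∈ S.I) (ht' : t' ∈ S.I) {x : ((ℕ × ℕ) × (ℕ × ℕ)) × ((ℕ × ℕ) × (ℕ × ℕ))}
    (h1 : x.1 ∈ zA (S.QS i) (S.PS i)) (h2 : x.2 ∈ zA (S.QS j) (S.PS j)) :
    InvA_A t1 t' x ≤ S.B * S.B ∧ InvA_B t1' t x ≤ S.B * S.B := by
  obtain ⟨a1, a2, a3, a4, -⟩ := InvA_mem h1
  obtain ⟨b1, b2, b3, b4, -⟩ := InvA_mem h2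
  constructor
  · unfold InvA_A
    refine Nat.mul_le_mul ?_ (InvA_prod_le S ht' b3 b4).1
    unfold eL
    split_ifs
    · exact (InvA_prod_le S ht1 a1 a2).2.2.1.trans (InvA_BB_le S)
    · exact (InvA_prod_le S ht1 a1 a2).1
  · unfold InvA_B
    refine Nat.mul_le_mul ?_ (InvA_prod_le S ht b1 b2).1
    unfold eR
    split_ifs
    · exact (InvA_prod_le S ht1' a3 a4).2.2.1.trans (InvA_BB_le S)
    · exact (InvA_prod_le S ht1' a3 a4).1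

/-- the core estimate -/
private theorem InvA_one {i j : Fin s} (hij : i ≠ j) {t1 t1' t t' : ℕ} (ht1 : t1 ∈ S.I)
    (ht1' : t1' ∈ S.I) (ht : t ∈ S.I) (ht' : t' ∈ S.I)
    (Z : Finset (((ℕ × ℕ) × (ℕ × ℕ)) × ((ℕ × ℕ) × (ℕ × ℕ))))
    (hZ : ∀ x ∈ Z, x.1 ∈ zA (S.QS i) (S.PS i) ∧ x.2 ∈ zA (S.QS j) (S.PS j))
    (hE : (∀ x ∈ Z, x.1.1.1 = x.1.2.1) ∨ ∀ x ∈ Z, x.1.1.1 ≠ x.1.2.1) :
    ∑ x ∈ Z, 1 / |(InvA_A t1 t' x : ℝ) - InvA_B t1' t x| ≤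
      ((S.M : ℝ) * S.L) ^ 2 * (2 * S.R) := by
  have h1 := InvA_fib Z (fun x => (x.1.2, x.2.1)) ((S.QS i ×ˢ S.PS i) ×ˢ (S.QS j ×ˢ S.PS j))
    (InvA_A t1 t') (InvA_B t1' t) (S.B * S.B) ?_ ?_ ?_
    (fun x hx => (InvA_le_BB S ht1 ht1' ht ht' (hZ x hx).1 (hZ x hx).2).1)
    (fun x hx => (InvA_le_BB S ht1 ht1' ht ht' (hZ x hx).1 (hZ x hx).2).2)
    (fun x hx => InvA_ne S hij ht1' ht (hZ x hx).1 (hZ x hx).2)
  · refine h1.trans ?_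
    have h2 := InvA_logB S
    have h3 : ((((S.QS i ×ˢ S.PS i) ×ˢ (S.QS j ×ˢ S.PS j)).card : ℕ) : ℝ) ≤
        ((S.M : ℝ) * S.L) ^ 2 := by
      rw [card_product, card_product, card_product]
      have h4 : (S.QS i).card * (S.PS i).card * ((S.QS j).card * (S.PS j).card) ≤
          (S.M * S.L) ^ 2 := by
        rw [sq]
        exact Nat.mul_le_mul (Nat.mul_le_mul (S.QS_card_le i) (S.PS_card_le i))
          (Nat.mul_le_mul (S.QS_card_le j) (S.PS_card_le j))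
      exact_mod_cast h4
    refine mul_le_mul h3 (by linarith) ?_ (by positivity)
    have : 0 ≤ Real.log ((S.B * S.B : ℕ) : ℝ) := Real.log_natCast_nonneg _
    linarith
  · intro x hx
    obtain ⟨a1, a2, a3, a4, -⟩ := InvA_mem (hZ x hx).1
    obtain ⟨b1, b2, b3, b4, -⟩ := InvA_mem (hZ x hx).2
    simp only [mem_product]
    exact ⟨⟨a3, a4⟩, b1, b2⟩
  · intro x hx y hy hf
    simp only [Prod.mk.injEq] at hf
    unfold InvA_B eR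
    rcases hE with hE | hE
    · rw [if_pos (hE x hx), if_pos (hE y hy), hf.1, hf.2]
    · rw [if_neg (hE x hx), if_neg (hE y hy), hf.1, hf.2]
  · intro x hx y hy hf he
    simp only [Prod.mk.injEq] at hf
    obtain ⟨e1, e2, e3⟩ := InvA_inj S hij ht1 ht' (hZ x hx).1 (hZ x hx).2 (hZ y hy).1 (hZ y hy).2 he
    have e4 : x.1.1.1 = y.1.1.1 := by
      rcases hE with hE | hE
      · rw [hE x hx, hE y hy, hf.1]
      · exact e3 (hE x hx)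
    exact Prod.ext (Prod.ext (Prod.ext e4 e1) hf.1) (Prod.ext hf.2 e2)

/-- from `|A - B|` to `|D|` -/
private theorem InvA_two {i j : Fin s} (hij : i ≠ j) {t1 t1' t t' : ℕ} (ht1 : t1 ∈ S.I)
    (ht1' : t1' ∈ S.I) (ht : t ∈ S.I) (ht' : t' ∈ S.I)
    (Z : Finset (((ℕ × ℕ) × (ℕ × ℕ)) × ((ℕ × ℕ) × (ℕ × ℕ))))
    (hZ : ∀ x ∈ Z, x.1 ∈ zA (S.QS i) (S.PS i) ∧ x.2 ∈ zA (S.QS j) (S.PS j))
    (hE : (∀ x ∈ Z, x.1.1.1 = x.1.2.1) ∨ ∀ x ∈ Z, x.1.1.1 ≠ x.1.2.1) (μ : ℝ) (hμ : 0 < μ)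
    (hA : ∀ x ∈ Z, μ ≤ InvA_A t1 t' x) (hB : ∀ x ∈ Z, μ ≤ InvA_B t1' t x) :
    ∑ x ∈ Z, 1 / |((DA d t1 t1' t t' x.1 x.2 : ℤ) : ℝ)| ≤
      1 / μ ^ (d - 1) * (((S.M : ℝ) * S.L) ^ 2 * (2 * S.R)) := by
  refine le_trans ?_ (mul_le_mul_of_nonneg_left (InvA_one S hij ht1 ht1' ht ht' Z hZ hE)
    (by positivity))
  rw [mul_sum]
  refine sum_le_sum fun x hx => ?_
  rw [InvA_DA]
  push_cast
  have h1 := pow_sub_lower d (InvA_d S) (InvA_A t1 t' x) (InvA_B t1' t x) μ hμ.le (hA x hx)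
    (hB x hx)
  have h2 : (0 : ℝ) < |(InvA_A t1 t' x : ℝ) - InvA_B t1' t x| := by
    rw [abs_pos, sub_ne_zero]
    have := InvA_ne S hij ht1' ht (t1 := t1) (t' := t') (hZ x hx).1 (hZ x hx).2
    exact_mod_cast this
  have h3 : (0 : ℝ) < |(InvA_A t1 t' x : ℝ) - InvA_B t1' t x| * μ ^ (d - 1) := by positivity
  calc 1 / |(InvA_A t1 t' x : ℝ) ^ d - (InvA_B t1' t x : ℝ) ^ d|
      ≤ 1 / (|(InvA_A t1 t' x : ℝ) - InvA_B t1' t x| * μ ^ (d - 1)) :=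
        one_div_le_one_div_of_le h3 h1
    _ = 1 / μ ^ (d - 1) * (1 / |(InvA_A t1 t' x : ℝ) - InvA_B t1' t x|) := by
        rw [mul_comm, one_div_mul_one_div]

private theorem InvA_lowN {i j : Fin s} {t1 t1' t t' : ℕ} (ht1 : t1 ∈ S.I)
    (ht1' : t1' ∈ S.I) (ht : t ∈ S.I) (ht' : t' ∈ S.I)
    {x : ((ℕ × ℕ) × (ℕ × ℕ)) × ((ℕ × ℕ) × (ℕ × ℕ))}
    (h1 : x.1 ∈ zA (S.QS i) (S.PS i)) (h2 : x.2 ∈ zA (S.QS j) (S.PS j))
    (hne : x.1.1.1 ≠ x.1.2.1) :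
    (S.V ^ d) ^ 2 ≤ E ^ 2 * InvA_A t1 t' x ∧ (S.V ^ d) ^ 2 ≤ E ^ 2 * InvA_B t1' t x := by
  obtain ⟨a1, a2, a3, a4, -⟩ := InvA_mem h1
  obtain ⟨b1, b2, b3, b4, -⟩ := InvA_mem h2
  rw [← S.MLT_eq]
  unfold InvA_A InvA_B eL eR
  rw [if_neg hne, if_neg hne]
  constructor
  · calc (S.M * S.L * S.T) ^ 2 = (S.M * S.L * S.T) * (S.M * S.L * S.T) := sq _
      _ ≤ (E * (t1 * (x.1.1.1 * x.1.1.2))) * (E * (t' * (x.2.2.1 * x.2.2.2))) :=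
        Nat.mul_le_mul (InvA_prod_le S ht1 a1 a2).2.1 (InvA_prod_le S ht' b3 b4).2.1
      _ = _ := by ring
  · calc (S.M * S.L * S.T) ^ 2 = (S.M * S.L * S.T) * (S.M * S.L * S.T) := sq _
      _ ≤ (E * (t1' * (x.1.2.1 * x.1.2.2))) * (E * (t * (x.2.1.1 * x.2.1.2))) :=
        Nat.mul_le_mul (InvA_prod_le S ht1' a3 a4).2.1 (InvA_prod_le S ht b1 b2).2.1
      _ = _ := by ring

private theorem InvA_lowE {i j : Fin s} {t1 t1' t t' : ℕ} (ht1 : t1 ∈ S.I)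
    (ht1' : t1' ∈ S.I) (ht : t ∈ S.I) (ht' : t' ∈ S.I)
    {x : ((ℕ × ℕ) × (ℕ × ℕ)) × ((ℕ × ℕ) × (ℕ × ℕ))}
    (h1 : x.1 ∈ zA (S.QS i) (S.PS i)) (h2 : x.2 ∈ zA (S.QS j) (S.PS j))
    (he : x.1.1.1 = x.1.2.1) :
    (S.V ^ d) ^ 2 ≤ S.M * E ^ 2 * InvA_A t1 t' x ∧ (S.V ^ d) ^ 2 ≤ S.M * E ^ 2 * InvA_B t1' t x := by
  obtain ⟨a1, a2, a3, a4, -⟩ := InvA_mem h1
  obtain ⟨b1, b2, b3, b4, -⟩ := InvA_mem h2
  rw [← S.MLT_eq]
  unfold InvA_A InvA_B eL eR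
  rw [if_pos he, if_pos he]
  constructor
  · calc (S.M * S.L * S.T) ^ 2 = S.M * ((S.L * S.T) * (S.M * S.L * S.T)) := by ring
      _ ≤ S.M * ((E * (t1 * x.1.1.2)) * (E * (t' * (x.2.2.1 * x.2.2.2)))) :=
        Nat.mul_le_mul_left _
          (Nat.mul_le_mul (InvA_prod_le S ht1 a1 a2).2.2.2 (InvA_prod_le S ht' b3 b4).2.1)
      _ = _ := by ring
  · calc (S.M * S.L * S.T) ^ 2 = S.M * ((S.L * S.T) * (S.M * S.L * S.T)) := by ring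
      _ ≤ S.M * ((E * (t1' * x.1.2.2)) * (E * (t * (x.2.1.1 * x.2.1.2)))) :=
        Nat.mul_le_mul_left _
          (Nat.mul_le_mul (InvA_prod_le S ht1' a3 a4).2.2.2 (InvA_prod_le S ht b1 b2).2.1)
      _ = _ := by ring

private theorem InvA_sumN {i j : Fin s} (hij : i ≠ j) {t1 t1' t t' : ℕ} (ht1 : t1 ∈ S.I)
    (ht1' : t1' ∈ S.I) (ht : t ∈ S.I) (ht' : t' ∈ S.I)
    (Z : Finset (((ℕ × ℕ) × (ℕ × ℕ)) × ((ℕ × ℕ) × (ℕ × ℕ))))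
    (hZ : ∀ x ∈ Z, x.1 ∈ zA (S.QS i) (S.PS i) ∧ x.2 ∈ zA (S.QS j) (S.PS j))
    (hE : ∀ x ∈ Z, x.1.1.1 ≠ x.1.2.1) :
    ∑ x ∈ Z, 1 / |((DA d t1 t1' t t' x.1 x.2 : ℤ) : ℝ)| ≤
      ((E : ℝ) ^ 2) ^ (d - 1) / (((S.V : ℝ) ^ d) ^ 2) ^ (d - 1) *
        (((S.M : ℝ) * S.L) ^ 2 * (2 * S.R)) := by
  have hE0 : (0 : ℝ) < E := by
    have := S.hE
    have : 0 < E := by omega
    exact_mod_cast this
  have hV0 : (0 : ℝ) < S.V := by exact_mod_cast S.V_pos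
  have h1 := InvA_two S hij ht1 ht1' ht ht' Z hZ (Or.inr hE) (((S.V : ℝ) ^ d) ^ 2 / (E : ℝ) ^ 2)
    (by positivity) ?_ ?_
  · rw [div_pow, one_div_div] at h1
    exact h1
  · intro x hx
    rw [div_le_iff₀ (by positivity)]
    have h2 := (InvA_lowN S ht1 ht1' ht ht' (hZ x hx).1 (hZ x hx).2 (hE x hx)).1
    have h3 : (((S.V : ℝ) ^ d) ^ 2) ≤ (E : ℝ) ^ 2 * InvA_A t1 t' x := by exact_mod_cast h2
    linarith
  · intro x hx
    rw [div_le_iff₀ (by positivity)]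
    have h2 := (InvA_lowN S ht1 ht1' ht ht' (hZ x hx).1 (hZ x hx).2 (hE x hx)).2
    have h3 : (((S.V : ℝ) ^ d) ^ 2) ≤ (E : ℝ) ^ 2 * InvA_B t1' t x := by exact_mod_cast h2
    linarith

private theorem InvA_sumE {i j : Fin s} (hij : i ≠ j) {t1 t1' t t' : ℕ} (ht1 : t1 ∈ S.I)
    (ht1' : t1' ∈ S.I) (ht : t ∈ S.I) (ht' : t' ∈ S.I)
    (Z : Finset (((ℕ × ℕ) × (ℕ × ℕ)) × ((ℕ × ℕ) × (ℕ × ℕ))))
    (hZ : ∀ x ∈ Z, x.1 ∈ zA (S.QS i) (S.PS i) ∧ x.2 ∈ zA (S.QS j) (S.PS j))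
    (hE : ∀ x ∈ Z, x.1.1.1 = x.1.2.1) :
    ∑ x ∈ Z, 1 / |((DA d t1 t1' t t' x.1 x.2 : ℤ) : ℝ)| ≤
      ((S.M : ℝ) * (E : ℝ) ^ 2) ^ (d - 1) / (((S.V : ℝ) ^ d) ^ 2) ^ (d - 1) *
        (((S.M : ℝ) * S.L) ^ 2 * (2 * S.R)) := by
  have hE0 : (0 : ℝ) < E := by
    have := S.hE
    have : 0 < E := by omega
    exact_mod_cast this
  have hV0 : (0 : ℝ) < S.V := by exact_mod_cast S.V_pos
  have hM0 : (0 : ℝ) < S.M := by exact_mod_cast S.M_pos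
  have h1 := InvA_two S hij ht1 ht1' ht ht' Z hZ (Or.inl hE)
    (((S.V : ℝ) ^ d) ^ 2 / ((S.M : ℝ) * (E : ℝ) ^ 2)) (by positivity) ?_ ?_
  · rw [div_pow, one_div_div] at h1
    exact h1
  · intro x hx
    rw [div_le_iff₀ (by positivity)]
    have h2 := (InvA_lowE S ht1 ht1' ht ht' (hZ x hx).1 (hZ x hx).2 (hE x hx)).1
    have h3 : (((S.V : ℝ) ^ d) ^ 2) ≤ (S.M : ℝ) * (E : ℝ) ^ 2 * InvA_A t1 t' x := by
      exact_mod_cast h2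
    linarith
  · intro x hx
    rw [div_le_iff₀ (by positivity)]
    have h2 := (InvA_lowE S ht1 ht1' ht ht' (hZ x hx).1 (hZ x hx).2 (hE x hx)).2
    have h3 : (((S.V : ℝ) ^ d) ^ 2) ≤ (S.M : ℝ) * (E : ℝ) ^ 2 * InvA_B t1' t x := by
      exact_mod_cast h2
    linarith

end

/-- the arithmetic of the two bounds -/
private theorem InvA_arith (d : ℕ) (hd : 1 ≤ d) (E R M L W B BB SN SE : ℝ) (hE : 0 < E)
    (hR : 0 < R) (hM : 1 ≤ M) (hL : 0 < L) (hW : 0 < W) (hB : B = 16 * W) (hBB : BB * M = 4 * W)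
    (hBB0 : 0 < BB)
    (hN : SN ≤ (E ^ 2) ^ (d - 1) / (W ^ 2) ^ (d - 1) * ((M * L) ^ 2 * (2 * R)))
    (hS : SE ≤ (M * E ^ 2) ^ (d - 1) / (W ^ 2) ^ (d - 1) * ((M * L) ^ 2 * (2 * R))) :
    SE + SN ≤ 4 * 64 ^ d * (E ^ (2 * (d - 1)) + 1) * R * M ^ (d - 1) * (M * L) ^ 2 /
      W ^ (2 * (d - 1)) ∧
    BB ^ d * BB ^ d * SE + B ^ d * BB ^ d * SN ≤
      4 * 64 ^ d * (E ^ (2 * (d - 1)) + 1) * R * W ^ 2 * (M * L) ^ 2 / M ^ d := by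
  obtain ⟨k, rfl⟩ : ∃ k, d = k + 1 := ⟨d - 1, by omega⟩
  simp only [Nat.add_sub_cancel] at hN hS ⊢
  have hM0 : 0 < M := by linarith
  have e1 : (E ^ 2) ^ k = E ^ (2 * k) := (pow_mul E 2 k).symm
  have e2 : (W ^ 2) ^ k = W ^ (2 * k) := (pow_mul W 2 k).symm
  have e3 : (M * E ^ 2) ^ k = M ^ k * E ^ (2 * k) := by rw [mul_pow, e1]
  rw [e1, e2] at hN
  rw [e3, e2] at hS
  set e := E ^ (2 * k) with he
  have he0 : 0 < e := by positivity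
  have hMk : 1 ≤ M ^ k := one_le_pow₀ hM
  have h64 : (1 : ℝ) ≤ 64 ^ (k + 1) := one_le_pow₀ (by norm_num)
  have hW2 : 0 < W ^ (2 * k) := by positivity
  have hML : 0 < (M * L) ^ 2 := by positivity
  constructor
  · have h1 : SE + SN ≤ (M ^ k * e + e) / W ^ (2 * k) * ((M * L) ^ 2 * (2 * R)) := by
      calc SE + SN ≤ M ^ k * e / W ^ (2 * k) * ((M * L) ^ 2 * (2 * R)) +
            e / W ^ (2 * k) * ((M * L) ^ 2 * (2 * R)) := add_le_add hS hN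
        _ = _ := by ring
    refine h1.trans ?_
    have h2 : M ^ k * e + e ≤ 2 * (M ^ k * e) := by nlinarith
    have h3 : 2 * (M ^ k * e) ≤ 2 * (M ^ k * (64 ^ (k + 1) * (e + 1))) := by
      have : e ≤ 64 ^ (k + 1) * (e + 1) := by nlinarith
      have := mul_le_mul_of_nonneg_left this (by positivity : (0 : ℝ) ≤ 2 * M ^ k)
      linarith
    calc (M ^ k * e + e) / W ^ (2 * k) * ((M * L) ^ 2 * (2 * R))
        ≤ 2 * (M ^ k * (64 ^ (k + 1) * (e + 1))) / W ^ (2 * k) * ((M * L) ^ 2 * (2 * R)) := by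
          apply mul_le_mul_of_nonneg_right _ (by positivity)
          exact div_le_div_of_nonneg_right (h2.trans h3) hW2.le
      _ = _ := by ring
  · have hBBe : BB = 4 * W / M := by
      rw [eq_div_iff hM0.ne']
      exact hBB
    have hBBd : BB ^ (k + 1) = 4 ^ (k + 1) * W ^ (k + 1) / M ^ (k + 1) := by
      rw [hBBe, div_pow, mul_pow]
    have hBd : B ^ (k + 1) = 16 ^ (k + 1) * W ^ (k + 1) := by
      rw [hB, mul_pow]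
    have hWW : W ^ (k + 1) * W ^ (k + 1) = W ^ 2 * W ^ (2 * k) := by ring
    have f1 : BB ^ (k + 1) * BB ^ (k + 1) * SE ≤
        16 ^ (k + 1) * (2 * e * R * W ^ 2 * (M * L) ^ 2 / M ^ (k + 1)) := by
      have g1 : BB ^ (k + 1) * BB ^ (k + 1) * SE ≤ BB ^ (k + 1) * BB ^ (k + 1) *
          (M ^ k * e / W ^ (2 * k) * ((M * L) ^ 2 * (2 * R))) :=
        mul_le_mul_of_nonneg_left hS (by positivity)
      refine g1.trans ?_
      have g2 : BB ^ (k + 1) * BB ^ (k + 1) =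
          16 ^ (k + 1) * (W ^ 2 * W ^ (2 * k)) / (M ^ (k + 1) * M ^ (k + 1)) := by
        rw [hBBd, ← hWW]
        have : (16 : ℝ) ^ (k + 1) = 4 ^ (k + 1) * 4 ^ (k + 1) := by
          rw [← mul_pow]; norm_num
        rw [this]
        field_simp
      rw [g2]
      have g3 : 16 ^ (k + 1) * (W ^ 2 * W ^ (2 * k)) / (M ^ (k + 1) * M ^ (k + 1)) *
          (M ^ k * e / W ^ (2 * k) * ((M * L) ^ 2 * (2 * R))) =
          16 ^ (k + 1) * (2 * e * R * W ^ 2 * (M * L) ^ 2 / M ^ (k + 1)) * (1 / M) := by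
        have : M ^ (k + 1) = M ^ k * M := pow_succ M k
        rw [this]
        field_simp
      rw [g3]
      have g4 : 1 / M ≤ 1 := by
        rw [div_le_one hM0]; exact hM
      exact mul_le_of_le_one_right (by positivity) g4
    have f2 : B ^ (k + 1) * BB ^ (k + 1) * SN ≤
        64 ^ (k + 1) * (2 * e * R * W ^ 2 * (M * L) ^ 2 / M ^ (k + 1)) := by
      have hB0 : 0 < B := by rw [hB]; positivity
      have g1 : B ^ (k + 1) * BB ^ (k + 1) * SN ≤ B ^ (k + 1) * BB ^ (k + 1) *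
          (e / W ^ (2 * k) * ((M * L) ^ 2 * (2 * R))) :=
        mul_le_mul_of_nonneg_left hN (by positivity)
      refine g1.trans (le_of_eq ?_)
      have g2 : B ^ (k + 1) * BB ^ (k + 1) =
          64 ^ (k + 1) * (W ^ 2 * W ^ (2 * k)) / M ^ (k + 1) := by
        rw [hBBd, hBd, ← hWW]
        have : (64 : ℝ) ^ (k + 1) = 16 ^ (k + 1) * 4 ^ (k + 1) := by
          rw [← mul_pow]; norm_num
        rw [this]
        ring
      rw [g2]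
      field_simp
    have h16 : (16 : ℝ) ^ (k + 1) ≤ 64 ^ (k + 1) := pow_le_pow_left₀ (by norm_num) (by norm_num) _
    have hY0 : 0 ≤ R * W ^ 2 * (M * L) ^ 2 / M ^ (k + 1) := by positivity
    calc BB ^ (k + 1) * BB ^ (k + 1) * SE + B ^ (k + 1) * BB ^ (k + 1) * SN
        ≤ 16 ^ (k + 1) * (2 * e * R * W ^ 2 * (M * L) ^ 2 / M ^ (k + 1)) +
          64 ^ (k + 1) * (2 * e * R * W ^ 2 * (M * L) ^ 2 / M ^ (k + 1)) := add_le_add f1 f2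
      _ ≤ 64 ^ (k + 1) * (2 * e * R * W ^ 2 * (M * L) ^ 2 / M ^ (k + 1)) +
          64 ^ (k + 1) * (2 * e * R * W ^ 2 * (M * L) ^ 2 / M ^ (k + 1)) := by
          have := mul_le_mul_of_nonneg_right h16
            (by positivity : 0 ≤ 2 * e * R * W ^ 2 * (M * L) ^ 2 / M ^ (k + 1))
          linarith
      _ = 4 * 64 ^ (k + 1) * e * (R * W ^ 2 * (M * L) ^ 2 / M ^ (k + 1)) := by ring
      _ ≤ 4 * 64 ^ (k + 1) * (e + 1) * (R * W ^ 2 * (M * L) ^ 2 / M ^ (k + 1)) := by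
          apply mul_le_mul_of_nonneg_right _ hY0
          apply mul_le_mul_of_nonneg_left _ (by positivity)
          linarith
      _ = _ := by ring

theorem inv_A (d g h s m v E : ℕ) : ∃ C : ℝ, 0 < C ∧ ∀ (S : St d g h s m v E) (i j : Fin s),
    i ≠ j → ∀ t1 ∈ S.I, ∀ t1' ∈ S.I, ∀ t ∈ S.I, ∀ t' ∈ S.I,
    (∀ z1 ∈ zA (S.QS i) (S.PS i), ∀ z2 ∈ zA (S.QS j) (S.PS j), DA d t1 t1' t t' z1 z2 ≠ 0) ∧
    ∑ z1 ∈ zA (S.QS i) (S.PS i), ∑ z2 ∈ zA (S.QS j) (S.PS j),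
      1 / |((DA d t1 t1' t t' z1 z2 : ℤ) : ℝ)| ≤
      C * S.R * (S.M : ℝ) ^ (d - 1) * ((S.M : ℝ) * S.L) ^ 2 / ((S.V : ℝ) ^ d) ^ (2 * (d - 1)) ∧
    ∑ z1 ∈ zA (S.QS i) (S.PS i), ∑ z2 ∈ zA (S.QS j) (S.PS j),
      ((S.uA z1 : ℝ) ^ d * (S.BB : ℝ) ^ d) / |((DA d t1 t1' t t' z1 z2 : ℤ) : ℝ)| ≤
      C * S.R * ((S.V : ℝ) ^ d) ^ 2 * ((S.M : ℝ) * S.L) ^ 2 / (S.M : ℝ) ^ d := by
  refine ⟨4 * 64 ^ d * ((E : ℝ) ^ (2 * (d - 1)) + 1), by positivity, ?_⟩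
  intro S i j hij t1 ht1 t1' ht1' t ht t' ht'
  have hd := InvA_d S
  set Z := zA (S.QS i) (S.PS i) ×ˢ zA (S.QS j) (S.PS j) with hZdef
  have hZ : ∀ x ∈ Z, x.1 ∈ zA (S.QS i) (S.PS i) ∧ x.2 ∈ zA (S.QS j) (S.PS j) := by
    intro x hx
    rw [hZdef, mem_product] at hx
    exact hx
  have hSE := InvA_sumE S hij ht1 ht1' ht ht' (Z.filter fun x => x.1.1.1 = x.1.2.1)
    (fun x hx => hZ x (mem_filter.1 hx).1) (fun x hx => (mem_filter.1 hx).2)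
  have hSN := InvA_sumN S hij ht1 ht1' ht ht' (Z.filter fun x => ¬ x.1.1.1 = x.1.2.1)
    (fun x hx => hZ x (mem_filter.1 hx).1) (fun x hx => (mem_filter.1 hx).2)
  have hE0 : (0 : ℝ) < E := by
    have := S.hE
    have : 0 < E := by omega
    exact_mod_cast this
  have hV0 : (0 : ℝ) < S.V := by exact_mod_cast S.V_pos
  have hM1 : (1 : ℝ) ≤ S.M := by exact_mod_cast S.M_pos
  have hL0 : (0 : ℝ) < S.L := by exact_mod_cast S.L_pos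
  have hR0 : (0 : ℝ) < S.R := by exact_mod_cast S.R_pos
  have hBB0 : (0 : ℝ) < S.BB := by exact_mod_cast S.BB_pos
  have hB : (S.B : ℝ) = 16 * (S.V : ℝ) ^ d := by
    rw [S.B_eqV]; push_cast; ring
  have hBB : (S.BB : ℝ) * S.M = 4 * (S.V : ℝ) ^ d := by
    have h1 := S.B_eq_BB
    have h2 : (S.B : ℝ) = 4 * S.M * S.BB := by exact_mod_cast h1
    linarith
  obtain ⟨r1, r2⟩ := InvA_arith d hd E S.R S.M S.L ((S.V : ℝ) ^ d) S.B S.BB _ _ hE0 hR0 hM1 hL0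
    (by positivity) hB hBB hBB0 hSN hSE
  refine ⟨?_, ?_, ?_⟩
  · intro z1 hz1 z2 hz2
    have h1 := InvA_ne S hij ht1' ht (t1 := t1) (t' := t') (x := (z1, z2)) hz1 hz2
    have h2 := InvA_DA d t1 t1' t t' (z1, z2)
    simp only at h2
    rw [h2, sub_ne_zero]
    intro h3
    apply h1
    have h4 : InvA_A t1 t' (z1, z2) ^ d = InvA_B t1' t (z1, z2) ^ d := by exact_mod_cast h3
    exact Nat.pow_left_injective (by omega) h4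
  · rw [← sum_product' (f := fun z1 z2 => 1 / |((DA d t1 t1' t t' z1 z2 : ℤ) : ℝ)|), ← hZdef,
      ← sum_filter_add_sum_filter_not Z (fun x => x.1.1.1 = x.1.2.1)]
    exact r1
  · rw [← sum_product' (f := fun z1 z2 => ((S.uA z1 : ℝ) ^ d * (S.BB : ℝ) ^ d) /
      |((DA d t1 t1' t t' z1 z2 : ℤ) : ℝ)|), ← hZdef,
      ← sum_filter_add_sum_filter_not Z (fun x => x.1.1.1 = x.1.2.1)]
    refine le_trans (le_of_eq ?_) r2
    rw [mul_sum, mul_sum]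
    congr 1
    · refine sum_congr rfl fun x hx => ?_
      rw [mem_filter] at hx
      unfold St.uA
      rw [if_pos hx.2, mul_one_div]
    · refine sum_congr rfl fun x hx => ?_
      rw [mem_filter] at hx
      unfold St.uA
      rw [if_neg hx.2, mul_one_div]

end Pool.Agent.Lib.MP_e426f4_ag.DH
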