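import Pool.Agent.Lib.MP_e426f4_ag.DH.ADefs
import Pool.Agent.Lib.MP_e426f4_ag.DH.FactsX
import Pool.Agent.Lib.MP_e426f4_ag.DH.InvSum

/-!
# InvB: the sum of `1/|D|` for type B

`DB = l2^d (A^d - A'^d)`, `A = t1 a1 t' a2'`, `A' = t1' a1' t a2` (all `a ∈ (M,4M]`), `A ≠ A'` (`a1` divides only `A`); `A, A' ≥ (TM)²/E²`;
`|DB| ≥ L^d |A-A'| ((TM)²/E²)^(d-1)`.  For fixed `l1, l2` (at most `L²`) and `(a1', a2)` (at most `M²`) the map `(a1,a2') ↦ A` is injective, values `≤ B`: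
`∑ 1/|A-A'| ≤ 2R` (`inv_sum`).
-/

set_option autoImplicit false

namespace Pool.Agent.Lib.MP_e426f4_ag.DH

open Finset
open Pool.Agent.Lib.MP_e426f4_ag.DG

private theorem InvB_fib {ι κ : Type} [DecidableEq κ] (Z : Finset ι) (f : ι → κ) (K : Finset κ)
    (A A' : ι → ℕ) (N : ℕ) (hf : ∀ x ∈ Z, f x ∈ K)
    (hA' : ∀ x ∈ Z, ∀ y ∈ Z, f x = f y → A' x = A' y)
    (hinj : ∀ x ∈ Z, ∀ y ∈ Z, f x = f y → A x = A y → x = y)
    (hN : ∀ x ∈ Z, A x ≤ N) (hN' : ∀ x ∈ Z, A' x ≤ N) (hne : ∀ x ∈ Z, A x ≠ A' x) :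
    ∑ x ∈ Z, 1 / |(A x : ℝ) - A' x| ≤ K.card * (2 * (1 + Real.log N)) := by
  classical
  rw [← Finset.sum_fiberwise_of_maps_to hf, ← nsmul_eq_mul]
  refine Finset.sum_le_card_nsmul _ _ _ ?_
  intro k _
  rcases (Z.filter fun x => f x = k).eq_empty_or_nonempty with h | ⟨x0, hx0⟩
  · rw [h, sum_empty]
    have : 0 ≤ Real.log N := Real.log_natCast_nonneg N
    linarith
  · rw [mem_filter] at hx0
    have e : ∑ x ∈ Z.filter (fun x => f x = k), 1 / |(A x : ℝ) - A' x| =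
        ∑ x ∈ Z.filter (fun x => f x = k), 1 / |(A x : ℝ) - A' x0| := by
      refine sum_congr rfl fun x hx => ?_
      rw [mem_filter] at hx
      rw [hA' x hx.1 x0 hx0.1 (hx.2.trans hx0.2.symm)]
    rw [e]
    refine inv_sum _ A N (A' x0) (hN' x0 hx0.1) ?_ ?_ ?_
    · intro x hx y hy hxy
      rw [mem_filter] at hx hy
      exact hinj x hx.1 y hy.1 (hx.2.trans hy.2.symm) hxy
    · intro x hx
      exact hN x (mem_filter.1 hx).1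
    · intro x hx
      rw [mem_filter] at hx
      rw [← hA' x hx.1 x0 hx0.1 (hx.2.trans hx0.2.symm)]
      exact hne x hx.1

/-- the two numbers -/
private def InvB_A (t1 t' : ℕ) (x : (ℕ × (ℕ × ℕ)) × (ℕ × (ℕ × ℕ))) : ℕ :=
  t1 * x.1.2.1 * (t' * x.2.2.2)

private def InvB_B (t1' t : ℕ) (x : (ℕ × (ℕ × ℕ)) × (ℕ × (ℕ × ℕ))) : ℕ :=
  t1' * x.1.2.2 * (t * x.2.2.1)

private theorem InvB_DB (d t1 t1' t t' : ℕ) (x : (ℕ × (ℕ × ℕ)) × (ℕ × (ℕ × ℕ))) :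
    DB d t1 t1' t t' x.1 x.2 =
      (x.2.1 : ℤ) ^ d * ((InvB_A t1 t' x : ℤ) ^ d - (InvB_B t1' t x : ℤ) ^ d) := by
  unfold DB InvB_A InvB_B
  push_cast
  simp only [mul_pow]
  ring

/-- membership -/
private theorem InvB_mem {Q P : Finset ℕ} {z : ℕ × (ℕ × ℕ)} (hz : z ∈ zB Q P) :
    z.1 ∈ P ∧ z.2.1 ∈ Q ∧ z.2.2 ∈ Q ∧ z.2.1 ≠ z.2.2 := by
  unfold zB at hz
  rw [mem_filter, mem_product, mem_product] at hz
  exact ⟨hz.1.1, hz.1.2.1, hz.1.2.2, hz.2⟩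

section

variable {d g h s m v E : ℕ} (S : St d g h s m v E)

include S in
private theorem InvB_d : 1 ≤ d := by
  have := S.hdg
  omega

private theorem InvB_primeL {i : Fin s} {l : ℕ} (hl : l ∈ S.PS i) : l.Prime := (S.hPS i l hl).1

private theorem InvB_primeQ {i : Fin s} {q : ℕ} (hq : q ∈ S.QS i) : q.Prime := (S.hQS i q hq).1

private theorem InvB_I {t : ℕ} (ht : t ∈ S.I) : 1 ≤ t ∧ t ≤ S.T := by
  obtain ⟨h1, h2, -⟩ := (S.I_mem t).1 ht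
  exact ⟨h1, h2⟩

/-- a prime `q ∣ t q'` -/
private theorem InvB_q {i j : Fin s} {q t q' l' : ℕ} (hq : q ∈ S.QS i) (ht : t ∈ S.I)
    (hq' : q' ∈ S.QS j) (hl' : l' ∈ S.PS j) (hd : q ∣ t * q') : q = q' := by
  refine S.q_dvd hq (InvB_I S ht) hq' hl' ?_
  rw [← mul_assoc]
  exact Dvd.dvd.mul_right hd _

private theorem InvB_ne {i j : Fin s} (hij : i ≠ j) {t1 t1' t t' : ℕ} (ht1' : t1' ∈ S.I)
    (ht : t ∈ S.I) {x : (ℕ × (ℕ × ℕ)) × (ℕ × (ℕ × ℕ))}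
    (h1 : x.1 ∈ zB (S.QS i) (S.PS i)) (h2 : x.2 ∈ zB (S.QS j) (S.PS j)) :
    InvB_A t1 t' x ≠ InvB_B t1' t x := by
  intro he
  obtain ⟨a1, a2, a3, a4⟩ := InvB_mem h1
  obtain ⟨b1, b2, b3, b4⟩ := InvB_mem h2
  have hp := InvB_primeQ S a2
  have hd : x.1.2.1 ∣ InvB_B t1' t x := by
    rw [← he]
    unfold InvB_A
    exact Dvd.dvd.mul_right (Dvd.intro_left _ rfl) _
  unfold InvB_B at hd
  rcases (Nat.Prime.dvd_mul hp).1 hd with h3 | h3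
  · exact a4 (InvB_q S a2 ht1' a3 a1 h3)
  · have h4 := InvB_q S a2 ht b2 b1 h3
    rw [h4] at a2
    exact hij (S.QS_idx a2 b2)

private theorem InvB_inj {i j : Fin s} (hij : i ≠ j) {t1 t' : ℕ} (ht1 : t1 ∈ S.I)
    (ht' : t' ∈ S.I) {x y : (ℕ × (ℕ × ℕ)) × (ℕ × (ℕ × ℕ))}
    (h1 : x.1 ∈ zB (S.QS i) (S.PS i)) (h2 : x.2 ∈ zB (S.QS j) (S.PS j))
    (h3 : y.1 ∈ zB (S.QS i) (S.PS i)) (h4 : y.2 ∈ zB (S.QS j) (S.PS j))
    (he : InvB_A t1 t' x = InvB_A t1 t' y) :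
    x.1.2.1 = y.1.2.1 ∧ x.2.2.2 = y.2.2.2 := by
  obtain ⟨a1, a2, a3, a4⟩ := InvB_mem h1
  obtain ⟨a5, a6, a7, a8⟩ := InvB_mem h2
  obtain ⟨b1, b2, b3, b4⟩ := InvB_mem h3
  obtain ⟨b5, b6, b7, b8⟩ := InvB_mem h4
  have key : ∀ p : ℕ, p.Prime → p ∣ InvB_A t1 t' x → p ∣ t1 * y.1.2.1 ∨ p ∣ t' * y.2.2.2 := by
    intro p hp hd
    rw [he] at hd
    unfold InvB_A at hd
    exact (Nat.Prime.dvd_mul hp).1 hd
  constructor
  · rcases key _ (InvB_primeQ S a2)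
      (by unfold InvB_A; exact Dvd.dvd.mul_right (Dvd.intro_left _ rfl) _) with h5 | h5
    · exact InvB_q S a2 ht1 b2 b1 h5
    · exfalso
      have h6 := InvB_q S a2 ht' b7 b5 h5
      rw [h6] at a2
      exact hij (S.QS_idx a2 b7)
  · rcases key _ (InvB_primeQ S a7)
      (by unfold InvB_A; exact Dvd.dvd.mul_left (Dvd.intro_left _ rfl) _) with h5 | h5
    · exfalso
      have h6 := InvB_q S a7 ht1 b2 b1 h5
      rw [h6] at a7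
      exact hij (S.QS_idx b2 a7)
    · exact InvB_q S a7 ht' b7 b5 h5

private theorem InvB_logB : 1 + Real.log ((S.B * S.B : ℕ) : ℝ) ≤ S.R := by
  have h1 := S.log_le
  have h2 : (1 : ℝ) ≤ S.B := by exact_mod_cast S.B_pos
  have h3 : Real.log ((S.B * S.B : ℕ) : ℝ) ≤ Real.log (((S.B : ℕ) : ℝ) ^ 4) := by
    apply Real.log_le_log
    · push_cast; nlinarith
    · push_cast
      calc (S.B : ℝ) * S.B = (S.B : ℝ) ^ 2 := by ring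
        _ ≤ (S.B : ℝ) ^ 4 := pow_le_pow_right₀ h2 (by norm_num)
  linarith

private theorem InvB_prod_le {t q l : ℕ} {i : Fin s} (ht : t ∈ S.I) (hq : q ∈ S.QS i)
    (hl : l ∈ S.PS i) : t * q ≤ S.B ∧ S.M * S.T ≤ E * (t * q) := by
  obtain ⟨h1, h2, h3⟩ := (S.I_mem t).1 ht
  have hq1 : S.M < q := (S.hQS i q hq).2.1
  have hl0 : 0 < l := (InvB_primeL S hl).pos
  constructor
  · have h4 := (S.X_bounds i _ ((S.X_mem i _).2 ⟨t, q, l, ht, hq, hl, rfl⟩)).2.1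
    refine le_trans ?_ h4
    rw [← mul_assoc]
    exact Nat.le_mul_of_pos_right _ hl0
  · calc S.M * S.T ≤ q * (E * t) := Nat.mul_le_mul hq1.le h3.le
      _ = E * (t * q) := by ring

private theorem InvB_le_B {i j : Fin s} {t1 t1' t t' : ℕ} (ht1 : t1 ∈ S.I) (ht1' : t1' ∈ S.I)
    (ht : t ∈ S.I) (ht' : t' ∈ S.I) {x : (ℕ × (ℕ × ℕ)) × (ℕ × (ℕ × ℕ))}
    (h1 : x.1 ∈ zB (S.QS i) (S.PS i)) (h2 : x.2 ∈ zB (S.QS j) (S.PS j)) :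
    InvB_A t1 t' x ≤ S.B * S.B ∧ InvB_B t1' t x ≤ S.B * S.B := by
  obtain ⟨a1, a2, a3, a4⟩ := InvB_mem h1
  obtain ⟨b1, b2, b3, b4⟩ := InvB_mem h2
  exact ⟨Nat.mul_le_mul (InvB_prod_le S ht1 a2 a1).1 (InvB_prod_le S ht' b3 b1).1,
    Nat.mul_le_mul (InvB_prod_le S ht1' a3 a1).1 (InvB_prod_le S ht b2 b1).1⟩

private theorem InvB_low {i j : Fin s} {t1 t1' t t' : ℕ} (ht1 : t1 ∈ S.I)
    (ht1' : t1' ∈ S.I) (ht : t ∈ S.I) (ht' : t' ∈ S.I)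
    {x : (ℕ × (ℕ × ℕ)) × (ℕ × (ℕ × ℕ))}
    (h1 : x.1 ∈ zB (S.QS i) (S.PS i)) (h2 : x.2 ∈ zB (S.QS j) (S.PS j)) :
    (S.M * S.T) ^ 2 ≤ E ^ 2 * InvB_A t1 t' x ∧ (S.M * S.T) ^ 2 ≤ E ^ 2 * InvB_B t1' t x := by
  obtain ⟨a1, a2, a3, a4⟩ := InvB_mem h1
  obtain ⟨b1, b2, b3, b4⟩ := InvB_mem h2
  unfold InvB_A InvB_B
  constructor
  · calc (S.M * S.T) ^ 2 = (S.M * S.T) * (S.M * S.T) := sq _
      _ ≤ (E * (t1 * x.1.2.1)) * (E * (t' * x.2.2.2)) :=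
        Nat.mul_le_mul (InvB_prod_le S ht1 a2 a1).2 (InvB_prod_le S ht' b3 b1).2
      _ = _ := by ring
  · calc (S.M * S.T) ^ 2 = (S.M * S.T) * (S.M * S.T) := sq _
      _ ≤ (E * (t1' * x.1.2.2)) * (E * (t * x.2.2.1)) :=
        Nat.mul_le_mul (InvB_prod_le S ht1' a3 a1).2 (InvB_prod_le S ht b2 b1).2
      _ = _ := by ring

/-- the core estimate -/
private theorem InvB_one {i j : Fin s} (hij : i ≠ j) {t1 t1' t t' : ℕ} (ht1 : t1 ∈ S.I)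
    (ht1' : t1' ∈ S.I) (ht : t ∈ S.I) (ht' : t' ∈ S.I)
    (Z : Finset ((ℕ × (ℕ × ℕ)) × (ℕ × (ℕ × ℕ))))
    (hZ : ∀ x ∈ Z, x.1 ∈ zB (S.QS i) (S.PS i) ∧ x.2 ∈ zB (S.QS j) (S.PS j)) :
    ∑ x ∈ Z, 1 / |(InvB_A t1 t' x : ℝ) - InvB_B t1' t x| ≤
      (S.L : ℝ) ^ 2 * (S.M : ℝ) ^ 2 * (2 * S.R) := by
  have h1 := InvB_fib Z (fun x => ((x.1.1, x.2.1), (x.1.2.2, x.2.2.1)))
    ((S.PS i ×ˢ S.PS j) ×ˢ (S.QS i ×ˢ S.QS j))
    (InvB_A t1 t') (InvB_B t1' t) (S.B * S.B) ?_ ?_ ?_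
    (fun x hx => (InvB_le_B S ht1 ht1' ht ht' (hZ x hx).1 (hZ x hx).2).1)
    (fun x hx => (InvB_le_B S ht1 ht1' ht ht' (hZ x hx).1 (hZ x hx).2).2)
    (fun x hx => InvB_ne S hij ht1' ht (hZ x hx).1 (hZ x hx).2)
  · refine h1.trans ?_
    have h2 := InvB_logB S
    have h3 : ((((S.PS i ×ˢ S.PS j) ×ˢ (S.QS i ×ˢ S.QS j)).card : ℕ) : ℝ) ≤
        (S.L : ℝ) ^ 2 * (S.M : ℝ) ^ 2 := by
      rw [card_product, card_product, card_product]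
      have h4 : (S.PS i).card * (S.PS j).card * ((S.QS i).card * (S.QS j).card) ≤
          S.L ^ 2 * S.M ^ 2 := by
        rw [sq, sq]
        exact Nat.mul_le_mul (Nat.mul_le_mul (S.PS_card_le i) (S.PS_card_le j))
          (Nat.mul_le_mul (S.QS_card_le i) (S.QS_card_le j))
      exact_mod_cast h4
    refine mul_le_mul h3 (by linarith) ?_ (by positivity)
    have : 0 ≤ Real.log ((S.B * S.B : ℕ) : ℝ) := Real.log_natCast_nonneg _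
    linarith
  · intro x hx
    obtain ⟨a1, a2, a3, a4⟩ := InvB_mem (hZ x hx).1
    obtain ⟨b1, b2, b3, b4⟩ := InvB_mem (hZ x hx).2
    simp only [mem_product]
    exact ⟨⟨a1, b1⟩, a3, b2⟩
  · intro x hx y hy hf
    simp only [Prod.mk.injEq] at hf
    unfold InvB_B
    rw [hf.2.1, hf.2.2]
  · intro x hx y hy hf he
    simp only [Prod.mk.injEq] at hf
    obtain ⟨e1, e2⟩ := InvB_inj S hij ht1 ht' (hZ x hx).1 (hZ x hx).2 (hZ y hy).1 (hZ y hy).2 he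
    exact Prod.ext (Prod.ext hf.1.1 (Prod.ext e1 hf.2.1)) (Prod.ext hf.1.2 (Prod.ext hf.2.2 e2))

end

theorem inv_B (d g h s m v E : ℕ) : ∃ C : ℝ, 0 < C ∧ ∀ (S : St d g h s m v E) (i j : Fin s),
    i ≠ j → ∀ t1 ∈ S.I, ∀ t1' ∈ S.I, ∀ t ∈ S.I, ∀ t' ∈ S.I,
    (∀ z1 ∈ zB (S.QS i) (S.PS i), ∀ z2 ∈ zB (S.QS j) (S.PS j), DB d t1 t1' t t' z1 z2 ≠ 0) ∧
    ∑ z1 ∈ zB (S.QS i) (S.PS i), ∑ z2 ∈ zB (S.QS j) (S.PS j),
      1 / |((DB d t1 t1' t t' z1 z2 : ℤ) : ℝ)| ≤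
      C * S.R * (S.L : ℝ) ^ 2 * (S.M : ℝ) ^ 2 / ((S.L : ℝ) ^ d * (S.M : ℝ) ^ (2 * (d - 1))) := by
  refine ⟨2 * ((E : ℝ) ^ 2) ^ (d - 1) + 1, by positivity, ?_⟩
  intro S i j hij t1 ht1 t1' ht1' t ht t' ht'
  have hE0 : (0 : ℝ) < E := by
    have := S.hE
    have : 0 < E := by omega
    exact_mod_cast this
  have hM0 : (0 : ℝ) < S.M := by exact_mod_cast S.M_pos
  have hL0 : (0 : ℝ) < S.L := by exact_mod_cast S.L_pos
  have hT1 : (1 : ℝ) ≤ S.T := by exact_mod_cast S.T_pos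
  have hT0 : (0 : ℝ) < S.T := by linarith
  have hR0 : (0 : ℝ) ≤ S.R := Nat.cast_nonneg _
  have hd := InvB_d S
  have hlow : ∀ x : (ℕ × (ℕ × ℕ)) × (ℕ × (ℕ × ℕ)),
      x ∈ zB (S.QS i) (S.PS i) ×ˢ zB (S.QS j) (S.PS j) →
      0 < |(InvB_A t1 t' x : ℝ) - InvB_B t1' t x| ∧
      (S.L : ℝ) ^ d * ((((S.M : ℝ) * S.T) ^ 2 / (E : ℝ) ^ 2) ^ (d - 1) *
        |(InvB_A t1 t' x : ℝ) - InvB_B t1' t x|) ≤
        |((DB d t1 t1' t t' x.1 x.2 : ℤ) : ℝ)| := by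
    intro x hx
    rw [mem_product] at hx
    have hne := InvB_ne S hij ht1' ht (t1 := t1) (t' := t') hx.1 hx.2
    have h2 : (0 : ℝ) < |(InvB_A t1 t' x : ℝ) - InvB_B t1' t x| := by
      rw [abs_pos, sub_ne_zero]
      exact_mod_cast hne
    refine ⟨h2, ?_⟩
    have hl := InvB_low S ht1 ht1' ht ht' hx.1 hx.2
    have hA : (((S.M : ℝ) * S.T) ^ 2 / (E : ℝ) ^ 2) ≤ InvB_A t1 t' x := by
      rw [div_le_iff₀ (by positivity)]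
      have h3 : ((S.M : ℝ) * S.T) ^ 2 ≤ (E : ℝ) ^ 2 * InvB_A t1 t' x := by exact_mod_cast hl.1
      linarith
    have hB : (((S.M : ℝ) * S.T) ^ 2 / (E : ℝ) ^ 2) ≤ InvB_B t1' t x := by
      rw [div_le_iff₀ (by positivity)]
      have h3 : ((S.M : ℝ) * S.T) ^ 2 ≤ (E : ℝ) ^ 2 * InvB_B t1' t x := by exact_mod_cast hl.2
      linarith
    have h4 := pow_sub_lower d hd (InvB_A t1 t' x) (InvB_B t1' t x)
      (((S.M : ℝ) * S.T) ^ 2 / (E : ℝ) ^ 2) (by positivity) hA hB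
    rw [InvB_DB]
    push_cast
    rw [abs_mul, abs_of_nonneg (by positivity : (0 : ℝ) ≤ (x.2.1 : ℝ) ^ d)]
    have h5 : (S.L : ℝ) ≤ x.2.1 := by
      obtain ⟨b1, -⟩ := InvB_mem hx.2
      exact_mod_cast (S.hPS j _ b1).2.1.le
    rw [mul_comm ((((S.M : ℝ) * S.T) ^ 2 / (E : ℝ) ^ 2) ^ (d - 1))]
    gcongr
  constructor
  · intro z1 h1 z2 h2 h0
    have h3 := hlow (z1, z2) (mem_product.2 ⟨h1, h2⟩)
    simp only at h3
    rw [h0, Int.cast_zero, abs_zero] at h3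
    have h4 := h3.1
    have h5 : 0 < (S.L : ℝ) ^ d * ((((S.M : ℝ) * S.T) ^ 2 / (E : ℝ) ^ 2) ^ (d - 1) *
        |(InvB_A t1 t' (z1, z2) : ℝ) - InvB_B t1' t (z1, z2)|) := by positivity
    linarith [h3.2]
  · rw [← sum_product' (zB (S.QS i) (S.PS i)) (zB (S.QS j) (S.PS j))
      (fun z1 z2 => 1 / |((DB d t1 t1' t t' z1 z2 : ℤ) : ℝ)|)]
    have h1 := InvB_one S hij ht1 ht1' ht ht' (zB (S.QS i) (S.PS i) ×ˢ zB (S.QS j) (S.PS j))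
      (fun x hx => mem_product.1 hx)
    calc ∑ x ∈ zB (S.QS i) (S.PS i) ×ˢ zB (S.QS j) (S.PS j),
          1 / |((DB d t1 t1' t t' x.1 x.2 : ℤ) : ℝ)|
        ≤ ∑ x ∈ zB (S.QS i) (S.PS i) ×ˢ zB (S.QS j) (S.PS j),
          (((E : ℝ) ^ 2) ^ (d - 1) / ((S.L : ℝ) ^ d * (((S.M : ℝ) * S.T) ^ 2) ^ (d - 1))) *
            (1 / |(InvB_A t1 t' x : ℝ) - InvB_B t1' t x|) := by
          refine sum_le_sum fun x hx => ?_
          obtain ⟨h3, h4⟩ := hlow x hx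
          refine (one_div_le_one_div_of_le (by positivity) h4).trans (le_of_eq ?_)
          rw [div_pow]
          field_simp
      _ = (((E : ℝ) ^ 2) ^ (d - 1) / ((S.L : ℝ) ^ d * (((S.M : ℝ) * S.T) ^ 2) ^ (d - 1))) *
          ∑ x ∈ zB (S.QS i) (S.PS i) ×ˢ zB (S.QS j) (S.PS j),
            (1 / |(InvB_A t1 t' x : ℝ) - InvB_B t1' t x|) := by rw [mul_sum]
      _ ≤ (((E : ℝ) ^ 2) ^ (d - 1) / ((S.L : ℝ) ^ d * (S.M : ℝ) ^ (2 * (d - 1)))) *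
          ((S.L : ℝ) ^ 2 * (S.M : ℝ) ^ 2 * (2 * S.R)) := by
          refine mul_le_mul ?_ h1 (sum_nonneg fun x _ => by positivity) (by positivity)
          have h5 : (S.M : ℝ) ^ (2 * (d - 1)) ≤ (((S.M : ℝ) * S.T) ^ 2) ^ (d - 1) := by
            rw [pow_mul]
            gcongr
            exact le_mul_of_one_le_right hM0.le hT1
          gcongr
      _ = 2 * ((E : ℝ) ^ 2) ^ (d - 1) * S.R * (S.L : ℝ) ^ 2 * (S.M : ℝ) ^ 2 /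
          ((S.L : ℝ) ^ d * (S.M : ℝ) ^ (2 * (d - 1))) := by ring
      _ ≤ _ := by
          gcongr
          linarith

end Pool.Agent.Lib.MP_e426f4_ag.DH
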