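import Pool.Agent.Lib.MP_e426f4_ag.DG.Defs
import Pool.Agent.Lib.MP_e426f4_ag.DG.Ed

/-!
# KapB: `kap d q` is small for large `q`

`kap d q = ∑_{h ∣ q} (h/q)/ed(h)² ≤ r max_h`.  For `h ∣ q`: `h ∣ ed(h)^d` so `h ≤ ed(h)^d`, `h² ≤ ed(h)^(2d)`;
`(h/(q ed(h)²))^d ≤ h^(d-2)/q^d ≤ 1/q²`.  Hence `(kap d q)^d ≤ r^d / q²`.
-/

set_option autoImplicit false

namespace Pool.Agent.Lib.MP_e426f4_ag.DH

open Finset
open Pool.Agent.Lib.MP_e426f4_ag.DG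

private theorem kapB_term (d q h : ℕ) (hd : 2 ≤ d) (hq : 1 ≤ q) (hh : h ∈ q.divisors) :
    0 ≤ (h : ℝ) / q / (ed d h : ℝ) ^ 2 ∧ (h : ℝ) / q / (ed d h : ℝ) ^ 2 ≤ 1 ∧
      ((h : ℝ) / q / (ed d h : ℝ) ^ 2) ^ d * (q : ℝ) ^ 2 ≤ 1 := by
  have hdvd : h ∣ q := Nat.dvd_of_mem_divisors hh
  have hh1 : 1 ≤ h := Nat.pos_of_dvd_of_pos hdvd hq
  have hhq : h ≤ q := Nat.le_of_dvd hq hdvd
  have he1 : 1 ≤ ed d h := ed_pos d h (by omega) hh1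
  have hed : h ≤ ed d h ^ d := Nat.le_of_dvd (pow_pos he1 d) (ed_spec d h (by omega) hh1)
  have hq' : (1 : ℝ) ≤ q := by exact_mod_cast hq
  have hh' : (1 : ℝ) ≤ h := by exact_mod_cast hh1
  have hhq' : (h : ℝ) ≤ q := by exact_mod_cast hhq
  have he' : (1 : ℝ) ≤ ed d h := by exact_mod_cast he1
  have hed' : (h : ℝ) ≤ (ed d h : ℝ) ^ d := by exact_mod_cast hed
  have hq0 : (0 : ℝ) < q := by linarith
  have he0 : (0 : ℝ) < ed d h := by linarith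
  refine ⟨by positivity, ?_, ?_⟩
  · have h1 : (h : ℝ) / q ≤ 1 := by
      rw [div_le_one hq0]
      exact hhq'
    have h2 : (1 : ℝ) ≤ (ed d h : ℝ) ^ 2 := one_le_pow₀ he'
    rw [div_le_one (by positivity)]
    linarith
  · have h3 : ((h : ℝ) / q / (ed d h : ℝ) ^ 2) ^ d * (q : ℝ) ^ 2 =
        ((h : ℝ) ^ d * (q : ℝ) ^ 2) / ((q : ℝ) ^ d * ((ed d h : ℝ) ^ d) ^ 2) := by
      rw [div_pow, div_pow, ← pow_mul, ← pow_mul, mul_comm 2 d]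
      field_simp
    rw [h3, div_le_one (by positivity)]
    obtain ⟨k, rfl⟩ : ∃ k, d = k + 2 := ⟨d - 2, by omega⟩
    have h4 : (h : ℝ) ^ k ≤ (q : ℝ) ^ k := pow_le_pow_left₀ (by linarith) hhq' k
    have h5 : (h : ℝ) ^ 2 ≤ ((ed (k + 2) h : ℝ) ^ (k + 2)) ^ 2 :=
      pow_le_pow_left₀ (by linarith) hed' 2
    calc (h : ℝ) ^ (k + 2) * (q : ℝ) ^ 2 = ((h : ℝ) ^ k * (q : ℝ) ^ 2) * (h : ℝ) ^ 2 := by ring
      _ ≤ ((q : ℝ) ^ k * (q : ℝ) ^ 2) * ((ed (k + 2) h : ℝ) ^ (k + 2)) ^ 2 := by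
          apply mul_le_mul _ h5 (by positivity) (by positivity)
          exact mul_le_mul_of_nonneg_right h4 (by positivity)
      _ = (q : ℝ) ^ (k + 2) * ((ed (k + 2) h : ℝ) ^ (k + 2)) ^ 2 := by ring

theorem kap_le_r (d q r : ℕ) (hd : 2 ≤ d) (hq : 1 ≤ q) (hr : q.divisors.card ≤ r) :
    kap d q ≤ r := by
  unfold kap
  have h1 := Finset.sum_le_card_nsmul q.divisors
    (fun h : ℕ => (h : ℝ) / q / (ed d h : ℝ) ^ 2) 1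
    (fun h hh => (kapB_term d q h hd hq hh).2.1)
  rw [nsmul_eq_mul, mul_one] at h1
  refine h1.trans ?_
  exact_mod_cast hr

theorem kap_pow_le (d q r : ℕ) (hd : 2 ≤ d) (hq : 1 ≤ q) (hr : q.divisors.card ≤ r) :
    (kap d q) ^ d * (q : ℝ) ^ 2 ≤ (r : ℝ) ^ d := by
  have hne : q.divisors.Nonempty := ⟨1, by simp; omega⟩
  obtain ⟨h, hh, hmax⟩ := Finset.exists_max_image q.divisors
    (fun h : ℕ => (h : ℝ) / q / (ed d h : ℝ) ^ 2) hne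
  obtain ⟨t0, -, t2⟩ := kapB_term d q h hd hq hh
  have h1 : kap d q ≤ (q.divisors.card : ℝ) * ((h : ℝ) / q / (ed d h : ℝ) ^ 2) := by
    unfold kap
    have h2 := Finset.sum_le_card_nsmul q.divisors
      (fun h : ℕ => (h : ℝ) / q / (ed d h : ℝ) ^ 2) ((h : ℝ) / q / (ed d h : ℝ) ^ 2)
      (fun x hx => hmax x hx)
    rwa [nsmul_eq_mul] at h2
  have h2 : kap d q ≤ (r : ℝ) * ((h : ℝ) / q / (ed d h : ℝ) ^ 2) :=
    h1.trans (mul_le_mul_of_nonneg_right (by exact_mod_cast hr) t0)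
  calc (kap d q) ^ d * (q : ℝ) ^ 2
      ≤ ((r : ℝ) * ((h : ℝ) / q / (ed d h : ℝ) ^ 2)) ^ d * (q : ℝ) ^ 2 :=
        mul_le_mul_of_nonneg_right (pow_le_pow_left₀ (kap_nonneg d q) h2 d) (by positivity)
    _ = (r : ℝ) ^ d * (((h : ℝ) / q / (ed d h : ℝ) ^ 2) ^ d * (q : ℝ) ^ 2) := by ring
    _ ≤ (r : ℝ) ^ d * 1 := mul_le_mul_of_nonneg_left t2 (by positivity)
    _ = (r : ℝ) ^ d := mul_one _

end Pool.Agent.Lib.MP_e426f4_ag.DH
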