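import Pool.Agent.Lib.MP_e426f4_ag.DG.Defs
import Pool.Agent.Lib.MP_e426f4_ag.DG.Ed
import Pool.Agent.Lib.MP_dd84fd_nt.DivBound

/-!
# KapH: convergence of the sum over `h` for a smaller exponent

Adapt `DG/KapA.lean` (there `e = d`).  Group the `h` by `ed d h = u`: `h ≤ u^d`, the number of such `h` is
at most `tau(u^d) ≤ C u^(1/2)`, `h ≥ Y` gives `u ≥ Y^(1/d)`, and
`u^(d+1/2) u^(1/2) u^(-2e) ≤ u^(-2)` because `2e ≥ d+3`; the tail of `∑ u^(-2)` over `u ≥ U0` is `≤ 2/U0`.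
-/

set_option autoImplicit false

namespace Pool.Agent.Lib.MP_e426f4_ag.DH

open Finset
open Pool.Agent.Lib.MP_e426f4_ag.DG

/-- tail of the sum of inverse squares -/
private theorem KapH_tail (E₀ : ℕ) (hE : 1 ≤ E₀) (N : ℕ) :
    ∑ e ∈ (Icc 1 N).filter (fun e => E₀ ≤ e), 1 / (e : ℝ) ^ 2 ≤ 2 / (E₀ : ℝ) := by
  have h1 : (Icc 1 N).filter (fun e => E₀ ≤ e) ⊆ Ioo (E₀ - 1) (N + 1) := by
    intro e he
    rw [mem_filter, mem_Icc] at he
    rw [mem_Ioo]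
    omega
  have h2 := sum_Ioo_inv_sq_le (α := ℝ) (E₀ - 1) (N + 1)
  rw [Nat.cast_sub hE, Nat.cast_one, sub_add_cancel] at h2
  refine le_trans ?_ h2
  refine le_trans (sum_le_sum_of_subset_of_nonneg h1 (fun i _ _ => by positivity)) ?_
  exact le_of_eq (sum_congr rfl (fun i _ => by rw [one_div]))

/-- the divisor bound for `e ^ d` -/
private theorem KapH_div (d : ℕ) (hd : 1 ≤ d) : ∃ C : ℝ, 0 < C ∧ ∀ e : ℕ, 1 ≤ e →
    ((e ^ d).divisors.card : ℝ) ≤ C * (e : ℝ) ^ (1 / 2 : ℝ) := by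
  obtain ⟨C, hC1, hC⟩ := Pool.Agent.Lib.MP_dd84fd_nt.DivBound.div_bound (2 * d)
  refine ⟨C, by exact_mod_cast hC1, fun e he => ?_⟩
  have h1 := hC (e ^ d) (pow_ne_zero _ (by omega))
  have he0 : (0 : ℝ) < e := by exact_mod_cast he
  have hC1' : (1 : ℝ) ≤ C := by exact_mod_cast hC1
  have h2 : ((e ^ d).divisors.card : ℝ) ^ (2 * d) ≤ (C : ℝ) * (e : ℝ) ^ d := by
    exact_mod_cast h1
  have h3 : ((C : ℝ) * (e : ℝ) ^ (1 / 2 : ℝ)) ^ (2 * d) = (C : ℝ) ^ (2 * d) * (e : ℝ) ^ d := by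
    rw [mul_pow]
    congr 1
    rw [← Real.rpow_natCast ((e : ℝ) ^ (1 / 2 : ℝ)), ← Real.rpow_mul he0.le, ← Real.rpow_natCast (e : ℝ) d]
    congr 1
    push_cast
    ring
  have h4 : ((e ^ d).divisors.card : ℝ) ^ (2 * d) ≤ ((C : ℝ) * (e : ℝ) ^ (1 / 2 : ℝ)) ^ (2 * d) := by
    rw [h3]
    refine le_trans h2 (mul_le_mul_of_nonneg_right ?_ (by positivity))
    exact le_self_pow₀ hC1' (by omega)
  exact le_of_pow_le_pow_left₀ (by omega) (by positivity) h4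

theorem kap_h2 (d e : ℕ) (hd : 4 ≤ d) (he : d + 3 ≤ 2 * e) (he' : e ≤ d) : ∃ C : ℝ, 0 < C ∧
    ∀ Y N : ℕ, 1 ≤ Y →
    ∑ h ∈ (Icc 1 N).filter (fun h => Y ≤ h),
      (h : ℝ) ^ (1 + 1 / (2 * (d : ℝ))) / (ed d h : ℝ) ^ (2 * e) ≤ C * (Y : ℝ) ^ (-(1 / (d : ℝ))) := by
  obtain ⟨C, hC0, hC⟩ := KapH_div d (by omega)
  refine ⟨2 * C, by positivity, fun Y N hY => ?_⟩
  have hex : ∃ u : ℕ, Y ≤ u ^ d := ⟨Y, Nat.le_self_pow (by omega) Y⟩
  classical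
  obtain ⟨E₀, hE₀, hEmin⟩ : ∃ E₀ : ℕ, Y ≤ E₀ ^ d ∧ ∀ u : ℕ, Y ≤ u ^ d → E₀ ≤ u :=
    ⟨Nat.find hex, Nat.find_spec hex, fun u hu => Nat.find_min' hex hu⟩
  have hE1 : 1 ≤ E₀ := by
    rcases Nat.eq_zero_or_pos E₀ with h | h
    · rw [h, zero_pow (by omega)] at hE₀
      omega
    · exact h
  have hdR : (4 : ℝ) ≤ d := by exact_mod_cast hd
  have hE0R : (0 : ℝ) < E₀ := by exact_mod_cast hE1
  -- the grouping
  have hmaps : ∀ h ∈ (Icc 1 N).filter (fun h => Y ≤ h), ed d h ∈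
      (Icc 1 N).filter (fun u => E₀ ≤ u) := by
    intro h hh
    rw [mem_filter, mem_Icc] at hh
    have h1 := ed_pos d h (by omega) hh.1.1
    have h2 := ed_spec d h (by omega) hh.1.1
    have h3 : ed d h ∣ h := (ed_dvd_iff d h h (by omega) hh.1.1 hh.1.1).1
      (dvd_pow_self h (by omega))
    have h4 := Nat.le_of_dvd hh.1.1 h3
    have h5 := Nat.le_of_dvd (Nat.pow_pos h1) h2
    rw [mem_filter, mem_Icc]
    exact ⟨⟨h1, by omega⟩, hEmin _ (by omega)⟩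
  rw [← sum_fiberwise_of_maps_to hmaps]
  have hinner : ∀ u ∈ (Icc 1 N).filter (fun u => E₀ ≤ u),
      ∑ h ∈ ((Icc 1 N).filter (fun h => Y ≤ h)).filter (fun h => ed d h = u),
        (h : ℝ) ^ (1 + 1 / (2 * (d : ℝ))) / (ed d h : ℝ) ^ (2 * e) ≤
      C * (1 / (u : ℝ) ^ 2) := by
    intro u hu
    rw [mem_filter, mem_Icc] at hu
    have hu0 : (0 : ℝ) < u := by exact_mod_cast hu.1.1
    have hu1 : (1 : ℝ) ≤ u := by exact_mod_cast hu.1.1
    have h1 : ∀ h ∈ ((Icc 1 N).filter (fun h => Y ≤ h)).filter (fun h => ed d h = u),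
        h ∈ (u ^ d).divisors ∧ (h : ℝ) ^ (1 + 1 / (2 * (d : ℝ))) / (ed d h : ℝ) ^ (2 * e) ≤
          (u : ℝ) ^ ((d : ℝ) + 1 / 2) / (u : ℝ) ^ (2 * e) := by
      intro h hh
      rw [mem_filter, mem_filter, mem_Icc] at hh
      have h2 := ed_spec d h (by omega) hh.1.1.1
      rw [hh.2] at h2
      refine ⟨Nat.mem_divisors.2 ⟨h2, pow_ne_zero _ (by omega)⟩, ?_⟩
      rw [hh.2]
      refine div_le_div_of_nonneg_right ?_ (by positivity)
      have h3 : (h : ℝ) ≤ (u : ℝ) ^ d := by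
        exact_mod_cast Nat.le_of_dvd (Nat.pow_pos (by omega)) h2
      calc (h : ℝ) ^ (1 + 1 / (2 * (d : ℝ))) ≤ ((u : ℝ) ^ d) ^ (1 + 1 / (2 * (d : ℝ))) :=
            Real.rpow_le_rpow (by positivity) h3 (by positivity)
        _ = (u : ℝ) ^ ((d : ℝ) + 1 / 2) := by
            rw [← Real.rpow_natCast (u : ℝ) d, ← Real.rpow_mul hu0.le]
            congr 1
            field_simp
    calc _ ≤ ∑ h ∈ ((Icc 1 N).filter (fun h => Y ≤ h)).filter (fun h => ed d h = u),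
          (u : ℝ) ^ ((d : ℝ) + 1 / 2) / (u : ℝ) ^ (2 * e) := sum_le_sum (fun h hh => (h1 h hh).2)
      _ = ((((Icc 1 N).filter (fun h => Y ≤ h)).filter (fun h => ed d h = u)).card : ℝ) *
          ((u : ℝ) ^ ((d : ℝ) + 1 / 2) / (u : ℝ) ^ (2 * e)) := by
          rw [sum_const, nsmul_eq_mul]
      _ ≤ (C * (u : ℝ) ^ (1 / 2 : ℝ)) * ((u : ℝ) ^ ((d : ℝ) + 1 / 2) / (u : ℝ) ^ (2 * e)) := by
          refine mul_le_mul_of_nonneg_right ?_ (by positivity)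
          refine le_trans ?_ (hC u hu.1.1)
          exact_mod_cast card_le_card (fun h hh => (h1 h hh).1)
      _ = C * ((u : ℝ) ^ (d + 1) / (u : ℝ) ^ (2 * e)) := by
          have h5 : (u : ℝ) ^ (1 / 2 : ℝ) * (u : ℝ) ^ ((d : ℝ) + 1 / 2) = (u : ℝ) ^ (d + 1) := by
            rw [← Real.rpow_add hu0, ← Real.rpow_natCast]
            congr 1
            push_cast
            ring
          rw [mul_assoc, mul_div_assoc', h5]
      _ ≤ C * (1 / (u : ℝ) ^ 2) := by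
          refine mul_le_mul_of_nonneg_left ?_ hC0.le
          rw [div_le_div_iff₀ (by positivity) (by positivity), one_mul, ← pow_add]
          exact pow_le_pow_right₀ hu1 (by omega)
  refine le_trans (sum_le_sum hinner) ?_
  rw [← mul_sum]
  have htail := KapH_tail E₀ hE1 N
  have hYR : (0 : ℝ) < Y := by exact_mod_cast hY
  have hroot : (Y : ℝ) ^ (1 / (d : ℝ)) ≤ (E₀ : ℝ) := by
    have h7 : (Y : ℝ) ≤ (E₀ : ℝ) ^ d := by exact_mod_cast hE₀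
    calc (Y : ℝ) ^ (1 / (d : ℝ)) ≤ ((E₀ : ℝ) ^ d) ^ (1 / (d : ℝ)) :=
          Real.rpow_le_rpow hYR.le h7 (by positivity)
      _ = (E₀ : ℝ) := by
          rw [← Real.rpow_natCast (E₀ : ℝ) d, ← Real.rpow_mul hE0R.le, mul_one_div,
            div_self (by positivity), Real.rpow_one]
  calc C * ∑ u ∈ (Icc 1 N).filter (fun u => E₀ ≤ u), 1 / (u : ℝ) ^ 2
      ≤ C * (2 / E₀) := by gcongr
    _ = 2 * C * (1 / (E₀ : ℝ)) := by ring
    _ ≤ 2 * C * (Y : ℝ) ^ (-(1 / (d : ℝ))) := by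
        rw [Real.rpow_neg hYR.le, ← one_div]
        have h10 : 0 < (Y : ℝ) ^ (1 / (d : ℝ)) := by positivity
        gcongr

end Pool.Agent.Lib.MP_e426f4_ag.DH
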