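import Pool.Agent.Lib.MP_e426f4_ag.DH.RigidG
import Pool.Agent.Lib.MP_e426f4_ag.DG.FFb
import Pool.Agent.Lib.MP_e426f4_ag.DG.Cnt
import Pool.Agent.Lib.MP_e426f4_ag.DG.Ed

/-!
# LossyG: the lossy bound for `F(b,b)` when `q ≤ H`, for a general set

Adapt `DG/Lossy.lean` (same proof; `rigid_gen` instead of `rigid`; the set `X` lies in `(B/F, B]`;
`cnt` with `Y = B`, `c0 = c1 = 1`, `lam = C_F / max 1 (H B^d |δ|)`).
-/

set_option autoImplicit false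

namespace Pool.Agent.Lib.MP_e426f4_ag.DH

open Finset
open Pool.Agent.Lib.MP_e426f4_ag.DG

/-- `(u - w) w^(d-1) <= u^d - w^d` for `0 <= w <= u`. -/
private theorem lossyg_pow (d : ℕ) (hd : 1 ≤ d) (u w : ℝ) (hw : 0 ≤ w) (hwu : w ≤ u) :
    (u - w) * w ^ (d - 1) ≤ u ^ d - w ^ d := by
  obtain ⟨k, rfl⟩ : ∃ k, d = k + 1 := ⟨d - 1, by omega⟩
  have h1 : w ^ k ≤ u ^ k := pow_le_pow_left₀ hw hwu k
  have h2 : (u - w) * w ^ k + w * w ^ k ≤ u * u ^ k := by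
    have : (u - w) * w ^ k + w * w ^ k = u * w ^ k := by ring
    rw [this]
    exact mul_le_mul_of_nonneg_left h1 (le_trans hw hwu)
  have h3 : u ^ (k + 1) = u * u ^ k := by ring
  have h4 : w ^ (k + 1) = w * w ^ k := by ring
  simp only [Nat.add_sub_cancel]
  rw [h3, h4]
  linarith

/-- The diameter estimate. -/
private theorem lossyg_diam (d E B H : ℕ) (hd : 1 ≤ d) (hE : 2 ≤ E) (hB : 1 ≤ B) (hH : 0 < H)
    (dl : ℝ) (hdl : 0 ≤ dl) (u w v : ℕ) (hu : u ≤ B) (hw' : B < E * w)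
    (h1 : dl * |(u : ℝ) ^ d - (v : ℝ) ^ d| ≤ 1 / (4 * H))
    (h2 : dl * |(w : ℝ) ^ d - (v : ℝ) ^ d| ≤ 1 / (4 * H)) :
    (u : ℝ) - w ≤ ((E : ℝ)) ^ d * (1 / max 1 ((H : ℝ) * (B : ℝ) ^ d * dl)) * B := by
  have hE' : (2 : ℝ) ≤ E := by exact_mod_cast hE
  have hB' : (1 : ℝ) ≤ B := by exact_mod_cast hB
  have hH' : (0 : ℝ) < H := by exact_mod_cast hH
  have hu' : (u : ℝ) ≤ B := by exact_mod_cast hu
  have hw0 : (0 : ℝ) ≤ w := Nat.cast_nonneg w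
  have h4E : (1 : ℝ) ≤ (E : ℝ) := by linarith
  have hmax : (0 : ℝ) < max 1 ((H : ℝ) * (B : ℝ) ^ d * dl) := lt_of_lt_of_le one_pos (le_max_left _ _)
  have hpow : (1 : ℝ) ≤ ((E : ℝ)) ^ d := one_le_pow₀ h4E
  by_cases huw : (u : ℝ) ≤ w
  · have : (0 : ℝ) ≤ ((E : ℝ)) ^ d * (1 / max 1 ((H : ℝ) * (B : ℝ) ^ d * dl)) * B := by
      positivity
    linarith
  push Not at huw
  rcases le_total ((H : ℝ) * (B : ℝ) ^ d * dl) 1 with hc | hc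
  · rw [max_eq_left hc]
    have : (1 : ℝ) * B ≤ ((E : ℝ)) ^ d * B := mul_le_mul_of_nonneg_right hpow (by linarith)
    rw [div_one, mul_one]
    linarith
  · rw [max_eq_right hc]
    have hpos : (0 : ℝ) < (H : ℝ) * (B : ℝ) ^ d * dl := lt_of_lt_of_le one_pos hc
    have hdlpos : 0 < dl := by
      rcases hdl.eq_or_lt with h | h
      · rw [← h] at hpos; simp at hpos
      · exact h
    have e1 : (u : ℝ) ^ d - (w : ℝ) ^ d ≤
        |(u : ℝ) ^ d - (v : ℝ) ^ d| + |(w : ℝ) ^ d - (v : ℝ) ^ d| := by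
      have a1 := le_abs_self ((u : ℝ) ^ d - (v : ℝ) ^ d)
      have a2 := neg_abs_le ((w : ℝ) ^ d - (v : ℝ) ^ d)
      linarith
    have e2 : dl * ((u : ℝ) ^ d - (w : ℝ) ^ d) ≤ 1 / (2 * H) := by
      calc dl * ((u : ℝ) ^ d - (w : ℝ) ^ d)
          ≤ dl * (|(u : ℝ) ^ d - (v : ℝ) ^ d| + |(w : ℝ) ^ d - (v : ℝ) ^ d|) :=
            mul_le_mul_of_nonneg_left e1 hdl
        _ = dl * |(u : ℝ) ^ d - (v : ℝ) ^ d| + dl * |(w : ℝ) ^ d - (v : ℝ) ^ d| := by ring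
        _ ≤ 1 / (4 * H) + 1 / (4 * H) := add_le_add h1 h2
        _ = 1 / (2 * H) := by field_simp; norm_num
    have e3 := lossyg_pow d hd (u : ℝ) (w : ℝ) hw0 huw.le
    have e4 : dl * (((u : ℝ) - w) * (w : ℝ) ^ (d - 1)) ≤ 1 / (2 * H) :=
      le_trans (mul_le_mul_of_nonneg_left e3 hdl) e2
    have hBw : (B : ℝ) ≤ (E : ℝ) * w := by exact_mod_cast hw'.le
    have e5 : (B : ℝ) ^ (d - 1) ≤ ((E : ℝ)) ^ (d - 1) * (w : ℝ) ^ (d - 1) := by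
      rw [← mul_pow]
      exact pow_le_pow_left₀ (by linarith) hBw _
    have hsub : (0 : ℝ) < (u : ℝ) - w := by linarith
    have e6 : dl * (((u : ℝ) - w) * (B : ℝ) ^ (d - 1)) ≤ ((E : ℝ)) ^ (d - 1) * (1 / (2 * H)) := by
      calc dl * (((u : ℝ) - w) * (B : ℝ) ^ (d - 1))
          ≤ dl * (((u : ℝ) - w) * (((E : ℝ)) ^ (d - 1) * (w : ℝ) ^ (d - 1))) := by
            apply mul_le_mul_of_nonneg_left _ hdl
            exact mul_le_mul_of_nonneg_left e5 hsub.le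
        _ = ((E : ℝ)) ^ (d - 1) * (dl * (((u : ℝ) - w) * (w : ℝ) ^ (d - 1))) := by ring
        _ ≤ ((E : ℝ)) ^ (d - 1) * (1 / (2 * H)) :=
            mul_le_mul_of_nonneg_left e4 (by positivity)
    have e7 : ((E : ℝ)) ^ (d - 1) * (1 / (2 * H)) ≤ ((E : ℝ)) ^ d * (1 / H) := by
      apply mul_le_mul
      · exact pow_le_pow_right₀ h4E (Nat.sub_le d 1)
      · apply one_div_le_one_div_of_le hH'
        linarith
      · positivity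
      · positivity
    have e8 : dl * (((u : ℝ) - w) * (B : ℝ) ^ (d - 1)) ≤ ((E : ℝ)) ^ d * (1 / H) := le_trans e6 e7
    have hBd : (B : ℝ) ^ d = (B : ℝ) ^ (d - 1) * B := by
      rw [← pow_succ]; congr 1; omega
    have e9 : ((u : ℝ) - w) * ((H : ℝ) * (B : ℝ) ^ d * dl) ≤ ((E : ℝ)) ^ d * B := by
      calc ((u : ℝ) - w) * ((H : ℝ) * (B : ℝ) ^ d * dl)
          = (dl * (((u : ℝ) - w) * (B : ℝ) ^ (d - 1))) * (H * B) := by rw [hBd]; ring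
        _ ≤ (((E : ℝ)) ^ d * (1 / H)) * (H * B) :=
            mul_le_mul_of_nonneg_right e8 (by positivity)
        _ = ((E : ℝ)) ^ d * B := by field_simp
    have e10 : ((E : ℝ)) ^ d * (1 / ((H : ℝ) * (B : ℝ) ^ d * dl)) * B =
        (((E : ℝ)) ^ d * B) / ((H : ℝ) * (B : ℝ) ^ d * dl) := by ring
    rw [e10, le_div_iff₀ hpos]
    exact e9

theorem lossy_gen (d F : ℕ) (hd : 4 ≤ d) (hF : 2 ≤ F) : ∃ C : ℝ, 1 ≤ C ∧
    ∀ (P : ℕ) [NeZero P] (n H B r q c : ℕ) (b : ZMod P) (X : Finset ℕ),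
    0 < n → n ≤ P → 4 * n * H ≤ P → (P : ℝ) / n ≤ 8 * H → 1 ≤ B → 1 ≤ q → q ≤ H →
    Nat.Coprime c q →
    |(b.val : ℝ) / P - (c : ℝ) / q| ≤ 1 / ((q : ℝ) * ((4 * B ^ d : ℕ) + 1)) →
    (∀ k, k ∣ q → rho d k ≤ r) → 1 + Real.log B ≤ r →
    (∀ x ∈ X, 1 ≤ x ∧ x ≤ B ∧ B < F * x) →
    FF P n d X b b ≤ C * H * (r : ℝ) ^ 2 * (B + (B : ℝ) ^ 2 *
      (kap d q / max 1 ((H : ℝ) * (B : ℝ) ^ d * |(b.val : ℝ) / P - (c : ℝ) / q|))) := by
  have hF' : (2 : ℝ) ≤ F := by exact_mod_cast hF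
  have h4E : (1 : ℝ) ≤ (F : ℝ) := by linarith
  have hpow : (1 : ℝ) ≤ (F : ℝ) ^ d := one_le_pow₀ h4E
  refine ⟨16 * (F : ℝ) ^ d, by linarith, ?_⟩
  intro P _ n H B r q c b X hn0 hnP hnH hPn hB1 hq1 hqH hcop happ hrho hlog hX
  have hH0 : 0 < H := lt_of_lt_of_le hq1 hqH
  set dl : ℝ := |(b.val : ℝ) / P - (c : ℝ) / q| with hdl
  have hdl0 : 0 ≤ dl := abs_nonneg _
  have hmaxpos : (0 : ℝ) < max 1 ((H : ℝ) * (B : ℝ) ^ d * dl) :=
    lt_of_lt_of_le one_pos (le_max_left _ _)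
  set lam : ℝ := 1 / max 1 ((H : ℝ) * (B : ℝ) ^ d * dl) with hlam
  have hlam0 : 0 ≤ lam := by positivity
  set G := ((X ×ˢ X).filter fun z : ℕ × ℕ =>
    wh P n (b * (z.1 : ZMod P) ^ d - b * (z.2 : ZMod P) ^ d) ≠ 0) with hG
  -- step 1
  have s1 : FF P n d X b b ≤ (P : ℝ) / n * G.card := by
    unfold FF FZ
    rw [← Finset.sum_filter_ne_zero]
    have := Finset.sum_le_card_nsmul G
      (fun z : ℕ × ℕ => wh P n (b * (z.1 : ZMod P) ^ d - b * (z.2 : ZMod P) ^ d))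
      ((P : ℝ) / n) (fun z _ => wh_le n hn0 hnP _)
    rw [nsmul_eq_mul] at this
    rw [mul_comm]
    exact this
  -- step 2
  set J : ℕ → Set ℕ := fun v => {u | u ≤ B ∧ B < F * u ∧
    dl * |(u : ℝ) ^ d - (v : ℝ) ^ d| ≤ 1 / (4 * H)} with hJ
  have s2 := cnt d q 1 B (by omega) hq1 hB1 (Nat.coprime_one_left q) 1 (Nat.coprime_one_left q)
    ((F : ℝ) ^ d * lam) (r : ℝ)
    (mul_nonneg (by positivity) hlam0) J
    (by
      intro v u hu w hw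
      obtain ⟨hu1, hu2, hu3⟩ := hu
      obtain ⟨hw1, hw2, hw3⟩ := hw
      exact lossyg_diam d F B H (by omega) hF hB1 hH0 dl hdl0 u w v
        hu1 hw2 hu3 hw3)
    (by
      intro k hk
      exact_mod_cast hrho k hk)
  have s3 : (G.card : ℝ) ≤ (Set.ncard {uv : ℕ × ℕ | 1 ≤ uv.1 ∧ uv.1 ≤ B ∧ 1 ≤ uv.2 ∧ uv.2 ≤ B ∧
      (q : ℤ) ∣ ((1 : ℕ) : ℤ) * (uv.1 : ℤ) ^ d - (1 : ℕ) * (uv.2 : ℤ) ^ d ∧ uv.1 ∈ J uv.2} : ℝ) := by
    rw [← Set.ncard_coe_finset]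
    apply Nat.cast_le.mpr
    apply Set.ncard_le_ncard
    · intro z hz
      have hz' : z ∈ G := by exact_mod_cast hz
      rw [hG, Finset.mem_filter, Finset.mem_product] at hz'
      obtain ⟨⟨hx, hy⟩, hne⟩ := hz'
      obtain ⟨hx1, hx2, hx3⟩ := hX z.1 hx
      obtain ⟨hy1, hy2, hy3⟩ := hX z.2 hy
      have hr := rigid_gen n d H B q c z.1 z.2 b hB1 hq1 hqH hcop happ hnH hx2 hy2 hne
      refine ⟨hx1, hx2, hy1, hy2, ?_, hx2, hx3, hr.2⟩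
      have := hr.1
      simpa using this
    · apply Set.Finite.subset (((Finset.Icc 1 B) ×ˢ (Finset.Icc 1 B)).finite_toSet)
      rintro ⟨x, y⟩ ⟨h1, h2, h3, h4, -⟩
      simp only [Finset.coe_product, Finset.coe_Icc, Set.mem_prod, Set.mem_Icc]
      exact ⟨⟨h1, h2⟩, ⟨h3, h4⟩⟩
  have hBr : (1 : ℝ) ≤ B := by exact_mod_cast hB1
  have hlogB : 0 ≤ Real.log (B : ℝ) := Real.log_nonneg hBr
  have hR1 : (1 : ℝ) ≤ r := by linarith
  have hHr : (0 : ℝ) < H := by exact_mod_cast hH0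
  have hkap : 0 ≤ kap d q := by
    unfold kap
    positivity
  have hV : 0 ≤ kap d q / max 1 ((H : ℝ) * (B : ℝ) ^ d * dl) := by positivity
  have s4 : (r : ℝ) * (2 * ((F : ℝ) ^ d * lam) * (B : ℝ) ^ 2 * kap d q +
      B * (1 + Real.log (B : ℝ))) ≤
      (r : ℝ) ^ 2 * (2 * (F : ℝ) ^ d) * (B + (B : ℝ) ^ 2 *
        (kap d q / max 1 ((H : ℝ) * (B : ℝ) ^ d * dl))) := by
    have e1 : 2 * ((F : ℝ) ^ d * lam) * (B : ℝ) ^ 2 * kap d q =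
        2 * (F : ℝ) ^ d * ((B : ℝ) ^ 2 * (kap d q / max 1 ((H : ℝ) * (B : ℝ) ^ d * dl))) := by
      rw [hlam]
      ring
    have e2 : (B : ℝ) * (1 + Real.log (B : ℝ)) ≤ B * r :=
      mul_le_mul_of_nonneg_left hlog (by linarith)
    rw [e1]
    set Y : ℝ := (B : ℝ) ^ 2 * (kap d q / max 1 ((H : ℝ) * (B : ℝ) ^ d * dl)) with hY
    have hY0 : 0 ≤ Y := by positivity
    have e3 : 2 * (F : ℝ) ^ d * Y ≤ r * (2 * (F : ℝ) ^ d * Y) := by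
      have : 0 ≤ 2 * (F : ℝ) ^ d * Y := by positivity
      nlinarith
    have e4 : (B : ℝ) * r ≤ r * (2 * (F : ℝ) ^ d * B) := by
      have : (B : ℝ) * r ≤ (2 * (F : ℝ) ^ d) * (B * r) := by
        have h0 : (0 : ℝ) ≤ B * r := by positivity
        nlinarith
      linarith
    calc (r : ℝ) * (2 * (F : ℝ) ^ d * Y + B * (1 + Real.log (B : ℝ)))
        ≤ (r : ℝ) * (r * (2 * (F : ℝ) ^ d * Y) + r * (2 * (F : ℝ) ^ d * B)) := by
          apply mul_le_mul_of_nonneg_left _ (by linarith)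
          linarith
      _ = (r : ℝ) ^ 2 * (2 * (F : ℝ) ^ d) * (B + Y) := by ring
  calc FF P n d X b b ≤ (P : ℝ) / n * G.card := s1
    _ ≤ 8 * H * G.card := mul_le_mul_of_nonneg_right hPn (Nat.cast_nonneg _)
    _ ≤ 8 * H * ((r : ℝ) ^ 2 * (2 * (F : ℝ) ^ d) * (B + (B : ℝ) ^ 2 *
        (kap d q / max 1 ((H : ℝ) * (B : ℝ) ^ d * dl)))) := by
        apply mul_le_mul_of_nonneg_left _ (by positivity)
        exact le_trans s3 (le_trans s2 s4)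
    _ = 16 * (F : ℝ) ^ d * H * (r : ℝ) ^ 2 * (B + (B : ℝ) ^ 2 *
        (kap d q / max 1 ((H : ℝ) * (B : ℝ) ^ d * dl))) := by ring

end Pool.Agent.Lib.MP_e426f4_ag.DH
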