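import Pool.Agent.Lib.MP_e426f4_ag.DH.FactsX

/-!
# MavgA: lower bound of `Mavg` by a sum over `λ ∈ S.LM`

Adapt `DG/MavgA.lean` (`X i = {t λ}`, `λ ∈ S.LM i`, unique representation by `uniq`).
-/

set_option autoImplicit false

namespace Pool.Agent.Lib.MP_e426f4_ag.DH

open Finset
open Pool.Agent.Lib.MP_e426f4_ag.DG

theorem Mavg_ge {d g h s m v E : ℕ} (S : St d g h s m v E)
    (W J : ℕ) (hW : 1 ≤ W) (hWJ : W * J ≤ S.H * S.B ^ d) (a : Fin s → ℤ) (ha : ∀ i, |a i| ≤ (S.H : ℤ)) :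
    ∑ l ∈ Fintype.piFinset S.LM,
      (((Fintype.piFinset fun _ : Fin s => S.I).filter fun t : Fin s → ℕ =>
        (W : ℤ) ∣ ∑ i, a i * ((t i * l i : ℕ) : ℤ) ^ d ∧
          |∑ i, (a i : ℝ) * ((t i : ℝ) * (l i : ℝ)) ^ d| ≤ (W : ℝ) * J).card : ℝ) ≤
      (2 * J + 1) * Mavg S.P d W J S.X (fun i => ((a i : ℤ) : ZMod S.P)) := by
  classical
  have hJ : (0 : ℝ) < 2 * J + 1 := by positivity
  unfold Mavg
  rw [mul_div_cancel₀ _ hJ.ne']
  unfold NN
  rw [← Nat.cast_sum, ← Nat.cast_sum, Nat.cast_le, ← card_sigma, ← card_sigma]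
  refine card_le_card_of_injOn
    (fun z => (⟨(∑ i, a i * ((z.2 i * z.1 i : ℕ) : ℤ) ^ d) / W, fun i => z.2 i * z.1 i⟩ :
      (_ : ℤ) × (Fin s → ℕ))) ?_ ?_
  · rintro ⟨l, t⟩ hz
    rw [mem_coe, mem_sigma, Fintype.mem_piFinset, mem_filter, Fintype.mem_piFinset] at hz
    obtain ⟨hl, ht, hdvd, habs⟩ := hz
    dsimp only at hl ht hdvd habs
    obtain ⟨q, hq⟩ := hdvd
    have hW0 : (W : ℤ) ≠ 0 := by exact_mod_cast (by omega : W ≠ 0)
    rw [mem_coe, mem_sigma, mem_filter, Fintype.mem_piFinset]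
    dsimp only
    have hdiv : (∑ i, a i * ((t i * l i : ℕ) : ℤ) ^ d) / W = q := by
      rw [hq, Int.mul_ediv_cancel_left _ hW0]
    rw [hdiv]
    refine ⟨?_, ?_, ?_⟩
    · have h1 : (∑ i, (a i : ℝ) * ((t i : ℝ) * (l i : ℝ)) ^ d) = (W : ℝ) * q := by
        have := congrArg (Int.cast : ℤ → ℝ) hq
        push_cast at this
        exact this
      rw [h1, abs_mul, Nat.abs_cast] at habs
      have hWr : (0 : ℝ) < W := by exact_mod_cast (by omega : 0 < W)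
      have h2 : |(q : ℝ)| ≤ J := le_of_mul_le_mul_left habs hWr
      have h3 : |q| ≤ (J : ℤ) := by exact_mod_cast h2
      rw [mem_Icc]
      exact abs_le.1 h3
    · intro i
      exact mem_image.2 ⟨(t i, l i), mem_product.2 ⟨ht i, hl i⟩, rfl⟩
    · have := congrArg (Int.cast : ℤ → ZMod S.P) hq
      push_cast at this ⊢
      exact this
  · rintro ⟨l, t⟩ hz ⟨l', t'⟩ hz' heq
    rw [mem_coe, mem_sigma, Fintype.mem_piFinset, mem_filter, Fintype.mem_piFinset] at hz hz'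
    obtain ⟨hl, ht, -, -⟩ := hz
    obtain ⟨hl', ht', -, -⟩ := hz'
    dsimp only at hl ht hl' ht' heq
    rw [Sigma.mk.injEq] at heq
    have h2 := eq_of_heq heq.2
    have key : ∀ i, t i = t' i ∧ l i = l' i := by
      intro i
      have h3 : t i * l i = t' i * l' i := congrFun h2 i
      obtain ⟨q1, hq1, l1, hl1, e1⟩ := (S.LM_mem i _).1 (hl i)
      obtain ⟨q2, hq2, l2, hl2, e2⟩ := (S.LM_mem i _).1 (hl' i)
      rw [e1, e2] at h3
      obtain ⟨f1, f2, f3⟩ := S.uniq (ht i) hq1 hl1 (ht' i) hq2 hl2 h3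
      exact ⟨f1, by rw [e1, e2, f2, f3]⟩
    have e1 : l = l' := funext fun i => (key i).2
    have e2 : t = t' := funext fun i => (key i).1
    subst e1 e2
    rfl

end Pool.Agent.Lib.MP_e426f4_ag.DH
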