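import Pool.Agent.Lib.MP_e426f4_ag.DH.FactsX

/-!
# NPCount: type C, not all directions parallel

`z_j = (t_j y_j, t_j' y_j)`, `y_j = a_j l_j` (`ZC_mem`), `w_j = (t_j^d, t_j'^d)`.  `z_i, z_j` parallel iff `t_i t_j' = t_i' t_j` iff `det(w_i,w_j) = 0`.
Let `z_i, z_j` be non-parallel and `f` a third index.  CLAIM: a solution `a` is determined by its coordinates outside `{i,j,f}`: let `δ` be the difference of two solutions agreeing
outside, `|δ| < 2H`.  If `δ_f = 0` then `δ_i = δ_j = 0` (non-parallel).  Otherwise `w_f` is non-parallel to `w_i` or to `w_j`, say to `w_i` (symmetric): eliminating `w_i`: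
`δ_j y_j^d det(w_j,w_i) + δ_f y_f^d det(w_f,w_i) = 0`; `y_j^d` is coprime to `y_f^d` (disjoint prime sets) so it divides `δ_f det(w_f,w_i)`, which is non-zero and of absolute value
`< 2H T^(2d) ≤ (ML)^d < y_j^d` (`H_small`): contradiction.  So for each `z` at most `(2H)^(c-3)` solutions; `|ZC i| ≤ T² M L` (`(t,t',a,l)`), `ML ≤ B`.
-/

set_option autoImplicit false

namespace Pool.Agent.Lib.MP_e426f4_ag.DH

open Finset
open Pool.Agent.Lib.MP_e426f4_ag.DG

/-- all pairs are proportional -/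
def Par {c : ℕ} (z : Fin c → ℕ × ℕ) : Prop := ∀ i j, (z i).1 * (z j).2 = (z i).2 * (z j).1

namespace St

variable {d g h s m v E : ℕ} (S : St d g h s m v E)

private theorem NPCount_cop {i j : Fin s} (hij : i ≠ j) {q l q' l' : ℕ} (hq : q ∈ S.QS i)
    (hl : l ∈ S.PS i) (hq' : q' ∈ S.QS j) (hl' : l' ∈ S.PS j) : Nat.Coprime (q * l) (q' * l') := by
  have hT := S.T_pos
  apply Nat.Coprime.mul_left
  · rw [Nat.Prime.coprime_iff_not_dvd (S.hQS i q hq).1]
    intro hd
    have h1 : q = q' := S.q_dvd (t' := 1) hq ⟨le_refl 1, hT⟩ hq' hl' (by rw [one_mul]; exact hd)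
    subst h1
    exact hij (S.QS_idx hq hq')
  · rw [Nat.Prime.coprime_iff_not_dvd (S.hPS i l hl).1]
    intro hd
    have h1 : l = l' := S.l_dvd (t' := 1) hl ⟨le_refl 1, hT⟩ hq' hl' (by rw [one_mul]; exact hd)
    subst h1
    exact hij (S.PS_idx hl hl')

private theorem NPCount_ZC_card (i : Fin s) : ((S.ZC i).card : ℝ) ≤ (S.T : ℝ) ^ 2 * S.B := by
  classical
  have h1 : S.ZC i ⊆ (((S.I ×ˢ S.I) ×ˢ (S.QS i ×ˢ S.PS i)).image
      fun z => (z.1.1 * (z.2.1 * z.2.2), z.1.2 * (z.2.1 * z.2.2))) := by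
    intro z hz
    obtain ⟨t, q, l, t', ht, hq, hl, ht', rfl⟩ := (S.ZC_mem i z).1 hz
    rw [mem_image]
    exact ⟨((t, t'), (q, l)), by
      simp only [mem_product]; exact ⟨⟨ht, ht'⟩, hq, hl⟩, rfl⟩
  have h2 := (card_le_card h1).trans card_image_le
  rw [card_product, card_product, card_product] at h2
  have h3 : S.I.card * S.I.card * ((S.QS i).card * (S.PS i).card) ≤
      S.T * S.T * (S.M * S.L) :=
    Nat.mul_le_mul (Nat.mul_le_mul S.I_card_le S.I_card_le)
      (Nat.mul_le_mul (S.QS_card_le i) (S.PS_card_le i))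
  have h4 : S.M * S.L ≤ S.B := by
    rw [S.B_eq]
    have hT := S.T_pos
    calc S.M * S.L ≤ S.M * S.L * S.T := Nat.le_mul_of_pos_right _ hT
      _ ≤ 16 * (S.M * S.L * S.T) := Nat.le_mul_of_pos_left _ (by norm_num)
  have h5 : (S.ZC i).card ≤ S.T ^ 2 * S.B := by
    calc (S.ZC i).card ≤ S.T * S.T * (S.M * S.L) := h2.trans h3
      _ ≤ S.T * S.T * S.B := Nat.mul_le_mul_left _ h4
      _ = S.T ^ 2 * S.B := by ring
  exact_mod_cast h5

end St

private theorem NPCount_elim {a1 a2 b1 b2 c1 c2 x y z A B C : ℤ}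
    (h1 : x * (A * a1) + y * (B * b1) + z * (C * c1) = 0)
    (h2 : x * (A * a2) + y * (B * b2) + z * (C * c2) = 0) (hcop : IsCoprime B C)
    (hdet : c1 * a2 - c2 * a1 ≠ 0) (hz : z ≠ 0)
    (hb : |z * (c1 * a2 - c2 * a1)| < B) : False := by
  have h3 : y * B * (b1 * a2 - b2 * a1) + z * C * (c1 * a2 - c2 * a1) = 0 := by
    linear_combination a2 * h1 - a1 * h2
  have h4 : B ∣ C * (z * (c1 * a2 - c2 * a1)) :=
    ⟨-(y * (b1 * a2 - b2 * a1)), by linear_combination h3⟩
  have h5 := hcop.dvd_of_dvd_mul_left h4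
  have h6 : z * (c1 * a2 - c2 * a1) ≠ 0 := mul_ne_zero hz hdet
  have h7 := Int.le_of_dvd (abs_pos.2 h6) ((dvd_abs _ _).2 h5)
  omega

/-- three vectors, two of them non-parallel: no small relation -/
private theorem NPCount_three {a1 a2 b1 b2 c1 c2 x y z A B C H : ℤ} {W : ℤ}
    (ha : 0 < a1 ∧ a1 ≤ W) (ha' : 0 < a2 ∧ a2 ≤ W) (hb : 0 < b1 ∧ b1 ≤ W) (hb' : 0 < b2 ∧ b2 ≤ W)
    (hc : 0 < c1 ∧ c1 ≤ W) (hc' : 0 < c2 ∧ c2 ≤ W)
    (h1 : x * (A * a1) + y * (B * b1) + z * (C * c1) = 0)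
    (h2 : x * (A * a2) + y * (B * b2) + z * (C * c2) = 0)
    (hA : 2 * H * (W * W) < A) (hB : 2 * H * (W * W) < B) (hA0 : 0 < A) (hB0 : 0 < B)
    (hAC : IsCoprime A C) (hBC : IsCoprime B C)
    (hdet : a1 * b2 - a2 * b1 ≠ 0) (hz : |z| ≤ 2 * H) : x = 0 ∧ y = 0 ∧ z = 0 := by
  have hz0 : z = 0 := by
    by_contra hz0
    have hH : 0 ≤ 2 * H := (abs_nonneg z).trans hz
    have hbd : ∀ u1 u2 : ℤ, (0 < u1 ∧ u1 ≤ W) → (0 < u2 ∧ u2 ≤ W) →
        |z * (c1 * u2 - c2 * u1)| ≤ 2 * H * (W * W) := by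
      intro u1 u2 hu1 hu2
      rw [abs_mul]
      refine mul_le_mul hz ?_ (abs_nonneg _) hH
      have e1 : 0 < c1 * u2 := mul_pos hc.1 hu2.1
      have e2 : 0 < c2 * u1 := mul_pos hc'.1 hu1.1
      have e3 : c1 * u2 ≤ W * W := mul_le_mul hc.2 hu2.2 hu2.1.le (by linarith [hc.1, hc.2])
      have e4 : c2 * u1 ≤ W * W := mul_le_mul hc'.2 hu1.2 hu1.1.le (by linarith [hc.1, hc.2])
      rw [abs_le]
      constructor <;> linarith
    by_cases hca : c1 * a2 - c2 * a1 = 0
    · have hcb : c1 * b2 - c2 * b1 ≠ 0 := by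
        intro hcb
        apply hdet
        have h5 : c1 * (a1 * b2 - a2 * b1) = 0 := by linear_combination a1 * hcb - b1 * hca
        rcases mul_eq_zero.1 h5 with h6 | h6
        · exact absurd h6 hc.1.ne'
        · exact h6
      refine NPCount_elim (a1 := b1) (a2 := b2) (b1 := a1) (b2 := a2) (c1 := c1) (c2 := c2)
        (x := y) (y := x) (z := z) (A := B) (B := A) (C := C) ?_ ?_ hAC hcb hz0
        (lt_of_le_of_lt (hbd b1 b2 hb hb') hA)
      · linear_combination h1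
      · linear_combination h2
    · exact NPCount_elim h1 h2 hBC hca hz0 (lt_of_le_of_lt (hbd a1 a2 ha ha') hB)
  subst hz0
  have hx : x = 0 := by
    have h3 : x * A * (a1 * b2 - a2 * b1) = 0 := by linear_combination b2 * h1 - b1 * h2
    rcases mul_eq_zero.1 h3 with h4 | h4
    · rcases mul_eq_zero.1 h4 with h5 | h5
      · exact h5
      · exact absurd h5 hA0.ne'
    · exact absurd h4 hdet
  subst hx
  refine ⟨rfl, ?_, rfl⟩
  have h3 : y * (B * b1) = 0 := by linear_combination h1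
  rcases mul_eq_zero.1 h3 with h4 | h4
  · exact h4
  · exact absurd h4 (mul_pos hB0 hb.1).ne'

private theorem NPCount_sum3 {c : ℕ} {i j k : Fin c} (hij : i ≠ j) (hik : i ≠ k) (hjk : j ≠ k)
    (w : Fin c → ℤ) (hw : ∀ x, x ≠ i → x ≠ j → x ≠ k → w x = 0) :
    ∑ x, w x = w i + w j + w k := by
  rw [← sum_subset (subset_univ ({i, j, k} : Finset (Fin c)))]
  · rw [sum_insert, sum_insert, sum_singleton]
    · ring
    · simp [hjk]
    · simp [hij, hik]
  · intro x _ hx
    simp only [mem_insert, mem_singleton, not_or] at hx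
    exact hw x hx.1 hx.2.1 hx.2.2

open Classical in
theorem np_count {d g h s m v E : ℕ} (S : St d g h s m v E) (c : ℕ) (hc : 3 ≤ c)
    (f : Fin c → Fin s) (hf : Function.Injective f) :
    ∑ z ∈ (Fintype.piFinset fun j => S.ZC (f j)).filter (fun z => ¬ Par z),
      ((((Fintype.piFinset fun _ : Fin c => Ioo (-(S.H : ℤ)) S.H)).filter
      fun a : Fin c → ℤ => ∑ j, a j * ((z j).1 : ℤ) ^ d = 0 ∧
        ∑ j, a j * ((z j).2 : ℤ) ^ d = 0).card : ℝ) ≤
      ((S.T : ℝ) ^ 2 * S.B) ^ c * (2 * (S.H : ℝ)) ^ (c - 3) := by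
  have hd : 1 ≤ d := (S.nums).1
  have hH1 : (1 : ℝ) ≤ S.H := by
    have h1 := S.BBH
    have h2 := S.BB_pos
    have h3 : 1 ≤ S.BB ^ d := Nat.one_le_pow _ _ h2
    have h4 : 1 ≤ S.H := by omega
    exact_mod_cast h4
  have hH1n : 1 ≤ S.H := by exact_mod_cast hH1
  have hTB : (0 : ℝ) ≤ (S.T : ℝ) ^ 2 * S.B := by positivity
  -- the count for one `z`
  have key : ∀ z ∈ (Fintype.piFinset fun j => S.ZC (f j)).filter (fun z => ¬ Par z),
      (((((Fintype.piFinset fun _ : Fin c => Ioo (-(S.H : ℤ)) S.H)).filter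
      fun a : Fin c → ℤ => ∑ j, a j * ((z j).1 : ℤ) ^ d = 0 ∧
        ∑ j, a j * ((z j).2 : ℤ) ^ d = 0).card : ℕ) : ℝ) ≤ (2 * (S.H : ℝ)) ^ (c - 3) := by
    intro z hz
    rw [mem_filter, Fintype.mem_piFinset] at hz
    obtain ⟨hz1, hz2⟩ := hz
    unfold Par at hz2
    push Not at hz2
    obtain ⟨i, j, hpar⟩ := hz2
    have hij : i ≠ j := by
      rintro rfl
      exact hpar (Nat.mul_comm _ _)
    obtain ⟨k, hki, hkj⟩ : ∃ k : Fin c, k ≠ i ∧ k ≠ j := by
      by_contra hcon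
      push Not at hcon
      have h1 : (univ : Finset (Fin c)) ⊆ {i, j} := by
        intro k _
        by_cases hk : k = i
        · simp [hk]
        · simp [hcon k hk]
      have h2 := card_le_card h1
      rw [card_univ, Fintype.card_fin] at h2
      have h3 := card_le_two (a := i) (b := j)
      omega
    choose t q l t' ht hq hl ht' hzz using fun x => (S.ZC_mem (f x) (z x)).1 (hz1 x)
    have hinj : Set.InjOn (fun (a : Fin c → ℤ) (x : {x : Fin c // x ≠ i ∧ x ≠ j ∧ x ≠ k}) => a x.1)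
        ((((Fintype.piFinset fun _ : Fin c => Ioo (-(S.H : ℤ)) S.H)).filter
        fun a : Fin c → ℤ => ∑ j, a j * ((z j).1 : ℤ) ^ d = 0 ∧
        ∑ j, a j * ((z j).2 : ℤ) ^ d = 0 : Finset (Fin c → ℤ)) : Set (Fin c → ℤ)) := by
      intro a ha b hb hab
      rw [mem_coe, mem_filter, Fintype.mem_piFinset] at ha hb
      obtain ⟨ha0, ha1, ha2⟩ := ha
      obtain ⟨hb0, hb1, hb2⟩ := hb
      have hout : ∀ x, x ≠ i → x ≠ j → x ≠ k → a x = b x := fun x h1 h2 h3 =>
        congrFun hab ⟨x, h1, h2, h3⟩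
      have e1 : ∑ x, (a x - b x) * ((z x).1 : ℤ) ^ d = 0 := by
        simp only [sub_mul, sum_sub_distrib]
        rw [ha1, hb1, sub_zero]
      have e2 : ∑ x, (a x - b x) * ((z x).2 : ℤ) ^ d = 0 := by
        simp only [sub_mul, sum_sub_distrib]
        rw [ha2, hb2, sub_zero]
      rw [NPCount_sum3 hij hki.symm hkj.symm _ (fun x h1 h2 h3 => by
        rw [hout x h1 h2 h3, sub_self, zero_mul])] at e1
      rw [NPCount_sum3 hij hki.symm hkj.symm _ (fun x h1 h2 h3 => by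
        rw [hout x h1 h2 h3, sub_self, zero_mul])] at e2
      have hz1' : ∀ x, ((z x).1 : ℤ) ^ d = ((q x * l x : ℕ) : ℤ) ^ d * ((t x : ℤ)) ^ d := by
        intro x
        rw [hzz x]
        push_cast
        ring
      have hz2' : ∀ x, ((z x).2 : ℤ) ^ d = ((q x * l x : ℕ) : ℤ) ^ d * ((t' x : ℤ)) ^ d := by
        intro x
        rw [hzz x]
        push_cast
        ring
      rw [hz1', hz1', hz1'] at e1
      rw [hz2', hz2', hz2'] at e2
      have hW : ∀ u ∈ S.I, 0 < ((u : ℤ)) ^ d ∧ ((u : ℤ)) ^ d ≤ (S.T : ℤ) ^ d := by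
        intro u hu
        obtain ⟨h1, h2, -⟩ := (S.I_mem u).1 hu
        have h3 : (0 : ℤ) < u := by exact_mod_cast h1
        refine ⟨pow_pos h3 d, pow_le_pow_left₀ h3.le (by exact_mod_cast h2) d⟩
      have hML : ∀ x, 2 * (S.H : ℤ) * ((S.T : ℤ) ^ d * (S.T : ℤ) ^ d) <
          ((q x * l x : ℕ) : ℤ) ^ d := by
        intro x
        have h1 := (S.LM_bounds (f x) (q x * l x)
          ((S.LM_mem _ _).2 ⟨q x, hq x, l x, hl x, rfl⟩)).1
        have h2 : (S.M * S.L) ^ d < (q x * l x) ^ d := Nat.pow_lt_pow_left h1 (by omega)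
        have h3 : 2 * S.H * S.T ^ (2 * d) ≤ (S.M * S.L) ^ d := by
          have h3a := S.H_small
          have h3b : S.T ^ (2 * d) ≤ S.T ^ (6 * d) := Nat.pow_le_pow_right S.T_pos (by omega)
          have h3c : 2 * S.H * S.T ^ (2 * d) ≤ 2 * S.H * S.T ^ (6 * d) := Nat.mul_le_mul_left _ h3b
          omega
        have h4 : 2 * S.H * (S.T ^ d * S.T ^ d) < (q x * l x) ^ d := by
          rw [← pow_add, ← two_mul]
          omega
        exact_mod_cast h4
      have hpos : ∀ x, (0 : ℤ) < ((q x * l x : ℕ) : ℤ) ^ d := by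
        intro x
        have h0 : (0 : ℤ) ≤ 2 * (S.H : ℤ) * ((S.T : ℤ) ^ d * (S.T : ℤ) ^ d) := by positivity
        exact lt_of_le_of_lt h0 (hML x)
      have hcop : ∀ x y, x ≠ y → IsCoprime (((q x * l x : ℕ) : ℤ) ^ d) (((q y * l y : ℕ) : ℤ) ^ d) := by
        intro x y hxy
        apply IsCoprime.pow
        rw [Nat.isCoprime_iff_coprime]
        exact S.NPCount_cop (fun hh => hxy (hf hh)) (hq x) (hl x) (hq y) (hl y)
      have hdet : ((t i : ℤ)) ^ d * ((t' j : ℤ)) ^ d - ((t' i : ℤ)) ^ d * ((t j : ℤ)) ^ d ≠ 0 := by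
        intro h0
        apply hpar
        have h1 : (t i * t' j) ^ d = (t' i * t j) ^ d := by
          have h2 : ((t i * t' j : ℕ) : ℤ) ^ d = ((t' i * t j : ℕ) : ℤ) ^ d := by
            push_cast
            rw [mul_pow, mul_pow]
            linarith
          exact_mod_cast h2
        have h2 : t i * t' j = t' i * t j := Nat.pow_left_injective (by omega : d ≠ 0) h1
        rw [hzz i, hzz j]
        calc t i * (q i * l i) * (t' j * (q j * l j)) = (t i * t' j) * ((q i * l i) * (q j * l j)) := by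
              ring
          _ = (t' i * t j) * ((q i * l i) * (q j * l j)) := by rw [h2]
          _ = t' i * (q i * l i) * (t j * (q j * l j)) := by ring
      have hbz : |a k - b k| ≤ 2 * (S.H : ℤ) := by
        have h1 := mem_Ioo.1 (ha0 k)
        have h2 := mem_Ioo.1 (hb0 k)
        rw [abs_le]
        constructor <;> linarith [h1.1, h1.2, h2.1, h2.2]
      obtain ⟨r1, r2, r3⟩ := NPCount_three (hW _ (ht i)) (hW _ (ht' i)) (hW _ (ht j)) (hW _ (ht' j))
        (hW _ (ht k)) (hW _ (ht' k)) e1 e2 (hML i) (hML j) (hpos i) (hpos j)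
        (hcop i k hki.symm) (hcop j k hkj.symm) hdet hbz
      funext x
      by_cases hxi : x = i
      · rw [hxi]; linarith
      · by_cases hxj : x = j
        · rw [hxj]; linarith
        · by_cases hxk : x = k
          · rw [hxk]; linarith
          · exact hout x hxi hxj hxk
    have hmaps : Set.MapsTo (fun (a : Fin c → ℤ) (x : {x : Fin c // x ≠ i ∧ x ≠ j ∧ x ≠ k}) => a x.1)
        ((((Fintype.piFinset fun _ : Fin c => Ioo (-(S.H : ℤ)) S.H)).filter
        fun a : Fin c → ℤ => ∑ j, a j * ((z j).1 : ℤ) ^ d = 0 ∧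
        ∑ j, a j * ((z j).2 : ℤ) ^ d = 0 : Finset (Fin c → ℤ)) : Set (Fin c → ℤ))
        ((Fintype.piFinset fun _ : {x : Fin c // x ≠ i ∧ x ≠ j ∧ x ≠ k} =>
          Ioo (-(S.H : ℤ)) S.H : Finset _) : Set _) := by
      intro a ha
      rw [mem_coe, mem_filter, Fintype.mem_piFinset] at ha
      rw [mem_coe, Fintype.mem_piFinset]
      intro x
      exact ha.1 x.1
    have hle := card_le_card_of_injOn _ hmaps hinj
    rw [Fintype.card_piFinset, prod_const, card_univ, Int.card_Ioo] at hle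
    have hsub : Fintype.card {x : Fin c // x ≠ i ∧ x ≠ j ∧ x ≠ k} = c - 3 := by
      rw [Fintype.card_subtype]
      have h1 : (univ.filter fun x : Fin c => x ≠ i ∧ x ≠ j ∧ x ≠ k) = univ \ {i, j, k} := by
        ext x
        simp [not_or]
      rw [h1, card_univ_sdiff, Fintype.card_fin]
      congr 1
      rw [card_insert_of_notMem, card_insert_of_notMem, card_singleton]
      · simp [hkj.symm]
      · simp [hij, hki.symm]
    rw [hsub] at hle
    have hle2 : ((S.H : ℤ) - -(S.H : ℤ) - 1).toNat ≤ 2 * S.H := by omega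
    have hle3 := hle.trans (Nat.pow_le_pow_left hle2 (c - 3))
    calc _ ≤ (((2 * S.H) ^ (c - 3) : ℕ) : ℝ) := by exact_mod_cast hle3
      _ = _ := by push_cast; rfl
  refine (sum_le_sum key).trans ?_
  rw [sum_const, nsmul_eq_mul]
  refine mul_le_mul_of_nonneg_right ?_ (by positivity)
  have h1 : (((Fintype.piFinset fun j => S.ZC (f j)).filter (fun z => ¬ Par z)).card : ℝ) ≤
      ((Fintype.piFinset fun j => S.ZC (f j)).card : ℝ) := by
    exact_mod_cast card_filter_le _ _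
  refine h1.trans ?_
  rw [Fintype.card_piFinset]
  push_cast
  calc ∏ x : Fin c, ((S.ZC (f x)).card : ℝ) ≤ ∏ _x : Fin c, ((S.T : ℝ) ^ 2 * S.B) :=
        prod_le_prod (fun _ _ => by positivity) (fun x _ => S.NPCount_ZC_card (f x))
    _ = _ := by rw [prod_const, card_univ, Fintype.card_fin]

end Pool.Agent.Lib.MP_e426f4_ag.DH
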