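import Pool.Agent.Lib.MP_e426f4_ag.DH.Facts
import Pool.Agent.Lib.MP_e426f4_ag.DH.KapB

/-!
# NoMaj: for a HIGH frequency `b` the frequencies `b q^d` are minor at the small scale

`A.q b > H`, `M < q ≤ 4M`, `β = b q^d`, `q'' = A2.q β`, `δ'' = A2.dl β`.  Claim `BB kap(q'')/max(1, H BB^d|δ''|) ≤ 1`.
Suppose not.  Then `BB kap(q'') > 1`, hence `q''² ≤ (R BB)^d` (`kap_pow_le`), and `H BB^d |δ''| < BB kap(q'') ≤ BB R`
(`kap_le_r`; `q'' ≤ 4 BB^d ≤ B^(8d)` so `tau(q'') ≤ R`).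
`b.val q^d = β.val + j P` with a natural `j`, so `b.val/P = (c'' + j q'')/(q'' q^d) + δ''/q^d`.  Put `N = q'' q^d ≤ q'' (4M)^d`,
`C = c'' + j q''`, so `|b.val/P - C/N| = |δ''|/q^d`.
If `C/N = c/(A.q b)` (as fractions, `C * A.q b = c * N`) then `A.q b ∣ N` (coprimality of `c` and `A.q b`), so `A.q b ≤ N ≤ H`: contradiction
(`N² ≤ (R BB)^d (4M)^(2d) ≤ H²`).
Otherwise `1/(A.q b * N) ≤ |c/(A.q b) - C/N| ≤ 1/(A.q b (4B^d+1)) + |δ''|/q^d`, so
`1/N ≤ 1/(4B^d) + A.q b |δ''|/q^d`, `N ≤ 2 B^d` gives `1/(2N) ≤ A.q b |δ''|/q^d ≤ 4 B^d BB R/(H BB^d M^d) = 4·4^d BB R/H`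
(`B = 4 M BB`), i.e. `H ≤ 8·4^d BB R N ≤ 8·16^d BB R M^d q''`, so `H² ≤ (8·16^d BB R M^d)² (R BB)^d`.
In powers of `V` (`BB = 4V^h`, `M = V^(g+1)`, `H ≥ V^(dh)`; in fact `H ≥ B^h`): the right side is
`≤ 8²·16^(2d)·16·4^d·R^(d+2)·V^(2h+2d(g+1)+hd)` and `2h + 2d(g+1) + hd + 16 ≤ 2dh` (`d = g+1+h`, `h ≥ 2g+6`; with `h = 2g+6+r`
the difference is `8g+16+9r+3gr+r²`), while `V ≥ R^(100 d)` (`V_big`) and `R ≥ 2^(2d+10)`: contradiction.
-/

set_option autoImplicit false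

namespace Pool.Agent.Lib.MP_e426f4_ag.DH

open Finset
open Pool.Agent.Lib.MP_e426f4_ag.DG

/-- the main numerical inequality, in natural numbers -/
private theorem NoMaj_num {d g h s m v E : ℕ} (S : St d g h s m v E) :
    64 * 16 ^ d * S.BB ^ 2 * S.R ^ 2 * ((S.R * S.BB) ^ d * (4 * S.M) ^ (2 * d)) < S.H ^ 2 := by
  have hdg := S.hdg
  have hh1 := S.hh1
  have hR := S.hR
  obtain ⟨hd1, hd7, -, -, -, -, -, hhd, -⟩ := S.nums
  have hR1024 : 1024 ≤ S.R := by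
    have h2 : 2 ^ 10 ≤ 2 ^ (2 * d + 10) := Nat.pow_le_pow_right (by norm_num) (by omega)
    omega
  have hV := S.V_pos
  have hVR : S.R ^ (100 * d) ≤ S.V := by
    refine le_trans ?_ S.V_big
    exact Nat.le_mul_of_pos_left _ (Nat.pow_pos S.T_pos)
  have hH : S.V ^ (d * h) ≤ S.H := by
    have := S.H_ge
    exact_mod_cast this
  have hexp : 2 * h + h * d + 2 * d * (g + 1) + 1 ≤ d * h * 2 := by
    obtain ⟨r, rfl⟩ : ∃ r, h = 2 * g + 6 + r := ⟨h - (2 * g + 6), by omega⟩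
    subst hdg
    nlinarith [Nat.zero_le (g * g), Nat.zero_le (g * r), Nat.zero_le (r * r), Nat.zero_le g, Nat.zero_le r]
  have hRpos : 0 < S.R := by omega
  calc 64 * 16 ^ d * S.BB ^ 2 * S.R ^ 2 * ((S.R * S.BB) ^ d * (4 * S.M) ^ (2 * d))
      = 1024 ^ (d + 1) * S.R ^ (d + 2) * S.V ^ (2 * h + h * d + 2 * d * (g + 1)) := by
        rw [S.BB_eqV, S.M_eq]
        have e1 : (1024 : ℕ) ^ (d + 1) = 64 * 16 * (16 ^ d * 4 ^ d * 16 ^ d) := by
          rw [← mul_pow, ← mul_pow, pow_succ]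
          norm_num
          ring
        have e2 : (4 : ℕ) ^ (2 * d) = 16 ^ d := by
          rw [pow_mul]
          norm_num
        have e3 : (S.V ^ h) ^ 2 = S.V ^ (2 * h) := by rw [← pow_mul, Nat.mul_comm]
        have e4 : (S.V ^ h) ^ d = S.V ^ (h * d) := by rw [← pow_mul]
        have e5 : (S.V ^ (g + 1)) ^ (2 * d) = S.V ^ (2 * d * (g + 1)) := by
          rw [← pow_mul, Nat.mul_comm]
        rw [e1, mul_pow, mul_pow, mul_pow, mul_pow, e2, e3, e4, e5, pow_add S.V, pow_add S.V,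
          pow_add S.R]
        ring
    _ ≤ S.R ^ (d + 1) * S.R ^ (d + 2) * S.V ^ (2 * h + h * d + 2 * d * (g + 1)) := by
        apply Nat.mul_le_mul_right
        apply Nat.mul_le_mul_right
        exact Nat.pow_le_pow_left hR1024 _
    _ = S.R ^ (2 * d + 3) * S.V ^ (2 * h + h * d + 2 * d * (g + 1)) := by
        rw [← pow_add]
        congr 2
        ring
    _ < S.R ^ (100 * d) * S.V ^ (2 * h + h * d + 2 * d * (g + 1)) := by
        apply Nat.mul_lt_mul_of_pos_right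
        · exact Nat.pow_lt_pow_right (by omega) (by omega)
        · exact Nat.pow_pos hV
    _ ≤ S.V * S.V ^ (2 * h + h * d + 2 * d * (g + 1)) := Nat.mul_le_mul_right _ hVR
    _ = S.V ^ (2 * h + h * d + 2 * d * (g + 1) + 1) := by rw [pow_succ, Nat.mul_comm]
    _ ≤ S.V ^ (d * h * 2) := Nat.pow_le_pow_right hV hexp
    _ = (S.V ^ (d * h)) ^ 2 := by rw [← pow_mul]
    _ ≤ S.H ^ 2 := Nat.pow_le_pow_left hH 2

theorem no_major {d g h s m v E : ℕ} (S : St d g h s m v E) (A : Arc S.P (4 * S.B ^ d))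
    (A2 : Arc S.P (4 * S.BB ^ d)) (b : ZMod S.P) (hb : S.H < A.q b) (q : ℕ) (hq1 : S.M < q)
    (hq2 : q ≤ 4 * S.M) :
    (S.BB : ℝ) * (kap d (A2.q (b * (q : ZMod S.P) ^ d)) /
      max 1 ((S.H : ℝ) * (S.BB : ℝ) ^ d * |A2.dl (b * (q : ZMod S.P) ^ d)|)) ≤ 1 := by
  by_contra hcon
  rw [not_le] at hcon
  obtain ⟨hd1, hd7, -, -, -, -, -, hhd, -⟩ := S.nums
  have hnum := NoMaj_num S
  have hBBpos : 0 < S.BB := S.BB_pos
  have hBpos : 0 < S.B := S.B_pos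
  have hMpos : 0 < S.M := S.M_pos
  have hRpos : 0 < S.R := S.R_pos
  have hPpos : 0 < S.P := S.prime.pos
  have hHpos : 0 < S.H := S.n_facts.2.2.2.2.2.2
  have hqpos : 0 < q := lt_trans hMpos hq1
  -- the small arc
  generalize hβ : b * (q : ZMod S.P) ^ d = β at hcon
  set κ := kap d (A2.q β) with hκ
  have hmx : (0 : ℝ) < max 1 ((S.H : ℝ) * (S.BB : ℝ) ^ d * |A2.dl β|) :=
    lt_of_lt_of_le one_pos (le_max_left _ _)
  rw [← mul_div_assoc, lt_div_iff₀ hmx, one_mul, max_lt_iff] at hcon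
  obtain ⟨hc1, hc2⟩ := hcon
  have hq2pos := A2.qpos β
  have hq2le : A2.q β ≤ S.B ^ (8 * d) := by
    have h1 := A2.qle β
    have h2 := S.BBH
    have h3 := S.H_lt_Bd
    have h4 : S.B ^ d ≤ S.B ^ (8 * d) := Nat.pow_le_pow_right hBpos (by omega)
    omega
  have htau := S.tau_le _ hq2pos hq2le
  have hk1 : κ ≤ S.R := kap_le_r d _ _ (by omega) hq2pos htau
  have hk2 : κ ^ d * (A2.q β : ℝ) ^ 2 ≤ (S.R : ℝ) ^ d := kap_pow_le d _ _ (by omega) hq2pos htau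
  have hBBr : (0 : ℝ) < S.BB := by exact_mod_cast hBBpos
  have hRr : (0 : ℝ) < S.R := by exact_mod_cast hRpos
  have hHr : (0 : ℝ) < S.H := by exact_mod_cast hHpos
  have hMr : (0 : ℝ) < S.M := by exact_mod_cast hMpos
  have hPr : (0 : ℝ) < S.P := by exact_mod_cast hPpos
  have hqr : (0 : ℝ) < q := by exact_mod_cast hqpos
  have hq2r : (0 : ℝ) < A2.q β := by exact_mod_cast hq2pos
  -- `q'' ^ 2 ≤ (R BB) ^ d`
  have hqsq : (A2.q β) ^ 2 ≤ (S.R * S.BB) ^ d := by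
    have h1 : 1 ≤ ((S.BB : ℝ) * κ) ^ d := one_le_pow₀ hc1.le
    have h2 : ((A2.q β : ℝ)) ^ 2 ≤ ((S.R : ℝ) * S.BB) ^ d := by
      calc ((A2.q β : ℝ)) ^ 2 ≤ ((A2.q β : ℝ)) ^ 2 * ((S.BB : ℝ) * κ) ^ d :=
            le_mul_of_one_le_right (by positivity) h1
        _ = (S.BB : ℝ) ^ d * (κ ^ d * (A2.q β : ℝ) ^ 2) := by
            rw [mul_pow]; ring
        _ ≤ (S.BB : ℝ) ^ d * (S.R : ℝ) ^ d := by
            exact mul_le_mul_of_nonneg_left hk2 (by positivity)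
        _ = ((S.R : ℝ) * S.BB) ^ d := by rw [mul_pow]; ring
    exact_mod_cast h2
  -- `N = q'' q ^ d`
  obtain ⟨N, hN⟩ : ∃ N, N = A2.q β * q ^ d := ⟨_, rfl⟩
  have hNpos : 0 < N := by
    rw [hN]
    exact Nat.mul_pos hq2pos (Nat.pow_pos hqpos)
  have hNsq : N ^ 2 ≤ (S.R * S.BB) ^ d * (4 * S.M) ^ (2 * d) := by
    rw [hN, mul_pow]
    apply Nat.mul_le_mul hqsq
    rw [← pow_mul, Nat.mul_comm d 2]
    exact Nat.pow_le_pow_left hq2 _
  have hnum2 : 64 * 16 ^ d * S.BB ^ 2 * S.R ^ 2 * N ^ 2 < S.H ^ 2 :=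
    lt_of_le_of_lt (Nat.mul_le_mul_left _ hNsq) hnum
  have hnum3 : 8 * 4 ^ d * S.BB * S.R * N < S.H := by
    have e : 64 * 16 ^ d * S.BB ^ 2 * S.R ^ 2 * N ^ 2 = (8 * 4 ^ d * S.BB * S.R * N) ^ 2 := by
      have : (16 : ℕ) ^ d = (4 ^ d) ^ 2 := by
        rw [← pow_mul, Nat.mul_comm, pow_mul]
        norm_num
      rw [this]
      ring
    rw [e] at hnum2
    exact lt_of_pow_lt_pow_left₀ 2 (Nat.zero_le _) hnum2
  have hNH : N ≤ S.H := by
    have h1 : 1 ≤ 8 * 4 ^ d * S.BB * S.R := by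
      have : 0 < 8 * 4 ^ d * S.BB * S.R := by positivity
      omega
    have h2 : 1 * N ≤ 8 * 4 ^ d * S.BB * S.R * N := Nat.mul_le_mul_right _ h1
    omega
  -- the fraction `C / N`
  have hval : β.val = (b.val * q ^ d) % S.P := by
    have h1 : ((b.val * q ^ d : ℕ) : ZMod S.P) = β := by
      rw [← hβ]
      push_cast
      rw [ZMod.natCast_zmod_val]
    rw [← h1, ZMod.val_natCast]
  obtain ⟨j, hj⟩ : ∃ j, b.val * q ^ d = β.val + j * S.P := by
    refine ⟨(b.val * q ^ d) / S.P, ?_⟩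
    rw [hval]
    have := Nat.div_add_mod (b.val * q ^ d) S.P
    rw [Nat.mul_comm S.P] at this
    omega
  have hjr : (b.val : ℝ) * (q : ℝ) ^ d = β.val + j * S.P := by exact_mod_cast hj
  obtain ⟨C, hC⟩ : ∃ C, C = A2.c β + j * A2.q β := ⟨_, rfl⟩
  have hNr : (0 : ℝ) < N := by exact_mod_cast hNpos
  have hfrac : (b.val : ℝ) / S.P - (C : ℝ) / N = A2.dl β / (q : ℝ) ^ d := by
    unfold Arc.dl
    have e1 : (b.val : ℝ) / S.P = ((β.val : ℝ) / S.P + j) / (q : ℝ) ^ d := by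
      rw [div_add' _ _ _ hPr.ne', ← hjr]
      field_simp
    rw [e1, hN, hC]
    push_cast
    field_simp
    ring
  have hδ := A.approx b
  have hq0 := A.qpos b
  have hq0r : (0 : ℝ) < A.q b := by exact_mod_cast hq0
  by_cases hCN : C * A.q b = A.c b * N
  · -- equal fractions
    have h1 : A.q b ∣ A.c b * N := ⟨C, by rw [← hCN, Nat.mul_comm]⟩
    have h2 : A.q b ∣ N := (Nat.Coprime.symm (A.cop b)).dvd_of_dvd_mul_left h1
    have h3 := Nat.le_of_dvd hNpos h2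
    omega
  · -- different fractions
    have h1 : (1 : ℝ) ≤ |(C : ℝ) * A.q b - A.c b * N| := by
      have h2 : ((C * A.q b : ℕ) : ℤ) - ((A.c b * N : ℕ) : ℤ) ≠ 0 := by
        intro h3
        apply hCN
        have : ((C * A.q b : ℕ) : ℤ) = ((A.c b * N : ℕ) : ℤ) := by linarith
        exact_mod_cast this
      have h3 := Int.one_le_abs h2
      have h4 : ((1 : ℤ) : ℝ) ≤ ((|((C * A.q b : ℕ) : ℤ) - ((A.c b * N : ℕ) : ℤ)| : ℤ) : ℝ) := by
        exact_mod_cast h3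
      push_cast at h4
      exact h4
    have h2 : (C : ℝ) / N - (A.c b : ℝ) / A.q b =
        ((b.val : ℝ) / S.P - (A.c b : ℝ) / A.q b) - A2.dl β / (q : ℝ) ^ d := by
      rw [← hfrac]; ring
    have h3 : |(C : ℝ) / N - (A.c b : ℝ) / A.q b| ≤
        1 / ((A.q b : ℝ) * (((4 * S.B ^ d : ℕ) : ℝ) + 1)) + |A2.dl β| / (q : ℝ) ^ d := by
      rw [h2]
      refine (abs_sub _ _).trans ?_
      rw [abs_div, abs_of_pos (pow_pos hqr d)]
      exact add_le_add hδ le_rfl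
    have h4 : (1 : ℝ) / (N * A.q b) ≤ |(C : ℝ) / N - (A.c b : ℝ) / A.q b| := by
      rw [div_sub_div _ _ hNr.ne' hq0r.ne', abs_div, abs_of_pos (mul_pos hNr hq0r)]
      apply div_le_div_of_nonneg_right _ (mul_pos hNr hq0r).le
      rw [Nat.cast_comm N (A.c b : ℝ)]
      exact h1
    have h5 := h4.trans h3
    -- multiply by `N * A.q b`
    have hBd : (8 : ℝ) * N ≤ (S.B : ℝ) ^ d := by
      have h6 := S.H_lt_Bd
      have h7 : 8 * N ≤ S.B ^ d := by omega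
      exact_mod_cast h7
    have h6 : (1 : ℝ) ≤ N / (((4 * S.B ^ d : ℕ) : ℝ) + 1) + N * A.q b * (|A2.dl β| / (q : ℝ) ^ d) := by
      have h7 := mul_le_mul_of_nonneg_left h5 (mul_pos hNr hq0r).le
      have e1 : (N : ℝ) * A.q b * (1 / (N * A.q b)) = 1 := by field_simp
      have e2 : (N : ℝ) * A.q b * (1 / ((A.q b : ℝ) * (((4 * S.B ^ d : ℕ) : ℝ) + 1)) +
          |A2.dl β| / (q : ℝ) ^ d) = N / (((4 * S.B ^ d : ℕ) : ℝ) + 1) +
          N * A.q b * (|A2.dl β| / (q : ℝ) ^ d) := by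
        rw [mul_add]
        congr 1
        field_simp
      rw [e1, e2] at h7
      exact h7
    have h7 : (N : ℝ) / (((4 * S.B ^ d : ℕ) : ℝ) + 1) ≤ 1 / 2 := by
      rw [div_le_iff₀ (by positivity)]
      push_cast
      nlinarith
    have h8 : (1 : ℝ) / 2 ≤ N * A.q b * (|A2.dl β| / (q : ℝ) ^ d) := by linarith
    -- upper bound for the right side
    have h9 : (A.q b : ℝ) ≤ 4 * (S.B : ℝ) ^ d := by
      have := A.qle b
      exact_mod_cast this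
    have h10 : (S.M : ℝ) ^ d ≤ (q : ℝ) ^ d := by
      apply pow_le_pow_left₀ hMr.le
      exact_mod_cast hq1.le
    have h11 : (S.H : ℝ) * ((S.BB : ℝ) ^ d * |A2.dl β|) < S.BB * S.R := by
      calc (S.H : ℝ) * ((S.BB : ℝ) ^ d * |A2.dl β|) = S.H * (S.BB : ℝ) ^ d * |A2.dl β| := by ring
        _ < S.BB * κ := hc2
        _ ≤ S.BB * S.R := mul_le_mul_of_nonneg_left hk1 hBBr.le
    have hBd2 : (S.B : ℝ) ^ d = 4 ^ d * (S.M : ℝ) ^ d * (S.BB : ℝ) ^ d := by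
      have : (S.B : ℝ) = 4 * S.M * S.BB := by
        have := S.B_eq_BB
        exact_mod_cast this
      rw [this, mul_pow, mul_pow]
    have hMd : (0 : ℝ) < (S.M : ℝ) ^ d := pow_pos hMr d
    have h12 : (N : ℝ) * A.q b * (|A2.dl β| / (q : ℝ) ^ d) ≤
        N * (4 * 4 ^ d) * ((S.BB : ℝ) ^ d * |A2.dl β|) := by
      calc (N : ℝ) * A.q b * (|A2.dl β| / (q : ℝ) ^ d)
          ≤ N * (4 * (S.B : ℝ) ^ d) * (|A2.dl β| / (S.M : ℝ) ^ d) := by
            apply mul_le_mul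
            · exact mul_le_mul_of_nonneg_left h9 hNr.le
            · exact div_le_div_of_nonneg_left (abs_nonneg _) hMd h10
            · positivity
            · positivity
        _ = N * (4 * 4 ^ d) * ((S.BB : ℝ) ^ d * |A2.dl β|) := by
            rw [hBd2]
            field_simp
    have h13 : (S.H : ℝ) * (1 / 2) < N * (4 * 4 ^ d) * (S.BB * S.R) := by
      calc (S.H : ℝ) * (1 / 2) ≤ S.H * (N * (4 * 4 ^ d) * ((S.BB : ℝ) ^ d * |A2.dl β|)) :=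
            mul_le_mul_of_nonneg_left (h8.trans h12) hHr.le
        _ = N * (4 * 4 ^ d) * (S.H * ((S.BB : ℝ) ^ d * |A2.dl β|)) := by ring
        _ < N * (4 * 4 ^ d) * (S.BB * S.R) := by
            apply mul_lt_mul_of_pos_left h11
            positivity
    have h14 : (8 : ℝ) * 4 ^ d * S.BB * S.R * N < S.H := by exact_mod_cast hnum3
    have h15 : (N : ℝ) * (4 * 4 ^ d) * (S.BB * S.R) = (8 * 4 ^ d * S.BB * S.R * N) / 2 := by ring
    rw [h15] at h13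
    linarith

end Pool.Agent.Lib.MP_e426f4_ag.DH
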