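import Pool.Agent.Lib.MP_e426f4_ag.DG.Defs
import Pool.Agent.Lib.MP_e426f4_ag.DG.Ed

/-!
# Nq: pairs with `q ∣ x^d - x'^d`

`kk = gcd(x,x')`, `f = gcd(q, kk^d)`, `e = ed d f ∣ kk` (`ed_dvd_iff`), `x = e y`, `x' = e y'`, `y, y' ≤ Y = B/e`
(real); `u = x/kk`, `u' = x'/kk` coprime, `q_f = q/f` divides `u^d - u'^d ≠ 0`, so `u, u'` are units mod `q_f`,
`u' ≡ ζ u` with `ζ^d ≡ 1`, hence `y' ≡ ζ y mod q_f`.  So the pairs are covered by the (at most `r · r`) sets indexed by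
`f ∣ q` and `ζ < q_f`, `ζ^d ≡ 1` (`rho d q_f ≤ r`).  For one such set let `n` be its number of elements; claim
`n^K q ≤ 2^K B^(d+1)` with `K = g+4`, which gives `N^K q ≤ (r² max n)^K q`.
(1) `q_f > Y²`: for two pairs `q_f ∣ y1 y2' - y2 y1'`, absolute value `< Y²`, so all `(y,y')` are proportional to one primitive
`(u,u')`; `U = max(u,u')`, `q_f ≤ |u^d - u'^d| ≤ U^d`, `n ≤ Y/U` and (if `n ≥ 1`) `eU ≤ B`, `f ≤ e^d`:
`n^K q ≤ (B/(eU))^K (eU)^d ≤ B^d` (`K ≤ d`).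
(2) `q_f ≤ Y²`: `n ≤ Y (Y/q_f + 1)`.  If `q_f ≤ Y`: `n ≤ 2Y²/q_f`, `n^K q ≤ 2^K Y^(2K) q_f^(1-K) e^d ≤ 2^K Y^(2K) e^d`
`≤ 2^K B^(d+1)` as `eY ≤ B`, `Y ≤ B`, `2K ≤ d+1`.  If `q_f > Y`: `n ≤ 2Y`, `n^K q ≤ 2^K Y^K Y² e^d ≤ 2^K B^d` as `K+2 ≤ d`.
-/

set_option autoImplicit false

namespace Pool.Agent.Lib.MP_e426f4_ag.DH

open Finset
open Pool.Agent.Lib.MP_e426f4_ag.DG

private theorem cls_card (Y c m : ℕ) (hm : 1 ≤ m) :
    ((Icc 1 Y).filter fun y => y ≡ c [MOD m]).card ≤ Y / m + 1 := by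
  have h : ((Icc 1 Y).filter fun y => y ≡ c [MOD m]).card ≤ (range (Y / m + 1)).card := by
    refine card_le_card_of_injOn (fun y => y / m) ?_ ?_
    · intro y hy
      rw [mem_coe, mem_filter, mem_Icc] at hy
      rw [mem_coe, mem_range]
      exact Nat.lt_succ_of_le (Nat.div_le_div_right hy.1.2)
    · intro y hy y' hy' he
      rw [mem_coe, mem_filter, mem_Icc] at hy hy'
      have h1 : y % m = y' % m := hy.2.trans hy'.2.symm
      have h2 := Nat.div_add_mod y m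
      have h3 := Nat.div_add_mod y' m
      have he' : y / m = y' / m := he
      rw [← h2, ← h3, he', h1]
  simpa using h

private theorem class_bound (d K B e qf zeta : ℕ) (hK : 1 ≤ K) (hK1 : K + 2 ≤ d)
    (hK2 : 2 * K ≤ d + 1) (he : 1 ≤ e) (hqf : 1 ≤ qf) (C : Finset (ℕ × ℕ))
    (hC : ∀ z ∈ C, ∃ k u u' : ℕ, 1 ≤ k ∧ 1 ≤ u ∧ 1 ≤ u' ∧ u ≠ u' ∧ Nat.Coprime u u' ∧
      z = (e * (k * u), e * (k * u')) ∧ e * (k * u) ≤ B ∧ e * (k * u') ≤ B ∧
      (qf : ℤ) ∣ (u : ℤ) ^ d - (u' : ℤ) ^ d ∧ u' ≡ zeta * u [MOD qf]) :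
    C.card ^ K * (qf * e ^ d) ≤ 2 ^ K * B ^ (d + 1) := by
  classical
  rcases C.eq_empty_or_nonempty with rfl | ⟨z0, hz0⟩
  · rw [card_empty, zero_pow (by omega), zero_mul]
    exact Nat.zero_le _
  obtain ⟨k0, u0, v0, hk0, hu0, hv0, hne0, hcop0, hz0e, hb0, hb0', hd0, hm0⟩ := hC z0 hz0
  have hn1 : 1 ≤ C.card := card_pos.2 ⟨z0, hz0⟩
  have heu : ∀ k u : ℕ, 1 ≤ k → e * (k * u) ≤ B → e * u ≤ B := by
    intro k u hk h
    refine le_trans ?_ h
    exact Nat.mul_le_mul_left _ (Nat.le_mul_of_pos_left _ hk)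
  have heB : e ≤ B := by
    have h1 := heu k0 u0 hk0 hb0
    exact le_trans (Nat.le_mul_of_pos_right _ hu0) h1
  have hB1 : 1 ≤ B := he.trans heB
  have h2K : 1 ≤ 2 ^ K := Nat.one_le_two_pow
  rcases Nat.lt_or_ge (B ^ 2) (qf * e ^ 2) with hA | hA
  · -- all pairs proportional
    have hlt : ∀ x y : ℕ, e * x ≤ B → e * y ≤ B → x * y < qf := by
      intro x y hx hy
      have h1 : (e * x) * (e * y) ≤ B * B := Nat.mul_le_mul hx hy
      have h2 : e ^ 2 * (x * y) < e ^ 2 * qf := by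
        calc e ^ 2 * (x * y) = (e * x) * (e * y) := by ring
          _ ≤ B * B := h1
          _ = B ^ 2 := by ring
          _ < qf * e ^ 2 := hA
          _ = e ^ 2 * qf := by ring
      exact lt_of_mul_lt_mul_left h2 (Nat.zero_le _)
    have huniq : ∀ z ∈ C, ∃ k : ℕ, 1 ≤ k ∧ z = (e * (k * u0), e * (k * v0)) ∧
        e * (k * u0) ≤ B ∧ e * (k * v0) ≤ B := by
      intro z hz
      obtain ⟨k, u, v, hk, hu, hv, hne, hcop, hze, hb, hb', hdv, hm⟩ := hC z hz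
      have h1 : v * u0 ≡ u * v0 [MOD qf] := by
        calc v * u0 ≡ (zeta * u) * u0 [MOD qf] := hm.mul_right _
          _ = u * (zeta * u0) := by ring
          _ ≡ u * v0 [MOD qf] := (hm0.mul_left _).symm
      have h2 : v * u0 = u * v0 := by
        refine Nat.ModEq.eq_of_lt_of_lt h1 ?_ ?_
        · exact hlt _ _ (heu k v hk hb') (heu k0 u0 hk0 hb0)
        · exact hlt _ _ (heu k u hk hb) (heu k0 v0 hk0 hb0')
      have h3 : u ∣ u0 := by
        have : u ∣ v * u0 := ⟨v0, h2⟩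
        exact hcop.dvd_of_dvd_mul_left this
      have h4 : u0 ∣ u := by
        have : u0 ∣ u * v0 := ⟨v, by rw [← h2, mul_comm]⟩
        exact hcop0.dvd_of_dvd_mul_right this
      have h5 : u = u0 := Nat.dvd_antisymm h3 h4
      have h6 : v = v0 := by
        rw [h5, mul_comm] at h2
        exact Nat.eq_of_mul_eq_mul_left hu0 h2
      subst h5 h6
      exact ⟨k, hk, hze, hb, hb'⟩
    set U := max u0 v0 with hU
    have hU1 : 1 ≤ U := le_trans hu0 (le_max_left _ _)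
    have hcard : C.card ≤ (Icc 1 (B / (e * U))).card := by
      refine card_le_card_of_injOn (fun z => z.1 / (e * u0)) ?_ ?_
      · intro z hz
        obtain ⟨k, hk, hze, hb, hb'⟩ := huniq z hz
        have h1 : z.1 / (e * u0) = k := by
          rw [hze]
          show e * (k * u0) / (e * u0) = k
          rw [show e * (k * u0) = k * (e * u0) by ring]
          exact Nat.mul_div_cancel _ (by positivity)
        rw [mem_coe, mem_Icc]
        show 1 ≤ z.1 / (e * u0) ∧ z.1 / (e * u0) ≤ B / (e * U)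
        rw [h1]
        refine ⟨hk, ?_⟩
        rw [Nat.le_div_iff_mul_le (by positivity)]
        rcases le_total u0 v0 with h | h
        · rw [hU, max_eq_right h]
          calc k * (e * v0) = e * (k * v0) := by ring
            _ ≤ B := hb'
        · rw [hU, max_eq_left h]
          calc k * (e * u0) = e * (k * u0) := by ring
            _ ≤ B := hb
      · intro z hz z' hz' heq
        obtain ⟨k, hk, hze, hb, hb'⟩ := huniq z hz
        obtain ⟨k', hk', hze', -, -⟩ := huniq z' hz'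
        have h1 : ∀ j : ℕ, e * (j * u0) / (e * u0) = j := by
          intro j
          rw [show e * (j * u0) = j * (e * u0) by ring]
          exact Nat.mul_div_cancel _ (by positivity)
        have h2 : z.1 / (e * u0) = z'.1 / (e * u0) := heq
        rw [hze, hze'] at h2
        change e * (k * u0) / (e * u0) = e * (k' * u0) / (e * u0) at h2
        rw [h1, h1] at h2
        rw [hze, hze', h2]
    rw [Nat.card_Icc, Nat.add_sub_cancel] at hcard
    have hnU : C.card * (e * U) ≤ B := by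
      calc C.card * (e * U) ≤ B / (e * U) * (e * U) := Nat.mul_le_mul_right _ hcard
        _ ≤ B := Nat.div_mul_le_self _ _
    have hqU : qf ≤ U ^ d := by
      have h1 : (u0 : ℤ) ^ d - (v0 : ℤ) ^ d ≠ 0 := by
        intro h
        have h2 : (u0 : ℤ) ^ d = (v0 : ℤ) ^ d := sub_eq_zero.1 h
        have h3 : u0 ^ d = v0 ^ d := by exact_mod_cast h2
        exact hne0 (Nat.pow_left_injective (by omega : d ≠ 0) h3)
      have h2 := Int.le_of_dvd (abs_pos.2 h1) ((dvd_abs _ _).2 hd0)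
      have h3 : |(u0 : ℤ) ^ d - (v0 : ℤ) ^ d| ≤ ((U ^ d : ℕ) : ℤ) := by
        have ha : (u0 : ℤ) ^ d ≤ ((U ^ d : ℕ) : ℤ) := by
          exact_mod_cast Nat.pow_le_pow_left (le_max_left u0 v0) d
        have hb : (v0 : ℤ) ^ d ≤ ((U ^ d : ℕ) : ℤ) := by
          exact_mod_cast Nat.pow_le_pow_left (le_max_right u0 v0) d
        have hc : (0 : ℤ) ≤ (u0 : ℤ) ^ d := by positivity
        have hd : (0 : ℤ) ≤ (v0 : ℤ) ^ d := by positivity
        rw [abs_le]
        constructor <;> linarith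
      exact_mod_cast h2.trans h3
    have heUB : e * U ≤ B := le_trans (Nat.le_mul_of_pos_left _ hn1) hnU
    have hdK : d = K + (d - K) := by omega
    calc C.card ^ K * (qf * e ^ d) ≤ C.card ^ K * (U ^ d * e ^ d) := by gcongr
      _ = C.card ^ K * (e * U) ^ d := by rw [mul_pow, mul_comm (U ^ d)]
      _ = (C.card * (e * U)) ^ K * (e * U) ^ (d - K) := by
          conv_lhs => rw [hdK]
          rw [pow_add, mul_pow (C.card)]
          ring
      _ ≤ B ^ K * B ^ (d - K) := by gcongr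
      _ = B ^ d := by rw [← pow_add, ← hdK]
      _ ≤ B ^ (d + 1) := Nat.pow_le_pow_right hB1 (by omega)
      _ ≤ 2 ^ K * B ^ (d + 1) := Nat.le_mul_of_pos_left _ h2K
  · -- few pairs
    set Y := B / e with hY
    have heY : e * Y ≤ B := Nat.mul_div_le _ _
    have hYB : Y ≤ B := Nat.div_le_self _ _
    have hn : C.card ≤ Y * (Y / qf + 1) := by
      have h1 : C.card ≤ ((Icc 1 Y).sigma fun y =>
          (Icc 1 Y).filter fun y' => y' ≡ zeta * y [MOD qf]).card := by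
        refine card_le_card_of_injOn (fun z => (⟨z.1 / e, z.2 / e⟩ : (_ : ℕ) × ℕ)) ?_ ?_
        · intro z hz
          obtain ⟨k, u, v, hk, hu, hv, hne, hcop, hze, hb, hb', hdv, hm⟩ := hC z hz
          have e1 : z.1 / e = k * u := by
            rw [hze]; exact Nat.mul_div_cancel_left _ he
          have e2 : z.2 / e = k * v := by
            rw [hze]; exact Nat.mul_div_cancel_left _ he
          rw [mem_coe, mem_sigma, mem_filter, mem_Icc, mem_Icc]
          show (1 ≤ z.1 / e ∧ z.1 / e ≤ Y) ∧ (1 ≤ z.2 / e ∧ z.2 / e ≤ Y) ∧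
            z.2 / e ≡ zeta * (z.1 / e) [MOD qf]
          rw [e1, e2]
          refine ⟨⟨Nat.mul_pos hk hu, ?_⟩, ⟨Nat.mul_pos hk hv, ?_⟩, ?_⟩
          · rw [hY, Nat.le_div_iff_mul_le he, mul_comm]; exact hb
          · rw [hY, Nat.le_div_iff_mul_le he, mul_comm]; exact hb'
          · calc k * v ≡ k * (zeta * u) [MOD qf] := hm.mul_left _
              _ = zeta * (k * u) := by ring
        · intro z hz z' hz' heq
          obtain ⟨k, u, v, hk, hu, hv, hne, hcop, hze, hb, hb', hdv, hm⟩ := hC z hz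
          obtain ⟨k', u', v', hk', hu', hv', hne', hcop', hze', -⟩ := hC z' hz'
          have h2 : z.1 / e = z'.1 / e ∧ z.2 / e = z'.2 / e := by
            have h3 : (⟨z.1 / e, z.2 / e⟩ : (_ : ℕ) × ℕ) = ⟨z'.1 / e, z'.2 / e⟩ := heq
            rw [Sigma.mk.injEq] at h3
            exact ⟨h3.1, eq_of_heq h3.2⟩
          have e1 : z.1 / e = k * u := by
            rw [hze]; exact Nat.mul_div_cancel_left _ he
          have e2 : z.2 / e = k * v := by
            rw [hze]; exact Nat.mul_div_cancel_left _ he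
          have e1' : z'.1 / e = k' * u' := by
            rw [hze']; exact Nat.mul_div_cancel_left _ he
          have e2' : z'.2 / e = k' * v' := by
            rw [hze']; exact Nat.mul_div_cancel_left _ he
          rw [e1, e2, e1', e2'] at h2
          rw [hze, hze', h2.1, h2.2]
      refine h1.trans ?_
      rw [card_sigma]
      calc ∑ y ∈ Icc 1 Y, ((Icc 1 Y).filter fun y' => y' ≡ zeta * y [MOD qf]).card
          ≤ ∑ _y ∈ Icc 1 Y, (Y / qf + 1) := sum_le_sum fun y _ => cls_card Y (zeta * y) qf hqf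
        _ = Y * (Y / qf + 1) := by
          rw [sum_const, Nat.card_Icc, Nat.add_sub_cancel, smul_eq_mul]
    rcases Nat.lt_or_ge Y qf with hYq | hYq
    · have hY0 : Y / qf = 0 := Nat.div_eq_of_lt hYq
      rw [hY0, zero_add, mul_one] at hn
      have hY1 : 1 ≤ Y := hn1.trans hn
      have hd2 : d = 2 + (d - 2) := by omega
      calc C.card ^ K * (qf * e ^ d) ≤ Y ^ K * (qf * e ^ d) := by gcongr
        _ ≤ Y ^ (d - 2) * (qf * e ^ d) := by
            gcongr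
            omega
        _ = (qf * e ^ 2) * (e * Y) ^ (d - 2) := by
            have : e ^ d = e ^ 2 * e ^ (d - 2) := by rw [← pow_add, ← hd2]
            rw [this, mul_pow]
            ring
        _ ≤ B ^ 2 * B ^ (d - 2) := by gcongr
        _ = B ^ d := by rw [← pow_add, ← hd2]
        _ ≤ B ^ (d + 1) := Nat.pow_le_pow_right hB1 (by omega)
        _ ≤ 2 ^ K * B ^ (d + 1) := Nat.le_mul_of_pos_left _ h2K
    · have hY1 : 1 ≤ Y := hqf.trans hYq
      have hnq : C.card * qf ≤ 2 * Y ^ 2 := by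
        calc C.card * qf ≤ Y * (Y / qf + 1) * qf := Nat.mul_le_mul_right _ hn
          _ = Y * (Y / qf * qf + qf) := by ring
          _ ≤ Y * (Y + Y) := by
              have := Nat.div_mul_le_self Y qf
              gcongr
          _ = 2 * Y ^ 2 := by ring
      have hqK : qf ≤ qf ^ K := Nat.le_self_pow (by omega) _
      calc C.card ^ K * (qf * e ^ d) ≤ C.card ^ K * (qf ^ K * e ^ d) := by gcongr
        _ = (C.card * qf) ^ K * e ^ d := by rw [mul_pow]; ring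
        _ ≤ (2 * Y ^ 2) ^ K * e ^ d := by gcongr
        _ = 2 ^ K * (Y ^ (2 * K) * e ^ d) := by rw [mul_pow, ← pow_mul]; ring
        _ ≤ 2 ^ K * (Y ^ (d + 1) * e ^ d) := by
            gcongr
        _ = 2 ^ K * ((e * Y) ^ d * Y) := by rw [mul_pow]; ring
        _ ≤ 2 ^ K * (B ^ d * B) := by gcongr
        _ = 2 ^ K * B ^ (d + 1) := by ring

private theorem decomp (d q x y : ℕ) (hd : 1 ≤ d) (hq : 1 ≤ q) (hx : 1 ≤ x) (hy : 1 ≤ y)
    (hxy : x ≠ y) (h : (q : ℤ) ∣ (x : ℤ) ^ d - (y : ℤ) ^ d) :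
    ∃ f ∈ q.divisors, ∃ zeta ∈ (range (q / f)).filter (fun u => u ^ d ≡ 1 [MOD q / f]),
      ∃ k u u' : ℕ, 1 ≤ k ∧ 1 ≤ u ∧ 1 ≤ u' ∧ u ≠ u' ∧ Nat.Coprime u u' ∧
      x = ed d f * (k * u) ∧ y = ed d f * (k * u') ∧
      ((q / f : ℕ) : ℤ) ∣ (u : ℤ) ^ d - (u' : ℤ) ^ d ∧ u' ≡ zeta * u [MOD q / f] := by
  set g := Nat.gcd x y with hg
  have hgpos : 0 < g := Nat.gcd_pos_of_pos_left _ hx
  obtain ⟨u, hu⟩ : g ∣ x := Nat.gcd_dvd_left _ _
  obtain ⟨v, hv⟩ : g ∣ y := Nat.gcd_dvd_right _ _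
  have hcop : Nat.Coprime u v := by
    have : g * Nat.gcd u v = g * 1 := by
      rw [← Nat.gcd_mul_left, ← hu, ← hv, mul_one]
    exact Nat.eq_of_mul_eq_mul_left hgpos this
  have hu1 : 1 ≤ u := by
    rcases Nat.eq_zero_or_pos u with h0 | h0
    · rw [h0, mul_zero] at hu
      omega
    · exact h0
  have hv1 : 1 ≤ v := by
    rcases Nat.eq_zero_or_pos v with h0 | h0
    · rw [h0, mul_zero] at hv
      omega
    · exact h0
  have hne : u ≠ v := by
    intro h0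
    rw [h0] at hu
    exact hxy (hu.trans hv.symm)
  set G := Nat.gcd q (g ^ d) with hG
  have hGq : G ∣ q := Nat.gcd_dvd_left _ _
  have hGpos : 0 < G := Nat.gcd_pos_of_pos_left _ hq
  have hdvd : ((q / G : ℕ) : ℤ) ∣ (u : ℤ) ^ d - (v : ℤ) ^ d := by
    have h1 : (q : ℤ) ∣ ((g ^ d : ℕ) : ℤ) * ((u : ℤ) ^ d - (v : ℤ) ^ d) := by
      have e : ((g ^ d : ℕ) : ℤ) * ((u : ℤ) ^ d - (v : ℤ) ^ d) =
          (x : ℤ) ^ d - (y : ℤ) ^ d := by
        rw [hu, hv]
        push_cast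
        ring
      rw [e]
      exact h
    obtain ⟨k, hk⟩ : G ∣ g ^ d := Nat.gcd_dvd_right _ _
    have hqe : q = G * (q / G) := (Nat.mul_div_cancel' hGq).symm
    have hcop2 : Nat.Coprime (q / G) k := by
      have h2 := Nat.coprime_div_gcd_div_gcd (m := q) (n := g ^ d) hGpos
      have h3 : g ^ d / Nat.gcd q (g ^ d) = k := by
        rw [← hG, hk, Nat.mul_div_cancel_left _ hGpos]
      rw [h3] at h2
      exact h2
    have h4 : (G : ℤ) * ((q / G : ℕ) : ℤ) ∣ (G : ℤ) * ((k : ℤ) *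
        ((u : ℤ) ^ d - (v : ℤ) ^ d)) := by
      have e1 : (G : ℤ) * ((q / G : ℕ) : ℤ) = (q : ℤ) := by
        exact_mod_cast hqe.symm
      rw [e1, ← mul_assoc]
      rw [hk] at h1
      push_cast at h1 ⊢
      exact h1
    have h5 : ((q / G : ℕ) : ℤ) ∣ (k : ℤ) * ((u : ℤ) ^ d - (v : ℤ) ^ d) :=
      (mul_dvd_mul_iff_left (by exact_mod_cast hGpos.ne')).1 h4
    exact IsCoprime.dvd_of_dvd_mul_left (Nat.isCoprime_iff_coprime.2 hcop2) h5
  set m := q / G with hm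
  have hmpos : 1 ≤ m := Nat.div_pos (Nat.le_of_dvd hq hGq) hGpos
  have : NeZero m := ⟨by omega⟩
  have hum : Nat.Coprime u m := by
    rw [Nat.coprime_iff_gcd_eq_one]
    by_contra hne1
    obtain ⟨p, hp, hpd⟩ := Nat.exists_prime_and_dvd hne1
    have hpu : p ∣ u := hpd.trans (Nat.gcd_dvd_left _ _)
    have hpm : p ∣ m := hpd.trans (Nat.gcd_dvd_right _ _)
    have h1 : (p : ℤ) ∣ (u : ℤ) ^ d - (v : ℤ) ^ d := (Int.natCast_dvd_natCast.2 hpm).trans hdvd
    have h2 : (p : ℤ) ∣ (u : ℤ) ^ d :=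
      (Int.natCast_dvd_natCast.2 hpu).trans (dvd_pow_self _ (by omega))
    have h3 : (p : ℤ) ∣ (v : ℤ) ^ d := by
      have := dvd_sub h2 h1
      simpa using this
    have h4 : p ∣ v ^ d := by exact_mod_cast h3
    have h6 := hp.dvd_of_dvd_pow h4
    exact hp.one_lt.ne' (Nat.dvd_one.1 (hcop ▸ Nat.dvd_gcd hpu h6))
  have hinv : (u : ZMod m) * (u : ZMod m)⁻¹ = 1 := ZMod.coe_mul_inv_eq_one u hum
  have hpow : (u : ZMod m) ^ d = (v : ZMod m) ^ d := by
    have h2 := (ZMod.intCast_zmod_eq_zero_iff_dvd _ m).2 hdvd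
    push_cast at h2
    exact sub_eq_zero.1 h2
  set ze : ℕ := ((v : ZMod m) * (u : ZMod m)⁻¹).val with hze
  have hzc : (ze : ZMod m) = (v : ZMod m) * (u : ZMod m)⁻¹ := by
    rw [hze, ZMod.natCast_zmod_val]
  have he1 : 1 ≤ ed d G := ed_pos d G hd hGpos
  obtain ⟨k, hk⟩ : ed d G ∣ g := (ed_dvd_iff d G g hd hGpos hgpos).1 (Nat.gcd_dvd_right _ _)
  have hk1 : 1 ≤ k := by
    rcases Nat.eq_zero_or_pos k with h0 | h0
    · rw [h0, mul_zero] at hk
      omega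
    · exact h0
  refine ⟨G, Nat.mem_divisors.2 ⟨hGq, by omega⟩, ze, ?_, k, u, v, hk1, hu1, hv1, hne, hcop,
    ?_, ?_, hdvd, ?_⟩
  · rw [mem_filter, mem_range]
    refine ⟨ZMod.val_lt _, ?_⟩
    rw [← ZMod.natCast_eq_natCast_iff]
    push_cast
    rw [hzc, mul_pow, ← hpow, ← mul_pow, hinv, one_pow]
  · rw [hu, hk]; ring
  · rw [hv, hk]; ring
  · rw [← ZMod.natCast_eq_natCast_iff]
    push_cast
    rw [hzc, mul_assoc, mul_comm (u : ZMod m)⁻¹, hinv, mul_one]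

open Classical in
private theorem nq_nat (d K B q r : ℕ) (hK : 1 ≤ K) (hK1 : K + 2 ≤ d)
    (hK2 : 2 * K ≤ d + 1) (hq : 1 ≤ q)
    (hτ : q.divisors.card ≤ r) (hρ : ∀ k, k ∣ q → rho d k ≤ r) :
    (((Icc 1 B) ×ˢ (Icc 1 B)).filter fun z : ℕ × ℕ => z.1 ≠ z.2 ∧
      (q : ℤ) ∣ (z.1 : ℤ) ^ d - (z.2 : ℤ) ^ d).card ^ K * q ≤
      (2 * r ^ 2) ^ K * B ^ (d + 1) := by
  set S := ((Icc 1 B) ×ˢ (Icc 1 B)).filter fun z : ℕ × ℕ => z.1 ≠ z.2 ∧
      (q : ℤ) ∣ (z.1 : ℤ) ^ d - (z.2 : ℤ) ^ d with hS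
  set idx : Finset ((_ : ℕ) × ℕ) := q.divisors.sigma fun f =>
    (range (q / f)).filter (fun u => u ^ d ≡ 1 [MOD q / f]) with hidx
  let C : ((_ : ℕ) × ℕ) → Finset (ℕ × ℕ) := fun i => ((Icc 1 B) ×ˢ (Icc 1 B)).filter fun z =>
    ∃ k u u' : ℕ, 1 ≤ k ∧ 1 ≤ u ∧ 1 ≤ u' ∧ u ≠ u' ∧ Nat.Coprime u u' ∧
      z = (ed d i.1 * (k * u), ed d i.1 * (k * u')) ∧
      ((q / i.1 : ℕ) : ℤ) ∣ (u : ℤ) ^ d - (u' : ℤ) ^ d ∧ u' ≡ i.2 * u [MOD q / i.1]
  have hidxc : idx.card ≤ r ^ 2 := by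
    rw [hidx, card_sigma]
    calc ∑ f ∈ q.divisors, ((range (q / f)).filter (fun u => u ^ d ≡ 1 [MOD q / f])).card
        ≤ ∑ _f ∈ q.divisors, r := by
          refine sum_le_sum fun f hf => ?_
          exact hρ (q / f) (Nat.div_dvd_of_dvd (Nat.dvd_of_mem_divisors hf))
      _ = q.divisors.card * r := by rw [sum_const, smul_eq_mul]
      _ ≤ r * r := Nat.mul_le_mul_right _ hτ
      _ = r ^ 2 := by ring
  have hcov : S ⊆ idx.biUnion C := by
    intro z hz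
    rw [hS, mem_filter, mem_product, mem_Icc, mem_Icc] at hz
    obtain ⟨⟨⟨h1, h2⟩, h3, h4⟩, h5, h6⟩ := hz
    obtain ⟨f, hf, ze, hze, k, u, v, hk, hu, hv, hne, hcop, hx, hy, hdv, hm⟩ :=
      decomp d q z.1 z.2 (by omega) hq h1 h3 h5 h6
    rw [mem_biUnion]
    refine ⟨⟨f, ze⟩, mem_sigma.2 ⟨hf, hze⟩, ?_⟩
    show z ∈ ((Icc 1 B) ×ˢ (Icc 1 B)).filter _
    rw [mem_filter, mem_product, mem_Icc, mem_Icc]
    exact ⟨⟨⟨h1, h2⟩, h3, h4⟩, k, u, v, hk, hu, hv, hne, hcop, Prod.ext hx hy, hdv, hm⟩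
  have hC : ∀ i ∈ idx, (C i).card ^ K * q ≤ 2 ^ K * B ^ (d + 1) := by
    rintro ⟨f, ze⟩ hi
    obtain ⟨hf, hze⟩ := mem_sigma.1 hi
    have hfq : f ∣ q := Nat.dvd_of_mem_divisors hf
    have hfpos : 0 < f := Nat.pos_of_dvd_of_pos hfq hq
    have hd1 : 1 ≤ d := by omega
    have h1 := class_bound d K B (ed d f) (q / f) ze hK hK1 hK2 (ed_pos d f hd1 hfpos)
      (Nat.div_pos (Nat.le_of_dvd hq hfq) hfpos) (C ⟨f, ze⟩) (by
        intro z hz
        obtain ⟨hz1, k, u, v, hk, hu, hv, hne, hcop, hze, hdv, hm⟩ := mem_filter.1 hz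
        rw [mem_product, mem_Icc, mem_Icc] at hz1
        refine ⟨k, u, v, hk, hu, hv, hne, hcop, hze, ?_, ?_, hdv, hm⟩
        · have := hz1.1.2
          rw [hze] at this
          exact this
        · have := hz1.2.2
          rw [hze] at this
          exact this)
    refine le_trans ?_ h1
    refine Nat.mul_le_mul_left _ ?_
    calc q = q / f * f := (Nat.div_mul_cancel hfq).symm
      _ ≤ q / f * ed d f ^ d := Nat.mul_le_mul_left _
          (Nat.le_of_dvd (pow_pos (ed_pos d f hd1 hfpos) _) (ed_spec d f hd1 hfpos))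
  have hn : ∃ n : ℕ, (∀ i ∈ idx, (C i).card ≤ n) ∧ n ^ K * q ≤ 2 ^ K * B ^ (d + 1) := by
    rcases idx.eq_empty_or_nonempty with h0 | h0
    · refine ⟨0, ?_, ?_⟩
      · intro i hi
        rw [h0] at hi
        exact absurd hi (notMem_empty _)
      · rw [zero_pow (by omega), zero_mul]
        exact Nat.zero_le _
    · obtain ⟨i0, hi0, hmax⟩ := exists_max_image idx (fun i => (C i).card) h0
      exact ⟨(C i0).card, hmax, hC i0 hi0⟩
  obtain ⟨n, hn1, hn2⟩ := hn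
  have hSn : S.card ≤ r ^ 2 * n := by
    calc S.card ≤ (idx.biUnion C).card := card_le_card hcov
      _ ≤ idx.card * n := card_biUnion_le_card_mul _ _ _ hn1
      _ ≤ r ^ 2 * n := Nat.mul_le_mul_right _ hidxc
  calc S.card ^ K * q ≤ (r ^ 2 * n) ^ K * q := by gcongr
    _ = (r ^ 2) ^ K * (n ^ K * q) := by rw [mul_pow]; ring
    _ ≤ (r ^ 2) ^ K * (2 ^ K * B ^ (d + 1)) := by gcongr
    _ = (2 * r ^ 2) ^ K * B ^ (d + 1) := by rw [mul_pow 2]; ring

theorem nq_bound (d g B q r : ℕ) (hdg : 2 * g + 7 ≤ d) (hB : 1 ≤ B) (hq : 1 ≤ q)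
    (hτ : q.divisors.card ≤ r) (hρ : ∀ k, k ∣ q → rho d k ≤ r) :
    ((((Icc 1 B) ×ˢ (Icc 1 B)).filter fun z : ℕ × ℕ => z.1 ≠ z.2 ∧
      (q : ℤ) ∣ (z.1 : ℤ) ^ d - (z.2 : ℤ) ^ d).card : ℝ) ^ (g + 4) * q ≤
      (2 * (r : ℝ) ^ 2) ^ (g + 4) * (B : ℝ) ^ (d + 1) := by
  have h := nq_nat d (g + 4) B q r (by omega) (by omega) (by omega) hq hτ hρ
  have h2 : ((((((Icc 1 B) ×ˢ (Icc 1 B)).filter fun z : ℕ × ℕ => z.1 ≠ z.2 ∧
      (q : ℤ) ∣ (z.1 : ℤ) ^ d - (z.2 : ℤ) ^ d).card ^ (g + 4) * q : ℕ) : ℝ)) ≤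
      (((2 * r ^ 2) ^ (g + 4) * B ^ (d + 1) : ℕ) : ℝ) := by
    have h3 := Nat.cast_le (α := ℝ) |>.2 h
    convert h3
  push_cast at h2
  exact h2

end Pool.Agent.Lib.MP_e426f4_ag.DH
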