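import Pool.Agent.Lib.MP_e426f4_ag.DG.Defs

/-!
# PairCnt: few non-proportional pairs satisfy a congruence with a large modulus

If `Lam` is empty nothing to do.  `g0 = gcd(q, α)` divides `β z.1^d`, hence `β` (`z.1` coprime to `q`).  `q'' = q/g0`, `α = g0 α1`, `β = g0 β1`,
`gcd(q'', α1) = 1`, `q'' ∣ α1 z.2^d - β1 z.1^d`.  Fix `w ∈ Lam`.  For `z ∈ Lam`: `(z.2 w.1)^d ≡ (w.2 z.1)^d mod q''`.  Let `u(z) < q''` be the class of
`(z.2 w.1) / (w.2 z.1)` modulo `q''`: `u^d ≡ 1`, so `u(z)` lies in the set counted by `rho d q''`.  `u(z) = u(z')` implies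
`z.2 z'.1 ≡ z'.2 z.1 mod q''`, both sides are positive and `≤ Y² ≤ q''` (strictly: if `z.2 z'.1 ≠ z'.2 z.1` then the difference has absolute value
`< Y² ≤ q''`), so `z.2 z'.1 = z'.2 z.1` and `z = z'` by `hinj`.
-/

set_option autoImplicit false

namespace Pool.Agent.Lib.MP_e426f4_ag.DH

open Finset
open Pool.Agent.Lib.MP_e426f4_ag.DG

theorem pair_count (d q G Y r : ℕ) (hd : 1 ≤ d) (hq : 1 ≤ q) (hr : ∀ k, k ∣ q → rho d k ≤ r)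
    (hr1 : 1 ≤ r) (Lam : Finset (ℕ × ℕ))
    (hL : ∀ z ∈ Lam, 1 ≤ z.1 ∧ z.1 ≤ Y ∧ 1 ≤ z.2 ∧ z.2 ≤ Y ∧ Nat.Coprime z.1 q ∧ Nat.Coprime z.2 q)
    (hinj : ∀ z ∈ Lam, ∀ w ∈ Lam, z.2 * w.1 = w.2 * z.1 → z = w)
    (α β : ℤ) (hG : (Int.gcd (q : ℤ) α) ≤ G) (hqG : G * Y ^ 2 ≤ q)
    (hdvd : ∀ z ∈ Lam, (q : ℤ) ∣ α * (z.2 : ℤ) ^ d - β * (z.1 : ℤ) ^ d) :
    Lam.card ≤ r := by
  classical
  rcases Lam.eq_empty_or_nonempty with hE | ⟨w, hw⟩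
  · simp [hE]
  obtain ⟨hw1, hw1Y, hw2, hw2Y, hwc1, hwc2⟩ := hL w hw
  set g0 : ℕ := Int.gcd (q : ℤ) α with hg0
  have hg0pos : 0 < g0 := Int.gcd_pos_of_ne_zero_left _ (by exact_mod_cast (by omega : q ≠ 0))
  have hg0q : g0 ∣ q := by
    have : (g0 : ℤ) ∣ (q : ℤ) := Int.gcd_dvd_left _ _
    exact_mod_cast this
  have hg0α : (g0 : ℤ) ∣ α := Int.gcd_dvd_right _ _
  obtain ⟨q2, hq2⟩ := hg0q
  obtain ⟨α1, hα1⟩ := hg0α
  have hq2pos : 0 < q2 := by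
    rcases Nat.eq_zero_or_pos q2 with h | h
    · subst h; omega
    · exact h
  haveI : NeZero q2 := ⟨hq2pos.ne'⟩
  have hq2q : q2 ∣ q := ⟨g0, by rw [hq2]; ring⟩
  have hYq : Y ^ 2 ≤ q2 := by
    have h1 : g0 * Y ^ 2 ≤ g0 * q2 := by
      calc g0 * Y ^ 2 ≤ G * Y ^ 2 := Nat.mul_le_mul_right _ hG
        _ ≤ q := hqG
        _ = g0 * q2 := hq2
    exact Nat.le_of_mul_le_mul_left h1 hg0pos
  -- `g0 ∣ β`
  have hg0β : (g0 : ℤ) ∣ β := by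
    have h1 := hdvd w hw
    have h2 : (g0 : ℤ) ∣ α * (w.2 : ℤ) ^ d - β * (w.1 : ℤ) ^ d :=
      (Int.gcd_dvd_left (q : ℤ) α).trans h1
    have h3 : (g0 : ℤ) ∣ α * (w.2 : ℤ) ^ d := Dvd.dvd.mul_right ⟨α1, hα1⟩ _
    have h4 : (g0 : ℤ) ∣ β * (w.1 : ℤ) ^ d := by
      have h5 := dvd_sub h3 h2
      have h6 : α * (w.2 : ℤ) ^ d - (α * (w.2 : ℤ) ^ d - β * (w.1 : ℤ) ^ d)
          = β * (w.1 : ℤ) ^ d := by ring
      rwa [h6] at h5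
    have h7 : Nat.Coprime g0 w.1 := (Nat.Coprime.coprime_dvd_right ⟨q2, hq2⟩ hwc1).symm
    have h8 : IsCoprime (g0 : ℤ) ((w.1 : ℤ) ^ d) := (Nat.isCoprime_iff_coprime.mpr h7).pow_right
    exact h8.dvd_of_dvd_mul_right h4
  obtain ⟨β1, hβ1⟩ := hg0β
  have hcop : IsCoprime (α1 : ℤ) (q2 : ℤ) := by
    have h1 : Int.gcd (q : ℤ) α = g0 * Int.gcd (q2 : ℤ) α1 := by
      rw [hq2, hα1, Nat.cast_mul, Int.gcd_mul_left]
      simp
    have h2 : Int.gcd (q2 : ℤ) α1 = 1 := by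
      have h3 : g0 * Int.gcd (q2 : ℤ) α1 = g0 * 1 := by rw [← h1, mul_one]
      exact Nat.eq_of_mul_eq_mul_left hg0pos h3
    exact (Int.isCoprime_iff_gcd_eq_one.mpr h2).symm
  -- the congruence modulo `q2`
  have hcong : ∀ z ∈ Lam, (α1 : ZMod q2) * (z.2 : ZMod q2) ^ d = (β1 : ZMod q2) * (z.1 : ZMod q2) ^ d := by
    intro z hz
    have h1 := hdvd z hz
    have h2 : α * (z.2 : ℤ) ^ d - β * (z.1 : ℤ) ^ d
        = (g0 : ℤ) * (α1 * (z.2 : ℤ) ^ d - β1 * (z.1 : ℤ) ^ d) := by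
      rw [hα1, hβ1]; ring
    rw [h2, hq2, Nat.cast_mul] at h1
    have h3 : (q2 : ℤ) ∣ α1 * (z.2 : ℤ) ^ d - β1 * (z.1 : ℤ) ^ d :=
      Int.dvd_of_mul_dvd_mul_left (by exact_mod_cast hg0pos.ne') h1
    have h4 := (ZMod.intCast_zmod_eq_zero_iff_dvd _ q2).mpr h3
    push_cast at h4
    exact sub_eq_zero.mp h4
  have hα1u : IsUnit ((α1 : ℤ) : ZMod q2) := by
    obtain ⟨a, b, hab⟩ := hcop
    have h1 : ((a * α1 + b * (q2 : ℤ) : ℤ) : ZMod q2) = ((1 : ℤ) : ZMod q2) := by rw [hab]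
    push_cast at h1
    rw [ZMod.natCast_self, mul_zero, add_zero] at h1
    exact IsUnit.of_mul_eq_one _ (by rw [mul_comm]; exact h1)
  have hun : ∀ x : ℕ, Nat.Coprime x q → IsUnit ((x : ℕ) : ZMod q2) := by
    intro x hx
    have h1 : Nat.Coprime x q2 := Nat.Coprime.coprime_dvd_right hq2q hx
    exact (ZMod.isUnit_iff_coprime x q2).mpr h1
  have hinv : ∀ x : ZMod q2, IsUnit x → x * x⁻¹ = 1 := fun x hx => ZMod.mul_inv_of_unit x hx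
  have hpow : ∀ z ∈ Lam, ((z.2 : ZMod q2) * (w.1 : ZMod q2)) ^ d
      = ((w.2 : ZMod q2) * (z.1 : ZMod q2)) ^ d := by
    intro z hz
    have h1 := hcong z hz
    have h2 := hcong w hw
    apply hα1u.mul_left_cancel
    calc (α1 : ZMod q2) * ((z.2 : ZMod q2) * (w.1 : ZMod q2)) ^ d
        = ((α1 : ZMod q2) * (z.2 : ZMod q2) ^ d) * (w.1 : ZMod q2) ^ d := by rw [mul_pow]; ring
      _ = ((β1 : ZMod q2) * (z.1 : ZMod q2) ^ d) * (w.1 : ZMod q2) ^ d := by rw [h1]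
      _ = ((β1 : ZMod q2) * (w.1 : ZMod q2) ^ d) * (z.1 : ZMod q2) ^ d := by ring
      _ = ((α1 : ZMod q2) * (w.2 : ZMod q2) ^ d) * (z.1 : ZMod q2) ^ d := by rw [h2]
      _ = (α1 : ZMod q2) * ((w.2 : ZMod q2) * (z.1 : ZMod q2)) ^ d := by rw [mul_pow]; ring
  have hmaps : ∀ z ∈ Lam, (((z.2 : ZMod q2) * (w.1 : ZMod q2)) * ((w.2 : ZMod q2) * (z.1 : ZMod q2))⁻¹).val
      ∈ (range q2).filter fun u => u ^ d ≡ 1 [MOD q2] := by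
    intro z hz
    obtain ⟨hz1, hz1Y, hz2, hz2Y, hzc1, hzc2⟩ := hL z hz
    rw [mem_filter, mem_range]
    refine ⟨ZMod.val_lt _, ?_⟩
    rw [← ZMod.natCast_eq_natCast_iff, Nat.cast_pow, ZMod.natCast_zmod_val, Nat.cast_one, mul_pow,
      hpow z hz, ← mul_pow, hinv _ ((hun _ hwc2).mul (hun _ hzc1)), one_pow]
  have hinj2 : Set.InjOn (fun z : ℕ × ℕ => (((z.2 : ZMod q2) * (w.1 : ZMod q2)) *
      ((w.2 : ZMod q2) * (z.1 : ZMod q2))⁻¹).val) (Lam : Set (ℕ × ℕ)) := by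
    intro z hz v hv hzv
    have hz' : z ∈ Lam := hz
    have hv' : v ∈ Lam := hv
    obtain ⟨hz1, hz1Y, hz2, hz2Y, hzc1, hzc2⟩ := hL z hz'
    obtain ⟨hv1, hv1Y, hv2, hv2Y, hvc1, hvc2⟩ := hL v hv'
    have h0 := ZMod.val_injective q2 hzv
    have hA := hinv _ ((hun _ hwc2).mul (hun _ hzc1))
    have hB := hinv _ ((hun _ hwc2).mul (hun _ hvc1))
    have hwu : IsUnit ((w.1 : ZMod q2) * (w.2 : ZMod q2)) := (hun _ hwc1).mul (hun _ hwc2)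
    have h1 : (z.2 : ZMod q2) * (v.1 : ZMod q2) = (v.2 : ZMod q2) * (z.1 : ZMod q2) := by
      apply hwu.mul_left_cancel
      calc (w.1 : ZMod q2) * (w.2 : ZMod q2) * ((z.2 : ZMod q2) * (v.1 : ZMod q2))
          = ((z.2 : ZMod q2) * (w.1 : ZMod q2)) * ((w.2 : ZMod q2) * (v.1 : ZMod q2)) *
            (((w.2 : ZMod q2) * (z.1 : ZMod q2)) * ((w.2 : ZMod q2) * (z.1 : ZMod q2))⁻¹) := by
              rw [hA]; ring
        _ = (((z.2 : ZMod q2) * (w.1 : ZMod q2)) * ((w.2 : ZMod q2) * (z.1 : ZMod q2))⁻¹) *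
            (((w.2 : ZMod q2) * (v.1 : ZMod q2)) * ((w.2 : ZMod q2) * (z.1 : ZMod q2))) := by ring
        _ = (((v.2 : ZMod q2) * (w.1 : ZMod q2)) * ((w.2 : ZMod q2) * (v.1 : ZMod q2))⁻¹) *
            (((w.2 : ZMod q2) * (v.1 : ZMod q2)) * ((w.2 : ZMod q2) * (z.1 : ZMod q2))) := by rw [h0]
        _ = ((v.2 : ZMod q2) * (w.1 : ZMod q2)) * ((w.2 : ZMod q2) * (z.1 : ZMod q2)) *
            (((w.2 : ZMod q2) * (v.1 : ZMod q2)) * ((w.2 : ZMod q2) * (v.1 : ZMod q2))⁻¹) := by ring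
        _ = (w.1 : ZMod q2) * (w.2 : ZMod q2) * ((v.2 : ZMod q2) * (z.1 : ZMod q2)) := by
              rw [hB]; ring
    have h2 : ((z.2 * v.1 : ℕ) : ZMod q2) = ((v.2 * z.1 : ℕ) : ZMod q2) := by push_cast; exact h1
    have h3 : (z.2 * v.1) ≡ (v.2 * z.1) [MOD q2] := (ZMod.natCast_eq_natCast_iff _ _ _).mp h2
    have hzv1 : z.2 * v.1 ≤ Y ^ 2 := by rw [pow_two]; exact Nat.mul_le_mul hz2Y hv1Y
    have hzv2 : v.2 * z.1 ≤ Y ^ 2 := by rw [pow_two]; exact Nat.mul_le_mul hv2Y hz1Y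
    have hp1 : 1 ≤ z.2 * v.1 := Nat.mul_pos hz2 hv1
    have hp2 : 1 ≤ v.2 * z.1 := Nat.mul_pos hv2 hz1
    apply hinj z hz' v hv'
    by_contra hne
    rcases Nat.lt_or_gt_of_ne hne with hlt | hlt
    · have h4 := (Nat.modEq_iff_dvd' hlt.le).mp h3
      have h5 := Nat.le_of_dvd (by omega) h4
      omega
    · have h4 := (Nat.modEq_iff_dvd' hlt.le).mp h3.symm
      have h5 := Nat.le_of_dvd (by omega) h4
      omega
  calc Lam.card ≤ ((range q2).filter fun u => u ^ d ≡ 1 [MOD q2]).card :=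
        card_le_card_of_injOn _ hmaps hinj2
    _ = rho d q2 := rfl
    _ ≤ r := hr q2 hq2q

end Pool.Agent.Lib.MP_e426f4_ag.DH
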