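import Pool.Agent.Lib.MP_e426f4_ag.DH.ADefs
import Pool.Agent.Lib.MP_e426f4_ag.DH.PairCnt

/-!
# RqA: the number of type A pairs with `q ∣ D`

Write `z = ((a,l),(a',l'))`, `a, a' ∈ Q`, `l ≠ l' ∈ P`; the condition is `q ∣ (t1 μ)^d (t' a' l')^d - (t1' μ')^d (t a l)^d`.
(1) `a ≠ a'`: `pair_count` with the pairs `(a l, a' l')` (the map is injective), `Y = 16 M L`, `α = (t1 μ t')^d`, `β = (t1' μ' t)^d`,
`G = T^(2d)` (`gcd(q, (t1 μ t')^d) ∣ (t1 t')^d` as `gcd(q,μ) = 1`).  Coprimality to `q`: a prime `a ∣ q` would divide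
`t1 μ t' a' l'`: impossible (`a > T`, `a ∤ μ`, `a ≠ a'`, `a ≠ l'` since `a ≤ 4M < L < l'`); the same for `a', l, l'`.  Proportional pairs are equal:
`a1' l1' a2 l2 = a2' l2' a1 l1` with `l_i ≠ l_i'`, `a_i ≠ a_i'` primes.  At most `r`.
(2) `a = a' ∤ q`: `q ∣ (t1 μ)^d (t' l')^d - (t1' μ')^d (t l)^d`, which is non-zero (`l` divides only the second term) and `≤ U^d (4 T L)^d` in absolute value;
`pair_count` with `(l,l')`, `Y = 4L`, for each `a`: at most `|Q| r`, and only if `q ≤ U^d (4TL)^d`.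
(3) `a = a' ∣ q`: at most `r` such `a` (divisors of `q`); `q' = q / gcd(q, a^d) ≥ q/(4M)^d` divides `(t1 μ)^d (t' l')^d - (t1' μ')^d (t l)^d`;
`pair_count` with modulus `q'`: at most `r` each.
-/

set_option autoImplicit false

namespace Pool.Agent.Lib.MP_e426f4_ag.DH

open Finset
open Pool.Agent.Lib.MP_e426f4_ag.DG

private theorem key1 {p q A B x y d : ℕ} (hp : p.Prime) (hpq : p ∣ q) (hpx : p ∣ x) (hd : 1 ≤ d)
    (h : (q : ℤ) ∣ (A : ℤ) ^ d * (y : ℤ) ^ d - (B : ℤ) ^ d * (x : ℤ) ^ d) : p ∣ A * y := by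
  have h1 : (p : ℤ) ∣ (A : ℤ) ^ d * (y : ℤ) ^ d - (B : ℤ) ^ d * (x : ℤ) ^ d :=
    (Int.natCast_dvd_natCast.2 hpq).trans h
  have h2 : (p : ℤ) ∣ (B : ℤ) ^ d * (x : ℤ) ^ d :=
    Dvd.dvd.mul_left (dvd_pow (Int.natCast_dvd_natCast.2 hpx) (by omega)) _
  have h3 : (p : ℤ) ∣ (A : ℤ) ^ d * (y : ℤ) ^ d := by
    have := dvd_add h1 h2
    rwa [sub_add_cancel] at this
  have h4 : p ∣ (A * y) ^ d := by
    rw [mul_pow]
    exact_mod_cast h3
  exact hp.dvd_of_dvd_pow h4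

private theorem key2 {p q A B x y d : ℕ} (hp : p.Prime) (hpq : p ∣ q) (hpy : p ∣ y) (hd : 1 ≤ d)
    (h : (q : ℤ) ∣ (A : ℤ) ^ d * (y : ℤ) ^ d - (B : ℤ) ^ d * (x : ℤ) ^ d) : p ∣ B * x := by
  refine key1 (A := B) (B := A) (x := y) (y := x) hp hpq hpy hd ?_
  have := (dvd_neg (a := (q : ℤ))).2 h
  rwa [neg_sub] at this

private theorem nd {p T a b c y : ℕ} (hp : p.Prime) (hT : T < p) (ha : 1 ≤ a) (haT : a ≤ T)
    (hc : 1 ≤ c) (hcT : c ≤ T) (hb : ¬ p ∣ b) (h : p ∣ a * b * c * y) : p ∣ y := by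
  rcases hp.dvd_mul.1 h with h1 | h1
  · exfalso
    rcases hp.dvd_mul.1 h1 with h2 | h2
    · rcases hp.dvd_mul.1 h2 with h3 | h3
      · have := Nat.le_of_dvd (by omega) h3
        omega
      · exact hb h3
    · have := Nat.le_of_dvd (by omega) h2
      omega
  · exact h1

private theorem gcd_le' {q T a b c d : ℕ} (haT : a ≤ T) (ha : 1 ≤ a) (hc : 1 ≤ c) (hcT : c ≤ T)
    (hb : Nat.Coprime q b) : Int.gcd (q : ℤ) (((a * b * c : ℕ) : ℤ) ^ d) ≤ T ^ (2 * d) := by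
  rw [← Nat.cast_pow, Int.gcd_natCast_natCast]
  have h1 : Nat.gcd q ((a * b * c) ^ d) ∣ b ^ d * (a * c) ^ d := by
    have : (a * b * c) ^ d = b ^ d * (a * c) ^ d := by
      rw [← mul_pow]
      congr 1
      ring
    rw [← this]
    exact Nat.gcd_dvd_right _ _
  have h2 : Nat.Coprime (Nat.gcd q ((a * b * c) ^ d)) (b ^ d) :=
    Nat.Coprime.pow_right d (Nat.Coprime.coprime_dvd_left (Nat.gcd_dvd_left _ _) hb)
  have h3 := h2.dvd_of_dvd_mul_left h1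
  have h4 : 0 < (a * c) ^ d := by
    have : 0 < a * c := Nat.mul_pos ha hc
    positivity
  calc Nat.gcd q ((a * b * c) ^ d) ≤ (a * c) ^ d := Nat.le_of_dvd h4 h3
    _ ≤ (T * T) ^ d := Nat.pow_le_pow_left (Nat.mul_le_mul haT hcT) d
    _ = T ^ (2 * d) := by rw [← pow_two, ← pow_mul]

private theorem cond_eq (t1 t1' t t' μ μ' x y d : ℕ) :
    ((t1 * μ : ℕ) : ℤ) ^ d * ((t' * y : ℕ) : ℤ) ^ d - ((t1' * μ' : ℕ) : ℤ) ^ d * ((t * x : ℕ) : ℤ) ^ d =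
      ((t1 * μ * t' : ℕ) : ℤ) ^ d * (y : ℤ) ^ d - ((t1' * μ' * t : ℕ) : ℤ) ^ d * (x : ℤ) ^ d := by
  push_cast
  ring

private theorem ll_count (d T L q r : ℕ) (hd : 1 ≤ d) (hq : 1 ≤ q)
    (hρ : ∀ k, k ∣ q → rho d k ≤ r) (hr1 : 1 ≤ r) (hTL : T < L) (t1 t1' t t' : ℕ)
    (ht : 1 ≤ t1 ∧ t1 ≤ T ∧ 1 ≤ t1' ∧ t1' ≤ T ∧ 1 ≤ t ∧ t ≤ T ∧ 1 ≤ t' ∧ t' ≤ T)
    (μ μ' : ℕ) (hμ : Nat.Coprime q μ) (P : Finset ℕ)
    (hP : ∀ l ∈ P, l.Prime ∧ L < l ∧ l ≤ 4 * L ∧ ¬ l ∣ μ ∧ ¬ l ∣ μ')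
    (hbig : T ^ (2 * d) * (4 * L) ^ 2 ≤ q) :
    ((P ×ˢ P).filter fun l => l.1 ≠ l.2 ∧ (q : ℤ) ∣ ((t1 * μ : ℕ) : ℤ) ^ d * ((t' * l.2 : ℕ) : ℤ) ^ d -
      ((t1' * μ' : ℕ) : ℤ) ^ d * ((t * l.1 : ℕ) : ℤ) ^ d).card ≤ r := by
  obtain ⟨ht1, ht1T, ht1', ht1'T, htp, htT, ht', ht'T⟩ := ht
  have hmem : ∀ z ∈ ((P ×ˢ P).filter fun l => l.1 ≠ l.2 ∧
      (q : ℤ) ∣ ((t1 * μ : ℕ) : ℤ) ^ d * ((t' * l.2 : ℕ) : ℤ) ^ d -
        ((t1' * μ' : ℕ) : ℤ) ^ d * ((t * l.1 : ℕ) : ℤ) ^ d),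
      z.1 ∈ P ∧ z.2 ∈ P ∧ z.1 ≠ z.2 ∧
      (q : ℤ) ∣ ((t1 * μ * t' : ℕ) : ℤ) ^ d * (z.2 : ℤ) ^ d - ((t1' * μ' * t : ℕ) : ℤ) ^ d * (z.1 : ℤ) ^ d := by
    intro z hz
    rw [Finset.mem_filter, Finset.mem_product, cond_eq] at hz
    exact ⟨hz.1.1, hz.1.2, hz.2.1, hz.2.2⟩
  refine pair_count d q (T ^ (2 * d)) (4 * L) r hd hq hρ hr1 _ ?_ ?_
    (((t1 * μ * t' : ℕ) : ℤ) ^ d) (((t1' * μ' * t : ℕ) : ℤ) ^ d) (gcd_le' ht1T ht1 ht' ht'T hμ) hbig ?_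
  · intro z hz
    obtain ⟨h1, h2, hne, hdv⟩ := hmem z hz
    have hp1 := hP _ h1
    have hp2 := hP _ h2
    refine ⟨hp1.1.one_lt.le, hp1.2.2.1, hp2.1.one_lt.le, hp2.2.2.1, ?_, ?_⟩
    · rw [hp1.1.coprime_iff_not_dvd]
      intro hc
      have h3 := key1 hp1.1 hc (dvd_refl _) hd hdv
      have h4 := nd hp1.1 (by omega) ht1 ht1T ht' ht'T hp1.2.2.2.1 h3
      exact hne ((Nat.prime_dvd_prime_iff_eq hp1.1 hp2.1).1 h4)
    · rw [hp2.1.coprime_iff_not_dvd]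
      intro hc
      have h3 := key2 hp2.1 hc (dvd_refl _) hd hdv
      have h4 := nd hp2.1 (by omega) ht1' ht1'T htp htT hp2.2.2.2.2 h3
      exact hne ((Nat.prime_dvd_prime_iff_eq hp2.1 hp1.1).1 h4).symm
  · intro z hz w hw he
    obtain ⟨h1, h2, hne, -⟩ := hmem z hz
    obtain ⟨h1', h2', hne', -⟩ := hmem w hw
    have hp1 := (hP _ h1).1
    have hp2 := (hP _ h2).1
    have hq1 := (hP _ h1').1
    have hq2 := (hP _ h2').1
    have e1 : z.1 = w.1 := by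
      have h3 : z.1 ∣ z.2 * w.1 := he ▸ Dvd.intro_left _ rfl
      rcases hp1.dvd_mul.1 h3 with h4 | h4
      · exact absurd ((Nat.prime_dvd_prime_iff_eq hp1 hp2).1 h4) hne
      · exact (Nat.prime_dvd_prime_iff_eq hp1 hq1).1 h4
    have e2 : z.2 = w.2 := by
      have h3 : z.2 ∣ w.2 * z.1 := he ▸ Dvd.intro _ rfl
      rcases hp2.dvd_mul.1 h3 with h4 | h4
      · exact (Nat.prime_dvd_prime_iff_eq hp2 hq2).1 h4
      · exact absurd ((Nat.prime_dvd_prime_iff_eq hp2 hp1).1 h4).symm hne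
    exact Prod.ext e1 e2
  · intro z hz
    exact (hmem z hz).2.2.2

theorem RqA (d T M L q r U : ℕ) (hd : 1 ≤ d) (hq : 1 ≤ q) (hτ : q.divisors.card ≤ r)
    (hρ : ∀ k, k ∣ q → rho d k ≤ r) (hTM : T < M) (hML : 4 * M ≤ L) (t1 t1' t t' : ℕ)
    (ht : 1 ≤ t1 ∧ t1 ≤ T ∧ 1 ≤ t1' ∧ t1' ≤ T ∧ 1 ≤ t ∧ t ≤ T ∧ 1 ≤ t' ∧ t' ≤ T)
    (μ μ' : ℕ) (hμ0 : 1 ≤ μ ∧ 1 ≤ μ') (hμ : Nat.Coprime q μ) (hμ' : Nat.Coprime q μ')
    (hU : t1 * μ ≤ U ∧ t1' * μ' ≤ U)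
    (Q P : Finset ℕ) (hQ : ∀ a ∈ Q, a.Prime ∧ M < a ∧ a ≤ 4 * M ∧ ¬ a ∣ μ ∧ ¬ a ∣ μ')
    (hP : ∀ l ∈ P, l.Prime ∧ L < l ∧ l ≤ 4 * L ∧ ¬ l ∣ μ ∧ ¬ l ∣ μ')
    (hbig : T ^ (2 * d) * (256 * (M * L) ^ 2 * (4 * M) ^ d) ≤ q) :
    ((zA Q P).filter fun z => (q : ℤ) ∣ ((t1 * μ : ℕ) : ℤ) ^ d * ((t' * (z.2.1 * z.2.2) : ℕ) : ℤ) ^ d -
      ((t1' * μ' : ℕ) : ℤ) ^ d * ((t * (z.1.1 * z.1.2) : ℕ) : ℤ) ^ d).card ≤
      2 * r ^ 2 + (if q ≤ U ^ d * (4 * (T * L)) ^ d then Q.card * r else 0) := by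
  classical
  have ht0 := ht
  obtain ⟨ht1, ht1T, ht1', ht1'T, htp, htT, ht', ht'T⟩ := ht0
  have hr1 : 1 ≤ r := by
    refine le_trans ?_ hτ
    rw [Nat.one_le_iff_ne_zero, Finset.card_ne_zero]
    exact ⟨1, Nat.one_mem_divisors.2 (by omega)⟩
  have hM1 : 1 ≤ M := by omega
  have hT1 : 1 ≤ T := by omega
  have hL1 : 1 ≤ L := by omega
  have hTL : T < L := by omega
  have hpowM : 1 ≤ (4 * M) ^ d := Nat.one_le_pow _ _ (by omega)
  -- the bound for the pairs of `l`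
  have hbigl : T ^ (2 * d) * (4 * L) ^ 2 * (4 * M) ^ d ≤ q := by
    refine le_trans ?_ hbig
    have h1 : (4 * L) ^ 2 ≤ 256 * (M * L) ^ 2 := by nlinarith [Nat.mul_le_mul hM1 (le_refl L)]
    calc T ^ (2 * d) * (4 * L) ^ 2 * (4 * M) ^ d = T ^ (2 * d) * ((4 * L) ^ 2 * (4 * M) ^ d) := by ring
      _ ≤ T ^ (2 * d) * (256 * (M * L) ^ 2 * (4 * M) ^ d) :=
        Nat.mul_le_mul_left _ (Nat.mul_le_mul_right _ h1)
  have hbigl1 : T ^ (2 * d) * (4 * L) ^ 2 ≤ q := by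
    refine le_trans ?_ hbigl
    exact Nat.le_mul_of_pos_right _ (by omega)
  obtain ⟨C, hC⟩ : ∃ C : ((ℕ × ℕ) × (ℕ × ℕ)) → Prop, C = fun z =>
      (q : ℤ) ∣ ((t1 * μ : ℕ) : ℤ) ^ d * ((t' * (z.2.1 * z.2.2) : ℕ) : ℤ) ^ d -
      ((t1' * μ' : ℕ) : ℤ) ^ d * ((t * (z.1.1 * z.1.2) : ℕ) : ℤ) ^ d := ⟨_, rfl⟩
  have hCz : ∀ z, C z ↔ (q : ℤ) ∣ ((t1 * μ : ℕ) : ℤ) ^ d * ((t' * (z.2.1 * z.2.2) : ℕ) : ℤ) ^ d -
      ((t1' * μ' : ℕ) : ℤ) ^ d * ((t * (z.1.1 * z.1.2) : ℕ) : ℤ) ^ d := fun z => by rw [hC]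
  have hzA : ∀ z ∈ zA Q P, z.1.1 ∈ Q ∧ z.1.2 ∈ P ∧ z.2.1 ∈ Q ∧ z.2.2 ∈ P ∧ z.1.2 ≠ z.2.2 := by
    intro z hz
    rw [zA, Finset.mem_filter, Finset.mem_product, Finset.mem_product, Finset.mem_product] at hz
    exact ⟨hz.1.1.1, hz.1.1.2, hz.1.2.1, hz.1.2.2, hz.2⟩
  have hQP : ∀ a ∈ Q, ∀ l ∈ P, a ≠ l := by
    intro a ha l hl h
    have h1 := (hQ a ha).2.2.1
    have h2 := (hP l hl).2.1
    omega
  -- (1)
  have hN1 : ((zA Q P).filter fun z => z.1.1 ≠ z.2.1 ∧ C z).card ≤ r := by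
    have hmem : ∀ z ∈ ((zA Q P).filter fun z => z.1.1 ≠ z.2.1 ∧ C z),
        (z.1.1 ∈ Q ∧ z.1.2 ∈ P ∧ z.2.1 ∈ Q ∧ z.2.2 ∈ P ∧ z.1.2 ≠ z.2.2) ∧ z.1.1 ≠ z.2.1 ∧
        (q : ℤ) ∣ ((t1 * μ * t' : ℕ) : ℤ) ^ d * ((z.2.1 * z.2.2 : ℕ) : ℤ) ^ d -
          ((t1' * μ' * t : ℕ) : ℤ) ^ d * ((z.1.1 * z.1.2 : ℕ) : ℤ) ^ d := by
      intro z hz
      rw [Finset.mem_filter, hCz, cond_eq] at hz
      exact ⟨hzA z hz.1, hz.2.1, hz.2.2⟩
    have hpr : ∀ z ∈ ((zA Q P).filter fun z => z.1.1 ≠ z.2.1 ∧ C z),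
        ∀ w ∈ ((zA Q P).filter fun z => z.1.1 ≠ z.2.1 ∧ C z),
        (z.2.1 * z.2.2) * (w.1.1 * w.1.2) = (w.2.1 * w.2.2) * (z.1.1 * z.1.2) → z = w := by
      intro z hz w hw he
      obtain ⟨⟨hza, hzl, hza', hzl', hzne⟩, hzn, -⟩ := hmem z hz
      obtain ⟨⟨hwa, hwl, hwa', hwl', hwne⟩, hwn, -⟩ := hmem w hw
      have pa := (hQ _ hza).1
      have pa' := (hQ _ hza').1
      have pl := (hP _ hzl).1
      have pl' := (hP _ hzl').1
      have qa := (hQ _ hwa).1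
      have qa' := (hQ _ hwa').1
      have ql := (hP _ hwl).1
      have ql' := (hP _ hwl').1
      have e1 : z.1.1 = w.1.1 := by
        have h3 : z.1.1 ∣ (z.2.1 * z.2.2) * (w.1.1 * w.1.2) := by
          rw [he]
          exact Dvd.dvd.mul_left (Dvd.intro _ rfl) _
        rcases pa.dvd_mul.1 h3 with h4 | h4
        · rcases pa.dvd_mul.1 h4 with h5 | h5
          · exact absurd ((Nat.prime_dvd_prime_iff_eq pa pa').1 h5) hzn
          · exact absurd ((Nat.prime_dvd_prime_iff_eq pa pl').1 h5) (hQP _ hza _ hzl')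
        · rcases pa.dvd_mul.1 h4 with h5 | h5
          · exact (Nat.prime_dvd_prime_iff_eq pa qa).1 h5
          · exact absurd ((Nat.prime_dvd_prime_iff_eq pa ql).1 h5) (hQP _ hza _ hwl)
      have e2 : z.1.2 = w.1.2 := by
        have h3 : z.1.2 ∣ (z.2.1 * z.2.2) * (w.1.1 * w.1.2) := by
          rw [he]
          exact Dvd.dvd.mul_left (Dvd.intro_left _ rfl) _
        rcases pl.dvd_mul.1 h3 with h4 | h4
        · rcases pl.dvd_mul.1 h4 with h5 | h5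
          · exact absurd ((Nat.prime_dvd_prime_iff_eq pl pa').1 h5).symm (hQP _ hza' _ hzl)
          · exact absurd ((Nat.prime_dvd_prime_iff_eq pl pl').1 h5) hzne
        · rcases pl.dvd_mul.1 h4 with h5 | h5
          · exact absurd ((Nat.prime_dvd_prime_iff_eq pl qa).1 h5).symm (hQP _ hwa _ hzl)
          · exact (Nat.prime_dvd_prime_iff_eq pl ql).1 h5
      have e3 : z.2.1 = w.2.1 := by
        have h3 : z.2.1 ∣ (w.2.1 * w.2.2) * (z.1.1 * z.1.2) := by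
          rw [← he]
          exact Dvd.dvd.mul_right (Dvd.intro _ rfl) _
        rcases pa'.dvd_mul.1 h3 with h4 | h4
        · rcases pa'.dvd_mul.1 h4 with h5 | h5
          · exact (Nat.prime_dvd_prime_iff_eq pa' qa').1 h5
          · exact absurd ((Nat.prime_dvd_prime_iff_eq pa' ql').1 h5) (hQP _ hza' _ hwl')
        · rcases pa'.dvd_mul.1 h4 with h5 | h5
          · exact absurd ((Nat.prime_dvd_prime_iff_eq pa' pa).1 h5).symm hzn
          · exact absurd ((Nat.prime_dvd_prime_iff_eq pa' pl).1 h5) (hQP _ hza' _ hzl)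
      have e4 : z.2.2 = w.2.2 := by
        have h3 : z.2.2 ∣ (w.2.1 * w.2.2) * (z.1.1 * z.1.2) := by
          rw [← he]
          exact Dvd.dvd.mul_right (Dvd.intro_left _ rfl) _
        rcases pl'.dvd_mul.1 h3 with h4 | h4
        · rcases pl'.dvd_mul.1 h4 with h5 | h5
          · exact absurd ((Nat.prime_dvd_prime_iff_eq pl' qa').1 h5).symm (hQP _ hwa' _ hzl')
          · exact (Nat.prime_dvd_prime_iff_eq pl' ql').1 h5
        · rcases pl'.dvd_mul.1 h4 with h5 | h5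
          · exact absurd ((Nat.prime_dvd_prime_iff_eq pl' pa).1 h5).symm (hQP _ hza _ hzl')
          · exact absurd ((Nat.prime_dvd_prime_iff_eq pl' pl).1 h5).symm hzne
      exact Prod.ext (Prod.ext e1 e2) (Prod.ext e3 e4)
    have hinj : Set.InjOn (fun z : (ℕ × ℕ) × (ℕ × ℕ) => (z.1.1 * z.1.2, z.2.1 * z.2.2))
        ((zA Q P).filter fun z => z.1.1 ≠ z.2.1 ∧ C z : Finset _) := by
      intro z hz w hw he
      have he1 : z.1.1 * z.1.2 = w.1.1 * w.1.2 := (Prod.ext_iff.1 he).1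
      have he2 : z.2.1 * z.2.2 = w.2.1 * w.2.2 := (Prod.ext_iff.1 he).2
      refine hpr z (Finset.mem_coe.1 hz) w (Finset.mem_coe.1 hw) ?_
      rw [he1, he2]
    rw [← Finset.card_image_of_injOn hinj]
    refine pair_count d q (T ^ (2 * d)) (16 * (M * L)) r hd hq hρ hr1 _ ?_ ?_
      (((t1 * μ * t' : ℕ) : ℤ) ^ d) (((t1' * μ' * t : ℕ) : ℤ) ^ d) (gcd_le' ht1T ht1 ht' ht'T hμ) ?_ ?_
    · intro z hz
      rw [Finset.mem_image] at hz
      obtain ⟨z, hz, rfl⟩ := hz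
      obtain ⟨⟨hza, hzl, hza', hzl', hzne⟩, hzn, hdv⟩ := hmem z hz
      have pa := hQ _ hza
      have pa' := hQ _ hza'
      have pl := hP _ hzl
      have pl' := hP _ hzl'
      have hle : ∀ a l : ℕ, a ≤ 4 * M → l ≤ 4 * L → a * l ≤ 16 * (M * L) := by
        intro a l h1 h2
        calc a * l ≤ (4 * M) * (4 * L) := Nat.mul_le_mul h1 h2
          _ = 16 * (M * L) := by ring
      refine ⟨Nat.mul_pos pa.1.pos pl.1.pos, hle _ _ pa.2.2.1 pl.2.2.1, Nat.mul_pos pa'.1.pos pl'.1.pos,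
        hle _ _ pa'.2.2.1 pl'.2.2.1, ?_, ?_⟩
      · refine Nat.Coprime.mul_left ?_ ?_
        · rw [pa.1.coprime_iff_not_dvd]
          intro hc
          have h3 := key1 pa.1 hc (Dvd.intro _ rfl) hd hdv
          have h4 := nd pa.1 (by omega) ht1 ht1T ht' ht'T pa.2.2.2.1 h3
          rcases pa.1.dvd_mul.1 h4 with h5 | h5
          · exact hzn ((Nat.prime_dvd_prime_iff_eq pa.1 pa'.1).1 h5)
          · exact hQP _ hza _ hzl' ((Nat.prime_dvd_prime_iff_eq pa.1 pl'.1).1 h5)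
        · rw [pl.1.coprime_iff_not_dvd]
          intro hc
          have h3 := key1 pl.1 hc (Dvd.intro_left _ rfl) hd hdv
          have h4 := nd pl.1 (by omega) ht1 ht1T ht' ht'T pl.2.2.2.1 h3
          rcases pl.1.dvd_mul.1 h4 with h5 | h5
          · exact hQP _ hza' _ hzl ((Nat.prime_dvd_prime_iff_eq pl.1 pa'.1).1 h5).symm
          · exact hzne ((Nat.prime_dvd_prime_iff_eq pl.1 pl'.1).1 h5)
      · refine Nat.Coprime.mul_left ?_ ?_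
        · rw [pa'.1.coprime_iff_not_dvd]
          intro hc
          have h3 := key2 pa'.1 hc (Dvd.intro _ rfl) hd hdv
          have h4 := nd pa'.1 (by omega) ht1' ht1'T htp htT pa'.2.2.2.2 h3
          rcases pa'.1.dvd_mul.1 h4 with h5 | h5
          · exact hzn ((Nat.prime_dvd_prime_iff_eq pa'.1 pa.1).1 h5).symm
          · exact hQP _ hza' _ hzl ((Nat.prime_dvd_prime_iff_eq pa'.1 pl.1).1 h5)
        · rw [pl'.1.coprime_iff_not_dvd]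
          intro hc
          have h3 := key2 pl'.1 hc (Dvd.intro_left _ rfl) hd hdv
          have h4 := nd pl'.1 (by omega) ht1' ht1'T htp htT pl'.2.2.2.2 h3
          rcases pl'.1.dvd_mul.1 h4 with h5 | h5
          · exact hQP _ hza _ hzl' ((Nat.prime_dvd_prime_iff_eq pl'.1 pa.1).1 h5).symm
          · exact hzne ((Nat.prime_dvd_prime_iff_eq pl'.1 pl.1).1 h5).symm
    · intro z hz w hw he
      rw [Finset.mem_image] at hz hw
      obtain ⟨z, hz, rfl⟩ := hz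
      obtain ⟨w, hw, rfl⟩ := hw
      rw [hpr z hz w hw he]
    · refine le_trans ?_ hbig
      have h1 : (16 * (M * L)) ^ 2 = 256 * (M * L) ^ 2 := by ring
      rw [h1]
      exact Nat.mul_le_mul_left _ (Nat.le_mul_of_pos_right _ (by omega))
    · intro z hz
      rw [Finset.mem_image] at hz
      obtain ⟨z, hz, rfl⟩ := hz
      exact (hmem z hz).2.2
  -- the fibres
  have hfac : ∀ a l l' : ℕ, ((t1 * μ : ℕ) : ℤ) ^ d * ((t' * (a * l') : ℕ) : ℤ) ^ d -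
      ((t1' * μ' : ℕ) : ℤ) ^ d * ((t * (a * l) : ℕ) : ℤ) ^ d =
      (a : ℤ) ^ d * (((t1 * μ : ℕ) : ℤ) ^ d * ((t' * l' : ℕ) : ℤ) ^ d -
      ((t1' * μ' : ℕ) : ℤ) ^ d * ((t * l : ℕ) : ℤ) ^ d) := by
    intro a l l'
    push_cast
    ring
  -- (2)
  have hN2 : ((zA Q P).filter fun z => z.1.1 = z.2.1 ∧ ¬ z.1.1 ∣ q ∧ C z).card ≤
      (if q ≤ U ^ d * (4 * (T * L)) ^ d then Q.card * r else 0) := by
    have hred : ∀ z ∈ ((zA Q P).filter fun z => z.1.1 = z.2.1 ∧ ¬ z.1.1 ∣ q ∧ C z),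
        (z.1.1 ∈ Q ∧ z.1.2 ∈ P ∧ z.2.2 ∈ P ∧ z.1.2 ≠ z.2.2) ∧
        (q : ℤ) ∣ ((t1 * μ : ℕ) : ℤ) ^ d * ((t' * z.2.2 : ℕ) : ℤ) ^ d -
          ((t1' * μ' : ℕ) : ℤ) ^ d * ((t * z.1.2 : ℕ) : ℤ) ^ d := by
      intro z hz
      rw [Finset.mem_filter, hCz] at hz
      obtain ⟨hz1, hz2, hz3, hz4⟩ := hz
      obtain ⟨hza, hzl, hza', hzl', hzne⟩ := hzA z hz1
      refine ⟨⟨hza, hzl, hzl', hzne⟩, ?_⟩
      rw [← hz2, hfac] at hz4
      have hcop : IsCoprime (q : ℤ) ((z.1.1 : ℤ) ^ d) := by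
        refine IsCoprime.pow_right (Nat.isCoprime_iff_coprime.2 ?_)
        exact (((hQ _ hza).1.coprime_iff_not_dvd).2 hz3).symm
      exact hcop.dvd_of_dvd_mul_left hz4
    split_ifs with hqU
    · have h1 := Finset.card_le_mul_card_image_of_maps_to
        (s := (zA Q P).filter fun z => z.1.1 = z.2.1 ∧ ¬ z.1.1 ∣ q ∧ C z) (t := Q)
        (f := fun z : (ℕ × ℕ) × (ℕ × ℕ) => z.1.1) (fun z hz => (hred z hz).1.1) r ?_
      · rw [mul_comm]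
        exact h1
      · intro a ha
        refine le_trans ?_ (ll_count d T L q r hd hq hρ hr1 hTL t1 t1' t t' ht μ μ' hμ P hP hbigl1)
        refine Finset.card_le_card_of_injOn (fun z => (z.1.2, z.2.2)) ?_ ?_
        · intro z hz
          rw [Finset.mem_coe, Finset.mem_filter] at hz
          obtain ⟨⟨hza, hzl, hzl', hzne⟩, hdv⟩ := hred z hz.1
          rw [Finset.mem_coe, Finset.mem_filter, Finset.mem_product]
          exact ⟨⟨hzl, hzl'⟩, hzne, hdv⟩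
        · intro z hz w hw he
          rw [Finset.mem_coe, Finset.mem_filter] at hz hw
          have h2 := (Finset.mem_filter.1 hz.1).2.1
          have h3 := (Finset.mem_filter.1 hw.1).2.1
          have h4 : z.1.1 = w.1.1 := hz.2.trans hw.2.symm
          have h5 : z.1.2 = w.1.2 := (Prod.ext_iff.1 he).1
          have h6 : z.2.2 = w.2.2 := (Prod.ext_iff.1 he).2
          exact Prod.ext (Prod.ext h4 h5) (Prod.ext (by rw [← h2, ← h3, h4]) h6)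
    · rw [Nat.le_zero, Finset.card_eq_zero, Finset.eq_empty_iff_forall_notMem]
      intro z hz
      obtain ⟨⟨hza, hzl, hzl', hzne⟩, hdv⟩ := hred z hz
      have pl := hP _ hzl
      have pl' := hP _ hzl'
      have hne : ((t1 * μ : ℕ) : ℤ) ^ d * ((t' * z.2.2 : ℕ) : ℤ) ^ d -
          ((t1' * μ' : ℕ) : ℤ) ^ d * ((t * z.1.2 : ℕ) : ℤ) ^ d ≠ 0 := by
        intro h0
        rw [cond_eq] at h0
        have h1 : ((z.1.2 : ℕ) : ℤ) ∣ ((t1 * μ * t' : ℕ) : ℤ) ^ d * (z.2.2 : ℤ) ^ d -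
            ((t1' * μ' * t : ℕ) : ℤ) ^ d * (z.1.2 : ℤ) ^ d := by
          rw [h0]
          exact dvd_zero _
        have h3 := key1 pl.1 (dvd_refl _) (dvd_refl _) hd h1
        have h4 := nd pl.1 (by omega) ht1 ht1T ht' ht'T pl.2.2.2.1 h3
        exact hzne ((Nat.prime_dvd_prime_iff_eq pl.1 pl'.1).1 h4)
      have h9 := Int.le_of_dvd (abs_pos.2 hne) ((dvd_abs _ _).2 hdv)
      have hb : ∀ u v x l : ℕ, u * v ≤ U → x ≤ T → l ≤ 4 * L →
          ((u * v : ℕ) : ℤ) ^ d * ((x * l : ℕ) : ℤ) ^ d ≤ ((U ^ d * (4 * (T * L)) ^ d : ℕ) : ℤ) := by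
        intro u v x l h1 h2 h3
        have h4 : (u * v) ^ d * (x * l) ^ d ≤ U ^ d * (4 * (T * L)) ^ d := by
          refine Nat.mul_le_mul (Nat.pow_le_pow_left h1 d) (Nat.pow_le_pow_left ?_ d)
          calc x * l ≤ T * (4 * L) := Nat.mul_le_mul h2 h3
            _ = 4 * (T * L) := by ring
        exact_mod_cast h4
      have hx1 := hb t1 μ t' z.2.2 hU.1 ht'T pl'.2.2.1
      have hx2 := hb t1' μ' t z.1.2 hU.2 htT pl.2.2.1
      have hx3 : (0 : ℤ) ≤ ((t1 * μ : ℕ) : ℤ) ^ d * ((t' * z.2.2 : ℕ) : ℤ) ^ d := by positivity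
      have hx4 : (0 : ℤ) ≤ ((t1' * μ' : ℕ) : ℤ) ^ d * ((t * z.1.2 : ℕ) : ℤ) ^ d := by positivity
      have h10 : |((t1 * μ : ℕ) : ℤ) ^ d * ((t' * z.2.2 : ℕ) : ℤ) ^ d -
          ((t1' * μ' : ℕ) : ℤ) ^ d * ((t * z.1.2 : ℕ) : ℤ) ^ d| ≤
          ((U ^ d * (4 * (T * L)) ^ d : ℕ) : ℤ) := by
        rw [abs_le]
        constructor <;> linarith
      have h11 : (q : ℤ) ≤ ((U ^ d * (4 * (T * L)) ^ d : ℕ) : ℤ) := h9.trans h10
      exact hqU (by exact_mod_cast h11)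
  -- (3)
  have hN3 : ((zA Q P).filter fun z => z.1.1 = z.2.1 ∧ z.1.1 ∣ q ∧ C z).card ≤ r * r := by
    have h1 := Finset.card_le_mul_card_image_of_maps_to
      (s := (zA Q P).filter fun z => z.1.1 = z.2.1 ∧ z.1.1 ∣ q ∧ C z) (t := q.divisors)
      (f := fun z : (ℕ × ℕ) × (ℕ × ℕ) => z.1.1) ?_ r ?_
    · exact h1.trans (Nat.mul_le_mul_left _ hτ)
    · intro z hz
      rw [Finset.mem_filter] at hz
      exact Nat.mem_divisors.2 ⟨hz.2.2.1, by omega⟩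
    · intro a ha
      by_cases haQ : a ∈ Q
      · have pa := hQ _ haQ
        have hg0 : 0 < Nat.gcd q (a ^ d) := Nat.gcd_pos_of_pos_left _ (by omega)
        obtain ⟨q', hq'⟩ := Nat.gcd_dvd_left q (a ^ d)
        have hq'0 : 1 ≤ q' := by
          rcases Nat.eq_zero_or_pos q' with h0 | h0
          · rw [h0, mul_zero] at hq'
            omega
          · exact h0
        have hq'q : q' ∣ q := Dvd.intro_left _ hq'.symm
        have hga : Nat.gcd q (a ^ d) ≤ (4 * M) ^ d :=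
          (Nat.le_of_dvd (by have := pa.1.pos; positivity) (Nat.gcd_dvd_right _ _)).trans
            (Nat.pow_le_pow_left pa.2.2.1 d)
        have hbig' : T ^ (2 * d) * (4 * L) ^ 2 ≤ q' := by
          by_contra hcon
          push Not at hcon
          have h2 : q < T ^ (2 * d) * (4 * L) ^ 2 * (4 * M) ^ d := by
            calc q = Nat.gcd q (a ^ d) * q' := hq'
              _ ≤ (4 * M) ^ d * q' := Nat.mul_le_mul_right _ hga
              _ < (4 * M) ^ d * (T ^ (2 * d) * (4 * L) ^ 2) := by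
                exact Nat.mul_lt_mul_of_pos_left hcon (by omega)
              _ = T ^ (2 * d) * (4 * L) ^ 2 * (4 * M) ^ d := by ring
          omega
        refine le_trans ?_ (ll_count d T L q' r hd hq'0 (fun k hk => hρ k (hk.trans hq'q)) hr1 hTL
          t1 t1' t t' ht μ μ' (Nat.Coprime.coprime_dvd_left hq'q hμ) P hP hbig')
        refine Finset.card_le_card_of_injOn (fun z => (z.1.2, z.2.2)) ?_ ?_
        · intro z hz
          rw [Finset.mem_coe, Finset.mem_filter, Finset.mem_filter, hCz] at hz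
          obtain ⟨⟨hz1, hz2, hz3, hz4⟩, hz5⟩ := hz
          have hz5' : z.1.1 = a := hz5
          obtain ⟨hza, hzl, hza', hzl', hzne⟩ := hzA z hz1
          rw [Finset.mem_coe, Finset.mem_filter, Finset.mem_product]
          refine ⟨⟨hzl, hzl'⟩, hzne, ?_⟩
          rw [← hz2, hfac, hz5'] at hz4
          have hg0' : ((Nat.gcd q (a ^ d) : ℕ) : ℤ) ≠ 0 := by exact_mod_cast hg0.ne'
          obtain ⟨b, hb⟩ := Nat.gcd_dvd_right q (a ^ d)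
          have hcop : Nat.Coprime q' b := by
            have h7 := Nat.gcd_mul_left (Nat.gcd q (a ^ d)) q' b
            rw [← hq', ← hb] at h7
            exact Nat.eq_of_mul_eq_mul_left hg0 (by rw [← h7, mul_one])
          have h8 : ((Nat.gcd q (a ^ d) : ℕ) : ℤ) * (q' : ℤ) ∣ ((Nat.gcd q (a ^ d) : ℕ) : ℤ) * ((b : ℤ) *
              (((t1 * μ : ℕ) : ℤ) ^ d * ((t' * z.2.2 : ℕ) : ℤ) ^ d -
                ((t1' * μ' : ℕ) : ℤ) ^ d * ((t * z.1.2 : ℕ) : ℤ) ^ d)) := by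
            have h9 : ((Nat.gcd q (a ^ d) : ℕ) : ℤ) * (q' : ℤ) = (q : ℤ) := by exact_mod_cast hq'.symm
            have h10 : ((Nat.gcd q (a ^ d) : ℕ) : ℤ) * (b : ℤ) = (a : ℤ) ^ d := by exact_mod_cast hb.symm
            rw [h9, ← mul_assoc, h10]
            exact hz4
          have h11 := (mul_dvd_mul_iff_left hg0').1 h8
          exact (Nat.isCoprime_iff_coprime.2 hcop).dvd_of_dvd_mul_left h11
        · intro z hz w hw he
          rw [Finset.mem_coe, Finset.mem_filter] at hz hw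
          have h2 := (Finset.mem_filter.1 hz.1).2.1
          have h3 := (Finset.mem_filter.1 hw.1).2.1
          have h4 : z.1.1 = w.1.1 := hz.2.trans hw.2.symm
          have h5 : z.1.2 = w.1.2 := (Prod.ext_iff.1 he).1
          have h6 : z.2.2 = w.2.2 := (Prod.ext_iff.1 he).2
          exact Prod.ext (Prod.ext h4 h5) (Prod.ext (by rw [← h2, ← h3, h4]) h6)
      · refine le_trans (le_of_eq ?_) (Nat.zero_le r)
        rw [Finset.card_eq_zero, Finset.eq_empty_iff_forall_notMem]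
        intro z hz
        rw [Finset.mem_filter, Finset.mem_filter] at hz
        have hz5 : z.1.1 = a := hz.2
        exact haQ (hz5 ▸ (hzA z hz.1.1).1)
  have hsub : ((zA Q P).filter fun z => C z) ⊆
      ((zA Q P).filter fun z => z.1.1 ≠ z.2.1 ∧ C z) ∪
      (((zA Q P).filter fun z => z.1.1 = z.2.1 ∧ ¬ z.1.1 ∣ q ∧ C z) ∪
        ((zA Q P).filter fun z => z.1.1 = z.2.1 ∧ z.1.1 ∣ q ∧ C z)) := by
    intro z hz
    rw [Finset.mem_filter] at hz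
    rw [Finset.mem_union, Finset.mem_union, Finset.mem_filter, Finset.mem_filter, Finset.mem_filter]
    by_cases h1 : z.1.1 = z.2.1
    · by_cases h2 : z.1.1 ∣ q
      · exact Or.inr (Or.inr ⟨hz.1, h1, h2, hz.2⟩)
      · exact Or.inr (Or.inl ⟨hz.1, h1, h2, hz.2⟩)
    · exact Or.inl ⟨hz.1, h1, hz.2⟩
  have hfin : ((zA Q P).filter fun z => C z).card ≤
      2 * r ^ 2 + (if q ≤ U ^ d * (4 * (T * L)) ^ d then Q.card * r else 0) := by
    have h1 := Finset.card_le_card hsub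
    have h2 := Finset.card_union_le ((zA Q P).filter fun z => z.1.1 ≠ z.2.1 ∧ C z)
      (((zA Q P).filter fun z => z.1.1 = z.2.1 ∧ ¬ z.1.1 ∣ q ∧ C z) ∪
        ((zA Q P).filter fun z => z.1.1 = z.2.1 ∧ z.1.1 ∣ q ∧ C z))
    have h3 := Finset.card_union_le ((zA Q P).filter fun z => z.1.1 = z.2.1 ∧ ¬ z.1.1 ∣ q ∧ C z)
      ((zA Q P).filter fun z => z.1.1 = z.2.1 ∧ z.1.1 ∣ q ∧ C z)
    have h4 : r ≤ r * r := Nat.le_mul_of_pos_left _ hr1
    have h5 : 2 * r ^ 2 = r * r + r * r := by ring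
    omega
  have hgoal : ((zA Q P).filter fun z => (q : ℤ) ∣ ((t1 * μ : ℕ) : ℤ) ^ d * ((t' * (z.2.1 * z.2.2) : ℕ) : ℤ) ^ d -
      ((t1' * μ' : ℕ) : ℤ) ^ d * ((t * (z.1.1 * z.1.2) : ℕ) : ℤ) ^ d) =
      ((zA Q P).filter fun z => C z) := Finset.filter_congr fun z _ => (hCz z).symm
  rw [hgoal]
  exact hfin

end Pool.Agent.Lib.MP_e426f4_ag.DH
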