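import Pool.Agent.Lib.MP_e426f4_ag.DH.ADefs
import Pool.Agent.Lib.MP_e426f4_ag.DH.PairCnt

/-!
# RqB: the number of type B pairs with `q ∣ D`

`z = (l,(a,a'))`, `l ∈ P`, `a ≠ a' ∈ Q`; `D = (t1 μ)^d (t' a' l)^d - (t1' μ')^d (t a l)^d = l^d E`, `E = (t1 μ)^d (t' a')^d - (t1' μ')^d (t a)^d ≠ 0` (`a` divides only the
second term: `a > T`, `a ∤ μ`, `a ≠ a'`), `|E| ≤ U^d (4TM)^d`.
(1) `l ∤ q`: `q ∣ E`, so `q ≤ U^d (4TM)^d`; for each `l`, `pair_count` with the pairs `(a,a')`, `Y = 4M`, `α = (t1 μ t')^d`, `β = (t1' μ' t)^d`, `G = T^(2d)`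
(`gcd(q,(t1 μ t')^d) ∣ (t1 t')^d`); a prime `a ∣ q` would divide `t1 μ t' a'`: impossible; same for `a'`; proportional pairs of distinct primes are equal.  At most `|P| r`.
(2) `l ∣ q`: at most `r` such `l` (divisors of `q`).  For each: trivially `≤ |Q|²`; and `q' = q/gcd(q,l^d) ≥ q/(4L)^d` divides `E`, `pair_count` with modulus `q'` gives `≤ r` if
`T^(2d) 16 M² ≤ q'`.
-/

set_option autoImplicit false

namespace Pool.Agent.Lib.MP_e426f4_ag.DH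

open Finset
open Pool.Agent.Lib.MP_e426f4_ag.DG

/-- the reduced determinant -/
private def EB (d t1 t1' t t' μ μ' a a' : ℕ) : ℤ :=
  ((t1 * μ : ℕ) : ℤ) ^ d * ((t' * a' : ℕ) : ℤ) ^ d - ((t1' * μ' : ℕ) : ℤ) ^ d * ((t * a : ℕ) : ℤ) ^ d

private theorem DB_eq (d t1 t1' t t' μ μ' a a' l : ℕ) : ((t1 * μ : ℕ) : ℤ) ^ d *
      ((t' * (a' * l) : ℕ) : ℤ) ^ d - ((t1' * μ' : ℕ) : ℤ) ^ d * ((t * (a * l) : ℕ) : ℤ) ^ d =
      (l : ℤ) ^ d * EB d t1 t1' t t' μ μ' a a' := by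
  unfold EB
  push_cast
  ring

private theorem ndvd {a T M t : ℕ} (h0 : 1 ≤ t) (h1 : t ≤ T) (h2 : T < M) (h3 : M < a) : ¬ a ∣ t := fun h =>
  absurd (Nat.le_of_dvd h0 h) (by omega)

private theorem nd_mul {a x y z w d : ℕ} (ha : a.Prime) (hx : ¬ a ∣ x) (hy : ¬ a ∣ y) (hz : ¬ a ∣ z)
    (hw : ¬ a ∣ w) : ¬ (a : ℤ) ∣ ((x * y : ℕ) : ℤ) ^ d * ((z * w : ℕ) : ℤ) ^ d := by
  intro h
  have h1 : a ∣ (x * y) ^ d * (z * w) ^ d := by exact_mod_cast h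
  rcases ha.dvd_mul.1 h1 with h2 | h2
  · rcases ha.dvd_mul.1 (ha.dvd_of_dvd_pow h2) with h3 | h3
    · exact hx h3
    · exact hy h3
  · rcases ha.dvd_mul.1 (ha.dvd_of_dvd_pow h2) with h3 | h3
    · exact hz h3
    · exact hw h3

private theorem fib (d T M r q : ℕ) (hd : 1 ≤ d) (hq : 1 ≤ q) (hr1 : 1 ≤ r)
    (hρ : ∀ k, k ∣ q → rho d k ≤ r) (hTM : T < M) (t1 t1' t t' : ℕ)
    (ht : 1 ≤ t1 ∧ t1 ≤ T ∧ 1 ≤ t1' ∧ t1' ≤ T ∧ 1 ≤ t ∧ t ≤ T ∧ 1 ≤ t' ∧ t' ≤ T)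
    (μ μ' : ℕ) (hμ : Nat.Coprime q μ)
    (Q : Finset ℕ) (hQ : ∀ a ∈ Q, a.Prime ∧ M < a ∧ a ≤ 4 * M ∧ ¬ a ∣ μ ∧ ¬ a ∣ μ')
    (hbig : T ^ (2 * d) * (16 * M ^ 2) ≤ q) :
    ((Q ×ˢ Q).filter fun z => z.1 ≠ z.2 ∧ (q : ℤ) ∣ EB d t1 t1' t t' μ μ' z.1 z.2).card ≤ r := by
  obtain ⟨h1, h1T, h1', h1T', h0, h0T, h0', h0T'⟩ := ht
  have key : ∀ z ∈ (Q ×ˢ Q).filter fun z => z.1 ≠ z.2 ∧ (q : ℤ) ∣ EB d t1 t1' t t' μ μ' z.1 z.2,
      (z.1.Prime ∧ M < z.1 ∧ z.1 ≤ 4 * M ∧ ¬ z.1 ∣ μ ∧ ¬ z.1 ∣ μ') ∧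
      (z.2.Prime ∧ M < z.2 ∧ z.2 ≤ 4 * M ∧ ¬ z.2 ∣ μ ∧ ¬ z.2 ∣ μ') ∧ z.1 ≠ z.2 ∧
      (q : ℤ) ∣ EB d t1 t1' t t' μ μ' z.1 z.2 := by
    intro z hz
    rw [Finset.mem_filter, Finset.mem_product] at hz
    exact ⟨hQ _ hz.1.1, hQ _ hz.1.2, hz.2.1, hz.2.2⟩
  refine pair_count d q (T ^ (2 * d)) (4 * M) r hd hq hρ hr1 _ ?_ ?_
    (((t1 * μ * t' : ℕ) : ℤ) ^ d) (((t1' * μ' * t : ℕ) : ℤ) ^ d) ?_ ?_ ?_
  · intro z hz
    obtain ⟨⟨a1, a2, a3, a4, a5⟩, ⟨b1, b2, b3, b4, b5⟩, hne, hdv⟩ := key z hz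
    have hab : ¬ z.1 ∣ z.2 := fun h => hne ((Nat.prime_dvd_prime_iff_eq a1 b1).1 h)
    have hba : ¬ z.2 ∣ z.1 := fun h => hne ((Nat.prime_dvd_prime_iff_eq b1 a1).1 h).symm
    refine ⟨a1.one_le, a3, b1.one_le, b3, ?_, ?_⟩
    · rw [Nat.Prime.coprime_iff_not_dvd a1]
      intro hzq
      have e1 : (z.1 : ℤ) ∣ EB d t1 t1' t t' μ μ' z.1 z.2 := dvd_trans (by exact_mod_cast hzq) hdv
      unfold EB at e1
      have e2 : (z.1 : ℤ) ∣ ((t1' * μ' : ℕ) : ℤ) ^ d * ((t * z.1 : ℕ) : ℤ) ^ d := by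
        refine dvd_mul_of_dvd_right (dvd_pow ?_ (by omega)) _
        push_cast
        exact dvd_mul_left _ _
      exact nd_mul a1 (ndvd h1 h1T hTM a2) a4 (ndvd h0' h0T' hTM a2) hab ((dvd_sub_left e2).1 e1)
    · rw [Nat.Prime.coprime_iff_not_dvd b1]
      intro hzq
      have e1 : (z.2 : ℤ) ∣ EB d t1 t1' t t' μ μ' z.1 z.2 := dvd_trans (by exact_mod_cast hzq) hdv
      unfold EB at e1
      have e2 : (z.2 : ℤ) ∣ ((t1 * μ : ℕ) : ℤ) ^ d * ((t' * z.2 : ℕ) : ℤ) ^ d := by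
        refine dvd_mul_of_dvd_right (dvd_pow ?_ (by omega)) _
        push_cast
        exact dvd_mul_left _ _
      exact nd_mul b1 (ndvd h1' h1T' hTM b2) b5 (ndvd h0 h0T hTM b2) hba ((dvd_sub_right e2).1 e1)
  · intro z hz w hw h
    obtain ⟨⟨a1, _⟩, ⟨b1, _⟩, hne, _⟩ := key z hz
    obtain ⟨⟨c1, _⟩, ⟨d1, _⟩, _, _⟩ := key w hw
    have e1 : z.1 ∣ z.2 * w.1 := h ▸ dvd_mul_left _ _
    rcases a1.dvd_mul.1 e1 with e2 | e2
    · exact absurd ((Nat.prime_dvd_prime_iff_eq a1 b1).1 e2) hne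
    · have e3 : z.1 = w.1 := (Nat.prime_dvd_prime_iff_eq a1 c1).1 e2
      rw [e3] at h
      exact Prod.ext e3 (Nat.eq_of_mul_eq_mul_right c1.pos h)
  · have e1 : Int.gcd (q : ℤ) (((t1 * μ * t' : ℕ) : ℤ) ^ d) = Nat.gcd q ((t1 * μ * t') ^ d) := by
      rw [← Nat.cast_pow]
      exact Int.gcd_natCast_natCast _ _
    rw [e1]
    have e2 : (t1 * μ * t') ^ d = (t1 * t') ^ d * μ ^ d := by ring
    rw [e2, Nat.Coprime.gcd_mul_right_cancel_right _ (hμ.pow_right d).symm]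
    have e3 : 0 < (t1 * t') ^ d := by positivity
    calc Nat.gcd q ((t1 * t') ^ d) ≤ (t1 * t') ^ d := Nat.gcd_le_right _ e3
      _ ≤ (T * T) ^ d := Nat.pow_le_pow_left (Nat.mul_le_mul h1T h0T') d
      _ = T ^ (2 * d) := by rw [pow_mul, sq]
  · calc T ^ (2 * d) * (4 * M) ^ 2 = T ^ (2 * d) * (16 * M ^ 2) := by ring
      _ ≤ q := hbig
  · intro z hz
    obtain ⟨_, _, _, hdv⟩ := key z hz
    have e1 : ((t1 * μ * t' : ℕ) : ℤ) ^ d * (z.2 : ℤ) ^ d - ((t1' * μ' * t : ℕ) : ℤ) ^ d * (z.1 : ℤ) ^ d =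
        EB d t1 t1' t t' μ μ' z.1 z.2 := by
      unfold EB
      push_cast
      ring
    rw [e1]
    exact hdv

private theorem EB_ne (d T M : ℕ) (hd : 1 ≤ d) (hTM : T < M) (t1 t1' t t' : ℕ)
    (ht : 1 ≤ t1 ∧ t1 ≤ T ∧ 1 ≤ t1' ∧ t1' ≤ T ∧ 1 ≤ t ∧ t ≤ T ∧ 1 ≤ t' ∧ t' ≤ T)
    (μ μ' a a' : ℕ) (ha : a.Prime ∧ M < a ∧ a ≤ 4 * M ∧ ¬ a ∣ μ ∧ ¬ a ∣ μ') (ha' : a'.Prime) (hne : a ≠ a') :
    EB d t1 t1' t t' μ μ' a a' ≠ 0 := by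
  obtain ⟨h1, h1T, h1', h1T', h0, h0T, h0', h0T'⟩ := ht
  obtain ⟨a1, a2, a3, a4, a5⟩ := ha
  intro h
  have hab : ¬ a ∣ a' := fun h => hne ((Nat.prime_dvd_prime_iff_eq a1 ha').1 h)
  have e1 : (a : ℤ) ∣ EB d t1 t1' t t' μ μ' a a' := by
    rw [h]
    exact dvd_zero _
  unfold EB at e1
  have e2 : (a : ℤ) ∣ ((t1' * μ' : ℕ) : ℤ) ^ d * ((t * a : ℕ) : ℤ) ^ d := by
    refine dvd_mul_of_dvd_right (dvd_pow ?_ (by omega)) _
    push_cast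
    exact dvd_mul_left _ _
  exact nd_mul a1 (ndvd h1 h1T hTM a2) a4 (ndvd h0' h0T' hTM a2) hab ((dvd_sub_left e2).1 e1)

private theorem EB_le (d T M U t1 t1' t t' μ μ' a a' : ℕ)
    (ht : 1 ≤ t1 ∧ t1 ≤ T ∧ 1 ≤ t1' ∧ t1' ≤ T ∧ 1 ≤ t ∧ t ≤ T ∧ 1 ≤ t' ∧ t' ≤ T)
    (hU : t1 * μ ≤ U ∧ t1' * μ' ≤ U) (ha : a ≤ 4 * M) (ha' : a' ≤ 4 * M) :
    |EB d t1 t1' t t' μ μ' a a'| ≤ ((U ^ d * (4 * (T * M)) ^ d : ℕ) : ℤ) := by
  obtain ⟨h1, h1T, h1', h1T', h0, h0T, h0', h0T'⟩ := ht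
  have e1 : (t1 * μ) ^ d * (t' * a') ^ d ≤ U ^ d * (4 * (T * M)) ^ d := by
    refine Nat.mul_le_mul (Nat.pow_le_pow_left hU.1 d) (Nat.pow_le_pow_left ?_ d)
    calc t' * a' ≤ T * (4 * M) := Nat.mul_le_mul h0T' ha'
      _ = 4 * (T * M) := by ring
  have e2 : (t1' * μ') ^ d * (t * a) ^ d ≤ U ^ d * (4 * (T * M)) ^ d := by
    refine Nat.mul_le_mul (Nat.pow_le_pow_left hU.2 d) (Nat.pow_le_pow_left ?_ d)
    calc t * a ≤ T * (4 * M) := Nat.mul_le_mul h0T ha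
      _ = 4 * (T * M) := by ring
  have e3 : EB d t1 t1' t t' μ μ' a a' = (((t1 * μ) ^ d * (t' * a') ^ d : ℕ) : ℤ) -
      (((t1' * μ') ^ d * (t * a) ^ d : ℕ) : ℤ) := by
    unfold EB
    push_cast
    ring
  rw [e3, abs_le]
  constructor <;> omega

theorem RqB (d T M L q r U : ℕ) (hd : 1 ≤ d) (hq : 1 ≤ q) (hτ : q.divisors.card ≤ r)
    (hρ : ∀ k, k ∣ q → rho d k ≤ r) (hTM : T < M) (hML : 4 * M ≤ L) (t1 t1' t t' : ℕ)
    (ht : 1 ≤ t1 ∧ t1 ≤ T ∧ 1 ≤ t1' ∧ t1' ≤ T ∧ 1 ≤ t ∧ t ≤ T ∧ 1 ≤ t' ∧ t' ≤ T)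
    (μ μ' : ℕ) (hμ0 : 1 ≤ μ ∧ 1 ≤ μ') (hμ : Nat.Coprime q μ) (hμ' : Nat.Coprime q μ')
    (hU : t1 * μ ≤ U ∧ t1' * μ' ≤ U)
    (Q P : Finset ℕ) (hQ : ∀ a ∈ Q, a.Prime ∧ M < a ∧ a ≤ 4 * M ∧ ¬ a ∣ μ ∧ ¬ a ∣ μ')
    (hP : ∀ l ∈ P, l.Prime ∧ L < l ∧ l ≤ 4 * L)
    (hbig : T ^ (2 * d) * (16 * M ^ 2) ≤ q) :
    let N : ℕ := ((zB Q P).filter fun z => (q : ℤ) ∣ ((t1 * μ : ℕ) : ℤ) ^ d *
      ((t' * (z.2.2 * z.1) : ℕ) : ℤ) ^ d -
      ((t1' * μ' : ℕ) : ℤ) ^ d * ((t * (z.2.1 * z.1) : ℕ) : ℤ) ^ d).card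
    N ≤ r * Q.card ^ 2 + (if q ≤ U ^ d * (4 * (T * M)) ^ d then P.card * r else 0) ∧
    (T ^ (2 * d) * (16 * M ^ 2) * (4 * L) ^ d ≤ q →
      N ≤ r ^ 2 + (if q ≤ U ^ d * (4 * (T * M)) ^ d then P.card * r else 0)) := by
  intro N
  have hr1 : 1 ≤ r := by
    have : 0 < q.divisors.card := Finset.card_pos.2 (Nat.nonempty_divisors.2 (by omega))
    omega
  -- the two parts
  set S : Finset (ℕ × (ℕ × ℕ)) := (zB Q P).filter fun z => (q : ℤ) ∣ ((t1 * μ : ℕ) : ℤ) ^ d *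
      ((t' * (z.2.2 * z.1) : ℕ) : ℤ) ^ d -
      ((t1' * μ' : ℕ) : ℤ) ^ d * ((t * (z.2.1 * z.1) : ℕ) : ℤ) ^ d with hS
  have hmem : ∀ z ∈ S, z.1 ∈ P ∧ z.2.1 ∈ Q ∧ z.2.2 ∈ Q ∧ z.2.1 ≠ z.2.2 ∧
      (q : ℤ) ∣ (z.1 : ℤ) ^ d * EB d t1 t1' t t' μ μ' z.2.1 z.2.2 := by
    intro z hz
    rw [hS, Finset.mem_filter, zB, Finset.mem_filter, Finset.mem_product, Finset.mem_product, DB_eq] at hz
    exact ⟨hz.1.1.1, hz.1.1.2.1, hz.1.1.2.2, hz.1.2, hz.2⟩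
  have hN : N = (S.filter fun z => z.1 ∣ q).card + (S.filter fun z => ¬ z.1 ∣ q).card :=
    (Finset.card_filter_add_card_filter_not (fun z : ℕ × (ℕ × ℕ) => z.1 ∣ q)).symm
  -- the primes which do not divide q
  have hA : (S.filter fun z => ¬ z.1 ∣ q).card ≤ if q ≤ U ^ d * (4 * (T * M)) ^ d then P.card * r else 0 := by
    have hdv : ∀ z ∈ S.filter fun z => ¬ z.1 ∣ q, z.1 ∈ P ∧ z.2.1 ∈ Q ∧ z.2.2 ∈ Q ∧ z.2.1 ≠ z.2.2 ∧
        (q : ℤ) ∣ EB d t1 t1' t t' μ μ' z.2.1 z.2.2 := by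
      intro z hz
      rw [Finset.mem_filter] at hz
      obtain ⟨k1, k2, k3, k4, k5⟩ := hmem z hz.1
      refine ⟨k1, k2, k3, k4, ?_⟩
      have hc : IsCoprime (q : ℤ) ((z.1 : ℤ) ^ d) := by
        refine IsCoprime.pow_right ?_
        rw [Nat.isCoprime_iff_coprime]
        exact ((Nat.Prime.coprime_iff_not_dvd (hP _ k1).1).2 hz.2).symm
      exact hc.dvd_of_dvd_mul_left k5
    split_ifs with hq1
    · have hsub : (S.filter fun z => ¬ z.1 ∣ q) ⊆ P ×ˢ ((Q ×ˢ Q).filter fun z => z.1 ≠ z.2 ∧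
          (q : ℤ) ∣ EB d t1 t1' t t' μ μ' z.1 z.2) := by
        intro z hz
        obtain ⟨k1, k2, k3, k4, k5⟩ := hdv z hz
        rw [Finset.mem_product, Finset.mem_filter, Finset.mem_product]
        exact ⟨k1, ⟨k2, k3⟩, k4, k5⟩
      refine (Finset.card_le_card hsub).trans ?_
      rw [Finset.card_product]
      exact Nat.mul_le_mul_left _ (fib d T M r q hd hq hr1 hρ hTM t1 t1' t t' ht μ μ' hμ Q hQ hbig)
    · rw [Nat.le_zero, Finset.card_eq_zero, Finset.eq_empty_iff_forall_notMem]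
      intro z hz
      obtain ⟨k1, k2, k3, k4, k5⟩ := hdv z hz
      have e1 := EB_ne d T M hd hTM t1 t1' t t' ht μ μ' z.2.1 z.2.2 (hQ _ k2) (hQ _ k3).1 k4
      have e2 := EB_le d T M U t1 t1' t t' μ μ' z.2.1 z.2.2 ht hU (hQ _ k2).2.2.1 (hQ _ k3).2.2.1
      have e3 : (q : ℤ) ≤ |EB d t1 t1' t t' μ μ' z.2.1 z.2.2| :=
        Int.le_of_dvd (abs_pos.2 e1) ((dvd_abs _ _).2 k5)
      exact hq1 (by exact_mod_cast e3.trans e2)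
  -- the primes which divide q
  have hPq : (P.filter fun l => l ∣ q).card ≤ r := by
    refine (Finset.card_le_card ?_).trans hτ
    intro l hl
    rw [Nat.mem_divisors]
    exact ⟨(Finset.mem_filter.1 hl).2, by omega⟩
  refine ⟨?_, ?_⟩
  · rw [hN]
    refine Nat.add_le_add ?_ hA
    have hsub : (S.filter fun z => z.1 ∣ q) ⊆ (P.filter fun l => l ∣ q) ×ˢ (Q ×ˢ Q) := by
      intro z hz
      rw [Finset.mem_filter] at hz
      obtain ⟨k1, k2, k3, k4, k5⟩ := hmem z hz.1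
      rw [Finset.mem_product, Finset.mem_filter, Finset.mem_product]
      exact ⟨⟨k1, hz.2⟩, k2, k3⟩
    refine (Finset.card_le_card hsub).trans ?_
    rw [Finset.card_product, Finset.card_product, sq]
    exact Nat.mul_le_mul_right _ hPq
  · intro hbig2
    rw [hN]
    refine Nat.add_le_add ?_ hA
    have h1 : (S.filter fun z => z.1 ∣ q).card ≤ r * (P.filter fun l => l ∣ q).card := by
      refine Finset.card_le_mul_card_image_of_maps_to (f := fun z : ℕ × (ℕ × ℕ) => z.1) ?_ r ?_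
      · intro z hz
        rw [Finset.mem_filter] at hz
        obtain ⟨k1, _⟩ := hmem z hz.1
        rw [Finset.mem_filter]
        exact ⟨k1, hz.2⟩
      · intro l hl
        rw [Finset.mem_filter] at hl
        obtain ⟨l1, l2, l3⟩ := hP l hl.1
        set g := Nat.gcd q (l ^ d) with hg
        have hg0 : 0 < g := Nat.gcd_pos_of_pos_left _ hq
        obtain ⟨q', hq'⟩ : g ∣ q := Nat.gcd_dvd_left _ _
        have hq'0 : 1 ≤ q' := by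
          rcases Nat.eq_zero_or_pos q' with h | h
          · rw [h, mul_zero] at hq'
            omega
          · exact h
        have hq'q : q' ∣ q := ⟨g, by rw [mul_comm]; exact hq'⟩
        have hgl : g ≤ (4 * L) ^ d := (Nat.gcd_le_right _ (pow_pos l1.pos d)).trans (Nat.pow_le_pow_left l3 d)
        have hbig' : T ^ (2 * d) * (16 * M ^ 2) ≤ q' := by
          refine Nat.le_of_mul_le_mul_right ?_ hg0
          calc T ^ (2 * d) * (16 * M ^ 2) * g ≤ T ^ (2 * d) * (16 * M ^ 2) * (4 * L) ^ d :=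
                Nat.mul_le_mul_left _ hgl
            _ ≤ q := hbig2
            _ = q' * g := by rw [mul_comm]; exact hq'
        refine le_trans ?_ (fib d T M r q' hd hq'0 hr1 (fun k hk => hρ k (hk.trans hq'q)) hTM t1 t1' t t' ht μ μ'
          (Nat.Coprime.coprime_dvd_left hq'q hμ) Q hQ hbig')
        refine Finset.card_le_card_of_injOn (fun z => z.2) ?_ ?_
        · intro z hz
          rw [Finset.mem_coe, Finset.mem_filter, Finset.mem_filter] at hz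
          obtain ⟨⟨hz1, hz2⟩, hz3⟩ := hz
          obtain ⟨k1, k2, k3, k4, k5⟩ := hmem z hz1
          rw [Finset.mem_coe, Finset.mem_filter, Finset.mem_product]
          refine ⟨⟨k2, k3⟩, k4, ?_⟩
          rw [hz3] at k5
          have k6 : Nat.Coprime q' (l ^ d / g) := by
            have := Nat.coprime_div_gcd_div_gcd (m := q) (n := l ^ d) hg0
            rwa [← hg, Nat.div_eq_of_eq_mul_right hg0 hq'] at this
          obtain ⟨c, hc⟩ : g ∣ l ^ d := Nat.gcd_dvd_right _ _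
          rw [Nat.div_eq_of_eq_mul_right hg0 hc] at k6
          have k7 : (g : ℤ) * (q' : ℤ) ∣ (g : ℤ) * ((c : ℤ) * EB d t1 t1' t t' μ μ' z.2.1 z.2.2) := by
            have e1 : (g : ℤ) * (q' : ℤ) = (q : ℤ) := by exact_mod_cast hq'.symm
            have e2 : (l : ℤ) ^ d = (g : ℤ) * (c : ℤ) := by exact_mod_cast hc
            rw [e1, ← mul_assoc, ← e2]
            exact k5
          have k8 := (mul_dvd_mul_iff_left (by exact_mod_cast hg0.ne' : (g : ℤ) ≠ 0)).1 k7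
          exact (Nat.isCoprime_iff_coprime.2 k6).dvd_of_dvd_mul_left k8
        · intro z hz w hw h
          rw [Finset.mem_coe, Finset.mem_filter] at hz hw
          exact Prod.ext (hz.2.trans hw.2.symm) h
    calc (S.filter fun z => z.1 ∣ q).card ≤ r * (P.filter fun l => l ∣ q).card := h1
      _ ≤ r * r := Nat.mul_le_mul_left _ hPq
      _ = r ^ 2 := by ring

end Pool.Agent.Lib.MP_e426f4_ag.DH
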