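import Pool.Agent.Lib.MP_e426f4_ag.DH.RqA
import Pool.Agent.Lib.MP_e426f4_ag.DH.InvA

/-!
# SumA: the main sum for type A

`k = g+5`, `k-2 = g+3`.  For `z1 = ((a1,l1),(a1',l1'))`: `eL (t 0) z1 = t 0 · μ`, `eR (t' 0) z1 = t' 0 · μ'` with `μ = l1` or `a1 l1`; if `q ∣ DA` (first two indices) then
`q` is coprime to `μ, μ'`: a prime `l1 ∣ q` divides `eL` and `DA`, hence `eR · t1.. a2 l2`: impossible; similarly `l1'`, and `a1, a1'` if `a1 ≠ a1'`.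
`R_q(j) := #{z ∈ zA (QS (f (j+2))) (PS ..) : q ∣ DA ..}`.  `Q0 = T^(2d) 256 (ML)² (4M)^d`, `U = S.uA z1` (`BB = 4 T L`, `B = 16 T M L`).
`q < Q0`: `R_q(j) ≤ |zA| ≤ (|QS||PS|)² ≤ (ML)²`.  `q ≥ Q0`: `R_q ≤ 2R² + [q ≤ U^d BB^d] M R ≤ 3R² (1 + [q ≤ U^d BB^d] M)`, so
`∏_j R_q(j) ≤ (3R²)^(g+3) 2^(g+3) (1 + [q ≤ U^d BB^d] M^(g+3))`.
Total `≤ R Q0 (ML)^(2(g+3)) ∑∑ 1/|D| + (6R²)^(g+3) R (ML)^4 + (6R²)^(g+3) R M^(g+3) ∑∑ U^d BB^d/|D|` (number of divisors of `D` at most `R`: `|D| ≤ B^(2d)`... `≤ B^(8d)`; `q ≤ |D|`).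
By `inv_A`: the first is `≤ C R² T^(2d) M^(2d) (ML)^(2(g+3)+4)/(V^d)^(2d-2) ≤ C R^(..)`: exponent of `V`: `2d(g+1) + d(2g+10) - d(2d-2) = 2d(2g+7-d) ≤ 0` (`ML ≤ V^d`);
the third is `≤ C R^(..) M^(g+3-d) V^(2d) (ML)² ≤ C R^(..) B^4` (`g+3 ≤ d`); `(ML)^4 ≤ B^4`.
-/

set_option autoImplicit false

namespace Pool.Agent.Lib.MP_e426f4_ag.DH

open Finset
open Pool.Agent.Lib.MP_e426f4_ag.DG


private def muL (z : (ℕ × ℕ) × (ℕ × ℕ)) : ℕ :=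
  if z.1.1 = z.2.1 then z.1.2 else z.1.1 * z.1.2

private def muR (z : (ℕ × ℕ) × (ℕ × ℕ)) : ℕ :=
  if z.1.1 = z.2.1 then z.2.2 else z.2.1 * z.2.2

private theorem eL_eq (t : ℕ) (z : (ℕ × ℕ) × (ℕ × ℕ)) : eL t z = t * muL z := by
  unfold eL muL
  split_ifs <;> rfl

private theorem eR_eq (t : ℕ) (z : (ℕ × ℕ) × (ℕ × ℕ)) : eR t z = t * muR z := by
  unfold eR muR
  split_ifs <;> rfl

private theorem muL_dvd (z : (ℕ × ℕ) × (ℕ × ℕ)) : muL z ∣ z.1.1 * z.1.2 := by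
  unfold muL
  split_ifs
  · exact Dvd.intro_left _ rfl
  · exact dvd_rfl

private theorem muR_dvd (z : (ℕ × ℕ) × (ℕ × ℕ)) : muR z ∣ z.2.1 * z.2.2 := by
  unfold muR
  split_ifs
  · exact Dvd.intro_left _ rfl
  · exact dvd_rfl

private theorem zA_mem {Q P : Finset ℕ} {z : (ℕ × ℕ) × (ℕ × ℕ)} (h : z ∈ zA Q P) :
    z.1.1 ∈ Q ∧ z.1.2 ∈ P ∧ z.2.1 ∈ Q ∧ z.2.2 ∈ P ∧ z.1.2 ≠ z.2.2 := by
  unfold zA at h
  rw [mem_filter, mem_product, mem_product, mem_product] at h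
  exact ⟨h.1.1.1, h.1.1.2, h.1.2.1, h.1.2.2, h.2⟩

private theorem zA_card (Q P : Finset ℕ) : (zA Q P).card ≤ (Q.card * P.card) ^ 2 := by
  unfold zA
  refine (card_filter_le _ _).trans ?_
  rw [card_product, card_product, pow_two]

private theorem sizes {d g h s m v E : ℕ} (S : St d g h s m v E) :
    1 ≤ S.T ∧ S.T < S.M ∧ 1 ≤ S.M ∧ 4 * S.M < S.L := by
  have hd : 1 ≤ d := S.nums.1
  have hT := S.T_pos
  have hM := S.M_pos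
  have hR := S.R_pos
  have h1 := S.M_big
  have h2 := S.L_big
  have hR8 : 1 ≤ S.R ^ (8 * d) := Nat.one_le_pow _ _ hR
  have hT8 : 1 ≤ S.T ^ (8 * d) := Nat.one_le_pow _ _ hT
  have hTT : S.T ≤ S.T ^ (8 * d) := Nat.le_self_pow (by omega) _
  refine ⟨hT, ?_, hM, ?_⟩
  · have h3 : 16 * S.T ≤ 16 * S.T ^ (8 * d) * S.R ^ (8 * d) := by
      calc 16 * S.T ≤ 16 * S.T ^ (8 * d) := Nat.mul_le_mul_left _ hTT
        _ ≤ 16 * S.T ^ (8 * d) * S.R ^ (8 * d) := Nat.le_mul_of_pos_right _ hR8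
    omega
  · have h3 : 16 * S.M ≤ 16 * S.M ^ 2 * (S.T ^ (8 * d) * S.R ^ (8 * d)) := by
      calc 16 * S.M ≤ 16 * S.M ^ 2 := Nat.mul_le_mul_left _ (Nat.le_self_pow (by omega) _)
        _ ≤ 16 * S.M ^ 2 * (S.T ^ (8 * d) * S.R ^ (8 * d)) :=
          Nat.le_mul_of_pos_right _ (Nat.mul_pos hT8 hR8)
    omega

/-- a prime dividing one of the products -/
private theorem pr_muL {d g h s m v E : ℕ} (S : St d g h s m v E) {i : Fin s}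
    {z : (ℕ × ℕ) × (ℕ × ℕ)} (hz : z ∈ zA (S.QS i) (S.PS i)) {p : ℕ} (hp : p.Prime)
    (h : p ∣ muL z) : p = z.1.2 ∨ (z.1.1 ≠ z.2.1 ∧ p = z.1.1) := by
  obtain ⟨h1, h2, h3, h4, h5⟩ := zA_mem hz
  have a1 : z.1.1.Prime := (S.hQS i _ h1).1
  have a2 : z.1.2.Prime := (S.hPS i _ h2).1
  unfold muL at h
  split_ifs at h with hc
  · exact Or.inl ((Nat.prime_dvd_prime_iff_eq hp a2).1 h)
  · rcases (Nat.Prime.dvd_mul hp).1 h with h | h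
    · exact Or.inr ⟨hc, (Nat.prime_dvd_prime_iff_eq hp a1).1 h⟩
    · exact Or.inl ((Nat.prime_dvd_prime_iff_eq hp a2).1 h)

private theorem pr_muR {d g h s m v E : ℕ} (S : St d g h s m v E) {i : Fin s}
    {z : (ℕ × ℕ) × (ℕ × ℕ)} (hz : z ∈ zA (S.QS i) (S.PS i)) {p : ℕ} (hp : p.Prime)
    (h : p ∣ muR z) : p = z.2.2 ∨ (z.1.1 ≠ z.2.1 ∧ p = z.2.1) := by
  obtain ⟨h1, h2, h3, h4, h5⟩ := zA_mem hz
  have a1 : z.2.1.Prime := (S.hQS i _ h3).1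
  have a2 : z.2.2.Prime := (S.hPS i _ h4).1
  unfold muR at h
  split_ifs at h with hc
  · exact Or.inl ((Nat.prime_dvd_prime_iff_eq hp a2).1 h)
  · rcases (Nat.Prime.dvd_mul hp).1 h with h | h
    · exact Or.inr ⟨hc, (Nat.prime_dvd_prime_iff_eq hp a1).1 h⟩
    · exact Or.inl ((Nat.prime_dvd_prime_iff_eq hp a2).1 h)

private theorem dvd_other {p d a b c e : ℕ} (hp : p.Prime) (hd : 1 ≤ d)
    (h : (p : ℤ) ∣ (a : ℤ) ^ d * (b : ℤ) ^ d - (c : ℤ) ^ d * (e : ℤ) ^ d) :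
    (p ∣ a → p ∣ c ∨ p ∣ e) ∧ (p ∣ c → p ∣ a ∨ p ∣ b) := by
  have key : ∀ x y : ℕ, (p : ℤ) ∣ (x : ℤ) ^ d * (y : ℤ) ^ d → p ∣ x ∨ p ∣ y := by
    intro x y hxy
    have h1 : p ∣ x ^ d * y ^ d := by exact_mod_cast hxy
    rcases (Nat.Prime.dvd_mul hp).1 h1 with h2 | h2
    · exact Or.inl (hp.dvd_of_dvd_pow h2)
    · exact Or.inr (hp.dvd_of_dvd_pow h2)
  constructor
  · intro ha
    apply key
    have h1 : (p : ℤ) ∣ (a : ℤ) ^ d * (b : ℤ) ^ d :=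
      Dvd.dvd.mul_right (dvd_pow (by exact_mod_cast ha) (by omega)) _
    have := dvd_sub h1 h
    simpa using this
  · intro hc
    apply key
    have h1 : (p : ℤ) ∣ (c : ℤ) ^ d * (e : ℤ) ^ d :=
      Dvd.dvd.mul_right (dvd_pow (by exact_mod_cast hc) (by omega)) _
    have := dvd_add h h1
    simpa using this

private theorem cop {d g h s m v E : ℕ} (S : St d g h s m v E) {i j : Fin s} (hij : i ≠ j)
    {t1 t1' t t' : ℕ} (ht1 : t1 ∈ S.I) (ht1' : t1' ∈ S.I) (ht : t ∈ S.I) (ht' : t' ∈ S.I)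
    {z1 z2 : (ℕ × ℕ) × (ℕ × ℕ)} (hz1 : z1 ∈ zA (S.QS i) (S.PS i))
    (hz2 : z2 ∈ zA (S.QS j) (S.PS j)) {q : ℕ} (hq : (q : ℤ) ∣ DA d t1 t1' t t' z1 z2) :
    Nat.Coprime q (muL z1) ∧ Nat.Coprime q (muR z1) := by
  have hd : 1 ≤ d := S.nums.1
  obtain ⟨b1, b2, -⟩ := (S.I_mem t1).1 ht1
  obtain ⟨c1, c2, -⟩ := (S.I_mem t1').1 ht1'
  obtain ⟨e1, e2, -⟩ := (S.I_mem t).1 ht
  obtain ⟨f1, f2, -⟩ := (S.I_mem t').1 ht'
  obtain ⟨m1, m2, m3, m4, m5⟩ := zA_mem hz1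
  obtain ⟨n1, n2, n3, n4, n5⟩ := zA_mem hz2
  constructor
  · refine Nat.Coprime.symm (Nat.coprime_of_dvd fun p hp hpm hpq => ?_)
    have hD : (p : ℤ) ∣ DA d t1 t1' t t' z1 z2 :=
      dvd_trans (by exact_mod_cast hpq) hq
    unfold DA at hD
    have hL : p ∣ eL t1 z1 := by
      rw [eL_eq]
      exact Dvd.dvd.mul_left hpm _
    have h2 : p ∣ t1' * (z1.2.1 * z1.2.2) ∨ p ∣ t * (z2.1.1 * z2.1.2) := by
      rcases (dvd_other hp hd hD).1 hL with h | h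
      · left
        rw [eR_eq] at h
        exact h.trans (Nat.mul_dvd_mul_left _ (muR_dvd z1))
      · exact Or.inr h
    rcases pr_muL S hz1 hp hpm with h3 | ⟨h4, h3⟩
    · subst h3
      rcases h2 with h2 | h2
      · exact m5 (S.l_dvd m2 ⟨c1, c2⟩ m3 m4 h2)
      · have := S.l_dvd m2 ⟨e1, e2⟩ n1 n2 h2
        exact hij (S.PS_idx m2 (by rw [this]; exact n2))
    · subst h3
      rcases h2 with h2 | h2
      · exact h4 (S.q_dvd m1 ⟨c1, c2⟩ m3 m4 h2)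
      · have := S.q_dvd m1 ⟨e1, e2⟩ n1 n2 h2
        exact hij (S.QS_idx m1 (by rw [this]; exact n1))
  · refine Nat.Coprime.symm (Nat.coprime_of_dvd fun p hp hpm hpq => ?_)
    have hD : (p : ℤ) ∣ DA d t1 t1' t t' z1 z2 :=
      dvd_trans (by exact_mod_cast hpq) hq
    unfold DA at hD
    have hL : p ∣ eR t1' z1 := by
      rw [eR_eq]
      exact Dvd.dvd.mul_left hpm _
    have h2 : p ∣ t1 * (z1.1.1 * z1.1.2) ∨ p ∣ t' * (z2.2.1 * z2.2.2) := by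
      rcases (dvd_other hp hd hD).2 hL with h | h
      · left
        rw [eL_eq] at h
        exact h.trans (Nat.mul_dvd_mul_left _ (muL_dvd z1))
      · exact Or.inr h
    rcases pr_muR S hz1 hp hpm with h3 | ⟨h4, h3⟩
    · subst h3
      rcases h2 with h2 | h2
      · exact m5 (S.l_dvd m4 ⟨b1, b2⟩ m1 m2 h2).symm
      · have := S.l_dvd m4 ⟨f1, f2⟩ n3 n4 h2
        exact hij (S.PS_idx m4 (by rw [this]; exact n4))
    · subst h3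
      rcases h2 with h2 | h2
      · exact h4 (S.q_dvd m3 ⟨b1, b2⟩ m1 m2 h2).symm
      · have := S.q_dvd m3 ⟨f1, f2⟩ n3 n4 h2
        exact hij (S.QS_idx m3 (by rw [this]; exact n3))

private theorem BB_le_B {d g h s m v E : ℕ} (S : St d g h s m v E) : S.BB ≤ S.B := by
  rw [S.B_eq_BB]
  have := S.M_pos
  nlinarith [S.BB_pos]

private theorem uA_le {d g h s m v E : ℕ} (S : St d g h s m v E) (z : (ℕ × ℕ) × (ℕ × ℕ)) :
    S.uA z ≤ S.B := by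
  unfold St.uA
  split_ifs
  · exact BB_le_B S
  · exact le_rfl

private theorem e_le {d g h s m v E : ℕ} (S : St d g h s m v E) {i : Fin s} {t : ℕ} (ht : t ∈ S.I)
    {z : (ℕ × ℕ) × (ℕ × ℕ)} (hz : z ∈ zA (S.QS i) (S.PS i)) :
    eL t z ≤ S.uA z ∧ eR t z ≤ S.uA z := by
  obtain ⟨m1, m2, m3, m4, m5⟩ := zA_mem hz
  unfold eL eR St.uA
  split_ifs
  · exact ⟨(S.Y_bounds i _ ((S.Y_mem i _).2 ⟨t, _, ht, m2, rfl⟩)).2.1,
      (S.Y_bounds i _ ((S.Y_mem i _).2 ⟨t, _, ht, m4, rfl⟩)).2.1⟩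
  · exact ⟨(S.X_bounds i _ ((S.X_mem i _).2 ⟨t, _, _, ht, m1, m2, rfl⟩)).2.1,
      (S.X_bounds i _ ((S.X_mem i _).2 ⟨t, _, _, ht, m3, m4, rfl⟩)).2.1⟩

private theorem D_le {d g h s m v E : ℕ} (S : St d g h s m v E) {i j : Fin s}
    {t1 t1' t t' : ℕ} (ht1 : t1 ∈ S.I) (ht1' : t1' ∈ S.I) (ht : t ∈ S.I) (ht' : t' ∈ S.I)
    {z1 z2 : (ℕ × ℕ) × (ℕ × ℕ)} (hz1 : z1 ∈ zA (S.QS i) (S.PS i))
    (hz2 : z2 ∈ zA (S.QS j) (S.PS j)) :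
    (DA d t1 t1' t t' z1 z2).natAbs ≤ S.B ^ (8 * d) := by
  obtain ⟨n1, n2, n3, n4, n5⟩ := zA_mem hz2
  have h1 : eL t1 z1 ≤ S.B := (e_le S ht1 hz1).1.trans (uA_le S z1)
  have h2 : eR t1' z1 ≤ S.B := (e_le S ht1' hz1).2.trans (uA_le S z1)
  have h3 : t' * (z2.2.1 * z2.2.2) ≤ S.B :=
    (S.X_bounds j _ ((S.X_mem j _).2 ⟨t', _, _, ht', n3, n4, rfl⟩)).2.1
  have h4 : t * (z2.1.1 * z2.1.2) ≤ S.B :=
    (S.X_bounds j _ ((S.X_mem j _).2 ⟨t, _, _, ht, n1, n2, rfl⟩)).2.1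
  have h5 : eL t1 z1 ^ d * (t' * (z2.2.1 * z2.2.2)) ^ d ≤ S.B ^ (2 * d) := by
    rw [two_mul, pow_add]
    exact Nat.mul_le_mul (Nat.pow_le_pow_left h1 _) (Nat.pow_le_pow_left h3 _)
  have h6 : eR t1' z1 ^ d * (t * (z2.1.1 * z2.1.2)) ^ d ≤ S.B ^ (2 * d) := by
    rw [two_mul, pow_add]
    exact Nat.mul_le_mul (Nat.pow_le_pow_left h2 _) (Nat.pow_le_pow_left h4 _)
  have h7 : S.B ^ (2 * d) ≤ S.B ^ (8 * d) := Nat.pow_le_pow_right S.B_pos (by omega)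
  have h8 : DA d t1 t1' t t' z1 z2 = ((eL t1 z1 ^ d * (t' * (z2.2.1 * z2.2.2)) ^ d : ℕ) : ℤ) -
      ((eR t1' z1 ^ d * (t * (z2.1.1 * z2.1.2)) ^ d : ℕ) : ℤ) := by
    unfold DA
    push_cast
    ring
  rw [h8]
  omega

/-- the count for one index -/
private theorem one_idx {d g h s m v E : ℕ} (S : St d g h s m v E) {i j : Fin s} (hij : i ≠ j)
    {t1 t1' t t' : ℕ} (ht1 : t1 ∈ S.I) (ht1' : t1' ∈ S.I) (ht : t ∈ S.I) (ht' : t' ∈ S.I)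
    {z1 : (ℕ × ℕ) × (ℕ × ℕ)} (hz1 : z1 ∈ zA (S.QS i) (S.PS i)) {q : ℕ} (hq1 : 1 ≤ q)
    (hqB : q ≤ S.B ^ (8 * d)) (hL : Nat.Coprime q (muL z1)) (hR : Nat.Coprime q (muR z1))
    (hbig : S.T ^ (2 * d) * (256 * (S.M * S.L) ^ 2 * (4 * S.M) ^ d) ≤ q) :
    (((zA (S.QS j) (S.PS j)).filter fun z => (q : ℤ) ∣ DA d t1 t1' t t' z1 z).card : ℝ) ≤
      2 * (S.R : ℝ) ^ 2 + (if q ≤ S.uA z1 ^ d * S.BB ^ d then (S.M : ℝ) * S.R else 0) := by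
  have hd : 1 ≤ d := S.nums.1
  obtain ⟨s1, s2, s3, s4⟩ := sizes S
  obtain ⟨b1, b2, -⟩ := (S.I_mem t1).1 ht1
  obtain ⟨c1, c2, -⟩ := (S.I_mem t1').1 ht1'
  obtain ⟨e1, e2, -⟩ := (S.I_mem t).1 ht
  obtain ⟨f1, f2, -⟩ := (S.I_mem t').1 ht'
  obtain ⟨m1, m2, m3, m4, m5⟩ := zA_mem hz1
  have p1 : z1.1.1.Prime := (S.hQS i _ m1).1
  have p2 : z1.1.2.Prime := (S.hPS i _ m2).1
  have p3 : z1.2.1.Prime := (S.hQS i _ m3).1
  have p4 : z1.2.2.Prime := (S.hPS i _ m4).1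
  have hρ : ∀ k, k ∣ q → rho d k ≤ S.R := fun k hk =>
    S.rho_le k (Nat.pos_of_dvd_of_pos hk hq1) ((Nat.le_of_dvd hq1 hk).trans hqB)
  have hμ0 : 1 ≤ muL z1 ∧ 1 ≤ muR z1 :=
    ⟨Nat.pos_of_dvd_of_pos (muL_dvd z1) (Nat.mul_pos p1.pos p2.pos),
      Nat.pos_of_dvd_of_pos (muR_dvd z1) (Nat.mul_pos p3.pos p4.pos)⟩
  have hU : t1 * muL z1 ≤ S.uA z1 ∧ t1' * muR z1 ≤ S.uA z1 := by
    rw [← eL_eq, ← eR_eq]
    exact ⟨(e_le S ht1 hz1).1, (e_le S ht1' hz1).2⟩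
  have hQ : ∀ a ∈ S.QS j, a.Prime ∧ S.M < a ∧ a ≤ 4 * S.M ∧ ¬ a ∣ muL z1 ∧ ¬ a ∣ muR z1 := by
    intro a ha
    obtain ⟨x1, x2, x3⟩ := S.hQS j a ha
    refine ⟨x1, x2, x3, fun h => ?_, fun h => ?_⟩
    · have := S.q_dvd (t' := 1) ha ⟨le_rfl, s1⟩ m1 m2 (by
        rw [one_mul]; exact h.trans (muL_dvd z1))
      exact hij (S.QS_idx m1 (by rw [← this]; exact ha))
    · have := S.q_dvd (t' := 1) ha ⟨le_rfl, s1⟩ m3 m4 (by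
        rw [one_mul]; exact h.trans (muR_dvd z1))
      exact hij (S.QS_idx m3 (by rw [← this]; exact ha))
  have hP : ∀ l ∈ S.PS j, l.Prime ∧ S.L < l ∧ l ≤ 4 * S.L ∧ ¬ l ∣ muL z1 ∧ ¬ l ∣ muR z1 := by
    intro l hl
    obtain ⟨x1, x2, x3⟩ := S.hPS j l hl
    refine ⟨x1, x2, x3, fun h => ?_, fun h => ?_⟩
    · have := S.l_dvd (t' := 1) hl ⟨le_rfl, s1⟩ m1 m2 (by
        rw [one_mul]; exact h.trans (muL_dvd z1))
      exact hij (S.PS_idx m2 (by rw [← this]; exact hl))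
    · have := S.l_dvd (t' := 1) hl ⟨le_rfl, s1⟩ m3 m4 (by
        rw [one_mul]; exact h.trans (muR_dvd z1))
      exact hij (S.PS_idx m4 (by rw [← this]; exact hl))
  have key := RqA d S.T S.M S.L q S.R (S.uA z1) hd hq1 (S.tau_le q hq1 hqB) hρ s2 s4.le
    t1 t1' t t' ⟨b1, b2, c1, c2, e1, e2, f1, f2⟩ (muL z1) (muR z1) hμ0 hL hR hU
    (S.QS j) (S.PS j) hQ hP hbig
  have hBB : 4 * (S.T * S.L) = S.BB := by
    rw [S.BB_eq, mul_comm S.T]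
  rw [hBB] at key
  have hset : ((zA (S.QS j) (S.PS j)).filter fun z => (q : ℤ) ∣ DA d t1 t1' t t' z1 z) =
      ((zA (S.QS j) (S.PS j)).filter fun z => (q : ℤ) ∣
        ((t1 * muL z1 : ℕ) : ℤ) ^ d * ((t' * (z.2.1 * z.2.2) : ℕ) : ℤ) ^ d -
        ((t1' * muR z1 : ℕ) : ℤ) ^ d * ((t * (z.1.1 * z.1.2) : ℕ) : ℤ) ^ d) := by
    refine filter_congr fun z _ => ?_
    unfold DA
    rw [eL_eq, eR_eq]
  rw [hset]
  refine le_trans (Nat.cast_le.2 key) ?_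
  have hQc : ((S.QS j).card : ℝ) ≤ S.M := by exact_mod_cast S.QS_card_le j
  have hR0 : (0 : ℝ) ≤ S.R := Nat.cast_nonneg _
  push_cast
  split_ifs with hc
  · nlinarith [mul_le_mul_of_nonneg_right hQc hR0]
  · linarith

/-- the sum over the divisors for fixed `z1`, `z2` -/
private theorem one_pair {d g h s m v E : ℕ} (S : St d g h s m v E)
    (f : Fin (g + 3 + 2) → Fin s) (hf : Function.Injective f) (t t' : Fin (g + 3 + 2) → ℕ)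
    (ht : ∀ j, t j ∈ S.I ∧ t' j ∈ S.I) (z1 z2 : (ℕ × ℕ) × (ℕ × ℕ))
    (hz1 : z1 ∈ zA (S.QS (f 0)) (S.PS (f 0))) (hz2 : z2 ∈ zA (S.QS (f 1)) (S.PS (f 1)))
    (hD0 : DA d (t 0) (t' 0) (t 1) (t' 1) z1 z2 ≠ 0) :
    ∑ q ∈ (DA d (t 0) (t' 0) (t 1) (t' 1) z1 z2).natAbs.divisors,
        (q : ℝ) / |((DA d (t 0) (t' 0) (t 1) (t' 1) z1 z2 : ℤ) : ℝ)| *
        ∏ j : Fin (g + 3), (((zA (S.QS (f j.succ.succ)) (S.PS (f j.succ.succ))).filter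
          fun z => (q : ℤ) ∣ DA d (t 0) (t' 0) (t j.succ.succ) (t' j.succ.succ) z1 z).card : ℝ) ≤
      S.R * (((S.T : ℝ) ^ (2 * d) * (256 * ((S.M : ℝ) * S.L) ^ 2 * (4 * S.M) ^ d)) *
        (((S.M : ℝ) * S.L) ^ 2) ^ (g + 3) *
        (1 / |((DA d (t 0) (t' 0) (t 1) (t' 1) z1 z2 : ℤ) : ℝ)|) + (4 * (S.R : ℝ) ^ 2) ^ (g + 3) +
        (2 * ((S.M : ℝ) * S.R)) ^ (g + 3) * (((S.uA z1 : ℝ) ^ d * (S.BB : ℝ) ^ d) /
          |((DA d (t 0) (t' 0) (t 1) (t' 1) z1 z2 : ℤ) : ℝ)|)) := by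
  obtain ⟨D, hD⟩ : ∃ D, D = DA d (t 0) (t' 0) (t 1) (t' 1) z1 z2 := ⟨_, rfl⟩
  have h01 : f 0 ≠ f 1 := fun h => by
    have := hf h
    exact absurd this (by simp)
  have hDB := D_le S (ht 0).1 (ht 0).2 (ht 1).1 (ht 1).2 hz1 hz2
  have hcop : ∀ q : ℕ, q ∣ D.natAbs → Nat.Coprime q (muL z1) ∧ Nat.Coprime q (muR z1) := by
    intro q hq
    refine cop S h01 (ht 0).1 (ht 0).2 (ht 1).1 (ht 1).2 hz1 hz2 ?_
    rw [← hD]
    exact Int.natCast_dvd.2 hq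
  rw [← hD] at hDB hD0 ⊢
  have hD1 : 1 ≤ D.natAbs := Int.natAbs_pos.2 hD0
  have hDr : |(D : ℝ)| = (D.natAbs : ℝ) := by
    rw [Nat.cast_natAbs, Int.cast_abs]
  have hDpos : 0 < |(D : ℝ)| := by
    rw [hDr]
    exact_mod_cast hD1
  obtain ⟨Q0, hQ0⟩ : ∃ Q0 : ℕ, Q0 = S.T ^ (2 * d) * (256 * (S.M * S.L) ^ 2 * (4 * S.M) ^ d) :=
    ⟨_, rfl⟩
  have hQ0r : (Q0 : ℝ) = (S.T : ℝ) ^ (2 * d) * (256 * ((S.M : ℝ) * S.L) ^ 2 * (4 * S.M) ^ d) := by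
    rw [hQ0]
    push_cast
    ring
  rw [← hQ0r]
  have hR0 : (0 : ℝ) ≤ S.R := Nat.cast_nonneg _
  have hM0 : (0 : ℝ) ≤ S.M := Nat.cast_nonneg _
  have hL0 : (0 : ℝ) ≤ S.L := Nat.cast_nonneg _
  have hterm : ∀ q ∈ D.natAbs.divisors,
      (q : ℝ) / |(D : ℝ)| *
        ∏ j : Fin (g + 3), (((zA (S.QS (f j.succ.succ)) (S.PS (f j.succ.succ))).filter
          fun z => (q : ℤ) ∣ DA d (t 0) (t' 0) (t j.succ.succ) (t' j.succ.succ) z1 z).card : ℝ) ≤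
      (Q0 : ℝ) * (((S.M : ℝ) * S.L) ^ 2) ^ (g + 3) * (1 / |(D : ℝ)|) +
        (4 * (S.R : ℝ) ^ 2) ^ (g + 3) +
        (2 * ((S.M : ℝ) * S.R)) ^ (g + 3) * (((S.uA z1 : ℝ) ^ d * (S.BB : ℝ) ^ d) / |(D : ℝ)|) := by
    intro q hq
    have hqd : q ∣ D.natAbs := Nat.dvd_of_mem_divisors hq
    have hq1 : 1 ≤ q := Nat.pos_of_dvd_of_pos hqd hD1
    have hqD : q ≤ D.natAbs := Nat.le_of_dvd hD1 hqd
    have hqB : q ≤ S.B ^ (8 * d) := hqD.trans hDB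
    have hqr : (q : ℝ) / |(D : ℝ)| ≤ 1 := by
      rw [div_le_one hDpos, hDr]
      exact_mod_cast hqD
    have hqr0 : (0 : ℝ) ≤ (q : ℝ) / |(D : ℝ)| := by positivity
    have n1 : (0 : ℝ) ≤ (Q0 : ℝ) * (((S.M : ℝ) * S.L) ^ 2) ^ (g + 3) * (1 / |(D : ℝ)|) := by
      positivity
    have n2 : (0 : ℝ) ≤ (4 * (S.R : ℝ) ^ 2) ^ (g + 3) := by positivity
    have n3 : (0 : ℝ) ≤ (2 * ((S.M : ℝ) * S.R)) ^ (g + 3) *
        (((S.uA z1 : ℝ) ^ d * (S.BB : ℝ) ^ d) / |(D : ℝ)|) := by positivity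
    by_cases hc : Q0 ≤ q
    · obtain ⟨hcL, hcR⟩ := hcop q hqd
      have hj : ∀ j : Fin (g + 3),
          (((zA (S.QS (f j.succ.succ)) (S.PS (f j.succ.succ))).filter
            fun z => (q : ℤ) ∣ DA d (t 0) (t' 0) (t j.succ.succ) (t' j.succ.succ) z1 z).card : ℝ) ≤
          2 * (S.R : ℝ) ^ 2 + (if q ≤ S.uA z1 ^ d * S.BB ^ d then (S.M : ℝ) * S.R else 0) := by
        intro j
        have hne : f 0 ≠ f j.succ.succ := fun h => by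
          have := hf h
          exact absurd this.symm (Fin.succ_ne_zero _)
        exact one_idx S hne (ht 0).1 (ht 0).2 (ht _).1 (ht _).2 hz1 hq1 hqB hcL hcR (hQ0 ▸ hc)
      have hprod := Finset.prod_le_prod (s := (univ : Finset (Fin (g + 3))))
        (fun j _ => Nat.cast_nonneg (α := ℝ) (((zA (S.QS (f j.succ.succ))
          (S.PS (f j.succ.succ))).filter fun z => (q : ℤ) ∣ DA d (t 0) (t' 0) (t j.succ.succ)
            (t' j.succ.succ) z1 z).card)) (fun j _ => hj j)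
      rw [Finset.prod_const, Finset.card_univ, Fintype.card_fin] at hprod
      refine (mul_le_mul_of_nonneg_left hprod hqr0).trans ?_
      split_ifs with hu
      · have hu' : (q : ℝ) ≤ (S.uA z1 : ℝ) ^ d * (S.BB : ℝ) ^ d := by exact_mod_cast hu
        have hqu : (q : ℝ) / |(D : ℝ)| ≤ ((S.uA z1 : ℝ) ^ d * (S.BB : ℝ) ^ d) / |(D : ℝ)| := by
          gcongr
        rcases le_total ((S.M : ℝ) * S.R) (2 * (S.R : ℝ) ^ 2) with hle | hle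
        · have h1 : (2 * (S.R : ℝ) ^ 2 + (S.M : ℝ) * S.R) ^ (g + 3) ≤
              (4 * (S.R : ℝ) ^ 2) ^ (g + 3) := by
            apply pow_le_pow_left₀ (by positivity)
            linarith
          have h2 := mul_le_mul hqr h1 (by positivity) (by norm_num : (0 : ℝ) ≤ 1)
          rw [one_mul] at h2
          linarith
        · have h1 : (2 * (S.R : ℝ) ^ 2 + (S.M : ℝ) * S.R) ^ (g + 3) ≤
              (2 * ((S.M : ℝ) * S.R)) ^ (g + 3) := by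
            apply pow_le_pow_left₀ (by positivity)
            linarith
          have h2 := mul_le_mul hqu h1 (by positivity) (by positivity)
          rw [mul_comm (((S.uA z1 : ℝ) ^ d * (S.BB : ℝ) ^ d) / |(D : ℝ)|)] at h2
          linarith
      · have h1 : (2 * (S.R : ℝ) ^ 2 + 0) ^ (g + 3) ≤ (4 * (S.R : ℝ) ^ 2) ^ (g + 3) := by
          apply pow_le_pow_left₀ (by positivity)
          nlinarith [sq_nonneg (S.R : ℝ)]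
        have h2 := mul_le_mul hqr h1 (by positivity) (by norm_num : (0 : ℝ) ≤ 1)
        rw [one_mul] at h2
        linarith
    · have hc' : (q : ℝ) ≤ Q0 := by exact_mod_cast (not_le.1 hc).le
      have hj : ∀ j : Fin (g + 3),
          (((zA (S.QS (f j.succ.succ)) (S.PS (f j.succ.succ))).filter
            fun z => (q : ℤ) ∣ DA d (t 0) (t' 0) (t j.succ.succ) (t' j.succ.succ) z1 z).card : ℝ) ≤
          ((S.M : ℝ) * S.L) ^ 2 := by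
        intro j
        have h1 := (card_filter_le (zA (S.QS (f j.succ.succ)) (S.PS (f j.succ.succ)))
          (fun z => (q : ℤ) ∣ DA d (t 0) (t' 0) (t j.succ.succ) (t' j.succ.succ) z1 z)).trans
          ((zA_card _ _).trans (Nat.pow_le_pow_left
            (Nat.mul_le_mul (S.QS_card_le _) (S.PS_card_le _)) 2))
        exact_mod_cast h1
      have hprod := Finset.prod_le_prod (s := (univ : Finset (Fin (g + 3))))
        (fun j _ => Nat.cast_nonneg (α := ℝ) (((zA (S.QS (f j.succ.succ))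
          (S.PS (f j.succ.succ))).filter fun z => (q : ℤ) ∣ DA d (t 0) (t' 0) (t j.succ.succ)
            (t' j.succ.succ) z1 z).card)) (fun j _ => hj j)
      rw [Finset.prod_const, Finset.card_univ, Fintype.card_fin] at hprod
      refine (mul_le_mul_of_nonneg_left hprod hqr0).trans ?_
      have h3 : (q : ℝ) / |(D : ℝ)| * (((S.M : ℝ) * S.L) ^ 2) ^ (g + 3) ≤
          (Q0 : ℝ) * (((S.M : ℝ) * S.L) ^ 2) ^ (g + 3) * (1 / |(D : ℝ)|) := by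
        calc (q : ℝ) / |(D : ℝ)| * (((S.M : ℝ) * S.L) ^ 2) ^ (g + 3)
            = (q : ℝ) * (((S.M : ℝ) * S.L) ^ 2) ^ (g + 3) * (1 / |(D : ℝ)|) := by ring
          _ ≤ _ := by gcongr
      linarith
  refine (Finset.sum_le_card_nsmul _ _ _ hterm).trans ?_
  rw [nsmul_eq_mul]
  have hτ : ((D.natAbs.divisors.card : ℕ) : ℝ) ≤ S.R := by
    exact_mod_cast S.tau_le D.natAbs hD1 hDB
  apply mul_le_mul_of_nonneg_right hτ
  positivity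

theorem sum_A (d g h s m v E : ℕ) : ∃ C : ℝ, 0 < C ∧ ∀ (S : St d g h s m v E)
    (f : Fin (g + 3 + 2) → Fin s), Function.Injective f → ∀ (t t' : Fin (g + 3 + 2) → ℕ),
    (∀ j, t j ∈ S.I ∧ t' j ∈ S.I) →
    ∑ z1 ∈ zA (S.QS (f 0)) (S.PS (f 0)), ∑ z2 ∈ zA (S.QS (f 1)) (S.PS (f 1)),
      ∑ q ∈ (DA d (t 0) (t' 0) (t 1) (t' 1) z1 z2).natAbs.divisors,
        (q : ℝ) / |((DA d (t 0) (t' 0) (t 1) (t' 1) z1 z2 : ℤ) : ℝ)| *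
        ∏ j : Fin (g + 3), (((zA (S.QS (f j.succ.succ)) (S.PS (f j.succ.succ))).filter
          fun z => (q : ℤ) ∣ DA d (t 0) (t' 0) (t j.succ.succ) (t' j.succ.succ) z1 z).card : ℝ) ≤
      C * (S.R : ℝ) ^ (cA d * m) * (S.B : ℝ) ^ 4 := by
  obtain ⟨C, hC, hinv⟩ := inv_A d g h s m v E
  refine ⟨C * (256 * 4 ^ d) + 4 ^ (g + 3) + C * 2 ^ (g + 3), by positivity, ?_⟩
  intro S f hf t t' ht
  have h01 : f 0 ≠ f 1 := fun h => by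
    have := hf h
    exact absurd this (by simp)
  obtain ⟨hne, hI1, hI2⟩ := hinv S (f 0) (f 1) h01 (t 0) (ht 0).1 (t' 0) (ht 0).2 (t 1) (ht 1).1
    (t' 1) (ht 1).2
  refine (Finset.sum_le_sum fun z1 hz1 => Finset.sum_le_sum fun z2 hz2 =>
    one_pair S f hf t t' ht z1 z2 hz1 hz2 (hne z1 hz1 z2 hz2)).trans ?_
  obtain ⟨F, hF⟩ : ∃ F : (ℕ × ℕ) × (ℕ × ℕ) → (ℕ × ℕ) × (ℕ × ℕ) → ℝ, F = fun z1 z2 =>
      1 / |((DA d (t 0) (t' 0) (t 1) (t' 1) z1 z2 : ℤ) : ℝ)| := ⟨_, rfl⟩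
  obtain ⟨G, hG⟩ : ∃ G : (ℕ × ℕ) × (ℕ × ℕ) → (ℕ × ℕ) × (ℕ × ℕ) → ℝ, G = fun z1 z2 =>
      ((S.uA z1 : ℝ) ^ d * (S.BB : ℝ) ^ d) /
        |((DA d (t 0) (t' 0) (t 1) (t' 1) z1 z2 : ℤ) : ℝ)| := ⟨_, rfl⟩
  obtain ⟨a, ha⟩ : ∃ a : ℝ, a = ((S.T : ℝ) ^ (2 * d) * (256 * ((S.M : ℝ) * S.L) ^ 2 *
      (4 * S.M) ^ d)) * (((S.M : ℝ) * S.L) ^ 2) ^ (g + 3) := ⟨_, rfl⟩
  obtain ⟨b, hb⟩ : ∃ b : ℝ, b = (4 * (S.R : ℝ) ^ 2) ^ (g + 3) := ⟨_, rfl⟩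
  obtain ⟨c, hc⟩ : ∃ c : ℝ, c = (2 * ((S.M : ℝ) * S.R)) ^ (g + 3) := ⟨_, rfl⟩
  obtain ⟨Z1, hZ1⟩ : ∃ Z1, Z1 = zA (S.QS (f 0)) (S.PS (f 0)) := ⟨_, rfl⟩
  obtain ⟨Z2, hZ2⟩ : ∃ Z2, Z2 = zA (S.QS (f 1)) (S.PS (f 1)) := ⟨_, rfl⟩
  have hI1' : ∑ z1 ∈ Z1, ∑ z2 ∈ Z2, F z1 z2 ≤
      C * S.R * (S.M : ℝ) ^ (d - 1) * ((S.M : ℝ) * S.L) ^ 2 / ((S.V : ℝ) ^ d) ^ (2 * (d - 1)) := by
    rw [hF, hZ1, hZ2]
    exact hI1
  have hI2' : ∑ z1 ∈ Z1, ∑ z2 ∈ Z2, G z1 z2 ≤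
      C * S.R * ((S.V : ℝ) ^ d) ^ 2 * ((S.M : ℝ) * S.L) ^ 2 / (S.M : ℝ) ^ d := by
    rw [hG, hZ1, hZ2]
    exact hI2
  have hsum : ∑ z1 ∈ Z1, ∑ z2 ∈ Z2, (S.R : ℝ) * (a * F z1 z2 + b + c * G z1 z2) =
      S.R * (a * ∑ z1 ∈ Z1, ∑ z2 ∈ Z2, F z1 z2) + S.R * ((Z1.card : ℝ) * Z2.card * b) +
        S.R * (c * ∑ z1 ∈ Z1, ∑ z2 ∈ Z2, G z1 z2) := by
    simp only [mul_add, Finset.sum_add_distrib, Finset.sum_const, nsmul_eq_mul, ← Finset.mul_sum]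
    ring
  have hgoal : ∑ z1 ∈ zA (S.QS (f 0)) (S.PS (f 0)), ∑ z2 ∈ zA (S.QS (f 1)) (S.PS (f 1)),
      (S.R * (((S.T : ℝ) ^ (2 * d) * (256 * ((S.M : ℝ) * S.L) ^ 2 * (4 * S.M) ^ d)) *
        (((S.M : ℝ) * S.L) ^ 2) ^ (g + 3) *
        (1 / |((DA d (t 0) (t' 0) (t 1) (t' 1) z1 z2 : ℤ) : ℝ)|) + (4 * (S.R : ℝ) ^ 2) ^ (g + 3) +
        (2 * ((S.M : ℝ) * S.R)) ^ (g + 3) * (((S.uA z1 : ℝ) ^ d * (S.BB : ℝ) ^ d) /
          |((DA d (t 0) (t' 0) (t 1) (t' 1) z1 z2 : ℤ) : ℝ)|)) : ℝ) =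
      ∑ z1 ∈ Z1, ∑ z2 ∈ Z2, (S.R : ℝ) * (a * F z1 z2 + b + c * G z1 z2) := by
    rw [hF, hG, ha, hb, hc, hZ1, hZ2]
  rw [hgoal, hsum]
  -- numbers
  have hdg := S.hdg
  have hh1 := S.hh1
  have hm := S.hm
  have hR1 : (1 : ℝ) ≤ S.R := by exact_mod_cast S.R_pos
  have hV1 : (1 : ℝ) ≤ S.V := by exact_mod_cast S.V_pos
  have hM1 : (1 : ℝ) ≤ S.M := by exact_mod_cast S.M_pos
  have hL1 : (1 : ℝ) ≤ S.L := by exact_mod_cast S.L_pos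
  have hT1 : (1 : ℝ) ≤ S.T := by exact_mod_cast S.T_pos
  have hMV : (S.M : ℝ) = (S.V : ℝ) ^ (g + 1) := by exact_mod_cast S.M_eq
  have hTR : (S.T : ℝ) = (S.R : ℝ) ^ m := by
    unfold St.T
    push_cast
    ring
  obtain ⟨W, hW⟩ : ∃ W : ℝ, W = (S.V : ℝ) ^ d := ⟨_, rfl⟩
  obtain ⟨x, hx⟩ : ∃ x : ℝ, x = (S.M : ℝ) * S.L := ⟨_, rfl⟩
  have hx1 : 1 ≤ x := by
    rw [hx]
    nlinarith
  have hxW : x ≤ W := by
    have h1 : (S.M : ℝ) * S.L * S.T = (S.V : ℝ) ^ d := by exact_mod_cast S.MLT_eq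
    rw [hW, ← h1, hx]
    exact le_mul_of_one_le_right (by positivity) hT1
  have hW1 : 1 ≤ W := hx1.trans hxW
  have hBW : (S.B : ℝ) = 16 * W := by
    rw [S.B_eqV, hW]
    push_cast
    ring
  have hWB : W ≤ S.B := by
    rw [hBW]
    linarith
  have hB1 : (1 : ℝ) ≤ (S.B : ℝ) ^ 4 := one_le_pow₀ (hW1.trans hWB)
  rw [← hx, ← hW] at hI1' hI2'
  rw [← hx] at ha
  have hRpow : ∀ k : ℕ, k ≤ cA d * m → (S.R : ℝ) ^ k ≤ (S.R : ℝ) ^ (cA d * m) := fun k hk =>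
    pow_le_pow_right₀ hR1 hk
  have hcA : ∀ k : ℕ, k ≤ 2 * d + 200 → k ≤ cA d * m := by
    intro k hk
    have : cA d * 1 ≤ cA d * m := Nat.mul_le_mul_left _ hm
    unfold cA at this ⊢
    omega
  obtain ⟨RR, hRR⟩ : ∃ RR : ℝ, RR = (S.R : ℝ) ^ (cA d * m) := ⟨_, rfl⟩
  have hRR1 : 1 ≤ RR := by
    rw [hRR]
    exact one_le_pow₀ hR1
  rw [← hRR]
  have hC0 := hC.le
  -- first term
  have k1 : (S.M : ℝ) ^ d * (S.M : ℝ) ^ (d - 1) * (x ^ 2 * (x ^ 2) ^ (g + 3) * x ^ 2) ≤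
      W ^ (2 * (d - 1)) := by
    have e1 : (S.M : ℝ) ^ d * (S.M : ℝ) ^ (d - 1) ≤ (S.V : ℝ) ^ ((g + 1) * (2 * d)) := by
      rw [← pow_add, hMV, ← pow_mul]
      apply pow_le_pow_right₀ hV1
      apply Nat.mul_le_mul_left
      omega
    have e2 : x ^ 2 * (x ^ 2) ^ (g + 3) * x ^ 2 ≤ (S.V : ℝ) ^ (d * (2 * g + 10)) := by
      have e3 : x ^ 2 * (x ^ 2) ^ (g + 3) * x ^ 2 = x ^ (2 * g + 10) := by ring
      rw [e3, pow_mul, ← hW]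
      exact pow_le_pow_left₀ (by linarith) hxW _
    refine (mul_le_mul e1 e2 (by positivity) (by positivity)).trans ?_
    rw [hW, ← pow_mul, ← pow_add]
    apply pow_le_pow_right₀ hV1
    have e4 : 2 * g + 1 + 1 + (2 * g + 10) ≤ 2 * (d - 1) := by omega
    calc (g + 1) * (2 * d) + d * (2 * g + 10) = d * (2 * g + 1 + 1 + (2 * g + 10)) := by ring
      _ ≤ d * (2 * (d - 1)) := Nat.mul_le_mul_left _ e4
  have hWp : (0 : ℝ) < W ^ (2 * (d - 1)) := by positivity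
  have t1 : (S.R : ℝ) * (a * ∑ z1 ∈ Z1, ∑ z2 ∈ Z2, F z1 z2) ≤
      C * (256 * 4 ^ d) * RR * (S.B : ℝ) ^ 4 := by
    have ha0 : 0 ≤ a := by rw [ha]; positivity
    calc (S.R : ℝ) * (a * ∑ z1 ∈ Z1, ∑ z2 ∈ Z2, F z1 z2)
        ≤ (S.R : ℝ) * (a * (C * S.R * (S.M : ℝ) ^ (d - 1) * x ^ 2 / W ^ (2 * (d - 1)))) := by
          gcongr
      _ = C * (256 * 4 ^ d) * ((S.R : ℝ) ^ 2 * (S.T : ℝ) ^ (2 * d)) *
          (((S.M : ℝ) ^ d * (S.M : ℝ) ^ (d - 1) * (x ^ 2 * (x ^ 2) ^ (g + 3) * x ^ 2)) /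
            W ^ (2 * (d - 1))) := by
          rw [ha, mul_pow 4 (S.M : ℝ) d]
          ring
      _ ≤ C * (256 * 4 ^ d) * ((S.R : ℝ) ^ 2 * (S.T : ℝ) ^ (2 * d)) * 1 := by
          apply mul_le_mul_of_nonneg_left _ (by positivity)
          rw [div_le_one hWp]
          exact k1
      _ ≤ C * (256 * 4 ^ d) * RR * 1 := by
          apply mul_le_mul_of_nonneg_right _ (by norm_num)
          apply mul_le_mul_of_nonneg_left _ (by positivity)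
          rw [hTR, ← pow_mul, ← pow_add, hRR]
          apply hRpow
          unfold cA
          nlinarith
      _ ≤ C * (256 * 4 ^ d) * RR * (S.B : ℝ) ^ 4 := by
          apply mul_le_mul_of_nonneg_left hB1 (by positivity)
  have t2 : (S.R : ℝ) * ((Z1.card : ℝ) * Z2.card * b) ≤ 4 ^ (g + 3) * RR * (S.B : ℝ) ^ 4 := by
    have hz : ∀ i, ((zA (S.QS i) (S.PS i)).card : ℝ) ≤ x ^ 2 := by
      intro i
      have h1 := (zA_card (S.QS i) (S.PS i)).trans (Nat.pow_le_pow_left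
            (Nat.mul_le_mul (S.QS_card_le i) (S.PS_card_le i)) 2)
      rw [hx]
      exact_mod_cast h1
    have hz1 : (Z1.card : ℝ) ≤ x ^ 2 := by rw [hZ1]; exact hz _
    have hz2 : (Z2.card : ℝ) ≤ x ^ 2 := by rw [hZ2]; exact hz _
    have hb0 : 0 ≤ b := by rw [hb]; positivity
    calc (S.R : ℝ) * ((Z1.card : ℝ) * Z2.card * b) ≤ (S.R : ℝ) * (x ^ 2 * x ^ 2 * b) := by
          gcongr
      _ = 4 ^ (g + 3) * (S.R : ℝ) ^ (2 * g + 7) * x ^ 4 := by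
          rw [hb, mul_pow]
          ring
      _ ≤ 4 ^ (g + 3) * RR * (S.B : ℝ) ^ 4 := by
          apply mul_le_mul _ (pow_le_pow_left₀ (by linarith) (hxW.trans hWB) 4) (by positivity)
            (by positivity)
          apply mul_le_mul_of_nonneg_left _ (by positivity)
          rw [hRR]
          exact hRpow _ (hcA _ (by omega))
  have t3 : (S.R : ℝ) * (c * ∑ z1 ∈ Z1, ∑ z2 ∈ Z2, G z1 z2) ≤
      C * 2 ^ (g + 3) * RR * (S.B : ℝ) ^ 4 := by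
    have hc0 : 0 ≤ c := by rw [hc]; positivity
    have hMp : (0 : ℝ) < (S.M : ℝ) ^ d := by positivity
    calc (S.R : ℝ) * (c * ∑ z1 ∈ Z1, ∑ z2 ∈ Z2, G z1 z2)
        ≤ (S.R : ℝ) * (c * (C * S.R * W ^ 2 * x ^ 2 / (S.M : ℝ) ^ d)) := by
          gcongr
      _ = C * 2 ^ (g + 3) * (S.R : ℝ) ^ (g + 5) * (W ^ 2 * x ^ 2) *
          ((S.M : ℝ) ^ (g + 3) / (S.M : ℝ) ^ d) := by
          rw [hc, mul_pow, mul_pow]
          ring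
      _ ≤ C * 2 ^ (g + 3) * (S.R : ℝ) ^ (g + 5) * (W ^ 2 * x ^ 2) * 1 := by
          apply mul_le_mul_of_nonneg_left _ (by positivity)
          rw [div_le_one hMp]
          exact pow_le_pow_right₀ hM1 (by omega)
      _ = C * 2 ^ (g + 3) * (S.R : ℝ) ^ (g + 5) * (W ^ 2 * x ^ 2) := by ring
      _ ≤ C * 2 ^ (g + 3) * RR * (S.B : ℝ) ^ 4 := by
          apply mul_le_mul
          · apply mul_le_mul_of_nonneg_left _ (by positivity)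
            rw [hRR]
            exact hRpow _ (hcA _ (by omega))
          · calc W ^ 2 * x ^ 2 ≤ (S.B : ℝ) ^ 2 * (S.B : ℝ) ^ 2 := by
                  have hxB := hxW.trans hWB
                  gcongr
              _ = (S.B : ℝ) ^ 4 := by ring
          · positivity
          · positivity
  calc (S.R : ℝ) * (a * ∑ z1 ∈ Z1, ∑ z2 ∈ Z2, F z1 z2) + S.R * ((Z1.card : ℝ) * Z2.card * b) +
        S.R * (c * ∑ z1 ∈ Z1, ∑ z2 ∈ Z2, G z1 z2)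
      ≤ C * (256 * 4 ^ d) * RR * (S.B : ℝ) ^ 4 + 4 ^ (g + 3) * RR * (S.B : ℝ) ^ 4 +
        C * 2 ^ (g + 3) * RR * (S.B : ℝ) ^ 4 := add_le_add (add_le_add t1 t2) t3
    _ = (C * (256 * 4 ^ d) + 4 ^ (g + 3) + C * 2 ^ (g + 3)) * RR * (S.B : ℝ) ^ 4 := by ring

end Pool.Agent.Lib.MP_e426f4_ag.DH
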