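import Pool.Agent.Lib.MP_e426f4_ag.DH.RqB
import Pool.Agent.Lib.MP_e426f4_ag.DH.InvB

/-!
# SumB: the main sum for type B

`K = g+3`.  `z1 = (l1,(a1,a1'))`, `μ = a1`, `μ' = a1'`, `U = 4TM`; `q ∣ DB` (first two indices) implies `q` coprime to `a1, a1'` (`a1 ∣ q` would divide
`(t1' a1')(t a2 l2)`).  `R_q(j) ≤ |zB| ≤ L M²`.  `Q1 = 16 T^(2d) M²`, `q1 = (4TM)^(2d)`, `Q2 = Q1 (4L)^d`, `q1 ≤ Q2` (`T^(..) M² ≤ L`).  `r = R`.  `I2 := ∑∑ 1/|D|` (`inv_B`).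
(a) `q < Q1`: contribution `≤ R Q1 (L M²)^K I2`.
(b) `Q1 ≤ q ≤ q1`: `R_q ≤ R M² + L R ≤ 2 R L`: `≤ R q1 (2RL)^K I2`.
(c) `Q1 ≤ q`, `q1 < q < Q2`: `R_q ≤ R M²`: `≤ R Q2 (R M²)^K I2`.
(d) `q ≥ Q2`, `q > q1`: `R_q ≤ R²`, `q/|D| ≤ 1`: `≤ R (R²)^K (L M²)²`.
With `I2 ≤ C R L^(2-d) M^(4-2d)` and `K + 2 = g+5 ≤ d`, `K+3 ≤ d`, `16 M² T.. R.. ≤ L` all are `≤ C R^(..) T^(4d) (L M)^4 ≤ C R^(cA d m) B^4`:
(a) `L^(K+2-d) M^(2K+6-2d) ≤ 1`; (b) `M^(2d) L^(K+2-d) M^(4-2d) ≤ M^4`; (c) `M² L^d M^(2K) L^(2-d) M^(4-2d) = L² M^(2K+6-2d) ≤ L²`; (d) `(L M²)² ≤ (LM)^4`.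
(It is convenient to bound `R_q(j)` in all cases and add the four bounds.)
-/

set_option autoImplicit false

namespace Pool.Agent.Lib.MP_e426f4_ag.DH

open Finset
open Pool.Agent.Lib.MP_e426f4_ag.DG


private theorem zB_mem {Q P : Finset ℕ} {z : ℕ × (ℕ × ℕ)} (h : z ∈ zB Q P) :
    z.1 ∈ P ∧ z.2.1 ∈ Q ∧ z.2.2 ∈ Q ∧ z.2.1 ≠ z.2.2 := by
  unfold zB at h
  rw [mem_filter, mem_product, mem_product] at h
  exact ⟨h.1.1, h.1.2.1, h.1.2.2, h.2⟩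

private theorem zB_card (Q P : Finset ℕ) : (zB Q P).card ≤ P.card * Q.card ^ 2 := by
  unfold zB
  refine (card_filter_le _ _).trans ?_
  rw [card_product, card_product, pow_two]

private theorem sizes {d g h s m v E : ℕ} (S : St d g h s m v E) :
    1 ≤ S.T ∧ S.T < S.M ∧ 1 ≤ S.M ∧ 4 * S.M < S.L := by
  have hd : 1 ≤ d := S.nums.1
  have hT := S.T_pos
  have hM := S.M_pos
  have hR := S.R_pos
  have h1 := S.M_big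
  have h2 := S.L_big
  have hR8 : 1 ≤ S.R ^ (8 * d) := Nat.one_le_pow _ _ hR
  have hT8 : 1 ≤ S.T ^ (8 * d) := Nat.one_le_pow _ _ hT
  have hTT : S.T ≤ S.T ^ (8 * d) := Nat.le_self_pow (by omega) _
  refine ⟨hT, ?_, hM, ?_⟩
  · have h3 : 16 * S.T ≤ 16 * S.T ^ (8 * d) * S.R ^ (8 * d) := by
      calc 16 * S.T ≤ 16 * S.T ^ (8 * d) := Nat.mul_le_mul_left _ hTT
        _ ≤ 16 * S.T ^ (8 * d) * S.R ^ (8 * d) := Nat.le_mul_of_pos_right _ hR8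
    omega
  · have h3 : 16 * S.M ≤ 16 * S.M ^ 2 * (S.T ^ (8 * d) * S.R ^ (8 * d)) := by
      calc 16 * S.M ≤ 16 * S.M ^ 2 := Nat.mul_le_mul_left _ (Nat.le_self_pow (by omega) _)
        _ ≤ 16 * S.M ^ 2 * (S.T ^ (8 * d) * S.R ^ (8 * d)) :=
          Nat.le_mul_of_pos_right _ (Nat.mul_pos hT8 hR8)
    omega

private theorem dvd_other {p d a b c e : ℕ} (hp : p.Prime) (hd : 1 ≤ d)
    (h : (p : ℤ) ∣ (a : ℤ) ^ d * (b : ℤ) ^ d - (c : ℤ) ^ d * (e : ℤ) ^ d) :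
    (p ∣ a → p ∣ c ∨ p ∣ e) ∧ (p ∣ c → p ∣ a ∨ p ∣ b) := by
  have key : ∀ x y : ℕ, (p : ℤ) ∣ (x : ℤ) ^ d * (y : ℤ) ^ d → p ∣ x ∨ p ∣ y := by
    intro x y hxy
    have h1 : p ∣ x ^ d * y ^ d := by exact_mod_cast hxy
    rcases (Nat.Prime.dvd_mul hp).1 h1 with h2 | h2
    · exact Or.inl (hp.dvd_of_dvd_pow h2)
    · exact Or.inr (hp.dvd_of_dvd_pow h2)
  constructor
  · intro ha
    apply key
    have h1 : (p : ℤ) ∣ (a : ℤ) ^ d * (b : ℤ) ^ d :=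
      Dvd.dvd.mul_right (dvd_pow (by exact_mod_cast ha) (by omega)) _
    have := dvd_sub h1 h
    simpa using this
  · intro hc
    apply key
    have h1 : (p : ℤ) ∣ (c : ℤ) ^ d * (e : ℤ) ^ d :=
      Dvd.dvd.mul_right (dvd_pow (by exact_mod_cast hc) (by omega)) _
    have := dvd_add h h1
    simpa using this

private theorem cop {d g h s m v E : ℕ} (S : St d g h s m v E) {i j : Fin s} (hij : i ≠ j)
    {t1 t1' t t' : ℕ} (ht1 : t1 ∈ S.I) (ht1' : t1' ∈ S.I) (ht : t ∈ S.I) (ht' : t' ∈ S.I)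
    {z1 z2 : ℕ × (ℕ × ℕ)} (hz1 : z1 ∈ zB (S.QS i) (S.PS i))
    (hz2 : z2 ∈ zB (S.QS j) (S.PS j)) {q : ℕ} (hq : (q : ℤ) ∣ DB d t1 t1' t t' z1 z2) :
    Nat.Coprime q z1.2.1 ∧ Nat.Coprime q z1.2.2 := by
  have hd : 1 ≤ d := S.nums.1
  obtain ⟨b1, b2, -⟩ := (S.I_mem t1).1 ht1
  obtain ⟨c1, c2, -⟩ := (S.I_mem t1').1 ht1'
  obtain ⟨e1, e2, -⟩ := (S.I_mem t).1 ht
  obtain ⟨f1, f2, -⟩ := (S.I_mem t').1 ht'
  obtain ⟨m1, m2, m3, m4⟩ := zB_mem hz1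
  obtain ⟨n1, n2, n3, n4⟩ := zB_mem hz2
  have p1 : z1.2.1.Prime := (S.hQS i _ m2).1
  have p2 : z1.2.2.Prime := (S.hQS i _ m3).1
  constructor
  · refine Nat.Coprime.symm ((Nat.Prime.coprime_iff_not_dvd p1).2 fun hpq => ?_)
    have hD : ((z1.2.1 : ℕ) : ℤ) ∣ DB d t1 t1' t t' z1 z2 :=
      dvd_trans (by exact_mod_cast hpq) hq
    unfold DB at hD
    rcases (dvd_other p1 hd hD).1 (Dvd.intro_left _ rfl) with h | h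
    · exact m4 (S.q_dvd m2 ⟨c1, c2⟩ m3 m1
        (h.trans (Nat.mul_dvd_mul_left _ (Dvd.intro _ rfl))))
    · have := S.q_dvd m2 ⟨e1, e2⟩ n2 n1 h
      exact hij (S.QS_idx m2 (by rw [this]; exact n2))
  · refine Nat.Coprime.symm ((Nat.Prime.coprime_iff_not_dvd p2).2 fun hpq => ?_)
    have hD : ((z1.2.2 : ℕ) : ℤ) ∣ DB d t1 t1' t t' z1 z2 :=
      dvd_trans (by exact_mod_cast hpq) hq
    unfold DB at hD
    rcases (dvd_other p2 hd hD).2 (Dvd.intro_left _ rfl) with h | h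
    · exact m4 (S.q_dvd m3 ⟨b1, b2⟩ m2 m1
        (h.trans (Nat.mul_dvd_mul_left _ (Dvd.intro _ rfl)))).symm
    · have := S.q_dvd m3 ⟨f1, f2⟩ n3 n1 h
      exact hij (S.QS_idx m3 (by rw [this]; exact n3))

private theorem D_le {d g h s m v E : ℕ} (S : St d g h s m v E) {i j : Fin s}
    {t1 t1' t t' : ℕ} (ht1 : t1 ∈ S.I) (ht1' : t1' ∈ S.I) (ht : t ∈ S.I) (ht' : t' ∈ S.I)
    {z1 z2 : ℕ × (ℕ × ℕ)} (hz1 : z1 ∈ zB (S.QS i) (S.PS i))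
    (hz2 : z2 ∈ zB (S.QS j) (S.PS j)) :
    (DB d t1 t1' t t' z1 z2).natAbs ≤ S.B ^ (8 * d) := by
  obtain ⟨m1, m2, m3, m4⟩ := zB_mem hz1
  obtain ⟨n1, n2, n3, n4⟩ := zB_mem hz2
  have hl : 1 ≤ z1.1 := (S.hPS i _ m1).1.pos
  have h1 : t1 * z1.2.1 ≤ S.B := by
    refine le_trans ?_ (S.X_bounds i _ ((S.X_mem i _).2 ⟨t1, _, _, ht1, m2, m1, rfl⟩)).2.1
    exact Nat.mul_le_mul_left _ (Nat.le_mul_of_pos_right _ hl)
  have h2 : t1' * z1.2.2 ≤ S.B := by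
    refine le_trans ?_ (S.X_bounds i _ ((S.X_mem i _).2 ⟨t1', _, _, ht1', m3, m1, rfl⟩)).2.1
    exact Nat.mul_le_mul_left _ (Nat.le_mul_of_pos_right _ hl)
  have h3 : t' * (z2.2.2 * z2.1) ≤ S.B :=
    (S.X_bounds j _ ((S.X_mem j _).2 ⟨t', _, _, ht', n3, n1, rfl⟩)).2.1
  have h4 : t * (z2.2.1 * z2.1) ≤ S.B :=
    (S.X_bounds j _ ((S.X_mem j _).2 ⟨t, _, _, ht, n2, n1, rfl⟩)).2.1
  have h5 : (t1 * z1.2.1) ^ d * (t' * (z2.2.2 * z2.1)) ^ d ≤ S.B ^ (2 * d) := by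
    rw [two_mul, pow_add]
    exact Nat.mul_le_mul (Nat.pow_le_pow_left h1 _) (Nat.pow_le_pow_left h3 _)
  have h6 : (t1' * z1.2.2) ^ d * (t * (z2.2.1 * z2.1)) ^ d ≤ S.B ^ (2 * d) := by
    rw [two_mul, pow_add]
    exact Nat.mul_le_mul (Nat.pow_le_pow_left h2 _) (Nat.pow_le_pow_left h4 _)
  have h7 : S.B ^ (2 * d) ≤ S.B ^ (8 * d) := Nat.pow_le_pow_right S.B_pos (by omega)
  have h8 : DB d t1 t1' t t' z1 z2 =
      (((t1 * z1.2.1) ^ d * (t' * (z2.2.2 * z2.1)) ^ d : ℕ) : ℤ) -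
      (((t1' * z1.2.2) ^ d * (t * (z2.2.1 * z2.1)) ^ d : ℕ) : ℤ) := by
    unfold DB
    push_cast
    ring
  rw [h8]
  omega

private theorem M2_le_L {d g h s m v E : ℕ} (S : St d g h s m v E) : S.M ^ 2 ≤ S.L := by
  have h1 := S.L_big
  have h2 : 1 ≤ S.T ^ (8 * d) * S.R ^ (8 * d) :=
    Nat.mul_pos (Nat.one_le_pow _ _ S.T_pos) (Nat.one_le_pow _ _ S.R_pos)
  have h3 : 16 * S.M ^ 2 ≤ 16 * S.M ^ 2 * (S.T ^ (8 * d) * S.R ^ (8 * d)) :=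
    Nat.le_mul_of_pos_right _ h2
  omega

/-- the count for one index -/
private theorem one_idx {d g h s m v E : ℕ} (S : St d g h s m v E) {i j : Fin s} (hij : i ≠ j)
    {t1 t1' t t' : ℕ} (ht1 : t1 ∈ S.I) (ht1' : t1' ∈ S.I) (ht : t ∈ S.I) (ht' : t' ∈ S.I)
    {z1 : ℕ × (ℕ × ℕ)} (hz1 : z1 ∈ zB (S.QS i) (S.PS i)) {q : ℕ} (hq1 : 1 ≤ q)
    (hqB : q ≤ S.B ^ (8 * d)) (hL : Nat.Coprime q z1.2.1) (hR : Nat.Coprime q z1.2.2)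
    (hbig : S.T ^ (2 * d) * (16 * S.M ^ 2) ≤ q) :
    (q ≤ (4 * (S.T * S.M)) ^ d * (4 * (S.T * S.M)) ^ d →
      (((zB (S.QS j) (S.PS j)).filter fun z => (q : ℤ) ∣ DB d t1 t1' t t' z1 z).card : ℝ) ≤
        2 * ((S.R : ℝ) * S.L)) ∧
    (¬ q ≤ (4 * (S.T * S.M)) ^ d * (4 * (S.T * S.M)) ^ d →
      (((zB (S.QS j) (S.PS j)).filter fun z => (q : ℤ) ∣ DB d t1 t1' t t' z1 z).card : ℝ) ≤
        (S.R : ℝ) * (S.M : ℝ) ^ 2) ∧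
    (¬ q ≤ (4 * (S.T * S.M)) ^ d * (4 * (S.T * S.M)) ^ d →
      S.T ^ (2 * d) * (16 * S.M ^ 2) * (4 * S.L) ^ d ≤ q →
      (((zB (S.QS j) (S.PS j)).filter fun z => (q : ℤ) ∣ DB d t1 t1' t t' z1 z).card : ℝ) ≤
        (S.R : ℝ) ^ 2) := by
  have hd : 1 ≤ d := S.nums.1
  obtain ⟨s1, s2, s3, s4⟩ := sizes S
  obtain ⟨b1, b2, -⟩ := (S.I_mem t1).1 ht1
  obtain ⟨c1, c2, -⟩ := (S.I_mem t1').1 ht1'
  obtain ⟨e1, e2, -⟩ := (S.I_mem t).1 ht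
  obtain ⟨f1, f2, -⟩ := (S.I_mem t').1 ht'
  obtain ⟨m1, m2, m3, m4⟩ := zB_mem hz1
  obtain ⟨p1, -, r1⟩ := S.hQS i _ m2
  obtain ⟨p2, -, r2⟩ := S.hQS i _ m3
  have hρ : ∀ k, k ∣ q → rho d k ≤ S.R := fun k hk =>
    S.rho_le k (Nat.pos_of_dvd_of_pos hk hq1) ((Nat.le_of_dvd hq1 hk).trans hqB)
  have hU : t1 * z1.2.1 ≤ 4 * (S.T * S.M) ∧ t1' * z1.2.2 ≤ 4 * (S.T * S.M) := by
    constructor
    · calc t1 * z1.2.1 ≤ S.T * (4 * S.M) := Nat.mul_le_mul b2 r1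
        _ = 4 * (S.T * S.M) := by ring
    · calc t1' * z1.2.2 ≤ S.T * (4 * S.M) := Nat.mul_le_mul c2 r2
        _ = 4 * (S.T * S.M) := by ring
  have hQ : ∀ a ∈ S.QS j, a.Prime ∧ S.M < a ∧ a ≤ 4 * S.M ∧ ¬ a ∣ z1.2.1 ∧ ¬ a ∣ z1.2.2 := by
    intro a ha
    obtain ⟨x1, x2, x3⟩ := S.hQS j a ha
    refine ⟨x1, x2, x3, fun h => ?_, fun h => ?_⟩
    · have := (Nat.prime_dvd_prime_iff_eq x1 p1).1 h
      exact hij (S.QS_idx m2 (by rw [← this]; exact ha))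
    · have := (Nat.prime_dvd_prime_iff_eq x1 p2).1 h
      exact hij (S.QS_idx m3 (by rw [← this]; exact ha))
  have hP : ∀ l ∈ S.PS j, l.Prime ∧ S.L < l ∧ l ≤ 4 * S.L := fun l hl => S.hPS j l hl
  have key := RqB d S.T S.M S.L q S.R (4 * (S.T * S.M)) hd hq1 (S.tau_le q hq1 hqB) hρ s2 s4.le
    t1 t1' t t' ⟨b1, b2, c1, c2, e1, e2, f1, f2⟩ z1.2.1 z1.2.2 ⟨p1.pos, p2.pos⟩ hL hR hU
    (S.QS j) (S.PS j) hQ hP hbig
  have hset : ((zB (S.QS j) (S.PS j)).filter fun z => (q : ℤ) ∣ DB d t1 t1' t t' z1 z) =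
      ((zB (S.QS j) (S.PS j)).filter fun z => (q : ℤ) ∣
        ((t1 * z1.2.1 : ℕ) : ℤ) ^ d * ((t' * (z.2.2 * z.1) : ℕ) : ℤ) ^ d -
        ((t1' * z1.2.2 : ℕ) : ℤ) ^ d * ((t * (z.2.1 * z.1) : ℕ) : ℤ) ^ d) := by
    refine filter_congr fun z _ => ?_
    unfold DB
    rfl
  rw [hset]
  obtain ⟨k1, k2⟩ := key
  have hQc : (S.QS j).card ^ 2 ≤ S.M ^ 2 := Nat.pow_le_pow_left (S.QS_card_le j) 2
  have hPc : (S.PS j).card ≤ S.L := S.PS_card_le j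
  have hML := M2_le_L S
  have hr1 : S.R * (S.QS j).card ^ 2 ≤ S.R * S.M ^ 2 := Nat.mul_le_mul_left _ hQc
  refine ⟨fun hc => ?_, fun hc => ?_, fun hc hc2 => ?_⟩
  · rw [if_pos hc] at k1
    have h1 : S.R * S.M ^ 2 ≤ S.R * S.L := Nat.mul_le_mul_left _ hML
    have h2 : (S.PS j).card * S.R ≤ S.R * S.L := by
      rw [Nat.mul_comm]
      exact Nat.mul_le_mul_left _ hPc
    have h3 := k1.trans (Nat.add_le_add (hr1.trans h1) h2)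
    rw [← two_mul] at h3
    exact_mod_cast h3
  · rw [if_neg hc, Nat.add_zero] at k1
    have h3 := k1.trans hr1
    exact_mod_cast h3
  · have h3 := k2 hc2
    rw [if_neg hc, Nat.add_zero] at h3
    exact_mod_cast h3

/-- the sum over the divisors for fixed `z1`, `z2` -/
private theorem one_pair {d g h s m v E : ℕ} (S : St d g h s m v E)
    (f : Fin (g + 3 + 2) → Fin s) (hf : Function.Injective f) (t t' : Fin (g + 3 + 2) → ℕ)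
    (ht : ∀ j, t j ∈ S.I ∧ t' j ∈ S.I) (z1 z2 : ℕ × (ℕ × ℕ))
    (hz1 : z1 ∈ zB (S.QS (f 0)) (S.PS (f 0))) (hz2 : z2 ∈ zB (S.QS (f 1)) (S.PS (f 1)))
    (hD0 : DB d (t 0) (t' 0) (t 1) (t' 1) z1 z2 ≠ 0) :
    ∑ q ∈ (DB d (t 0) (t' 0) (t 1) (t' 1) z1 z2).natAbs.divisors,
        (q : ℝ) / |((DB d (t 0) (t' 0) (t 1) (t' 1) z1 z2 : ℤ) : ℝ)| *
        ∏ j : Fin (g + 3), (((zB (S.QS (f j.succ.succ)) (S.PS (f j.succ.succ))).filter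
          fun z => (q : ℤ) ∣ DB d (t 0) (t' 0) (t j.succ.succ) (t' j.succ.succ) z1 z).card : ℝ) ≤
      S.R * ((((S.T : ℝ) ^ (2 * d) * (16 * (S.M : ℝ) ^ 2)) * ((S.L : ℝ) * (S.M : ℝ) ^ 2) ^ (g + 3) +
        ((4 * ((S.T : ℝ) * S.M)) ^ d * (4 * ((S.T : ℝ) * S.M)) ^ d) *
          (2 * ((S.R : ℝ) * S.L)) ^ (g + 3) +
        ((S.T : ℝ) ^ (2 * d) * (16 * (S.M : ℝ) ^ 2) * (4 * (S.L : ℝ)) ^ d) *
          ((S.R : ℝ) * (S.M : ℝ) ^ 2) ^ (g + 3)) *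
        (1 / |((DB d (t 0) (t' 0) (t 1) (t' 1) z1 z2 : ℤ) : ℝ)|) +
          ((S.R : ℝ) ^ 2) ^ (g + 3)) := by
  obtain ⟨D, hD⟩ : ∃ D, D = DB d (t 0) (t' 0) (t 1) (t' 1) z1 z2 := ⟨_, rfl⟩
  have h01 : f 0 ≠ f 1 := fun h => by
    have := hf h
    exact absurd this (by simp)
  have hDB := D_le S (ht 0).1 (ht 0).2 (ht 1).1 (ht 1).2 hz1 hz2
  have hcop : ∀ q : ℕ, q ∣ D.natAbs → Nat.Coprime q z1.2.1 ∧ Nat.Coprime q z1.2.2 := by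
    intro q hq
    refine cop S h01 (ht 0).1 (ht 0).2 (ht 1).1 (ht 1).2 hz1 hz2 ?_
    rw [← hD]
    exact Int.natCast_dvd.2 hq
  rw [← hD] at hDB hD0 ⊢
  have hD1 : 1 ≤ D.natAbs := Int.natAbs_pos.2 hD0
  have hDr : |(D : ℝ)| = (D.natAbs : ℝ) := by
    rw [Nat.cast_natAbs, Int.cast_abs]
  have hDpos : 0 < |(D : ℝ)| := by
    rw [hDr]
    exact_mod_cast hD1
  obtain ⟨Q1, hQ1⟩ : ∃ Q1 : ℕ, Q1 = S.T ^ (2 * d) * (16 * S.M ^ 2) := ⟨_, rfl⟩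
  obtain ⟨q1, hq1'⟩ : ∃ q1 : ℕ, q1 = (4 * (S.T * S.M)) ^ d * (4 * (S.T * S.M)) ^ d := ⟨_, rfl⟩
  obtain ⟨Q2, hQ2⟩ : ∃ Q2 : ℕ, Q2 = S.T ^ (2 * d) * (16 * S.M ^ 2) * (4 * S.L) ^ d := ⟨_, rfl⟩
  have hQ1r : (S.T : ℝ) ^ (2 * d) * (16 * (S.M : ℝ) ^ 2) = (Q1 : ℝ) := by
    rw [hQ1]
    push_cast
    ring
  have hq1r : (4 * ((S.T : ℝ) * S.M)) ^ d * (4 * ((S.T : ℝ) * S.M)) ^ d = (q1 : ℝ) := by
    rw [hq1']
    push_cast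
    ring
  have hQ2r : (Q1 : ℝ) * (4 * (S.L : ℝ)) ^ d = (Q2 : ℝ) := by
    rw [← hQ1r, hQ2]
    push_cast
    ring
  rw [hQ1r, hq1r, hQ2r]
  have hR0 : (0 : ℝ) ≤ S.R := Nat.cast_nonneg _
  have hM0 : (0 : ℝ) ≤ S.M := Nat.cast_nonneg _
  have hL0 : (0 : ℝ) ≤ S.L := Nat.cast_nonneg _
  have hterm : ∀ q ∈ D.natAbs.divisors,
      (q : ℝ) / |(D : ℝ)| *
        ∏ j : Fin (g + 3), (((zB (S.QS (f j.succ.succ)) (S.PS (f j.succ.succ))).filter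
          fun z => (q : ℤ) ∣ DB d (t 0) (t' 0) (t j.succ.succ) (t' j.succ.succ) z1 z).card : ℝ) ≤
      ((Q1 : ℝ) * ((S.L : ℝ) * (S.M : ℝ) ^ 2) ^ (g + 3) +
        (q1 : ℝ) * (2 * ((S.R : ℝ) * S.L)) ^ (g + 3) +
        (Q2 : ℝ) * ((S.R : ℝ) * (S.M : ℝ) ^ 2) ^ (g + 3)) * (1 / |(D : ℝ)|) +
          ((S.R : ℝ) ^ 2) ^ (g + 3) := by
    intro q hq
    have hqd : q ∣ D.natAbs := Nat.dvd_of_mem_divisors hq
    have hq1 : 1 ≤ q := Nat.pos_of_dvd_of_pos hqd hD1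
    have hqD : q ≤ D.natAbs := Nat.le_of_dvd hD1 hqd
    have hqB : q ≤ S.B ^ (8 * d) := hqD.trans hDB
    have hqr : (q : ℝ) / |(D : ℝ)| ≤ 1 := by
      rw [div_le_one hDpos, hDr]
      exact_mod_cast hqD
    have hqr0 : (0 : ℝ) ≤ (q : ℝ) / |(D : ℝ)| := by positivity
    have n0 : (0 : ℝ) ≤ 1 / |(D : ℝ)| := by positivity
    have n1 : (0 : ℝ) ≤ (Q1 : ℝ) * ((S.L : ℝ) * (S.M : ℝ) ^ 2) ^ (g + 3) * (1 / |(D : ℝ)|) := by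
      positivity
    have n2 : (0 : ℝ) ≤ (q1 : ℝ) * (2 * ((S.R : ℝ) * S.L)) ^ (g + 3) * (1 / |(D : ℝ)|) := by
      positivity
    have n3 : (0 : ℝ) ≤ (Q2 : ℝ) * ((S.R : ℝ) * (S.M : ℝ) ^ 2) ^ (g + 3) * (1 / |(D : ℝ)|) := by
      positivity
    have n4 : (0 : ℝ) ≤ ((S.R : ℝ) ^ 2) ^ (g + 3) := by positivity
    rw [add_mul, add_mul]
    -- general bound
    have gen : ∀ c : ℝ, (∀ j : Fin (g + 3),
          (((zB (S.QS (f j.succ.succ)) (S.PS (f j.succ.succ))).filter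
            fun z => (q : ℤ) ∣ DB d (t 0) (t' 0) (t j.succ.succ) (t' j.succ.succ) z1 z).card : ℝ) ≤
          c) → (q : ℝ) / |(D : ℝ)| *
        ∏ j : Fin (g + 3), (((zB (S.QS (f j.succ.succ)) (S.PS (f j.succ.succ))).filter
          fun z => (q : ℤ) ∣ DB d (t 0) (t' 0) (t j.succ.succ) (t' j.succ.succ) z1 z).card : ℝ) ≤
          (q : ℝ) / |(D : ℝ)| * c ^ (g + 3) := by
      intro c hj
      have hprod := Finset.prod_le_prod (s := (univ : Finset (Fin (g + 3))))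
        (fun j _ => Nat.cast_nonneg (α := ℝ) (((zB (S.QS (f j.succ.succ))
          (S.PS (f j.succ.succ))).filter fun z => (q : ℤ) ∣ DB d (t 0) (t' 0) (t j.succ.succ)
            (t' j.succ.succ) z1 z).card)) (fun j _ => hj j)
      rw [Finset.prod_const, Finset.card_univ, Fintype.card_fin] at hprod
      exact mul_le_mul_of_nonneg_left hprod hqr0
    have upto : ∀ (X : ℕ) (c : ℝ), q ≤ X → 0 ≤ c → (q : ℝ) / |(D : ℝ)| * c ≤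
        (X : ℝ) * c * (1 / |(D : ℝ)|) := by
      intro X c hX hc
      have hX' : (q : ℝ) ≤ X := by exact_mod_cast hX
      calc (q : ℝ) / |(D : ℝ)| * c = (q : ℝ) * c * (1 / |(D : ℝ)|) := by ring
        _ ≤ _ := by gcongr
    have hne : ∀ j : Fin (g + 3), f 0 ≠ f j.succ.succ := fun j h => by
      have := hf h
      exact absurd this.symm (Fin.succ_ne_zero _)
    by_cases hc : Q1 ≤ q
    · obtain ⟨hcL, hcR⟩ := hcop q hqd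
      have hj := fun j : Fin (g + 3) => one_idx S (hne j) (ht 0).1 (ht 0).2 (ht j.succ.succ).1
        (ht j.succ.succ).2 hz1 hq1 hqB hcL hcR (hQ1 ▸ hc)
      by_cases hc2 : q ≤ q1
      · refine (gen _ fun j => (hj j).1 (hq1' ▸ hc2)).trans ?_
        have h1 := upto q1 ((2 * ((S.R : ℝ) * S.L)) ^ (g + 3)) hc2 (by positivity)
        linarith
      · by_cases hc3 : Q2 ≤ q
        · refine (gen _ fun j => (hj j).2.2 (hq1' ▸ hc2) (hQ2 ▸ hc3)).trans ?_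
          have h1 := mul_le_mul_of_nonneg_right hqr n4
          rw [one_mul] at h1
          linarith
        · refine (gen _ fun j => (hj j).2.1 (hq1' ▸ hc2)).trans ?_
          have h1 := upto Q2 (((S.R : ℝ) * (S.M : ℝ) ^ 2) ^ (g + 3)) (not_le.1 hc3).le
            (by positivity)
          linarith
    · refine (gen ((S.L : ℝ) * (S.M : ℝ) ^ 2) fun j => ?_).trans ?_
      · have h1 := (card_filter_le (zB (S.QS (f j.succ.succ)) (S.PS (f j.succ.succ)))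
          (fun z => (q : ℤ) ∣ DB d (t 0) (t' 0) (t j.succ.succ) (t' j.succ.succ) z1 z)).trans
          ((zB_card _ _).trans (Nat.mul_le_mul (S.PS_card_le _)
            (Nat.pow_le_pow_left (S.QS_card_le _) 2)))
        exact_mod_cast h1
      · have h1 := upto Q1 (((S.L : ℝ) * (S.M : ℝ) ^ 2) ^ (g + 3)) (not_le.1 hc).le
          (by positivity)
        linarith
  refine (Finset.sum_le_card_nsmul _ _ _ hterm).trans ?_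
  rw [nsmul_eq_mul]
  have hτ : ((D.natAbs.divisors.card : ℕ) : ℝ) ≤ S.R := by
    exact_mod_cast S.tau_le D.natAbs hD1 hDB
  apply mul_le_mul_of_nonneg_right hτ
  positivity

theorem sum_B (d g h s m v E : ℕ) : ∃ C : ℝ, 0 < C ∧ ∀ (S : St d g h s m v E)
    (f : Fin (g + 3 + 2) → Fin s), Function.Injective f → ∀ (t t' : Fin (g + 3 + 2) → ℕ),
    (∀ j, t j ∈ S.I ∧ t' j ∈ S.I) →
    ∑ z1 ∈ zB (S.QS (f 0)) (S.PS (f 0)), ∑ z2 ∈ zB (S.QS (f 1)) (S.PS (f 1)),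
      ∑ q ∈ (DB d (t 0) (t' 0) (t 1) (t' 1) z1 z2).natAbs.divisors,
        (q : ℝ) / |((DB d (t 0) (t' 0) (t 1) (t' 1) z1 z2 : ℤ) : ℝ)| *
        ∏ j : Fin (g + 3), (((zB (S.QS (f j.succ.succ)) (S.PS (f j.succ.succ))).filter
          fun z => (q : ℤ) ∣ DB d (t 0) (t' 0) (t j.succ.succ) (t' j.succ.succ) z1 z).card : ℝ) ≤
      C * (S.R : ℝ) ^ (cA d * m) * (S.B : ℝ) ^ 4 := by
  obtain ⟨C, hC, hinv⟩ := inv_B d g h s m v E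
  refine ⟨C * 16 + C * (16 ^ d * 2 ^ (g + 3)) + C * (16 * 4 ^ d) + 1, by positivity, ?_⟩
  intro S f hf t t' ht
  have h01 : f 0 ≠ f 1 := fun h => by
    have := hf h
    exact absurd this (by simp)
  obtain ⟨hne, hI1⟩ := hinv S (f 0) (f 1) h01 (t 0) (ht 0).1 (t' 0) (ht 0).2 (t 1) (ht 1).1
    (t' 1) (ht 1).2
  refine (Finset.sum_le_sum fun z1 hz1 => Finset.sum_le_sum fun z2 hz2 =>
    one_pair S f hf t t' ht z1 z2 hz1 hz2 (hne z1 hz1 z2 hz2)).trans ?_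
  obtain ⟨F, hF⟩ : ∃ F : ℕ × (ℕ × ℕ) → ℕ × (ℕ × ℕ) → ℝ, F = fun z1 z2 =>
      1 / |((DB d (t 0) (t' 0) (t 1) (t' 1) z1 z2 : ℤ) : ℝ)| := ⟨_, rfl⟩
  obtain ⟨a1, ha1⟩ : ∃ a1 : ℝ, a1 = ((S.T : ℝ) ^ (2 * d) * (16 * (S.M : ℝ) ^ 2)) *
      ((S.L : ℝ) * (S.M : ℝ) ^ 2) ^ (g + 3) := ⟨_, rfl⟩
  obtain ⟨a2, ha2⟩ : ∃ a2 : ℝ, a2 = ((4 * ((S.T : ℝ) * S.M)) ^ d * (4 * ((S.T : ℝ) * S.M)) ^ d) *
      (2 * ((S.R : ℝ) * S.L)) ^ (g + 3) := ⟨_, rfl⟩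
  obtain ⟨a3, ha3⟩ : ∃ a3 : ℝ, a3 = ((S.T : ℝ) ^ (2 * d) * (16 * (S.M : ℝ) ^ 2) *
      (4 * (S.L : ℝ)) ^ d) * ((S.R : ℝ) * (S.M : ℝ) ^ 2) ^ (g + 3) := ⟨_, rfl⟩
  obtain ⟨b, hb⟩ : ∃ b : ℝ, b = ((S.R : ℝ) ^ 2) ^ (g + 3) := ⟨_, rfl⟩
  obtain ⟨Z1, hZ1⟩ : ∃ Z1, Z1 = zB (S.QS (f 0)) (S.PS (f 0)) := ⟨_, rfl⟩
  obtain ⟨Z2, hZ2⟩ : ∃ Z2, Z2 = zB (S.QS (f 1)) (S.PS (f 1)) := ⟨_, rfl⟩
  obtain ⟨I2, hI2⟩ : ∃ I2 : ℝ, I2 = ∑ z1 ∈ Z1, ∑ z2 ∈ Z2, F z1 z2 := ⟨_, rfl⟩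
  have hI1' : I2 ≤ C * S.R * (S.L : ℝ) ^ 2 * (S.M : ℝ) ^ 2 /
      ((S.L : ℝ) ^ d * (S.M : ℝ) ^ (2 * (d - 1))) := by
    rw [hI2, hF, hZ1, hZ2]
    exact hI1
  have hsum : ∑ z1 ∈ Z1, ∑ z2 ∈ Z2, (S.R : ℝ) * ((a1 + a2 + a3) * F z1 z2 + b) =
      S.R * (a1 * I2) + S.R * (a2 * I2) + S.R * (a3 * I2) +
        S.R * ((Z1.card : ℝ) * Z2.card * b) := by
    rw [hI2]
    simp only [mul_add, Finset.sum_add_distrib, Finset.sum_const, nsmul_eq_mul, ← Finset.mul_sum]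
    ring
  have hgoal : ∑ z1 ∈ zB (S.QS (f 0)) (S.PS (f 0)), ∑ z2 ∈ zB (S.QS (f 1)) (S.PS (f 1)),
      (S.R * ((((S.T : ℝ) ^ (2 * d) * (16 * (S.M : ℝ) ^ 2)) *
        ((S.L : ℝ) * (S.M : ℝ) ^ 2) ^ (g + 3) +
        ((4 * ((S.T : ℝ) * S.M)) ^ d * (4 * ((S.T : ℝ) * S.M)) ^ d) *
          (2 * ((S.R : ℝ) * S.L)) ^ (g + 3) +
        ((S.T : ℝ) ^ (2 * d) * (16 * (S.M : ℝ) ^ 2) * (4 * (S.L : ℝ)) ^ d) *
          ((S.R : ℝ) * (S.M : ℝ) ^ 2) ^ (g + 3)) *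
        (1 / |((DB d (t 0) (t' 0) (t 1) (t' 1) z1 z2 : ℤ) : ℝ)|) +
          ((S.R : ℝ) ^ 2) ^ (g + 3)) : ℝ) =
      ∑ z1 ∈ Z1, ∑ z2 ∈ Z2, (S.R : ℝ) * ((a1 + a2 + a3) * F z1 z2 + b) := by
    rw [hF, ha1, ha2, ha3, hb, hZ1, hZ2]
  rw [hgoal, hsum]
  -- numbers
  have hdg := S.hdg
  have hh1 := S.hh1
  have hm := S.hm
  have hR1 : (1 : ℝ) ≤ S.R := by exact_mod_cast S.R_pos
  have hM1 : (1 : ℝ) ≤ S.M := by exact_mod_cast S.M_pos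
  have hL1 : (1 : ℝ) ≤ S.L := by exact_mod_cast S.L_pos
  have hT1 : (1 : ℝ) ≤ S.T := by exact_mod_cast S.T_pos
  have hTR : (S.T : ℝ) = (S.R : ℝ) ^ m := by
    unfold St.T
    push_cast
    ring
  obtain ⟨x, hx⟩ : ∃ x : ℝ, x = (S.M : ℝ) * S.L := ⟨_, rfl⟩
  have hxB : x ≤ S.B := by
    have h1 : S.M * S.L ≤ S.B := by
      rw [S.B_eq]
      have h2 : S.M * S.L ≤ S.M * S.L * S.T := Nat.le_mul_of_pos_right _ S.T_pos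
      omega
    rw [hx]
    exact_mod_cast h1
  have hMx : (S.M : ℝ) ≤ x := by
    rw [hx]
    exact le_mul_of_one_le_right (by linarith) hL1
  have hLx : (S.L : ℝ) ≤ x := by
    rw [hx]
    exact le_mul_of_one_le_left (by linarith) hM1
  have hB0 : (1 : ℝ) ≤ S.B := hM1.trans (hMx.trans hxB)
  have hB1 : (1 : ℝ) ≤ (S.B : ℝ) ^ 4 := one_le_pow₀ hB0
  have hRpow : ∀ k : ℕ, k ≤ cA d * m → (S.R : ℝ) ^ k ≤ (S.R : ℝ) ^ (cA d * m) := fun k hk =>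
    pow_le_pow_right₀ hR1 hk
  obtain ⟨RR, hRR⟩ : ∃ RR : ℝ, RR = (S.R : ℝ) ^ (cA d * m) := ⟨_, rfl⟩
  have hRR1 : 1 ≤ RR := by
    rw [hRR]
    exact one_le_pow₀ hR1
  have hRT : ∀ k : ℕ, k ≤ 2 * d + 100 → (S.R : ℝ) ^ k * (S.T : ℝ) ^ (2 * d) ≤ RR := by
    intro k hk
    rw [hTR, ← pow_mul, ← pow_add, hRR]
    apply hRpow
    unfold cA
    have e1 : (60 * d + 200) * m = (2 * d + 100) * m + m * (2 * d) + (56 * d + 100) * m := by ring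
    have e2 : (2 * d + 100) * 1 ≤ (2 * d + 100) * m := Nat.mul_le_mul_left _ hm
    omega
  rw [← hRR]
  have hC0 := hC.le
  obtain ⟨K, hK⟩ : ∃ K, K = g + 3 := ⟨_, rfl⟩
  rw [← hK] at ha1 ha2 ha3 hb
  have hKd : K + 2 ≤ d ∧ 2 * K + 4 ≤ 2 * (d - 1) := by omega
  have hLd : (0 : ℝ) < (S.L : ℝ) ^ d := by positivity
  have hMd : (0 : ℝ) < (S.M : ℝ) ^ (2 * (d - 1)) := by positivity
  have hR0 : (0 : ℝ) ≤ S.R := by linarith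
  have hratL : (S.L : ℝ) ^ (K + 2) / (S.L : ℝ) ^ d ≤ 1 := by
    rw [div_le_one hLd]
    exact pow_le_pow_right₀ hL1 hKd.1
  have hratM : (S.M : ℝ) ^ (2 * K + 4) / (S.M : ℝ) ^ (2 * (d - 1)) ≤ 1 := by
    rw [div_le_one hMd]
    exact pow_le_pow_right₀ hM1 hKd.2
  have t1 : (S.R : ℝ) * (a1 * I2) ≤ C * 16 * RR * (S.B : ℝ) ^ 4 := by
    have ha0 : 0 ≤ a1 := by rw [ha1]; positivity
    calc (S.R : ℝ) * (a1 * I2) ≤ (S.R : ℝ) * (a1 * (C * S.R * (S.L : ℝ) ^ 2 * (S.M : ℝ) ^ 2 /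
          ((S.L : ℝ) ^ d * (S.M : ℝ) ^ (2 * (d - 1))))) := by
          gcongr
      _ = C * 16 * ((S.R : ℝ) ^ 2 * (S.T : ℝ) ^ (2 * d)) *
          (((S.L : ℝ) ^ (K + 2) / (S.L : ℝ) ^ d) *
            ((S.M : ℝ) ^ (2 * K + 4) / (S.M : ℝ) ^ (2 * (d - 1)))) := by
          rw [ha1]
          have e1 : (S.L : ℝ) ^ (K + 2) = (S.L : ℝ) ^ K * (S.L : ℝ) ^ 2 := pow_add _ _ _
          have e2 : (S.M : ℝ) ^ (2 * K + 4) = ((S.M : ℝ) ^ 2) ^ K * (S.M : ℝ) ^ 4 := by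
            rw [pow_add, pow_mul]
          rw [e1, e2, mul_pow]
          ring
      _ ≤ C * 16 * RR * 1 := by
          apply mul_le_mul
          · apply mul_le_mul_of_nonneg_left (hRT 2 (by omega)) (by positivity)
          · exact mul_le_one₀ hratL (by positivity) hratM
          · positivity
          · positivity
      _ ≤ C * 16 * RR * (S.B : ℝ) ^ 4 := by
          apply mul_le_mul_of_nonneg_left hB1 (by positivity)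
  have t2 : (S.R : ℝ) * (a2 * I2) ≤ C * (16 ^ d * 2 ^ (g + 3)) * RR * (S.B : ℝ) ^ 4 := by
    have ha0 : 0 ≤ a2 := by rw [ha2]; positivity
    have hMM : (S.M : ℝ) ^ (2 * d) * (S.M : ℝ) ^ 2 / (S.M : ℝ) ^ (2 * (d - 1)) = (S.M : ℝ) ^ 4 := by
      rw [div_eq_iff hMd.ne', ← pow_add, ← pow_add]
      congr 1
      omega
    calc (S.R : ℝ) * (a2 * I2) ≤ (S.R : ℝ) * (a2 * (C * S.R * (S.L : ℝ) ^ 2 * (S.M : ℝ) ^ 2 /
          ((S.L : ℝ) ^ d * (S.M : ℝ) ^ (2 * (d - 1))))) := by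
          gcongr
      _ = C * (16 ^ d * 2 ^ K) * ((S.R : ℝ) ^ (K + 2) * (S.T : ℝ) ^ (2 * d)) *
          (((S.L : ℝ) ^ (K + 2) / (S.L : ℝ) ^ d) *
            ((S.M : ℝ) ^ (2 * d) * (S.M : ℝ) ^ 2 / (S.M : ℝ) ^ (2 * (d - 1)))) := by
          rw [ha2]
          have e1 : (S.L : ℝ) ^ (K + 2) = (S.L : ℝ) ^ K * (S.L : ℝ) ^ 2 := pow_add _ _ _
          have e2 : (4 * ((S.T : ℝ) * S.M)) ^ d * (4 * ((S.T : ℝ) * S.M)) ^ d =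
              16 ^ d * ((S.T : ℝ) ^ (2 * d) * (S.M : ℝ) ^ (2 * d)) := by
            rw [← mul_pow, pow_mul, pow_mul, ← mul_pow, ← mul_pow]
            congr 1
            ring
          have e3 : (S.R : ℝ) ^ (K + 2) = (S.R : ℝ) ^ K * (S.R : ℝ) ^ 2 := pow_add _ _ _
          rw [e1, e2, e3, mul_pow, mul_pow]
          ring
      _ = C * (16 ^ d * 2 ^ K) * ((S.R : ℝ) ^ (K + 2) * (S.T : ℝ) ^ (2 * d)) *
          (((S.L : ℝ) ^ (K + 2) / (S.L : ℝ) ^ d) * (S.M : ℝ) ^ 4) := by rw [hMM]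
      _ ≤ C * (16 ^ d * 2 ^ K) * RR * (1 * (S.B : ℝ) ^ 4) := by
          apply mul_le_mul
          · apply mul_le_mul_of_nonneg_left (hRT _ (by omega)) (by positivity)
          · apply mul_le_mul hratL (pow_le_pow_left₀ (by linarith) (hMx.trans hxB) 4)
              (by positivity) (by norm_num)
          · positivity
          · positivity
      _ = C * (16 ^ d * 2 ^ (g + 3)) * RR * (S.B : ℝ) ^ 4 := by rw [one_mul, hK]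
  have t3 : (S.R : ℝ) * (a3 * I2) ≤ C * (16 * 4 ^ d) * RR * (S.B : ℝ) ^ 4 := by
    have ha0 : 0 ≤ a3 := by rw [ha3]; positivity
    have hLL : (S.L : ℝ) ^ d * (S.L : ℝ) ^ 2 / (S.L : ℝ) ^ d = (S.L : ℝ) ^ 2 := by
      rw [mul_comm, mul_div_assoc, div_self hLd.ne', mul_one]
    calc (S.R : ℝ) * (a3 * I2) ≤ (S.R : ℝ) * (a3 * (C * S.R * (S.L : ℝ) ^ 2 * (S.M : ℝ) ^ 2 /
          ((S.L : ℝ) ^ d * (S.M : ℝ) ^ (2 * (d - 1))))) := by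
          gcongr
      _ = C * (16 * 4 ^ d) * ((S.R : ℝ) ^ (K + 2) * (S.T : ℝ) ^ (2 * d)) *
          (((S.M : ℝ) ^ (2 * K + 4) / (S.M : ℝ) ^ (2 * (d - 1))) *
            ((S.L : ℝ) ^ d * (S.L : ℝ) ^ 2 / (S.L : ℝ) ^ d)) := by
          rw [ha3]
          have e2 : (S.M : ℝ) ^ (2 * K + 4) = ((S.M : ℝ) ^ 2) ^ K * (S.M : ℝ) ^ 4 := by
            rw [pow_add, pow_mul]
          have e3 : (S.R : ℝ) ^ (K + 2) = (S.R : ℝ) ^ K * (S.R : ℝ) ^ 2 := pow_add _ _ _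
          rw [e2, e3, mul_pow, mul_pow]
          ring
      _ = C * (16 * 4 ^ d) * ((S.R : ℝ) ^ (K + 2) * (S.T : ℝ) ^ (2 * d)) *
          (((S.M : ℝ) ^ (2 * K + 4) / (S.M : ℝ) ^ (2 * (d - 1))) * (S.L : ℝ) ^ 2) := by rw [hLL]
      _ ≤ C * (16 * 4 ^ d) * RR * (1 * (S.B : ℝ) ^ 4) := by
          apply mul_le_mul
          · apply mul_le_mul_of_nonneg_left (hRT _ (by omega)) (by positivity)
          · apply mul_le_mul hratM _ (by positivity) (by norm_num)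
            calc (S.L : ℝ) ^ 2 ≤ (S.B : ℝ) ^ 2 :=
                  pow_le_pow_left₀ (by linarith) (hLx.trans hxB) 2
              _ ≤ (S.B : ℝ) ^ 4 := pow_le_pow_right₀ hB0 (by norm_num)
          · positivity
          · positivity
      _ = C * (16 * 4 ^ d) * RR * (S.B : ℝ) ^ 4 := by rw [one_mul]
  have t4 : (S.R : ℝ) * ((Z1.card : ℝ) * Z2.card * b) ≤ 1 * RR * (S.B : ℝ) ^ 4 := by
    have hz : ∀ i, ((zB (S.QS i) (S.PS i)).card : ℝ) ≤ (S.L : ℝ) * (S.M : ℝ) ^ 2 := by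
      intro i
      have h1 := (zB_card (S.QS i) (S.PS i)).trans (Nat.mul_le_mul (S.PS_card_le i)
        (Nat.pow_le_pow_left (S.QS_card_le i) 2))
      exact_mod_cast h1
    have hz1 : (Z1.card : ℝ) ≤ (S.L : ℝ) * (S.M : ℝ) ^ 2 := by rw [hZ1]; exact hz _
    have hz2 : (Z2.card : ℝ) ≤ (S.L : ℝ) * (S.M : ℝ) ^ 2 := by rw [hZ2]; exact hz _
    have hb0 : 0 ≤ b := by rw [hb]; positivity
    calc (S.R : ℝ) * ((Z1.card : ℝ) * Z2.card * b)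
        ≤ (S.R : ℝ) * (((S.L : ℝ) * (S.M : ℝ) ^ 2) * ((S.L : ℝ) * (S.M : ℝ) ^ 2) * b) := by
          gcongr
      _ = (S.R : ℝ) ^ (2 * K + 1) * ((S.L : ℝ) ^ 2 * (S.M : ℝ) ^ 4) := by
          rw [hb, pow_add, pow_mul, pow_one]
          ring
      _ ≤ RR * (S.B : ℝ) ^ 4 := by
          apply mul_le_mul
          · have h1 := hRT (2 * K + 1) (by omega)
            have h2 : (S.R : ℝ) ^ (2 * K + 1) ≤ (S.R : ℝ) ^ (2 * K + 1) * (S.T : ℝ) ^ (2 * d) :=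
              le_mul_of_one_le_right (by positivity) (one_le_pow₀ hT1)
            exact h2.trans h1
          · calc (S.L : ℝ) ^ 2 * (S.M : ℝ) ^ 4 ≤ (S.L : ℝ) ^ 4 * (S.M : ℝ) ^ 4 := by
                  apply mul_le_mul_of_nonneg_right _ (by positivity)
                  exact pow_le_pow_right₀ hL1 (by norm_num)
              _ = x ^ 4 := by rw [hx]; ring
              _ ≤ (S.B : ℝ) ^ 4 := pow_le_pow_left₀ (by linarith) hxB 4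
          · positivity
          · positivity
      _ = 1 * RR * (S.B : ℝ) ^ 4 := by ring
  calc (S.R : ℝ) * (a1 * I2) + S.R * (a2 * I2) + S.R * (a3 * I2) +
        S.R * ((Z1.card : ℝ) * Z2.card * b)
      ≤ C * 16 * RR * (S.B : ℝ) ^ 4 + C * (16 ^ d * 2 ^ (g + 3)) * RR * (S.B : ℝ) ^ 4 +
        C * (16 * 4 ^ d) * RR * (S.B : ℝ) ^ 4 + 1 * RR * (S.B : ℝ) ^ 4 :=
          add_le_add (add_le_add (add_le_add t1 t2) t3) t4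
    _ = (C * 16 + C * (16 ^ d * 2 ^ (g + 3)) + C * (16 * 4 ^ d) + 1) * RR * (S.B : ℝ) ^ 4 := by
        ring

end Pool.Agent.Lib.MP_e426f4_ag.DH
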