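import Pool.Agent.Lib.MP_e426f4_ag.DH.CsM
import Pool.Agent.Lib.MP_e426f4_ag.DH.NoMaj
import Pool.Agent.Lib.MP_e426f4_ag.DH.Lossy
import Pool.Agent.Lib.MP_e426f4_ag.DG.ArcEx

/-!
# SupN: the sup bound for HIGH frequencies

`cs_m`, `lossy_small` (with an arc system `A2` from `exists_arc`), `no_major`: `F_i(b,b) ≤ |QS i|² C H R² 2 BB`,
`|QS i| ≤ M` and `M² BB ≤ M B`.
-/

set_option autoImplicit false

namespace Pool.Agent.Lib.MP_e426f4_ag.DH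

open Finset
open Pool.Agent.Lib.MP_e426f4_ag.DG

theorem sup_high (d g h s E : ℕ) (hd : 4 ≤ d) (hE : 2 ≤ E) : ∃ C : ℝ, 1 ≤ C ∧ ∀ (m v : ℕ)
    (S : St d g h s m v E) (A : Arc S.P (4 * S.B ^ d)) (b : ZMod S.P) (i : Fin s), S.H < A.q b →
    FF S.P S.n d (S.X i) b b ≤ C * (S.R : ℝ) ^ 2 * S.H * S.M * S.B := by
  obtain ⟨C, hC, hl⟩ := lossy_small d g h s E hd hE
  refine ⟨C, hC, fun m v S A b i hb => ?_⟩
  obtain ⟨A2⟩ := exists_arc S.P (4 * S.BB ^ d) S.prime.pos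
    (by have := Nat.pow_le_pow_left S.BB_pos d; simp at this; omega)
  have hQ : ((S.QS i).card : ℝ) ≤ S.M := by exact_mod_cast S.QS_card_le i
  have hBB : (1 : ℝ) ≤ S.BB := by exact_mod_cast S.BB_pos
  have hB : (S.B : ℝ) = 4 * S.M * S.BB := by exact_mod_cast S.B_eq_BB
  have hM0 : (0 : ℝ) ≤ S.M := Nat.cast_nonneg _
  have hH0 : (0 : ℝ) ≤ S.H := Nat.cast_nonneg _
  have hR0 : (0 : ℝ) ≤ (S.R : ℝ) ^ 2 := by positivity
  have hone : ∀ q ∈ S.QS i, FF S.P S.n d (S.Y i) (b * (q : ZMod S.P) ^ d) (b * (q : ZMod S.P) ^ d) ≤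
      C * S.H * (S.R : ℝ) ^ 2 * (2 * S.BB) := by
    intro q hq
    obtain ⟨_, hq1, hq2⟩ := S.hQS i q hq
    have h1 := hl m v S A2 (b * (q : ZMod S.P) ^ d) i
    have h2 := no_major S A A2 b hb q hq1 hq2
    refine h1.trans ?_
    have h3 : (S.BB : ℝ) ^ 2 * (kap d (A2.q (b * (q : ZMod S.P) ^ d)) /
        max 1 ((S.H : ℝ) * (S.BB : ℝ) ^ d * |A2.dl (b * (q : ZMod S.P) ^ d)|)) ≤ S.BB := by
      have := mul_le_mul_of_nonneg_left h2 (by linarith : (0 : ℝ) ≤ S.BB)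
      calc _ = (S.BB : ℝ) * ((S.BB : ℝ) * (kap d (A2.q (b * (q : ZMod S.P) ^ d)) /
        max 1 ((S.H : ℝ) * (S.BB : ℝ) ^ d * |A2.dl (b * (q : ZMod S.P) ^ d)|))) := by ring
        _ ≤ S.BB * 1 := this
        _ = S.BB := mul_one _
    have h4 : 0 ≤ C * S.H * (S.R : ℝ) ^ 2 := by positivity
    exact mul_le_mul_of_nonneg_left (by linarith) h4
  calc FF S.P S.n d (S.X i) b b ≤ ((S.QS i).card : ℝ) * ∑ q ∈ S.QS i,
      FF S.P S.n d (S.Y i) (b * (q : ZMod S.P) ^ d) (b * (q : ZMod S.P) ^ d) := cs_m S i b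
    _ ≤ ((S.QS i).card : ℝ) * ∑ q ∈ S.QS i, C * S.H * (S.R : ℝ) ^ 2 * (2 * S.BB) := by
        gcongr with q hq
        exact hone q hq
    _ = ((S.QS i).card : ℝ) ^ 2 * (C * S.H * (S.R : ℝ) ^ 2 * (2 * S.BB)) := by
        rw [Finset.sum_const, nsmul_eq_mul]
        ring
    _ ≤ (S.M : ℝ) ^ 2 * (C * S.H * (S.R : ℝ) ^ 2 * (2 * S.BB)) := by
        gcongr
    _ ≤ C * (S.R : ℝ) ^ 2 * S.H * S.M * S.B := by
        rw [hB]
        have : 0 ≤ C * (S.R : ℝ) ^ 2 * S.H * S.M * (S.M * S.BB) := by positivity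
        nlinarith

end Pool.Agent.Lib.MP_e426f4_ag.DH
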